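import Pool.Agent.TurMod.Glue

/-!
# Menger's theorem (sets, vertex-disjoint paths), for directed graphs
-/

namespace TurMod

open Finset

variable {V : Type*}

/-- `l` is a walk of the relation `r` from a vertex of `A` to a vertex of `B` -/
def WalkAB (r : V → V → Prop) (A B : Finset V) (l : List V) : Prop :=
  l.IsChain r ∧ (∃ a ∈ A, l.head? = some a) ∧ (∃ b ∈ B, l.getLast? = some b)

/-- `X` meets all walks from `A` to `B` -/
def Sep (r : V → V → Prop) (A B X : Finset V) : Prop := ∀ l, WalkAB r A B l → ∃ v ∈ l, v ∈ X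

/- MODULE MN1 -/
private theorem MN1_first (Q : V → Prop) : ∀ l : List V, (∃ v ∈ l, Q v) →
    ∃ (l' : List V) (b : V) (t : List V), l = l' ++ b :: t ∧ Q b ∧ ∀ v ∈ l', ¬ Q v := by
  intro l
  induction l with
  | nil => rintro ⟨v, hv, _⟩; simp at hv
  | cons a l ih =>
    intro h
    by_cases ha : Q a
    · exact ⟨[], a, l, rfl, ha, by simp⟩
    · obtain ⟨v, hv, hQ⟩ := h
      rcases List.mem_cons.1 hv with rfl | hv'
      · exact absurd hQ ha
      · obtain ⟨l', b, t, h1, h2, h3⟩ := ih ⟨v, hv', hQ⟩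
        refine ⟨a :: l', b, t, by rw [h1]; rfl, h2, ?_⟩
        intro w hw
        rcases List.mem_cons.1 hw with rfl | hw'
        · exact ha
        · exact h3 w hw'

private theorem MN1_last (Q : V → Prop) (l : List V) (h : ∃ v ∈ l, Q v) :
    ∃ (t : List V) (b : V) (l' : List V), l = t ++ b :: l' ∧ Q b ∧ ∀ v ∈ l', ¬ Q v := by
  obtain ⟨v, hv, hQ⟩ := h
  obtain ⟨l', b, t, h1, h2, h3⟩ := MN1_first Q l.reverse ⟨v, List.mem_reverse.2 hv, hQ⟩
  refine ⟨t.reverse, b, l'.reverse, ?_, h2, fun w hw => h3 w (List.mem_reverse.1 hw)⟩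
  have h4 := congrArg List.reverse h1
  rw [List.reverse_reverse] at h4
  rw [h4]
  simp

/-- cutting a walk at its FIRST vertex in `B`. PROOF. Induction on the list (or
`List.takeWhile`). -/
theorem walk_cut_first {r : V → V → Prop} {A B C : Finset V} {l : List V} (h : WalkAB r A C l)
    (hB : ∃ v ∈ l, v ∈ B) : ∃ (l' : List V) (b : V), b ∈ B ∧ (l' ++ [b]) <+: l ∧ WalkAB r A B (l' ++ [b]) ∧
      ∀ v ∈ l', v ∉ B := by
  obtain ⟨hc, ⟨a, haA, ha⟩, _⟩ := h
  obtain ⟨l', b, t, h1, h2, h3⟩ := MN1_first (fun v => v ∈ B) l hB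
  have h4 : l = (l' ++ [b]) ++ t := by rw [h1]; simp
  refine ⟨l', b, h2, ⟨t, h4.symm⟩, ⟨?_, ⟨a, haA, ?_⟩, ⟨b, h2, by simp⟩⟩, h3⟩
  · rw [h4, List.isChain_append] at hc
    exact hc.1
  · rw [h4, List.head?_append_of_ne_nil _ (by simp)] at ha
    exact ha

/-- cutting a walk at its LAST vertex in `A`. PROOF. `List.reverse` and `walk_cut_first` for the
reversed relation, or induction. -/
theorem walk_cut_last {r : V → V → Prop} {A B C : Finset V} {l : List V} (h : WalkAB r C B l)
    (hA : ∃ v ∈ l, v ∈ A) : ∃ (l' : List V) (a : V), a ∈ A ∧ (a :: l') <:+ l ∧ WalkAB r A B (a :: l') ∧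
      ∀ v ∈ l', v ∉ A := by
  obtain ⟨hc, _, ⟨b, hbB, hb⟩⟩ := h
  obtain ⟨t, a, l', h1, h2, h3⟩ := MN1_last (fun v => v ∈ A) l hA
  refine ⟨l', a, h2, ⟨t, h1.symm⟩, ⟨?_, ⟨a, h2, by simp⟩, ⟨b, hbB, ?_⟩⟩, h3⟩
  · rw [h1, List.isChain_append] at hc
    exact hc.2.1
  · rw [h1, List.getLast?_append_of_ne_nil _ (by simp)] at hb
    exact hb

/-- A walk contains a path. PROOF. Take a shortest walk from `a` to `b` all of whose vertices are in
`l`; a repetition could be cut out. -/
theorem walk_to_path {r : V → V → Prop} {a b : V} {l : List V} (h : l.IsChain r)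
    (ha : l.head? = some a) (hb : l.getLast? = some b) :
    ∃ l' : List V, l'.IsChain r ∧ l'.Nodup ∧ l'.head? = some a ∧ l'.getLast? = some b ∧ ∀ v ∈ l', v ∈ l := by
  induction l generalizing a with
  | nil => simp at ha
  | cons c l ih =>
    simp only [List.head?_cons, Option.some.injEq] at ha
    subst ha
    cases l with
    | nil =>
      simp only [List.getLast?_singleton, Option.some.injEq] at hb
      subst hb
      exact ⟨[c], List.isChain_singleton c, by simp, by simp, by simp, by simp⟩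
    | cons d t =>
      have h1 := List.isChain_cons_cons.1 h
      have hb' : (d :: t).getLast? = some b := by simpa using hb
      obtain ⟨l', g1, g2, g3, g4, g5⟩ := ih h1.2 (a := d) (by simp) hb'
      by_cases hc : c ∈ l'
      · obtain ⟨u, w, hw⟩ := List.append_of_mem hc
        refine ⟨c :: w, ?_, ?_, by simp, ?_, ?_⟩
        · rw [hw, List.isChain_append] at g1
          exact g1.2.1
        · rw [hw] at g2
          exact (List.nodup_append.1 g2).2.1
        · rw [hw, List.getLast?_append_of_ne_nil _ (by simp)] at g4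
          exact g4
        · intro v hv
          exact List.mem_cons_of_mem _ (g5 v (by rw [hw]; exact List.mem_append_right _ hv))
      · refine ⟨c :: l', ?_, List.nodup_cons.2 ⟨hc, g2⟩, by simp, ?_, ?_⟩
        · rw [List.isChain_cons]
          refine ⟨?_, g1⟩
          intro y hy
          rw [g3] at hy
          simp only [Option.mem_def, Option.some.injEq] at hy
          subst hy
          exact h1.1
        · cases l' with
          | nil => simp at g3
          | cons e u => simpa using g4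
        · intro v hv
          rcases List.mem_cons.1 hv with rfl | hv'
          · exact List.mem_cons_self
          · exact List.mem_cons_of_mem _ (g5 v hv')

/- MODULE MN2 -/
private theorem MN2_cutP [DecidableEq V] {r' : V → V → Prop} {x : V} {A S : Finset V} {p : ℕ}
    (P : ℕ → List V) (hP : ∀ i < p, WalkAB r' A (insert x S) (P i)) :
    ∃ (P' : ℕ → List V) (σ : ℕ → V), ∀ i < p, σ i ∈ insert x S ∧ (P' i ++ [σ i]) <+: P i ∧
      WalkAB r' A (insert x S) (P' i ++ [σ i]) ∧ ∀ v ∈ P' i, v ∉ insert x S := by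
  have h : ∀ i, ∃ (l : List V) (b : V), i < p → (b ∈ insert x S ∧ (l ++ [b]) <+: P i ∧
      WalkAB r' A (insert x S) (l ++ [b]) ∧ ∀ v ∈ l, v ∉ insert x S) := by
    intro i
    by_cases hi : i < p
    · obtain ⟨b, hb, hb'⟩ := (hP i hi).2.2
      obtain ⟨l, c, h1, h2, h3, h4⟩ := walk_cut_first (hP i hi) ⟨b, List.mem_of_getLast? hb', hb⟩
      exact ⟨l, c, fun _ => ⟨h1, h2, h3, h4⟩⟩
    · exact ⟨[], x, fun h => absurd h hi⟩
  choose P' σ h' using h
  exact ⟨P', σ, h'⟩

private theorem MN2_cutQ [DecidableEq V] {r' : V → V → Prop} {y : V} {B S : Finset V} {p : ℕ}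
    (Q : ℕ → List V) (hQ : ∀ i < p, WalkAB r' (insert y S) B (Q i)) :
    ∃ (Q' : ℕ → List V) (τ : ℕ → V), ∀ i < p, τ i ∈ insert y S ∧ (τ i :: Q' i) <:+ Q i ∧
      WalkAB r' (insert y S) B (τ i :: Q' i) ∧ ∀ v ∈ Q' i, v ∉ insert y S := by
  have h : ∀ i, ∃ (l : List V) (b : V), i < p → (b ∈ insert y S ∧ (b :: l) <:+ Q i ∧
      WalkAB r' (insert y S) B (b :: l) ∧ ∀ v ∈ l, v ∉ insert y S) := by
    intro i
    by_cases hi : i < p
    · obtain ⟨b, hb, hb'⟩ := (hQ i hi).2.1
      obtain ⟨l, c, h1, h2, h3, h4⟩ := walk_cut_last (hQ i hi) ⟨b, mem_of_head? hb', hb⟩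
      exact ⟨l, c, fun _ => ⟨h1, h2, h3, h4⟩⟩
    · exact ⟨[], y, fun h => absurd h hi⟩
  choose Q' τ h' using h
  exact ⟨Q', τ, h'⟩

private theorem MN2_surj [DecidableEq V] (T : Finset V) (p : ℕ) (hT : T.card = p) (σ : ℕ → V)
    (h1 : ∀ i < p, σ i ∈ T) (h2 : ∀ i < p, ∀ j < p, i ≠ j → σ i ≠ σ j) (t : V) (ht : t ∈ T) :
    ∃ i < p, σ i = t := by
  have h3 : (range p).image σ = T := by
    refine Finset.eq_of_subset_of_card_le ?_ ?_
    · intro v hv
      obtain ⟨i, hi, rfl⟩ := Finset.mem_image.1 hv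
      exact h1 i (Finset.mem_range.1 hi)
    · rw [Finset.card_image_of_injOn, Finset.card_range, hT]
      intro i hi j hj h
      by_contra hne
      exact h2 i (Finset.mem_range.1 hi) j (Finset.mem_range.1 hj) hne h
  rw [← h3] at ht
  obtain ⟨i, hi, h⟩ := Finset.mem_image.1 ht
  exact ⟨i, Finset.mem_range.1 hi, h⟩

private theorem MN2_key [DecidableEq V] {r' : V → V → Prop} {x y : V} {A B S : Finset V}
    (hsep : Sep r' A B S) {P Q : List V} {σ τ : V}
    (hP : WalkAB r' A (insert x S) (P ++ [σ])) (hP' : ∀ v ∈ P, v ∉ insert x S)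
    (hQ : WalkAB r' (insert y S) B (τ :: Q)) (hQ' : ∀ v ∈ Q, v ∉ insert y S) {v : V}
    (h1 : v ∈ P ++ [σ]) (h2 : v ∈ τ :: Q) : v = σ ∧ v = τ ∧ v ∈ S := by
  obtain ⟨a1, a2, ha⟩ := List.append_of_mem h1
  obtain ⟨b1, b2, hb⟩ := List.append_of_mem h2
  have hw : WalkAB r' A B (a1 ++ v :: b2) := by
    obtain ⟨c1, ⟨a, haA, ha'⟩, _⟩ := hP
    obtain ⟨c2, _, ⟨b, hbB, hb'⟩⟩ := hQ
    rw [ha, List.isChain_split] at c1
    rw [hb, List.isChain_append] at c2
    refine ⟨List.isChain_split.2 ⟨c1.1, c2.2.1⟩, ⟨a, haA, ?_⟩, ⟨b, hbB, ?_⟩⟩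
    · rw [ha, List.head?_append] at ha'
      rw [List.head?_append]
      simpa using ha'
    · rw [hb, List.getLast?_append_of_ne_nil _ (by simp)] at hb'
      rw [List.getLast?_append_of_ne_nil _ (by simp)]
      exact hb'
  have hb2 : ∀ s ∈ b2, s ∈ Q := by
    intro s hs
    cases b1 with
    | nil =>
      simp only [List.nil_append, List.cons.injEq] at hb
      rw [hb.2]; exact hs
    | cons c b1 =>
      simp only [List.cons_append, List.cons.injEq] at hb
      rw [hb.2]; simp [hs]
  have ha1 : ∀ s ∈ a1, s ∈ P := by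
    intro s hs
    rcases List.eq_nil_or_concat a2 with h | ⟨a2', e, h⟩
    · subst h
      have := List.append_inj_left' ha rfl
      rw [this]; exact hs
    · rw [h] at ha
      have h3 : P ++ [σ] = (a1 ++ v :: a2') ++ [e] := by rw [ha]; simp
      have := List.append_inj_left' h3 rfl
      rw [this]; simp [hs]
  obtain ⟨s, hs, hsS⟩ := hsep _ hw
  have hvS : v ∈ S := by
    rcases List.mem_append.1 hs with h | h
    · exact absurd (Finset.mem_insert_of_mem hsS) (hP' s (ha1 s h))
    · rcases List.mem_cons.1 h with rfl | h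
      · exact hsS
      · exact absurd (Finset.mem_insert_of_mem hsS) (hQ' s (hb2 s h))
  refine ⟨?_, ?_, hvS⟩
  · rcases List.mem_append.1 h1 with h | h
    · exact absurd (Finset.mem_insert_of_mem hvS) (hP' v h)
    · simpa using h
  · rcases List.mem_cons.1 h2 with h | h
    · exact h
    · exact absurd (Finset.mem_insert_of_mem hvS) (hQ' v h)

/-- The gluing step in the proof of Menger's theorem.
`S` with `p - 1` elements separates `A` from `B` for `r'`, `x, y ∉ S`.  `p` disjoint walks of `r'` from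
`A` to `S ∪ {x}` and `p` disjoint walks of `r'` from `S ∪ {y}` to `B`.  With the additional edge `x → y`
we get `p` disjoint walks from `A` to `B`.
PROOF. Cut the walks of the first system at the first vertex in `SX = S ∪ {x}`: `P i = P' i ++ [σ i]`
with `σ i ∈ SX` and `P' i` outside `SX` (sublists of the old walks: still disjoint); so
`σ : {i < p} → SX` is injective, hence bijective (`|SX| = p`).  In the same way
`Q j = τ j :: Q' j`, `τ j ∈ SY = S ∪ {y}` bijective, `Q' j` outside `SY`.  If `v ∈ P i` and `v ∈ Q j` then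
the part of `P i` up to `v` followed by the part of `Q j` after `v` is a walk of `r'` from `A` to `B`,
so it meets `S` in some `s`.  If `s` is in the part of `P i` up to `v`, then (as `s ∈ SX`) `s` is the
last vertex of `P i`, so `v` is at the last place of `P i` too and `v = s = σ i`; then also
`v = s ∈ SY`, so `v = τ j`.  In the same way if `s` is in the part of `Q j` from `v` on.  So a common
vertex is in `S` and equals `σ i = τ j`.  Define the new walks, one for each `i < p`: if `σ i = s ∈ S`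
take `P i ++ Q' j` with `τ j = s`; if `σ i = x` take `P i ++ Q j` with `τ j = y` (edge `x → y`).
They are pairwise disjoint. -/
theorem menger_glue [DecidableEq V] (r r' : V → V → Prop) (x y : V)
    (hr : ∀ u v, r' u v → r u v) (hxy : r x y) (A B S : Finset V) (p : ℕ) (hS : S.card + 1 = p)
    (hx : x ∉ S) (hy : y ∉ S) (hsep : Sep r' A B S)
    (P : ℕ → List V) (hP : ∀ i < p, WalkAB r' A (insert x S) (P i))
    (hPd : ∀ i < p, ∀ j < p, i ≠ j → List.Disjoint (P i) (P j))
    (Q : ℕ → List V) (hQ : ∀ i < p, WalkAB r' (insert y S) B (Q i))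
    (hQd : ∀ i < p, ∀ j < p, i ≠ j → List.Disjoint (Q i) (Q j)) :
    ∃ W : ℕ → List V, (∀ i < p, WalkAB r A B (W i)) ∧
      ∀ i < p, ∀ j < p, i ≠ j → List.Disjoint (W i) (W j) := by
  obtain ⟨P', σ, hP'⟩ := MN2_cutP P hP
  obtain ⟨Q', τ, hQ'⟩ := MN2_cutQ Q hQ
  have hPP : ∀ i < p, ∀ v ∈ P' i ++ [σ i], v ∈ P i := fun i hi v hv =>
    (hP' i hi).2.1.subset hv
  have hQQ : ∀ i < p, ∀ v ∈ τ i :: Q' i, v ∈ Q i := fun i hi v hv =>
    (hQ' i hi).2.1.subset hv
  have hσ : ∀ i < p, ∀ j < p, i ≠ j → σ i ≠ σ j := by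
    intro i hi j hj hij h
    refine hPd i hi j hj hij (hPP i hi (σ i) (by simp)) ?_
    rw [h]
    exact hPP j hj (σ j) (by simp)
  have hτ : ∀ i < p, ∀ j < p, i ≠ j → τ i ≠ τ j := by
    intro i hi j hj hij h
    refine hQd i hi j hj hij (hQQ i hi (τ i) (by simp)) ?_
    rw [h]
    exact hQQ j hj (τ j) (by simp)
  have hSY : (insert y S).card = p := by rw [Finset.card_insert_of_notMem hy, hS]
  -- the matching of the two systems
  have hj : ∀ i, ∃ j, i < p → (j < p ∧ τ j = if σ i = x then y else σ i) := by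
    intro i
    by_cases hi : i < p
    · have h1 : (if σ i = x then y else σ i) ∈ insert y S := by
        split_ifs with h
        · exact Finset.mem_insert_self _ _
        · rcases Finset.mem_insert.1 (hP' i hi).1 with h2 | h2
          · exact absurd h2 h
          · exact Finset.mem_insert_of_mem h2
      obtain ⟨j, hj, h2⟩ := MN2_surj (insert y S) p hSY τ (fun i hi => (hQ' i hi).1) hτ _ h1
      exact ⟨j, fun _ => ⟨hj, h2⟩⟩
    · exact ⟨0, fun h => absurd h hi⟩
  choose m hm using hj
  have hσS : ∀ i < p, σ i ≠ x → σ i ∈ S := by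
    intro i hi h
    rcases Finset.mem_insert.1 (hP' i hi).1 with h2 | h2
    · exact absurd h2 h
    · exact h2
  have hmm : ∀ i < p, ∀ j < p, i ≠ j → m i ≠ m j := by
    intro i hi j hj hij h
    have h1 := (hm i hi).2
    have h2 := (hm j hj).2
    rw [h, h2] at h1
    by_cases h3 : σ i = x
    · by_cases h4 : σ j = x
      · exact hσ i hi j hj hij (h3.trans h4.symm)
      · rw [if_pos h3, if_neg h4] at h1
        exact hy (h1 ▸ hσS j hj h4)
    · by_cases h4 : σ j = x
      · rw [if_neg h3, if_pos h4] at h1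
        exact hy (h1 ▸ hσS i hi h3)
      · rw [if_neg h3, if_neg h4] at h1
        exact hσ i hi j hj hij h1.symm
  refine ⟨fun i => if σ i = x then (P' i ++ [σ i]) ++ (τ (m i) :: Q' (m i))
    else P' i ++ (τ (m i) :: Q' (m i)), ?_, ?_⟩
  · intro i hi
    obtain ⟨_, _, ⟨c1, ⟨a, haA, ha⟩, _⟩, _⟩ := hP' i hi
    obtain ⟨hmi, hτm⟩ := hm i hi
    obtain ⟨_, _, ⟨c2, _, ⟨b, hbB, hb⟩⟩, _⟩ := hQ' (m i) hmi
    by_cases h : σ i = x
    · simp only [if_pos h]
      rw [if_pos h] at hτm
      refine ⟨?_, ⟨a, haA, ?_⟩, ⟨b, hbB, ?_⟩⟩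
      · rw [List.isChain_append]
        refine ⟨c1.imp hr, c2.imp hr, ?_⟩
        intro u hu w hw
        simp only [List.getLast?_append_of_ne_nil _ (List.cons_ne_nil _ _),
          List.getLast?_singleton, Option.mem_def, Option.some.injEq] at hu
        simp only [List.head?_cons, Option.mem_def, Option.some.injEq] at hw
        rw [← hu, ← hw, h, hτm]
        exact hxy
      · rw [List.head?_append_of_ne_nil _ (by simp)]
        exact ha
      · rw [List.getLast?_append_of_ne_nil _ (by simp)]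
        exact hb
    · simp only [if_neg h]
      rw [if_neg h] at hτm
      refine ⟨?_, ⟨a, haA, ?_⟩, ⟨b, hbB, ?_⟩⟩
      · rw [List.isChain_split, hτm]
        rw [hτm] at c2
        exact ⟨c1.imp hr, c2.imp hr⟩
      · rw [hτm]
        rw [List.head?_append] at ha ⊢
        simpa using ha
      · rw [List.getLast?_append_of_ne_nil _ (by simp)]
        exact hb
  · intro i hi j hj hij
    have hsub : ∀ i < p, ∀ v ∈ (if σ i = x then (P' i ++ [σ i]) ++ (τ (m i) :: Q' (m i))
        else P' i ++ (τ (m i) :: Q' (m i))), v ∈ P' i ++ [σ i] ∨ v ∈ τ (m i) :: Q' (m i) := by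
      intro i _ v hv
      split_ifs at hv with h
      · exact List.mem_append.1 hv
      · rcases List.mem_append.1 hv with h1 | h1
        · exact Or.inl (List.mem_append_left _ h1)
        · exact Or.inr h1
    have hcross : ∀ i < p, ∀ j < p, i ≠ j → ∀ v, v ∈ P' i ++ [σ i] → v ∈ τ (m j) :: Q' (m j) →
        False := by
      intro i hi j hj hij v h1 h2
      obtain ⟨hmj, _⟩ := hm j hj
      obtain ⟨hmi, hτm⟩ := hm i hi
      obtain ⟨e1, e2, e3⟩ := MN2_key hsep (hP' i hi).2.2.1 (hP' i hi).2.2.2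
        (hQ' (m j) hmj).2.2.1 (hQ' (m j) hmj).2.2.2 h1 h2
      have h3 : σ i ≠ x := by
        intro h
        rw [← e1] at h
        exact hx (h ▸ e3)
      rw [if_neg h3, ← e1, e2] at hτm
      exact hτ (m i) hmi (m j) hmj (hmm i hi j hj hij) hτm
    intro v hv1 hv2
    rcases hsub i hi v hv1 with h1 | h1
    · rcases hsub j hj v hv2 with h2 | h2
      · exact hPd i hi j hj hij (hPP i hi v h1) (hPP j hj v h2)
      · exact hcross i hi j hj hij v h1 h2
    · rcases hsub j hj v hv2 with h2 | h2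
      · exact hcross j hj i hi (Ne.symm hij) v h2 h1
      · exact hQd (m i) (hm i hi).1 (m j) (hm j hj).1 (hmm i hi j hj hij)
          (hQQ (m i) (hm i hi).1 v h1) (hQQ (m j) (hm j hj).1 v h2)

/- MODULE MN3 -/
private theorem MN3_start {r : V → V → Prop} (x y : V) : ∀ (l : List V) (b : V),
    (l ++ [b]).IsChain r → x ∉ l → (l ++ [b]).IsChain (fun u v => r u v ∧ ¬ (u = x ∧ v = y)) := by
  intro l
  induction l with
  | nil => intro b _ _; exact List.isChain_singleton b
  | cons c t ih =>
    intro b h hx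
    rw [List.cons_append, List.isChain_cons] at h ⊢
    refine ⟨?_, ih b h.2 (fun h' => hx (List.mem_cons_of_mem _ h'))⟩
    intro w hw
    refine ⟨h.1 w hw, ?_⟩
    rintro ⟨rfl, _⟩
    exact hx List.mem_cons_self

private theorem MN3_end {r : V → V → Prop} (x y : V) : ∀ (l : List V) (a : V),
    (a :: l).IsChain r → y ∉ l → (a :: l).IsChain (fun u v => r u v ∧ ¬ (u = x ∧ v = y)) := by
  intro l
  induction l with
  | nil => intro a _ _; exact List.isChain_singleton a
  | cons c t ih =>
    intro a h hy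
    rw [List.isChain_cons_cons] at h ⊢
    refine ⟨⟨h.1, ?_⟩, ih c h.2 (fun h' => hy (List.mem_cons_of_mem _ h'))⟩
    rintro ⟨_, rfl⟩
    exact hy List.mem_cons_self

private theorem MN3_alt {r : V → V → Prop} (x y : V) : ∀ l : List V, l.IsChain r →
    l.IsChain (fun u v => r u v ∧ ¬ (u = x ∧ v = y)) ∨ (x ∈ l ∧ y ∈ l) := by
  intro l
  induction l with
  | nil => intro _; exact Or.inl List.isChain_nil
  | cons c t ih =>
    intro h
    rw [List.isChain_cons] at h
    rcases ih h.2 with h1 | h1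
    · by_cases hc : c = x ∧ y ∈ t
      · exact Or.inr ⟨hc.1 ▸ List.mem_cons_self, List.mem_cons_of_mem _ hc.2⟩
      · refine Or.inl ?_
        rw [List.isChain_cons]
        refine ⟨fun w hw => ⟨h.1 w hw, ?_⟩, h1⟩
        rintro ⟨h2, rfl⟩
        exact hc ⟨h2, mem_of_head? hw⟩
    · exact Or.inr ⟨List.mem_cons_of_mem _ h1.1, List.mem_cons_of_mem _ h1.2⟩

open Classical in
private theorem MN3_main [Fintype V] (n : ℕ) : ∀ (r : V → V → Prop) (A B : Finset V) (p : ℕ),
    {q : V × V | r q.1 q.2}.ncard = n →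
    (∀ X : Finset V, Sep r A B X → p ≤ X.card) →
    ∃ P : ℕ → List V, (∀ i < p, WalkAB r A B (P i)) ∧
      ∀ i < p, ∀ j < p, i ≠ j → List.Disjoint (P i) (P j) := by
  induction n using Nat.strong_induction_on with
  | _ n ih =>
    intro r A B p hn h
    by_cases hr : ∃ x y, r x y
    · obtain ⟨x, y, hxy⟩ := hr
      set r' : V → V → Prop := fun u v => r u v ∧ ¬ (u = x ∧ v = y) with hr'
      have hlt : {q : V × V | r' q.1 q.2}.ncard < n := by
        rw [← hn]
        refine Set.ncard_lt_ncard ?_ (Set.toFinite _)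
        refine (Set.ssubset_iff_of_subset ?_).2 ⟨(x, y), hxy, ?_⟩
        · intro q hq
          exact hq.1
        · intro h'
          exact h'.2 ⟨rfl, rfl⟩
      by_cases hS : ∃ S, Sep r' A B S ∧ S.card < p
      · obtain ⟨S, hsep, hcard⟩ := hS
        have hsx : Sep r A B (insert x S) := by
          intro l hl
          rcases MN3_alt x y l hl.1 with h1 | h1
          · obtain ⟨v, hv, hvS⟩ := hsep l ⟨h1, hl.2⟩
            exact ⟨v, hv, Finset.mem_insert_of_mem hvS⟩
          · exact ⟨x, h1.1, Finset.mem_insert_self _ _⟩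
        have hsy : Sep r A B (insert y S) := by
          intro l hl
          rcases MN3_alt x y l hl.1 with h1 | h1
          · obtain ⟨v, hv, hvS⟩ := hsep l ⟨h1, hl.2⟩
            exact ⟨v, hv, Finset.mem_insert_of_mem hvS⟩
          · exact ⟨y, h1.2, Finset.mem_insert_self _ _⟩
        have hpx := h _ hsx
        have hpy := h _ hsy
        have hx : x ∉ S := by
          intro hx
          rw [Finset.insert_eq_of_mem hx] at hpx
          omega
        have hy : y ∉ S := by
          intro hy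
          rw [Finset.insert_eq_of_mem hy] at hpy
          omega
        have hS1 : S.card + 1 = p := by
          rw [Finset.card_insert_of_notMem hx] at hpx
          omega
        obtain ⟨P, hP, hPd⟩ := ih _ hlt r' A (insert x S) p rfl (by
          intro Z hZ
          refine h Z ?_
          intro l hl
          obtain ⟨l', b, hb, hpre, hw, hl'⟩ := walk_cut_first hl (hsx l hl)
          have hx' : x ∉ l' := fun h' => hl' x h' (Finset.mem_insert_self _ _)
          obtain ⟨v, hv, hvZ⟩ := hZ _ ⟨MN3_start x y l' b hw.1 hx', hw.2⟩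
          exact ⟨v, hpre.subset hv, hvZ⟩)
        obtain ⟨Q, hQ, hQd⟩ := ih _ hlt r' (insert y S) B p rfl (by
          intro Z hZ
          refine h Z ?_
          intro l hl
          obtain ⟨l', b, hb, hsuf, hw, hl'⟩ := walk_cut_last hl (hsy l hl)
          have hy' : y ∉ l' := fun h' => hl' y h' (Finset.mem_insert_self _ _)
          obtain ⟨v, hv, hvZ⟩ := hZ _ ⟨MN3_end x y l' b hw.1 hy', hw.2⟩
          exact ⟨v, hsuf.subset hv, hvZ⟩)
        exact menger_glue r r' x y (fun u v h' => h'.1) hxy A B S p hS1 hx hy hsep P hP hPd Q hQ hQd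
      · push Not at hS
        obtain ⟨P, hP, hPd⟩ := ih _ hlt r' A B p rfl hS
        exact ⟨P, fun i hi => ⟨(hP i hi).1.imp (fun _ _ h' => h'.1), (hP i hi).2⟩, hPd⟩
    · push Not at hr
      have hsep : Sep r A B (A ∩ B) := by
        rintro l ⟨hc, ⟨a, haA, ha⟩, ⟨b, hbB, hb⟩⟩
        cases l with
        | nil => simp at ha
        | cons c t =>
          cases t with
          | nil =>
            simp only [List.head?_cons, Option.some.injEq] at ha
            simp only [List.getLast?_singleton, Option.some.injEq] at hb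
            subst ha
            subst hb
            exact ⟨c, List.mem_cons_self, Finset.mem_inter.2 ⟨haA, hbB⟩⟩
          | cons d t => exact absurd (List.isChain_cons_cons.1 hc).1 (hr c d)
      have hp := h _ hsep
      obtain ⟨f⟩ : Nonempty (Fin p ↪ ↥(A ∩ B)) := Function.Embedding.nonempty_of_card_le (by
        rw [Fintype.card_fin, Fintype.card_coe]; exact hp)
      refine ⟨fun i => if hi : i < p then [(f ⟨i, hi⟩ : V)] else [], ?_, ?_⟩
      · intro i hi
        simp only [dif_pos hi]
        have h1 := Finset.mem_inter.1 (f ⟨i, hi⟩).2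
        exact ⟨List.isChain_singleton _, ⟨_, h1.1, rfl⟩, ⟨_, h1.2, rfl⟩⟩
      · intro i hi j hj hij
        simp only [dif_pos hi, dif_pos hj]
        intro v hv1 hv2
        simp only [List.mem_singleton] at hv1 hv2
        have h1 : f ⟨i, hi⟩ = f ⟨j, hj⟩ := Subtype.ext (hv1.symm.trans hv2)
        have h2 := f.injective h1
        simp only [Fin.mk.injEq] at h2
        exact hij h2

/-- MENGER'S THEOREM for a relation on a finite type.
PROOF (Göring).  Induction on the number `n` of pairs `(u, v)` with `r u v`, for all `A`, `B` and `p`.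
`n = 0`: all walks have one vertex, so `A ∩ B` is a separator, `|A ∩ B| ≥ p`, take `p` distinct
elements of `A ∩ B`.
Step: let `r x y`, `r' u v := r u v ∧ (u, v) ≠ (x, y)`, with fewer pairs.  If all separators for `r'`
have at least `p` elements, use induction for `r'` (walks of `r'` are walks of `r`).  Otherwise
there is `S` with `Sep r' A B S` and `|S| < p`.  A walk of `r` from `A` to `B` is a walk of `r'` (so
meets `S`) or contains `x, y` consecutively; so `insert x S` and `insert y S` are separators for `r`,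
hence have at least `p` elements: `|S| = p - 1`, `x ∉ S`, `y ∉ S`.
Every `Z` with `Sep r' A (insert x S) Z` satisfies `Sep r A B Z`: a walk `l` of `r` from `A` to `B`
meets `SX`; cut it at the first vertex in `SX` (`walk_cut_first`): `l' ++ [b]`, it is a walk of `r'`,
because `x ∈ SX` is not in `l'`, so no step of it starts in `x`; so it meets `Z`.  Hence `p ≤ |Z|`.
In the same way (`walk_cut_last`: no step ends in `y`) every `Z` with `Sep r' (insert y S) B Z` has
at least `p` elements.  Use the induction hypothesis twice and `menger_glue`. -/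
theorem menger_rel [Fintype V] (r : V → V → Prop) (A B : Finset V) (p : ℕ)
    (h : ∀ X : Finset V, Sep r A B X → p ≤ X.card) :
    ∃ P : ℕ → List V, (∀ i < p, WalkAB r A B (P i)) ∧
      ∀ i < p, ∀ j < p, i ≠ j → List.Disjoint (P i) (P j) := by
  exact MN3_main _ r A B p rfl h

/- MODULE MN4 -/
/-- Menger from a set of exactly `p` prescribed start vertices.
PROOF. `A = {z 0, …, z (p-1)}`, `|A| = p`.  Separators have at least `p` elements: let `|X| < p ≤ t + 1`,
so `|X| ≤ t`; there are `a ∈ A ∖ X` and `b ∈ B ∖ X`, and `exists_path_of_conn` gives a path from `a`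
to `b` avoiding `X`.  `menger_rel` for `r = G.Adj` gives `p` disjoint walks, `walk_to_path` makes them
paths; their first vertices are `p` distinct vertices of `A`, so every `z i` is the first vertex of
exactly one of them: renumber. -/
theorem menger_conn [Fintype V] (G : SimpleGraph V) (t p : ℕ) (hconn : Conn G Finset.univ t)
    (hp : p ≤ t + 1) (z : ℕ → V) (hz : ∀ i < p, ∀ j < p, i ≠ j → z i ≠ z j) (B : Finset V)
    (hB : p ≤ B.card) :
    ∃ P : ℕ → List V, (∀ i < p, ∃ b ∈ B, PathL G (z i) b (P i)) ∧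
      ∀ i < p, ∀ j < p, i ≠ j → List.Disjoint (P i) (P j) := by
  classical
  set A : Finset V := (range p).image z with hA
  have hAc : A.card = p := by
    rw [hA, Finset.card_image_of_injOn, Finset.card_range]
    intro i hi j hj h
    by_contra hne
    exact hz i (Finset.mem_range.1 hi) j (Finset.mem_range.1 hj) hne h
  obtain ⟨P, hP, hPd⟩ := menger_rel G.Adj A B p (by
    intro X hX
    by_contra hc
    push Not at hc
    obtain ⟨a, haA, haX⟩ : ∃ a ∈ A, a ∉ X := by
      by_contra h
      push Not at h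
      have := Finset.card_le_card h
      omega
    obtain ⟨b, hbB, hbX⟩ : ∃ b ∈ B, b ∉ X := by
      by_contra h
      push Not at h
      have := Finset.card_le_card h
      omega
    obtain ⟨l, hl, hlX⟩ := exists_path_of_conn G Finset.univ X t hconn (by omega) a b
      (Finset.mem_univ _) haX (Finset.mem_univ _) hbX
    obtain ⟨v, hv, hvX⟩ := hX l ⟨hl.1, ⟨a, haA, hl.2.2.1⟩, ⟨b, hbB, hl.2.2.2⟩⟩
    exact (hlX v hv).2 hvX)
  have h1 : ∀ i, ∃ (a : V) (b : V) (l : List V), i < p → (a ∈ A ∧ b ∈ B ∧ PathL G a b l ∧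
      (∀ v ∈ l, v ∈ P i)) := by
    intro i
    by_cases hi : i < p
    · obtain ⟨hc, ⟨a, haA, ha⟩, ⟨b, hbB, hb⟩⟩ := hP i hi
      obtain ⟨l', g1, g2, g3, g4, g5⟩ := walk_to_path hc ha hb
      exact ⟨a, b, l', fun _ => ⟨haA, hbB, ⟨g1, g2, g3, g4⟩, g5⟩⟩
    · by_cases h0 : 0 < p
      · exact ⟨z 0, z 0, [], fun h => absurd h hi⟩
      · exact ⟨z 0, z 0, [], fun h => absurd h hi⟩
  choose a b l hl using h1
  have ha : ∀ i < p, ∀ j < p, i ≠ j → a i ≠ a j := by
    intro i hi j hj hij h
    refine hPd i hi j hj hij ((hl i hi).2.2.2 (a i) (hl i hi).2.2.1.left_mem) ?_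
    rw [h]
    exact (hl j hj).2.2.2 (a j) (hl j hj).2.2.1.left_mem
  have h2 : ∀ j, ∃ i, j < p → (i < p ∧ a i = z j) := by
    intro j
    by_cases hj : j < p
    · obtain ⟨i, hi, h⟩ := MN2_surj A p hAc a (fun i hi => (hl i hi).1) ha (z j)
        (Finset.mem_image.2 ⟨j, Finset.mem_range.2 hj, rfl⟩)
      exact ⟨i, fun _ => ⟨hi, h⟩⟩
    · exact ⟨0, fun h => absurd h hj⟩
  choose m hm using h2
  refine ⟨fun j => l (m j), ?_, ?_⟩
  · intro j hj
    obtain ⟨h3, h4⟩ := hm j hj
    refine ⟨b (m j), (hl _ h3).2.1, ?_⟩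
    rw [← h4]
    exact (hl _ h3).2.2.1
  · intro i hi j hj hij v hv1 hv2
    obtain ⟨h3, h4⟩ := hm i hi
    obtain ⟨h5, h6⟩ := hm j hj
    have h7 : m i ≠ m j := by
      intro h
      rw [h, h6] at h4
      exact hz i hi j hj hij h4.symm
    exact hPd _ h3 _ h5 h7 ((hl _ h3).2.2.2 v hv1) ((hl _ h5).2.2.2 v hv2)

end TurMod
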