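import Pool.Agent.TurMod.Defs

/-!
# The lower bound: complete bipartite graphs
-/

namespace TurMod

open Finset

/-- the complete bipartite graph with parts `{i < a}` and `{i ≥ a}` on `Fin n` -/
def kab (n a : ℕ) : SimpleGraph (Fin n) where
  Adj i j := (i.1 < a ∧ a ≤ j.1) ∨ (j.1 < a ∧ a ≤ i.1)
  symm := ⟨fun _ _ h => h.symm⟩
  loopless := ⟨fun _ h => by rcases h with h | h <;> omega⟩

/-- the colouring -/
def kabCol (n a : ℕ) : (kab n a).Coloring Bool :=
  SimpleGraph.Coloring.mk (fun i => decide (i.1 < a)) (by
    intro i j h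
    rcases h with h | h
    · simp [h.1, Nat.not_lt.2 h.2]
    · simp [h.1, Nat.not_lt.2 h.2])

lemma kab_even {n a : ℕ} {v : Fin n} (c : (kab n a).Walk v v) : Even c.length := by
  rw [(kabCol n a).even_length_iff_congr c]

lemma kab_length {n a : ℕ} {v : Fin n} (c : (kab n a).Walk v v) (hc : c.IsCycle) :
    c.length ≤ 2 * a := by
  obtain ⟨t, ht⟩ := kab_even c
  have hf : ∀ i : Fin t, ∃ x : Fin a, ∃ j : ℕ, (j = 2 * i.1 + 1 ∨ j = 2 * i.1 + 2) ∧
      (c.getVert j).1 = x.1 := by
    intro i
    have hi := i.2
    have hadj := c.adj_getVert_succ (i := 2 * i.1 + 1) (by omega)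
    rcases hadj with h | h
    · exact ⟨⟨_, h.1⟩, 2 * i.1 + 1, Or.inl rfl, rfl⟩
    · exact ⟨⟨_, h.1⟩, 2 * i.1 + 2, Or.inr rfl, rfl⟩
  choose f j hj hfj using hf
  have hinj : Function.Injective f := by
    intro i i' h
    have h1 : c.getVert (j i) = c.getVert (j i') := by
      apply Fin.ext
      rw [hfj i, hfj i', h]
    have h2 : j i = j i' := by
      apply hc.getVert_injOn
      · have := hj i; have := i.2
        simp only [Set.mem_ofPred_eq]; omega
      · have := hj i'; have := i'.2
        simp only [Set.mem_ofPred_eq]; omega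
      · exact h1
    have := hj i; have := hj i'
    apply Fin.ext
    omega
  have := Fintype.card_le_of_injective f hinj
  simp only [Fintype.card_fin] at this
  omega

lemma kab_vol {n a : ℕ} (h : a ≤ n) : vol (kab n a) Finset.univ = 2 * (a * (n - a)) := by
  classical
  have hA : (Finset.univ.filter (fun w : Fin n => w.1 < a)).card = a := by
    rw [← Fintype.card_subtype]
    have : Fintype.card {w : Fin n // w.1 < a} = Fintype.card (Fin a) := by
      refine Fintype.card_congr ⟨fun w => ⟨w.1.1, w.2⟩, fun x => ⟨⟨x.1, by omega⟩, x.2⟩, ?_, ?_⟩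
      · intro w; rfl
      · intro x; rfl
    rw [this, Fintype.card_fin]
  have hB : (Finset.univ.filter (fun w : Fin n => ¬ w.1 < a)).card = n - a := by
    have := Finset.card_filter_add_card_filter_not (s := (Finset.univ : Finset (Fin n)))
      (fun w : Fin n => w.1 < a)
    rw [hA, Finset.card_univ, Fintype.card_fin] at this
    omega
  have hd : ∀ v : Fin n, dg (kab n a) Finset.univ v = if v.1 < a then n - a else a := by
    intro v
    unfold dg
    split_ifs with hv
    · refine Eq.trans ?_ hB
      congr 1
      ext w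
      simp only [kab, Finset.mem_filter, Finset.mem_univ, true_and]
      omega
    · refine Eq.trans ?_ hA
      congr 1
      ext w
      simp only [kab, Finset.mem_filter, Finset.mem_univ, true_and]
      omega
  unfold vol
  rw [Finset.sum_congr rfl (fun v _ => hd v), Finset.sum_ite, Finset.sum_const, Finset.sum_const,
    hA, hB]
  simp only [smul_eq_mul]
  ring

end TurMod
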