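import Pool.Agent.TurMod.Greedy

/-!
# A core from a bipartite graph with a very large side
-/

namespace TurMod

open Finset

universe u

variable {V : Type*}

open Classical in
/-- the neighbours of `w` in `U` -/
noncomputable def nb (G : SimpleGraph V) (U : Finset V) (w : V) : Finset V :=
  U.filter (fun u => G.Adj w u)

lemma card_nb (G : SimpleGraph V) (U : Finset V) (w : V) : (nb G U w).card = dg G U w := rfl

/-- the codegree graph on `U`: more than `m` common neighbours in `W` -/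
def Cg (G : SimpleGraph V) (U W : Finset V) (m : ℕ) : SimpleGraph V where
  Adj u v := u ≠ v ∧ u ∈ U ∧ v ∈ U ∧ m + 1 ≤ codeg G W u v
  symm := ⟨by
    intro u v h
    refine ⟨h.1.symm, h.2.2.1, h.2.1, ?_⟩
    have : codeg G W v u = codeg G W u v := by
      unfold codeg
      congr 1
      ext w
      simp only [Finset.mem_filter]
      tauto
    rw [this]
    exact h.2.2.2⟩
  loopless := ⟨fun v h => h.1 rfl⟩

/- MODULE SC1 -/
private lemma SC1_codeg [DecidableEq V] (G : SimpleGraph V) (B : Finset V) (z u v : V) (m : ℕ)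
    (h : m + 1 ≤ codeg G B u v) : m ≤ codeg G (B.erase z) u v := by
  classical
  unfold codeg at h ⊢
  have h1 : (B.filter (fun w => G.Adj u w ∧ G.Adj v w)).erase z ⊆
      (B.erase z).filter (fun w => G.Adj u w ∧ G.Adj v w) := by
    intro w hw
    rw [Finset.mem_erase, Finset.mem_filter] at hw
    rw [Finset.mem_filter, Finset.mem_erase]
    exact ⟨⟨hw.1, hw.2.1⟩, hw.2.2⟩
  have h2 := Finset.card_le_card h1
  have h3 := Finset.pred_card_le_card_erase (s := B.filter (fun w => G.Adj u w ∧ G.Adj v w))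
    (a := z)
  omega

/-- A closed sequence of `m` vertices with large codegrees gives a cycle of length `2 m`.
PROOF. Choose a common neighbour `z ∈ B` of `y` and `x`.  `weave` with `B.erase z`, `S = l.toFinset`, `c = 0`,
`τ = τ' = m` (codegrees drop by at most one): a path from `x` to `y` with `2 m - 1` vertices, all in `l` or in
`B.erase z`.  Append `z` (`z ∉ l` since `z ∈ B`): a path from `x` to `z` with `2 m` vertices, `z ~ x`;
`hasCyc_of_list`. -/
theorem close_weave [DecidableEq V] (G : SimpleGraph V) (B : Finset V) (l : List V) (m : ℕ)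
    (hm : 2 ≤ m) (hl : l.Nodup) (hlen : l.length = m) (hlB : ∀ v ∈ l, v ∉ B)
    (h1 : l.IsChain (fun u v => m + 1 ≤ codeg G B u v)) (x y : V) (hx : l.head? = some x)
    (hy : l.getLast? = some y) (h2 : m + 1 ≤ codeg G B y x) : HasCyc G (2 * m) := by
  classical
  obtain ⟨z, hz⟩ : ∃ z, z ∈ B.filter (fun w => G.Adj y w ∧ G.Adj x w) := by
    refine Finset.card_pos.1 ?_
    unfold codeg at h2
    have : 0 < (B.filter (fun w => G.Adj y w ∧ G.Adj x w)).card := by omega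
    exact this
  rw [Finset.mem_filter] at hz
  obtain ⟨hzB, hyz, hxz⟩ := hz
  have hne : l ≠ [] := by
    rintro rfl
    simp at hx
  obtain ⟨L, hL, hLl, hLv⟩ := weave G (B.erase z) l.toFinset l hl hne
    (fun v hv h => hlB v hv (Finset.mem_of_mem_erase h)) m m 0
    (h1.imp fun u v h => SC1_codeg G B z u v m h)
    (h1.imp fun u v h _ _ => SC1_codeg G B z u v m h) (by simp) (by omega) (by omega) x y hx hy
  have hzL : z ∉ L := by
    intro h
    rcases hLv z h with h3 | h3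
    · exact hlB z h3 hzB
    · exact (Finset.mem_erase.1 h3).1 rfl
  have hp : PathL G y z [y, z] := by
    refine ⟨?_, ?_, rfl, rfl⟩
    · exact List.isChain_cons_cons.2 ⟨hyz, List.isChain_singleton _⟩
    · rw [List.nodup_cons]
      refine ⟨?_, List.nodup_singleton _⟩
      intro h
      rw [List.mem_singleton] at h
      exact hzL (h ▸ hL.right_mem)
  have hg := hL.glue hp (by
    intro v hv hv'
    rcases List.mem_cons.1 hv' with h | h
    · exact h
    · rw [List.mem_singleton] at h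
      exact absurd (h ▸ hv) hzL)
  have hlen' : (L ++ ([y, z] : List V).tail).length = 2 * m := by
    rw [List.length_append, hLl]
    show 2 * l.length - 1 + 1 = 2 * m
    omega
  have := hasCyc_of_list hg (by omega) hxz.symm
  rwa [hlen'] at this

private lemma SC1_mem (G : SimpleGraph V) (U W : Finset V) (m : ℕ) : ∀ (l : List V) (x : V),
    l.head? = some x → x ∈ U → l.IsChain (Cg G U W m).Adj → ∀ v ∈ l, v ∈ U := by
  intro l
  induction l with
  | nil =>
    intro x hx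
    simp at hx
  | cons a t ih =>
    intro x hx hxU hc v hv
    have hax : a = x := by simpa using hx
    subst hax
    rcases List.mem_cons.1 hv with h | h
    · rw [h]
      exact hxU
    · cases t with
      | nil => simp at h
      | cons b t =>
        obtain ⟨h1, h2⟩ := List.isChain_cons_cons.1 hc
        exact ih b rfl h1.2.2.1 h2 v h

/-- The codegree graph has no cycle of length `m`.
PROOF. `list_of_hasCyc` and `close_weave` with `B = W`: all vertices of the list are in `U` (each is adjacent to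
something in the codegree graph), so not in `W`. -/
theorem no_code_cycle [DecidableEq V] (G : SimpleGraph V) (U W : Finset V) (hd : Disjoint U W) (m : ℕ)
    (no : ¬ HasCyc G (2 * m)) : ¬ HasCyc (Cg G U W m) m := by
  intro h
  obtain ⟨x, y, l, hp, hl, hyx, h3⟩ := list_of_hasCyc h
  refine no (close_weave G W l m (by omega) hp.2.1 hl ?_ (hp.1.imp fun u v h => h.2.2.2) x y
    hp.2.2.1 hp.2.2.2 hyx.2.2.2)
  intro v hv hvW
  exact Finset.disjoint_left.1 hd (SC1_mem G U W m l x hp.2.2.1 hyx.2.2.1 hp.1 v hv) hvW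

/- MODULE SC2 -/
/-- FEW BAD `w`. `w` is good if `|N(w)|² ≤ vol_Γ N(w) + 2 γ m²` (`Γ` the codegree graph, `N(w)` the neighbours in `U`).
PROOF. Put `N = nb G U w`.  `|N|² - vol_Γ N = |N| + #{(u, u') ∈ N² : u ≠ u', ¬ Γ.Adj u u'}` and `|N| ≤ |U| ≤ γ m²`; so
for a bad `w` there are more than `γ m²` ordered pairs `u ≠ u'` in `N(w)`, not adjacent in `Γ`.  Summing over the
bad `w` and exchanging the sums: for each pair `u ≠ u'` in `U` not adjacent in `Γ` there are at most `m` elements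
`w ∈ W` adjacent to both. -/
theorem few_bad [DecidableEq V] (G : SimpleGraph V) (U W : Finset V) (m : ℕ) (γ : ℝ) (hγ : 0 < γ)
    (hm : (U.card : ℝ) ≤ γ * (m : ℝ) ^ 2) (Bad : Finset V) (hBad : Bad ⊆ W)
    (hb : ∀ w ∈ Bad, (vol (Cg G U W m) (nb G U w) : ℝ) + 2 * γ * (m : ℝ) ^ 2 <
      ((nb G U w).card : ℝ) ^ 2) :
    γ * (m : ℝ) ^ 2 * (Bad.card : ℝ) ≤ (m : ℝ) * (U.card : ℝ) ^ 2 := by
  classical
  set P : V → Finset (V × V) := fun w => (nb G U w ×ˢ nb G U w).filter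
    (fun x => x.1 ≠ x.2 ∧ ¬ (Cg G U W m).Adj x.1 x.2) with hP
  have hcard : ∀ w, (nb G U w).card ^ 2 = (nb G U w).card + vol (Cg G U W m) (nb G U w) +
      (P w).card := by
    intro w
    set N := nb G U w with hN
    have h1 : (N ×ˢ N).card = N.card ^ 2 := by rw [Finset.card_product, sq]
    have h2 : vol (Cg G U W m) N = ((N ×ˢ N).filter
        (fun x => (Cg G U W m).Adj x.1 x.2)).card := by
      unfold vol dg
      rw [Finset.card_filter, Finset.sum_product]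
      refine Finset.sum_congr rfl fun v _ => ?_
      rw [Finset.card_filter]
    have h3 : ((N ×ˢ N).filter (fun x => x.1 = x.2)).card = N.card := by
      rw [Finset.card_filter, Finset.sum_product]
      have : ∀ v ∈ N, (∑ y ∈ N, if v = y then 1 else 0) = 1 := by
        intro v hv
        rw [Finset.sum_ite_eq, if_pos hv]
      rw [Finset.sum_congr rfl this]
      simp
    have h4 := Finset.card_filter_add_card_filter_not (s := N ×ˢ N)
      (fun x : V × V => x.1 = x.2)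
    have h5 := Finset.card_filter_add_card_filter_not
      (s := (N ×ˢ N).filter (fun x : V × V => ¬ x.1 = x.2))
      (fun x : V × V => (Cg G U W m).Adj x.1 x.2)
    have h6 : ((N ×ˢ N).filter (fun x : V × V => ¬ x.1 = x.2)).filter
        (fun x => (Cg G U W m).Adj x.1 x.2) = (N ×ˢ N).filter
        (fun x => (Cg G U W m).Adj x.1 x.2) := by
      ext x
      simp only [Finset.mem_filter]
      constructor
      · rintro ⟨⟨h, -⟩, h'⟩
        exact ⟨h, h'⟩
      · rintro ⟨h, h'⟩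
        exact ⟨⟨h, h'.ne⟩, h'⟩
    have h7 : ((N ×ˢ N).filter (fun x : V × V => ¬ x.1 = x.2)).filter
        (fun x => ¬ (Cg G U W m).Adj x.1 x.2) = P w := by
      rw [Finset.filter_filter]
    rw [h6, h7] at h5
    rw [← h1, h2, ← h4, h3, ← h5]
    ring
  have hPw : ∀ w ∈ Bad, γ * (m : ℝ) ^ 2 ≤ ((P w).card : ℝ) := by
    intro w hw
    have h1 := hb w hw
    have h2 : ((nb G U w).card : ℝ) ^ 2 = (nb G U w).card +
        (vol (Cg G U W m) (nb G U w) : ℝ) + (P w).card := by exact_mod_cast hcard w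
    have h3 : ((nb G U w).card : ℝ) ≤ U.card := by
      exact_mod_cast Finset.card_le_card (Finset.filter_subset _ _)
    linarith
  have h1 : γ * (m : ℝ) ^ 2 * (Bad.card : ℝ) ≤ ∑ w ∈ Bad, ((P w).card : ℝ) := by
    have := Finset.card_nsmul_le_sum Bad (fun w => ((P w).card : ℝ)) _ hPw
    rw [nsmul_eq_mul] at this
    linarith
  have h2 : ∑ w ∈ Bad, (P w).card ≤ m * U.card ^ 2 := by
    have h3 : ∀ w ∈ Bad, (P w).card = ∑ x ∈ (U ×ˢ U).filter
        (fun x : V × V => x.1 ≠ x.2 ∧ ¬ (Cg G U W m).Adj x.1 x.2),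
        if G.Adj w x.1 ∧ G.Adj w x.2 then 1 else 0 := by
      intro w _
      rw [← Finset.card_filter]
      congr 1
      ext x
      simp only [hP, nb, Finset.mem_filter, Finset.mem_product]
      tauto
    rw [Finset.sum_congr rfl h3, Finset.sum_comm]
    have h4 : ∀ x ∈ (U ×ˢ U).filter
        (fun x : V × V => x.1 ≠ x.2 ∧ ¬ (Cg G U W m).Adj x.1 x.2),
        (∑ w ∈ Bad, if G.Adj w x.1 ∧ G.Adj w x.2 then 1 else 0) ≤ m := by
      intro x hx
      rw [Finset.mem_filter, Finset.mem_product] at hx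
      obtain ⟨⟨hx1, hx2⟩, hne, hadj⟩ := hx
      have h5 : codeg G W x.1 x.2 ≤ m := by
        by_contra h6
        exact hadj ⟨hne, hx1, hx2, by omega⟩
      rw [← Finset.card_filter]
      refine le_trans ?_ h5
      unfold codeg
      refine Finset.card_le_card fun w hw => ?_
      rw [Finset.mem_filter] at hw ⊢
      exact ⟨hBad hw.1, hw.2.1.symm, hw.2.2.symm⟩
    refine (Finset.sum_le_card_nsmul _ _ _ h4).trans ?_
    rw [smul_eq_mul, mul_comm]
    refine Nat.mul_le_mul_left _ ?_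
    refine (Finset.card_filter_le _ _).trans ?_
    rw [Finset.card_product, sq]
  refine h1.trans ?_
  exact_mod_cast h2

/- MODULE SC3 -/
private lemma SC3_key [DecidableEq V] (G : SimpleGraph V) (U W : Finset V) (hd : Disjoint U W)
    (m : ℕ) (h3 : 3 ≤ m) (g : ℝ) (hgm : 10 ≤ g * m) (no : ¬ HasCyc G (2 * m)) (S : Finset V)
    (hS : ∀ v ∈ S, (S.card : ℝ) ≤ (dg (Cg G U W m) S v : ℝ) + g * m) :
    (S.card : ℝ) < (1 + 3 * g) * m := by
  by_contra hcon
  push Not at hcon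
  refine no_code_cycle G U W hd m no (greedy_cycle (Cg G U W m) S ⌈g * m⌉₊ ?_ m h3 ?_)
  · intro v hv
    have h1 := hS v hv
    have h2 := Nat.le_ceil (g * m)
    have h4 : (S.card : ℝ) ≤ (dg (Cg G U W m) S v : ℝ) + (⌈g * m⌉₊ : ℝ) := by linarith
    exact_mod_cast h4
  · have h2 := Nat.ceil_lt_add_one (show 0 ≤ g * m by linarith)
    have h4 : (m : ℝ) + 2 * (⌈g * m⌉₊ : ℝ) ≤ S.card := by linarith
    exact_mod_cast h4

/-- PROOF. Otherwise `few_missing` (graph `Γ = Cg G U W m`, `S = nb G U w`, `x = g m`) gives `S'` with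
`|S'| ≥ (1 + 3 g) m`, `|S'| ≤ dg_Γ S' v + g m` for `v ∈ S'`; `greedy_cycle` with `d = ⌈g m⌉ ≤ g m + 1`, `L = m`:
`m + 2 d ≤ m + 2 g m + 2 ≤ (1 + 3 g) m`.  Contradiction to `no_code_cycle`. -/
theorem good_small [DecidableEq V] (G : SimpleGraph V) (U W : Finset V) (hd : Disjoint U W) (m : ℕ)
    (h3 : 3 ≤ m) (g : ℝ) (hg : 0 < g) (hgm : 10 ≤ g * m) (no : ¬ HasCyc G (2 * m)) (w : V)
    (hw : ((nb G U w).card : ℝ) ^ 2 ≤ (vol (Cg G U W m) (nb G U w) : ℝ) + (g * m) ^ 2) :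
    (dg G U w : ℝ) ≤ (1 + 4 * g) * m := by
  obtain ⟨S', hS', hc, hT⟩ := few_missing (Cg G U W m) (nb G U w) (g * m) (by linarith) hw
  have h1 := SC3_key G U W hd m h3 g hgm no S' (fun v hv => hT v hv S' hS')
  have h2 : ((nb G U w).card : ℝ) = (S'.card : ℝ) + ((nb G U w \ S').card : ℝ) := by
    have := Finset.card_sdiff_add_card_eq_card hS'
    have h4 : (nb G U w).card = S'.card + (nb G U w \ S').card := by omega
    exact_mod_cast h4
  rw [← card_nb]
  linarith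

/- MODULE SC4 -/
/-- TWO CROSSING NEAR-CLIQUES.
PROOF. `Γ = Cg G U W m`, `N = nb G U w`, `N' = nb G U w'`.  `few_missing` for both (`x = g m`): `S ⊆ N`,
`S' ⊆ N'`, `|N ∖ S| ≤ g m`, `|N' ∖ S'| ≤ g m`.  Choose `p ≠ q` in `N ∩ N' ∩ S ∩ S'` (at least `4 g m - 2 g m ≥ 20`
elements).  Suppose `|N' ∖ N| > (γ1 + 8 g) m`.  `T1 = S ∖ {p, q}`, `|T1| ≥ (1 - γ1 - g) m - 2`,
`T2 = S' ∖ N`, `|T2| > (γ1 + 7 g) m`; `T1`, `T2` are disjoint and do not contain `p`, `q`.  `d = ⌈g m⌉`.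
`i2 = min (|T2| - 2 d) (m - 3) ≥ 1`, `i1 = m - 2 - i2 ≥ 1`.  `i2 + 2 d ≤ |T2|` or (if `i2 = m - 3 ≤ |T2| - 2 d`) also.
`i1 + 2 d ≤ |T1|`: if `i2 = |T2| - 2 d` this says `m - 2 + 4 d ≤ |T1| + |T2|`, and
`|T1| + |T2| ≥ (1 + 6 g) m - 2 ≥ m - 2 + 4 g m + 4`; if `i2 = m - 3`: `1 + 2 d ≤ 2 g m + 3 ≤ m/8 + 3 ≤ |T1|`.
`greedy_path` in `Γ` twice: from `p` to `q` through `T1` with `i1` inner vertices, from `q` to `p` through `T2`
with `i2` inner vertices; `hasCyc_of_paths` (`r = 2`): a cycle of `Γ` of length `(i1 + 1) + (i2 + 1) = m`.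
Contradiction to `no_code_cycle`. -/
theorem crossing [DecidableEq V] (G : SimpleGraph V) (U W : Finset V) (hd : Disjoint U W) (m : ℕ)
    (h3 : 3 ≤ m) (g γ1 : ℝ) (hg : 0 < g) (hg1 : g ≤ 1 / 16) (hγ0 : 0 ≤ γ1) (hγ1 : γ1 ≤ 1 / 4)
    (hgm : 10 ≤ g * m) (no : ¬ HasCyc G (2 * m)) (w w' : V)
    (hw : ((nb G U w).card : ℝ) ^ 2 ≤ (vol (Cg G U W m) (nb G U w) : ℝ) + (g * m) ^ 2)
    (hw' : ((nb G U w').card : ℝ) ^ 2 ≤ (vol (Cg G U W m) (nb G U w') : ℝ) + (g * m) ^ 2)
    (hlow : (1 - γ1) * m ≤ (dg G U w : ℝ))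
    (hi : 4 * g * m ≤ ((nb G U w ∩ nb G U w').card : ℝ)) :
    ((nb G U w' \ nb G U w).card : ℝ) ≤ (γ1 + 8 * g) * m := by
  classical
  by_contra hcon
  push Not at hcon
  set N := nb G U w with hN
  set N' := nb G U w' with hN'
  have hgm0 : 0 < g * m := by linarith
  obtain ⟨S, hS, hc, hT⟩ := few_missing (Cg G U W m) N (g * m) hgm0 hw
  obtain ⟨S', hS', hc', hT'⟩ := few_missing (Cg G U W m) N' (g * m) hgm0 hw'
  have hm160 : (160 : ℝ) ≤ m := by
    have hm0 : (0 : ℝ) ≤ m := Nat.cast_nonneg _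
    nlinarith
  -- two common vertices
  obtain ⟨p, hp, q, hq, hpq⟩ : ∃ p ∈ (N ∩ N') ∩ (S ∩ S'), ∃ q ∈ (N ∩ N') ∩ (S ∩ S'), p ≠ q := by
    refine Finset.one_lt_card.1 ?_
    have h1 : N ∩ N' ⊆ ((N ∩ N') ∩ (S ∩ S')) ∪ ((N \ S) ∪ (N' \ S')) := by
      intro x hx
      rw [Finset.mem_inter] at hx
      simp only [Finset.mem_union, Finset.mem_inter, Finset.mem_sdiff]
      tauto
    have h2 := (Finset.card_le_card h1).trans (Finset.card_union_le _ _)
    have h4 := Finset.card_union_le (N \ S) (N' \ S')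
    have h5 : ((N ∩ N').card : ℝ) ≤ (((N ∩ N') ∩ (S ∩ S')).card : ℝ) +
        (((N \ S).card : ℝ) + ((N' \ S').card : ℝ)) := by exact_mod_cast h2.trans (by omega)
    have h6 : (1 : ℝ) < (((N ∩ N') ∩ (S ∩ S')).card : ℝ) := by
      have : 4 * g * m = 4 * (g * m) := by ring
      linarith
    exact_mod_cast h6
  simp only [Finset.mem_inter] at hp hq
  obtain ⟨⟨hpN, hpN'⟩, hpS, hpS'⟩ := hp
  obtain ⟨⟨hqN, hqN'⟩, hqS, hqS'⟩ := hq
  set T1 := (S.erase p).erase q with hT1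
  set T2 := S' \ N with hT2
  have hT1S : T1 ⊆ S := (Finset.erase_subset _ _).trans (Finset.erase_subset _ _)
  have hT2S : T2 ⊆ S' := Finset.sdiff_subset
  have hT1c : T1.card + 2 = S.card := by
    have h1 := Finset.card_erase_add_one hpS
    have h2 := Finset.card_erase_add_one (Finset.mem_erase.2 ⟨hpq.symm, hqS⟩)
    rw [hT1]
    omega
  have hNS : (N.card : ℝ) = (S.card : ℝ) + ((N \ S).card : ℝ) := by
    have := Finset.card_sdiff_add_card_eq_card hS
    have h4 : N.card = S.card + (N \ S).card := by omega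
    exact_mod_cast h4
  have hlow' : (1 - γ1) * m ≤ (N.card : ℝ) := hlow
  have hT1c' : (T1.card : ℝ) + 2 = S.card := by exact_mod_cast hT1c
  have hT1r : (1 - γ1 - g) * m - 2 ≤ (T1.card : ℝ) := by linarith
  have hT2r : (γ1 + 7 * g) * m ≤ (T2.card : ℝ) := by
    have h1 : N' \ N ⊆ T2 ∪ (N' \ S') := by
      intro x hx
      rw [Finset.mem_sdiff] at hx
      rw [Finset.mem_union, hT2, Finset.mem_sdiff, Finset.mem_sdiff]
      tauto
    have h2 := (Finset.card_le_card h1).trans (Finset.card_union_le _ _)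
    have h5 : ((N' \ N).card : ℝ) ≤ (T2.card : ℝ) + ((N' \ S').card : ℝ) := by exact_mod_cast h2
    linarith
  set d := ⌈g * m⌉₊ with hdd
  have hd1 : g * m ≤ (d : ℝ) := Nat.le_ceil _
  have hd2 : (d : ℝ) < g * m + 1 := Nat.ceil_lt_add_one hgm0.le
  have hγm : 0 ≤ γ1 * m := mul_nonneg hγ0 (Nat.cast_nonneg _)
  have hγm1 : γ1 * m ≤ 1 / 4 * m := mul_le_mul_of_nonneg_right hγ1 (Nat.cast_nonneg _)
  have hgm1 : g * m ≤ 1 / 16 * m := mul_le_mul_of_nonneg_right hg1 (Nat.cast_nonneg _)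
  have hT2d : 1 + 2 * d ≤ T2.card := by
    have : (1 : ℝ) + 2 * d ≤ T2.card := by linarith
    exact_mod_cast this
  have hm4 : 4 ≤ m := by
    have : (4 : ℝ) ≤ m := by linarith
    exact_mod_cast this
  set i2 := min (T2.card - 2 * d) (m - 3) with hi2
  have hi2a : 1 ≤ i2 := by
    rw [hi2, le_min_iff]
    omega
  have hi2b : i2 ≤ m - 3 := min_le_right _ _
  have hi2c : i2 + 2 * d ≤ T2.card := by
    have := min_le_left (T2.card - 2 * d) (m - 3)
    omega
  obtain ⟨i1, hi1⟩ : ∃ i1, i1 + i2 + 2 = m := ⟨m - 2 - i2, by omega⟩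
  have hi1a : 1 ≤ i1 := by omega
  have hi1b : i1 + 2 * d ≤ T1.card := by
    rcases le_total (T2.card - 2 * d) (m - 3) with h | h
    · have h1 : i2 = T2.card - 2 * d := min_eq_left h
      have h2 : (m : ℝ) + 4 * d ≤ 2 + T1.card + T2.card := by linarith
      have h4 : m + 4 * d ≤ 2 + T1.card + T2.card := by exact_mod_cast h2
      omega
    · have h1 : i2 = m - 3 := min_eq_right h
      have h2 : (1 : ℝ) + 2 * d ≤ T1.card := by linarith
      have h4 : 1 + 2 * d ≤ T1.card := by exact_mod_cast h2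
      omega
  have hr : ∀ (a b : ℕ) (x : ℝ), (a : ℝ) ≤ b + x → x ≤ d → a ≤ b + d := by
    intro a b x h1 h2
    have : (a : ℝ) ≤ b + d := by linarith
    exact_mod_cast this
  have hpT1 : p ∉ T1 := by
    rw [hT1, Finset.mem_erase, Finset.mem_erase]
    tauto
  have hqT1 : q ∉ T1 := by
    rw [hT1, Finset.mem_erase]
    tauto
  have hpT2 : p ∉ T2 := by
    rw [hT2, Finset.mem_sdiff]
    tauto
  have hqT2 : q ∉ T2 := by
    rw [hT2, Finset.mem_sdiff]
    tauto
  obtain ⟨l1, hl1, hl1l, hl1v⟩ := greedy_path (Cg G U W m) T1 d p q hpq hpT1 hqT1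
    (hr _ _ _ (hT p hpS T1 (hT1S.trans hS)) hd1) (hr _ _ _ (hT q hqS T1 (hT1S.trans hS)) hd1)
    (fun v hv => hr _ _ _ (hT v (hT1S hv) T1 (hT1S.trans hS)) hd1) i1 hi1a hi1b
  obtain ⟨l2, hl2, hl2l, hl2v⟩ := greedy_path (Cg G U W m) T2 d q p hpq.symm hqT2 hpT2
    (hr _ _ _ (hT' q hqS' T2 (hT2S.trans hS')) hd1) (hr _ _ _ (hT' p hpS' T2 (hT2S.trans hS')) hd1)
    (fun v hv => hr _ _ _ (hT' v (hT2S hv) T2 (hT2S.trans hS')) hd1) i2 hi2a hi2c
  have hcyc := hasCyc_of_paths (G := Cg G U W m) 2 le_rfl (fun i => if i = 1 then q else p)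
    (fun i => if i = 0 then l1 else l2) (by
      intro i hi
      have : i = 0 ∨ i = 1 := by omega
      rcases this with rfl | rfl
      · exact hl1
      · exact hl2) rfl (by
      intro i hi
      have : i = 0 ∨ i = 1 := by omega
      rcases this with rfl | rfl
      · show 2 ≤ l1.length
        omega
      · show 2 ≤ l2.length
        omega) (by
      intro i j hij hj v hv1 hv2
      have h1 : i = 0 := by omega
      have h2 : j = 1 := by omega
      subst h1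
      subst h2
      have hv1' : v ∈ l1 := hv1
      have hv2' : v ∈ l2 := hv2
      rcases hl1v v hv1' with h | h | h
      · exact Or.inr ⟨rfl, rfl, h⟩
      · exact Or.inl ⟨rfl, h⟩
      · exfalso
        have h4 : v ∈ N := hS (hT1S h)
        rcases hl2v v hv2' with h5 | h5 | h5
        · exact hqT1 (h5 ▸ h)
        · exact hpT1 (h5 ▸ h)
        · rw [hT2, Finset.mem_sdiff] at h5
          exact h5.2 h4) (by
      rw [Finset.sum_range_succ, Finset.sum_range_one]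
      show 3 ≤ (l1.length - 1) + (l2.length - 1)
      omega)
  rw [Finset.sum_range_succ, Finset.sum_range_one] at hcyc
  have h5 : (l1.length - 1) + (l2.length - 1) = m := by omega
  have hcyc' : HasCyc (Cg G U W m) ((l1.length - 1) + (l2.length - 1)) := hcyc
  rw [h5] at hcyc'
  exact no_code_cycle G U W hd m no hcyc'

/- MODULE SC5 -/
/-- MANY GOOD `w` OF DEGREE ABOUT `m`.
PROOF. `Γ = Cg G U W m`; `Bad` = the `w ∈ W` for which the condition on `vol` in `W1` fails; `few_bad` with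
`γ = g²/2` (`|U| ≤ Cu m ≤ γ m²`): `|Bad| ≤ 2 Cu² m / g²`.  So `∑_Bad dg ≤ |Bad| |U| ≤ 2 Cu³ m²/g² ≤ ε m |W|`, and
`|Bad| ≤ |W| / 4` (`2 Cu²/g² ≤ (1/4) · 2 Cu³/(g² ε)` as `Cu ≥ 1`, `ε ≤ 1/4`).  `W2` = the good `w` with
`dg < (1 - γ1) m`.  Good `w` have `dg ≤ (1 + 4 g) m` (`good_small`).  So
`(1 - 2 ε) m |W| ≤ (1 + 4 g) m (|W| - |W2|) + (1 - γ1) m |W2|`, hence `|W2| (γ1 + 4 g) ≤ (2 ε + 4 g) |W|`, and
`2 ε + 4 g ≤ γ1/4`: `|W2| ≤ |W|/4`. -/
theorem many_good [DecidableEq V] (G : SimpleGraph V) (U W : Finset V) (hd : Disjoint U W) (m : ℕ)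
    (h3 : 3 ≤ m) (g γ1 ε Cu : ℝ) (hg : 0 < g) (hε : 0 < ε) (hε1 : ε ≤ 1 / 4) (hCu : 1 ≤ Cu)
    (hγ1 : 8 * ε + 16 * g ≤ γ1) (hgm : 10 ≤ g * m) (hgm2 : 2 * Cu ≤ g ^ 2 * m)
    (no : ¬ HasCyc G (2 * m)) (hU : (U.card : ℝ) ≤ Cu * m)
    (hW : 2 * Cu ^ 3 / (g ^ 2 * ε) * m ≤ (W.card : ℝ))
    (hsum : (1 - ε) * m * (W.card : ℝ) ≤ ∑ w ∈ W, (dg G U w : ℝ)) :
    ∃ W1 ⊆ W, (W.card : ℝ) ≤ 2 * (W1.card : ℝ) ∧ ∀ w ∈ W1,
      ((nb G U w).card : ℝ) ^ 2 ≤ (vol (Cg G U W m) (nb G U w) : ℝ) + (g * m) ^ 2 ∧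
      (1 - γ1) * m ≤ (dg G U w : ℝ) := by
  classical
  have hm0 : (0 : ℝ) < m := by
    have : 0 < m := by omega
    exact_mod_cast this
  set Gd : V → Prop := fun w =>
    ((nb G U w).card : ℝ) ^ 2 ≤ (vol (Cg G U W m) (nb G U w) : ℝ) + (g * m) ^ 2 with hGd
  set Bad := W.filter (fun w => ¬ Gd w) with hBad
  set W2 := (W.filter Gd).filter (fun w => ¬ (1 - γ1) * m ≤ (dg G U w : ℝ)) with hW2
  set W1 := (W.filter Gd).filter (fun w => (1 - γ1) * m ≤ (dg G U w : ℝ)) with hW1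
  have hcard : (W.card : ℝ) = Bad.card + (W1.card + W2.card) := by
    have h1 := Finset.card_filter_add_card_filter_not (s := W) Gd
    have h2 := Finset.card_filter_add_card_filter_not (s := W.filter Gd)
      (fun w => (1 - γ1) * m ≤ (dg G U w : ℝ))
    have h4 : W.card = Bad.card + (W1.card + W2.card) := by
      rw [← h1, ← h2, add_comm]
    exact_mod_cast h4
  have hbad : g ^ 2 / 2 * (m : ℝ) ^ 2 * (Bad.card : ℝ) ≤ (m : ℝ) * (U.card : ℝ) ^ 2 := by
    refine few_bad G U W m (g ^ 2 / 2) (by positivity) ?_ Bad (Finset.filter_subset _ _) ?_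
    · refine hU.trans ?_
      have : 2 * Cu * m ≤ g ^ 2 * m * m := mul_le_mul_of_nonneg_right hgm2 hm0.le
      nlinarith
    · intro w hw
      have h1 := (Finset.mem_filter.1 hw).2
      simp only [hGd] at h1
      push Not at h1
      have e : 2 * (g ^ 2 / 2) * (m : ℝ) ^ 2 = (g * m) ^ 2 := by ring
      rw [e]
      exact h1
  have hUsq : (U.card : ℝ) ^ 2 ≤ Cu ^ 2 * (m : ℝ) ^ 2 := by
    have h0 : (0 : ℝ) ≤ U.card := Nat.cast_nonneg _
    calc (U.card : ℝ) ^ 2 ≤ (Cu * m) ^ 2 := pow_le_pow_left₀ h0 hU 2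
      _ = Cu ^ 2 * (m : ℝ) ^ 2 := by ring
  have hbad1 : g ^ 2 * (Bad.card : ℝ) ≤ 2 * Cu ^ 2 * m := by
    have h1 : g ^ 2 / 2 * (m : ℝ) ^ 2 * (Bad.card : ℝ) ≤ (m : ℝ) * (Cu ^ 2 * (m : ℝ) ^ 2) :=
      hbad.trans (mul_le_mul_of_nonneg_left hUsq hm0.le)
    have h2 : (g ^ 2 * (Bad.card : ℝ)) * (m : ℝ) ^ 2 ≤ (2 * Cu ^ 2 * m) * (m : ℝ) ^ 2 := by
      nlinarith
    exact le_of_mul_le_mul_right h2 (by positivity)
  have hbad2 : Cu * (Bad.card : ℝ) ≤ ε * W.card := by
    have hg2 : 0 < g ^ 2 := by positivity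
    have h1 : 2 * Cu ^ 3 * m ≤ g ^ 2 * ε * W.card := by
      have h2 : 2 * Cu ^ 3 / (g ^ 2 * ε) * m * (g ^ 2 * ε) ≤ (W.card : ℝ) * (g ^ 2 * ε) :=
        mul_le_mul_of_nonneg_right hW (by positivity)
      have h4 : 2 * Cu ^ 3 / (g ^ 2 * ε) * m * (g ^ 2 * ε) = 2 * Cu ^ 3 * m := by
        field_simp
      rw [h4] at h2
      linarith
    have h2 : g ^ 2 * (Cu * (Bad.card : ℝ)) ≤ g ^ 2 * (ε * W.card) := by
      have h4 : Cu * (g ^ 2 * (Bad.card : ℝ)) ≤ Cu * (2 * Cu ^ 2 * m) :=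
        mul_le_mul_of_nonneg_left hbad1 (by linarith)
      nlinarith
    exact le_of_mul_le_mul_left h2 hg2
  have hB0 : (0 : ℝ) ≤ Bad.card := Nat.cast_nonneg _
  have hW0 : (0 : ℝ) ≤ W.card := Nat.cast_nonneg _
  have hW20 : (0 : ℝ) ≤ W2.card := Nat.cast_nonneg _
  have hbad3 : (Bad.card : ℝ) ≤ ε * W.card := by nlinarith
  have hsumB : ∑ w ∈ Bad, (dg G U w : ℝ) ≤ ε * m * W.card := by
    have h1 : ∑ w ∈ Bad, (dg G U w : ℝ) ≤ Bad.card * (Cu * m) := by
      have := Finset.sum_le_card_nsmul Bad (fun w => (dg G U w : ℝ)) (Cu * m) (by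
        intro w _
        refine le_trans ?_ hU
        exact_mod_cast dg_le_card G U w)
      rwa [nsmul_eq_mul] at this
    nlinarith
  have hsum2 : ∑ w ∈ W2, (dg G U w : ℝ) ≤ W2.card * ((1 - γ1) * m) := by
    have := Finset.sum_le_card_nsmul W2 (fun w => (dg G U w : ℝ)) ((1 - γ1) * m) (by
      intro w hw
      have h1 := (Finset.mem_filter.1 hw).2
      push Not at h1
      exact h1.le)
    rwa [nsmul_eq_mul] at this
  have hsum1 : ∑ w ∈ W1, (dg G U w : ℝ) ≤ W1.card * ((1 + 4 * g) * m) := by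
    have := Finset.sum_le_card_nsmul W1 (fun w => (dg G U w : ℝ)) ((1 + 4 * g) * m) (by
      intro w hw
      have h1 := (Finset.mem_filter.1 hw).1
      exact good_small G U W hd m h3 g hg hgm no w (Finset.mem_filter.1 h1).2)
    rwa [nsmul_eq_mul] at this
  have hsumW : ∑ w ∈ W, (dg G U w : ℝ) = ∑ w ∈ Bad, (dg G U w : ℝ) +
      (∑ w ∈ W1, (dg G U w : ℝ) + ∑ w ∈ W2, (dg G U w : ℝ)) := by
    rw [hW1, hW2, Finset.sum_filter_add_sum_filter_not, hBad, add_comm,
      Finset.sum_filter_add_sum_filter_not]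
  have hkey : (γ1 + 4 * g) * (W2.card : ℝ) ≤ (2 * ε + 4 * g) * W.card := by
    have h1 : (1 - ε) * m * (W.card : ℝ) ≤ ε * m * W.card +
        (W1.card * ((1 + 4 * g) * m) + W2.card * ((1 - γ1) * m)) := by
      rw [hsumW] at hsum
      linarith
    have h2 : m * ((1 - ε) * (W.card : ℝ)) ≤ m * (ε * W.card +
        (W1.card * (1 + 4 * g) + W2.card * (1 - γ1))) := by nlinarith
    have h4 := le_of_mul_le_mul_left h2 hm0
    have h5 : (W1.card : ℝ) ≤ W.card - W2.card := by linarith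
    have h6 : (W1.card : ℝ) * (1 + 4 * g) ≤ (W.card - W2.card) * (1 + 4 * g) :=
      mul_le_mul_of_nonneg_right h5 (by linarith)
    nlinarith
  have hW2c : 4 * (W2.card : ℝ) ≤ W.card := by
    have hγ0 : 0 < γ1 := by nlinarith
    have h1 : γ1 * (4 * (W2.card : ℝ)) ≤ γ1 * W.card := by nlinarith
    exact le_of_mul_le_mul_left h1 hγ0
  refine ⟨W1, (Finset.filter_subset _ _).trans (Finset.filter_subset _ _), ?_, ?_⟩
  · nlinarith
  · intro w hw
    obtain ⟨h1, h2⟩ := Finset.mem_filter.1 hw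
    exact ⟨(Finset.mem_filter.1 h1).2, h2⟩

/- MODULE SC6 -/
/-- A CENTRE.
PROOF. `∑_(w, w' ∈ W1) |N(w) ∩ N(w')| = ∑_(u ∈ U) d(u)²` with `d(u)` = the number of `w ∈ W1` adjacent to `u`;
by Cauchy-Schwarz (`sq_sum_le_card_mul_sum_sq`) at least `(∑_w |N(w)|)²/|U| ≥ ((3/4) m |W1|)²/(Cu m) ≥ m |W1|²/(2 Cu)`.
So there is `w0` with `∑_(w ∈ W1) |N(w) ∩ N(w0)| ≥ m |W1|/(2 Cu)`.  Each term is at most `2 m`; if `x` terms are
`≥ m/(4 Cu)` then `2 m x + (m/(4 Cu)) |W1| ≥ m |W1|/(2 Cu)`, so `x ≥ |W1|/(8 Cu)`. -/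
theorem heavy_center [DecidableEq V] (G : SimpleGraph V) (U W1 : Finset V) (m : ℕ) (Cu : ℝ)
    (hm : 1 ≤ m) (hCu : 1 ≤ Cu) (hU : (U.card : ℝ) ≤ Cu * m) (hne : W1.Nonempty)
    (hlow : ∀ w ∈ W1, (3 / 4 : ℝ) * m ≤ (dg G U w : ℝ)) (hup : ∀ w ∈ W1, (dg G U w : ℝ) ≤ 2 * m) :
    ∃ w0 ∈ W1, ∃ W2 ⊆ W1, (W1.card : ℝ) ≤ 8 * Cu * (W2.card : ℝ) ∧
      ∀ w ∈ W2, (m : ℝ) / (4 * Cu) ≤ ((nb G U w ∩ nb G U w0).card : ℝ) := by
  classical
  have hm0 : (0 : ℝ) < m := by exact_mod_cast hm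
  have hCu0 : 0 < Cu := by linarith
  have hW1 : (0 : ℝ) < W1.card := by exact_mod_cast hne.card_pos
  set d : V → ℕ := fun u => (W1.filter (fun w => G.Adj w u)).card with hd
  have hd1 : ∑ u ∈ U, (d u : ℝ) = ∑ w ∈ W1, (dg G U w : ℝ) := by
    have : ∑ u ∈ U, d u = ∑ w ∈ W1, dg G U w := by
      simp only [hd, dg, Finset.card_filter]
      rw [Finset.sum_comm]
    exact_mod_cast this
  have hd2 : ∑ u ∈ U, (d u : ℝ) ^ 2 =
      ∑ w0 ∈ W1, ∑ w ∈ W1, ((nb G U w ∩ nb G U w0).card : ℝ) := by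
    have : ∑ u ∈ U, d u ^ 2 = ∑ w0 ∈ W1, ∑ w ∈ W1, (nb G U w ∩ nb G U w0).card := by
      have h1 : ∀ u, d u ^ 2 = ∑ w0 ∈ W1, ∑ w ∈ W1,
          if G.Adj w u ∧ G.Adj w0 u then 1 else 0 := by
        intro u
        simp only [hd, Finset.card_filter]
        rw [sq, Finset.sum_mul_sum]
        refine Finset.sum_congr rfl fun w0 _ => Finset.sum_congr rfl fun w _ => ?_
        by_cases h1 : G.Adj w0 u <;> by_cases h2 : G.Adj w u <;> simp [h1, h2]
      simp only [h1]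
      rw [Finset.sum_comm]
      refine Finset.sum_congr rfl fun w0 _ => ?_
      rw [Finset.sum_comm]
      refine Finset.sum_congr rfl fun w _ => ?_
      rw [← Finset.card_filter]
      congr 1
      ext u
      simp only [nb, Finset.mem_filter, Finset.mem_inter]
      tauto
    exact_mod_cast this
  have hcs := sq_sum_le_card_mul_sum_sq (s := U) (f := fun u => (d u : ℝ))
  rw [hd1] at hcs
  have hlow' : (3 / 4 : ℝ) * m * W1.card ≤ ∑ w ∈ W1, (dg G U w : ℝ) := by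
    have := Finset.card_nsmul_le_sum W1 (fun w => (dg G U w : ℝ)) _ hlow
    rw [nsmul_eq_mul] at this
    linarith
  have h1 : ((3 / 4 : ℝ) * m * W1.card) ^ 2 ≤ Cu * m * ∑ u ∈ U, (d u : ℝ) ^ 2 := by
    calc ((3 / 4 : ℝ) * m * W1.card) ^ 2 ≤ (∑ w ∈ W1, (dg G U w : ℝ)) ^ 2 :=
          pow_le_pow_left₀ (by positivity) hlow' 2
      _ ≤ _ := hcs
      _ ≤ _ := mul_le_mul_of_nonneg_right hU (Finset.sum_nonneg fun u _ => by positivity)
  have h2 : (W1.card : ℝ) * (m * W1.card / (2 * Cu)) ≤ ∑ u ∈ U, (d u : ℝ) ^ 2 := by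
    have h3 : (m : ℝ) * ((9 / 16) * m * (W1.card : ℝ) ^ 2) ≤
        m * (Cu * ∑ u ∈ U, (d u : ℝ) ^ 2) := by nlinarith
    have h4 := le_of_mul_le_mul_left h3 hm0
    have h5 : (W1.card : ℝ) * (m * W1.card / (2 * Cu)) = m * (W1.card : ℝ) ^ 2 / (2 * Cu) := by
      ring
    rw [h5, div_le_iff₀ (by positivity)]
    have h6 : 0 ≤ (m : ℝ) * (W1.card : ℝ) ^ 2 := by positivity
    nlinarith
  rw [hd2] at h2
  obtain ⟨w0, hw0, hw0s⟩ := Finset.exists_le_of_sum_le (s := W1)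
    (f := fun _ => (m : ℝ) * W1.card / (2 * Cu))
    (g := fun w0 => ∑ w ∈ W1, ((nb G U w ∩ nb G U w0).card : ℝ)) hne (by
      rw [Finset.sum_const, nsmul_eq_mul]
      exact h2)
  refine ⟨w0, hw0, W1.filter (fun w => (m : ℝ) / (4 * Cu) ≤ ((nb G U w ∩ nb G U w0).card : ℝ)),
    Finset.filter_subset _ _, ?_, fun w hw => (Finset.mem_filter.1 hw).2⟩
  set W2 := W1.filter (fun w => (m : ℝ) / (4 * Cu) ≤ ((nb G U w ∩ nb G U w0).card : ℝ)) with hW2
  have h3 : ∑ w ∈ W1, ((nb G U w ∩ nb G U w0).card : ℝ) ≤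
      W2.card * (2 * m) + W1.card * (m / (4 * Cu)) := by
    rw [← Finset.sum_filter_add_sum_filter_not W1
      (fun w => (m : ℝ) / (4 * Cu) ≤ ((nb G U w ∩ nb G U w0).card : ℝ))]
    refine add_le_add ?_ ?_
    · have := Finset.sum_le_card_nsmul W2 (fun w => ((nb G U w ∩ nb G U w0).card : ℝ)) (2 * m) (by
        intro w hw
        refine le_trans ?_ (hup w (Finset.mem_filter.1 hw).1)
        rw [← card_nb]
        exact_mod_cast Finset.card_le_card Finset.inter_subset_left)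
      rwa [nsmul_eq_mul] at this
    · have := Finset.sum_le_card_nsmul (W1.filter (fun w => ¬ (m : ℝ) / (4 * Cu) ≤
        ((nb G U w ∩ nb G U w0).card : ℝ))) (fun w => ((nb G U w ∩ nb G U w0).card : ℝ))
        ((m : ℝ) / (4 * Cu)) (by
        intro w hw
        have h4 := (Finset.mem_filter.1 hw).2
        push Not at h4
        exact h4.le)
      rw [nsmul_eq_mul] at this
      refine this.trans (mul_le_mul_of_nonneg_right ?_ (by positivity))
      exact_mod_cast Finset.card_filter_le _ _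
  have h4 : (m : ℝ) * W1.card / (2 * Cu) ≤ W2.card * (2 * m) + W1.card * (m / (4 * Cu)) :=
    hw0s.trans h3
  have h5 : (m : ℝ) * W1.card / (2 * Cu) = 2 * (W1.card * (m / (4 * Cu))) := by
    field_simp
    ring
  rw [h5] at h4
  have h6 : (W1.card : ℝ) * (m / (4 * Cu)) ≤ W2.card * (2 * m) := by linarith
  have h7 : (W1.card : ℝ) * (m / (4 * Cu)) * (4 * Cu) = m * W1.card := by
    field_simp
  have h8 : (W1.card : ℝ) * (m / (4 * Cu)) * (4 * Cu) ≤ W2.card * (2 * m) * (4 * Cu) :=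
    mul_le_mul_of_nonneg_right h6 (by positivity)
  rw [h7] at h8
  have h9 : (m : ℝ) * W1.card ≤ m * (8 * Cu * W2.card) := by linarith
  exact le_of_mul_le_mul_left h9 hm0

/- MODULE SC7 -/
/-- A CORE.
PROOF. `A0 = {a ∈ A1 : (1 - η) |B| ≤ dg B a}`.
`∑_(a ∈ A1) (|B| - dg B a) = ∑_(b ∈ B) (|A1| - dg A1 b) ≤ (η²/2) m |B|` (double counting), and `|B| - dg B a > η |B|` for
`a ∈ A1 ∖ A0`; so `|A1 ∖ A0| ≤ (η/2) m`, `|A0| ≥ (1 - η) m`.  For `b ∈ B`: `dg A0 b ≥ |A0| - (η²/2) m ≥ (1 - η) |A0|`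
(`(η/2) m ≤ |A0|`).  `|A0| < m`: otherwise take `m` elements of `A0` in a list; two elements of `A0` have at least
`(1 - 2 η) |B| ≥ |B|/2 ≥ 2 m ≥ m + 1` common neighbours in `B`: `close_weave` gives a cycle of length `2 m`. -/
theorem core_of_center [DecidableEq V] (G : SimpleGraph V) (m : ℕ) (h3 : 3 ≤ m) (η : ℝ)
    (hη : 0 < η) (hη1 : η ≤ 1 / 4) (A1 B : Finset V) (hd : Disjoint A1 B)
    (hB : 4 * (m : ℝ) ≤ (B.card : ℝ)) (hA1 : (1 - η / 2) * m ≤ (A1.card : ℝ))
    (hb : ∀ b ∈ B, (A1.card : ℝ) ≤ (dg G A1 b : ℝ) + η ^ 2 / 2 * m)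
    (no : ¬ HasCyc G (2 * m)) : ∃ A0 ⊆ A1, Core G m η A0 B := by
  classical
  have hm0 : (0 : ℝ) < m := by
    have : 0 < m := by omega
    exact_mod_cast this
  have hm3 : (3 : ℝ) ≤ m := by exact_mod_cast h3
  have hB0 : (0 : ℝ) < B.card := by linarith
  set A0 := A1.filter (fun a => (1 - η) * (B.card : ℝ) ≤ (dg G B a : ℝ)) with hA0
  have hdc : ∑ a ∈ A1, (dg G B a : ℝ) = ∑ b ∈ B, (dg G A1 b : ℝ) := by
    have : ∑ a ∈ A1, dg G B a = ∑ b ∈ B, dg G A1 b := by
      simp only [dg, Finset.card_filter]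
      rw [Finset.sum_comm]
      refine Finset.sum_congr rfl fun b _ => Finset.sum_congr rfl fun a _ => ?_
      simp only [G.adj_comm a b]
    exact_mod_cast this
  have h1 : ∑ a ∈ A1, ((B.card : ℝ) - (dg G B a : ℝ)) ≤ B.card * (η ^ 2 / 2 * m) := by
    rw [Finset.sum_sub_distrib, Finset.sum_const, hdc, nsmul_eq_mul]
    have h2 : ∑ b ∈ B, ((A1.card : ℝ) - (dg G A1 b : ℝ)) ≤ B.card * (η ^ 2 / 2 * m) := by
      have := Finset.sum_le_card_nsmul B (fun b => ((A1.card : ℝ) - (dg G A1 b : ℝ)))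
        (η ^ 2 / 2 * m) (by
        intro b hb'
        have := hb b hb'
        linarith)
      rwa [nsmul_eq_mul] at this
    rw [Finset.sum_sub_distrib, Finset.sum_const, nsmul_eq_mul] at h2
    linarith
  have h2 : ((A1 \ A0).card : ℝ) * (η * B.card) ≤ ∑ a ∈ A1, ((B.card : ℝ) - (dg G B a : ℝ)) := by
    have h4 : ((A1 \ A0).card : ℝ) * (η * B.card) ≤
        ∑ a ∈ A1 \ A0, ((B.card : ℝ) - (dg G B a : ℝ)) := by
      have := Finset.card_nsmul_le_sum (A1 \ A0) (fun a => ((B.card : ℝ) - (dg G B a : ℝ)))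
        (η * B.card) (by
        intro a ha
        rw [Finset.mem_sdiff, hA0, Finset.mem_filter] at ha
        have : ¬ (1 - η) * (B.card : ℝ) ≤ (dg G B a : ℝ) := fun h => ha.2 ⟨ha.1, h⟩
        push Not at this
        linarith)
      rwa [nsmul_eq_mul] at this
    refine h4.trans (Finset.sum_le_sum_of_subset_of_nonneg Finset.sdiff_subset ?_)
    intro a _ _
    have : (dg G B a : ℝ) ≤ B.card := by exact_mod_cast dg_le_card G B a
    linarith
  have h4 : ((A1 \ A0).card : ℝ) ≤ η / 2 * m := by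
    have h5 : (η * B.card) * ((A1 \ A0).card : ℝ) ≤ (η * B.card) * (η / 2 * m) := by nlinarith
    exact le_of_mul_le_mul_left h5 (by positivity)
  have hA0A1 : A0 ⊆ A1 := Finset.filter_subset _ _
  have h5 : (A1.card : ℝ) = (A0.card : ℝ) + ((A1 \ A0).card : ℝ) := by
    have := Finset.card_sdiff_add_card_eq_card hA0A1
    have h4 : A1.card = A0.card + (A1 \ A0).card := by omega
    exact_mod_cast h4
  have hA0c : (1 - η) * m ≤ (A0.card : ℝ) := by linarith
  have hA0c' : η / 2 * m ≤ (A0.card : ℝ) := by nlinarith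
  have hdA : ∀ a ∈ A0, (1 - η) * (B.card : ℝ) ≤ (dg G B a : ℝ) := fun a ha =>
    (Finset.mem_filter.1 ha).2
  refine ⟨A0, hA0A1, ⟨Finset.disjoint_of_subset_left hA0A1 hd, hA0c, ?_, hdA, ?_⟩⟩
  · by_contra hcon
    push Not at hcon
    obtain ⟨T, hT, hTc⟩ := Finset.exists_subset_card_eq hcon
    have hco : ∀ u ∈ A0, ∀ v ∈ A0, m + 1 ≤ codeg G B u v := by
      intro u hu v hv
      have h6 : (B.card : ℝ) + codeg G B u v ≥ dg G B u + dg G B v := by
        have h7 : dg G B u + dg G B v ≤ B.card + codeg G B u v := by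
          unfold dg codeg
          rw [← Finset.card_union_add_card_inter, ← Finset.filter_and]
          refine Nat.add_le_add_right ?_ _
          refine Finset.card_le_card ?_
          exact Finset.union_subset (Finset.filter_subset _ _) (Finset.filter_subset _ _)
        exact_mod_cast h7
      have h8 := hdA u hu
      have h9 := hdA v hv
      have h10 : η * (B.card : ℝ) ≤ 1 / 4 * B.card := mul_le_mul_of_nonneg_right hη1 hB0.le
      have h11 : (m : ℝ) + 1 ≤ codeg G B u v := by linarith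
      exact_mod_cast h11
    have hTne : T.toList ≠ [] := by
      intro h
      have h6 : T.toList.length = 0 := by rw [h]; rfl
      rw [Finset.length_toList] at h6
      omega
    have hmem : ∀ v ∈ T.toList, v ∈ A0 := fun v hv => hT (Finset.mem_toList.1 hv)
    refine no (close_weave G B T.toList m (by omega) (Finset.nodup_toList T)
      (by rw [Finset.length_toList, hTc]) ?_ ?_ (T.toList.head hTne) (T.toList.getLast hTne)
      (List.head?_eq_some_head hTne) (List.getLast?_eq_some_getLast hTne)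
      (hco _ (hmem _ (List.getLast_mem hTne)) _ (hmem _ (List.head_mem hTne))))
    · intro v hv hvB
      exact Finset.disjoint_left.1 hd (hA0A1 (hmem v hv)) hvB
    · refine List.Pairwise.isChain ?_
      rw [List.pairwise_iff_forall_sublist]
      intro a b hab
      exact hco a (hmem a (hab.subset (by simp))) b (hmem b (hab.subset (by simp)))
  · intro b hb'
    have h6 := hb b hb'
    have h7 : (A0.card : ℝ) + dg G A1 b ≤ A1.card + dg G A0 b := by
      have h8 : A0.card + dg G A1 b ≤ A1.card + dg G A0 b := by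
        unfold dg
        have h9 : A1.filter (fun w => G.Adj b w) ⊆
            A0.filter (fun w => G.Adj b w) ∪ (A1 \ A0) := by
          intro x hx
          rw [Finset.mem_filter] at hx
          rw [Finset.mem_union, Finset.mem_filter, Finset.mem_sdiff]
          by_cases hxA : x ∈ A0
          · exact Or.inl ⟨hxA, hx.2⟩
          · exact Or.inr ⟨hx.1, hxA⟩
        have h10 := (Finset.card_le_card h9).trans (Finset.card_union_le _ _)
        have h11 := Finset.card_sdiff_add_card_eq_card hA0A1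
        omega
      exact_mod_cast h8
    nlinarith

/- MODULE SC8 -/
/-- THE CORE LEMMA.
PROOF. `γ1 = η²/4`, `g = min (η²/256) (1/(16 Cu))`, `ε = η²/64`; `8 ε + 16 g ≤ η²/8 + η²/16 ≤ γ1`,
`γ1 + 8 g ≤ η²/2`.  `Cw = max (2 Cu³/(g² ε)) (16 Cu C2)`; `m0` so that `g m ≥ 10`, `g² m ≥ 2 Cu`, `m ≥ 3`.  `many_good`: `W1`,
`|W1| ≥ |W|/2 > 0`; `heavy_center` (`(1 - γ1) m ≥ 3 m/4`; `dg ≤ (1 + 4 g) m ≤ 2 m` by `good_small`): `w0`, `W2` with
`|W2| ≥ |W|/(16 Cu) ≥ C2 m ≥ 4 m`.  `crossing` for `w ∈ W2` and `w' = w0` (`m/(4 Cu) ≥ 4 g m`):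
`|N(w0) ∖ N(w)| ≤ (γ1 + 8 g) m ≤ (η²/2) m`.  `core_of_center` with `A1 = N(w0)`, `B = W2`:
`|N(w0)| ≤ |N(w0) ∩ N(w)| + (η²/2) m` and `|N(w0) ∩ N(w)| = dg G (N(w0)) w`. -/
theorem core_lemma (η Cu C2 : ℝ) (hη : 0 < η) (hη1 : η ≤ 1 / 4) (hCu : 1 ≤ Cu) (hC2 : 4 ≤ C2) :
    ∃ (Cw : ℝ) (m0 : ℕ), ∀ m : ℕ, m0 ≤ m → ∀ (V : Type u) (G : SimpleGraph V)
      (U W : Finset V), Disjoint U W → (U.card : ℝ) ≤ Cu * m → Cw * m ≤ (W.card : ℝ) →
      (1 - η ^ 2 / 64) * m * (W.card : ℝ) ≤ ∑ w ∈ W, (dg G U w : ℝ) → ¬ HasCyc G (2 * m) →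
      ∃ A0 B0 : Finset V, Core G m η A0 B0 ∧ C2 * m ≤ (B0.card : ℝ) ∧ A0 ⊆ U ∧ B0 ⊆ W := by
  set g : ℝ := min (η ^ 2 / 256) (1 / (16 * Cu)) with hg
  have hη2 : 0 < η ^ 2 := by positivity
  have hCu0 : 0 < Cu := by linarith
  have hg0 : 0 < g := lt_min (by positivity) (by positivity)
  have hg1 : g ≤ η ^ 2 / 256 := min_le_left _ _
  have hg2 : g ≤ 1 / (16 * Cu) := min_le_right _ _
  have hη2' : η ^ 2 ≤ 1 / 16 := by nlinarith
  set ε : ℝ := η ^ 2 / 64 with hε
  have hε0 : 0 < ε := by positivity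
  set Cw : ℝ := max (2 * Cu ^ 3 / (g ^ 2 * ε)) (16 * Cu * C2) with hCw
  refine ⟨Cw, max 3 (max ⌈10 / g⌉₊ ⌈2 * Cu / g ^ 2⌉₊), ?_⟩
  intro m hm V G U W hd hU hW hsum no
  classical
  have h3 : 3 ≤ m := (le_max_left _ _).trans hm
  have hm1 : ⌈10 / g⌉₊ ≤ m := ((le_max_left _ _).trans (le_max_right _ _)).trans hm
  have hm2 : ⌈2 * Cu / g ^ 2⌉₊ ≤ m := ((le_max_right _ _).trans (le_max_right _ _)).trans hm
  have hm0 : (0 : ℝ) < m := by
    have : 0 < m := by omega
    exact_mod_cast this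
  have hgm : 10 ≤ g * m := by
    have h1 : 10 / g ≤ m := (Nat.le_ceil _).trans (by exact_mod_cast hm1)
    rw [div_le_iff₀ hg0] at h1
    linarith
  have hgm2 : 2 * Cu ≤ g ^ 2 * m := by
    have h1 : 2 * Cu / g ^ 2 ≤ m := (Nat.le_ceil _).trans (by exact_mod_cast hm2)
    rw [div_le_iff₀ (by positivity)] at h1
    linarith
  obtain ⟨W1, hW1, hW1c, hW1g⟩ := many_good G U W hd m h3 g (η ^ 2 / 4) ε Cu hg0 hε0 (by linarith)
    hCu (by linarith) hgm hgm2 no hU
    ((mul_le_mul_of_nonneg_right (le_max_left _ _) hm0.le).trans hW) hsum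
  have hWc : 16 * Cu * C2 * m ≤ (W.card : ℝ) :=
    (mul_le_mul_of_nonneg_right (le_max_right _ _) hm0.le).trans hW
  have hW0 : (0 : ℝ) < W.card := lt_of_lt_of_le (by positivity) hWc
  have hW1ne : W1.Nonempty := by
    rw [← Finset.card_pos]
    have : (0 : ℝ) < W1.card := by linarith
    exact_mod_cast this
  have hlow : ∀ w ∈ W1, (3 / 4 : ℝ) * m ≤ (dg G U w : ℝ) := by
    intro w hw
    refine le_trans ?_ (hW1g w hw).2
    exact mul_le_mul_of_nonneg_right (by linarith) hm0.le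
  have hup : ∀ w ∈ W1, (dg G U w : ℝ) ≤ 2 * m := by
    intro w hw
    refine (good_small G U W hd m h3 g hg0 hgm no w (hW1g w hw).1).trans ?_
    exact mul_le_mul_of_nonneg_right (by linarith) hm0.le
  obtain ⟨w0, hw0, W2, hW2, hW2c, hW2i⟩ := heavy_center G U W1 m Cu (by omega) hCu hU hW1ne
    hlow hup
  have hW2C : C2 * m ≤ (W2.card : ℝ) := by
    have h1 : 16 * Cu * (C2 * m) ≤ 16 * Cu * (W2.card : ℝ) := by linarith
    exact le_of_mul_le_mul_left h1 (by positivity)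
  have hi : 4 * g * m ≤ (m : ℝ) / (4 * Cu) := by
    have h1 : 4 * g ≤ 1 / (4 * Cu) := by
      have e : (1 : ℝ) / (4 * Cu) = 4 * (1 / (16 * Cu)) := by
        field_simp
        norm_num
      rw [e]
      linarith
    calc 4 * g * m ≤ 1 / (4 * Cu) * m := mul_le_mul_of_nonneg_right h1 hm0.le
      _ = (m : ℝ) / (4 * Cu) := by ring
  have hN0 : (1 - η / 2) * m ≤ ((nb G U w0).card : ℝ) := by
    rw [card_nb]
    refine le_trans ?_ (hW1g w0 hw0).2
    refine mul_le_mul_of_nonneg_right ?_ hm0.le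
    nlinarith
  obtain ⟨A0, hA0, hA0c⟩ := core_of_center G m h3 η hη hη1 (nb G U w0) W2
    (Finset.disjoint_of_subset_left (Finset.filter_subset _ _)
      (Finset.disjoint_of_subset_right (hW2.trans hW1) hd))
    ((mul_le_mul_of_nonneg_right hC2 hm0.le).trans hW2C) hN0 (by
      intro b hb
      have h1 := crossing G U W hd m h3 g (η ^ 2 / 4) hg0 (by linarith) (by positivity)
        (by linarith) hgm no b w0 (hW1g b (hW2 hb)).1 (hW1g w0 hw0).1 (hW1g b (hW2 hb)).2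
        (hi.trans (hW2i b hb))
      have h2 : ((nb G U w0).card : ℝ) = ((nb G U w0 \ nb G U b).card : ℝ) +
          ((nb G U w0 ∩ nb G U b).card : ℝ) := by
        have := Finset.card_sdiff_add_card_inter (nb G U w0) (nb G U b)
        exact_mod_cast this.symm
      have h4 : (nb G U w0 ∩ nb G U b).card = dg G (nb G U w0) b := by
        unfold dg nb
        congr 1
        ext x
        simp only [Finset.mem_filter, Finset.mem_inter]
        tauto
      rw [h2, h4]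
      have h5 : (η ^ 2 / 4 + 8 * g) * m ≤ η ^ 2 / 2 * m :=
        mul_le_mul_of_nonneg_right (by linarith) hm0.le
      linarith) no
  exact ⟨A0, W2, hA0c, hW2C, hA0.trans (Finset.filter_subset _ _), hW2.trans hW1⟩

end TurMod
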