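import Pool.Agent.TurMod.Pot

/-!
# Matchings and edge counts (for the reduced graph)

A matching of size `ν` in `K` is given by functions `x y : ℕ → V`, with `x i, y i ∈ K` adjacent for
`i < ν` and all `2 ν` vertices different.
-/

namespace TurMod

open Finset

variable {V : Type*}

/-- `x i y i`, `i < ν`, is a matching inside `K` -/
structure Mat (G : SimpleGraph V) (K : Finset V) (ν : ℕ) (x y : ℕ → V) : Prop where
  xK : ∀ i < ν, x i ∈ K
  yK : ∀ i < ν, y i ∈ K
  adj : ∀ i < ν, G.Adj (x i) (y i)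
  xx : ∀ i < ν, ∀ j < ν, i ≠ j → x i ≠ x j
  yy : ∀ i < ν, ∀ j < ν, i ≠ j → y i ≠ y j
  xy : ∀ i < ν, ∀ j < ν, x i ≠ y j

/- MODULE MT1 -/
private theorem MT1_ext {G : SimpleGraph V} {K : Finset V} {ν : ℕ} {x y : ℕ → V}
    (hM : Mat G K ν x y) {u w : V} (hu : u ∈ K) (hw : w ∈ K) (hadj : G.Adj u w)
    (hu' : ∀ i < ν, u ≠ x i ∧ u ≠ y i) (hw' : ∀ i < ν, w ≠ x i ∧ w ≠ y i) :
    Mat G K (ν + 1) (Function.update x ν u) (Function.update y ν w) := by
  constructor
  · intro i hi
    rw [Function.update_apply]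
    split_ifs with h
    · exact hu
    · exact hM.xK i (by omega)
  · intro i hi
    rw [Function.update_apply]
    split_ifs with h
    · exact hw
    · exact hM.yK i (by omega)
  · intro i hi
    rw [Function.update_apply, Function.update_apply]
    split_ifs with h
    · exact hadj
    · exact hM.adj i (by omega)
  · intro i hi j hj hij
    rw [Function.update_apply, Function.update_apply]
    split_ifs with h h'
    · omega
    · exact (hu' j (by omega)).1
    · exact (hu' i (by omega)).1.symm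
    · exact hM.xx i (by omega) j (by omega) hij
  · intro i hi j hj hij
    rw [Function.update_apply, Function.update_apply]
    split_ifs with h h'
    · omega
    · exact (hw' j (by omega)).2
    · exact (hw' i (by omega)).2.symm
    · exact hM.yy i (by omega) j (by omega) hij
  · intro i hi j hj
    rw [Function.update_apply, Function.update_apply]
    split_ifs with h h'
    · exact hadj.ne
    · exact (hu' j (by omega)).2
    · exact (hw' i (by omega)).1.symm
    · exact hM.xy i (by omega) j (by omega)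

private theorem MT1_swap {G : SimpleGraph V} {K : Finset V} {ν : ℕ} {x y : ℕ → V}
    (hM : Mat G K ν x y) {i : ℕ} (hi : i < ν) {u : V} (hu : u ∈ K) (hadj : G.Adj u (x i))
    (hu' : ∀ i < ν, u ≠ x i ∧ u ≠ y i) :
    Mat G K ν (Function.update x i u) (Function.update y i (x i)) := by
  constructor
  · intro j hj
    rw [Function.update_apply]
    split_ifs with h
    · exact hu
    · exact hM.xK j hj
  · intro j hj
    rw [Function.update_apply]
    split_ifs with h
    · exact hM.xK i hi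
    · exact hM.yK j hj
  · intro j hj
    rw [Function.update_apply, Function.update_apply]
    split_ifs with h
    · exact hadj
    · exact hM.adj j hj
  · intro j hj k hk hjk
    rw [Function.update_apply, Function.update_apply]
    split_ifs with h h'
    · exact absurd (h.trans h'.symm) hjk
    · exact (hu' k hk).1
    · exact (hu' j hj).1.symm
    · exact hM.xx j hj k hk hjk
  · intro j hj k hk hjk
    rw [Function.update_apply, Function.update_apply]
    split_ifs with h h'
    · exact absurd (h.trans h'.symm) hjk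
    · exact hM.xy i hi k hk
    · exact (hM.xy i hi j hj).symm
    · exact hM.yy j hj k hk hjk
  · intro j hj k hk
    rw [Function.update_apply, Function.update_apply]
    split_ifs with h h' h'
    · exact hadj.ne
    · exact (hu' k hk).2
    · exact hM.xx j hj i hi h
    · exact hM.xy j hj k hk

/-- A maximum matching exists; the unmatched vertices are independent; and no augmentation of
length three is possible.
PROOF. `ν = 0` is a matching and `ν ≤ |K|`: take the largest `ν`.  An edge `u w` between two different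
unmatched vertices gives a matching of size `ν + 1`.  If `u ~ x i`, `w ~ y i` with `u ≠ w` unmatched,
replace `x i y i` by `u x i` and `w y i` (as `x' i = u, y' i = x i` and `x' ν = w, y' ν = y i`). -/
theorem exists_max_matching [Nonempty V] (G : SimpleGraph V) (K : Finset V) :
    ∃ (ν : ℕ) (x y : ℕ → V), Mat G K ν x y ∧
      (∀ u ∈ K, ∀ w ∈ K, (∀ i < ν, u ≠ x i ∧ u ≠ y i) → (∀ i < ν, w ≠ x i ∧ w ≠ y i) → ¬ G.Adj u w) ∧
      (∀ i < ν, ∀ u ∈ K, ∀ w ∈ K, (∀ i < ν, u ≠ x i ∧ u ≠ y i) → (∀ i < ν, w ≠ x i ∧ w ≠ y i) →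
        G.Adj u (x i) → G.Adj w (y i) → u = w) := by
  classical
  have hne : {ν : ℕ | ∃ x y : ℕ → V, Mat G K ν x y}.Nonempty := by
    obtain ⟨v⟩ := (inferInstance : Nonempty V)
    refine ⟨0, fun _ => v, fun _ => v, ?_⟩
    constructor <;> intro i hi <;> omega
  have hbd : BddAbove {ν : ℕ | ∃ x y : ℕ → V, Mat G K ν x y} := by
    refine ⟨K.card, ?_⟩
    rintro ν ⟨x, y, hM⟩
    have h1 : ((Finset.range ν).image x).card = ν := by
      rw [Finset.card_image_of_injOn, Finset.card_range]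
      intro i hi j hj hij
      rw [Finset.mem_coe, Finset.mem_range] at hi hj
      by_contra hne
      exact hM.xx i hi j hj hne hij
    rw [← h1]
    refine Finset.card_le_card ?_
    intro v hv
    obtain ⟨i, hi, rfl⟩ := Finset.mem_image.1 hv
    exact hM.xK i (Finset.mem_range.1 hi)
  obtain ⟨x, y, hM⟩ := Nat.sSup_mem hne hbd
  set ν := sSup {ν : ℕ | ∃ x y : ℕ → V, Mat G K ν x y} with hν
  have hmax : ∀ x' y' : ℕ → V, ¬ Mat G K (ν + 1) x' y' := by
    intro x' y' h
    have h1 : ν + 1 ≤ ν := le_csSup hbd ⟨x', y', h⟩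
    omega
  refine ⟨ν, x, y, hM, ?_, ?_⟩
  · intro u hu w hw hu' hw' hadj
    exact hmax _ _ (MT1_ext hM hu hw hadj hu' hw')
  · intro i hi u hu w hw hu' hw' hux hwy
    by_contra huw
    have h1 := MT1_swap hM hi hu hux hu'
    refine hmax _ _ (MT1_ext h1 hw (hM.yK i hi) hwy ?_ ?_)
    · intro j hj
      rw [Function.update_apply, Function.update_apply]
      split_ifs with hji
      · exact ⟨fun h => huw h.symm, (hw' i hi).1⟩
      · exact hw' j hj
    · intro j hj
      rw [Function.update_apply, Function.update_apply]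
      split_ifs with hji
      · exact ⟨fun h => (hu' i hi).2 h.symm, fun h => hM.xy i hi i hi h.symm⟩
      · exact ⟨fun h => hM.xy j hj i hi h.symm, hM.yy i hi j hj (fun h => hji h.symm)⟩

/- MODULE MT2 -/
open Classical in
/-- the matched vertices -/
private noncomputable def MT2_W (ν : ℕ) (x y : ℕ → V) : Finset V :=
  (Finset.range ν).image x ∪ (Finset.range ν).image y

private theorem MT2_injx {G : SimpleGraph V} {K : Finset V} {ν : ℕ} {x y : ℕ → V}
    (hM : Mat G K ν x y) : Set.InjOn x (Finset.range ν) := by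
  intro i hi j hj hij
  rw [Finset.mem_coe, Finset.mem_range] at hi hj
  by_contra hne
  exact hM.xx i hi j hj hne hij

private theorem MT2_injy {G : SimpleGraph V} {K : Finset V} {ν : ℕ} {x y : ℕ → V}
    (hM : Mat G K ν x y) : Set.InjOn y (Finset.range ν) := by
  intro i hi j hj hij
  rw [Finset.mem_coe, Finset.mem_range] at hi hj
  by_contra hne
  exact hM.yy i hi j hj hne hij

open Classical in
private theorem MT2_disj {G : SimpleGraph V} {K : Finset V} {ν : ℕ} {x y : ℕ → V}
    (hM : Mat G K ν x y) : Disjoint ((Finset.range ν).image x) ((Finset.range ν).image y) := by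
  rw [Finset.disjoint_left]
  intro v hv hv'
  obtain ⟨i, hi, rfl⟩ := Finset.mem_image.1 hv
  obtain ⟨j, hj, hj'⟩ := Finset.mem_image.1 hv'
  exact hM.xy i (Finset.mem_range.1 hi) j (Finset.mem_range.1 hj) hj'.symm

private theorem MT2_sub {G : SimpleGraph V} {K : Finset V} {ν : ℕ} {x y : ℕ → V}
    (hM : Mat G K ν x y) : MT2_W ν x y ⊆ K := by
  classical
  intro v hv
  unfold MT2_W at hv
  rcases Finset.mem_union.1 hv with h | h
  · obtain ⟨i, hi, rfl⟩ := Finset.mem_image.1 h
    exact hM.xK i (Finset.mem_range.1 hi)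
  · obtain ⟨i, hi, rfl⟩ := Finset.mem_image.1 h
    exact hM.yK i (Finset.mem_range.1 hi)

private theorem MT2_sum {G : SimpleGraph V} {K : Finset V} {ν : ℕ} {x y : ℕ → V}
    (hM : Mat G K ν x y) (f : V → ℕ) :
    ∑ v ∈ MT2_W ν x y, f v = ∑ i ∈ Finset.range ν, (f (x i) + f (y i)) := by
  classical
  unfold MT2_W
  rw [Finset.sum_union (MT2_disj hM), Finset.sum_image (MT2_injx hM),
    Finset.sum_image (MT2_injy hM), Finset.sum_add_distrib]

private theorem MT2_card {G : SimpleGraph V} {K : Finset V} {ν : ℕ} {x y : ℕ → V}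
    (hM : Mat G K ν x y) : (MT2_W ν x y).card = 2 * ν := by
  rw [Finset.card_eq_sum_ones, MT2_sum hM, Finset.sum_const, Finset.card_range, smul_eq_mul]
  ring

private theorem MT2_not {ν : ℕ} {x y : ℕ → V} {v : V} (hv : v ∉ MT2_W ν x y) :
    ∀ i < ν, v ≠ x i ∧ v ≠ y i := by
  classical
  intro i hi
  unfold MT2_W at hv
  rw [Finset.mem_union, not_or] at hv
  exact ⟨fun h => hv.1 (Finset.mem_image.2 ⟨i, Finset.mem_range.2 hi, h.symm⟩),
    fun h => hv.2 (Finset.mem_image.2 ⟨i, Finset.mem_range.2 hi, h.symm⟩)⟩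

open Classical in
private theorem MT2_dg {G : SimpleGraph V} {K : Finset V} {ν : ℕ} {x y : ℕ → V}
    (hI : ∀ u ∈ K, ∀ w ∈ K, (∀ i < ν, u ≠ x i ∧ u ≠ y i) → (∀ i < ν, w ≠ x i ∧ w ≠ y i) →
      ¬ G.Adj u w) (v : V) (hv : v ∈ K \ MT2_W ν x y) (hWK : MT2_W ν x y ⊆ K) :
    dg G K v = dg G (MT2_W ν x y) v := by
  unfold dg
  congr 1
  ext w
  rw [Finset.mem_filter, Finset.mem_filter]
  refine ⟨fun h => ⟨?_, h.2⟩, fun h => ⟨hWK h.1, h.2⟩⟩
  by_contra hw
  rw [Finset.mem_sdiff] at hv
  exact hI v hv.1 w h.1 (MT2_not hv.2) (MT2_not hw) h.2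

/-- Triangle-free: `e(K) ≤ ν (|K| - ν)`.
PROOF. `I = K ∖ V(M)`, `|I| = |K| - 2 ν`.  Every `v ∈ K` is adjacent to at most one of `x i`, `y i`
(otherwise a triangle), so `dg K (x i) + dg K (y i) ≤ |K|` (count the `v ∈ K`), and `dg K v ≤ ν` for
`v ∈ I` (its neighbours in `K` are matched).  Sum: `vol K ≤ ν |K| + (|K| - 2 ν) ν`. -/
theorem vol_le_of_triangle_free (G : SimpleGraph V) (K : Finset V) (ν : ℕ) (x y : ℕ → V)
    (hM : Mat G K ν x y)
    (hI : ∀ u ∈ K, ∀ w ∈ K, (∀ i < ν, u ≠ x i ∧ u ≠ y i) → (∀ i < ν, w ≠ x i ∧ w ≠ y i) →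
      ¬ G.Adj u w)
    (htri : ∀ a ∈ K, ∀ b ∈ K, ∀ c ∈ K, G.Adj a b → G.Adj b c → ¬ G.Adj a c) :
    (vol G K : ℝ) ≤ 2 * ν * ((K.card : ℝ) - ν) ∧ 2 * ν ≤ K.card := by
  classical
  set W := MT2_W ν x y with hW
  have hWK : W ⊆ K := MT2_sub hM
  have hWc : W.card = 2 * ν := MT2_card hM
  have h2ν : 2 * ν ≤ K.card := by
    rw [← hWc]
    exact Finset.card_le_card hWK
  have hsum : vol G K = ∑ v ∈ K \ W, dg G K v + ∑ v ∈ W, dg G K v := by
    unfold vol
    exact (Finset.sum_sdiff hWK).symm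
  have h1 : ∑ v ∈ W, dg G K v ≤ ν * K.card := by
    rw [hW, MT2_sum hM]
    have h2 : ∀ i ∈ Finset.range ν, dg G K (x i) + dg G K (y i) ≤ K.card := by
      intro i hi
      rw [Finset.mem_range] at hi
      unfold dg
      rw [← Finset.card_union_of_disjoint]
      · exact Finset.card_le_card (Finset.union_subset (Finset.filter_subset _ _)
          (Finset.filter_subset _ _))
      · rw [Finset.disjoint_left]
        intro v hv hv'
        rw [Finset.mem_filter] at hv hv'
        exact htri (x i) (hM.xK i hi) (y i) (hM.yK i hi) v hv.1 (hM.adj i hi) hv'.2 hv.2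
    refine (Finset.sum_le_sum h2).trans ?_
    rw [Finset.sum_const, Finset.card_range, smul_eq_mul]
  have h3 : ∑ v ∈ K \ W, dg G K v ≤ (K.card - 2 * ν) * ν := by
    have h4 : ∀ v ∈ K \ W, dg G K v ≤ ν := by
      intro v hv
      rw [MT2_dg hI v hv hWK]
      have h5 : dg G W v = ∑ w ∈ W, if G.Adj v w then 1 else 0 := by
        unfold dg
        rw [Finset.card_filter]
      rw [h5, hW, MT2_sum hM]
      have h6 : ∀ i ∈ Finset.range ν, ((if G.Adj v (x i) then 1 else 0) +
          (if G.Adj v (y i) then 1 else 0) : ℕ) ≤ 1 := by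
        intro i hi
        rw [Finset.mem_range] at hi
        split_ifs with h7 h8
        · exact absurd h8 (htri v (Finset.mem_sdiff.1 hv).1 (x i) (hM.xK i hi) (y i) (hM.yK i hi)
            h7 (hM.adj i hi))
        all_goals omega
      refine (Finset.sum_le_sum h6).trans ?_
      rw [Finset.sum_const, Finset.card_range, smul_eq_mul, mul_one]
    refine (Finset.sum_le_sum h4).trans ?_
    rw [Finset.sum_const, smul_eq_mul, Finset.card_sdiff_of_subset hWK, hWc]
  refine ⟨?_, h2ν⟩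
  have h4 : (vol G K : ℝ) ≤ ((K.card : ℝ) - 2 * ν) * ν + ν * K.card := by
    have h5 : vol G K ≤ (K.card - 2 * ν) * ν + ν * K.card := by
      rw [hsum]
      exact Nat.add_le_add h3 h1
    have h6 : (vol G K : ℝ) ≤ (((K.card - 2 * ν) * ν + ν * K.card : ℕ) : ℝ) := by
      exact_mod_cast h5
    rw [Nat.cast_add, Nat.cast_mul, Nat.cast_mul, Nat.cast_sub h2ν, Nat.cast_mul] at h6
    exact_mod_cast h6
  linarith

/- MODULE MT3 -/
/-- In general `e(K) ≤ ν |K|`.
PROOF. `I = K ∖ V(M)` is independent.  `vol K = ∑_(v ∈ V(M)) dg V(M) v + 2 ∑_(v ∈ V(M)) dg I v`.  The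
first sum is at most `2 ν (2 ν - 1)`.  For every `i`: `dg I (x i) + dg I (y i) ≤ |I| + 1`: if one of the
two is zero it is at most `|I|`; if both are positive then by `haug` all neighbours of `x i` in `I` are
equal to all neighbours of `y i` in `I`, so both numbers are `1` and `|I| ≥ 1`.  Total:
`2 ν (2 ν - 1) + 2 ν (|I| + 1) = 2 ν |K|`. -/
theorem vol_le_of_matching (G : SimpleGraph V) (K : Finset V) (ν : ℕ) (x y : ℕ → V)
    (hM : Mat G K ν x y)
    (hI : ∀ u ∈ K, ∀ w ∈ K, (∀ i < ν, u ≠ x i ∧ u ≠ y i) → (∀ i < ν, w ≠ x i ∧ w ≠ y i) →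
      ¬ G.Adj u w)
    (haug : ∀ i < ν, ∀ u ∈ K, ∀ w ∈ K, (∀ i < ν, u ≠ x i ∧ u ≠ y i) →
      (∀ i < ν, w ≠ x i ∧ w ≠ y i) → G.Adj u (x i) → G.Adj w (y i) → u = w) :
    vol G K ≤ 2 * ν * K.card := by
  classical
  set W := MT2_W ν x y with hW
  have hWK : W ⊆ K := MT2_sub hM
  have hWc : W.card = 2 * ν := MT2_card hM
  have h2ν : 2 * ν ≤ K.card := by
    rw [← hWc]
    exact Finset.card_le_card hWK
  set I := K \ W with hIdef
  have hIc : I.card + 2 * ν = K.card := by
    rw [hIdef, Finset.card_sdiff_of_subset hWK, hWc]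
    omega
  have hsum : vol G K = ∑ v ∈ I, dg G K v + ∑ v ∈ W, dg G K v := by
    unfold vol
    exact (Finset.sum_sdiff hWK).symm
  have h1 : ∑ v ∈ I, dg G K v = ∑ v ∈ W, dg G I v := by
    have h2 : ∀ v ∈ I, dg G K v = dg G W v := fun v hv => MT2_dg hI v hv hWK
    rw [Finset.sum_congr rfl h2]
    unfold dg
    simp only [Finset.card_filter]
    rw [Finset.sum_comm]
    refine Finset.sum_congr rfl fun v _ => Finset.sum_congr rfl fun w _ => ?_
    rw [G.adj_comm]
  have h2 : ∑ v ∈ W, dg G K v = ∑ v ∈ W, dg G W v + ∑ v ∈ W, dg G I v := by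
    rw [← Finset.sum_add_distrib]
    refine Finset.sum_congr rfl fun v _ => ?_
    unfold dg
    rw [← Finset.card_union_of_disjoint, ← Finset.filter_union, hIdef,
      Finset.union_sdiff_of_subset hWK]
    exact Finset.disjoint_filter_filter Finset.disjoint_sdiff
  have h3 : ∑ v ∈ W, dg G W v ≤ 2 * ν * (2 * ν - 1) := by
    have h4 := vol_le G W
    rw [hWc] at h4
    exact h4
  have h4 : ∑ v ∈ W, dg G I v ≤ ν * (I.card + 1) := by
    rw [hW, MT2_sum hM]
    have h5 : ∀ i ∈ Finset.range ν, dg G I (x i) + dg G I (y i) ≤ I.card + 1 := by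
      intro i hi
      rw [Finset.mem_range] at hi
      have h6 := dg_le_card G I (x i)
      have h7 := dg_le_card G I (y i)
      by_cases hx0 : dg G I (x i) = 0
      · omega
      by_cases hy0 : dg G I (y i) = 0
      · omega
      have hx1 : dg G I (x i) ≤ 1 := by
        unfold dg at hy0 ⊢
        obtain ⟨w, hw⟩ := Finset.card_ne_zero.1 hy0
        rw [Finset.mem_filter] at hw
        rw [Finset.card_le_one]
        have h8 : ∀ u ∈ I.filter (fun u => G.Adj (x i) u), u = w := by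
          intro u hu
          rw [Finset.mem_filter] at hu
          rw [hIdef, Finset.mem_sdiff] at hu hw
          exact haug i hi u hu.1.1 w hw.1.1 (MT2_not hu.1.2) (MT2_not hw.1.2) hu.2.symm hw.2.symm
        intro u hu u' hu'
        rw [h8 u hu, h8 u' hu']
      omega
    refine (Finset.sum_le_sum h5).trans ?_
    rw [Finset.sum_const, Finset.card_range, smul_eq_mul]
  rw [hsum, h1, h2]
  rcases Nat.eq_zero_or_pos ν with h0 | hpos
  · rw [h0] at h3 h4 ⊢
    omega
  · calc ∑ v ∈ W, dg G I v + (∑ v ∈ W, dg G W v + ∑ v ∈ W, dg G I v)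
        ≤ ν * (I.card + 1) + (2 * ν * (2 * ν - 1) + ν * (I.card + 1)) := by
          exact Nat.add_le_add h4 (Nat.add_le_add h3 h4)
      _ = 2 * ν * (I.card + 1 + (2 * ν - 1)) := by ring
      _ = 2 * ν * K.card := by
          congr 1
          omega

/- MODULE MT4 -/
/-- The numerical lemma. `0 ≤ ν ≤ h`, `2 ν ≤ c ≤ r'`, `2 h ≤ r'`: `r' ν (c - ν) ≤ c h (r' - h)`.
PROOF. `F(ν) = r' ν² - c r' ν + c h (r' - h)` decreases on `[0, c/2]`.  If `h ≤ c/2`:
`F(ν) ≥ F(h) = h² (r' - c) ≥ 0` (`F(ν) - F(h) = r' (h - ν)(c - ν - h) ≥ 0`).  If `h > c/2`: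
`F(ν) ≥ F(c/2) = c (h (r' - h) - c r'/4) ≥ 0`, since `c r'/4 ≤ h r'/2 ≤ h (r' - h)`
(`F(ν) - F(c/2) = r' (c/2 - ν)² ≥ 0`). -/
theorem num_ineq (h r' c ν : ℝ) (h0 : 0 ≤ ν) (h1 : ν ≤ h) (h2 : 2 * ν ≤ c) (h3 : c ≤ r')
    (h4 : 2 * h ≤ r') : r' * (ν * (c - ν)) ≤ c * (h * (r' - h)) := by
  have hr : 0 ≤ r' := by linarith
  have hc : 0 ≤ c := by linarith
  have hh : 0 ≤ h := h0.trans h1
  by_cases hcase : 2 * h ≤ c
  · nlinarith [mul_nonneg (mul_nonneg hr (sub_nonneg.2 h1)) (by linarith : (0 : ℝ) ≤ c - ν - h),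
      mul_nonneg (mul_nonneg hh hh) (sub_nonneg.2 h3)]
  · have h5 : c ≤ 2 * h := by linarith
    have h6 : 0 ≤ r' * (c / 2 - ν) ^ 2 := mul_nonneg hr (sq_nonneg _)
    have h7 : c * r' / 4 ≤ h * (r' - h) := by
      have h8 : c * r' / 4 ≤ h * r' / 2 := by nlinarith [mul_le_mul_of_nonneg_right h5 hr]
      have h9 : h * r' / 2 ≤ h * (r' - h) := by nlinarith
      linarith
    have h8 : c * (c * r' / 4) ≤ c * (h * (r' - h)) := mul_le_mul_of_nonneg_left h7 hc
    nlinarith

/-- STRUCTURE OF THE REDUCED GRAPH.  `h > 0`, `r' ≥ max (|V|) (2 h)`, `2 h (r' - h) |V| < r' vol R`.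
Then there is a connected set `K` with a matching of size `ν ≥ h`, or a connected set `K` with a
triangle and a matching of size `ν ≥ h/2`.
PROOF. `potential` with `t = 0`, `B = 2 h (r' - h) / r' ≥ 0` for `S₀ = univ` (nonempty as `vol R > 0`): connected
`K` with `vol K > B |K|`.  Let `ν` be from `exists_max_matching`.  If `K` has no triangle and `ν < h`:
`vol_le_of_triangle_free` and `num_ineq` (`c = |K| ≤ |V| ≤ r'`) give
`vol K ≤ 2 ν (c - ν) ≤ 2 c h (r' - h)/r' = B c`, a contradiction.  If `K` has a triangle and `ν < h/2`: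
`vol K ≤ 2 ν c < h c ≤ B c` as `2 h ≤ r'` (`c > 0`). -/
theorem reduced_structure [Fintype V] (R : SimpleGraph V) (h r' : ℝ) (hh : 0 < h)
    (hr : (Fintype.card V : ℝ) ≤ r') (hr2 : 2 * h ≤ r')
    (hvol : 2 * (h * (r' - h)) * (Fintype.card V : ℝ) < r' * (vol R Finset.univ : ℝ)) :
    ∃ (K : Finset V) (ν : ℕ) (x y : ℕ → V), Conn R K 0 ∧ Mat R K ν x y ∧
      (h ≤ ν ∨ (h / 2 ≤ ν ∧ ∃ a ∈ K, ∃ b ∈ K, ∃ c ∈ K, R.Adj a b ∧ R.Adj b c ∧ R.Adj a c)) := by
  classical
  have hr0 : 0 < r' := by linarith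
  have hB0 : 0 ≤ 2 * (h * (r' - h)) / r' := by
    apply div_nonneg _ hr0.le
    have h1 : 0 ≤ h * (r' - h) := mul_nonneg hh.le (by linarith)
    linarith
  have hBh : h ≤ 2 * (h * (r' - h)) / r' := by
    rw [le_div_iff₀ hr0]
    nlinarith
  have hV : 0 + 1 ≤ (Finset.univ : Finset V).card := by
    rw [zero_add, Nat.one_le_iff_ne_zero]
    intro h1
    rw [Finset.card_eq_zero] at h1
    rw [h1] at hvol
    have h2 : Fintype.card V = 0 := by
      rw [← Finset.card_univ, h1, Finset.card_empty]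
    rw [h2] at hvol
    unfold vol at hvol
    rw [Finset.sum_empty] at hvol
    simp at hvol
  have hne : Nonempty V := by
    rw [zero_add, Nat.one_le_iff_ne_zero] at hV
    obtain ⟨v, _⟩ := Finset.card_ne_zero.1 hV
    exact ⟨v⟩
  obtain ⟨K, _, hK, _, hKc, hconn⟩ := potential R Finset.univ (2 * (h * (r' - h)) / r') 0
    (by push_cast; linarith) (by push_cast; linarith) hV (by
      rw [Nat.cast_zero, sub_zero, Finset.card_univ, div_mul_eq_mul_div, div_lt_iff₀ hr0]
      linarith)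
  rw [Nat.cast_zero, sub_zero] at hK
  have hKpos : (0 : ℝ) < K.card := by linarith
  obtain ⟨ν, x, y, hM, hI, haug⟩ := exists_max_matching R K
  refine ⟨K, ν, x, y, hconn, hM, ?_⟩
  by_cases htri : ∃ a ∈ K, ∃ b ∈ K, ∃ c ∈ K, R.Adj a b ∧ R.Adj b c ∧ R.Adj a c
  · right
    refine ⟨?_, htri⟩
    by_contra hlt
    push Not at hlt
    have h1 : (vol R K : ℝ) ≤ 2 * ν * K.card := by
      exact_mod_cast vol_le_of_matching R K ν x y hM hI haug
    have h2 : 2 * (ν : ℝ) * K.card ≤ h * K.card := mul_le_mul_of_nonneg_right (by linarith) hKpos.le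
    have h3 : h * K.card ≤ 2 * (h * (r' - h)) / r' * K.card :=
      mul_le_mul_of_nonneg_right hBh hKpos.le
    linarith
  · left
    push Not at htri
    by_contra hlt
    push Not at hlt
    obtain ⟨h1, h2⟩ := vol_le_of_triangle_free R K ν x y hM hI (fun a ha b hb c hc hab hbc =>
      htri a ha b hb c hc hab hbc)
    have h2' : 2 * (ν : ℝ) ≤ K.card := by exact_mod_cast h2
    have h3 : (K.card : ℝ) ≤ r' := by
      refine le_trans ?_ hr
      exact_mod_cast Finset.card_le_univ K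
    have h4 := num_ineq h r' K.card ν (Nat.cast_nonneg _) hlt.le h2' h3 hr2
    have h5 : 2 * (ν : ℝ) * (K.card - ν) ≤ 2 * (h * (r' - h)) / r' * K.card := by
      rw [div_mul_eq_mul_div, le_div_iff₀ hr0]
      linarith
    linarith

end TurMod
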