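import Pool.Agent.TurMod.Emb
import Pool.Agent.TurMod.Match

/-!
# Connected matchings give cycles of prescribed length
-/

namespace TurMod

open Finset

variable {V : Type*} {ι : Type*}

/- MODULE CM1 -/
private theorem CM1_ofList (R : SimpleGraph ι) : ∀ (l : List ι) (u v : ι),
    (u :: l).IsChain R.Adj → (u :: l).getLast? = some v →
    ∃ w : R.Walk u v, w.length = l.length := by
  intro l
  induction l with
  | nil =>
    intro u v _ h
    simp only [List.getLast?_singleton, Option.some.injEq] at h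
    subst h
    exact ⟨SimpleGraph.Walk.nil, rfl⟩
  | cons a l ih =>
    intro u v h hl
    rw [List.isChain_cons_cons] at h
    have hl' : (a :: l).getLast? = some v := by simpa using hl
    obtain ⟨w, hw⟩ := ih a v h.2 hl'
    exact ⟨SimpleGraph.Walk.cons h.1 w, by simp [hw]⟩

private theorem CM1_fun {R : SimpleGraph ι} {u v : ι} (w : R.Walk u v) (p : ℕ)
    (hp : w.length = p) : ∃ f : ℕ → ι, f 0 = u ∧ f p = v ∧ ∀ i < p, R.Adj (f i) (f (i + 1)) := by
  subst hp
  exact ⟨w.getVert, w.getVert_zero, w.getVert_length, fun i hi => w.adj_getVert_succ hi⟩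

/-- Walks in a connected set with control of the parity.
PROOF. Fix `z ∈ K` and let `λ v` be the number of EDGES of some path from `z` to `v` inside `K`
(`exists_path_of_conn`, `X = ∅`; `λ v < |ι|`), `col v = (λ v even)`.  Walk from `u` to `v`: go from `u` back
to `z`, then to `v`: length `λ u + λ v ≤ 2 |ι|`; to make it at least `3` go first twice from `u` to a
neighbour (in `K`, exists as `K` is connected with two vertices) and back: `3 ≤ p ≤ 2 |ι| + 4`, the parity
is that of `λ u + λ v`.  If there are adjacent `a, b ∈ K` with `col a = col b` then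
`z → a → b → z` is a closed walk of odd length `λ a + 1 + λ b`, and we can insert it at `z`: both
parities are possible with `p ≤ 4 |ι| + 5`. -/
theorem parity_walks [Fintype ι] (R : SimpleGraph ι) (K : Finset ι) (hK : Conn R K 0)
    (h2 : 2 ≤ K.card) :
    ∃ col : ι → Bool, (∀ u ∈ K, ∀ v ∈ K, ∃ (p : ℕ) (w : ℕ → ι), 3 ≤ p ∧
        p ≤ 6 * Fintype.card ι + 10 ∧ w 0 = u ∧ w p = v ∧ (∀ i < p, R.Adj (w i) (w (i + 1))) ∧
        (Even p ↔ col u = col v)) ∧
      ((∀ u ∈ K, ∀ v ∈ K, R.Adj u v → col u ≠ col v) ∨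
        ∀ u ∈ K, ∀ v ∈ K, ∀ ϖ : ℕ, ∃ (p : ℕ) (w : ℕ → ι), 3 ≤ p ∧ p ≤ 6 * Fintype.card ι + 10 ∧
          w 0 = u ∧ w p = v ∧ (∀ i < p, R.Adj (w i) (w (i + 1))) ∧ p % 2 = ϖ % 2) := by
  classical
  obtain ⟨z, hz⟩ : K.Nonempty := Finset.card_pos.1 (by omega)
  have hwalk : ∀ v, ∃ (n : ℕ), v ∈ K → (n ≤ Fintype.card ι ∧ ∃ w : R.Walk z v, w.length = n) := by
    intro v
    by_cases hv : v ∈ K
    · obtain ⟨l, hl, _⟩ := exists_path_of_conn R K ∅ 0 hK (by simp) z v hz (by simp) hv (by simp)
      cases l with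
      | nil => exact absurd hl.2.2.1 (by simp)
      | cons u l =>
        have hu : u = z := by simpa using hl.2.2.1
        subst hu
        obtain ⟨w, hw⟩ := CM1_ofList R l u v hl.1 hl.2.2.2
        have h1 := hl.2.1.length_le_card
        simp only [List.length_cons] at h1
        exact ⟨l.length, fun _ => ⟨by omega, w, hw⟩⟩
    · exact ⟨0, fun h => absurd h hv⟩
  choose lam hlam using hwalk
  have hnb : ∀ u ∈ K, ∃ u', R.Adj u u' := by
    intro u hu
    obtain ⟨c, hc, hcu⟩ := Finset.exists_mem_ne (by omega : 1 < K.card) u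
    obtain ⟨a, ha, c', _, _, _, hadj⟩ := hK ∅ {u} (by simp) (by simpa using hu) (by simp)
      (by simp) ⟨c, hc, by simpa using hcu, by simp⟩
    rw [Finset.mem_singleton] at ha
    subst ha
    exact ⟨c', hadj⟩
  -- the basic walk
  have hbase : ∀ u ∈ K, ∀ v ∈ K, ∀ (n : ℕ) (c : R.Walk z z), c.length = n →
      ∃ w : R.Walk u v, w.length = lam u + lam v + 4 + n := by
    intro u hu v hv n c hc
    obtain ⟨u', hu'⟩ := hnb u hu
    obtain ⟨_, w1, hw1⟩ := hlam u hu
    obtain ⟨_, w2, hw2⟩ := hlam v hv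
    refine ⟨SimpleGraph.Walk.cons hu' (SimpleGraph.Walk.cons hu'.symm (SimpleGraph.Walk.cons hu'
      (SimpleGraph.Walk.cons hu'.symm (w1.reverse.append (c.append w2))))), ?_⟩
    simp only [SimpleGraph.Walk.length_cons, SimpleGraph.Walk.length_append,
      SimpleGraph.Walk.length_reverse, hw1, hw2, hc]
    omega
  refine ⟨fun v => decide (Even (lam v)), ?_, ?_⟩
  · intro u hu v hv
    obtain ⟨w, hw⟩ := hbase u hu v hv 0 SimpleGraph.Walk.nil rfl
    obtain ⟨f, h1, h3, h4⟩ := CM1_fun w _ hw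
    have h5 := (hlam u hu).1
    have h6 := (hlam v hv).1
    refine ⟨lam u + lam v + 4 + 0, f, by omega, by omega, h1, h3, h4, ?_⟩
    rw [decide_eq_decide]
    have h7 : Even (lam u + lam v + 4 + 0) ↔ Even (lam u + lam v) := by
      rw [Nat.add_zero, Nat.even_add]
      simp [show Even 4 by decide]
    rw [h7, Nat.even_add]
  · by_cases hcol : ∀ u ∈ K, ∀ v ∈ K, R.Adj u v → decide (Even (lam u)) ≠ decide (Even (lam v))
    · exact Or.inl hcol
    · right
      push Not at hcol
      obtain ⟨a, ha, b, hb, hab, hc⟩ := hcol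
      rw [decide_eq_decide] at hc
      obtain ⟨h5, w1, hw1⟩ := hlam a ha
      obtain ⟨h6, w2, hw2⟩ := hlam b hb
      have hodd : (lam a + 1 + lam b) % 2 = 1 := by
        rcases Nat.even_or_odd (lam a) with h | h
        · have h' := hc.1 h
          obtain ⟨x, hx⟩ := h
          obtain ⟨y, hy⟩ := h'
          omega
        · have h' : Odd (lam b) := by
            rw [← Nat.not_even_iff_odd] at h ⊢
            exact fun h'' => h (hc.2 h'')
          obtain ⟨x, hx⟩ := h
          obtain ⟨y, hy⟩ := h'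
          omega
      intro u hu v hv ϖ
      have h7 := (hlam u hu).1
      have h8 := (hlam v hv).1
      by_cases hpar : (lam u + lam v + 4 + 0) % 2 = ϖ % 2
      · obtain ⟨w, hw⟩ := hbase u hu v hv 0 SimpleGraph.Walk.nil rfl
        obtain ⟨f, h1, h3, h4⟩ := CM1_fun w _ hw
        exact ⟨lam u + lam v + 4 + 0, f, by omega, by omega, h1, h3, h4, hpar⟩
      · obtain ⟨w, hw⟩ := hbase u hu v hv (lam a + 1 + lam b)
          (w1.append (SimpleGraph.Walk.cons hab w2.reverse)) (by
            simp only [SimpleGraph.Walk.length_append, SimpleGraph.Walk.length_cons,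
              SimpleGraph.Walk.length_reverse, hw1, hw2]
            omega)
        obtain ⟨f, h1, h3, h4⟩ := CM1_fun w _ hw
        exact ⟨_, f, by omega, by omega, h1, h3, h4, by omega⟩

/- MODULE CM2 -/
private theorem CM2_sum : ∀ (q H T : ℕ), q ≤ T → T ≤ q * H →
    ∃ h : ℕ → ℕ, (∀ j < q, 1 ≤ h j ∧ h j ≤ H) ∧ ∑ j ∈ Finset.range q, h j = T := by
  intro q
  induction q with
  | zero =>
    intro H T _ h2
    exact ⟨fun _ => 0, by simp, by simp; omega⟩
  | succ q ih =>
    intro H T h1 h2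
    -- the last number
    obtain ⟨t, ht1, ht2, ht3, ht4⟩ : ∃ t, 1 ≤ t ∧ t ≤ H ∧ q ≤ T - t ∧ T - t ≤ q * H ∧ t ≤ T := by
      rw [Nat.succ_mul] at h2
      by_cases h : T - q ≤ H
      · refine ⟨T - q, by omega, h, by omega, ?_, by omega⟩
        have h3 : 1 ≤ H ∨ q = 0 ∨ H = 0 := by omega
        rcases Nat.eq_zero_or_pos H with h0 | h0
        · subst h0; omega
        · have : q * 1 ≤ q * H := Nat.mul_le_mul_left q h0
          omega
      · refine ⟨H, ?_, le_rfl, by omega, by omega, by omega⟩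
        rcases Nat.eq_zero_or_pos H with h0 | h0
        · subst h0; omega
        · exact h0
    obtain ⟨h, h3, h4⟩ := ih H (T - t) ht3 ht4.1
    refine ⟨fun j => if j < q then h j else t, ?_, ?_⟩
    · intro j _
      by_cases hj : j < q
      · simp only [if_pos hj]; exact h3 j hj
      · simp only [if_neg hj]; exact ⟨ht1, ht2⟩
    · rw [Finset.sum_range_succ]
      simp only [lt_irrefl, if_false]
      have h5 : ∑ j ∈ Finset.range q, (if j < q then h j else t) = ∑ j ∈ Finset.range q, h j :=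
        Finset.sum_congr rfl fun j hj => if_pos (Finset.mem_range.1 hj)
      rw [h5, h4]
      omega

private theorem CM2_shift {M : Type*} [AddCommMonoid M] (q : ℕ) (hq : 1 ≤ q) (f : ℕ → M) :
    ∑ j ∈ Finset.range q, f ((j + 1) % q) = ∑ j ∈ Finset.range q, f j := by
  obtain ⟨m, rfl⟩ : ∃ m, q = m + 1 := ⟨q - 1, by omega⟩
  rw [Finset.sum_range_succ, Finset.sum_range_succ', Nat.mod_self]
  congr 1
  refine Finset.sum_congr rfl fun j hj => ?_
  rw [Nat.mod_eq_of_lt (by have := Finset.mem_range.1 hj; omega)]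

/-- the connecting walks with the right parity -/
private theorem CM2_walks [Fintype ι] {R : SimpleGraph ι} (K : Finset ι)
    (hK : Conn R K 0) (q : ℕ) (hq : 1 ≤ q) (x y : ℕ → ι) (hM : Mat R K q x y) (L : ℕ)
    (hpar : Even L ∨ ∃ a ∈ K, ∃ b ∈ K, ∃ c ∈ K, R.Adj a b ∧ R.Adj b c ∧ R.Adj a c) :
    ∃ (p : ℕ → ℕ) (w : ℕ → ℕ → ι), (∀ j < q, 3 ≤ p j ∧ p j ≤ 6 * Fintype.card ι + 10 ∧
      w j 0 = y j ∧ w j (p j) = x ((j + 1) % q) ∧ ∀ i < p j, R.Adj (w j i) (w j (i + 1))) ∧
      (L + q + ∑ j ∈ Finset.range q, p j) % 2 = 0 := by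
  have h2 : 2 ≤ K.card := Finset.one_lt_card.2 ⟨x 0, hM.xK 0 hq, y 0, hM.yK 0 hq, hM.xy 0 hq 0 hq⟩
  obtain ⟨col, h3, h4⟩ := parity_walks R K hK h2
  have hx' : ∀ j, x ((j + 1) % q) ∈ K := fun j => hM.xK _ (Nat.mod_lt _ hq)
  rcases h4 with h4 | h4
  · -- a proper colouring
    have hL : Even L := by
      rcases hpar with h | ⟨a, ha, b, hb, c, hc, hab, hbc, hac⟩
      · exact h
      · exfalso
        have e1 := h4 a ha b hb hab
        have e2 := h4 b hb c hc hbc
        have e3 := h4 a ha c hc hac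
        revert e1 e2 e3
        cases col a <;> cases col b <;> cases col c <;> simp
    have h5 : ∀ j, ∃ (p : ℕ) (w : ℕ → ι), j < q → (3 ≤ p ∧ p ≤ 6 * Fintype.card ι + 10 ∧
        w 0 = y j ∧ w p = x ((j + 1) % q) ∧ (∀ i < p, R.Adj (w i) (w (i + 1))) ∧
        (Even p ↔ col (y j) = col (x ((j + 1) % q)))) := by
      intro j
      by_cases hj : j < q
      · obtain ⟨p, w, h⟩ := h3 (y j) (hM.yK j hj) (x ((j + 1) % q)) (hx' j)
        exact ⟨p, w, fun _ => h⟩
      · exact ⟨0, fun _ => x 0, fun h => absurd h hj⟩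
    choose p w h6 using h5
    refine ⟨p, w, fun j hj => ?_, ?_⟩
    · obtain ⟨a1, a2, a3, a4, a5, _⟩ := h6 j hj
      exact ⟨a1, a2, a3, a4, a5⟩
    · set c : ι → ZMod 2 := fun v => if col v = true then 1 else 0 with hc
      have h7 : ∀ j ∈ Finset.range q, ((p j : ℕ) : ZMod 2) + 1 =
          c (x j) + c (x ((j + 1) % q)) := by
        intro j hj
        have hj' := Finset.mem_range.1 hj
        have e1 := (h6 j hj').2.2.2.2.2
        have e2 := h4 _ (hM.xK j hj') _ (hM.yK j hj') (hM.adj j hj')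
        have e3 : ((p j : ℕ) : ZMod 2) = if Even (p j) then 0 else 1 := by
          split_ifs with h
          · exact (ZMod.natCast_eq_zero_iff_even).2 h
          · exact (ZMod.natCast_eq_one_iff_odd).2 (Nat.not_even_iff_odd.1 h)
        have e4 : ((p j : ℕ) : ZMod 2) = if col (y j) = col (x ((j + 1) % q)) then 0 else 1 := by
          rw [e3]
          by_cases h : Even (p j)
          · rw [if_pos h, if_pos (e1.1 h)]
          · rw [if_neg h, if_neg (fun h' => h (e1.2 h'))]
        rw [e4]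
        simp only [hc]
        revert e2
        cases col (x j) <;> cases col (y j) <;> cases col (x ((j + 1) % q)) <;> (simp; try decide)
      have h8 := Finset.sum_congr rfl h7
      rw [Finset.sum_add_distrib, Finset.sum_add_distrib, CM2_shift q hq (fun j => c (x j))] at h8
      simp only [Finset.sum_const, Finset.card_range, nsmul_eq_mul, mul_one] at h8
      have h9 : ((L + q + ∑ j ∈ Finset.range q, p j : ℕ) : ZMod 2) = 0 := by
        push_cast
        have e5 : (L : ZMod 2) = 0 := (ZMod.natCast_eq_zero_iff_even).2 hL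
        rw [e5, zero_add, add_comm, h8, ← two_mul]
        have e6 : (2 : ZMod 2) = 0 := by decide
        rw [e6, zero_mul]
      have h10 := (ZMod.natCast_eq_zero_iff_even).1 h9
      exact Nat.even_iff.1 h10
  · have h5 : ∀ j, ∃ (p : ℕ) (w : ℕ → ι), j < q → (3 ≤ p ∧ p ≤ 6 * Fintype.card ι + 10 ∧
        w 0 = y j ∧ w p = x ((j + 1) % q) ∧ (∀ i < p, R.Adj (w i) (w (i + 1))) ∧
        p % 2 = (if j + 1 = q then L + q else 0) % 2) := by
      intro j
      by_cases hj : j < q
      · obtain ⟨p, w, h⟩ := h4 (y j) (hM.yK j hj) (x ((j + 1) % q)) (hx' j)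
          (if j + 1 = q then L + q else 0)
        exact ⟨p, w, fun _ => h⟩
      · exact ⟨0, fun _ => x 0, fun h => absurd h hj⟩
    choose p w h6 using h5
    refine ⟨p, w, fun j hj => ?_, ?_⟩
    · obtain ⟨a1, a2, a3, a4, a5, _⟩ := h6 j hj
      exact ⟨a1, a2, a3, a4, a5⟩
    · obtain ⟨m, rfl⟩ : ∃ m, q = m + 1 := ⟨q - 1, by omega⟩
      rw [Finset.sum_range_succ]
      have e1 := (h6 m (by omega)).2.2.2.2.2
      rw [if_pos rfl] at e1
      have e2 : (∑ j ∈ Finset.range m, p j) % 2 = 0 := by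
        rw [← Nat.even_iff]
        refine Finset.even_sum _ fun j hj => ?_
        have hj' := Finset.mem_range.1 hj
        have e3 := (h6 j (by omega)).2.2.2.2.2
        rw [if_neg (by omega)] at e3
        exact Nat.even_iff.2 e3
      omega

/-- CONNECTED MATCHING LEMMA.  `K` connected with a matching of size `q ≥ 1` in the reduced graph; `L`
even, or `K` contains a triangle.  Then there is a cycle of length `L` for all `L` in a long range.
PROOF. `parity_walks`.  For `j < q` a walk `w j` of length `p j` from `y j` to `x ((j+1) % q)`,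
`3 ≤ p j ≤ 6 r + 10`, `r = |ι|`.  Parity of `L + q + ∑ p j`: if `col` is a proper colouring of `K` then there is no
triangle, `L` is even, and `∑ (1 + p j)` is even: `col (x j) ≠ col (y j)` and `p j` is even iff
`col (y j) = col (x ((j+1) % q))`; going round, the colour changes an even number of times
(e.g. with `c v ∈ {0,1}`: `p j ≡ c (y j) + c (x (j+1))`, `1 ≡ c (x j) + c (y j)`, sum `≡ 2 ∑ ... ≡ 0`).
Otherwise choose the parity of `p (q-1)` such that `L + q + ∑ p j` is even.  So
`L + q - ∑ p j = 2 T` with `q ≤ T ≤ q (N - g - 3 s)` by `hL1`, `hL2`.  Choose `h j` with sum `T`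
(`exists_sum` is in Dense.lean; prove it again privately here) and use `embed`:
`∑ (2 h j - 1 + p j) = 2 T - q + ∑ p j = L`. -/
theorem conn_matching_cycle [DecidableEq V] [Fintype ι] {G : SimpleGraph V} {R : SimpleGraph ι}
    {X : ι → Finset V} {N s : ℕ} {d : ℝ} (hC : Clus G R X N s d) (K : Finset ι)
    (hK : Conn R K 0) (q : ℕ) (hq : 1 ≤ q) (x y : ℕ → ι) (hM : Mat R K q x y) (g L : ℕ)
    (hpar : Even L ∨ ∃ a ∈ K, ∃ b ∈ K, ∃ c ∈ K, R.Adj a b ∧ R.Adj b c ∧ R.Adj a c)
    (hg : (2 * s + q * (6 * Fintype.card ι + 10) : ℝ) ≤ d * g)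
    (hL1 : q * (6 * Fintype.card ι + 12) ≤ L) (hL2 : L + 2 * q * (g + 3 * s) ≤ 2 * q * N) :
    HasCyc G L := by
  obtain ⟨p, w, h1, h2⟩ := CM2_walks K hK q hq x y hM L hpar
  set r := Fintype.card ι with hr
  have hs1 : ∑ j ∈ Finset.range q, p j ≤ q * (6 * r + 10) := by
    refine (Finset.sum_le_sum fun j hj => (h1 j (Finset.mem_range.1 hj)).2.1).trans ?_
    rw [Finset.sum_const, Finset.card_range, smul_eq_mul]
  have hs2 : 3 * q ≤ ∑ j ∈ Finset.range q, p j := by
    have := Finset.sum_le_sum fun j (hj : j ∈ Finset.range q) => (h1 j (Finset.mem_range.1 hj)).1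
    rw [Finset.sum_const, Finset.card_range, smul_eq_mul] at this
    omega
  have hq12 : q * (6 * r + 12) = q * (6 * r + 10) + 2 * q := by ring
  have hNg : g + 3 * s ≤ N := by
    have h3 : 2 * q * (g + 3 * s) ≤ 2 * q * N := by omega
    exact Nat.le_of_mul_le_mul_left h3 (by omega)
  obtain ⟨H, hH⟩ : ∃ H, N = H + (g + 3 * s) := ⟨N - (g + 3 * s), by omega⟩
  obtain ⟨T, hT⟩ : ∃ T, L + q = 2 * T + ∑ j ∈ Finset.range q, p j := by
    refine ⟨(L + q - ∑ j ∈ Finset.range q, p j) / 2, ?_⟩
    omega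
  have hT2 : T ≤ q * H := by
    have h4 : 2 * q * N = 2 * (q * H) + 2 * q * (g + 3 * s) := by rw [hH]; ring
    omega
  obtain ⟨h, h5, h6⟩ := CM2_sum q H T (by omega) hT2
  have hcyc := embed hC q hq x y hM.adj hM.xx hM.yy hM.xy p w (fun j hj => (h1 j hj).1)
    (fun j hj => (h1 j hj).2.2.1) (fun j hj => (h1 j hj).2.2.2.1)
    (fun j hj => (h1 j hj).2.2.2.2) g (by
      have h7 : (∑ j ∈ Finset.range q, (p j : ℝ)) ≤ q * (6 * (r : ℝ) + 10) := by
        exact_mod_cast hs1
      linarith) h (fun j hj => (h5 j hj).1) (fun j hj => by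
      have := (h5 j hj).2
      omega)
  have h8 : ∑ j ∈ Finset.range q, (2 * h j - 1 + p j) = L := by
    have h9 : ∑ j ∈ Finset.range q, (2 * h j - 1 + p j) + ∑ j ∈ Finset.range q, 1 =
        ∑ j ∈ Finset.range q, (2 * h j + p j) := by
      rw [← Finset.sum_add_distrib]
      refine Finset.sum_congr rfl fun j hj => ?_
      have := (h5 j (Finset.mem_range.1 hj)).1
      omega
    rw [Finset.sum_add_distrib (f := fun j => 2 * h j), ← Finset.mul_sum, h6, Finset.sum_const,
      Finset.card_range, smul_eq_mul, mul_one] at h9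
    omega
  rwa [h8] at hcyc

/- MODULE CM3 -/
/-- A triangle of the reduced graph gives a triangle.
PROOF. The set of `x ∈ X a` with fewer than `d N` neighbours in `X b` has fewer than `s` elements (`typ`),
the same for `X c`; `2 s ≤ N`, so some `x ∈ X a` has at least `d N ≥ s` neighbours in both `X b` and
`X c`; `Clus.edge` between these neighbourhoods.  `hasCyc_of_list` for `[x, y, z]`. -/
theorem triangle_cycle {G : SimpleGraph V} {R : SimpleGraph ι} {X : ι → Finset V} {N s : ℕ} {d : ℝ}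
    (hC : Clus G R X N s d) (a b c : ι) (hab : R.Adj a b) (hbc : R.Adj b c) (hac : R.Adj a c)
    (hN : 2 * s ≤ N) (hd : (s : ℝ) ≤ d * N) : HasCyc G 3 := by
  classical
  have hs := hC.s_pos
  have hsz := hC.size
  have key : ∀ e, R.Adj a e → ((X a).filter (fun x => (dg G (X e) x : ℝ) < d * N)).card < s := by
    intro e he
    by_contra hc
    push Not at hc
    obtain ⟨x, hx, hx'⟩ := hC.typ a e he (X e) subset_rfl (by rw [hsz]; omega) _
      (Finset.filter_subset _ _) hc
    rw [hsz] at hx'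
    exact absurd hx' (not_le.2 (Finset.mem_filter.1 hx).2)
  obtain ⟨x, hx, hxb, hxc⟩ : ∃ x ∈ X a, d * N ≤ (dg G (X b) x : ℝ) ∧ d * N ≤ (dg G (X c) x : ℝ) := by
    by_contra hcon
    push Not at hcon
    have h1 : X a ⊆ (X a).filter (fun x => (dg G (X b) x : ℝ) < d * N) ∪
        (X a).filter (fun x => (dg G (X c) x : ℝ) < d * N) := by
      intro x hx
      rw [Finset.mem_union, Finset.mem_filter, Finset.mem_filter]
      by_cases h : (dg G (X b) x : ℝ) < d * N
      · exact Or.inl ⟨hx, h⟩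
      · exact Or.inr ⟨hx, hcon x hx (not_lt.1 h)⟩
    have h2 := (Finset.card_le_card h1).trans (Finset.card_union_le _ _)
    rw [hsz] at h2
    have h3 := key b hab
    have h4 := key c hac
    omega
  have hB : s ≤ ((X b).filter (fun w => G.Adj x w)).card := by
    have h1 : (s : ℝ) ≤ (dg G (X b) x : ℝ) := hd.trans hxb
    have h2 : s ≤ dg G (X b) x := by exact_mod_cast h1
    unfold dg at h2
    exact h2
  have hCc : s ≤ ((X c).filter (fun w => G.Adj x w)).card := by
    have h1 : (s : ℝ) ≤ (dg G (X c) x : ℝ) := hd.trans hxc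
    have h2 : s ≤ dg G (X c) x := by exact_mod_cast h1
    unfold dg at h2
    exact h2
  obtain ⟨y, hy, z, hz, hyz⟩ := hC.edge hbc (Finset.filter_subset _ _) (Finset.filter_subset _ _)
    hB hCc
  have hxy := (Finset.mem_filter.1 hy).2
  have hxz := (Finset.mem_filter.1 hz).2
  have hcyc := hasCyc_of_list (G := G) (x := x) (y := z) (l := [x, y, z]) ⟨by
    rw [List.isChain_cons_cons, List.isChain_cons_cons]
    exact ⟨hxy, hyz, List.isChain_singleton z⟩, by
    simp [hxy.ne, hyz.ne, hxz.ne], by simp, by simp⟩ (by simp) hxz.symm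
  exact hcyc

/-- Short odd cycles from a triangle of the reduced graph.
PROOF. `L = 3`: `triangle_cycle`.  `L ≥ 5`: `embed` with `q = 1`, `a 0 = a`, `b 0 = b`, the walk
`b, c, b, c, a` (`p = 4`) and `h 0 = (L - 3)/2`: length `2 h - 1 + 4 = L`. -/
theorem odd_cycle_of_triangle [DecidableEq V] {G : SimpleGraph V} {R : SimpleGraph ι}
    {X : ι → Finset V} {N s : ℕ} {d : ℝ} (hC : Clus G R X N s d) (a b c : ι) (hab : R.Adj a b)
    (hbc : R.Adj b c) (hac : R.Adj a c) (g L : ℕ) (hL : Odd L) (hL3 : 3 ≤ L)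
    (hg : (2 * s + 4 : ℝ) ≤ d * g) (hN : L + g + 3 * s ≤ N) : HasCyc G L := by
  have hgN : (g : ℝ) ≤ N := by exact_mod_cast (show g ≤ N by omega)
  have hdg : d * g ≤ d * N := mul_le_mul_of_nonneg_left hgN hC.d_pos.le
  rcases Nat.lt_or_ge L 5 with h5 | h5
  · obtain ⟨m, hm⟩ := hL
    have h3 : L = 3 := by omega
    rw [h3]
    exact triangle_cycle hC a b c hab hbc hac (by omega) (by
      have : (0 : ℝ) ≤ s := Nat.cast_nonneg s
      linarith)
  · obtain ⟨m, hm⟩ := hL
    have hcyc := embed hC 1 le_rfl (fun _ => a) (fun _ => b) (fun _ _ => hab)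
      (fun i hi j hj hij => absurd (by omega) hij) (fun i hi j hj hij => absurd (by omega) hij)
      (fun _ _ _ _ => hab.ne) (fun _ => 4)
      (fun _ i => if i = 4 then a else if i % 2 = 0 then b else c) (fun _ _ => by omega)
      (fun _ _ => by simp) (fun _ _ => by simp) (fun _ _ i hi => by
        interval_cases i
        · simpa using hbc
        · simpa using hbc.symm
        · simpa using hbc
        · simpa using hac.symm) g (by simpa using hg) (fun _ => m - 1) (fun _ _ => by omega)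
      (fun _ _ => by omega)
    simp only [Finset.sum_range_one] at hcyc
    have h6 : 2 * (m - 1) - 1 + 4 = L := by omega
    rwa [h6] at hcyc

end TurMod
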