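import Pool.Agent.TurMod.Defs

/-!
# The potential lemma: dense subgraphs without small separations
-/

namespace TurMod

open Finset

variable {V : Type*}

/- MODULE PO1 -/
open Classical in
private theorem PO1_dg [DecidableEq V] (G : SimpleGraph V) (S : Finset V) (v u : V) (hv : v ∈ S) :
    dg G S u = dg G (S.erase v) u + (if G.Adj u v then 1 else 0) := by
  unfold dg
  have h1 : S = insert v (S.erase v) := (Finset.insert_erase hv).symm
  conv_lhs => rw [h1]
  rw [Finset.filter_insert]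
  split_ifs with h
  · rw [Finset.card_insert_of_notMem]
    intro h2
    exact Finset.notMem_erase v S (Finset.mem_filter.1 h2).1
  · rfl

/-- removing a vertex. PROOF. `vol` counts ordered adjacent pairs in `S`; those that involve `v`
are `2 * dg G S v` many (no loops). -/
theorem vol_erase [DecidableEq V] (G : SimpleGraph V) (S : Finset V) (v : V) (hv : v ∈ S) :
    vol G S = vol G (S.erase v) + 2 * dg G S v := by
  classical
  unfold vol
  rw [← Finset.add_sum_erase S (fun u => dg G S u) hv,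
    Finset.sum_congr rfl fun u _ => PO1_dg G S v u hv, Finset.sum_add_distrib,
    ← Finset.card_filter]
  have h1 : ((S.erase v).filter fun u => G.Adj u v).card = dg G S v := by
    unfold dg
    congr 1
    ext w
    rw [Finset.mem_filter, Finset.mem_filter, Finset.mem_erase]
    constructor
    · rintro ⟨⟨_, h2⟩, h3⟩
      exact ⟨h2, h3.symm⟩
    · rintro ⟨h2, h3⟩
      exact ⟨⟨fun h4 => G.irrefl (h4 ▸ h3), h2⟩, h3.symm⟩
  rw [h1]
  ring

open Classical in
private theorem PO1_vol (G : SimpleGraph V) (S : Finset V) :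
    vol G S = ((S ×ˢ S).filter (fun p => G.Adj p.1 p.2)).card := by
  unfold vol dg
  rw [Finset.card_filter, Finset.sum_product]
  refine Finset.sum_congr rfl fun v _ => ?_
  rw [Finset.card_filter]

/-- If every edge inside `S` lies inside `A` or inside `C` then `vol S ≤ vol A + vol C`.
PROOF. Ordered adjacent pairs in `S` inject. -/
theorem vol_le_add [DecidableEq V] (G : SimpleGraph V) (S A C : Finset V) (hA : A ⊆ S) (hC : C ⊆ S)
    (h : ∀ u ∈ S, ∀ v ∈ S, G.Adj u v → (u ∈ A ∧ v ∈ A) ∨ (u ∈ C ∧ v ∈ C)) :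
    vol G S ≤ vol G A + vol G C := by
  classical
  rw [PO1_vol, PO1_vol, PO1_vol]
  refine le_trans (Finset.card_le_card ?_) (Finset.card_union_le _ _)
  rintro ⟨u, v⟩ huv
  rw [Finset.mem_filter, Finset.mem_product] at huv
  rw [Finset.mem_union, Finset.mem_filter, Finset.mem_filter, Finset.mem_product,
    Finset.mem_product]
  rcases h u huv.1.1 v huv.1.2 huv.2 with h1 | h1
  · exact Or.inl ⟨h1, huv.2⟩
  · exact Or.inr ⟨h1, huv.2⟩

private theorem PO1_lt (G : SimpleGraph V) (S T : Finset V) (v : V) (hv : v ∈ T)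
    (h : ∀ w ∈ S, G.Adj v w → w ∈ T) : dg G S v + 1 ≤ T.card := by
  classical
  unfold dg
  have h1 : (S.filter fun w => G.Adj v w) ⊆ T.erase v := by
    intro w hw
    rw [Finset.mem_filter] at hw
    rw [Finset.mem_erase]
    exact ⟨fun h4 => G.irrefl (h4 ▸ hw.2), h w hw.1 hw.2⟩
  have h2 := Finset.card_le_card h1
  rw [Finset.card_erase_of_mem hv] at h2
  have h3 : 0 < T.card := Finset.card_pos.2 ⟨v, hv⟩
  omega

/-- `vol S ≤ |S| (|S| - 1)`. -/
theorem vol_le (G : SimpleGraph V) (S : Finset V) : vol G S ≤ S.card * (S.card - 1) := by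
  unfold vol
  have h1 : ∀ v ∈ S, dg G S v ≤ S.card - 1 := by
    intro v hv
    have h2 := PO1_lt G S S v hv (fun w hw _ => hw)
    omega
  have h3 := Finset.sum_le_card_nsmul S (fun v => dg G S v) (S.card - 1) h1
  rwa [smul_eq_mul] at h3

/- MODULE PO2 -/
private theorem PO2_arith (B : ℝ) (t s : ℕ) (hB1 : 2 * (t : ℝ) ≤ B / 2 + 1)
    (hB2 : (t : ℝ) * (t + 1) ≤ B) (h1 : t + 1 ≤ s) (h2 : (s : ℝ) ≤ B / 2 + 1) :
    (s : ℝ) * (s - 1) ≤ B * (s - t) := by
  obtain ⟨a, rfl⟩ := Nat.exists_eq_add_of_le h1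
  push_cast at h2 ⊢
  have ha : (0 : ℝ) ≤ (a : ℝ) * ((a : ℝ) - 1) := by
    rcases Nat.eq_zero_or_pos a with h | h
    · subst h
      simp
    · have h3 : (1 : ℝ) ≤ (a : ℝ) := by exact_mod_cast h
      nlinarith
  have ha0 : (0 : ℝ) ≤ (a : ℝ) := Nat.cast_nonneg a
  have ht0 : (0 : ℝ) ≤ (t : ℝ) := Nat.cast_nonneg t
  nlinarith [mul_nonneg ha0 (sub_nonneg.2 h2)]

private theorem PO2_big (B : ℝ) (t s : ℕ) (hB1 : 2 * (t : ℝ) ≤ B / 2 + 1)
    (hB2 : (t : ℝ) * (t + 1) ≤ B) (h : B / 2 + 1 < (s : ℝ)) : t + 2 ≤ s := by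
  have ht0 : (0 : ℝ) ≤ (t : ℝ) := Nat.cast_nonneg t
  have hB0 : 0 ≤ B := le_trans (by positivity) hB2
  rcases Nat.eq_zero_or_pos t with h1 | h1
  · subst h1
    have h2 : (1 : ℝ) < (s : ℝ) := by linarith
    have h3 : 1 < s := by exact_mod_cast h2
    omega
  · have h2 : ((2 * t : ℕ) : ℝ) < (s : ℝ) := by
      push_cast
      linarith
    have h3 : 2 * t < s := by exact_mod_cast h2
    omega

/-- POTENTIAL LEMMA.  If `vol S₀ > B (|S₀| - t)` then some `S ⊆ S₀` has the same property, has all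
degrees (inside `S`) larger than `B / 2`, more than `B / 2 + 1` vertices, and no separation of order
at most `t`.
PROOF. Take `S ⊆ S₀` with `t + 1 ≤ |S|` and `B (|S| - t) < vol S` of minimal size.
(1) `|S| > B/2 + 1`: otherwise with `s = |S|`, `t + 1 ≤ s ≤ B/2 + 1`, we have
`B (s - t) < s (s - 1)` (`vol_le`).  The convex function `φ(s) = s (s-1) - B (s-t)` is `≤ 0` at
`s = t + 1` (`t (t+1) ≤ B`) and at `s = B/2 + 1` (`φ = B (t - (B/2+1)/2) ≤ 0` as `2 t ≤ B/2 + 1`), so
`≤ 0` between: contradiction.  (nlinarith: `(s - (t+1)) * (B/2 + 1 - s) ≥ 0`.)  In particular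
`|S| ≥ t + 2` (for `t = 0` from `s > 1`; for `t ≥ 1` from `s > B/2+1 ≥ 2 t ≥ t + 1`).
(2) If `2 dg(v) ≤ B` for some `v ∈ S` then `S.erase v` is smaller and still good (`vol_erase`).
(3) Let `X`, `A` be as in `Conn` and suppose there is no edge from `A` to `S ∖ A ∖ X`.  Put
`A1 = A ∪ (X ∩ S)`, `C1 = S ∖ A`.  Every edge inside `S` lies in `A1` or in `C1`, so
`vol S ≤ vol A1 + vol C1`.  All neighbours in `S` of a vertex `a ∈ A` are in `A1`, so
`|A1| > dg(a) > B/2`, `|A1| ≥ t + 1` (as `|A1| ≥ dg + 1 > B/2 + 1`), similarly for `C1` with the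
vertex `c` (`c ∉ A`, `c ∉ X`; all its neighbours in `S` are not in `A`).  `A1 ≠ S` (it misses `c`),
`C1 ≠ S`.  By minimality `vol A1 ≤ B (|A1| - t)`, `vol C1 ≤ B (|C1| - t)`, and
`|A1| + |C1| = |S| + |X ∩ S| ≤ |S| + t`, so `vol S ≤ B (|S| - t)`: contradiction (`B ≥ 0`). -/
theorem potential (G : SimpleGraph V) (S₀ : Finset V) (B : ℝ) (t : ℕ)
    (hB1 : 2 * (t : ℝ) ≤ B / 2 + 1) (hB2 : (t : ℝ) * (t + 1) ≤ B) (h₀ : t + 1 ≤ S₀.card)
    (h : B * ((S₀.card : ℝ) - t) < (vol G S₀ : ℝ)) :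
    ∃ S ⊆ S₀, B * ((S.card : ℝ) - t) < (vol G S : ℝ) ∧ (∀ v ∈ S, B < 2 * (dg G S v : ℝ)) ∧
      B / 2 + 1 < (S.card : ℝ) ∧ Conn G S t := by
  classical
  have hB0 : 0 ≤ B := le_trans (by positivity) hB2
  obtain ⟨S, hS, hmin⟩ := Finset.exists_min_image
    (S₀.powerset.filter fun S => t + 1 ≤ S.card ∧ B * ((S.card : ℝ) - t) < (vol G S : ℝ))
    (fun S => S.card) ⟨S₀, by
      rw [Finset.mem_filter, Finset.mem_powerset]
      exact ⟨Finset.Subset.refl _, h₀, h⟩⟩
  rw [Finset.mem_filter, Finset.mem_powerset] at hS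
  obtain ⟨hSS, hSt, hSB⟩ := hS
  have hmin' : ∀ T ⊆ S, T.card < S.card → t + 1 ≤ T.card →
      (vol G T : ℝ) ≤ B * ((T.card : ℝ) - t) := by
    intro T hT hc ht
    by_contra hcon
    push Not at hcon
    have h1 := hmin T (by
      rw [Finset.mem_filter, Finset.mem_powerset]
      exact ⟨hT.trans hSS, ht, hcon⟩)
    omega
  have h1 : B / 2 + 1 < (S.card : ℝ) := by
    by_contra hcon
    push Not at hcon
    have h2 := PO2_arith B t S.card hB1 hB2 hSt hcon
    have h3 : (vol G S : ℝ) ≤ (S.card : ℝ) * ((S.card : ℝ) - 1) := by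
      have h4 := vol_le G S
      have h5 : ((S.card - 1 : ℕ) : ℝ) = (S.card : ℝ) - 1 := by
        rw [Nat.cast_sub (by omega), Nat.cast_one]
      rw [← h5]
      exact_mod_cast h4
    linarith
  have h2 := PO2_big B t S.card hB1 hB2 h1
  have hdeg : ∀ v ∈ S, B < 2 * (dg G S v : ℝ) := by
    intro v hv
    by_contra hcon
    push Not at hcon
    have h3 : (S.erase v).card = S.card - 1 := Finset.card_erase_of_mem hv
    have h4 := hmin' (S.erase v) (Finset.erase_subset _ _) (by omega) (by omega)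
    have h5 := vol_erase G S v hv
    have h6 : (vol G S : ℝ) = (vol G (S.erase v) : ℝ) + 2 * (dg G S v : ℝ) := by
      rw [h5]
      push_cast
      ring
    have h7 : ((S.erase v).card : ℝ) = (S.card : ℝ) - 1 := by
      rw [h3, Nat.cast_sub (by omega), Nat.cast_one]
    rw [h7] at h4
    nlinarith
  refine ⟨S, hSS, hSB, hdeg, h1, ?_⟩
  intro X A hX hAS hAne hAX hc
  by_contra hcon
  push Not at hcon
  obtain ⟨c, hcS, hcA, hcX⟩ := hc
  obtain ⟨a, haA⟩ := hAne
  have hA1 : A ∪ (X ∩ S) ⊆ S := Finset.union_subset hAS Finset.inter_subset_right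
  have hC1 : S \ A ⊆ S := Finset.sdiff_subset
  have hno : ∀ a ∈ A, ∀ c ∈ S, G.Adj a c → c ∈ A ∪ (X ∩ S) := by
    intro a ha c hc hac
    by_contra hc1
    rw [Finset.mem_union, Finset.mem_inter] at hc1
    push Not at hc1
    exact hcon a ha c hc hc1.1 (fun h3 => hc1.2 h3 hc) hac
  have hvol := vol_le_add G S _ _ hA1 hC1 (by
    intro u hu v hv huv
    by_cases hu1 : u ∈ A
    · exact Or.inl ⟨Finset.mem_union_left _ hu1, hno u hu1 v hv huv⟩
    · by_cases hv1 : v ∈ A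
      · exact Or.inl ⟨hno v hv1 u hu huv.symm, Finset.mem_union_left _ hv1⟩
      · exact Or.inr ⟨Finset.mem_sdiff.2 ⟨hu, hu1⟩, Finset.mem_sdiff.2 ⟨hv, hv1⟩⟩)
  have hdA := PO1_lt G S (A ∪ (X ∩ S)) a (Finset.mem_union_left _ haA)
    (fun w hw haw => hno a haA w hw haw)
  have hdC := PO1_lt G S (S \ A) c (Finset.mem_sdiff.2 ⟨hcS, hcA⟩) (fun w hw hcw => by
    rw [Finset.mem_sdiff]
    refine ⟨hw, fun hwA => ?_⟩
    have h3 := hno w hwA c hcS hcw.symm
    rw [Finset.mem_union, Finset.mem_inter] at h3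
    rcases h3 with h3 | h3
    · exact hcA h3
    · exact hcX h3.1)
  have hA2 : B / 2 + 1 < ((A ∪ (X ∩ S)).card : ℝ) := by
    have h3 := hdeg a (hAS haA)
    have h4 : ((dg G S a + 1 : ℕ) : ℝ) ≤ ((A ∪ (X ∩ S)).card : ℝ) := by exact_mod_cast hdA
    push_cast at h4
    linarith
  have hC2 : B / 2 + 1 < ((S \ A).card : ℝ) := by
    have h3 := hdeg c hcS
    have h4 : ((dg G S c + 1 : ℕ) : ℝ) ≤ ((S \ A).card : ℝ) := by exact_mod_cast hdC
    push_cast at h4
    linarith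
  have hA3 := PO2_big B t _ hB1 hB2 hA2
  have hC3 := PO2_big B t _ hB1 hB2 hC2
  have hA4 : (A ∪ (X ∩ S)).card < S.card := by
    refine Finset.card_lt_card ⟨hA1, fun h3 => ?_⟩
    have h4 := h3 hcS
    rw [Finset.mem_union, Finset.mem_inter] at h4
    rcases h4 with h4 | h4
    · exact hcA h4
    · exact hcX h4.1
  have hC4 : (S \ A).card < S.card := by
    refine Finset.card_lt_card ⟨hC1, fun h3 => ?_⟩
    exact (Finset.mem_sdiff.1 (h3 (hAS haA))).2 haA
  have hA5 := hmin' _ hA1 hA4 (by omega)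
  have hC5 := hmin' _ hC1 hC4 (by omega)
  have hcard : (A ∪ (X ∩ S)).card + (S \ A).card ≤ S.card + t := by
    have h3 := Finset.card_union_le A (X ∩ S)
    have h4 := Finset.card_sdiff_add_card_eq_card hAS
    have h5 : (X ∩ S).card ≤ X.card := Finset.card_le_card Finset.inter_subset_left
    omega
  have hcard' : ((A ∪ (X ∩ S)).card : ℝ) + ((S \ A).card : ℝ) ≤ (S.card : ℝ) + t := by
    exact_mod_cast hcard
  have hvol' : (vol G S : ℝ) ≤ (vol G (A ∪ (X ∩ S)) : ℝ) + (vol G (S \ A) : ℝ) := by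
    exact_mod_cast hvol
  nlinarith

end TurMod
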