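import Pool.Agent.TurMod.Glue
import Pool.Agent.TurMod.Pot

/-!
# Cores: near-complete bipartite pairs, paths through a core

From here on: the EXACT theorem for large `k`.  `a = m - 1`, `2 m = k + l`.
`Core G m η A₀ B₀`: `A₀`, `B₀` disjoint, `(1-η) m ≤ |A₀| < m`, every vertex of `A₀` is adjacent to all but
`η |B₀|` vertices of `B₀` and conversely.
-/

namespace TurMod

open Finset

variable {V : Type*}

/-- `G` is the complete bipartite graph with parts `A` and the complement of `A` -/
def KAB (G : SimpleGraph V) (A : Finset V) : Prop :=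
  ∀ u v, G.Adj u v ↔ ((u ∈ A ∧ v ∉ A) ∨ (v ∈ A ∧ u ∉ A))

structure Core (G : SimpleGraph V) (m : ℕ) (η : ℝ) (A₀ B₀ : Finset V) : Prop where
  disj : Disjoint A₀ B₀
  cardA : (1 - η) * m ≤ (A₀.card : ℝ)
  cardA' : A₀.card < m
  dA : ∀ a ∈ A₀, (1 - η) * (B₀.card : ℝ) ≤ (dg G B₀ a : ℝ)
  dB : ∀ b ∈ B₀, (1 - η) * (A₀.card : ℝ) ≤ (dg G A₀ b : ℝ)

/-- `b` is adjacent to at least three quarters of `A₀` -/
def Typ (G : SimpleGraph V) (A₀ : Finset V) (b : V) : Prop := 3 * A₀.card ≤ 4 * dg G A₀ b

/-- the standing assumptions on a core `(A₀, B₀)` and a larger set `A ⊇ A₀` of vertices with many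
neighbours in `B₀` -/
structure Big (G : SimpleGraph V) (m : ℕ) (η₀ η : ℝ) (A₀ A B₀ : Finset V) : Prop where
  core : Core G m η A₀ B₀
  η₀_pos : 0 < η₀
  η₀_le : η₀ ≤ 1
  η_pos : 0 < η
  η_le : η ≤ η₀ / 10000
  cardB : (1 + η₀) * m ≤ (B₀.card : ℝ)
  sub : A₀ ⊆ A
  disj : Disjoint A B₀
  many : ∀ v ∈ A, B₀.card ≤ 10 * dg G B₀ v
  cardA : A.card ≤ m
  large : 1000 / η ≤ (m : ℝ)

/- MODULE CO1 -/
private def CO1_alt : List V → List V → List V
  | [], ys => ys
  | x :: xs, ys => x :: CO1_alt ys xs
termination_by xs ys => xs.length + ys.length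
decreasing_by simp_wf; omega

private theorem CO1_perm : ∀ (n : ℕ) (xs ys : List V), xs.length + ys.length = n →
    (CO1_alt xs ys).Perm (xs ++ ys) := by
  intro n
  induction n with
  | zero =>
    intro xs ys h
    have h1 : xs = [] := List.eq_nil_of_length_eq_zero (by omega)
    have h2 : ys = [] := List.eq_nil_of_length_eq_zero (by omega)
    subst h1 h2
    simp [CO1_alt]
  | succ n ih =>
    intro xs ys h
    cases xs with
    | nil => simp [CO1_alt]
    | cons x xs =>
      rw [CO1_alt, List.cons_append]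
      rw [List.length_cons] at h
      exact ((ih ys xs (by omega)).trans List.perm_append_comm).cons x

private theorem CO1_chain (S : Finset V) : ∀ (zs as : List V), zs.length ≤ as.length →
    (∀ a ∈ as, a ∈ S) → ∀ s ∈ S, (s :: CO1_alt zs as).IsChain (fun u v => u ∈ S ∨ v ∈ S) := by
  intro zs
  induction zs with
  | nil =>
    intro as _ has
    rw [CO1_alt]
    induction as with
    | nil =>
      intro s _
      simp
    | cons a as ih =>
      intro s hs
      rw [List.isChain_cons_cons]
      exact ⟨Or.inl hs, ih (by simp) (fun b hb => has b (List.mem_cons_of_mem _ hb)) a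
        (has a List.mem_cons_self)⟩
  | cons z zs ih =>
    intro as hlen has s hs
    cases as with
    | nil => simp at hlen
    | cons a as =>
      rw [CO1_alt, CO1_alt, List.isChain_cons_cons, List.isChain_cons_cons]
      have ha := has a List.mem_cons_self
      refine ⟨Or.inl hs, Or.inr ha, ih as ?_ (fun b hb => has b (List.mem_cons_of_mem _ hb)) a ha⟩
      simpa using hlen

/-- ARRANGEMENT.  `A'` finite, `S ⊆ A'` the strong elements, `|A' ∖ S| + 2 ≤ |S|`, `p ≠ q` in `S`,
`2 ≤ i ≤ |A'|`: there is a list without repetition of exactly `i` elements of `A'`, from `p` to `q`, in which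
of any two consecutive elements at least one is strong.
PROOF. If `i ≤ |S|` take any `i - 2` elements of `S ∖ {p, q}` in any order between `p` and `q`.  If `i > |S|`
take all of `S ∖ {p, q} = {a_1, …, a_(|S|-2)}` and `c = i - |S| ≤ |A' ∖ S| ≤ |S| - 2` weak elements
`z_1, …, z_c`, in the order `p, z_1, a_1, z_2, a_2, …, z_c, a_c, a_(c+1), …, q`.  (By induction on `c`:
inserting a new weak element between two consecutive strong ones; there is such a place since
the list has `|S|` strong and at most `|S| - 2` weak elements and starts and ends with a strong one.) -/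
theorem arrange [DecidableEq V] (A' S : Finset V) (hS : S ⊆ A') (hc : (A' \ S).card + 2 ≤ S.card)
    (p q : V) (hp : p ∈ S) (hq : q ∈ S) (hpq : p ≠ q) (i : ℕ) (h2 : 2 ≤ i) (hi : i ≤ A'.card) :
    ∃ l : List V, l.Nodup ∧ l.length = i ∧ l.head? = some p ∧ l.getLast? = some q ∧
      (∀ v ∈ l, v ∈ A') ∧ l.IsChain (fun u v => u ∈ S ∨ v ∈ S) := by
  have hcardA : A'.card = (A' \ S).card + S.card := by
    rw [← Finset.card_sdiff_add_card_eq_card hS]
  have hpq2 : ((S.erase p).erase q).card + 2 = S.card := by
    have h1 : q ∈ S.erase p := Finset.mem_erase.2 ⟨hpq.symm, hq⟩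
    have h2 := Finset.card_erase_add_one h1
    have h3 := Finset.card_erase_add_one hp
    omega
  obtain ⟨Z, T, hZ, hT, hZT, hle⟩ : ∃ Z T : Finset V, Z ⊆ A' \ S ∧ T ⊆ (S.erase p).erase q ∧
      Z.card + T.card + 2 = i ∧ Z.card ≤ T.card := by
    by_cases hiS : i ≤ S.card
    · obtain ⟨T, hT, hTc⟩ := Finset.exists_subset_card_eq
        (show i - 2 ≤ ((S.erase p).erase q).card by omega)
      exact ⟨∅, T, Finset.empty_subset _, hT, by rw [Finset.card_empty]; omega, by simp⟩
    · obtain ⟨Z, hZ, hZc⟩ := Finset.exists_subset_card_eq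
        (show i - S.card ≤ (A' \ S).card by omega)
      exact ⟨Z, (S.erase p).erase q, hZ, Finset.Subset.refl _, by omega, by omega⟩
  have hTS : ∀ v ∈ T, v ∈ S ∧ v ≠ p ∧ v ≠ q := by
    intro v hv
    have := hT hv
    rw [Finset.mem_erase, Finset.mem_erase] at this
    exact ⟨this.2.2, this.2.1, this.1⟩
  have hZS : ∀ v ∈ Z, v ∈ A' ∧ v ∉ S := by
    intro v hv
    exact Finset.mem_sdiff.1 (hZ hv)
  set M := CO1_alt Z.toList T.toList with hM
  have hperm : M.Perm (Z.toList ++ T.toList) := CO1_perm _ _ _ rfl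
  have hMmem : ∀ v, v ∈ M ↔ v ∈ Z ∨ v ∈ T := by
    intro v
    rw [hperm.mem_iff, List.mem_append, Finset.mem_toList, Finset.mem_toList]
  have hMnd : M.Nodup := by
    rw [hperm.nodup_iff, List.nodup_append]
    refine ⟨Finset.nodup_toList _, Finset.nodup_toList _, ?_⟩
    intro a ha b hb hab
    rw [Finset.mem_toList] at ha hb
    subst hab
    exact (hZS a ha).2 (hTS a hb).1
  have hMlen : M.length = Z.card + T.card := by
    rw [hperm.length_eq, List.length_append, Finset.length_toList, Finset.length_toList]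
  have hpM : p ∉ M := by
    rw [hMmem]
    rintro (h | h)
    · exact (hZS p h).2 hp
    · exact (hTS p h).2.1 rfl
  have hqM : q ∉ M := by
    rw [hMmem]
    rintro (h | h)
    · exact (hZS q h).2 hq
    · exact (hTS q h).2.2 rfl
  have hchain := CO1_chain S Z.toList T.toList
    (by rw [Finset.length_toList, Finset.length_toList]; exact hle)
    (fun a ha => (hTS a (Finset.mem_toList.1 ha)).1) p hp
  refine ⟨(p :: M) ++ [q], ?_, ?_, ?_, ?_, ?_, ?_⟩
  · rw [List.nodup_append, List.nodup_cons]
    refine ⟨⟨hpM, hMnd⟩, List.nodup_singleton q, ?_⟩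
    intro a ha b hb hab
    rw [List.mem_singleton] at hb
    subst hb
    subst hab
    rcases List.mem_cons.1 ha with h | h
    · exact hpq h.symm
    · exact hqM h
  · rw [List.length_append, List.length_cons, hMlen, List.length_singleton]
    omega
  · simp
  · rw [List.getLast?_append_of_ne_nil _ (by simp)]
    simp
  · intro v hv
    rw [List.mem_append, List.mem_cons, List.mem_singleton] at hv
    rcases hv with (rfl | h) | rfl
    · exact hS hp
    · rcases (hMmem v).1 h with h | h
      · exact (hZS v h).1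
      · exact hS (hTS v h).1
    · exact hS hq
  · rw [List.isChain_append]
    refine ⟨hchain, List.isChain_singleton q, ?_⟩
    intro a _ b hb
    simp only [List.head?_cons, Option.mem_def, Option.some.injEq] at hb
    subst hb
    exact Or.inr hq

/- MODULE CO2 -/
private theorem CO2_head (xs ys : List V) (h : xs ≠ []) :
    (CO1_alt xs ys).head? = xs.head? := by
  cases xs with
  | nil => exact absurd rfl h
  | cons x xs => rw [CO1_alt]; simp

private theorem CO2_alt (G : SimpleGraph V) : ∀ (l ws : List V), l.length = ws.length + 1 →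
    (∀ (j : ℕ) (a b w : V), l[j]? = some a → l[j + 1]? = some b → ws[j]? = some w →
      G.Adj a w ∧ G.Adj w b) →
    (CO1_alt l ws).IsChain G.Adj ∧ (CO1_alt l ws).getLast? = l.getLast? := by
  intro l
  induction l with
  | nil =>
    intro ws h
    simp at h
  | cons a l ih =>
    intro ws hlen hadj
    cases ws with
    | nil =>
      have hl : l = [] := List.eq_nil_of_length_eq_zero (by simpa using hlen)
      subst hl
      simp [CO1_alt]
    | cons w ws =>
      cases l with
      | nil => simp at hlen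
      | cons b l =>
        have hlen' : (b :: l).length = ws.length + 1 := by
          simpa using hlen
        obtain ⟨h1, h2⟩ := ih ws hlen' (fun j a' b' w' ha hb hw => by
          refine hadj (j + 1) a' b' w' ?_ ?_ ?_
          · simpa using ha
          · simpa using hb
          · simpa using hw)
        obtain ⟨h3, h4⟩ := hadj 0 a b w (by simp) (by simp) (by simp)
        have hne : CO1_alt (b :: l) ws ≠ [] := by
          rw [CO1_alt]
          simp
        have hhd : (CO1_alt (b :: l) ws).head? = some b := by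
          rw [CO2_head _ _ (by simp)]
          simp
        constructor
        · rw [CO1_alt, CO1_alt]
          rw [List.isChain_cons_cons]
          refine ⟨h3, ?_⟩
          rw [List.isChain_cons]
          refine ⟨?_, h1⟩
          intro y hy
          rw [hhd] at hy
          simp only [Option.mem_def, Option.some.injEq] at hy
          subst hy
          exact h4
        · rw [CO1_alt, CO1_alt]
          obtain ⟨c, t, hct⟩ := List.exists_cons_of_ne_nil hne
          rw [hct] at h2 ⊢
          rw [List.getLast?_cons_cons, List.getLast?_cons_cons, h2, List.getLast?_cons_cons]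

/-- WEAVING.  `l` a list without repetition, disjoint from `B`; consecutive elements `u, v` of `l` have at
least `τ` common neighbours in `B`, and at least `τ'` if both are in `S`; at most `c` elements of `l` are not
in `S`; `2 c < τ`, `|l| ≤ τ'`.  Then one can insert distinct elements of `B` between consecutive elements
of `l` to get a path of `G`.
PROOF. First choose the connecting elements for the at most `2 c` consecutive pairs that contain an
element outside `S` (greedily, all different), then for the others (at most `|l| - 1` elements are used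
at any time).  Formally: the positions `j < |l| - 1` with their sets
`N j = N(l_j) ∩ N(l_(j+1)) ∩ B` have a system of distinct representatives: Hall's theorem
(`Finset.all_card_le_biUnion_card_iff_exists_injective`): for a set `J` of positions, if it contains a
strong position then the union has at least `τ' ≥ |l| - 1 ≥ |J|` elements, otherwise `|J| ≤ 2 c < τ`.
The path is `l_0, w_0, l_1, w_1, …`; build the list by induction. -/
theorem weave [DecidableEq V] (G : SimpleGraph V) (B S : Finset V) (l : List V) (hl : l.Nodup)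
    (hne : l ≠ []) (hlB : ∀ v ∈ l, v ∉ B) (τ τ' c : ℕ)
    (h1 : l.IsChain (fun u v => τ ≤ codeg G B u v))
    (h2 : l.IsChain (fun u v => u ∈ S → v ∈ S → τ' ≤ codeg G B u v))
    (hc : (l.toFinset \ S).card ≤ c) (hcτ : 2 * c < τ) (hτ' : l.length ≤ τ') (x y : V)
    (hx : l.head? = some x) (hy : l.getLast? = some y) :
    ∃ L, PathL G x y L ∧ L.length = 2 * l.length - 1 ∧ ∀ v ∈ L, v ∈ l ∨ v ∈ B := by
  classical
  have hlpos : 0 < l.length := List.length_pos_of_ne_nil hne
  set n := l.length - 1 with hn
  have hgetS : ∀ j (hj : j < n), j + 1 < l.length := fun j hj => by omega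
  let N : Fin n → Finset V := fun j => B.filter (fun w =>
    G.Adj (l[j.val]'(by have := j.isLt; omega)) w ∧
      G.Adj (l[j.val + 1]'(hgetS j.val j.isLt)) w)
  have hNcard : ∀ j : Fin n, (N j).card = codeg G B (l[j.val]'(by have := j.isLt; omega))
      (l[j.val + 1]'(hgetS j.val j.isLt)) := by
    intro j
    unfold codeg
    congr 1
  have h1' : ∀ j : Fin n, τ ≤ (N j).card := by
    intro j
    rw [hNcard]
    exact List.isChain_iff_getElem.1 h1 j.val (hgetS j.val j.isLt)
  have h2' : ∀ j : Fin n, (l[j.val]'(by have := j.isLt; omega)) ∈ S →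
      (l[j.val + 1]'(hgetS j.val j.isLt)) ∈ S → τ' ≤ (N j).card := by
    intro j
    rw [hNcard]
    exact List.isChain_iff_getElem.1 h2 j.val (hgetS j.val j.isLt)
  have hall : ∀ J : Finset (Fin n), J.card ≤ (J.biUnion N).card := by
    intro J
    by_cases hstrong : ∃ j ∈ J, (l[j.val]'(by have := j.isLt; omega)) ∈ S ∧
      (l[j.val + 1]'(hgetS j.val j.isLt)) ∈ S
    · obtain ⟨j, hj, hj1, hj2⟩ := hstrong
      have e1 : J.card ≤ n := by
        have := Finset.card_le_univ J
        rwa [Fintype.card_fin] at this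
      have e2 := h2' j hj1 hj2
      have e3 : (N j).card ≤ (J.biUnion N).card :=
        Finset.card_le_card (Finset.subset_biUnion_of_mem N hj)
      omega
    · rcases J.eq_empty_or_nonempty with rfl | ⟨j0, hj0⟩
      · simp
      have e3 : (N j0).card ≤ (J.biUnion N).card :=
        Finset.card_le_card (Finset.subset_biUnion_of_mem N hj0)
      have e4 := h1' j0
      -- the weak positions
      have hJ : J ⊆ (J.filter (fun j => (l[j.val]'(by have := j.isLt; omega)) ∉ S)) ∪
          (J.filter (fun j => (l[j.val + 1]'(hgetS j.val j.isLt)) ∉ S)) := by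
        intro j hj
        rw [Finset.mem_union, Finset.mem_filter, Finset.mem_filter]
        by_contra hcon
        push Not at hcon
        exact hstrong ⟨j, hj, hcon.1 hj, hcon.2 hj⟩
      have i1 : (J.filter (fun j => (l[j.val]'(by have := j.isLt; omega)) ∉ S)).card ≤
          (l.toFinset \ S).card := by
        refine Finset.card_le_card_of_injOn (fun j => l[j.val]'(by have := j.isLt; omega)) ?_ ?_
        · intro j hj
          have hj' := (Finset.mem_filter.1 hj).2
          exact Finset.mem_sdiff.2 ⟨List.mem_toFinset.2 (List.getElem_mem _), hj'⟩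
        · intro j _ j' _ h
          have := (List.Nodup.getElem_inj_iff hl).1 h
          exact Fin.ext this
      have i2 : (J.filter (fun j => (l[j.val + 1]'(hgetS j.val j.isLt)) ∉ S)).card ≤
          (l.toFinset \ S).card := by
        refine Finset.card_le_card_of_injOn (fun j => l[j.val + 1]'(hgetS j.val j.isLt)) ?_ ?_
        · intro j hj
          have hj' := (Finset.mem_filter.1 hj).2
          exact Finset.mem_sdiff.2 ⟨List.mem_toFinset.2 (List.getElem_mem _), hj'⟩
        · intro j _ j' _ h
          have := (List.Nodup.getElem_inj_iff hl).1 h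
          exact Fin.ext (by omega)
      have i3 := (Finset.card_le_card hJ).trans (Finset.card_union_le _ _)
      omega
  obtain ⟨f, hf, hfN⟩ := (Finset.all_card_le_biUnion_card_iff_exists_injective N).1 hall
  have hfB : ∀ j, f j ∈ B := fun j => (Finset.mem_filter.1 (hfN j)).1
  set ws := List.ofFn f with hws
  have hwslen : ws.length = n := by rw [hws, List.length_ofFn]
  have hlen : l.length = ws.length + 1 := by omega
  have hadj : ∀ (j : ℕ) (a b w : V), l[j]? = some a → l[j + 1]? = some b → ws[j]? = some w →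
      G.Adj a w ∧ G.Adj w b := by
    intro j a b w ha hb hw
    obtain ⟨hj1, ha'⟩ := List.getElem?_eq_some_iff.1 ha
    obtain ⟨hj2, hb'⟩ := List.getElem?_eq_some_iff.1 hb
    obtain ⟨hj3, hw'⟩ := List.getElem?_eq_some_iff.1 hw
    have hjn : j < n := by omega
    have h3 := (Finset.mem_filter.1 (hfN ⟨j, hjn⟩)).2
    have hw'' : f ⟨j, hjn⟩ = w := by
      rw [← hw']
      simp [hws]
    rw [hw''] at h3
    simp only at h3
    rw [ha', hb'] at h3
    exact ⟨h3.1, h3.2.symm⟩
  obtain ⟨hc1, hc2⟩ := CO2_alt G l ws hlen hadj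
  have hperm : (CO1_alt l ws).Perm (l ++ ws) := CO1_perm _ _ _ rfl
  refine ⟨CO1_alt l ws, ⟨hc1, ?_, ?_, ?_⟩, ?_, ?_⟩
  · rw [hperm.nodup_iff, List.nodup_append]
    refine ⟨hl, List.nodup_ofFn.2 hf, ?_⟩
    intro a ha b hb hab
    subst hab
    rw [hws, List.mem_ofFn] at hb
    obtain ⟨j, hj⟩ := hb
    exact hlB a ha (hj ▸ hfB j)
  · rw [CO2_head _ _ hne, hx]
  · rw [hc2, hy]
  · rw [hperm.length_eq, List.length_append]
    omega
  · intro v hv
    rw [hperm.mem_iff, List.mem_append] at hv
    rcases hv with h | h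
    · exact Or.inl h
    · right
      rw [hws, List.mem_ofFn] at h
      obtain ⟨j, hj⟩ := h
      exact hj ▸ hfB j

/- MODULE CO3 -/
private theorem CO3_sdiff [DecidableEq V] (G : SimpleGraph V) (S F : Finset V) (v : V) :
    dg G S v ≤ dg G (S \ F) v + F.card := by
  classical
  unfold dg
  calc (S.filter (fun w => G.Adj v w)).card
      ≤ (((S \ F).filter (fun w => G.Adj v w)) ∪ F).card := by
        refine Finset.card_le_card fun w hw => ?_
        rw [Finset.mem_filter] at hw
        rw [Finset.mem_union, Finset.mem_filter, Finset.mem_sdiff]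
        by_cases h : w ∈ F
        · exact Or.inr h
        · exact Or.inl ⟨⟨hw.1, h⟩, hw.2⟩
    _ ≤ _ := Finset.card_union_le _ _

private theorem CO3_codeg [DecidableEq V] (G : SimpleGraph V) (S F : Finset V) (u v : V) :
    dg G S u + dg G S v ≤ codeg G (S \ F) u v + F.card + S.card := by
  classical
  unfold dg codeg
  have h1 := Finset.card_union_add_card_inter (S.filter (fun w => G.Adj u w))
    (S.filter (fun w => G.Adj v w))
  have h2 : (S.filter (fun w => G.Adj u w) ∪ S.filter (fun w => G.Adj v w)).card ≤ S.card :=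
    Finset.card_le_card (Finset.union_subset (Finset.filter_subset _ _) (Finset.filter_subset _ _))
  have h3 : (S.filter (fun w => G.Adj u w) ∩ S.filter (fun w => G.Adj v w)).card ≤
      ((S \ F).filter (fun w => G.Adj u w ∧ G.Adj v w)).card + F.card := by
    refine le_trans (Finset.card_le_card fun w hw => ?_) (Finset.card_union_le _ _)
    rw [Finset.mem_inter, Finset.mem_filter, Finset.mem_filter] at hw
    rw [Finset.mem_union, Finset.mem_filter, Finset.mem_sdiff]
    by_cases h : w ∈ F
    · exact Or.inr h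
    · exact Or.inl ⟨⟨hw.1.1, h⟩, hw.1.2, hw.2.2⟩
  omega

/-- Two different neighbours. -/
private theorem CO3_two [DecidableEq V] (G : SimpleGraph V) (S : Finset V) (x y : V)
    (hx : 1 ≤ dg G S x) (hy : 2 ≤ dg G S y) : ∃ p ∈ S, ∃ q ∈ S, G.Adj x p ∧ G.Adj y q ∧ p ≠ q := by
  classical
  unfold dg at hx hy
  obtain ⟨p, hp⟩ := Finset.card_pos.1 hx
  have h2 : 0 < ((S.filter (fun w => G.Adj y w)).erase p).card := by
    have := Finset.pred_card_le_card_erase (s := S.filter (fun w => G.Adj y w)) (a := p)
    omega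
  obtain ⟨q, hq⟩ := Finset.card_pos.1 h2
  rw [Finset.mem_erase, Finset.mem_filter] at hq
  rw [Finset.mem_filter] at hp
  exact ⟨p, hp.1, q, hq.2.1, hp.2, hq.2.2, hq.1.symm⟩

private theorem CO3_strong [DecidableEq V] {G : SimpleGraph V} {m : ℕ} {η₀ η : ℝ}
    {A₀ A B₀ : Finset V}
    (h : Big G m η₀ η A₀ A B₀) (F : Finset V) (hF : (F.card : ℝ) ≤ η₀ * m / 100) (x y : V)
    (hxy : x ≠ y) (hx : Typ G A₀ x) (hy : Typ G A₀ y) (hxA : x ∉ A) (hyA : y ∉ A) (i : ℕ)
    (h2 : 2 ≤ i) (hi : i ≤ (A \ F).card) :
    ∃ l, PathL G x y l ∧ l.length = 2 * i + 1 ∧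
      (∀ v ∈ l, v = x ∨ v = y ∨ ((v ∈ A ∨ v ∈ B₀) ∧ v ∉ F)) ∧ (l.toFinset ∩ A).card ≤ i := by
  obtain ⟨hcore, hη₀, hη₀1, hη, hηle, hcardB, hsub, hdisj, hmany, hcardA, hlarge⟩ := h
  obtain ⟨hdisj₀, hA1, hA2, hdA, hdB⟩ := hcore
  -- numerical facts
  have hm7 : (10000000 : ℝ) ≤ m := by
    have h1 : (1000 : ℝ) / η ≥ 10000000 := by
      rw [ge_iff_le, le_div_iff₀ hη]
      nlinarith
    linarith
  have hm0 : (0 : ℝ) ≤ m := by linarith
  have hηm : 1000 ≤ η * m := by
    rw [div_le_iff₀ hη] at hlarge
    linarith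
  have hηη : η * m ≤ η₀ * m / 10000 := by
    have := mul_le_mul_of_nonneg_right hηle hm0
    linarith
  have hη₀m : η₀ * m ≤ m := by
    have := mul_le_mul_of_nonneg_right hη₀1 hm0
    linarith
  have hA1' : (m : ℝ) - η * m ≤ A₀.card := by linarith
  have hAr : (A.card : ℝ) ≤ m := by exact_mod_cast hcardA
  set S := A₀ \ F with hS
  set A' := A \ F with hA'
  have hSA' : S ⊆ A' := Finset.sdiff_subset_sdiff hsub (Finset.Subset.refl _)
  have hweak : ((A' \ S).card : ℝ) ≤ η * m := by
    have h1 : A' \ S ⊆ A \ A₀ := by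
      intro v hv
      rw [hA', hS, Finset.mem_sdiff, Finset.mem_sdiff, Finset.mem_sdiff] at hv
      rw [Finset.mem_sdiff]
      exact ⟨hv.1.1, fun h' => hv.2 ⟨h', hv.1.2⟩⟩
    have h3 : (A \ A₀).card + A₀.card = A.card := Finset.card_sdiff_add_card_eq_card hsub
    have h4 : ((A \ A₀).card : ℝ) + A₀.card = A.card := by exact_mod_cast h3
    have h5 : ((A' \ S).card : ℝ) ≤ (A \ A₀).card := by exact_mod_cast Finset.card_le_card h1
    linarith
  have hScard : (m : ℝ) - η * m - η₀ * m / 100 ≤ S.card := by
    have h1 : A₀.card ≤ S.card + F.card := by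
      have := Finset.le_card_sdiff F A₀
      rw [← hS] at this
      omega
    have h3 : (A₀.card : ℝ) ≤ S.card + F.card := by exact_mod_cast h1
    linarith
  have hcS : (A' \ S).card + 2 ≤ S.card := by
    have : ((A' \ S).card : ℝ) + 2 ≤ S.card := by linarith
    exact_mod_cast this
  -- the ends
  have hdx : ∀ z, Typ G A₀ z → 2 ≤ dg G S z := by
    intro z hz
    have h1 := CO3_sdiff G A₀ F z
    have h3 : (dg G A₀ z : ℝ) ≤ dg G S z + F.card := by
      rw [hS]
      exact_mod_cast h1
    have h4 : 3 * (A₀.card : ℝ) ≤ 4 * dg G A₀ z := by exact_mod_cast hz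
    have h5 : (2 : ℝ) ≤ dg G S z := by linarith
    exact_mod_cast h5
  obtain ⟨p, hp, q, hq, hxp, hyq, hpq⟩ := CO3_two G S x y (by
    have := hdx x hx
    omega) (hdx y hy)
  obtain ⟨l, hlnd, hllen, hlh, hll, hlA, hlc⟩ := arrange A' S hSA' hcS p q hp hq hpq i h2 hi
  have hlne : l ≠ [] := by
    rintro rfl
    simp at hlh
  -- the weaving
  set F' := F ∪ {x, y} with hF'
  have hF'card : (F'.card : ℝ) ≤ η₀ * m / 100 + 2 := by
    have h1 : F'.card ≤ F.card + 2 :=
      (Finset.card_union_le _ _).trans (Nat.add_le_add_left Finset.card_le_two _)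
    have h3 : (F'.card : ℝ) ≤ F.card + 2 := by exact_mod_cast h1
    linarith
  have hB : (m : ℝ) + η₀ * m ≤ B₀.card := by linarith
  have hstrong : ∀ u ∈ A₀, ∀ v ∈ A,
      2 * (A' \ S).card + 1 ≤ codeg G (B₀ \ F') u v := by
    intro u hu v hv
    have h1 := CO3_codeg G B₀ F' u v
    have h3 : (dg G B₀ u : ℝ) + dg G B₀ v ≤ codeg G (B₀ \ F') u v + F'.card + B₀.card := by
      exact_mod_cast h1
    have h4 := hdA u hu
    have h5 : (B₀.card : ℝ) ≤ 10 * dg G B₀ v := by exact_mod_cast hmany v hv
    have h6 : η * (B₀.card : ℝ) ≤ (B₀.card : ℝ) / 10000 := by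
      have : (0 : ℝ) ≤ B₀.card := Nat.cast_nonneg _
      nlinarith
    have h7 : 2 * ((A' \ S).card : ℝ) + 1 ≤ codeg G (B₀ \ F') u v := by linarith
    exact_mod_cast h7
  have hcomm : ∀ u v, codeg G (B₀ \ F') u v = codeg G (B₀ \ F') v u := by
    intro u v
    unfold codeg
    congr 1
    ext w
    simp only [Finset.mem_filter]
    tauto
  have hboth : ∀ u ∈ A₀, ∀ v ∈ A₀, i ≤ codeg G (B₀ \ F') u v := by
    intro u hu v hv
    have h1 := CO3_codeg G B₀ F' u v
    have h3 : (dg G B₀ u : ℝ) + dg G B₀ v ≤ codeg G (B₀ \ F') u v + F'.card + B₀.card := by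
      exact_mod_cast h1
    have h4 := hdA u hu
    have h5 := hdA v hv
    have h6 : (i : ℝ) ≤ m := by
      have h61 : i ≤ A.card := hi.trans (Finset.card_le_card Finset.sdiff_subset)
      have h62 : (i : ℝ) ≤ A.card := by exact_mod_cast h61
      linarith
    have h7 : (m : ℝ) ≤ codeg G (B₀ \ F') u v := by
      have h8 : (1 - 2 * η) * ((m : ℝ) + η₀ * m) ≤ (1 - 2 * η) * B₀.card := by
        refine mul_le_mul_of_nonneg_left hB ?_
        linarith
      have h9 : η * (η₀ * m) ≤ η * m := mul_le_mul_of_nonneg_left hη₀m hη.le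
      linarith
    have h8 : (i : ℝ) ≤ codeg G (B₀ \ F') u v := h6.trans h7
    exact_mod_cast h8
  have hlmem : ∀ v ∈ l, v ∈ A ∧ v ∉ F := fun v hv => by
    have := hlA v hv
    rw [hA', Finset.mem_sdiff] at this
    exact this
  have hchain1 : l.IsChain (fun u v => 2 * (A' \ S).card + 1 ≤ codeg G (B₀ \ F') u v) := by
    rw [List.isChain_iff_getElem] at hlc ⊢
    intro j hj
    have hu := (hlmem _ (List.getElem_mem (l := l) (n := j) (by omega))).1
    have hv := (hlmem _ (List.getElem_mem (l := l) (n := j + 1) hj)).1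
    rcases hlc j hj with h' | h'
    · exact hstrong _ (Finset.mem_sdiff.1 h').1 _ hv
    · rw [hcomm]
      exact hstrong _ (Finset.mem_sdiff.1 h').1 _ hu
  have hchain2 : l.IsChain (fun u v => u ∈ S → v ∈ S → i ≤ codeg G (B₀ \ F') u v) := by
    rw [List.isChain_iff_getElem]
    intro j hj hu hv
    exact hboth _ (Finset.mem_sdiff.1 hu).1 _ (Finset.mem_sdiff.1 hv).1
  obtain ⟨L, hL, hLlen, hLmem⟩ := weave G (B₀ \ F') S l hlnd hlne (fun v hv hvB =>
      Finset.disjoint_left.1 hdisj (hlmem v hv).1 (Finset.mem_sdiff.1 hvB).1)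
    (2 * (A' \ S).card + 1) i (A' \ S).card hchain1 hchain2
    (Finset.card_le_card (Finset.sdiff_subset_sdiff (fun v hv => hlA v (List.mem_toFinset.1 hv))
      (Finset.Subset.refl _))) (by omega) (by omega) p q hlh hll
  have hxF' : x ∈ F' := by rw [hF']; simp
  have hyF' : y ∈ F' := by rw [hF']; simp
  have hxL : x ∉ L := by
    intro hx'
    rcases hLmem x hx' with h' | h'
    · exact hxA (hlmem x h').1
    · exact (Finset.mem_sdiff.1 h').2 hxF'
  have hyL : y ∉ L := by
    intro hy'
    rcases hLmem y hy' with h' | h'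
    · exact hyA (hlmem y h').1
    · exact (Finset.mem_sdiff.1 h').2 hyF'
  refine ⟨(x :: L) ++ [y], ⟨?_, ?_, ?_, ?_⟩, ?_, ?_, ?_⟩
  · rw [List.isChain_append]
    refine ⟨?_, List.isChain_singleton y, ?_⟩
    · rw [List.isChain_cons]
      refine ⟨?_, hL.1⟩
      intro z hz
      rw [hL.2.2.1] at hz
      simp only [Option.mem_def, Option.some.injEq] at hz
      subst hz
      exact hxp
    · intro a ha b hb
      simp only [List.head?_cons, Option.mem_def, Option.some.injEq] at hb
      subst hb
      obtain ⟨c, t, hct⟩ := List.exists_cons_of_ne_nil hL.ne_nil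
      have ha' : L.getLast? = some a := by
        rw [hct] at ha ⊢
        rw [List.getLast?_cons_cons] at ha
        exact ha
      rw [hL.2.2.2] at ha'
      simp only [Option.some.injEq] at ha'
      subst ha'
      exact hyq.symm
  · rw [List.nodup_append, List.nodup_cons]
    refine ⟨⟨hxL, hL.2.1⟩, List.nodup_singleton y, ?_⟩
    intro a ha b hb hab
    rw [List.mem_singleton] at hb
    subst hb
    subst hab
    rcases List.mem_cons.1 ha with h' | h'
    · exact hxy h'.symm
    · exact hyL h'
  · simp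
  · rw [List.getLast?_append_of_ne_nil _ (by simp)]
    simp
  · rw [List.length_append, List.length_cons, hLlen, List.length_singleton]
    omega
  · intro v hv
    rw [List.mem_append, List.mem_cons, List.mem_singleton] at hv
    rcases hv with (rfl | hv) | rfl
    · exact Or.inl rfl
    · refine Or.inr (Or.inr ?_)
      rcases hLmem v hv with h' | h'
      · exact ⟨Or.inl (hlmem v h').1, (hlmem v h').2⟩
      · have h'' := Finset.mem_sdiff.1 h'
        exact ⟨Or.inr h''.1, fun hf => h''.2 (by rw [hF']; exact Finset.mem_union_left _ hf)⟩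
    · exact Or.inr (Or.inl rfl)
  · have hsubl : ((x :: L) ++ [y]).toFinset ∩ A ⊆ l.toFinset := by
      intro v hv
      rw [Finset.mem_inter, List.mem_toFinset, List.mem_append, List.mem_cons,
        List.mem_singleton] at hv
      obtain ⟨hv, hvA⟩ := hv
      rw [List.mem_toFinset]
      rcases hv with (rfl | hv) | rfl
      · exact absurd hvA hxA
      · rcases hLmem v hv with h' | h'
        · exact h'
        · exact absurd (Finset.mem_sdiff.1 h').1 (Finset.disjoint_left.1 hdisj hvA)
      · exact absurd hvA hyA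
    refine (Finset.card_le_card hsubl).trans ?_
    rw [← hllen]
    exact List.toFinset_card_le l

/-- PATHS THROUGH A CORE.  `x ≠ y` typical vertices outside `A`, `F` a small set of forbidden vertices;
for every `i` with `2 ≤ i ≤ |A ∖ F|` there is a path from `x` to `y` with exactly `2 i` edges
(`i` vertices of `A`, `i - 1` of `B₀`), whose inner vertices are in `(A ∪ B₀) ∖ F`.
PROOF. `A' = A ∖ F`, `S = A₀ ∖ F`.  `|A ∖ A₀| ≤ η m` (`|A| ≤ m`, `|A₀| ≥ (1-η) m`), `|S| ≥ (1-η) m - |F| ≥ m/2`.
Choose `p ∈ N(x) ∩ S`, `q ∈ N(y) ∩ S`, `p ≠ q` (each set has at least `(3/4)|A₀| - |F| ≥ 2` elements).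
`arrange`: list `l` from `p` to `q` with `i` elements.  `weave` with `B = B₀ ∖ F ∖ {x, y}`: two elements
`u, v` of `l`, one of them in `A₀`: common neighbours in `B₀` at least
`|B₀|/10 - η |B₀| ≥ |B₀|/20 ≥ m/20`, minus `|F| + 2 ≤ η₀ m/100 + 2`: `τ = ⌊m/30⌋ > 2 c` with
`c = ⌊η m⌋`.  Both in `A₀`: at least `(1 - 2 η)|B₀| - |F| - 2 ≥ (1 - 2η)(1 + η₀) m - η₀ m/100 - 2 ≥ m = τ' ≥ i`.
Put `x` in front and `y` at the end. -/
theorem core_path [DecidableEq V] {G : SimpleGraph V} {m : ℕ} {η₀ η : ℝ} {A₀ A B₀ : Finset V}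
    (h : Big G m η₀ η A₀ A B₀) (F : Finset V) (hF : (F.card : ℝ) ≤ η₀ * m / 100) (x y : V)
    (hxy : x ≠ y) (hx : Typ G A₀ x) (hy : Typ G A₀ y) (hxA : x ∉ A) (hyA : y ∉ A) (i : ℕ)
    (h2 : 2 ≤ i) (hi : i ≤ (A \ F).card) :
    ∃ l, PathL G x y l ∧ l.length = 2 * i + 1 ∧
      ∀ v ∈ l, v = x ∨ v = y ∨ ((v ∈ A ∨ v ∈ B₀) ∧ v ∉ F) := by
  obtain ⟨l, h1, h3, h4, -⟩ := CO3_strong h F hF x y hxy hx hy hxA hyA i h2 hi
  exact ⟨l, h1, h3, h4⟩

/- MODULE CO4 -/
/-- The connecting paths, one after the other. -/
private theorem CO4_conn [DecidableEq V] {G : SimpleGraph V} {m : ℕ} {η₀ η : ℝ}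
    {A₀ A B₀ : Finset V}
    (h : Big G m η₀ η A₀ A B₀) (s : ℕ) (y x' : ℕ → V)
    (hx : ∀ j < s, Typ G A₀ (x' (j + 1)) ∧ x' (j + 1) ∉ A)
    (hy : ∀ j < s, Typ G A₀ (y j) ∧ y j ∉ A) (hne : ∀ j < s, y j ≠ x' (j + 1)) (U : Finset V)
    (hxU : ∀ j < s, x' (j + 1) ∈ U) (hyU : ∀ j < s, y j ∈ U)
    (hUc : (U.card : ℝ) + 4 * s ≤ η₀ * m / 100) (i : ℕ)
    (h2 : 2 * s ≤ i) (hi : i + (A ∩ U).card ≤ A.card) (t : ℕ) : t ≤ s →
    ∃ R : ℕ → List V, ∀ j < t, PathL G (y j) (x' (j + 1)) (R j) ∧
      (R j).length = 2 * (if j + 1 < s then 2 else i - 2 * (s - 1)) + 1 ∧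
      (∀ v ∈ R j, v = y j ∨ v = x' (j + 1) ∨ v ∉ U) ∧
      ((R j).toFinset ∩ A).card ≤ (if j + 1 < s then 2 else i - 2 * (s - 1)) ∧
      ∀ j' < j, ∀ v ∈ R j, v ∈ R j' → v ∈ U := by
  induction t with
  | zero =>
    intro _
    exact ⟨fun _ => [], fun j hj => absurd hj (Nat.not_lt_zero j)⟩
  | succ t ih =>
    intro hts
    obtain ⟨R, hR⟩ := ih (by omega)
    set I := (Finset.range t).biUnion (fun j => (R j).toFinset \ U) with hI
    have hIcard : I.card ≤ 3 * t := by
      rw [hI]
      refine Finset.card_biUnion_le.trans ?_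
      calc ∑ j ∈ Finset.range t, ((R j).toFinset \ U).card ≤ ∑ _j ∈ Finset.range t, 3 := by
            refine Finset.sum_le_sum fun j hj => ?_
            have hj' : j < t := Finset.mem_range.1 hj
            obtain ⟨hp, hlen, -, -, -⟩ := hR j hj'
            have hjs : j + 1 < s := by omega
            rw [if_pos hjs] at hlen
            have h5 : (R j).toFinset.card = 5 := by
              rw [List.toFinset_card_of_nodup hp.2.1, hlen]
            have hsub : (R j).toFinset \ U ⊆ (R j).toFinset \ {y j, x' (j + 1)} := by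
              refine Finset.sdiff_subset_sdiff (Finset.Subset.refl _) ?_
              intro v hv
              rw [Finset.mem_insert, Finset.mem_singleton] at hv
              rcases hv with rfl | rfl
              · exact hyU j (by omega)
              · exact hxU j (by omega)
            have hsub2 : ({y j, x' (j + 1)} : Finset V) ⊆ (R j).toFinset := by
              intro v hv
              rw [Finset.mem_insert, Finset.mem_singleton] at hv
              rw [List.mem_toFinset]
              rcases hv with rfl | rfl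
              · exact hp.left_mem
              · exact hp.right_mem
            have h6 := Finset.card_sdiff_add_card_eq_card hsub2
            rw [Finset.card_pair (hne j (by omega)), h5] at h6
            have h7 := Finset.card_le_card hsub
            omega
        _ = 3 * t := by rw [Finset.sum_const, Finset.card_range, smul_eq_mul, mul_comm]
    have hIA : (I ∩ A).card ≤ 2 * t := by
      have hsub : I ∩ A ⊆ (Finset.range t).biUnion (fun j => (R j).toFinset ∩ A) := by
        intro v hv
        rw [Finset.mem_inter, hI, Finset.mem_biUnion] at hv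
        obtain ⟨⟨j, hj, hv⟩, hvA⟩ := hv
        rw [Finset.mem_biUnion]
        exact ⟨j, hj, Finset.mem_inter.2 ⟨(Finset.mem_sdiff.1 hv).1, hvA⟩⟩
      refine (Finset.card_le_card hsub).trans (Finset.card_biUnion_le.trans ?_)
      calc ∑ j ∈ Finset.range t, ((R j).toFinset ∩ A).card ≤ ∑ _j ∈ Finset.range t, 2 := by
            refine Finset.sum_le_sum fun j hj => ?_
            have hj' : j < t := Finset.mem_range.1 hj
            obtain ⟨-, -, -, hA, -⟩ := hR j hj'
            have hjs : j + 1 < s := by omega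
            rw [if_pos hjs] at hA
            exact hA
        _ = 2 * t := by rw [Finset.sum_const, Finset.card_range, smul_eq_mul, mul_comm]
    have hFc : ((U ∪ I).card : ℝ) ≤ η₀ * m / 100 := by
      have h1 : (U ∪ I).card ≤ U.card + 4 * s := by
        have := Finset.card_union_le U I
        omega
      have h3 : ((U ∪ I).card : ℝ) ≤ U.card + 4 * s := by exact_mod_cast h1
      linarith
    have hAF : A.card ≤ (A \ (U ∪ I)).card + (A ∩ U).card + 2 * t := by
      have h1 : A ⊆ (A \ (U ∪ I)) ∪ (A ∩ U) ∪ (I ∩ A) := by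
        intro v hv
        rw [Finset.mem_union, Finset.mem_union, Finset.mem_sdiff, Finset.mem_union,
          Finset.mem_inter, Finset.mem_inter]
        tauto
      have h3 := Finset.card_le_card h1
      have h4 := Finset.card_union_le ((A \ (U ∪ I)) ∪ (A ∩ U)) (I ∩ A)
      have h5 := Finset.card_union_le (A \ (U ∪ I)) (A ∩ U)
      omega
    have hex := CO3_strong h (U ∪ I) hFc (y t) (x' (t + 1)) (hne t (by omega))
      (hy t (by omega)).1 (hx t (by omega)).1 (hy t (by omega)).2 (hx t (by omega)).2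
      (if t + 1 < s then 2 else i - 2 * (s - 1))
      (by split_ifs <;> omega) (by split_ifs <;> omega)
    obtain ⟨L, hL1, hL2, hL3, hL4⟩ := hex
    refine ⟨fun j => if j = t then L else R j, fun j hj => ?_⟩
    by_cases hjt : j = t
    · subst hjt
      simp only
      refine ⟨hL1, hL2, ?_, hL4, ?_⟩
      · intro v hv
        rcases hL3 v hv with h' | h' | h'
        · exact Or.inl h'
        · exact Or.inr (Or.inl h')
        · exact Or.inr (Or.inr (fun hu => h'.2 (Finset.mem_union_left _ hu)))
      · intro j' hj' v hv hv'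
        rw [if_neg (by omega)] at hv'
        rcases hL3 v hv with h' | h' | h'
        · rw [h']
          exact hyU j (by omega)
        · rw [h']
          exact hxU j (by omega)
        · by_contra hvU
          apply h'.2
          refine Finset.mem_union_right _ ?_
          rw [hI, Finset.mem_biUnion]
          exact ⟨j', Finset.mem_range.2 hj', Finset.mem_sdiff.2
            ⟨List.mem_toFinset.2 hv', hvU⟩⟩
    · have hjt' : j < t := by omega
      obtain ⟨r1, r2, r3, r4, r5⟩ := hR j hjt'
      simp only [if_neg hjt]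
      refine ⟨r1, r2, r3, r4, ?_⟩
      intro j' hj' v hv hv'
      rw [if_neg (by omega)] at hv'
      exact r5 j' hj' v hv hv'

private theorem CO4_sum (s : ℕ) (a b : ℕ → ℕ) :
    ∑ n ∈ Finset.range (2 * s), (if n % 2 = 0 then a (n / 2) else b (n / 2)) =
      ∑ j ∈ Finset.range s, a j + ∑ j ∈ Finset.range s, b j := by
  induction s with
  | zero => simp
  | succ s ih =>
    have e : 2 * (s + 1) = 2 * s + 1 + 1 := by ring
    rw [e, Finset.sum_range_succ, Finset.sum_range_succ, ih, Finset.sum_range_succ,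
      Finset.sum_range_succ]
    have e1 : (2 * s) % 2 = 0 := by omega
    have e2 : (2 * s) / 2 = s := by omega
    have e3 : (2 * s + 1) % 2 ≠ 0 := by omega
    have e4 : (2 * s + 1) / 2 = s := by omega
    rw [if_pos e1, if_neg e3, e2, e4]
    ring

/-- CYCLES THROUGH SEVERAL EARS.  `Q 0, …, Q (s-1)` pairwise disjoint paths with at least two vertices,
`Q j` from `x j` to `y j`, the ends typical and outside `A`; `U` the set of all their vertices,
`|U| + 4 s ≤ η₀ m / 100`; for every `i` with `2 s ≤ i` and `i + |A ∩ U| ≤ |A|` there is a cycle of length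
`∑ (|Q j| - 1) + 2 i`.
PROOF. As for `embed` (Emb.lean): for `j < s - 1` connect `y j` to `x (j+1)` by `core_path` with `i = 2`
(three inner vertices), forbidden set: `U` and the inner vertices of the earlier connections; connect
`y (s-1)` to `x 0` with `i - 2 (s-1) ≥ 2` vertices of `A`: at most `|A ∩ U| + 2 (s-1)` vertices of `A` are
forbidden.  Every forbidden set has at most `|U| + 3 s` elements.  (`F` may contain `x`, `y`: they are
the ends, not inner vertices.)  The connecting paths meet the ears only in their ends and each other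
not at all, except for `s = 1` in nothing.  `hasCyc_of_paths` with `2 s` paths. -/
theorem multi_ear [DecidableEq V] {G : SimpleGraph V} {m : ℕ} {η₀ η : ℝ} {A₀ A B₀ : Finset V}
    (h : Big G m η₀ η A₀ A B₀) (s : ℕ) (hs : 1 ≤ s) (Q : ℕ → List V) (x y : ℕ → V)
    (hQ : ∀ j < s, PathL G (x j) (y j) (Q j) ∧ 2 ≤ (Q j).length)
    (hx : ∀ j < s, Typ G A₀ (x j) ∧ x j ∉ A) (hy : ∀ j < s, Typ G A₀ (y j) ∧ y j ∉ A)
    (hd : ∀ i < s, ∀ j < s, i ≠ j → List.Disjoint (Q i) (Q j)) (U : Finset V)
    (hU : ∀ v, v ∈ U ↔ ∃ j < s, v ∈ Q j) (hUc : (U.card : ℝ) + 4 * s ≤ η₀ * m / 100) (i : ℕ)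
    (h2 : 2 * s ≤ i) (hi : i + (A ∩ U).card ≤ A.card) :
    HasCyc G (∑ j ∈ Finset.range s, ((Q j).length - 1) + 2 * i) := by
  classical
  let x' : ℕ → V := fun j => if j = s then x 0 else x j
  have hx'lt : ∀ j < s, x' j = x j := fun j hj => if_neg (by omega)
  have hx's : x' s = x 0 := if_pos rfl
  have hQx : ∀ j < s, x j ∈ Q j := fun j hj => (hQ j hj).1.left_mem
  have hQy : ∀ j < s, y j ∈ Q j := fun j hj => (hQ j hj).1.right_mem
  have hQxy : ∀ j < s, x j ≠ y j := by
    intro j hj heq
    obtain ⟨hp, hl⟩ := hQ j hj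
    obtain ⟨hc, hn, hh, hla⟩ := hp
    cases hQj : Q j with
    | nil => rw [hQj] at hl; simp at hl
    | cons a l =>
      rw [hQj] at hn hh hla hl
      simp only [List.head?_cons, Option.some.injEq] at hh
      cases l with
      | nil => simp at hl
      | cons b l =>
        rw [List.getLast?_cons_cons] at hla
        have hmem := mem_of_getLast? hla
        rw [← heq, ← hh] at hmem
        exact (List.nodup_cons.1 hn).1 hmem
  -- the vertex x' (j+1) and the index of its ear
  have hnext : ∀ j < s, ∃ j' < s, x' (j + 1) = x j' ∧ ((j + 1 < s ∧ j' = j + 1) ∨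
      (j + 1 = s ∧ j' = 0)) := by
    intro j hj
    by_cases h1 : j + 1 < s
    · exact ⟨j + 1, h1, hx'lt _ h1, Or.inl ⟨h1, rfl⟩⟩
    · have h3 : j + 1 = s := by omega
      exact ⟨0, by omega, by rw [h3]; exact hx's, Or.inr ⟨h3, rfl⟩⟩
  have hind : ∀ i < s, ∀ j < s, ∀ v, v ∈ Q i → v ∈ Q j → i = j := by
    intro i hi j hj v h1 h3
    by_contra hne
    exact hd i hi j hj hne h1 h3
  have hne : ∀ j < s, y j ≠ x' (j + 1) := by
    intro j hj heq
    obtain ⟨j', hj', e, hcase⟩ := hnext j hj
    have h1 : y j ∈ Q j' := by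
      rw [heq, e]
      exact hQx j' hj'
    have h3 := hind j hj j' hj' (y j) (hQy j hj) h1
    rcases hcase with ⟨_, h4⟩ | ⟨_, h4⟩
    · omega
    · subst h3
      rw [e] at heq
      exact hQxy j hj heq.symm
  obtain ⟨R, hR⟩ := CO4_conn h s y x' (fun j hj => by
      obtain ⟨j', hj', e, _⟩ := hnext j hj
      rw [e]
      exact hx j' hj') hy hne U (fun j hj => by
      obtain ⟨j', hj', e, _⟩ := hnext j hj
      rw [e, hU]
      exact ⟨j', hj', hQx j' hj'⟩) (fun j hj => (hU _).2 ⟨j, hj, hQy j hj⟩) hUc i h2 hi s le_rfl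
  let z : ℕ → V := fun n => if n % 2 = 0 then x' (n / 2) else y (n / 2)
  let B : ℕ → List V := fun n => if n % 2 = 0 then Q (n / 2) else R (n / 2)
  have hze : ∀ j, z (2 * j) = x' j := by
    intro j
    have e1 : (2 * j) % 2 = 0 := by omega
    have e2 : (2 * j) / 2 = j := by omega
    simp only [z, if_pos e1, e2]
  have hzo : ∀ j, z (2 * j + 1) = y j := by
    intro j
    have e1 : (2 * j + 1) % 2 ≠ 0 := by omega
    have e2 : (2 * j + 1) / 2 = j := by omega
    simp only [z, if_neg e1, e2]
  have hBe : ∀ j, B (2 * j) = Q j := by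
    intro j
    have e1 : (2 * j) % 2 = 0 := by omega
    have e2 : (2 * j) / 2 = j := by omega
    simp only [B, if_pos e1, e2]
  have hBo : ∀ j, B (2 * j + 1) = R j := by
    intro j
    have e1 : (2 * j + 1) % 2 ≠ 0 := by omega
    have e2 : (2 * j + 1) / 2 = j := by omega
    simp only [B, if_neg e1, e2]
  have hsum : ∑ n ∈ Finset.range (2 * s), ((B n).length - 1) =
      ∑ j ∈ Finset.range s, ((Q j).length - 1) + 2 * i := by
    have e : ∀ n ∈ Finset.range (2 * s), ((B n).length - 1) =
        if n % 2 = 0 then (fun j => (Q j).length - 1) (n / 2)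
          else (fun j => (R j).length - 1) (n / 2) := by
      intro n _
      simp only [B]
      split_ifs <;> rfl
    rw [Finset.sum_congr rfl e]
    refine (CO4_sum s (fun j => (Q j).length - 1) (fun j => (R j).length - 1)).trans ?_
    congr 1
    have e2 : ∀ j ∈ Finset.range s, (R j).length - 1 =
        2 * (if j + 1 < s then 2 else i - 2 * (s - 1)) := by
      intro j hj
      rw [(hR j (Finset.mem_range.1 hj)).2.1]
      omega
    rw [Finset.sum_congr rfl e2, ← Finset.mul_sum]
    congr 1
    obtain ⟨r, rfl⟩ : ∃ r, s = r + 1 := ⟨s - 1, by omega⟩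
    rw [Finset.sum_range_succ, if_neg (lt_irrefl _), Finset.sum_congr rfl (fun j hj => by
      have := Finset.mem_range.1 hj
      rw [if_pos (by omega : j + 1 < r + 1)]), Finset.sum_const, Finset.card_range, smul_eq_mul]
    omega
  rw [← hsum]
  refine hasCyc_of_paths (2 * s) (by omega) z B ?_ ?_ ?_ ?_ ?_
  · intro n hn
    rcases Nat.even_or_odd' n with ⟨j, rfl | rfl⟩
    · rw [hze, hzo, hBe, hx'lt j (by omega)]
      exact (hQ j (by omega)).1
    · have e : 2 * j + 1 + 1 = 2 * (j + 1) := by ring
      rw [e, hzo, hze, hBo]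
      exact (hR j (by omega)).1
  · have h0 : z 0 = x' 0 := hze 0
    rw [hze, hx's, h0, hx'lt 0 (by omega)]
  · intro n hn
    rcases Nat.even_or_odd' n with ⟨j, rfl | rfl⟩
    · rw [hBe]
      exact (hQ j (by omega)).2
    · rw [hBo, (hR j (by omega)).2.1]
      split_ifs <;> omega
  · intro n n' hnn hn' v hv hv'
    rcases Nat.even_or_odd' n with ⟨j, rfl | rfl⟩
    · rw [hBe] at hv
      rcases Nat.even_or_odd' n' with ⟨j', rfl | rfl⟩
      · rw [hBe] at hv'
        have := hind j (by omega) j' (by omega) v hv hv'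
        omega
      · rw [hBo] at hv'
        have hvU : v ∈ U := (hU v).2 ⟨j, by omega, hv⟩
        rcases (hR j' (by omega)).2.2.1 v hv' with h' | h' | h'
        · have h3 := hind j (by omega) j' (by omega) v hv (by rw [h']; exact hQy j' (by omega))
          subst h3
          exact Or.inl ⟨rfl, by rw [hzo]; exact h'⟩
        · obtain ⟨j'', hj'', e, hcase⟩ := hnext j' (by omega)
          have h3 := hind j (by omega) j'' hj'' v hv (by rw [h', e]; exact hQx j'' hj'')
          rcases hcase with ⟨h4, h5⟩ | ⟨h4, h5⟩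
          · omega
          · right
            refine ⟨by omega, by omega, ?_⟩
            have h0 : z 0 = x' 0 := hze 0
            rw [h', e, h5, h0, hx'lt 0 (by omega)]
        · exact absurd hvU h'
    · rw [hBo] at hv
      rcases Nat.even_or_odd' n' with ⟨j', rfl | rfl⟩
      · rw [hBe] at hv'
        have hvU : v ∈ U := (hU v).2 ⟨j', by omega, hv'⟩
        rcases (hR j (by omega)).2.2.1 v hv with h' | h' | h'
        · have h3 := hind j' (by omega) j (by omega) v hv' (by rw [h']; exact hQy j (by omega))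
          omega
        · obtain ⟨j'', hj'', e, hcase⟩ := hnext j (by omega)
          have h3 := hind j' (by omega) j'' hj'' v hv' (by rw [h', e]; exact hQx j'' hj'')
          rcases hcase with ⟨h4, h5⟩ | ⟨h4, h5⟩
          · left
            have h6 : j' = j + 1 := by omega
            refine ⟨by omega, ?_⟩
            rw [hze, h', h6]
          · omega
        · exact absurd hvU h'
      · rw [hBo] at hv'
        exfalso
        have hvU : v ∈ U := (hR j' (by omega)).2.2.2.2 j (by omega) v hv' hv
        -- v is an end of both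
        have end1 : ∀ j < s, v ∈ R j → ∃ j'' < s, v ∈ Q j'' ∧ ((v = y j ∧ j'' = j) ∨
            (v = x j'' ∧ j + 1 < s ∧ j'' = j + 1) ∨ (v = x j'' ∧ j + 1 = s ∧ j'' = 0)) := by
          intro j hj hvj
          rcases (hR j hj).2.2.1 v hvj with h' | h' | h'
          · exact ⟨j, hj, by rw [h']; exact hQy j hj, Or.inl ⟨h', rfl⟩⟩
          · obtain ⟨j'', hj'', e, hcase⟩ := hnext j hj
            refine ⟨j'', hj'', by rw [h', e]; exact hQx j'' hj'', ?_⟩
            rcases hcase with ⟨h4, h5⟩ | ⟨h4, h5⟩
            · exact Or.inr (Or.inl ⟨by rw [h', e], h4, h5⟩)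
            · exact Or.inr (Or.inr ⟨by rw [h', e], h4, h5⟩)
          · exact absurd hvU h'
        obtain ⟨a, ha, hva, hca⟩ := end1 j (by omega) hv
        obtain ⟨b, hb, hvb, hcb⟩ := end1 j' (by omega) hv'
        have hab := hind a ha b hb v hva hvb
        subst hab
        rcases hca with ⟨h4, h5⟩ | ⟨h4, h5, h6⟩ | ⟨h4, h5, h6⟩
        · rcases hcb with ⟨h7, h8⟩ | ⟨h7, h8, h9⟩ | ⟨h7, h8, h9⟩
          · omega
          · omega
          · subst h5
            exact hQxy a ha (h7.symm.trans h4)
        · rcases hcb with ⟨h7, h8⟩ | ⟨h7, h8, h9⟩ | ⟨h7, h8, h9⟩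
          · subst h8
            exact hQxy a ha (h4.symm.trans h7)
          · omega
          · omega
        · omega
  · rw [hsum]
    omega

end TurMod
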