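import Mathlib

/-!
# Cycle lengths in residue classes: basic notions (MP_7145a1_co)

`dg G S v` is the number of neighbours of `v` in the finite set `S`, `vol G S` is the number of
ordered adjacent pairs inside `S` (twice the number of edges inside `S`), `codeg G S u v` the number
of common neighbours in `S`.  `HasCyc G L`: the graph has a cycle of length `L`.
`PathL G x y l`: the list `l` of vertices is a path of `G` from `x` to `y` (length = number of
VERTICES).  `Conn G S t`: the set `S` induces a `(t+1)`-connected graph, in the sense that it has no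
separation of order at most `t`.
-/

namespace TurMod

open Finset

variable {V : Type*}

open Classical in
/-- the number of neighbours of `v` in `S` -/
noncomputable def dg (G : SimpleGraph V) (S : Finset V) (v : V) : ℕ :=
  (S.filter (fun w => G.Adj v w)).card

/-- twice the number of edges inside `S` -/
noncomputable def vol (G : SimpleGraph V) (S : Finset V) : ℕ := ∑ v ∈ S, dg G S v

open Classical in
/-- the number of common neighbours of `u` and `v` in `S` -/
noncomputable def codeg (G : SimpleGraph V) (S : Finset V) (u v : V) : ℕ :=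
  (S.filter (fun w => G.Adj u w ∧ G.Adj v w)).card

/-- `G` has a cycle of length `L` -/
def HasCyc (G : SimpleGraph V) (L : ℕ) : Prop :=
  ∃ (v : V) (c : G.Walk v v), c.IsCycle ∧ c.length = L

/-- the list `l` of vertices is a path of `G` from `x` to `y` -/
def PathL (G : SimpleGraph V) (x y : V) (l : List V) : Prop :=
  l.IsChain G.Adj ∧ l.Nodup ∧ l.head? = some x ∧ l.getLast? = some y

/-- `S` has no separation of order at most `t` -/
def Conn (G : SimpleGraph V) (S : Finset V) (t : ℕ) : Prop :=
  ∀ X A : Finset V, X.card ≤ t → A ⊆ S → A.Nonempty → Disjoint A X →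
    (∃ c ∈ S, c ∉ A ∧ c ∉ X) → ∃ a ∈ A, ∃ c ∈ S, c ∉ A ∧ c ∉ X ∧ G.Adj a c

/-- clusters `X a`, all of size `N`, pairwise disjoint, such that along every edge `a b` of the
reduced graph `R` every set `A ⊆ X a` with at least `s` elements contains a vertex with at least
`d |B|` neighbours in `B`, for every `B ⊆ X b` with at least `s` elements -/
structure Clus {ι : Type*} (G : SimpleGraph V) (R : SimpleGraph ι) (X : ι → Finset V)
    (N s : ℕ) (d : ℝ) : Prop where
  disj : ∀ a b, a ≠ b → Disjoint (X a) (X b)
  size : ∀ a, (X a).card = N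
  s_pos : 1 ≤ s
  d_pos : 0 < d
  d_le : d ≤ 1
  typ : ∀ a b, R.Adj a b → ∀ B ⊆ X b, s ≤ B.card → ∀ A ⊆ X a, s ≤ A.card →
    ∃ x ∈ A, d * (B.card : ℝ) ≤ (dg G B x : ℝ)

/-! ### Elementary facts -/

lemma mem_of_head? {l : List V} {x : V} (h : l.head? = some x) : x ∈ l := by
  cases l with
  | nil => simp at h
  | cons a l => simp at h; simp [h]

lemma mem_of_getLast? {l : List V} {x : V} (h : l.getLast? = some x) : x ∈ l :=
  List.mem_of_getLast? h

lemma PathL.ne_nil {G : SimpleGraph V} {x y : V} {l : List V} (h : PathL G x y l) : l ≠ [] := by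
  rintro rfl; simpa using h.2.2.1

lemma PathL.left_mem {G : SimpleGraph V} {x y : V} {l : List V} (h : PathL G x y l) : x ∈ l :=
  mem_of_head? h.2.2.1

lemma PathL.right_mem {G : SimpleGraph V} {x y : V} {l : List V} (h : PathL G x y l) : y ∈ l :=
  mem_of_getLast? h.2.2.2

lemma PathL.reverse {G : SimpleGraph V} {x y : V} {l : List V} (h : PathL G x y l) :
    PathL G y x l.reverse := by
  refine ⟨?_, List.nodup_reverse.2 h.2.1, ?_, ?_⟩
  · rw [List.isChain_reverse]
    exact h.1.imp (fun a b hab => hab.symm)
  · rw [List.head?_reverse]; exact h.2.2.2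
  · rw [List.getLast?_reverse]; exact h.2.2.1

lemma PathL.mono {G H : SimpleGraph V} (hGH : G ≤ H) {x y : V} {l : List V} (h : PathL G x y l) :
    PathL H x y l :=
  ⟨h.1.imp (fun _ _ hab => hGH hab), h.2.1, h.2.2.1, h.2.2.2⟩

/-- gluing two paths at a common end -/
lemma PathL.glue {G : SimpleGraph V} {x y z : V} {l l' : List V} (h : PathL G x y l)
    (h' : PathL G y z l') (hd : ∀ v ∈ l, v ∈ l' → v = y) : PathL G x z (l ++ l'.tail) := by
  obtain ⟨hc, hn, hh, hl⟩ := h
  obtain ⟨hc', hn', hh', hl'⟩ := h'
  obtain ⟨t, rfl⟩ : ∃ t, l' = y :: t := by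
    cases l' with
    | nil => simp at hh'
    | cons a t => simp at hh'; exact ⟨t, by rw [hh']⟩
  simp only [List.tail_cons]
  have hyt : y ∉ t := (List.nodup_cons.1 hn').1
  refine ⟨?_, ?_, ?_, ?_⟩
  · rw [List.isChain_append]
    refine ⟨hc, hc'.tail, ?_⟩
    intro a ha b hb
    rw [hl] at ha
    simp only [Option.mem_def, Option.some.injEq] at ha
    subst ha
    cases t with
    | nil => simp at hb
    | cons c t =>
      simp only [List.head?_cons, Option.mem_def, Option.some.injEq] at hb
      subst hb
      exact (List.isChain_cons_cons.1 hc').1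
  · rw [List.nodup_append]
    refine ⟨hn, (List.nodup_cons.1 hn').2, ?_⟩
    intro a ha b hb hab
    subst hab
    have := hd a ha (List.mem_cons_of_mem _ hb)
    subst this
    exact hyt hb
  · rw [List.head?_append_of_ne_nil]
    · exact hh
    · rintro rfl; simp at hh
  · cases t with
    | nil => simpa [hl] using hl'
    | cons c t =>
      rw [List.getLast?_append_of_ne_nil _ (by simp)]
      simpa using hl'

lemma dg_mono_set (G : SimpleGraph V) {S T : Finset V} (h : S ⊆ T) (v : V) :
    dg G S v ≤ dg G T v := by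
  classical
  unfold dg
  exact Finset.card_le_card (Finset.filter_subset_filter _ h)

lemma vol_mono_set (G : SimpleGraph V) {S T : Finset V} (h : S ⊆ T) : vol G S ≤ vol G T := by
  unfold vol
  exact (Finset.sum_le_sum (fun v _ => dg_mono_set G h v)).trans (Finset.sum_le_sum_of_subset h)

lemma dg_le_card (G : SimpleGraph V) (S : Finset V) (v : V) : dg G S v ≤ S.card := by
  classical
  unfold dg
  exact Finset.card_filter_le _ _

lemma vol_univ_eq [Fintype V] (G : SimpleGraph V) [DecidableRel G.Adj] :
    vol G Finset.univ = 2 * G.edgeFinset.card := by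
  rw [← SimpleGraph.sum_degrees_eq_twice_card_edges]
  unfold vol
  refine Finset.sum_congr rfl (fun v _ => ?_)
  unfold dg
  rw [← SimpleGraph.card_neighborFinset_eq_degree]
  congr 1
  ext w
  simp

lemma HasCyc.mono {G H : SimpleGraph V} (h : G ≤ H) {L : ℕ} (hc : HasCyc G L) : HasCyc H L := by
  obtain ⟨v, c, hc, hL⟩ := hc
  exact ⟨v, c.mapLe h, hc.mapLe h, by simpa using hL⟩

lemma HasCyc.map {W : Type*} {G : SimpleGraph V} {H : SimpleGraph W} (f : V → W)
    (hf : Function.Injective f) (hadj : ∀ u v, G.Adj u v → H.Adj (f u) (f v)) {L : ℕ}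
    (hc : HasCyc G L) : HasCyc H L := by
  obtain ⟨v, c, hc, hL⟩ := hc
  let φ : G →g H := ⟨f, fun {a b} h => hadj a b h⟩
  exact ⟨f v, c.map φ, hc.map (f := φ) hf, by simpa using hL⟩

end TurMod
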