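import Pool.Agent.TurMod.Defs

/-!
# Building cycles from lists
-/

namespace TurMod

open Finset

variable {V : Type*}

private theorem GL1_walk {G : SimpleGraph V} {x y : V} {l : List V} (h : PathL G x y l) :
    ∃ w : G.Walk x y, w.support = l := by
  obtain ⟨hc, hn, hh, hl⟩ := h
  have hne : l ≠ [] := by rintro rfl; simp at hh
  have h1 : l.head hne = x := by
    rw [List.head?_eq_some_head hne] at hh
    exact Option.some.inj hh
  have h2 : l.getLast hne = y := by
    rw [List.getLast?_eq_some_getLast hne] at hl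
    exact Option.some.inj hl
  exact ⟨(SimpleGraph.Walk.ofSupport l hne hc).copy h1 h2, by
    rw [SimpleGraph.Walk.support_copy, SimpleGraph.Walk.support_ofSupport]⟩

/- MODULE GL1 -/
/-- A closed list of at least three distinct vertices is a cycle.
PROOF. Build the walk `x → … → last → x` by induction on the list (e.g. first prove: for a chain
`(x :: l)` there is a walk `w` from `x` to the last element with `w.support = x :: l`); then
`SimpleGraph.Walk.cons_isCycle_iff` (or `Walk.IsPath.isCycle_cons` or whatever is there) with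
the edge from the last vertex to `x`, which is not an edge of the path as the path has length
`≥ 2`. -/
theorem hasCyc_of_list {G : SimpleGraph V} {x y : V} {l : List V} (h : PathL G x y l)
    (hl : 3 ≤ l.length) (hxy : G.Adj y x) : HasCyc G l.length := by
  obtain ⟨w, hw⟩ := GL1_walk h
  have hp : w.IsPath := by
    rw [SimpleGraph.Walk.isPath_def, hw]
    exact h.2.1
  have hlen : w.length + 1 = l.length := by
    rw [← hw, SimpleGraph.Walk.length_support]
  refine ⟨y, SimpleGraph.Walk.cons hxy w, ?_, by rw [SimpleGraph.Walk.length_cons, hlen]⟩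
  rw [SimpleGraph.Walk.cons_isCycle_iff]
  refine ⟨hp, ?_⟩
  cases w with
  | nil => simp at hlen; omega
  | cons hxb p =>
    rw [SimpleGraph.Walk.cons_isPath_iff] at hp
    rw [SimpleGraph.Walk.edges_cons, List.mem_cons, not_or]
    constructor
    · intro he
      rw [Sym2.eq_iff] at he
      rcases he with ⟨h1, _⟩ | ⟨h1, _⟩
      · exact hxy.ne h1
      · subst h1
        have hnil := SimpleGraph.Walk.isPath_iff_nil.1 hp.1
        have h0 : p.length = 0 := SimpleGraph.Walk.length_eq_zero_iff.2 hnil
        rw [SimpleGraph.Walk.length_cons] at hlen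
        omega
    · intro he
      exact hp.2 (SimpleGraph.Walk.snd_mem_support_of_mem_edges p he)

private theorem GL2_cut {G : SimpleGraph V} {a b : V} {B : List V} (h : PathL G a b B)
    (h2 : 2 ≤ B.length) : ∃ (C : List V) (y : V), B = C ++ [b] ∧ PathL G a y C ∧ G.Adj y b ∧
      b ∉ C := by
  obtain ⟨hc, hn, hh, hl⟩ := h
  have hne : B ≠ [] := by rintro rfl; simp at hh
  have hb : B.getLast hne = b := by
    rw [List.getLast?_eq_some_getLast hne] at hl
    exact Option.some.inj hl
  have hB : B = B.dropLast ++ [b] := by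
    rw [← hb]; exact (List.dropLast_append_getLast hne).symm
  set C := B.dropLast with hC
  have hCne : C ≠ [] := by
    intro h0
    rw [h0] at hB
    rw [hB] at h2
    simp at h2
  have hch := hc
  rw [hB, List.isChain_append] at hch
  rw [hB, List.nodup_append] at hn
  refine ⟨C, C.getLast hCne, hB, ⟨hch.1, hn.1, ?_, List.getLast?_eq_some_getLast hCne⟩, ?_, ?_⟩
  · rw [hB, List.head?_append_of_ne_nil _ hCne] at hh
    exact hh
  · exact hch.2.2 _ (List.getLast?_eq_some_getLast hCne) b (by simp)
  · intro hbC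
    exact hn.2.2 b hbC b (by simp) rfl

private theorem GL2_append {G : SimpleGraph V} {a y c y' : V} {l C : List V} (h : PathL G a y l)
    (h' : PathL G c y' C) (hy : G.Adj y c) (hd : ∀ v ∈ l, v ∉ C) : PathL G a y' (l ++ C) := by
  have hCne := h'.ne_nil
  have hlne := h.ne_nil
  refine ⟨?_, ?_, ?_, ?_⟩
  · rw [List.isChain_append]
    refine ⟨h.1, h'.1, ?_⟩
    intro p hp q hq
    rw [h.2.2.2] at hp
    rw [h'.2.2.1] at hq
    simp only [Option.mem_def, Option.some.injEq] at hp hq
    subst hp hq
    exact hy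
  · rw [List.nodup_append]
    refine ⟨h.2.1, h'.2.1, ?_⟩
    rintro p hp q hq rfl
    exact hd p hp hq
  · rw [List.head?_append_of_ne_nil _ hlne]
    exact h.2.2.1
  · rw [List.getLast?_append_of_ne_nil _ hCne]
    exact h'.2.2.2

/- MODULE GL2 -/
/-- Cyclic gluing.  `B 0, …, B (r-1)` are paths, `B i` from `z i` to `z (i+1)`, `z r = z 0`, `r ≥ 2`,
any two of them meet at most in the common ends, and none of them is a single vertex.  Then they
form a cycle, whose length is the sum of the numbers of EDGES.
PROOF. The lists `C i = (B i).dropLast` are nonempty, pairwise disjoint (a common vertex `v` of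
`B i`, `B j`, `i < j`, is `z j` with `j = i + 1`, which is the last vertex of `B i` and so not in
`C i` by nodup, or it is `z 0 = z r` with `j = r - 1`, the last vertex of `B j`, not in `C j`),
every `C i` is a chain with head `z i`, and the last vertex of `C i` is adjacent to `z (i+1)`.
By induction on `m ≤ r` the concatenation of `C 0, …, C (m-1)` is a path from `z 0` to a vertex
adjacent to `z m` (statement for the induction: for `1 ≤ m ≤ r` there are a list `l` and a vertex
`y` with `PathL G (z 0) y l`, `G.Adj y (z m)`, length of `l` = `∑ i < m, ((B i).length - 1)`,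
and `v ∈ l → ∃ i < m, v ∈ C i`).  For `m = r` use `hasCyc_of_list`. -/
theorem hasCyc_of_paths {G : SimpleGraph V} (r : ℕ) (hr : 2 ≤ r) (z : ℕ → V) (B : ℕ → List V)
    (hB : ∀ i < r, PathL G (z i) (z (i + 1)) (B i)) (hz : z r = z 0)
    (h2 : ∀ i < r, 2 ≤ (B i).length)
    (hd : ∀ i j, i < j → j < r → ∀ v, v ∈ B i → v ∈ B j →
      (j = i + 1 ∧ v = z j) ∨ (i = 0 ∧ j = r - 1 ∧ v = z 0))
    (h3 : 3 ≤ ∑ i ∈ Finset.range r, ((B i).length - 1)) :
    HasCyc G (∑ i ∈ Finset.range r, ((B i).length - 1)) := by
  have hcut : ∀ i, ∃ (C : List V) (y : V), i < r → (B i = C ++ [z (i + 1)] ∧ PathL G (z i) y C ∧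
      G.Adj y (z (i + 1)) ∧ z (i + 1) ∉ C) := by
    intro i
    by_cases hi : i < r
    · obtain ⟨C, y, h⟩ := GL2_cut (hB i hi) (h2 i hi)
      exact ⟨C, y, fun _ => h⟩
    · exact ⟨[], z 0, fun h => absurd h hi⟩
  choose C y hC using hcut
  have hlen : ∀ i < r, (C i).length = (B i).length - 1 := by
    intro i hi
    rw [(hC i hi).1]
    simp
  have hmem : ∀ i < r, ∀ v ∈ C i, v ∈ B i := by
    intro i hi v hv
    rw [(hC i hi).1]
    exact List.mem_append_left _ hv
  have key : ∀ m, 1 ≤ m → m ≤ r → ∃ (l : List V) (w : V), PathL G (z 0) w l ∧ G.Adj w (z m) ∧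
      l.length = ∑ i ∈ Finset.range m, ((B i).length - 1) ∧ ∀ v ∈ l, ∃ i < m, v ∈ C i := by
    intro m hm
    induction m, hm using Nat.le_induction with
    | base =>
      intro h1r
      have h0 : 0 < r := by omega
      refine ⟨C 0, y 0, (hC 0 h0).2.1, (hC 0 h0).2.2.1, ?_, fun v hv => ⟨0, by omega, hv⟩⟩
      rw [hlen 0 h0]
      simp
    | succ m hm ih =>
      intro hmr
      have hmr' : m < r := by omega
      obtain ⟨l, w, hl, hw, hll, hlv⟩ := ih hmr'.le
      refine ⟨l ++ C m, y m, GL2_append hl (hC m hmr').2.1 hw ?_, (hC m hmr').2.2.1, ?_, ?_⟩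
      · intro v hv hvm
        obtain ⟨i, him, hvi⟩ := hlv v hv
        have hir : i < r := him.trans hmr'
        rcases hd i m him hmr' v (hmem i hir v hvi) (hmem m hmr' v hvm) with ⟨h4, h5⟩ | ⟨_, h5, h6⟩
        · rw [h5, h4] at hvi
          exact (hC i hir).2.2.2 hvi
        · have h7 : m + 1 = r := by omega
          rw [h6, ← hz, ← h7] at hvm
          exact (hC m hmr').2.2.2 hvm
      · rw [List.length_append, hll, hlen m hmr', Finset.sum_range_succ]
      · intro v hv
        rcases List.mem_append.1 hv with hv | hv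
        · obtain ⟨i, him, hvi⟩ := hlv v hv
          exact ⟨i, by omega, hvi⟩
        · exact ⟨m, by omega, hv⟩
  obtain ⟨l, w, hl, hw, hll, _⟩ := key r (by omega) le_rfl
  rw [hz] at hw
  rw [← hll] at h3 ⊢
  exact hasCyc_of_list hl h3 hw

private theorem GL3_cut {G : SimpleGraph V} (y : V) (p : V → Prop) : ∀ (l : List V) (x : V),
    PathL G x y l → (∃ v ∈ l, p v) → ∃ z, p z ∧ z ∈ l ∧ ∃ l', PathL G x z l' ∧ (∀ v ∈ l', v ∈ l) ∧
      (∀ v ∈ l', p v → v = z) ∧ l'.length ≤ l.length := by
  intro l
  induction l with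
  | nil => intro x h; simpa using h.2.2.1
  | cons a t ih =>
    intro x h hp
    obtain rfl : a = x := by
      have := h.2.2.1
      simpa using this
    by_cases hpa : p a
    · refine ⟨a, hpa, by simp, [a], ⟨by simp, by simp, by simp, by simp⟩, ?_, ?_, ?_⟩
      · intro v hv
        rw [List.mem_singleton] at hv
        simp [hv]
      · intro v hv _
        exact List.mem_singleton.1 hv
      · simp
    · cases t with
      | nil =>
        obtain ⟨v, hv, hpv⟩ := hp
        rw [List.mem_singleton] at hv
        exact absurd (hv ▸ hpv) hpa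
      | cons b s =>
        have hb : PathL G b y (b :: s) := by
          refine ⟨h.1.tail, (List.nodup_cons.1 h.2.1).2, by simp, ?_⟩
          have := h.2.2.2
          simpa using this
        have hpt : ∃ v ∈ b :: s, p v := by
          obtain ⟨v, hv, hpv⟩ := hp
          rcases List.mem_cons.1 hv with rfl | hv
          · exact absurd hpv hpa
          · exact ⟨v, hv, hpv⟩
        obtain ⟨z, hz, hzl, l', hl', hsub, huniq, hlen⟩ := ih b hb hpt
        have hab : G.Adj a b := (List.isChain_cons_cons.1 h.1).1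
        have hat : a ∉ b :: s := (List.nodup_cons.1 h.2.1).1
        refine ⟨z, hz, List.mem_cons_of_mem _ hzl, a :: l', ⟨?_, ?_, by simp, ?_⟩, ?_, ?_, ?_⟩
        · obtain ⟨b', s', rfl⟩ : ∃ b' s', l' = b' :: s' := by
            cases l' with
            | nil => exact absurd rfl hl'.ne_nil
            | cons b' s' => exact ⟨b', s', rfl⟩
          have hbb : b' = b := by
            have := hl'.2.2.1
            simpa using this
          rw [List.isChain_cons_cons]
          exact ⟨hbb ▸ hab, hl'.1⟩
        · rw [List.nodup_cons]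
          exact ⟨fun h' => hat (hsub a h'), hl'.2.1⟩
        · rw [List.getLast?_cons_of_ne_nil hl'.ne_nil]
          exact hl'.2.2.2
        · intro v hv
          rcases List.mem_cons.1 hv with rfl | hv
          · simp
          · exact List.mem_cons_of_mem _ (hsub v hv)
        · intro v hv hpv
          rcases List.mem_cons.1 hv with rfl | hv
          · exact absurd hpv hpa
          · exact huniq v hv hpv
        · simpa using hlen

/- MODULE GL3 -/
/-- In a graph with connected `S ∖ X` (this is what `Conn` with `X.card ≤ t` says) any two vertices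
of `S ∖ X` are joined by a path inside `S ∖ X`.
PROOF. Let `A` be the set of all `v ∈ S ∖ X` joined to `x` by a path (a list with `PathL`) inside
`S ∖ X`.  If `y ∉ A` then `Conn` gives `a ∈ A`, `c ∈ S`, `c ∉ A`, `c ∉ X`, `G.Adj a c`; the path
from `x` to `a` does not contain `c` (otherwise its initial part up to `c` shows `c ∈ A`), so it
extends to `c`, contradiction. -/
theorem exists_path_of_conn (G : SimpleGraph V) (S X : Finset V) (t : ℕ) (h : Conn G S t)
    (hX : X.card ≤ t) (x y : V) (hx : x ∈ S) (hxX : x ∉ X) (hy : y ∈ S) (hyX : y ∉ X) :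
    ∃ l, PathL G x y l ∧ ∀ v ∈ l, v ∈ S ∧ v ∉ X := by
  classical
  by_contra hcon
  set A : Finset V := S.filter (fun v => v ∉ X ∧ ∃ l, PathL G x v l ∧ ∀ w ∈ l, w ∈ S ∧ w ∉ X)
    with hA
  have hyA : y ∉ A := by
    rw [hA, mem_filter]
    rintro ⟨_, _, h'⟩
    exact hcon h'
  have hxA : x ∈ A := by
    rw [hA, mem_filter]
    refine ⟨hx, hxX, [x], ⟨by simp, by simp, by simp, by simp⟩, ?_⟩
    intro w hw
    rw [List.mem_singleton] at hw
    rw [hw]
    exact ⟨hx, hxX⟩
  have hdisj : Disjoint A X := by
    rw [Finset.disjoint_left]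
    intro v hv
    rw [hA, mem_filter] at hv
    exact hv.2.1
  obtain ⟨a, ha, c, hcS, hcA, hcX, hac⟩ := h X A hX (filter_subset _ _) ⟨x, hxA⟩ hdisj
    ⟨y, hy, hyA, hyX⟩
  rw [hA, mem_filter] at ha
  obtain ⟨_, _, l, hl, hlS⟩ := ha
  have hcl : c ∉ l := by
    intro hc
    obtain ⟨z, hz, _, l', hl', hsub, _, _⟩ := GL3_cut a (fun v => v = c) l x hl ⟨c, hc, rfl⟩
    apply hcA
    rw [hA, mem_filter]
    exact ⟨hcS, hcX, l', hz ▸ hl', fun w hw => hlS w (hsub w hw)⟩
  apply hcA
  rw [hA, mem_filter]
  refine ⟨hcS, hcX, l ++ [c], GL2_append hl ⟨by simp, by simp, by simp, by simp⟩ hac ?_, ?_⟩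
  · intro v hv hvc
    rw [List.mem_singleton] at hvc
    exact hcl (hvc ▸ hv)
  · intro w hw
    rcases List.mem_append.1 hw with hw | hw
    · exact hlS w hw
    · rw [List.mem_singleton] at hw
      rw [hw]
      exact ⟨hcS, hcX⟩

/-- Cutting a path at its first vertex satisfying `p`.
PROOF. Induction on the list, or `List.takeWhile`. -/
theorem cut_first {G : SimpleGraph V} {x y : V} {l : List V} (h : PathL G x y l) (p : V → Prop)
    (hp : ∃ v ∈ l, p v) : ∃ z, p z ∧ z ∈ l ∧ ∃ l', PathL G x z l' ∧ (∀ v ∈ l', v ∈ l) ∧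
      (∀ v ∈ l', p v → v = z) ∧ l'.length ≤ l.length :=
  GL3_cut y p l x h hp

/- MODULE GL4 -/
/-- Sizes of induced pieces: passing to a subtype.  For `S : Finset V` and the induced graph on
`↥S`, degrees and volumes of subsets are those of their images.
PROOF. Unfold; `Finset.card_map`, `Finset.sum_map`. -/
theorem vol_induce (G : SimpleGraph V) (S : Finset V) (T : Finset S) :
    vol (G.comap (fun v : S => (v : V))) T = vol G (T.map (Function.Embedding.subtype _)) := by
  classical
  unfold vol
  rw [Finset.sum_map]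
  refine Finset.sum_congr rfl fun v _ => ?_
  unfold dg
  rw [Finset.filter_map, Finset.card_map]
  congr 1

theorem conn_induce (G : SimpleGraph V) (S : Finset V) (t : ℕ) (h : Conn G S t) :
    Conn (G.comap (fun v : S => (v : V))) Finset.univ t := by
  classical
  intro X A hX _ hAne hdisj hc
  obtain ⟨a, ha, c, hcS, hcA, hcX, hac⟩ := h (X.map (Function.Embedding.subtype _))
    (A.map (Function.Embedding.subtype _)) (by rw [Finset.card_map]; exact hX)
    (by
      intro v hv
      obtain ⟨w, _, rfl⟩ := Finset.mem_map.1 hv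
      exact w.2)
    (hAne.map) (by rw [Finset.disjoint_map]; exact hdisj)
    (by
      obtain ⟨c, _, hcA, hcX⟩ := hc
      refine ⟨c, c.2, ?_, ?_⟩
      · intro h'
        obtain ⟨w, hw, hwc⟩ := Finset.mem_map.1 h'
        have : w = c := Subtype.ext hwc
        exact hcA (this ▸ hw)
      · intro h'
        obtain ⟨w, hw, hwc⟩ := Finset.mem_map.1 h'
        have : w = c := Subtype.ext hwc
        exact hcX (this ▸ hw))
  obtain ⟨w, hw, rfl⟩ := Finset.mem_map.1 ha
  refine ⟨w, hw, ⟨c, hcS⟩, Finset.mem_univ _, ?_, ?_, hac⟩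
  · intro h'
    exact hcA (Finset.mem_map.2 ⟨_, h', rfl⟩)
  · intro h'
    exact hcX (Finset.mem_map.2 ⟨_, h', rfl⟩)

end TurMod
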