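import Pool.Agent.TurMod.Pot
import Pool.Agent.TurMod.Glue

/-!
# The Erdős–Gallai theorem for paths
-/

namespace TurMod

open Finset

variable {V : Type*}

/- MODULE EG1 -/
private theorem EG1_idx [DecidableEq V] {L : List V} {x y : V} (hx : L.head? = some x)
    (hy : L.getLast? = some y) (hn : L.Nodup) :
    (∀ w ∈ L, w ≠ x → 1 ≤ L.idxOf w) ∧ (∀ w ∈ L, w ≠ y → L.idxOf w + 1 < L.length) := by
  constructor
  · intro w hw hwx
    by_contra hc
    have h0 : L.idxOf w = 0 := by omega
    apply hwx
    cases L with
    | nil => simp at hw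
    | cons z L =>
      simp at hx
      subst hx
      by_contra h1
      rw [List.idxOf_cons_ne _ (fun h2 => h1 h2.symm)] at h0
      omega
  · intro w hw hwy
    have h1 : L.idxOf w < L.length := List.idxOf_lt_length_of_mem hw
    by_contra hc
    have h2 : L.idxOf w = L.length - 1 := by omega
    apply hwy
    rw [List.getLast?_eq_getElem?, ← h2, List.getElem?_eq_getElem h1, List.getElem_idxOf] at hy
    exact Option.some.inj hy

private theorem EG1_tour {G : SimpleGraph V} {x y : V} {L : List V} (h : PathL G x y L) (i : ℕ)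
    (hi : i + 1 < L.length) (h1 : G.Adj x (L[i + 1])) (h2 : G.Adj (L[i]) y) :
    ∃ C : List V, C.Perm L ∧ C.IsChain G.Adj ∧ C.head? = some x ∧
      ∃ z, C.getLast? = some z ∧ G.Adj z x := by
  obtain ⟨hc, hn, hh, hl⟩ := h
  have hsplit : L.take (i + 1) ++ L.drop (i + 1) = L := List.take_append_drop _ _
  have hlast1 : (L.take (i + 1)).getLast? = some (L[i]) := by
    rw [List.getLast?_eq_getElem?, List.length_take, min_eq_left (by omega),
      List.getElem?_take_of_lt (by omega)]
    exact List.getElem?_eq_getElem (by omega)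
  have hhead1 : (L.take (i + 1)).head? = some x := by
    rw [List.head?_eq_getElem?] at hh ⊢
    rw [List.getElem?_take_of_lt (by omega)]
    exact hh
  have hhead2 : (L.drop (i + 1)).head? = some (L[i + 1]) := by
    rw [List.head?_eq_getElem?, List.getElem?_drop]
    exact List.getElem?_eq_getElem (by omega)
  have hlast2 : (L.drop (i + 1)).getLast? = some y := by
    rw [List.getLast?_eq_getElem?] at hl ⊢
    rw [List.length_drop, List.getElem?_drop, ← hl]
    congr 1
    omega
  refine ⟨L.take (i + 1) ++ (L.drop (i + 1)).reverse, ?_, ?_, ?_, L[i + 1], ?_, h1.symm⟩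
  · conv_rhs => rw [← hsplit]
    exact (List.reverse_perm _).append_left _
  · rw [List.isChain_append]
    refine ⟨hc.take _, ?_, ?_⟩
    · rw [List.isChain_reverse]
      exact (hc.drop _).imp fun a b hab => hab.symm
    · intro a ha b hb
      rw [hlast1] at ha
      rw [List.head?_reverse, hlast2] at hb
      simp at ha hb
      subst ha
      subst hb
      exact h2
  · rw [List.head?_append, hhead1]
    rfl
  · rw [List.getLast?_append, List.getLast?_reverse, hhead2]
    rfl

private theorem EG1_step (G : SimpleGraph V) (S : Finset V) (hconn : Conn G S 0) (δ l : ℕ)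
    (hδ : ∀ v ∈ S, δ ≤ dg G S v) (h1 : 1 ≤ l) (hl : l ≤ 2 * δ) (hS : l + 1 ≤ S.card)
    (x y : V) (L : List V) (hL : PathL G x y L) (hLS : ∀ v ∈ L, v ∈ S) (hLl : L.length ≤ l) :
    ∃ x' y' L', PathL G x' y' L' ∧ L'.length = L.length + 1 ∧ ∀ v ∈ L', v ∈ S := by
  classical
  by_cases hA : ∃ w ∈ S, w ∉ L ∧ G.Adj w x
  · obtain ⟨w, hwS, hwL, hwx⟩ := hA
    refine ⟨w, y, w :: L, ⟨?_, ?_, rfl, ?_⟩, by rw [List.length_cons], ?_⟩
    · obtain ⟨hc, _, hh, _⟩ := hL
      cases L with
      | nil => simp at hh
      | cons z L =>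
        simp at hh
        subst hh
        rw [List.isChain_cons_cons]
        exact ⟨hwx, hc⟩
    · rw [List.nodup_cons]
      exact ⟨hwL, hL.2.1⟩
    · have h2 := hL.2.2.2
      cases L with
      | nil => simp at h2
      | cons z L =>
        rw [List.getLast?_cons_cons]
        exact h2
    · intro v hv
      rcases List.mem_cons.1 hv with rfl | hv
      · exact hwS
      · exact hLS v hv
  · by_cases hB : ∃ w ∈ S, w ∉ L ∧ G.Adj w y
    · obtain ⟨w, hwS, hwL, hwy⟩ := hB
      refine ⟨x, w, L ++ [w], ⟨?_, ?_, ?_, by simp⟩, by simp, ?_⟩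
      · rw [List.isChain_append]
        refine ⟨hL.1, List.IsChain.singleton w, ?_⟩
        intro a ha b hb
        rw [hL.2.2.2] at ha
        simp at ha hb
        subst ha
        subst hb
        exact hwy.symm
      · rw [List.nodup_append]
        refine ⟨hL.2.1, List.nodup_singleton w, ?_⟩
        intro a ha b hb hab
        rw [List.mem_singleton] at hb
        subst hb
        subst hab
        exact hwL ha
      · rw [List.head?_append, hL.2.2.1]
        rfl
      · intro v hv
        rw [List.mem_append, List.mem_singleton] at hv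
        rcases hv with hv | rfl
        · exact hLS v hv
        · exact hwS
    · push Not at hA hB
      have hxS : x ∈ S := hLS x hL.left_mem
      have hyS : y ∈ S := hLS y hL.right_mem
      have hNx : ∀ w ∈ S.filter (fun w => G.Adj x w), w ∈ L := by
        intro w hw
        rw [Finset.mem_filter] at hw
        by_contra hc
        exact hA w hw.1 hc hw.2.symm
      have hNy : ∀ w ∈ S.filter (fun w => G.Adj y w), w ∈ L := by
        intro w hw
        rw [Finset.mem_filter] at hw
        by_contra hc
        exact hB w hw.1 hc hw.2.symm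
      obtain ⟨hix, hiy⟩ := EG1_idx hL.2.2.1 hL.2.2.2 hL.2.1
      have hxne : ∀ w ∈ S.filter (fun w => G.Adj x w), w ≠ x := by
        rintro w hw rfl
        exact G.irrefl (Finset.mem_filter.1 hw).2
      have hyne : ∀ w ∈ S.filter (fun w => G.Adj y w), w ≠ y := by
        rintro w hw rfl
        exact G.irrefl (Finset.mem_filter.1 hw).2
      have hI1 : ((S.filter fun w => G.Adj x w).image fun w => L.idxOf w - 1).card =
          dg G S x := by
        rw [Finset.card_image_of_injOn]
        · unfold dg
          congr 1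
        · intro a ha b hb hab
          have ha' := hix a (hNx a ha) (hxne a ha)
          have hb' := hix b (hNx b hb) (hxne b hb)
          simp only at hab
          exact (List.idxOf_inj (hNx a ha)).1 (by omega)
      have hJ1 : ((S.filter fun w => G.Adj y w).image fun w => L.idxOf w).card =
          dg G S y := by
        rw [Finset.card_image_of_injOn]
        · unfold dg
          congr 1
        · intro a ha b hb hab
          exact (List.idxOf_inj (hNy a ha)).1 hab
      have hI2 : ((S.filter fun w => G.Adj x w).image fun w => L.idxOf w - 1) ⊆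
          Finset.range (L.length - 1) := by
        intro i hi
        rw [Finset.mem_image] at hi
        obtain ⟨w, hw, rfl⟩ := hi
        have h2 := hix w (hNx w hw) (hxne w hw)
        have h3 : L.idxOf w < L.length := List.idxOf_lt_length_of_mem (hNx w hw)
        rw [Finset.mem_range]
        omega
      have hJ2 : ((S.filter fun w => G.Adj y w).image fun w => L.idxOf w) ⊆
          Finset.range (L.length - 1) := by
        intro i hi
        rw [Finset.mem_image] at hi
        obtain ⟨w, hw, rfl⟩ := hi
        have h2 := hiy w (hNy w hw) (hyne w hw)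
        rw [Finset.mem_range]
        omega
      have hnd : ¬ Disjoint ((S.filter fun w => G.Adj x w).image fun w => L.idxOf w - 1)
          ((S.filter fun w => G.Adj y w).image fun w => L.idxOf w) := by
        intro hdis
        have h2 := Finset.card_le_card (Finset.union_subset hI2 hJ2)
        rw [Finset.card_union_of_disjoint hdis, hI1, hJ1, Finset.card_range] at h2
        have h3 := hδ x hxS
        have h4 := hδ y hyS
        have h5 : 0 < L.length := List.length_pos_of_ne_nil hL.ne_nil
        omega
      rw [Finset.not_disjoint_iff] at hnd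
      obtain ⟨i, hiI, hiJ⟩ := hnd
      rw [Finset.mem_image] at hiI hiJ
      obtain ⟨w1, hw1, hi1⟩ := hiI
      obtain ⟨w2, hw2, hi2⟩ := hiJ
      have h2 := hix w1 (hNx w1 hw1) (hxne w1 hw1)
      have h3 : L.idxOf w1 < L.length := List.idxOf_lt_length_of_mem (hNx w1 hw1)
      have h4 : L.idxOf w1 = i + 1 := by omega
      have hlt : i + 1 < L.length := by omega
      have e1 : L[i + 1] = w1 := by
        have h5 : L[L.idxOf w1] = w1 := List.getElem_idxOf h3
        simp only [h4] at h5
        exact h5
      have e2 : L[i] = w2 := by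
        have h6 : L.idxOf w2 < L.length := List.idxOf_lt_length_of_mem (hNy w2 hw2)
        have h5 : L[L.idxOf w2] = w2 := List.getElem_idxOf h6
        simp only [hi2] at h5
        exact h5
      obtain ⟨C, hCp, hCc, hCh, z, hCl, hzx⟩ := EG1_tour hL i hlt
        (by rw [e1]; exact (Finset.mem_filter.1 hw1).2)
        (by rw [e2]; exact (Finset.mem_filter.1 hw2).2.symm)
      -- a vertex outside
      have hex : ∃ c ∈ S, c ∉ L.toFinset ∧ c ∉ (∅ : Finset V) := by
        by_contra hc
        push Not at hc
        have h5 : S ⊆ L.toFinset := by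
          intro c hcS
          by_contra h6
          exact absurd (hc c hcS h6) (Finset.notMem_empty c)
        have h6 := Finset.card_le_card h5
        rw [List.toFinset_card_of_nodup hL.2.1] at h6
        omega
      obtain ⟨a, ha, c, hcS, hcL, _, hac⟩ := hconn ∅ L.toFinset (by simp)
        (fun v hv => hLS v (List.mem_toFinset.1 hv))
        ⟨x, List.mem_toFinset.2 hL.left_mem⟩ (Finset.disjoint_empty_right _) hex
      have haC : a ∈ C := hCp.mem_iff.2 (List.mem_toFinset.1 ha)
      have hcC : c ∉ C := fun h5 => hcL (List.mem_toFinset.2 (hCp.mem_iff.1 h5))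
      obtain ⟨C1, C2, hCs⟩ := List.append_of_mem haC
      have hperm : ((a :: C2) ++ C1).Perm C := by
        rw [hCs]
        exact List.perm_append_comm
      have hCn : C.Nodup := hCp.nodup_iff.2 hL.2.1
      have hchain : ((a :: C2) ++ C1).IsChain G.Adj := by
        rw [hCs, List.isChain_append] at hCc
        rw [List.isChain_append]
        refine ⟨hCc.2.1, hCc.1, ?_⟩
        intro u hu v hv
        have e3 : (a :: C2).getLast? = some z := by
          rw [hCs, List.getLast?_append] at hCl
          have h5 : ((a :: C2).getLast?).isSome := by simp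
          obtain ⟨q, hq⟩ := Option.isSome_iff_exists.1 h5
          rw [hq] at hCl ⊢
          simpa using hCl
        have e4 : v = x := by
          cases C1 with
          | nil => simp at hv
          | cons q C1 =>
            rw [hCs] at hCh
            simp at hv hCh
            rw [← hv, hCh]
        rw [e3] at hu
        simp at hu
        rw [← hu, e4]
        exact hzx
      have hne : (c :: ((a :: C2) ++ C1)) ≠ [] := List.cons_ne_nil _ _
      refine ⟨c, (c :: ((a :: C2) ++ C1)).getLast hne, c :: ((a :: C2) ++ C1),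
        ⟨?_, ?_, rfl, List.getLast?_eq_some_getLast hne⟩, ?_, ?_⟩
      · rw [List.cons_append, List.isChain_cons_cons, ← List.cons_append]
        exact ⟨hac.symm, hchain⟩
      · rw [List.nodup_cons]
        exact ⟨fun h5 => hcC (hperm.mem_iff.1 h5), hperm.nodup_iff.2 hCn⟩
      · rw [List.length_cons, hperm.length_eq, hCp.length_eq]
      · intro v hv
        rcases List.mem_cons.1 hv with rfl | hv
        · exact hcS
        · exact hLS v (hCp.mem_iff.1 (hperm.mem_iff.1 hv))

/-- Dirac's argument.  `S` connected (`Conn G S 0`), all degrees inside `S` at least `δ`, and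
`|S| > l` where `l ≤ 2 δ`, `1 ≤ l`: there is a path inside `S` with `l + 1` vertices.
PROOF. Take a path `P = v_0 … v_m` inside `S` with the maximal number `m + 1` of vertices, suppose
`m < l`.  All neighbours in `S` of `v_0` and of `v_m` are on `P`.  The sets
`I = {i < m : v_0 ~ v_(i+1)}` and `J = {i < m : v_i ~ v_m}` have at least `δ` elements each, and
`m < l ≤ 2 δ`, so there is `i < m` in both.  Then `v_0 v_1 … v_i v_m v_(m-1) … v_(i+1) v_0` is a closed
tour through all vertices of `P` (if `m ≥ 2`; for `m = 0`, `1` the claim below is also clear, or note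
`m ≥ δ ≥ 1`).  As `|S| ≥ l + 1 > m + 1` there is a vertex of `S` not on `P`, and as `S` is connected
there is `w ∈ S ∖ P` adjacent to some `v_j`.  Cutting the tour next to `v_j` gives a path with
`m + 2` vertices: contradiction.  (In lists: rotate the closed list so that it starts in `v_j`, then
put `w` in front.)  Finally shorten the path to `l + 1` vertices. -/
theorem dirac_path (G : SimpleGraph V) (S : Finset V) (hconn : Conn G S 0) (δ l : ℕ)
    (hδ : ∀ v ∈ S, δ ≤ dg G S v) (h1 : 1 ≤ l) (hl : l ≤ 2 * δ) (hS : l + 1 ≤ S.card) :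
    ∃ x y L, PathL G x y L ∧ L.length = l + 1 ∧ ∀ v ∈ L, v ∈ S := by
  have key : ∀ n, n ≤ l → ∃ x y L, PathL G x y L ∧ L.length = n + 1 ∧ ∀ v ∈ L, v ∈ S := by
    intro n
    induction n with
    | zero =>
      intro _
      have h2 : 0 < S.card := by omega
      obtain ⟨x, hx⟩ := Finset.card_pos.1 h2
      refine ⟨x, x, [x], ⟨List.IsChain.singleton x, List.nodup_singleton x, rfl, rfl⟩, rfl, ?_⟩
      intro v hv
      rw [List.mem_singleton] at hv
      subst hv
      exact hx
    | succ n ih =>
      intro hn
      obtain ⟨x, y, L, hL, hLn, hLS⟩ := ih (by omega)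
      obtain ⟨x', y', L', hL', hLn', hLS'⟩ := EG1_step G S hconn δ l hδ h1 hl hS x y L hL hLS
        (by omega)
      exact ⟨x', y', L', hL', by omega, hLS'⟩
  exact key l le_rfl

/- MODULE EG2 -/
/-- ERDŐS–GALLAI.  `2 e(R) > (l-1) |R|` implies a path with `l + 1` vertices.
PROOF. `potential` with `t = 0`, `B = l - 1` gives a connected `S` with `vol S > (l-1) |S|` and
`2 dg(v) > l - 1`, that is `2 dg(v) ≥ l`, for all `v ∈ S`.  As `vol S ≤ |S| (|S| - 1)` we get
`|S| - 1 > l - 1`, so `|S| ≥ l + 1`.  `dirac_path` with `δ = ⌈l/2⌉ = (l + 1) / 2`. -/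
theorem eg_path [Fintype V] (G : SimpleGraph V) (l : ℕ) (hl : 1 ≤ l)
    (h : (l - 1) * Fintype.card V < vol G Finset.univ) :
    ∃ x y L, PathL G x y L ∧ L.length = l + 1 := by
  have hV : 1 ≤ (Finset.univ : Finset V).card := by
    rw [Nat.one_le_iff_ne_zero, Finset.card_univ]
    intro h0
    have h2 : vol G Finset.univ ≤ (Finset.univ : Finset V).card * _ := vol_le G Finset.univ
    rw [Finset.card_univ, h0, zero_mul] at h2
    omega
  have hl' : ((l - 1 : ℕ) : ℝ) = (l : ℝ) - 1 := by
    rw [Nat.cast_sub hl, Nat.cast_one]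
  have hl0 : (1 : ℝ) ≤ (l : ℝ) := by exact_mod_cast hl
  have h' : ((l : ℝ) - 1) * (((Finset.univ : Finset V).card : ℝ) - (0 : ℕ)) <
      (vol G Finset.univ : ℝ) := by
    rw [Finset.card_univ, ← hl', Nat.cast_zero, sub_zero]
    exact_mod_cast h
  obtain ⟨S, _, hSB, hdeg, _, hconn⟩ := potential G Finset.univ ((l : ℝ) - 1) 0
    (by rw [Nat.cast_zero]; linarith) (by rw [Nat.cast_zero]; linarith) (by omega) h'
  have hcard : l + 1 ≤ S.card := by
    have h2 := vol_le G S
    have h3 : (vol G S : ℝ) ≤ (S.card : ℝ) * ((S.card - 1 : ℕ) : ℝ) := by exact_mod_cast h2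
    rw [Nat.cast_zero, sub_zero, ← hl'] at hSB
    have h4 : ((l - 1 : ℕ) : ℝ) * (S.card : ℝ) < (S.card : ℝ) * ((S.card - 1 : ℕ) : ℝ) :=
      lt_of_lt_of_le hSB h3
    have h5 : (l - 1) * S.card < S.card * (S.card - 1) := by exact_mod_cast h4
    rw [mul_comm] at h5
    have h6 : l - 1 < S.card - 1 := lt_of_mul_lt_mul_left h5 (Nat.zero_le _)
    omega
  have hdeg' : ∀ v ∈ S, (l + 1) / 2 ≤ dg G S v := by
    intro v hv
    have h2 := hdeg v hv
    have h3 : (l : ℝ) < ((2 * dg G S v + 1 : ℕ) : ℝ) := by
      push_cast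
      linarith
    have h4 : l < 2 * dg G S v + 1 := by exact_mod_cast h3
    omega
  obtain ⟨x, y, L, hL, hLl, _⟩ := dirac_path G S hconn ((l + 1) / 2) l hdeg' hl (by omega) hcard
  exact ⟨x, y, L, hL, hLl⟩

private theorem EG2_take {G : SimpleGraph V} {x y : V} {l : List V} (h : PathL G x y l) (p : ℕ)
    (hp : 1 ≤ p) (hpl : p ≤ l.length) : ∃ z, PathL G x z (l.take p) ∧ (l.take p).length = p := by
  obtain ⟨h1, h2, h3, h4⟩ := h
  have hlt : p - 1 < l.length := by omega
  refine ⟨l[p - 1], ⟨h1.take p, h2.sublist (List.take_sublist p l), ?_, ?_⟩, ?_⟩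
  · rw [List.head?_eq_getElem?] at h3 ⊢
    rw [List.getElem?_take_of_lt (by omega)]
    exact h3
  · rw [List.getLast?_eq_getElem?, List.length_take, min_eq_left hpl,
      List.getElem?_take_of_lt (by omega)]
    exact List.getElem?_eq_getElem (by omega)
  · rw [List.length_take, min_eq_left hpl]

/-- PROOF. Let `v = vol R univ > 0`, `r = |R| > 0`, `l = ⌈v / r⌉ = (v + r - 1) / r`, so that
`(l - 1) r < v ≤ l r`.  `eg_path` gives a path with `l + 1` vertices; let `2 q` be the even one of
`l`, `l + 1` (`q ≥ 1`); take the first `2 q` vertices.  `v ≤ l r ≤ 2 q r`. -/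
theorem even_path [Fintype V] (G : SimpleGraph V) (hv : 0 < vol G Finset.univ) :
    ∃ q : ℕ, 1 ≤ q ∧ (∃ x y L, PathL G x y L ∧ L.length = 2 * q) ∧
      vol G Finset.univ ≤ 2 * q * Fintype.card V := by
  obtain ⟨v, hvd⟩ : ∃ v, v = vol G Finset.univ := ⟨_, rfl⟩
  obtain ⟨r, hrd⟩ : ∃ r, r = Fintype.card V := ⟨_, rfl⟩
  rw [← hvd] at hv ⊢
  rw [← hrd]
  have hr : 0 < r := by
    rw [Nat.pos_iff_ne_zero]
    intro h0
    have h2 : vol G Finset.univ ≤ (Finset.univ : Finset V).card * _ := vol_le G Finset.univ
    rw [Finset.card_univ, ← hrd, h0, zero_mul] at h2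
    omega
  obtain ⟨l, hl⟩ : ∃ l, l = (v + r - 1) / r := ⟨_, rfl⟩
  have h1 : l * r ≤ v + r - 1 := by
    rw [hl]
    exact Nat.div_mul_le_self _ _
  have h2 : v + r - 1 < (l + 1) * r := by
    rw [hl]
    have := Nat.lt_div_mul_add (a := v + r - 1) hr
    rw [add_mul, one_mul]
    exact this
  have h2' : v + r - 1 < l * r + r := by
    rw [add_mul, one_mul] at h2
    exact h2
  have hvl : v ≤ l * r := by omega
  have hl1 : 1 ≤ l := by
    by_contra hc
    have h3 : l = 0 := by omega
    rw [h3, zero_mul] at hvl
    omega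
  have h3 : (l - 1) * r < v := by
    rw [Nat.sub_mul, one_mul]
    omega
  obtain ⟨x, y, L, hL, hLl⟩ := eg_path G l hl1 (by rw [← hrd, ← hvd]; exact h3)
  obtain ⟨q, hq⟩ : ∃ q, q = (l + 1) / 2 := ⟨_, rfl⟩
  obtain ⟨z, hz1, hz2⟩ := EG2_take hL (2 * q) (by omega) (by omega)
  refine ⟨q, by omega, ⟨x, z, _, hz1, hz2⟩, ?_⟩
  have h4 : l ≤ 2 * q := by omega
  exact hvl.trans (Nat.mul_le_mul_right r h4)

end TurMod
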