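import Pool.Agent.TurMod.Defs

/-!
# The regularity lemma in the form needed
-/

namespace TurMod

open Finset

universe u

/- MODULE RG1 -/
private theorem RG1_inter {V : Type u} [DecidableEq V] (G : SimpleGraph V)
    [DecidableRel G.Adj] (A B : Finset V) :
    (G.interedges A B).card = ∑ x ∈ A, dg G B x := by
  have h1 : G.interedges A B = (A ×ˢ B).filter fun e => G.Adj e.1 e.2 := rfl
  rw [h1, Finset.card_filter, Finset.sum_product]
  refine Finset.sum_congr rfl fun x _ => ?_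
  have h2 : (∑ w ∈ B, if G.Adj x w then 1 else 0) = (B.filter fun w => G.Adj x w).card :=
    (Finset.card_filter _ _).symm
  refine h2.trans ?_
  unfold dg
  congr 1
  ext w
  simp only [Finset.mem_filter]

/-- An `ε₁`-uniform pair of density at least `κ/16` (`ε₁ ≤ κ/32`) has the property `typ`.
PROOF. Suppose all `x ∈ A` have fewer than `(κ/32) |B|` neighbours in `B`.  Then the number of edges
between `A` and `B` is `< (κ/32) |A| |B|`, the edge density of `(A, B)` is `< κ/32`, but by uniformity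
(`|A| ≥ s ≥ ε₁ |U|`, `|B| ≥ s ≥ ε₁ |W|`) it is `≥ density (U, W) - ε₁ ≥ κ/16 - κ/32`.
(`SimpleGraph.IsUniform`, `SimpleGraph.edgeDensity_def`, `Rel.interedges`.) -/
theorem typ_of_uniform {V : Type u} [Fintype V] [DecidableEq V] (G : SimpleGraph V)
    [DecidableRel G.Adj] (κ ε₁ : ℝ) (hκ : 0 < κ) (hε : 0 < ε₁) (h32 : ε₁ ≤ κ / 32)
    (U W : Finset V) (hU : G.IsUniform ε₁ U W) (hd : κ / 16 ≤ (G.edgeDensity U W : ℝ))
    (A B : Finset V) (hA : A ⊆ U) (hB : B ⊆ W) (hA0 : A.Nonempty) (hB0 : B.Nonempty)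
    (hAs : (U.card : ℝ) * ε₁ ≤ A.card) (hBs : (W.card : ℝ) * ε₁ ≤ B.card) :
    ∃ x ∈ A, κ / 32 * (B.card : ℝ) ≤ (dg G B x : ℝ) := by
  by_contra hcon
  push Not at hcon
  have hA1 : (0 : ℝ) < (A.card : ℝ) := by exact_mod_cast Finset.card_pos.2 hA0
  have hB1 : (0 : ℝ) < (B.card : ℝ) := by exact_mod_cast Finset.card_pos.2 hB0
  have h1 : ((G.interedges A B).card : ℝ) < κ / 32 * ((A.card : ℝ) * (B.card : ℝ)) := by
    rw [RG1_inter, Nat.cast_sum]
    have h2 := Finset.sum_lt_sum_of_nonempty hA0 hcon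
    rw [Finset.sum_const, nsmul_eq_mul] at h2
    calc _ < _ := h2
      _ = _ := by ring
  have h2 : (G.edgeDensity A B : ℝ) < κ / 32 := by
    rw [SimpleGraph.edgeDensity_def]
    push_cast
    rw [div_lt_iff₀ (mul_pos hA1 hB1)]
    exact h1
  have h3 := hU hA hB hAs hBs
  have h4 := (abs_lt.1 h3).1
  linarith

/- MODULE RG2 -/
private theorem RG2_vol {V : Type u} [Fintype V] [DecidableEq V] (G : SimpleGraph V)
    [DecidableRel G.Adj] : vol G Finset.univ =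
      (((Finset.univ : Finset V) ×ˢ (Finset.univ : Finset V)).filter
        fun e => G.Adj e.1 e.2).card := by
  unfold vol
  rw [Finset.card_filter, Finset.sum_product]
  refine Finset.sum_congr rfl fun x _ => ?_
  have h2 : (∑ w : V, if G.Adj x w then 1 else 0) =
      (Finset.univ.filter fun w => G.Adj x w).card := (Finset.card_filter _ _).symm
  refine Eq.trans ?_ h2.symm
  unfold dg
  congr 1
  ext w
  simp only [Finset.mem_filter]

/-- Counting the edges outside the good pairs.  `P` an equipartition of the vertex set,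
`ε₁`-uniform, with at least `16/κ` parts; `ε₁ ≤ κ/32`.  All but at most `(κ/2) n²` ordered
adjacent pairs lie between two different parts which form an `ε₁`-uniform pair of density `≥ κ/16`.
PROOF. As in `Mathlib/Combinatorics/SimpleGraph/Triangle/Removal.lean`
(`regularityReduced_edges_card_aux`) and `unreduced_edges_subset`: a bad pair is inside a part
(`IsEquipartition.card_biUnion_offDiag_le` with `ε = κ/4`: at most `κ/8 n²`), or between two parts
that are not `ε₁`-uniform (`IsEquipartition.sum_nonUniforms_lt`: `< 4 ε₁ n² ≤ κ/8 n²`), or between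
two parts of density `< κ/16` (`IsEquipartition.card_interedges_sparsePairs_le`: `≤ κ/4 n²`).
The sum is at most `κ/2 n²`. -/
theorem bad_pairs {V : Type u} [Fintype V] [DecidableEq V] [Nonempty V] (G : SimpleGraph V)
    [DecidableRel G.Adj] (κ ε₁ : ℝ) (hκ : 0 < κ) (hε : 0 < ε₁) (h32 : ε₁ ≤ κ / 32)
    (P : Finpartition (Finset.univ : Finset V)) (hP : P.IsEquipartition)
    (hu : P.IsUniform G ε₁) (hk : 16 / κ ≤ (P.parts.card : ℝ)) :
    (vol G Finset.univ : ℝ) ≤ κ / 2 * (Fintype.card V : ℝ) ^ 2 +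
      ∑ UW ∈ P.parts.offDiag, (if G.IsUniform ε₁ UW.1 UW.2 ∧ κ / 16 ≤ (G.edgeDensity UW.1 UW.2 : ℝ)
        then ((UW.1.card : ℝ) * UW.2.card) else 0) := by
  classical
  have hcard : ((Finset.univ : Finset V).card : ℝ) = (Fintype.card V : ℝ) := by
    rw [Finset.card_univ]
  have bA := hP.sum_nonUniforms_lt (G := G) Finset.univ_nonempty hε hu
  have bB := hP.card_biUnion_offDiag_le (ε := κ / 4) (by positivity) (by
    have h1 : (4 : ℝ) / (κ / 4) = 16 / κ := by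
      field_simp
      norm_num
    rw [h1]
    exact hk)
  have bC := hP.card_interedges_sparsePairs_le (G := G) (ε := κ / 16) (by positivity)
  rw [hcard] at bA bB bC
  have hsub : ((Finset.univ : Finset V) ×ˢ (Finset.univ : Finset V)).filter
      (fun e => G.Adj e.1 e.2) ⊆
      (((P.nonUniforms G ε₁).biUnion fun (U, V) ↦ U ×ˢ V) ∪ (P.parts.biUnion Finset.offDiag) ∪
        ((P.sparsePairs G (κ / 16)).biUnion fun (U, V) ↦ G.interedges U V)) ∪
      ((P.parts.offDiag.filter fun UW => G.IsUniform ε₁ UW.1 UW.2 ∧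
        κ / 16 ≤ (G.edgeDensity UW.1 UW.2 : ℝ)).biUnion fun UW => UW.1 ×ˢ UW.2) := by
    rintro ⟨x, y⟩ hxy
    rw [Finset.mem_filter] at hxy
    obtain ⟨U, hU, hxU⟩ := P.exists_mem (Finset.mem_univ x)
    obtain ⟨W, hW, hyW⟩ := P.exists_mem (Finset.mem_univ y)
    by_cases hUW : U = W
    · subst hUW
      apply Finset.mem_union_left
      apply Finset.mem_union_left
      apply Finset.mem_union_right
      rw [Finset.mem_biUnion]
      exact ⟨U, hU, Finset.mem_offDiag.2 ⟨hxU, hyW, fun h => G.irrefl (h ▸ hxy.2)⟩⟩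
    · by_cases h1 : G.IsUniform ε₁ U W
      · by_cases h2 : κ / 16 ≤ (G.edgeDensity U W : ℝ)
        · apply Finset.mem_union_right
          rw [Finset.mem_biUnion]
          exact ⟨(U, W), Finset.mem_filter.2 ⟨Finset.mem_offDiag.2 ⟨hU, hW, hUW⟩, h1, h2⟩,
            Finset.mem_product.2 ⟨hxU, hyW⟩⟩
        · apply Finset.mem_union_left
          apply Finset.mem_union_right
          rw [Finset.mem_biUnion]
          refine ⟨(U, W), (P.mk_mem_sparsePairs G U W (κ / 16)).2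
            ⟨hU, hW, hUW, not_le.1 h2⟩, ?_⟩
          exact Rel.mk_mem_interedges_iff.2 ⟨hxU, hyW, hxy.2⟩
      · apply Finset.mem_union_left
        apply Finset.mem_union_left
        apply Finset.mem_union_left
        rw [Finset.mem_biUnion]
        exact ⟨(U, W), P.mk_mem_nonUniforms (G := G).2 ⟨hU, hW, hUW, h1⟩,
          Finset.mem_product.2 ⟨hxU, hyW⟩⟩
  have h1 := (Finset.card_le_card hsub).trans ((Finset.card_union_le _ _).trans
    (Nat.add_le_add_right ((Finset.card_union_le _ _).trans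
      (Nat.add_le_add_right (Finset.card_union_le _ _) _)) _))
  have h2 : (((P.parts.offDiag.filter fun UW => G.IsUniform ε₁ UW.1 UW.2 ∧
      κ / 16 ≤ (G.edgeDensity UW.1 UW.2 : ℝ)).biUnion fun UW => UW.1 ×ˢ UW.2).card : ℝ) ≤
      ∑ UW ∈ P.parts.offDiag, (if G.IsUniform ε₁ UW.1 UW.2 ∧
        κ / 16 ≤ (G.edgeDensity UW.1 UW.2 : ℝ)
        then ((UW.1.card : ℝ) * UW.2.card) else 0) := by
    rw [← Finset.sum_filter]
    refine (Nat.cast_le.2 Finset.card_biUnion_le).trans ?_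
    rw [Nat.cast_sum]
    refine Finset.sum_le_sum fun UW _ => ?_
    rw [Finset.card_product, Nat.cast_mul]
  rw [RG2_vol]
  have h3 : ((((Finset.univ : Finset V) ×ˢ (Finset.univ : Finset V)).filter
      (fun e => G.Adj e.1 e.2)).card : ℝ) ≤ _ := Nat.cast_le.2 h1
  push_cast at h3
  have h4 : 4 * ε₁ * (Fintype.card V : ℝ) ^ 2 ≤ κ / 8 * (Fintype.card V : ℝ) ^ 2 := by
    have : (0 : ℝ) ≤ (Fintype.card V : ℝ) ^ 2 := by positivity
    nlinarith
  refine le_trans h3 ?_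
  have h5 : κ / 2 * (Fintype.card V : ℝ) ^ 2 = κ / 8 * (Fintype.card V : ℝ) ^ 2 +
      κ / 4 / 2 * (Fintype.card V : ℝ) ^ 2 + 4 * (κ / 16) * (Fintype.card V : ℝ) ^ 2 := by ring
  rw [h5]
  exact add_le_add (add_le_add (add_le_add (bA.le.trans h4) bB) bC) h2

/- MODULE RG3 -/
private theorem RG3_const (κ σ : ℝ) (hκ : 0 < κ) (hσ : 0 < σ) (l0 : ℕ) :
    ∃ (ε₁ : ℝ) (l M : ℕ), 0 < ε₁ ∧ ε₁ ≤ κ / 32 ∧ ε₁ ≤ σ / 4 ∧ l0 ≤ l ∧ 16 / κ ≤ (l : ℝ) ∧ 1 ≤ l ∧
      l ≤ M ∧ SzemerediRegularity.bound ε₁ l ≤ M ∧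
      6 * (SzemerediRegularity.bound ε₁ l : ℝ) / κ ≤ (M : ℝ) ∧
      (SzemerediRegularity.bound ε₁ l : ℝ) * (2 + 4 / σ) ≤ (M : ℝ) := by
  obtain ⟨ε₁, hε₁⟩ : ∃ ε₁, ε₁ = min (κ / 32) (σ / 4) := ⟨_, rfl⟩
  obtain ⟨l, hl⟩ : ∃ l, l = max (max l0 ⌈16 / κ⌉₊) 1 := ⟨_, rfl⟩
  obtain ⟨M0, hM0⟩ : ∃ M0, M0 = SzemerediRegularity.bound ε₁ l := ⟨_, rfl⟩
  refine ⟨ε₁, l, M0 + l + ⌈6 * (M0 : ℝ) / κ⌉₊ + ⌈(M0 : ℝ) * (2 + 4 / σ)⌉₊, ?_, ?_, ?_, ?_, ?_, ?_,
    ?_, ?_, ?_, ?_⟩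
  · rw [hε₁]
    positivity
  · rw [hε₁]
    exact min_le_left _ _
  · rw [hε₁]
    exact min_le_right _ _
  · rw [hl]
    exact (le_max_left _ _).trans (le_max_left _ _)
  · have h1 : ⌈16 / κ⌉₊ ≤ l := by
      rw [hl]
      exact (le_max_right _ _).trans (le_max_left _ _)
    exact (Nat.le_ceil _).trans (by exact_mod_cast h1)
  · rw [hl]
    exact le_max_right _ _
  · omega
  · rw [← hM0]
    omega
  · rw [← hM0]
    refine (Nat.le_ceil _).trans ?_
    push_cast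
    have h1 : (0 : ℝ) ≤ (M0 : ℝ) := Nat.cast_nonneg _
    have h2 : (0 : ℝ) ≤ (l : ℝ) := Nat.cast_nonneg _
    have h3 : (0 : ℝ) ≤ ((⌈(M0 : ℝ) * (2 + 4 / σ)⌉₊ : ℕ) : ℝ) := Nat.cast_nonneg _
    linarith
  · rw [← hM0]
    refine (Nat.le_ceil _).trans ?_
    push_cast
    have h1 : (0 : ℝ) ≤ (M0 : ℝ) := Nat.cast_nonneg _
    have h2 : (0 : ℝ) ≤ (l : ℝ) := Nat.cast_nonneg _
    have h3 : (0 : ℝ) ≤ ((⌈6 * (M0 : ℝ) / κ⌉₊ : ℕ) : ℝ) := Nat.cast_nonneg _
    linarith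

private theorem RG3_N (σ ε₁ : ℝ) (hσ : 0 < σ) (hε : 0 < ε₁) (hεσ : ε₁ ≤ σ / 4) (n r M0 : ℕ)
    (hr : 1 ≤ r) (hrM : r ≤ M0) (hn : (M0 : ℝ) * (2 + 4 / σ) ≤ (n : ℝ)) :
    (1 : ℝ) ≤ ((n / r : ℕ) : ℝ) ∧ ((⌈ε₁ * (((n / r : ℕ) : ℝ) + 1)⌉₊ : ℕ) : ℝ) ≤
      σ * ((n / r : ℕ) : ℝ) := by
  have hr0 : (0 : ℝ) < (r : ℝ) := by exact_mod_cast hr
  have h1 : (r : ℝ) * (2 + 4 / σ) ≤ (n : ℝ) := by
    refine le_trans ?_ hn
    have : (r : ℝ) ≤ (M0 : ℝ) := by exact_mod_cast hrM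
    gcongr
  have h2 : n < r * (n / r) + r := Nat.lt_mul_div_succ n hr
  have h3 : (n : ℝ) < (r : ℝ) * ((n / r : ℕ) : ℝ) + (r : ℝ) := by exact_mod_cast h2
  have h4 : (r : ℝ) * (2 + 4 / σ) < (r : ℝ) * (((n / r : ℕ) : ℝ) + 1) := by
    calc _ ≤ _ := h1
      _ < _ := h3
      _ = _ := by ring
  have h5 : 2 + 4 / σ < ((n / r : ℕ) : ℝ) + 1 := lt_of_mul_lt_mul_left h4 hr0.le
  have h6 : 0 < 4 / σ := by positivity
  have h7 : σ * (4 / σ) = 4 := by field_simp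
  refine ⟨by linarith, ?_⟩
  have h8 := (Nat.ceil_lt_add_one (a := ε₁ * (((n / r : ℕ) : ℝ) + 1)) (by positivity)).le
  refine h8.trans ?_
  have h9 : ε₁ * (((n / r : ℕ) : ℝ) + 1) ≤ σ / 4 * (((n / r : ℕ) : ℝ) + 1) := by gcongr
  have h10 : σ * (1 + 4 / σ) ≤ σ * ((n / r : ℕ) : ℝ) := by
    have : 1 + 4 / σ ≤ ((n / r : ℕ) : ℝ) := by linarith
    gcongr
  rw [mul_add, h7] at h10
  nlinarith

/-- REGULARITY INTERFACE.
PROOF. Let `ε₁ = min (κ/32) (σ/4)`, `l = max l0 ⌈16/κ⌉ (≥ 1)`, `M0 = SzemerediRegularity.bound ε₁ l`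
and `M` large: `M ≥ M0`, `M ≥ l`, `M ≥ 6 M0 / κ` and such that `N ≥ M / M0 - 1` satisfies
`N ≥ 1` and `ε₁ (N + 1) + 1 ≤ σ N` (e.g. `M ≥ M0 (2 + 4/σ)`: then `N ≥ 1 + 4/σ`, and
`ε₁ (N+1) + 1 ≤ σ/4 (N + 1) + 1 ≤ σ N` because `σ N ≥ σ + 4`...: check: `σ N - σ/4 (N+1) =
(3/4) σ N - σ/4 ≥ (3/4)(σ + 4) - σ/4 ≥ 1`).  If `n = |V| ≥ M` take the partition `P` of
`szemeredi_regularity` with `r = |P.parts| ∈ [l, M0]` parts and enumerate the parts by `Fin r`.  Each
part has `N` or `N + 1` elements with `N = n / r`; let `X i` be a subset with exactly `N` elements.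
`s = ⌈ε₁ (N + 1)⌉` (at least one, `≤ σ N`).  `R`: `i ~ j` iff `i ≠ j` and the parts form an
`ε₁`-uniform pair of density `≥ κ/16` (both conditions are symmetric:
`SimpleGraph.IsUniform.symm`, `edgeDensity_comm`).  `Clus`: disjointness of parts; `d = κ/32 ≤ 1`;
`typ` is `typ_of_uniform`.  By `bad_pairs`,
`vol G ≤ κ/2 n² + vol R · (N+1)²` (each good ordered pair of parts contributes at most `(N+1)²`),
and `vol R · ((N+1)² - N²) ≤ r² (2 N + 1) ≤ 3 r² N ≤ 3 r n ≤ 3 M0 n ≤ κ/2 n²`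
since `n ≥ M ≥ 6 M0 / κ`. -/
theorem reg (κ σ : ℝ) (hκ : 0 < κ) (hκ1 : κ ≤ 1) (hσ : 0 < σ) (l0 : ℕ) :
    ∃ M : ℕ, ∀ (V : Type u) [Fintype V] (G : SimpleGraph V), M ≤ Fintype.card V →
      ∃ r : ℕ, l0 ≤ r ∧ 1 ≤ r ∧ r ≤ M ∧ ∃ (X : Fin r → Finset V) (R : SimpleGraph (Fin r)) (N s : ℕ),
        N = Fintype.card V / r ∧ (s : ℝ) ≤ σ * N ∧ Clus G R X N s (κ / 32) ∧
        (vol G Finset.univ : ℝ) ≤ (vol R Finset.univ : ℝ) * (N : ℝ) ^ 2 +
          κ * (Fintype.card V : ℝ) ^ 2 := by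
  obtain ⟨ε₁, l, M, hε, hεκ, hεσ, hl0, hlκ, hl1, hlM, hbM, hM6, hMσ⟩ := RG3_const κ σ hκ hσ l0
  refine ⟨M, ?_⟩
  intro V _ G hM
  classical
  obtain ⟨P, hP, hPl, hPb, hPu⟩ := szemeredi_regularity G hε (hlM.trans hM)
  obtain ⟨r, hr⟩ : ∃ r, r = P.parts.card := ⟨_, rfl⟩
  obtain ⟨n, hn⟩ : ∃ n, n = Fintype.card V := ⟨_, rfl⟩
  rw [← hr] at hPl hPb
  rw [← hn] at hM
  have hr1 : 1 ≤ r := hl1.trans hPl
  have hMn : (M : ℝ) ≤ (n : ℝ) := by exact_mod_cast hM
  obtain ⟨hN1, hsσ⟩ := RG3_N σ ε₁ hσ hε hεσ n r _ hr1 hPb (hMσ.trans hMn)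
  have hne : Nonempty V := by
    rw [← Fintype.card_pos_iff, ← hn]
    omega
  -- the parts
  have eq : Fin r ≃ P.parts := (finCongr hr).trans P.parts.equivFin.symm
  have hpart : ∀ i, (eq i : Finset V) ∈ P.parts := fun i => (eq i).2
  have hinj : ∀ i j, (eq i : Finset V) = (eq j : Finset V) → i = j := fun i j h =>
    eq.injective (Subtype.ext h)
  have hlow : ∀ i, n / r ≤ (eq i : Finset V).card := by
    intro i
    have h1 := hP.average_le_card_part (hpart i)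
    rw [Finset.card_univ, ← hn, ← hr] at h1
    exact h1
  have hup : ∀ i, (eq i : Finset V).card ≤ n / r + 1 := by
    intro i
    have h1 := hP.card_part_le_average_add_one (hpart i)
    rw [Finset.card_univ, ← hn, ← hr] at h1
    exact h1
  choose X hX hXc using fun i => Finset.exists_subset_card_eq (hlow i)
  let R : SimpleGraph (Fin r) :=
    { Adj := fun i j => i ≠ j ∧ G.IsUniform ε₁ (eq i : Finset V) (eq j : Finset V) ∧
        κ / 16 ≤ (G.edgeDensity (eq i : Finset V) (eq j : Finset V) : ℝ)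
      symm := ⟨fun i j h => ⟨h.1.symm, h.2.1.symm, by
        rw [SimpleGraph.edgeDensity_comm]
        exact h.2.2⟩⟩
      loopless := ⟨fun i h => h.1 rfl⟩ }
  obtain ⟨s, hs⟩ : ∃ s, s = ⌈ε₁ * (((n / r : ℕ) : ℝ) + 1)⌉₊ := ⟨_, rfl⟩
  have hs1 : 1 ≤ s := by
    rw [hs, Nat.one_le_ceil_iff]
    positivity
  have hsle : ∀ i, ((eq i : Finset V).card : ℝ) * ε₁ ≤ (s : ℝ) := by
    intro i
    have h1 : ((eq i : Finset V).card : ℝ) ≤ ((n / r : ℕ) : ℝ) + 1 := by exact_mod_cast hup i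
    calc _ ≤ (((n / r : ℕ) : ℝ) + 1) * ε₁ := by gcongr
      _ = ε₁ * (((n / r : ℕ) : ℝ) + 1) := mul_comm _ _
      _ ≤ _ := by
        rw [hs]
        exact Nat.le_ceil _
  refine ⟨r, hl0.trans hPl, hr1, hPb.trans hbM, X, R, n / r, s, by rw [hn], by rw [hs]; exact hsσ,
    ⟨?_, hXc, hs1, by positivity, by linarith, ?_⟩, ?_⟩
  · intro a b hab
    have h1 : Disjoint (eq a : Finset V) (eq b : Finset V) :=
      P.disjoint (hpart a) (hpart b) (fun h => hab (hinj a b h))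
    exact Finset.disjoint_of_subset_left (hX a) (Finset.disjoint_of_subset_right (hX b) h1)
  · intro a b hab B hB hsB A hA hsA
    have hsA' : (s : ℝ) ≤ (A.card : ℝ) := by exact_mod_cast hsA
    have hsB' : (s : ℝ) ≤ (B.card : ℝ) := by exact_mod_cast hsB
    exact typ_of_uniform G κ ε₁ hκ hε hεκ _ _ hab.2.1 hab.2.2 A B (hA.trans (hX a))
      (hB.trans (hX b)) (Finset.card_pos.1 (by omega)) (Finset.card_pos.1 (by omega))
      ((hsle a).trans hsA') ((hsle b).trans hsB')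
  · have hbad := bad_pairs G κ ε₁ hκ hε hεκ P hP hPu (by
      rw [← hr]
      exact hlκ.trans (by exact_mod_cast hPl))
    rw [← hn] at hbad ⊢
    -- the number of good pairs
    have hcount : (P.parts.offDiag.filter fun UW => G.IsUniform ε₁ UW.1 UW.2 ∧
        κ / 16 ≤ (G.edgeDensity UW.1 UW.2 : ℝ)).card ≤ vol R Finset.univ := by
      rw [RG2_vol R]
      refine le_trans (Finset.card_le_card ?_)
        (Finset.card_image_le (f := fun ij : Fin r × Fin r =>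
          ((eq ij.1 : Finset V), (eq ij.2 : Finset V))))
      rintro ⟨U, W⟩ hUW
      rw [Finset.mem_filter, Finset.mem_offDiag] at hUW
      obtain ⟨⟨hU, hW, hne⟩, h1, h2⟩ := hUW
      rw [Finset.mem_image]
      refine ⟨(eq.symm ⟨U, hU⟩, eq.symm ⟨W, hW⟩), ?_, ?_⟩
      · rw [Finset.mem_filter]
        refine ⟨Finset.mem_product.2 ⟨Finset.mem_univ _, Finset.mem_univ _⟩, ?_, ?_, ?_⟩
        · intro h3
          have h4 := eq.symm.injective h3
          exact hne (congrArg Subtype.val h4)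
        · simp only [Equiv.apply_symm_apply]
          exact h1
        · simp only [Equiv.apply_symm_apply]
          exact h2
      · simp only [Equiv.apply_symm_apply]
    have hsum : ∑ UW ∈ P.parts.offDiag, (if G.IsUniform ε₁ UW.1 UW.2 ∧
        κ / 16 ≤ (G.edgeDensity UW.1 UW.2 : ℝ)
        then ((UW.1.card : ℝ) * UW.2.card) else 0) ≤
        (vol R Finset.univ : ℝ) * (((n / r : ℕ) : ℝ) + 1) ^ 2 := by
      rw [← Finset.sum_filter]
      have h1 : ∀ UW ∈ P.parts.offDiag.filter (fun UW => G.IsUniform ε₁ UW.1 UW.2 ∧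
          κ / 16 ≤ (G.edgeDensity UW.1 UW.2 : ℝ)),
          ((UW.1.card : ℝ) * UW.2.card) ≤ (((n / r : ℕ) : ℝ) + 1) ^ 2 := by
        rintro ⟨U, W⟩ hUW
        rw [Finset.mem_filter, Finset.mem_offDiag] at hUW
        have h2 := hP.card_part_le_average_add_one hUW.1.1
        have h3 := hP.card_part_le_average_add_one hUW.1.2.1
        rw [Finset.card_univ, ← hn, ← hr] at h2 h3
        have h2' : (U.card : ℝ) ≤ ((n / r : ℕ) : ℝ) + 1 := by exact_mod_cast h2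
        have h3' : (W.card : ℝ) ≤ ((n / r : ℕ) : ℝ) + 1 := by exact_mod_cast h3
        rw [sq]
        simp only
        gcongr
      refine (Finset.sum_le_card_nsmul _ _ _ h1).trans ?_
      rw [nsmul_eq_mul]
      have h2 : ((P.parts.offDiag.filter fun UW => G.IsUniform ε₁ UW.1 UW.2 ∧
        κ / 16 ≤ (G.edgeDensity UW.1 UW.2 : ℝ)).card : ℝ) ≤ (vol R Finset.univ : ℝ) := by
        exact_mod_cast hcount
      gcongr
    have hvolR : (vol R Finset.univ : ℝ) ≤ (r : ℝ) * (r : ℝ) := by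
      have h1 : vol R Finset.univ ≤ r * r := by
        unfold vol
        refine (Finset.sum_le_card_nsmul _ _ r fun v _ => ?_).trans ?_
        · have h2 := dg_le_card R Finset.univ v
          rwa [Finset.card_univ, Fintype.card_fin] at h2
        · rw [Finset.card_univ, Fintype.card_fin, smul_eq_mul]
      exact_mod_cast h1
    have hrn : (r : ℝ) * ((n / r : ℕ) : ℝ) ≤ (n : ℝ) := by
      exact_mod_cast Nat.mul_div_le n r
    have hrM : (r : ℝ) ≤ (SzemerediRegularity.bound ε₁ l : ℝ) := by exact_mod_cast hPb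
    have h6 : 6 * (r : ℝ) ≤ κ * (n : ℝ) := by
      have h7 := (hM6.trans hMn)
      rw [div_le_iff₀ hκ] at h7
      linarith
    have hn0 : (0 : ℝ) ≤ (n : ℝ) := Nat.cast_nonneg n
    have hr0 : (0 : ℝ) ≤ (r : ℝ) := Nat.cast_nonneg r
    have hv0 : (0 : ℝ) ≤ (vol R Finset.univ : ℝ) := Nat.cast_nonneg _
    obtain ⟨N, hNd⟩ : ∃ N : ℝ, N = ((n / r : ℕ) : ℝ) := ⟨_, rfl⟩
    rw [← hNd] at hsum hrn hN1 ⊢
    have e1 : (vol R Finset.univ : ℝ) * (2 * N + 1) ≤ κ / 2 * (n : ℝ) ^ 2 := by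
      calc (vol R Finset.univ : ℝ) * (2 * N + 1) ≤ ((r : ℝ) * (r : ℝ)) * (3 * N) := by
            apply mul_le_mul hvolR (by linarith) (by linarith) (by positivity)
        _ = 3 * (r : ℝ) * ((r : ℝ) * N) := by ring
        _ ≤ 3 * (r : ℝ) * (n : ℝ) := by gcongr
        _ ≤ κ / 2 * (n : ℝ) ^ 2 := by nlinarith
    nlinarith

end TurMod
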