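import Pool.Agent.TurMod.Emb
import Pool.Agent.TurMod.EG
import Pool.Agent.TurMod.Reg

/-!
# The dense lemma: even cycles of prescribed linear length
-/

namespace TurMod

open Finset

universe u

variable {V : Type u} {ι : Type*}

/- MODULE DN1 -/
/-- distributing: a number between `q` and `q * H` is a sum of `q` numbers in `[1, H]`.
PROOF. Induction on `q`. -/
theorem exists_sum (q H T : ℕ) (h1 : q ≤ T) (h2 : T ≤ q * H) :
    ∃ h : ℕ → ℕ, (∀ j < q, 1 ≤ h j ∧ h j ≤ H) ∧ ∑ j ∈ Finset.range q, h j = T := by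
  induction q generalizing T with
  | zero => exact ⟨fun _ => 0, fun j hj => absurd hj (Nat.not_lt_zero j), by simp; omega⟩
  | succ q ih =>
    have hH : 1 ≤ H := by
      by_contra hc
      have : H = 0 := by omega
      rw [this, mul_zero] at h2
      omega
    have hq : q ≤ q * H := Nat.le_mul_of_pos_right q hH
    have h3 : (q + 1) * H = q * H + H := by ring
    obtain ⟨h, hh1, hh2⟩ := ih (T - min H (T - q)) (by omega) (by omega)
    refine ⟨fun j => if j = q then min H (T - q) else h j, fun j hj => ?_, ?_⟩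
    · by_cases hjq : j = q
      · simp only [hjq, if_true]
        omega
      · simp only [if_neg hjq]
        exact hh1 j (by omega)
    · rw [Finset.sum_range_succ, if_pos rfl]
      have h4 : ∑ j ∈ Finset.range q, (if j = q then min H (T - q) else h j)
          = ∑ j ∈ Finset.range q, h j := by
        refine Finset.sum_congr rfl fun j hj => ?_
        rw [if_neg (Finset.mem_range.1 hj).ne]
      rw [h4, hh2]
      omega

/-- Even cycles along a path with `2 q` vertices in the reduced graph, `q ≥ 2`.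
PROOF. Let `L` be the path `c_0, …, c_(2q-1)` of clusters.  Use `embed` with `a j = c_(2j)`,
`b j = c_(2j+1)`, for `j < q - 1`: `p j = 3` and `w j = (b j, a (j+1), b j, a (j+1))`, for
`j = q - 1`: `p j = 2 q - 1 ≥ 3`, `w j i = c_(2q-1-i)` (the way back along the path).  So
`∑ p j = 3 (q-1) + 2 q - 1 = 5 q - 4`.  The length is `∑ (2 h j - 1) + 5 q - 4 = 2 ∑ h j + 4 q - 4`,
which is `2 m` if `∑ h j = m - 2 q + 2`; such `h` exists by `exists_sum` with `H = N - g - 3 s`, as
`q ≤ m - 2 q + 2` and `m ≤ q H`. -/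
theorem even_cycle_of_path [DecidableEq V] {G : SimpleGraph V} {R : SimpleGraph ι}
    {X : ι → Finset V} {N s : ℕ} {d : ℝ} (hC : Clus G R X N s d) (q : ℕ) (hq : 2 ≤ q)
    (x y : ι) (L : List ι) (hL : PathL R x y L) (hLl : L.length = 2 * q) (g m : ℕ)
    (hg : (2 * s + 5 * q : ℝ) ≤ d * g) (hm1 : 3 * q ≤ m) (hm2 : m + q * (g + 3 * s) ≤ q * N) :
    HasCyc G (2 * m) := by
  obtain ⟨hch, hnd, -, -⟩ := hL
  set c : ℕ → ι := fun i => L.getD i x with hc
  have hci : ∀ i (hi : i < 2 * q), c i = L[i]'(by rw [hLl]; exact hi) := by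
    intro i hi
    rw [hc]
    simp only []
    rw [List.getD_eq_getElem _ _ (by rw [hLl]; exact hi)]
  have hinj : ∀ i j, i < 2 * q → j < 2 * q → c i = c j → i = j := by
    intro i j hi hj hij
    rw [hci i hi, hci j hj] at hij
    exact (hnd.getElem_inj_iff).1 hij
  have hadj : ∀ i, i + 1 < 2 * q → R.Adj (c i) (c (i + 1)) := by
    intro i hi
    rw [hci i (by omega), hci (i + 1) hi]
    exact List.isChain_iff_getElem.1 hch i (by rw [hLl]; exact hi)
  -- the sizes
  have hgN : g + 3 * s ≤ N := by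
    have h1 : q * (g + 3 * s) ≤ q * N := by omega
    exact Nat.le_of_mul_le_mul_left h1 (by omega)
  obtain ⟨H, hH⟩ := Nat.exists_eq_add_of_le hgN
  have hmH : m ≤ q * H := by
    have h1 : q * (g + 3 * s + H) = q * (g + 3 * s) + q * H := Nat.mul_add _ _ _
    rw [hH, h1] at hm2
    omega
  obtain ⟨h, hh1, hh2⟩ := exists_sum q H (m - 2 * q + 2) (by omega) (by omega)
  set p : ℕ → ℕ := fun j => 3 + (if j = q - 1 then 2 * q - 4 else 0) with hp
  have hsum : ∑ j ∈ Finset.range q, p j + 4 = 5 * q := by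
    rw [hp]
    simp only []
    rw [Finset.sum_add_distrib, Finset.sum_const, Finset.card_range, smul_eq_mul,
      Finset.sum_ite_eq', if_pos (Finset.mem_range.2 (by omega))]
    omega
  have hp1 : ∀ j, j ≠ q - 1 → p j = 3 := fun j hj => by rw [hp]; simp only [if_neg hj]
  have hp2 : p (q - 1) = 2 * q - 1 := by rw [hp]; simp only [if_true]; omega
  clear_value p
  set w : ℕ → ℕ → ι := fun j i => if j = q - 1 then c (2 * q - 1 - i)
    else (if i % 2 = 0 then c (2 * j + 1) else c (2 * j + 2)) with hw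
  have hfin := embed hC q (by omega) (fun j => c (2 * j)) (fun j => c (2 * j + 1))
    (fun j hj => hadj (2 * j) (by omega))
    (fun i hi j hj hij he => hij (by have := hinj _ _ (by omega) (by omega) he; omega))
    (fun i hi j hj hij he => hij (by have := hinj _ _ (by omega) (by omega) he; omega))
    (fun i hi j hj he => by have := hinj _ _ (by omega) (by omega) he; omega)
    p w
    (fun j hj => by
      by_cases hjq : j = q - 1
      · rw [hjq, hp2]
        omega
      · rw [hp1 j hjq])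
    (fun j hj => by
      rw [hw]
      simp only []
      by_cases hjq : j = q - 1
      · rw [if_pos hjq, hjq]
        congr 1
        omega
      · rw [if_neg hjq]
        simp)
    (fun j hj => by
      rw [hw]
      simp only []
      by_cases hjq : j = q - 1
      · rw [if_pos hjq, hjq, hp2, ← hjq]
        have h1 : (j + 1) % q = 0 := by
          have h2 : j + 1 = q := by omega
          rw [h2, Nat.mod_self]
        rw [h1]
        congr 1
        omega
      · rw [if_neg hjq, hp1 j hjq]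
        have h1 : (j + 1) % q = j + 1 := Nat.mod_eq_of_lt (by omega)
        rw [h1, if_neg (by norm_num)]
        congr 1)
    (fun j hj i hi => by
      rw [hw]
      simp only []
      by_cases hjq : j = q - 1
      · rw [hjq, hp2] at hi
        rw [if_pos hjq, if_pos hjq]
        have h1 : 2 * q - 1 - i = (2 * q - 1 - (i + 1)) + 1 := by omega
        rw [h1]
        exact (hadj (2 * q - 1 - (i + 1)) (by omega)).symm
      · rw [if_neg hjq, if_neg hjq]
        have h2 := hadj (2 * j + 1) (by omega)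
        rcases Nat.mod_two_eq_zero_or_one i with h3 | h3
        · rw [if_pos h3, if_neg (by omega)]
          exact h2
        · rw [if_neg (by omega), if_pos (by omega)]
          exact h2.symm)
    g
    (by
      have h3 : (∑ j ∈ Finset.range q, (p j : ℝ)) = ((∑ j ∈ Finset.range q, p j : ℕ) : ℝ) := by
        push_cast
        rfl
      rw [h3]
      have h4 : ((∑ j ∈ Finset.range q, p j : ℕ) : ℝ) ≤ 5 * q := by
        have h5 : ∑ j ∈ Finset.range q, p j ≤ 5 * q := by omega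
        exact_mod_cast h5
      linarith)
    h (fun j hj => (hh1 j hj).1) (fun j hj => by have := (hh1 j hj).2; omega)
  have hlast : ∑ j ∈ Finset.range q, (2 * h j - 1 + p j) = 2 * m := by
    have h6 : ∑ j ∈ Finset.range q, (2 * h j - 1 + p j) + q
        = 2 * ∑ j ∈ Finset.range q, h j + ∑ j ∈ Finset.range q, p j := by
      have h7 : ∑ _j ∈ Finset.range q, 1 = q := by simp
      have h8 : ∑ j ∈ Finset.range q, (2 * h j - 1 + p j) + ∑ _j ∈ Finset.range q, 1
          = 2 * ∑ j ∈ Finset.range q, h j + ∑ j ∈ Finset.range q, p j := by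
        rw [← Finset.sum_add_distrib, Finset.mul_sum, ← Finset.sum_add_distrib]
        refine Finset.sum_congr rfl fun j hj => ?_
        have := (hh1 j (Finset.mem_range.1 hj)).1
        omega
      rw [h7] at h8
      exact h8
    rw [hh2] at h6
    omega
  rw [hlast] at hfin
  exact hfin

/- MODULE DN2 -/
private lemma DN2_arith (ε C κ σ η d : ℝ) (hε : 0 < ε) (hε1 : ε ≤ 1) (hC : 1 ≤ C)
    (hκ : κ * C = ε) (hη : η = ε / 32) (hd : 0 < d)
    (hσ1 : σ ≤ d * η / 8) (hσ2 : σ ≤ ε / 100) (M : ℝ)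
    (n m r N s q g : ℝ) (hm : 0 < m) (hn : 0 < n) (hnC : n ≤ C * m) (hr : 2 * C ≤ r) (hrM : r ≤ M)
    (hN : 0 < N) (hrN : r * N ≤ n) (hs : s ≤ σ * N) (vR : ℝ)
    (hv : 2 * (1 + ε) * m * n ≤ vR * N ^ 2 + κ * n ^ 2) (hvR : vR ≤ 2 * q * r)
    (hq0 : 0 < q) (hqr : 2 * q ≤ r) (hg1 : g ≤ η * N) (hg2 : η * N < g + 1)
    (hNbig : 3 * M + d ≤ 3 / 4 * (d * η * N)) :
    (1 + ε / 2) * m ≤ q * N ∧ 2 < q ∧ 2 * s + 5 * q ≤ d * g ∧ m + q * (g + 3 * s) ≤ q * N := by
  have hrpos : 0 < r := by linarith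
  have h1 : κ * n ^ 2 ≤ ε * m * n := by
    have hκ0 : 0 ≤ κ := by
      by_contra h
      push Not at h
      nlinarith
    have h1a : κ * n ≤ κ * (C * m) := mul_le_mul_of_nonneg_left hnC hκ0
    have h1b : κ * (C * m) = ε * m := by rw [← mul_assoc, hκ]
    have h1c : κ * n * n ≤ ε * m * n := mul_le_mul_of_nonneg_right (h1a.trans h1b.le) hn.le
    calc κ * n ^ 2 = κ * n * n := by ring
      _ ≤ ε * m * n := h1c
  have h2 : 2 * (1 + ε / 2) * m * n ≤ vR * N ^ 2 := by nlinarith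
  have h3 : 2 * (1 + ε / 2) * m * (r * N) ≤ vR * N ^ 2 := by
    have : 2 * (1 + ε / 2) * m * (r * N) ≤ 2 * (1 + ε / 2) * m * n :=
      mul_le_mul_of_nonneg_left hrN (by positivity)
    linarith
  have h4 : 2 * (1 + ε / 2) * m * (r * N) ≤ 2 * q * r * N ^ 2 := by
    have : vR * N ^ 2 ≤ 2 * q * r * N ^ 2 := mul_le_mul_of_nonneg_right hvR (by positivity)
    linarith
  have h5 : (1 + ε / 2) * m ≤ q * N := by
    have h6 : (r * N) * ((1 + ε / 2) * m) ≤ (r * N) * (q * N) := by nlinarith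
    exact le_of_mul_le_mul_left h6 (by positivity)
  refine ⟨h5, ?_, ?_, ?_⟩
  · -- 2 C m < 2 C (1+ε/2) m <= r q N <= q n <= q C m
    have h7 : r * ((1 + ε / 2) * m) ≤ q * (C * m) := by
      calc r * ((1 + ε / 2) * m) ≤ r * (q * N) := mul_le_mul_of_nonneg_left h5 hrpos.le
        _ = q * (r * N) := by ring
        _ ≤ q * (C * m) := mul_le_mul_of_nonneg_left (hrN.trans hnC) hq0.le
    have h8 : (2 * C) * ((1 + ε / 2) * m) ≤ r * ((1 + ε / 2) * m) :=
      mul_le_mul_of_nonneg_right hr (by positivity)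
    have h9 : (C * m) * (2 * (1 + ε / 2)) ≤ (C * m) * q := by nlinarith
    have h10 : 2 * (1 + ε / 2) ≤ q := le_of_mul_le_mul_left h9 (by positivity)
    linarith
  · have h11 : σ * N ≤ d * η / 8 * N := mul_le_mul_of_nonneg_right hσ1 hN.le
    have h12 : d * (η * N) ≤ d * (g + 1) := mul_le_mul_of_nonneg_left hg2.le hd.le
    have h13 : d * (η * N) = d * η * N := by ring
    have h14 : d * η / 8 * N = d * η * N / 8 := by ring
    linarith
  · have h15 : g + 3 * s ≤ ε / 8 * N := by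
      have : σ * N ≤ ε / 100 * N := mul_le_mul_of_nonneg_right hσ2 hN.le
      have h16 : η * N = ε * N / 32 := by rw [hη]; ring
      have h17 : ε / 100 * N = ε * N / 100 := by ring
      have h18 : ε / 8 * N = ε * N / 8 := by ring
      have h19 : 0 < ε * N := by positivity
      linarith
    have h20 : q * (g + 3 * s) ≤ q * (ε / 8 * N) := mul_le_mul_of_nonneg_left h15 hq0.le
    have h21 : q * (ε / 8 * N) = (q * N) * (ε / 8) := by ring
    have h22 : (1 + ε / 2) * m * (1 - ε / 8) ≤ (q * N) * (1 - ε / 8) :=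
      mul_le_mul_of_nonneg_right h5 (by linarith)
    have h23 : m ≤ (1 + ε / 2) * m * (1 - ε / 8) := by
      have : (1 + ε / 2) * m * (1 - ε / 8) - m = m * (ε * (3 / 8 - ε / 16)) := by ring
      have h24 : 0 ≤ m * (ε * (3 / 8 - ε / 16)) := by
        have : 0 ≤ 3 / 8 - ε / 16 := by linarith
        positivity
      linarith
    linarith

private lemma DN2_n {V : Type u} [Fintype V] (G : SimpleGraph V) (ε m : ℝ) (hε : 0 < ε)
    (hm : 0 ≤ m) (h1 : 1 ≤ Fintype.card V)
    (h : 2 * (1 + ε) * m * (Fintype.card V : ℝ) ≤ (vol G Finset.univ : ℝ)) :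
    2 * m ≤ (Fintype.card V : ℝ) := by
  have h2 := vol_le G (Finset.univ : Finset V)
  rw [Finset.card_univ] at h2
  have h3 : ((Fintype.card V * (Fintype.card V - 1) : ℕ) : ℝ)
      = (Fintype.card V : ℝ) * ((Fintype.card V : ℝ) - 1) := by
    rw [Nat.cast_mul, Nat.cast_sub h1, Nat.cast_one]
  have h4 : (vol G Finset.univ : ℝ) ≤ (Fintype.card V : ℝ) * ((Fintype.card V : ℝ) - 1) := by
    rw [← h3]; exact_mod_cast h2
  have h5 : (1 : ℝ) ≤ (Fintype.card V : ℝ) := by exact_mod_cast h1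
  have h6 : (Fintype.card V : ℝ) * (2 * (1 + ε) * m)
      ≤ (Fintype.card V : ℝ) * ((Fintype.card V : ℝ) - 1) := by linarith
  have h7 := le_of_mul_le_mul_left h6 (by linarith)
  nlinarith

/-- THE DENSE LEMMA.  For `ε ∈ (0, 1]` and `C ≥ 1` there is `m0` such that for `m ≥ m0` every graph on
at most `C m` vertices with at least `(1 + ε) m n` edges (`vol = 2 e`) has a cycle of length `2 m`.
PROOF. `κ = ε / C`, `d = κ / 32`, `η = ε / 32`, `σ = min (d η / 8) (ε / 100)`, `l0 ≥ 2 C`; `M` from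
`reg κ σ l0`.  Let `m ≥ m0`, `m0` large.  `n ≥ 1` and `2 (1+ε) m n ≤ vol ≤ n (n - 1)` give `n > 2 m ≥ M`.
Take `r, X, R, N, s` from `reg`: `vol R · N² ≥ 2 (1+ε) m n - κ n² ≥ 2 (1 + ε/2) m n` since
`κ n ≤ κ C m = ε m`.  As `r N ≤ n`: `vol R · N ≥ 2 (1 + ε/2) m r`.  `even_path` gives `q ≥ 1` with a path
of `2 q` clusters and `vol R ≤ 2 q r`, so `q N ≥ (1 + ε/2) m` (1).  `q ≥ 2`: `N ≤ n / r ≤ C m / r`, so
`q ≥ (1 + ε/2) r / C ≥ 2`.  `2 q ≤ r ≤ M` (path without repetition).  Let `g = ⌊η N⌋`.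
`even_cycle_of_path`: `2 s + 5 q ≤ 2 σ N + 3 M ≤ d g`: `d g ≥ d (η N - 1)`, `2 σ N ≤ d η N / 4`,
and `N ≥ n / r - 1 ≥ 2 m / M - 1` is large.  `3 q ≤ 2 M ≤ m`.  `q (g + 3 s) ≤ q N (η + 3 σ) ≤
q N · ε / 8`, and `m ≤ q N (1 - ε/8)` from (1): `(1 + ε/2)(1 - ε/8) ≥ 1` for `ε ≤ 1`. -/
theorem dense (ε C : ℝ) (hε : 0 < ε) (hε1 : ε ≤ 1) (hC : 1 ≤ C) :
    ∃ m0 : ℕ, ∀ m : ℕ, m0 ≤ m → ∀ (V : Type u) [Fintype V] (G : SimpleGraph V),
      1 ≤ Fintype.card V → (Fintype.card V : ℝ) ≤ C * m →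
      2 * (1 + ε) * m * (Fintype.card V : ℝ) ≤ (vol G Finset.univ : ℝ) → HasCyc G (2 * m) := by
  obtain ⟨κ, hκ⟩ : ∃ κ : ℝ, κ = ε / C := ⟨_, rfl⟩
  have hCpos : 0 < C := by linarith
  have hκpos : 0 < κ := by rw [hκ]; positivity
  have hκC : κ * C = ε := by rw [hκ]; field_simp
  have hκ1 : κ ≤ 1 := by
    rw [hκ, div_le_one hCpos]; linarith
  obtain ⟨d, hd⟩ : ∃ d : ℝ, d = κ / 32 := ⟨_, rfl⟩
  obtain ⟨η, hη⟩ : ∃ η : ℝ, η = ε / 32 := ⟨_, rfl⟩
  have hdpos : 0 < d := by rw [hd]; positivity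
  have hd1 : d ≤ 1 := by rw [hd]; linarith
  have hηpos : 0 < η := by rw [hη]; positivity
  obtain ⟨σ, hσ⟩ : ∃ σ : ℝ, σ = min (d * η / 8) (ε / 100) := ⟨_, rfl⟩
  have hσpos : 0 < σ := by rw [hσ]; exact lt_min (by positivity) (by positivity)
  have hσ1 : σ ≤ d * η / 8 := by rw [hσ]; exact min_le_left _ _
  have hσ2 : σ ≤ ε / 100 := by rw [hσ]; exact min_le_right _ _
  obtain ⟨l0, hl0⟩ := exists_nat_ge (2 * C)
  obtain ⟨M, hM⟩ := reg.{u} κ σ hκpos hκ1 hσpos l0
  obtain ⟨Y, hY⟩ : ∃ Y : ℝ, Y = (3 * M + 1) * 4 / (3 * (d * η)) := ⟨_, rfl⟩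
  have hYpos : 0 < Y := by rw [hY]; positivity
  obtain ⟨m0, hm0⟩ := exists_nat_ge (2 * M + M * (Y + 1) + 1)
  refine ⟨m0, ?_⟩
  intro m hm V _ G hV1 hVC hvol
  classical
  have hm' : (m0 : ℝ) ≤ m := by exact_mod_cast hm
  have hMnn : (0 : ℝ) ≤ M := Nat.cast_nonneg M
  have hMY : 0 ≤ M * (Y + 1) := by positivity
  have hmpos : (0 : ℝ) < m := by linarith
  have hn2m := DN2_n G ε m hε hmpos.le hV1 hvol
  have hMn : M ≤ Fintype.card V := by
    have : (M : ℝ) ≤ Fintype.card V := by linarith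
    exact_mod_cast this
  obtain ⟨r, hrl, hr1, hrM, X, R, N, s, hN, hs, hclus, hvR⟩ := hM V G hMn
  have hrM' : (r : ℝ) ≤ M := by exact_mod_cast hrM
  have hrl' : (l0 : ℝ) ≤ r := by exact_mod_cast hrl
  have hr1' : (1 : ℝ) ≤ r := by exact_mod_cast hr1
  have hrN : r * N ≤ Fintype.card V := by rw [hN]; exact Nat.mul_div_le _ _
  have hrN' : (r : ℝ) * N ≤ Fintype.card V := by exact_mod_cast hrN
  have hNlt : Fintype.card V < r * (N + 1) := by
    rw [hN]; exact Nat.lt_mul_div_succ _ (by omega)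
  have hNlt' : (Fintype.card V : ℝ) < r * (N + 1) := by exact_mod_cast hNlt
  have hYN : Y ≤ N := by
    have hNn : (0 : ℝ) ≤ (N : ℝ) + 1 := by positivity
    have h1 : (M : ℝ) * (Y + 1) < M * (N + 1) := by
      have h2 : (r : ℝ) * (N + 1) ≤ M * (N + 1) := mul_le_mul_of_nonneg_right hrM' hNn
      linarith
    have h3 := lt_of_mul_lt_mul_left h1 hMnn
    linarith
  have hNpos : (0 : ℝ) < N := by linarith
  have hNbig : 3 * (M : ℝ) + d ≤ 3 / 4 * (d * η * N) := by
    have h1 : Y * (3 * (d * η)) = (3 * M + 1) * 4 := by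
      rw [hY]; field_simp
    have h2 : Y * (3 * (d * η)) ≤ N * (3 * (d * η)) :=
      mul_le_mul_of_nonneg_right hYN (by positivity)
    linarith
  have hvRpos : 0 < vol R Finset.univ := by
    by_contra h
    have h0 : vol R Finset.univ = 0 := by omega
    rw [h0] at hvR
    have h1 : (vol G Finset.univ : ℝ) ≤ κ * (Fintype.card V : ℝ) ^ 2 := by
      have : ((0 : ℕ) : ℝ) * (N : ℝ) ^ 2 = 0 := by simp
      linarith
    have hnpos : (0 : ℝ) < Fintype.card V := by exact_mod_cast (by omega : 0 < Fintype.card V)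
    have h2 : κ * (Fintype.card V : ℝ) ^ 2 ≤ ε * m * Fintype.card V := by
      have : κ * (Fintype.card V : ℝ) ≤ κ * (C * m) := mul_le_mul_of_nonneg_left hVC hκpos.le
      have h3 : κ * (C * m) = ε * m := by rw [← mul_assoc, hκC]
      have h4 : κ * (Fintype.card V : ℝ) * Fintype.card V ≤ ε * m * Fintype.card V :=
        mul_le_mul_of_nonneg_right (this.trans h3.le) hnpos.le
      calc κ * (Fintype.card V : ℝ) ^ 2 = κ * (Fintype.card V : ℝ) * Fintype.card V := by ring
        _ ≤ _ := h4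
    have h5 : 0 < m * (Fintype.card V : ℝ) := by positivity
    nlinarith
  obtain ⟨q, hq1, ⟨x, y, L, hL, hLl⟩, hvq⟩ := even_path R hvRpos
  rw [Fintype.card_fin] at hvq
  have hqr : 2 * q ≤ r := by
    rw [← hLl]
    have := hL.2.1.length_le_card
    rwa [Fintype.card_fin] at this
  obtain ⟨g, hg⟩ : ∃ g : ℕ, g = ⌊η * N⌋₊ := ⟨_, rfl⟩
  have hg1 : (g : ℝ) ≤ η * N := by rw [hg]; exact Nat.floor_le (by positivity)
  have hg2 : η * N < g + 1 := by rw [hg]; exact Nat.lt_floor_add_one _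
  have hnpos : (0 : ℝ) < Fintype.card V := by exact_mod_cast (by omega : 0 < Fintype.card V)
  obtain ⟨_, ha2, ha3, ha4⟩ := DN2_arith ε C κ σ η d hε hε1 hC hκC hη hdpos hσ1 hσ2 M
    (Fintype.card V) m r N s q g hmpos hnpos hVC (by linarith) hrM' hNpos hrN' hs
    (vol R Finset.univ) (by linarith) (by exact_mod_cast hvq)
    (by exact_mod_cast (by omega : 0 < q)) (by exact_mod_cast hqr) hg1 hg2 hNbig
  have hq2 : 2 < q := by exact_mod_cast ha2
  have hclus' : Clus G R X N s d := by rw [hd]; exact hclus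
  refine even_cycle_of_path hclus' q (by omega) x y L hL hLl g m (by linarith) ?_ ?_
  · have h1 : (2 * M : ℝ) ≤ m := by linarith
    have h2 : 2 * M ≤ m := by exact_mod_cast h1
    omega
  · have : ((m + q * (g + 3 * s) : ℕ) : ℝ) ≤ ((q * N : ℕ) : ℝ) := by push_cast; exact ha4
    exact_mod_cast this

end TurMod
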