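import Pool.Agent.TurMod.Defs

/-!
# Depth first search
-/

namespace TurMod

open Finset

variable {V : Type*}

/- MODULE DF1 -/
/-- Depth first search inside `U`, run for `m` steps.  `l` is the stack (HEAD = TOP), `S` the set of
finished vertices: no finished vertex has a neighbour in `U ∖ (S ∪ l)`.
PROOF. Induction on `m`. `m = 0`: empty stack and `S = ∅`.  Step (`m < 2 |U|`): if `l = []` then
`2 |S| = m < 2 |U|`, choose `v ∈ U ∖ S`, new stack `[v]`.  If `l = x :: l'`: if there is `w ∈ U`
with `G.Adj x w`, `w ∉ S`, `w ∉ l`, the new stack is `w :: l` (a chain: `G.Adj w x`); otherwise the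
new stack is `l'` and `S' = insert x S` (`2 (|S| + 1) + (|l| - 1) = m + 1`), and every neighbour of
`x` in `U` is in `S` or in `l`, so in `S'` or in `l'`; the neighbours of the old `s ∈ S` in `U` are
in `S ∪ l = S' ∪ l'`. -/
theorem dfs (G : SimpleGraph V) (U : Finset V) (m : ℕ) (hm : m ≤ 2 * U.card) :
    ∃ (l : List V) (S : Finset V), l.IsChain G.Adj ∧ l.Nodup ∧ (∀ v ∈ l, v ∈ U ∧ v ∉ S) ∧ S ⊆ U ∧
      (∀ s ∈ S, ∀ w ∈ U, G.Adj s w → w ∈ S ∨ w ∈ l) ∧ 2 * S.card + l.length = m := by
  classical
  induction m with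
  | zero =>
    refine ⟨[], ∅, List.IsChain.nil, List.nodup_nil, ?_, Finset.empty_subset _, ?_, ?_⟩
    · intro v hv
      simp at hv
    · intro s hs
      simp at hs
    · simp
  | succ m ih =>
    obtain ⟨l, S, h1, h2, h3, h4, h5, h6⟩ := ih (by omega)
    cases l with
    | nil =>
      have h7 : S.card < U.card := by
        simp at h6
        omega
      obtain ⟨v, hv, hvS⟩ : ∃ v ∈ U, v ∉ S := by
        by_contra hc
        push Not at hc
        have := Finset.card_le_card (show U ⊆ S from hc)
        omega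
      refine ⟨[v], S, List.IsChain.singleton v, List.nodup_singleton v, ?_, h4, ?_, ?_⟩
      · intro w hw
        rw [List.mem_singleton] at hw
        subst hw
        exact ⟨hv, hvS⟩
      · intro s hs w hw hsw
        rcases h5 s hs w hw hsw with h8 | h8
        · exact Or.inl h8
        · simp at h8
      · simp at h6 ⊢
        omega
    | cons x l' =>
      by_cases hw : ∃ w ∈ U, G.Adj x w ∧ w ∉ S ∧ w ∉ x :: l'
      · obtain ⟨w, hwU, hxw, hwS, hwl⟩ := hw
        refine ⟨w :: x :: l', S, ?_, ?_, ?_, h4, ?_, ?_⟩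
        · rw [List.isChain_cons_cons]
          exact ⟨hxw.symm, h1⟩
        · rw [List.nodup_cons]
          exact ⟨hwl, h2⟩
        · intro v hv
          rcases List.mem_cons.1 hv with rfl | hv
          · exact ⟨hwU, hwS⟩
          · exact h3 v hv
        · intro s hs u hu hsu
          rcases h5 s hs u hu hsu with h8 | h8
          · exact Or.inl h8
          · exact Or.inr (List.mem_cons_of_mem _ h8)
        · rw [List.length_cons]
          omega
      · push Not at hw
        have hxS : x ∉ S := (h3 x List.mem_cons_self).2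
        refine ⟨l', insert x S, h1.tail, (List.nodup_cons.1 h2).2, ?_, ?_, ?_, ?_⟩
        · intro v hv
          refine ⟨(h3 v (List.mem_cons_of_mem _ hv)).1, ?_⟩
          rw [Finset.mem_insert, not_or]
          refine ⟨?_, (h3 v (List.mem_cons_of_mem _ hv)).2⟩
          rintro rfl
          exact (List.nodup_cons.1 h2).1 hv
        · rw [Finset.insert_subset_iff]
          exact ⟨(h3 x List.mem_cons_self).1, h4⟩
        · intro s hs w hwU hsw
          rw [Finset.mem_insert] at hs ⊢
          have key : w ∈ S ∨ w ∈ x :: l' := by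
            rcases hs with rfl | hs
            · by_contra hc
              rw [not_or] at hc
              exact hc.2 (hw w hwU hsw hc.1)
            · exact h5 s hs w hwU hsw
          rcases key with h8 | h8
          · exact Or.inl (Or.inr h8)
          · rcases List.mem_cons.1 h8 with h9 | h9
            · exact Or.inl (Or.inl h9)
            · exact Or.inr h9
        · rw [Finset.card_insert_of_notMem hxS]
          rw [List.length_cons] at h6
          omega

/- MODULE DF2 -/
private theorem DF2_take {G : SimpleGraph V} {x y : V} {l : List V} (h : PathL G x y l) (p : ℕ)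
    (hp : 1 ≤ p) (hpl : p ≤ l.length) :
    ∃ hlt : p - 1 < l.length, PathL G x (l[p - 1]) (l.take p) ∧ (l.take p).length = p := by
  obtain ⟨h1, h2, h3, h4⟩ := h
  refine ⟨by omega, ⟨h1.take p, h2.sublist (List.take_sublist p l), ?_, ?_⟩, ?_⟩
  · rw [List.head?_eq_getElem?] at h3 ⊢
    rw [List.getElem?_take_of_lt (by omega)]
    exact h3
  · rw [List.getLast?_eq_getElem?, List.length_take, min_eq_left hpl,
      List.getElem?_take_of_lt (by omega)]
    exact List.getElem?_eq_getElem (by omega)
  · rw [List.length_take, min_eq_left hpl]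

private theorem DF2_cnt (P Q : V → Prop) [DecidablePred P] [DecidablePred Q] (hPQ : ∀ v, P v → ¬ Q v) (l : List V)
    (hl : ∀ v ∈ l, P v ∨ Q v) (hc : l.IsChain (fun u v => (P u ∧ Q v) ∨ (Q u ∧ P v))) :
    l.countP (fun v => P v) = l.countP (fun v => Q v) ∨
    (l.countP (fun v => P v) = l.countP (fun v => Q v) + 1 ∧ ∀ x ∈ l.head?, P x) ∨
    (l.countP (fun v => Q v) = l.countP (fun v => P v) + 1 ∧ ∀ x ∈ l.head?, Q x) := by
  induction l with
  | nil => simp
  | cons x l ih =>
    have ih' := ih (fun v hv => hl v (List.mem_cons_of_mem _ hv)) hc.tail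
    have hnext : ∀ y ∈ l.head?, (P x ∧ Q y) ∨ (Q x ∧ P y) := by
      intro y hy
      cases l with
      | nil => simp at hy
      | cons z l =>
        simp at hy
        subst hy
        exact (List.isChain_cons_cons.1 hc).1
    have hne : ∀ k, l.countP (fun v => P v) = k + 1 ∨ l.countP (fun v => Q v) = k + 1 →
        ∃ y, y ∈ l.head? := by
      intro k hk
      cases l with
      | nil => simp at hk
      | cons z l => exact ⟨z, rfl⟩
    rcases hl x List.mem_cons_self with hx | hx
    · have hq : ¬ Q x := hPQ x hx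
      rw [List.countP_cons_of_pos (by simpa using hx), List.countP_cons_of_neg (by simpa using hq)]
      rcases ih' with h1 | ⟨h1, h2⟩ | ⟨h1, h2⟩
      · right; left
        refine ⟨by rw [h1], ?_⟩
        intro y hy
        simp at hy
        subst hy
        exact hx
      · exfalso
        obtain ⟨y, hy⟩ := hne _ (Or.inl h1)
        rcases hnext y hy with h3 | h3
        · exact hPQ y (h2 y hy) h3.2
        · exact hq h3.1
      · left
        rw [h1]
    · have hp : ¬ P x := fun h => hPQ x h hx
      rw [List.countP_cons_of_neg (by simpa using hp), List.countP_cons_of_pos (by simpa using hx)]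
      rcases ih' with h1 | ⟨h1, h2⟩ | ⟨h1, h2⟩
      · right; right
        refine ⟨by rw [h1], ?_⟩
        intro y hy
        simp at hy
        subst hy
        exact hx
      · left
        rw [h1]
      · exfalso
        obtain ⟨y, hy⟩ := hne _ (Or.inr h1)
        rcases hnext y hy with h3 | h3
        · exact hp h3.1
        · exact hPQ y h3.2 (h2 y hy)

private theorem DF2_idx (P Q : V → Prop) (hPQ : ∀ v, P v → ¬ Q v) (l : List V)
    (hc : l.IsChain (fun u v => (P u ∧ Q v) ∨ (Q u ∧ P v))) (h0 : ∀ x ∈ l.head?, P x) :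
    ∀ i (hi : i < l.length), (i % 2 = 0 → P (l[i])) ∧ (i % 2 = 1 → Q (l[i])) := by
  intro i
  induction i with
  | zero =>
    intro hi
    refine ⟨fun _ => h0 _ ?_, fun h => absurd h (by norm_num)⟩
    rw [List.head?_eq_getElem?]
    exact List.getElem?_eq_getElem hi
  | succ i ih =>
    intro hi
    have h1 := ih (by omega)
    have h2 := (List.isChain_iff_getElem.1 hc) i hi
    constructor
    · intro h3
      have h4 := h1.2 (by omega)
      rcases h2 with h5 | h5
      · exact absurd h4 (hPQ _ h5.1)
      · exact h5.2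
    · intro h3
      have h4 := h1.1 (by omega)
      rcases h2 with h5 | h5
      · exact h5.2
      · exact absurd h5.1 (hPQ _ h4)

private theorem DF2_card [DecidableEq V] (A : Finset V) (l : List V) (hl : l.Nodup) :
    (A.filter fun v => v ∈ l).card = l.countP (fun v => v ∈ A) := by
  rw [List.countP_eq_length_filter, ← List.toFinset_card_of_nodup (hl.filter _)]
  congr 1
  ext v
  simp [and_comm]

/-- Long alternating paths in a pair without large empty sub-pairs.
`A`, `B` disjoint, every `A' ⊆ A` and `B' ⊆ B` with at least `s` elements each span an edge,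
`|A|, |B| ≥ h + 2 s`: there is a path with exactly `2 h` vertices, starting in `A`, ending in `B`.
PROOF. Replace `A`, `B` by subsets of size exactly `N = h + 2 s`.  Let `G1` be the graph with
`u ~ v` iff `G.Adj u v` and (`u ∈ A`, `v ∈ B` or `u ∈ B`, `v ∈ A`).  Apply `dfs` to `G1`,
`U = A ∪ B`, `m = 2 N = |U|`: stack `l`, finished set `S`, `|l| = 2 N - 2 |S|`.  Let
`T = U ∖ S ∖ l`, so `|T| = |S|`.  `l` alternates between `A` and `B` and has even length, so it has
`N - |S|` vertices in each of `A`, `B`; hence `|T ∩ A| = |A| - |S ∩ A| - (N - |S|) = |S ∩ B|` and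
`|T ∩ B| = |S ∩ A|`.  There is no edge between `S ∩ A` and `T ∩ B`, so `|S ∩ A| < s`; in the same
way `|S ∩ B| < s`.  So `|S| ≤ 2 s - 2` and `|l| ≥ 2 N - 4 s + 4 ≥ 2 h`.  `l` or its reverse starts
in `A` (`l` has even length and alternates); take the first `2 h` vertices: the last of them is in
`B`. -/
theorem dfs_pair (G : SimpleGraph V) (A B : Finset V) (s h : ℕ) (hs : 1 ≤ s) (hh : 1 ≤ h)
    (hAB : Disjoint A B) (hA : h + 2 * s ≤ A.card) (hB : h + 2 * s ≤ B.card)
    (hE : ∀ A' ⊆ A, ∀ B' ⊆ B, s ≤ A'.card → s ≤ B'.card → ∃ a ∈ A', ∃ b ∈ B', G.Adj a b) :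
    ∃ x ∈ A, ∃ y ∈ B, ∃ l : List V, PathL G x y l ∧ l.length = 2 * h ∧
      ∀ v ∈ l, v ∈ A ∨ v ∈ B := by
  classical
  obtain ⟨A0, hA0, hA0c⟩ := Finset.exists_subset_card_eq hA
  obtain ⟨B0, hB0, hB0c⟩ := Finset.exists_subset_card_eq hB
  have hAB0 : Disjoint A0 B0 := Finset.disjoint_of_subset_left hA0
    (Finset.disjoint_of_subset_right hB0 hAB)
  have hPQ : ∀ v, v ∈ A0 → ¬ v ∈ B0 := fun v h1 h2 => (Finset.disjoint_left.1 hAB0) h1 h2
  let G1 : SimpleGraph V :=
    { Adj := fun u v => G.Adj u v ∧ ((u ∈ A0 ∧ v ∈ B0) ∨ (u ∈ B0 ∧ v ∈ A0))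
      symm := ⟨fun u v huv => ⟨huv.1.symm, huv.2.elim (fun h => Or.inr ⟨h.2, h.1⟩)
        (fun h => Or.inl ⟨h.2, h.1⟩)⟩⟩
      loopless := ⟨fun u hu => G.irrefl hu.1⟩ }
  have hUc : (A0 ∪ B0).card = 2 * (h + 2 * s) := by
    rw [Finset.card_union_of_disjoint hAB0, hA0c, hB0c]
    ring
  obtain ⟨l, S, h1, h2, h3, h4, h5, h6⟩ := dfs G1 (A0 ∪ B0) (2 * (h + 2 * s)) (by omega)
  have hc : l.IsChain (fun u v => (u ∈ A0 ∧ v ∈ B0) ∨ (u ∈ B0 ∧ v ∈ A0)) :=
    h1.imp (fun u v huv => huv.2)
  have hmem : ∀ v ∈ l, v ∈ A0 ∨ v ∈ B0 := fun v hv => Finset.mem_union.1 (h3 v hv).1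
  have hcnt := DF2_cnt (fun v => v ∈ A0) (fun v => v ∈ B0) hPQ l hmem hc
  have hlen : l.length = l.countP (fun v => v ∈ A0) + l.countP (fun v => v ∈ B0) := by
    rw [List.length_eq_countP_add_countP (fun v => decide (v ∈ A0))]
    congr 1
    refine List.countP_congr fun v hv => ?_
    have := hmem v hv
    have := hPQ v
    simp
    tauto
  have heq : l.countP (fun v => v ∈ A0) = l.countP (fun v => v ∈ B0) := by
    rcases hcnt with h7 | ⟨h7, _⟩ | ⟨h7, _⟩
    · exact h7
    · omega
    · omega
  -- the partition of a class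
  have hpart : ∀ C : Finset V, C.card = (C.filter fun v => v ∈ S).card +
      (C.filter fun v => v ∈ l).card + (C.filter fun v => v ∉ S ∧ v ∉ l).card := by
    intro C
    rw [← Finset.card_filter_add_card_filter_not (s := C) (fun v => v ∈ S),
      ← Finset.card_filter_add_card_filter_not (s := C.filter fun v => ¬ v ∈ S) (fun v => v ∈ l),
      Finset.filter_filter, Finset.filter_filter, add_assoc]
    congr 2
    congr 1
    ext v
    rw [Finset.mem_filter, Finset.mem_filter]
    refine and_congr_right fun _ => ⟨fun h => h.2, fun h => ⟨(h3 v h).2, h⟩⟩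
  have hA1 := hpart A0
  have hB1 := hpart B0
  rw [DF2_card A0 l h2, hA0c] at hA1
  rw [DF2_card B0 l h2, hB0c] at hB1
  have hS : S.card = (A0.filter fun v => v ∈ S).card + (B0.filter fun v => v ∈ S).card := by
    rw [← Finset.card_union_of_disjoint (Finset.disjoint_filter_filter hAB0)]
    congr 1
    ext v
    rw [Finset.mem_union, Finset.mem_filter, Finset.mem_filter]
    constructor
    · intro h7
      rcases Finset.mem_union.1 (h4 h7) with h8 | h8
      · exact Or.inl ⟨h8, h7⟩
      · exact Or.inr ⟨h8, h7⟩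
    · rintro (h7 | h7) <;> exact h7.2
  have hno1 : (A0.filter fun v => v ∈ S).card < s := by
    by_contra hcon
    push Not at hcon
    obtain ⟨a, ha, b, hb, hab⟩ := hE _ ((Finset.filter_subset _ A0).trans hA0)
      (B0.filter fun v => v ∉ S ∧ v ∉ l) ((Finset.filter_subset _ B0).trans hB0) hcon (by omega)
    rw [Finset.mem_filter] at ha hb
    rcases h5 a ha.2 b (Finset.mem_union_right _ hb.1) ⟨hab, Or.inl ⟨ha.1, hb.1⟩⟩ with h7 | h7
    · exact hb.2.1 h7
    · exact hb.2.2 h7
  have hno2 : (B0.filter fun v => v ∈ S).card < s := by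
    by_contra hcon
    push Not at hcon
    obtain ⟨a, ha, b, hb, hab⟩ := hE (A0.filter fun v => v ∉ S ∧ v ∉ l)
      ((Finset.filter_subset _ A0).trans hA0) _ ((Finset.filter_subset _ B0).trans hB0)
      (by omega) hcon
    rw [Finset.mem_filter] at ha hb
    rcases h5 b hb.2 a (Finset.mem_union_left _ ha.1) ⟨hab.symm, Or.inr ⟨hb.1, ha.1⟩⟩ with h7 | h7
    · exact ha.2.1 h7
    · exact ha.2.2 h7
  have hlong : 2 * h + 1 ≤ l.length := by omega
  -- a suffix which starts in `A0`
  obtain ⟨l1, hl1, hl1l, hl1A⟩ : ∃ l1 : List V, l1 <:+ l ∧ 2 * h ≤ l1.length ∧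
      ∀ x ∈ l1.head?, x ∈ A0 := by
    cases l with
    | nil => simp at hlong
    | cons x l' =>
      rcases hmem x List.mem_cons_self with hx | hx
      · refine ⟨x :: l', List.suffix_refl _, by omega, ?_⟩
        intro y hy
        simp at hy
        subst hy
        exact hx
      · refine ⟨l', List.suffix_cons x l', by rw [List.length_cons] at hlong; omega, ?_⟩
        intro y hy
        cases l' with
        | nil => simp at hy
        | cons z l'' =>
          simp at hy
          subst hy
          rcases (List.isChain_cons_cons.1 hc).1 with h7 | h7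
          · exact absurd hx (hPQ x h7.1)
          · exact h7.2
  have hc1 : l1.IsChain (fun u v => (u ∈ A0 ∧ v ∈ B0) ∨ (u ∈ B0 ∧ v ∈ A0)) := hc.suffix hl1
  have hidx := DF2_idx (fun v => v ∈ A0) (fun v => v ∈ B0) hPQ l1 hc1 hl1A
  have hne : l1 ≠ [] := by
    rintro rfl
    simp at hl1l
    omega
  have hpath : PathL G (l1.head hne) (l1.getLast hne) l1 :=
    ⟨(h1.imp (fun u v huv => huv.1)).suffix hl1, h2.sublist hl1.sublist,
      List.head?_eq_some_head hne, List.getLast?_eq_some_getLast hne⟩
  obtain ⟨hlt, hp1, hp2⟩ := DF2_take hpath (2 * h) (by omega) hl1l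
  refine ⟨l1.head hne, hA0 (hl1A _ (List.head?_eq_some_head hne)), _,
    hB0 ((hidx (2 * h - 1) hlt).2 (by omega)), _, hp1, hp2, ?_⟩
  intro v hv
  rcases hmem v (hl1.subset (List.mem_of_mem_take hv)) with h7 | h7
  · exact Or.inl (hA0 h7)
  · exact Or.inr (hB0 h7)

/- MODULE DF3 -/
private theorem DF3_step (G : SimpleGraph V) (U : Finset V) (y : V) (hy : y ∈ U) (M : ℕ)
    (hM : 1 ≤ M)
    (hclosed : ∀ S ⊆ U, y ∈ S → S.card ≤ M → ∃ s ∈ S, ∃ w ∈ U, w ∉ S ∧ G.Adj s w) (n : ℕ) :
    ∃ (l : List V) (S : Finset V), l.IsChain G.Adj ∧ l.Nodup ∧ l.getLast? = some y ∧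
      (∀ v ∈ l, v ∈ U ∧ v ∉ S) ∧ S ⊆ U ∧
      (∀ s ∈ S, ∀ w ∈ U, G.Adj s w → w ∈ S ∨ w ∈ l) ∧
      ((2 * S.card + l.length = n + 1 ∧ S.card < M) ∨ S.card = M) := by
  classical
  induction n with
  | zero =>
    refine ⟨[y], ∅, List.IsChain.singleton y, List.nodup_singleton y, rfl, ?_,
      Finset.empty_subset _, ?_, Or.inl ⟨by simp, by rw [Finset.card_empty]; omega⟩⟩
    · intro w hw
      rw [List.mem_singleton] at hw
      subst hw
      exact ⟨hy, Finset.notMem_empty w⟩
    · intro s hs
      simp at hs
  | succ n ih =>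
    obtain ⟨l, S, h1, h2, h3, h4, h5, h6, h7⟩ := ih
    rcases h7 with ⟨h7, h8⟩ | h7
    swap
    · exact ⟨l, S, h1, h2, h3, h4, h5, h6, Or.inr h7⟩
    cases l with
    | nil => simp at h3
    | cons x l' =>
      by_cases hw : ∃ w ∈ U, G.Adj x w ∧ w ∉ S ∧ w ∉ x :: l'
      · obtain ⟨w, hwU, hxw, hwS, hwl⟩ := hw
        refine ⟨w :: x :: l', S, ?_, ?_, ?_, ?_, h5, ?_, Or.inl ⟨?_, h8⟩⟩
        · rw [List.isChain_cons_cons]
          exact ⟨hxw.symm, h1⟩
        · rw [List.nodup_cons]
          exact ⟨hwl, h2⟩
        · rw [List.getLast?_cons_cons]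
          exact h3
        · intro v hv
          rcases List.mem_cons.1 hv with rfl | hv
          · exact ⟨hwU, hwS⟩
          · exact h4 v hv
        · intro s hs u hu hsu
          rcases h6 s hs u hu hsu with h9 | h9
          · exact Or.inl h9
          · exact Or.inr (List.mem_cons_of_mem _ h9)
        · rw [List.length_cons]
          omega
      · push Not at hw
        have hxU : x ∈ U := (h4 x List.mem_cons_self).1
        have hxS : x ∉ S := (h4 x List.mem_cons_self).2
        have hS' : insert x S ⊆ U := by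
          rw [Finset.insert_subset_iff]
          exact ⟨hxU, h5⟩
        have hcl : ∀ s ∈ insert x S, ∀ w ∈ U, G.Adj s w → w ∈ insert x S ∨ w ∈ l' := by
          intro s hs w hwU hsw
          rw [Finset.mem_insert] at hs ⊢
          have key : w ∈ S ∨ w ∈ x :: l' := by
            rcases hs with rfl | hs
            · by_contra hc
              rw [not_or] at hc
              exact hc.2 (hw w hwU hsw hc.1)
            · exact h6 s hs w hwU hsw
          rcases key with h9 | h9
          · exact Or.inl (Or.inr h9)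
          · rcases List.mem_cons.1 h9 with h10 | h10
            · exact Or.inl (Or.inl h10)
            · exact Or.inr h10
        have hcard : (insert x S).card = S.card + 1 := Finset.card_insert_of_notMem hxS
        cases l' with
        | nil =>
          exfalso
          have hxy : x = y := by simpa using h3
          obtain ⟨s, hs, w, hwU, hwS, hsw⟩ := hclosed (insert x S) hS'
            (by rw [← hxy]; exact Finset.mem_insert_self _ _) (by omega)
          rcases hcl s hs w hwU hsw with h9 | h9
          · exact hwS h9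
          · simp at h9
        | cons z l'' =>
          refine ⟨z :: l'', insert x S, h1.tail, (List.nodup_cons.1 h2).2, ?_, ?_, hS', hcl, ?_⟩
          · rw [List.getLast?_cons_cons] at h3
            exact h3
          · intro v hv
            refine ⟨(h4 v (List.mem_cons_of_mem _ hv)).1, ?_⟩
            rw [Finset.mem_insert, not_or]
            refine ⟨?_, (h4 v (List.mem_cons_of_mem _ hv)).2⟩
            rintro rfl
            exact (List.nodup_cons.1 h2).1 hv
          · rw [hcard]
            rw [List.length_cons] at h7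
            by_cases h9 : S.card + 1 = M
            · exact Or.inr h9
            · refine Or.inl ⟨by omega, by omega⟩

/-- A long path from a given vertex `y`.  `hclosed`: no set `S ∋ y` with at most `M` elements is
closed inside `U`; `hexp`: every set with exactly `M` elements has at least `p` outside neighbours
in `U`.
PROOF. Depth first search started in `y`: states `(l, S)` with `l` a chain without repetition in
`U ∖ S` whose LAST element (bottom of the stack) is `y`, `S ⊆ U`, no edge from `S` to
`U ∖ (S ∪ l)`.  Claim: for every `n ≥ 1` there is a state with `2 |S| + |l| = n` and `|S| < M`, or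
a state with `|S| = M`.  `n = 1`: `([y], ∅)` (`M ≥ 1`).  Step: top `x` of the stack; push an unused
neighbour in `U`, or pop `x` into `S`.  After a pop with empty stack the set `S` contains `y` (it
was popped), has at most `M` elements and is closed: impossible by `hclosed`; if after the pop
`|S| = M` we are in the second case.  As `2 |S| + |l| ≤ 2 |U|` the second case must occur.  Then the
at least `p` outside neighbours of `S` in `U` are all in `l`, so `|l| ≥ p`; reverse `l` and take
the first `p` vertices. -/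
theorem dfs_from (G : SimpleGraph V) (U : Finset V) (y : V) (hy : y ∈ U) (M p : ℕ) (hM : 1 ≤ M)
    (hp : 1 ≤ p)
    (hclosed : ∀ S ⊆ U, y ∈ S → S.card ≤ M → ∃ s ∈ S, ∃ w ∈ U, w ∉ S ∧ G.Adj s w)
    (hexp : ∀ S ⊆ U, S.card = M → ∃ W ⊆ U, p ≤ W.card ∧
      ∀ w ∈ W, w ∉ S ∧ ∃ s ∈ S, G.Adj s w) :
    ∃ z l, PathL G y z l ∧ l.length = p ∧ ∀ v ∈ l, v ∈ U := by
  classical
  obtain ⟨l, S, h1, h2, h3, h4, h5, h6, h7⟩ := DF3_step G U y hy M hM hclosed (2 * U.card)
  have hdis : S.card + l.length ≤ U.card := by
    have h8 : Disjoint S l.toFinset := by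
      rw [Finset.disjoint_left]
      intro v hv hvl
      exact (h4 v (List.mem_toFinset.1 hvl)).2 hv
    have h9 : S ∪ l.toFinset ⊆ U := by
      refine Finset.union_subset h5 fun v hv => (h4 v (List.mem_toFinset.1 hv)).1
    have h10 := Finset.card_le_card h9
    rw [Finset.card_union_of_disjoint h8, List.toFinset_card_of_nodup h2] at h10
    exact h10
  have hSM : S.card = M := by
    rcases h7 with ⟨h7, _⟩ | h7
    · omega
    · exact h7
  obtain ⟨W, hWU, hpW, hW⟩ := hexp S h5 hSM
  have hlen : p ≤ l.length := by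
    have h8 : W ⊆ l.toFinset := by
      intro w hw
      obtain ⟨hwS, s, hs, hsw⟩ := hW w hw
      rcases h6 s hs w (hWU hw) hsw with h9 | h9
      · exact absurd h9 hwS
      · exact List.mem_toFinset.2 h9
    have h9 := Finset.card_le_card h8
    rw [List.toFinset_card_of_nodup h2] at h9
    omega
  have hne : l ≠ [] := by
    rintro rfl
    simp at h3
  have hpath : PathL G (l.head hne) y l :=
    ⟨h1, h2, List.head?_eq_some_head hne, h3⟩
  obtain ⟨hlt, hp1, hp2⟩ := DF2_take hpath.reverse p hp (by rw [List.length_reverse]; exact hlen)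
  refine ⟨_, _, hp1, hp2, ?_⟩
  intro v hv
  exact (h4 v (List.mem_reverse.1 (List.mem_of_mem_take hv))).1

end TurMod
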