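import Pool.Agent.TurMod.Glue
import Pool.Agent.TurMod.Dfs
import Pool.Agent.TurMod.Pot

/-!
# The expansion lemma: `k` consecutive even cycle lengths in sparse expanding graphs
-/

namespace TurMod

open Finset

variable {V : Type*}

/- MODULE EX1 -/
private lemma EX1_vol [Fintype V] (F : SimpleGraph V) [∀ u v, Decidable (F.Adj u v)] :
    vol F Finset.univ = ∑ u : V, ∑ v : V, if F.Adj u v then 1 else 0 := by
  classical
  unfold vol dg
  refine Finset.sum_congr rfl (fun u _ => ?_)
  rw [Finset.card_filter]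
  refine Finset.sum_congr rfl (fun v _ => ?_)
  by_cases h : F.Adj u v
  · rw [if_pos h, if_pos h]
  · rw [if_neg h, if_neg h]

open Classical in
private def EX1_graph (F : SimpleGraph V) (c : V → Bool) : SimpleGraph V where
  Adj u v := F.Adj u v ∧ c u ≠ c v
  symm := ⟨fun _ _ h => ⟨h.1.symm, h.2.symm⟩⟩
  loopless := ⟨fun _ h => h.2 rfl⟩

open Classical in
private lemma EX1_pair [Fintype V] (F : SimpleGraph V) (u v : V) :
    (∑ _c : V → Bool, if F.Adj u v then 1 else 0)
      = 2 * ∑ c : V → Bool, if (EX1_graph F c).Adj u v then 1 else 0 := by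
  by_cases h : F.Adj u v
  · have huv : v ≠ u := fun e => F.loopless.irrefl u (e ▸ h)
    have hinv : Function.Involutive (fun c : V → Bool => Function.update c u (!c u)) := by
      intro c
      funext w
      by_cases hw : w = u
      · subst hw; simp
      · simp [Function.update_of_ne hw]
    have e1 : (∑ c : V → Bool, if c u ≠ c v then 1 else 0)
        = ∑ c : V → Bool, if ¬ (c u ≠ c v) then 1 else 0 := by
      rw [← Equiv.sum_comp (hinv.toPerm _)]
      refine Finset.sum_congr rfl (fun c _ => ?_)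
      have h1 : (hinv.toPerm _) c u = !c u := by
        show Function.update c u (!c u) u = _
        simp
      have h2 : (hinv.toPerm _) c v = c v := by
        show Function.update c u (!c u) v = _
        rw [Function.update_of_ne huv]
      rw [h1, h2]
      cases c u <;> cases c v <;> simp
    have e2 : (∑ c : V → Bool, if (EX1_graph F c).Adj u v then 1 else 0)
        = ∑ c : V → Bool, if c u ≠ c v then 1 else 0 := by
      refine Finset.sum_congr rfl (fun c _ => ?_)
      by_cases hc : c u ≠ c v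
      · rw [if_pos hc, if_pos (show (EX1_graph F c).Adj u v from ⟨h, hc⟩)]
      · rw [if_neg hc, if_neg (fun h' : (EX1_graph F c).Adj u v => hc h'.2)]
    have e3 : (∑ _c : V → Bool, if F.Adj u v then 1 else 0)
        = (∑ c : V → Bool, if c u ≠ c v then 1 else 0)
          + ∑ c : V → Bool, if ¬ (c u ≠ c v) then 1 else 0 := by
      rw [← Finset.sum_add_distrib]
      refine Finset.sum_congr rfl (fun c _ => ?_)
      rw [if_pos h]
      by_cases hc : c u ≠ c v
      · rw [if_pos hc, if_neg (fun h' => h' hc)]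
      · rw [if_neg hc, if_pos hc]
    rw [e3, e2, ← e1]
    ring
  · have e2 : (∑ c : V → Bool, if (EX1_graph F c).Adj u v then 1 else 0) = 0 := by
      refine Finset.sum_eq_zero (fun c _ => ?_)
      rw [if_neg (fun h' : (EX1_graph F c).Adj u v => h h'.1)]
    rw [e2]
    simp [h]

/-- A bipartite subgraph with at least half of the edges.
PROOF. Choose `c : V → Bool` with the maximal number of ordered adjacent pairs `(u, v)` with
`c u ≠ c v` (finitely many `c`).  Then every vertex `u` has at least half of its neighbours in the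
other class (otherwise change `c u`; the number of good pairs changes by
`2 (#same - #other) > 0`).  Let `F1.Adj u v := F.Adj u v ∧ c u ≠ c v` and sum over `u`. -/
theorem bip_half [Fintype V] (F : SimpleGraph V) :
    ∃ (c : V → Bool) (F1 : SimpleGraph V), F1 ≤ F ∧ (∀ u v, F1.Adj u v → c u ≠ c v) ∧
      vol F Finset.univ ≤ 2 * vol F1 Finset.univ := by
  classical
  have hsum : ∑ _c : V → Bool, vol F Finset.univ
      ≤ ∑ c : V → Bool, 2 * vol (EX1_graph F c) Finset.univ := by
    refine le_of_eq ?_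
    rw [← Finset.mul_sum]
    simp only [EX1_vol]
    rw [Finset.sum_comm]
    rw [Finset.sum_comm (s := (Finset.univ : Finset (V → Bool)))]
    rw [Finset.mul_sum]
    refine Finset.sum_congr rfl (fun u _ => ?_)
    rw [Finset.sum_comm]
    rw [Finset.sum_comm (s := (Finset.univ : Finset (V → Bool)))]
    rw [Finset.mul_sum]
    refine Finset.sum_congr rfl (fun v _ => ?_)
    exact EX1_pair F u v
  obtain ⟨c, _, hc⟩ := Finset.exists_le_of_sum_le Finset.univ_nonempty hsum
  exact ⟨c, EX1_graph F c, fun u v h => h.1, fun u v h => h.2, hc⟩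

/- MODULE EX2 -/
private def EX2_R (F : SimpleGraph V) (S : Finset V) (r : V) : ℕ → V → Prop
  | 0, v => v = r
  | n + 1, v => v ∈ S ∧ ∃ u, EX2_R F S r n u ∧ F.Adj u v

private lemma EX2_mem (F : SimpleGraph V) (S : Finset V) (r : V) (hr : r ∈ S) (n : ℕ) (v : V)
    (h : EX2_R F S r n v) : v ∈ S := by
  cases n with
  | zero => rw [show v = r from h]; exact hr
  | succ n => exact h.1

private lemma EX2_all (F : SimpleGraph V) (S : Finset V) (hconn : Conn F S 0) (r : V) (hr : r ∈ S)
    (v : V) (hv : v ∈ S) : ∃ n, EX2_R F S r n v := by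
  classical
  by_contra hno
  obtain ⟨a, ha, c, hc, hcA, _, hac⟩ := hconn ∅ (S.filter (fun v => ∃ n, EX2_R F S r n v))
    (by simp) (Finset.filter_subset _ _)
    ⟨r, Finset.mem_filter.2 ⟨hr, 0, rfl⟩⟩ (by simp)
    ⟨v, hv, fun h => hno (Finset.mem_filter.1 h).2, by simp⟩
  obtain ⟨_, n, hn⟩ := Finset.mem_filter.1 ha
  exact hcA (Finset.mem_filter.2 ⟨hc, n + 1, hc, a, hn, hac⟩)

open Classical in
private noncomputable def EX2_lev (F : SimpleGraph V) (S : Finset V) (r : V) (v : V) : ℕ :=
  if h : ∃ n, EX2_R F S r n v then Nat.find h else 0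

private lemma EX2_lev_spec (F : SimpleGraph V) (S : Finset V) (r v : V)
    (h : ∃ n, EX2_R F S r n v) : EX2_R F S r (EX2_lev F S r v) v := by
  classical
  unfold EX2_lev
  rw [dif_pos h]
  exact Nat.find_spec h

private lemma EX2_lev_le (F : SimpleGraph V) (S : Finset V) (r v : V) (n : ℕ)
    (h : EX2_R F S r n v) : EX2_lev F S r v ≤ n := by
  classical
  have h' : ∃ n, EX2_R F S r n v := ⟨n, h⟩
  unfold EX2_lev
  rw [dif_pos h']
  exact Nat.find_min' h' h

/-- Breadth first search in a connected set `S`, bipartite graph.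
PROOF. For `v ∈ S` let `lev v` be the least `n` such that there is a path (`PathL`) from `r` to `v`
inside `S` with `n + 1` vertices (`exists_path_of_conn` with `X = ∅`: there is one), for `v ∉ S` put
`lev v = 0`, `par v = r`.  Adjacent vertices of `S` have levels differing by at most `1` (a shortest
path to `u` not containing `v` extends to `v`; if it contains `v` its initial part shows
`lev v ≤ lev u`), and exactly by `1` because along a path from `r` the colour alternates, so
the colour of `v` is determined by the parity of `lev v`.  For `v ∈ S`, `lev v > 0`, the last but one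
vertex of a shortest path is `par v`, of level `lev v - 1` (`≤` from the initial part, `≥` as
`v` is a neighbour).  Alternatively use `SimpleGraph.dist` of the graph induced on `S`. -/
theorem bfs (F : SimpleGraph V) (c : V → Bool) (hc : ∀ u v, F.Adj u v → c u ≠ c v)
    (S : Finset V) (hconn : Conn F S 0) (r : V) (hr : r ∈ S) :
    ∃ (lev : V → ℕ) (par : V → V), (∀ v ∈ S, lev v = 0 → v = r) ∧
      (∀ v ∈ S, 0 < lev v → par v ∈ S ∧ F.Adj v (par v) ∧ lev (par v) + 1 = lev v) ∧
      (∀ u ∈ S, ∀ v ∈ S, F.Adj u v → lev u = lev v + 1 ∨ lev v = lev u + 1) := by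
  have hspec : ∀ v ∈ S, EX2_R F S r (EX2_lev F S r v) v := fun v hv =>
    EX2_lev_spec F S r v (EX2_all F S hconn r hr v hv)
  have hstep : ∀ u ∈ S, ∀ v ∈ S, F.Adj u v → EX2_lev F S r v ≤ EX2_lev F S r u + 1 :=
    fun u hu v hv huv => EX2_lev_le F S r v _ ⟨hv, u, hspec u hu, huv⟩
  have h0 : ∀ v ∈ S, EX2_lev F S r v = 0 → v = r := by
    intro v hv h
    have := hspec v hv
    rw [h] at this
    exact this
  have hpar : ∀ v, ∃ u, v ∈ S → 0 < EX2_lev F S r v →
      u ∈ S ∧ F.Adj v u ∧ EX2_lev F S r u + 1 = EX2_lev F S r v := by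
    intro v
    by_cases hv : v ∈ S
    · rcases Nat.eq_zero_or_pos (EX2_lev F S r v) with h | h
      · exact ⟨v, fun _ h' => absurd h' (by omega)⟩
      · obtain ⟨n, hn⟩ : ∃ n, EX2_lev F S r v = n + 1 := ⟨EX2_lev F S r v - 1, by omega⟩
        have hs := hspec v hv
        rw [hn] at hs
        obtain ⟨_, u, hu, huv⟩ := hs
        have huS := EX2_mem F S r hr n u hu
        refine ⟨u, fun _ _ => ⟨huS, huv.symm, ?_⟩⟩
        have h1 := EX2_lev_le F S r u n hu
        have h2 := hstep u huS v hv huv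
        omega
    · exact ⟨v, fun h => absurd h hv⟩
  choose par hpar' using hpar
  have hcol : ∀ n, ∀ v ∈ S, EX2_lev F S r v = n → c v = xor (c r) (decide (n % 2 = 1)) := by
    intro n
    induction n with
    | zero =>
      intro v hv h
      rw [h0 v hv h]
      simp
    | succ n ih =>
      intro v hv h
      obtain ⟨h1, h2, h3⟩ := hpar' v hv (by omega)
      have h4 := ih (par v) h1 (by omega)
      have h5 := hc v (par v) h2
      rw [h4] at h5
      have h6 : c v = !(xor (c r) (decide (n % 2 = 1))) := by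
        cases hcv : c v <;> cases hx : (xor (c r) (decide (n % 2 = 1))) <;>
          rw [hcv, hx] at h5 <;> simp_all
      rw [h6]
      rcases Nat.mod_two_eq_zero_or_one n with hn | hn
      · have : (n + 1) % 2 = 1 := by omega
        simp [hn, this]
      · have : (n + 1) % 2 = 0 := by omega
        simp [hn, this]
  refine ⟨EX2_lev F S r, par, h0, fun v hv h => hpar' v hv h, ?_⟩
  intro u hu v hv huv
  have h1 := hstep u hu v hv huv
  have h2 := hstep v hv u hu huv.symm
  have h3 : EX2_lev F S r u ≠ EX2_lev F S r v := by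
    intro h
    apply hc u v huv
    rw [hcol _ u hu rfl, hcol _ v hv rfl, h]
  omega

/- MODULE EX3 -/
open Classical in
private lemma EX3_vol (F : SimpleGraph V) (S : Finset V) (p : V → Prop) [DecidablePred p] :
    vol F (S.filter p) = ∑ u ∈ S, ∑ v ∈ S, if p u ∧ p v ∧ F.Adj u v then 1 else 0 := by
  unfold vol dg
  rw [Finset.sum_filter]
  refine Finset.sum_congr rfl (fun u _ => ?_)
  by_cases hu : p u
  · rw [if_pos hu, Finset.card_filter, Finset.sum_filter]
    refine Finset.sum_congr rfl (fun v _ => ?_)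
    by_cases hv : p v
    · by_cases hA : F.Adj u v
      · rw [if_pos hv, if_pos hA, if_pos ⟨hu, hv, hA⟩]
      · rw [if_pos hv, if_neg hA, if_neg (fun h => hA h.2.2)]
    · rw [if_neg hv, if_neg (fun h => hv h.2.1)]
  · rw [if_neg hu]
    symm
    exact Finset.sum_eq_zero (fun v _ => if_neg (fun h => hu h.1))

/-- One pair of consecutive levels is dense.
PROOF. Let `T i = {v ∈ S : lev v = i ∨ lev v = i + 1}`.  Every ordered adjacent pair inside `S` lies
in exactly one `T i` (`i` = smaller level; inside `T i` all adjacent pairs have levels `i`, `i+1`),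
so `vol S = ∑ i ≤ m, vol (T i)` with `m` the largest level, and `∑ i |T i| ≤ 2 |S|`.  If
`vol (T i) ≤ (B/2) |T i|` for all `i` then `vol S ≤ B |S|`.  (Work with `i ∈ range (m + 1)`,
`m = S.sup lev`.) -/
theorem dense_level [DecidableEq V] (F : SimpleGraph V) (S : Finset V) (lev : V → ℕ) (B : ℝ)
    (hB : 0 ≤ B)
    (hlev : ∀ u ∈ S, ∀ v ∈ S, F.Adj u v → lev u = lev v + 1 ∨ lev v = lev u + 1)
    (hvol : B * (S.card : ℝ) < (vol F S : ℝ)) :
    ∃ i : ℕ, B / 2 * ((S.filter (fun v => lev v = i ∨ lev v = i + 1)).card : ℝ) <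
      (vol F (S.filter (fun v => lev v = i ∨ lev v = i + 1)) : ℝ) := by
  classical
  by_contra hno
  push Not at hno
  have h1 : vol F S ≤ ∑ i ∈ range (S.sup lev + 1),
      vol F (S.filter (fun v => lev v = i ∨ lev v = i + 1)) := by
    have e0 : vol F S = ∑ u ∈ S, ∑ v ∈ S, if F.Adj u v then 1 else 0 := by
      have h := EX3_vol F S (fun _ => True)
      rw [Finset.filter_true] at h
      rw [h]
      refine Finset.sum_congr rfl (fun u _ => Finset.sum_congr rfl (fun v _ => ?_))
      by_cases hA : F.Adj u v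
      · rw [if_pos hA, if_pos ⟨trivial, trivial, hA⟩]
      · rw [if_neg hA, if_neg (fun h => hA h.2.2)]
    have e1 : ∑ i ∈ range (S.sup lev + 1),
        vol F (S.filter (fun v => lev v = i ∨ lev v = i + 1))
        = ∑ u ∈ S, ∑ v ∈ S, ∑ i ∈ range (S.sup lev + 1), if (lev u = i ∨ lev u = i + 1) ∧
          (lev v = i ∨ lev v = i + 1) ∧ F.Adj u v then 1 else 0 := by
      simp only [EX3_vol]
      rw [Finset.sum_comm]
      exact Finset.sum_congr rfl (fun u _ => Finset.sum_comm)
    rw [e0, e1]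
    refine Finset.sum_le_sum (fun u hu => Finset.sum_le_sum (fun v hv => ?_))
    by_cases hA : F.Adj u v
    · rw [if_pos hA]
      have hm : min (lev u) (lev v) ∈ range (S.sup lev + 1) := by
        rw [mem_range]
        have := Finset.le_sup (f := lev) hu
        omega
      have hlv := hlev u hu v hv hA
      have e3 : (if (lev u = min (lev u) (lev v) ∨ lev u = min (lev u) (lev v) + 1) ∧
          (lev v = min (lev u) (lev v) ∨ lev v = min (lev u) (lev v) + 1) ∧ F.Adj u v
          then 1 else 0) = 1 := by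
        rw [if_pos]
        refine ⟨by omega, by omega, hA⟩
      refine le_trans (le_of_eq e3.symm) ?_
      exact Finset.single_le_sum (f := fun i => if (lev u = i ∨ lev u = i + 1) ∧
          (lev v = i ∨ lev v = i + 1) ∧ F.Adj u v then 1 else 0) (fun _ _ => Nat.zero_le _) hm
    · rw [if_neg hA]
      exact Nat.zero_le _
  have h2 : ∑ i ∈ range (S.sup lev + 1),
      (S.filter (fun v => lev v = i ∨ lev v = i + 1)).card ≤ 2 * S.card := by
    simp only [Finset.card_filter]
    rw [Finset.sum_comm]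
    have h3 : ∀ v ∈ S, (∑ i ∈ range (S.sup lev + 1), if lev v = i ∨ lev v = i + 1 then 1 else 0)
        ≤ 2 := by
      intro v _
      calc (∑ i ∈ range (S.sup lev + 1), if lev v = i ∨ lev v = i + 1 then 1 else 0)
          = ((range (S.sup lev + 1)).filter (fun i => lev v = i ∨ lev v = i + 1)).card := by
            rw [Finset.card_filter]
        _ ≤ ({lev v, lev v - 1} : Finset ℕ).card := by
            refine Finset.card_le_card (fun i hi => ?_)
            rw [Finset.mem_filter] at hi
            rw [Finset.mem_insert, Finset.mem_singleton]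
            omega
        _ ≤ 2 := Finset.card_le_two
    refine (Finset.sum_le_sum h3).trans (le_of_eq ?_)
    rw [Finset.sum_const, smul_eq_mul, mul_comm]
  have h4 : (vol F S : ℝ) ≤ B * S.card := by
    calc (vol F S : ℝ) ≤ ((∑ i ∈ range (S.sup lev + 1),
          vol F (S.filter (fun v => lev v = i ∨ lev v = i + 1)) : ℕ) : ℝ) := by exact_mod_cast h1
      _ = ∑ i ∈ range (S.sup lev + 1),
          (vol F (S.filter (fun v => lev v = i ∨ lev v = i + 1)) : ℝ) := by push_cast; rfl
      _ ≤ ∑ i ∈ range (S.sup lev + 1),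
          B / 2 * ((S.filter (fun v => lev v = i ∨ lev v = i + 1)).card : ℝ) :=
          Finset.sum_le_sum (fun i _ => hno i)
      _ = B / 2 * ((∑ i ∈ range (S.sup lev + 1),
          (S.filter (fun v => lev v = i ∨ lev v = i + 1)).card : ℕ) : ℝ) := by
          rw [← Finset.mul_sum]; push_cast; rfl
      _ ≤ B / 2 * ((2 * S.card : ℕ) : ℝ) := by
          refine mul_le_mul_of_nonneg_left ?_ (by linarith)
          exact_mod_cast h2
      _ = B * S.card := by push_cast; ring
  linarith

/- MODULE EX4 -/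
private lemma EX4_iter (F : SimpleGraph V) (S : Finset V) (lev : V → ℕ) (par : V → V)
    (hpar : ∀ v ∈ S, 0 < lev v → par v ∈ S ∧ F.Adj v (par v) ∧ lev (par v) + 1 = lev v) (n : ℕ) :
    ∀ v ∈ S, n ≤ lev v → par^[n] v ∈ S ∧ lev (par^[n] v) + n = lev v := by
  induction n with
  | zero => exact fun v hv _ => ⟨hv, rfl⟩
  | succ n ih =>
    intro v hv hn
    obtain ⟨h1, h2⟩ := ih v hv (by omega)
    obtain ⟨h3, _, h4⟩ := hpar _ h1 (by omega)
    rw [Function.iterate_succ_apply']
    exact ⟨h3, by omega⟩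

/-- A vertex with two neighbours in different branches.
`H` is connected, all its vertices have level `i` or `i + 1`, at least two vertices of `H` have level
`i`.  There are `j ≥ 1` such that `par^j` is constant on the vertices of `H` of level `i`, and a
vertex `y ∈ H` of level `i + 1` with two neighbours `x1, x2 ∈ H` of level `i` with
`par^(j-1) x1 ≠ par^(j-1) x2`.
PROOF. `par^n v` is in `S` and has level `lev v - n` for `n ≤ lev v` (induction), so `par^i v = r`
for all `v ∈ S` of level `i`.  Let `j` be the least number such that `par^j` is constant on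
`H_i = {v ∈ H : lev v = i}`; `j ≥ 1` since `|H_i| ≥ 2`.  So `χ = par^(j-1)` is not constant on `H_i`;
let `χ x ≠ χ x'`.  Let `A` = all vertices `v ∈ H` of level `i` with `χ v = χ x` together with all
vertices of `H` of level `i + 1` having a neighbour in `H` of level `i` with `χ = χ x`.  `A` is
nonempty, misses `x'`; so by connectedness (`X = ∅`) there are `a ∈ A`, `v ∈ H ∖ A` adjacent; their
levels differ by one.  If `lev a = i` then `lev v = i + 1` and `v` has the neighbour `a`, so `v ∈ A`: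
impossible.  So `lev a = i + 1`, `lev v = i`, `χ v ≠ χ x`, and `a` has a neighbour `x1` with
`χ x1 = χ x`: take `y = a`, `x2 = v`. -/
theorem branch (F : SimpleGraph V) (S : Finset V) (r : V) (lev : V → ℕ) (par : V → V)
    (h0 : ∀ v ∈ S, lev v = 0 → v = r)
    (hpar : ∀ v ∈ S, 0 < lev v → par v ∈ S ∧ F.Adj v (par v) ∧ lev (par v) + 1 = lev v)
    (hlev : ∀ u ∈ S, ∀ v ∈ S, F.Adj u v → lev u = lev v + 1 ∨ lev v = lev u + 1)
    (H : Finset V) (hHS : H ⊆ S) (i : ℕ) (hH : ∀ v ∈ H, lev v = i ∨ lev v = i + 1)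
    (hconn : Conn F H 0) (u u' : V) (hu : u ∈ H) (hu' : u' ∈ H) (hui : lev u = i)
    (hui' : lev u' = i) (huu : u ≠ u') :
    ∃ j : ℕ, 1 ≤ j ∧ j ≤ i ∧ (∀ v ∈ H, ∀ v' ∈ H, lev v = i → lev v' = i →
        par^[j] v = par^[j] v') ∧
      ∃ y ∈ H, ∃ x1 ∈ H, ∃ x2 ∈ H, lev y = i + 1 ∧ lev x1 = i ∧ lev x2 = i ∧ F.Adj y x1 ∧
        F.Adj y x2 ∧ par^[j - 1] x1 ≠ par^[j - 1] x2 := by
  classical
  have hi : ∀ v ∈ H, ∀ v' ∈ H, lev v = i → lev v' = i → par^[i] v = par^[i] v' := by
    have key : ∀ v ∈ H, lev v = i → par^[i] v = r := by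
      intro v hv hvi
      obtain ⟨h1, h2⟩ := EX4_iter F S lev par hpar i v (hHS hv) hvi.ge
      exact h0 _ h1 (by omega)
    intro v hv v' hv' h h'
    rw [key v hv h, key v' hv' h']
  have hex : ∃ j, ∀ v ∈ H, ∀ v' ∈ H, lev v = i → lev v' = i → par^[j] v = par^[j] v' := ⟨i, hi⟩
  set j := Nat.find hex with hj
  have hjs := Nat.find_spec hex
  rw [← hj] at hjs
  have hji : j ≤ i := Nat.find_min' hex hi
  have hj1 : 1 ≤ j := by
    rcases Nat.eq_zero_or_pos j with h | h
    · rw [h] at hjs
      exact absurd (hjs u hu u' hu' hui hui') huu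
    · exact h
  refine ⟨j, hj1, hji, hjs, ?_⟩
  have hnot := Nat.find_min hex (m := j - 1) (by omega)
  push Not at hnot
  obtain ⟨x, hx, x', hx', hxi, hxi', hne⟩ := hnot
  obtain ⟨a, ha, v, hv, hvA, _, hav⟩ := hconn ∅
    (H.filter (fun v => (lev v = i ∧ par^[j - 1] v = par^[j - 1] x) ∨ (lev v = i + 1 ∧
      ∃ w ∈ H, lev w = i ∧ F.Adj v w ∧ par^[j - 1] w = par^[j - 1] x)))
    (by simp) (Finset.filter_subset _ _)
    ⟨x, Finset.mem_filter.2 ⟨hx, Or.inl ⟨hxi, rfl⟩⟩⟩ (by simp)
    ⟨x', hx', fun h => by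
      rcases (Finset.mem_filter.1 h).2 with h | h
      · exact hne h.2.symm
      · omega, by simp⟩
  obtain ⟨haH, ha'⟩ := Finset.mem_filter.1 ha
  have hlv := hlev a (hHS haH) v (hHS hv) hav
  have hvi := hH v hv
  rcases ha' with ⟨hai, haχ⟩ | ⟨hai, w, hwH, hwi, haw, hwχ⟩
  · exfalso
    apply hvA
    exact Finset.mem_filter.2 ⟨hv, Or.inr ⟨by omega, a, haH, hai, hav.symm, haχ⟩⟩
  · have hvi' : lev v = i := by omega
    refine ⟨a, haH, w, hwH, v, hv, hai, hwi, hvi', haw, hav, ?_⟩
    rw [hwχ]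
    intro h
    exact hvA (Finset.mem_filter.2 ⟨hv, Or.inl ⟨hvi', h.symm⟩⟩)

/- MODULE EX5 -/
private lemma EX5_anc (F : SimpleGraph V) (S : Finset V) (lev : V → ℕ) (par : V → V)
    (hpar : ∀ v ∈ S, 0 < lev v → par v ∈ S ∧ F.Adj v (par v) ∧ lev (par v) + 1 = lev v)
    (v : V) (hv : v ∈ S) (a : ℕ) (ha : a ≤ lev v) :
    par^[a] v ∈ S ∧ lev (par^[a] v) + a = lev v := by
  induction a with
  | zero => exact ⟨hv, rfl⟩
  | succ a ih =>
    obtain ⟨h1, h2⟩ := ih (by omega)
    rw [Function.iterate_succ_apply']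
    obtain ⟨h3, -, h4⟩ := hpar _ h1 (by omega)
    exact ⟨h3, by omega⟩

private lemma EX5_up (F : SimpleGraph V) (S : Finset V) (lev : V → ℕ) (par : V → V)
    (hpar : ∀ v ∈ S, 0 < lev v → par v ∈ S ∧ F.Adj v (par v) ∧ lev (par v) + 1 = lev v)
    (v : V) (hv : v ∈ S) (j : ℕ) (hj : j ≤ lev v) :
    PathL F v (par^[j] v) ((List.range (j + 1)).map (fun a => par^[a] v)) := by
  refine ⟨?_, ?_, ?_, ?_⟩
  · rw [List.isChain_iff_getElem]
    intro n hn
    simp only [List.length_map, List.length_range] at hn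
    simp only [List.getElem_map, List.getElem_range]
    have := EX5_anc F S lev par hpar v hv n (by omega)
    rw [Function.iterate_succ_apply']
    exact (hpar _ this.1 (by omega)).2.1
  · refine List.Nodup.map_on ?_ List.nodup_range
    intro a ha b hb hab
    simp only [List.mem_range] at ha hb
    have h1 := EX5_anc F S lev par hpar v hv a (by omega)
    have h2 := EX5_anc F S lev par hpar v hv b (by omega)
    rw [hab] at h1
    omega
  · simp [List.range_succ_eq_map]
  · simp [List.range_succ]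

/-- The cycles.  Situation of `branch`; moreover `l` is a path starting in `y` inside
`H ∖ {x1, x2}` with `2 k` vertices.  Then there are cycles of length `2 (s + j)` for `1 ≤ s ≤ k`.
PROOF. `l = (p_0 = y, p_1, …, p_(2k-1))` alternates between the levels `i + 1` and `i`, `p_(2s-1)` has
level `i`.  `χ = par^(j-1)`.  As `χ x1 ≠ χ x2` one of them, call it `x`, has
`χ x ≠ χ (p_(2s-1))`.  Consider the paths
`B 0 = (z, par^(j-1) x, …, par x, x)` with `z = par^j x`,
`B 1 = (x, y, p_1, …, p_(2s-1))`,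
`B 2 = (p_(2s-1), par p_(2s-1), …, par^j p_(2s-1) = z)`.
They have `j + 1`, `2 s + 1`, `j + 1` vertices.  The vertices `par^a v` (`a ≤ j ≤ i`) of a vertex `v` of
level `i` have level `i - a`: so `B 0`, `B 2` are paths and meet the levels `≥ i` only in their ends
`x`, `p_(2s-1)`; a common vertex of `B 0` and `B 2` is `par^a x = par^a p_(2s-1)` (same `a` by levels),
and if `a ≤ j - 1` then applying `par^(j-1-a)` gives `χ x = χ p_(2s-1)`, so `a = j`: it is `z`.
`B 1` is a path as `x` is not on `l`.  `hasCyc_of_paths` with `r = 3`: length `j + 2 s + j`. -/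
theorem tree_cycle (F : SimpleGraph V) (S : Finset V) (r : V) (lev : V → ℕ) (par : V → V)
    (h0 : ∀ v ∈ S, lev v = 0 → v = r)
    (hpar : ∀ v ∈ S, 0 < lev v → par v ∈ S ∧ F.Adj v (par v) ∧ lev (par v) + 1 = lev v)
    (hlev : ∀ u ∈ S, ∀ v ∈ S, F.Adj u v → lev u = lev v + 1 ∨ lev v = lev u + 1)
    (H : Finset V) (hHS : H ⊆ S) (i : ℕ) (hH : ∀ v ∈ H, lev v = i ∨ lev v = i + 1)
    (j : ℕ) (hj : 1 ≤ j) (hji : j ≤ i) (hjc : ∀ v ∈ H, ∀ v' ∈ H, lev v = i → lev v' = i →
        par^[j] v = par^[j] v')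
    (y x1 x2 : V) (hx1 : x1 ∈ H) (hx2 : x2 ∈ H) (hy : y ∈ H) (hyi : lev y = i + 1)
    (hx1i : lev x1 = i) (hx2i : lev x2 = i) (hyx1 : F.Adj y x1) (hyx2 : F.Adj y x2)
    (hx12 : par^[j - 1] x1 ≠ par^[j - 1] x2) (k : ℕ) (z : V) (l : List V) (hl : PathL F y z l)
    (hlk : l.length = 2 * k) (hlH : ∀ v ∈ l, v ∈ H ∧ v ≠ x1 ∧ v ≠ x2) (s : ℕ) (hs : 1 ≤ s)
    (hsk : s ≤ k) : HasCyc F (2 * (s + j)) := by
  obtain ⟨hlc, hln, hlh, hll⟩ := hl
  -- levels along `l`
  have hgl : ∀ n (hn : n < l.length), lev (l[n]'hn) = if n % 2 = 0 then i + 1 else i := by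
    intro n
    induction n with
    | zero =>
      intro hn
      have : l[0]'hn = y := by
        rw [List.head?_eq_getElem?, List.getElem?_eq_getElem hn] at hlh
        exact Option.some.inj hlh
      rw [this, hyi]
      simp
    | succ n ih =>
      intro hn
      have h1 := ih (by omega)
      have h2 : F.Adj (l[n]'(by omega)) (l[n + 1]'hn) := List.isChain_iff_getElem.1 hlc n hn
      have hm1 : l[n]'(by omega) ∈ H := (hlH _ (List.getElem_mem _)).1
      have hm2 : l[n + 1]'hn ∈ H := (hlH _ (List.getElem_mem _)).1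
      have h3 := hlev _ (hHS hm1) _ (hHS hm2) h2
      have h4 := hH _ hm2
      by_cases hpn : n % 2 = 0
      · rw [if_pos hpn] at h1
        rw [if_neg (by omega)]
        omega
      · rw [if_neg hpn] at h1
        rw [if_pos (by omega)]
        omega
  have hn1 : 2 * s - 1 < l.length := by omega
  set c : V := l[2 * s - 1]'hn1 with hc
  have hcl : c ∈ l := List.getElem_mem _
  have hcH : c ∈ H := (hlH c hcl).1
  have hci : lev c = i := by
    rw [hc, hgl _ hn1, if_neg (by omega)]
  -- choose `x`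
  obtain ⟨x, hxH, hxi, hyx, hxc, hxl⟩ : ∃ x ∈ H, lev x = i ∧ F.Adj y x ∧
      par^[j - 1] x ≠ par^[j - 1] c ∧ x ∉ l := by
    by_cases h : par^[j - 1] x1 = par^[j - 1] c
    · exact ⟨x2, hx2, hx2i, hyx2, fun h' => hx12 (h.trans h'.symm), fun h' => (hlH _ h').2.2 rfl⟩
    · exact ⟨x1, hx1, hx1i, hyx1, h, fun h' => (hlH _ h').2.1 rfl⟩
  have hpx := EX5_up F S lev par hpar x (hHS hxH) j (by omega)
  have hpc := EX5_up F S lev par hpar c (hHS hcH) j (by omega)
  have hzz : par^[j] c = par^[j] x := hjc _ hcH _ hxH hci hxi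
  rw [hzz] at hpc
  have hB1 : PathL F x c (x :: l.take (2 * s)) := by
    refine ⟨?_, ?_, by simp, ?_⟩
    · rw [List.isChain_cons]
      refine ⟨?_, hlc.take _⟩
      intro v hv
      rw [List.head?_take] at hv
      rw [if_neg (by omega), hlh] at hv
      simp only [Option.mem_def, Option.some.injEq] at hv
      subst hv
      exact hyx.symm
    · rw [List.nodup_cons]
      exact ⟨fun h => hxl (List.mem_of_mem_take h), hln.sublist (List.take_sublist _ _)⟩
    · rw [List.getLast?_cons, List.getLast?_take]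
      rw [if_neg (by omega)]
      rw [List.getElem?_eq_getElem hn1]
      simp [hc]
  have hU : ∀ v ∈ S, lev v = i → ∀ u ∈ (List.range (j + 1)).map (fun a => par^[a] v),
      ∃ a ≤ j, u = par^[a] v ∧ lev u + a = i := by
    intro v hv hvi u hu
    simp only [List.mem_map, List.mem_range] at hu
    obtain ⟨a, ha, rfl⟩ := hu
    have := EX5_anc F S lev par hpar v hv a (by omega)
    exact ⟨a, by omega, rfl, by omega⟩
  have hB1lev : ∀ u ∈ x :: l.take (2 * s), i ≤ lev u := by
    intro u hu
    rcases List.mem_cons.1 hu with rfl | hu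
    · omega
    · have := hH u (hlH u (List.mem_of_mem_take hu)).1
      omega
  let z' : ℕ → V := fun n => if n = 0 then par^[j] x else if n = 1 then x else if n = 2 then c else
    par^[j] x
  let B : ℕ → List V := fun n => if n = 0 then ((List.range (j + 1)).map (fun a => par^[a] x)).reverse
    else if n = 1 then x :: l.take (2 * s) else (List.range (j + 1)).map (fun a => par^[a] c)
  have hB0 : B 0 = ((List.range (j + 1)).map (fun a => par^[a] x)).reverse := rfl
  have hB1' : B 1 = x :: l.take (2 * s) := rfl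
  have hB2 : B 2 = (List.range (j + 1)).map (fun a => par^[a] c) := rfl
  have hlen0 : (B 0).length = j + 1 := by simp [hB0]
  have hlen1 : (B 1).length = 2 * s + 1 := by
    rw [hB1', List.length_cons, List.length_take, hlk]
    omega
  have hlen2 : (B 2).length = j + 1 := by simp [hB2]
  have hsum : ∑ i ∈ Finset.range 3, ((B i).length - 1) = 2 * (s + j) := by
    rw [Finset.sum_range_succ, Finset.sum_range_succ, Finset.sum_range_one, hlen0, hlen1, hlen2]
    omega
  rw [← hsum]
  refine hasCyc_of_paths 3 (by norm_num) z' B ?_ rfl ?_ ?_ ?_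
  · intro n hn
    interval_cases n
    · exact hpx.reverse
    · exact hB1
    · exact hpc
  · intro n hn
    interval_cases n
    · rw [hlen0]; omega
    · rw [hlen1]; omega
    · rw [hlen2]; omega
  · intro n m hnm hm v hvn hvm
    have hcases : (n = 0 ∧ m = 1) ∨ (n = 0 ∧ m = 2) ∨ (n = 1 ∧ m = 2) := by omega
    rcases hcases with ⟨rfl, rfl⟩ | ⟨rfl, rfl⟩ | ⟨rfl, rfl⟩
    · left
      refine ⟨rfl, ?_⟩
      rw [hB0, List.mem_reverse] at hvn
      obtain ⟨a, ha, hva, hla⟩ := hU x (hHS hxH) hxi v hvn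
      have := hB1lev v hvm
      have : a = 0 := by omega
      subst this
      exact hva
    · right
      refine ⟨rfl, rfl, ?_⟩
      rw [hB0, List.mem_reverse] at hvn
      obtain ⟨a, ha, hva, hla⟩ := hU x (hHS hxH) hxi v hvn
      obtain ⟨b, hb, hvb, hlb⟩ := hU c (hHS hcH) hci v hvm
      have hab : a = b := by omega
      subst hab
      by_cases haj : a = j
      · subst haj
        exact hva
      · exfalso
        apply hxc
        have h1 : par^[j - 1] x = par^[j - 1 - a] (par^[a] x) := by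
          rw [← Function.iterate_add_apply]
          congr 2
          omega
        have h2 : par^[j - 1] c = par^[j - 1 - a] (par^[a] c) := by
          rw [← Function.iterate_add_apply]
          congr 2
          omega
        rw [h1, h2, ← hva, ← hvb]
    · left
      refine ⟨rfl, ?_⟩
      obtain ⟨b, hb, hvb, hlb⟩ := hU c (hHS hcH) hci v hvm
      have := hB1lev v hvn
      have : b = 0 := by omega
      subst this
      exact hvb
  · rw [hsum]
    omega

/- MODULE EX6 -/
/-- Small sets expand.  If no nonempty `Y` with at most `4 k` vertices has `vol Y ≥ 2 D |Y|`, and all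
degrees inside `H` are at least `6 D`, then every nonempty `X ⊆ H` with at most `k + 1` elements
(`k ≥ 3`) has at least `2 |X|` neighbours in `H` outside `X`.
PROOF. Otherwise `Y = X ∪ N_H(X)` has `|Y| < 3 |X| ≤ 3 k + 3 ≤ 4 k + ...` : precisely
`|Y| ≤ 3 |X| - 1 ≤ 3 k + 2 ≤ 4 k`, and `vol Y ≥ ∑_(x ∈ X) dg H x ≥ 6 D |X| ≥ 2 D |Y|`: contradiction
(all neighbours in `H` of `x ∈ X` lie in `Y`, so `dg Y x ≥ dg H x`). -/
theorem small_expand [DecidableEq V] (F : SimpleGraph V) (k : ℕ) (hk : 3 ≤ k) (D : ℝ) (hD : 0 < D)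
    (hY : ∀ Y : Finset V, Y.Nonempty → Y.card ≤ 4 * k → (vol F Y : ℝ) < 2 * D * Y.card)
    (H : Finset V) (hH : ∀ v ∈ H, 6 * D ≤ (dg F H v : ℝ)) (X : Finset V) (hX : X ⊆ H)
    (hne : X.Nonempty) (hXk : X.card ≤ k + 1) :
    ∃ W ⊆ H, 2 * X.card ≤ W.card ∧ ∀ w ∈ W, w ∉ X ∧ ∃ x ∈ X, F.Adj x w := by
  classical
  set N := H.filter (fun w => w ∉ X ∧ ∃ x ∈ X, F.Adj x w) with hN
  by_cases hc : 2 * X.card ≤ N.card
  · exact ⟨N, Finset.filter_subset _ _, hc, fun w hw => (Finset.mem_filter.mp hw).2⟩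
  exfalso
  push Not at hc
  have hYc : (X ∪ N).card ≤ X.card + N.card := Finset.card_union_le _ _
  have h1 := hY (X ∪ N) (hne.mono Finset.subset_union_left) (by omega)
  have h2 : ∀ x ∈ X, dg F H x ≤ dg F (X ∪ N) x := by
    intro x hx
    unfold dg
    refine Finset.card_le_card fun w hw => ?_
    obtain ⟨hwH, hxw⟩ := Finset.mem_filter.mp hw
    refine Finset.mem_filter.mpr ⟨?_, hxw⟩
    by_cases hwX : w ∈ X
    · exact Finset.mem_union_left _ hwX
    · exact Finset.mem_union_right _ (Finset.mem_filter.mpr ⟨hwH, hwX, x, hx, hxw⟩)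
  have h3 : (6 * D) * (X.card : ℝ) ≤ (vol F (X ∪ N) : ℝ) := by
    have h4 : (∑ x ∈ X, (dg F (X ∪ N) x : ℝ)) ≤ (vol F (X ∪ N) : ℝ) := by
      unfold vol
      push_cast
      exact Finset.sum_le_sum_of_subset_of_nonneg Finset.subset_union_left
        fun _ _ _ => Nat.cast_nonneg _
    refine le_trans ?_ h4
    rw [mul_comm, ← nsmul_eq_mul, ← Finset.sum_const]
    exact Finset.sum_le_sum fun x hx => (hH x (hX hx)).trans (by exact_mod_cast h2 x hx)
  have h5 : ((X ∪ N).card : ℝ) + 1 ≤ 3 * (X.card : ℝ) := by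
    have : (X ∪ N).card + 1 ≤ 3 * X.card := by omega
    exact_mod_cast this
  nlinarith

/-- A path with `2 k` vertices from `y` in `H ∖ {x1, x2}`.
PROOF. `dfs_from` with `U = H ∖ {x1, x2}`, `M = k + 1`, `p = 2 k`.  `hclosed`: `S ∋ y` with at most
`k + 1` elements: if `|S| ≥ 2` then `small_expand` gives `W` with `≥ 2 |S| ≥ 4` elements, at least two
of them not `x1, x2` (indeed one suffices); if `S = {y}` use `dg F H y ≥ 6 D ≥ 3`.  `hexp`: `|W| ≥ 2 (k+1)`,
remove `x1, x2`: `2 k` remain. -/
theorem long_path_avoiding [DecidableEq V] (F : SimpleGraph V) (k : ℕ) (hk : 3 ≤ k) (D : ℝ)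
    (hD : 1 / 2 ≤ D)
    (hY : ∀ Y : Finset V, Y.Nonempty → Y.card ≤ 4 * k → (vol F Y : ℝ) < 2 * D * Y.card)
    (H : Finset V) (hH : ∀ v ∈ H, 6 * D ≤ (dg F H v : ℝ)) (y x1 x2 : V) (hy : y ∈ H)
    (hy1 : y ≠ x1) (hy2 : y ≠ x2) :
    ∃ z l, PathL F y z l ∧ l.length = 2 * k ∧ ∀ v ∈ l, v ∈ H ∧ v ≠ x1 ∧ v ≠ x2 := by
  classical
  have hD0 : 0 < D := by linarith
  have hmem : ∀ v, v ∈ H \ {x1, x2} ↔ v ∈ H ∧ v ≠ x1 ∧ v ≠ x2 := by
    intro v
    rw [Finset.mem_sdiff, Finset.mem_insert, Finset.mem_singleton, not_or]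
  have hsub : ∀ S : Finset V, S ⊆ H \ {x1, x2} → S ⊆ H := fun S hS v hv => ((hmem v).mp (hS hv)).1
  have hcard2 : ∀ W : Finset V, W.card ≤ (W \ {x1, x2}).card + 2 := by
    intro W
    have h1 : W.card ≤ (W \ {x1, x2}).card + ({x1, x2} : Finset V).card := by
      have := Finset.card_le_card (show W ⊆ (W \ {x1, x2}) ∪ {x1, x2} by
        intro v hv
        rw [Finset.sdiff_union_self_eq_union]
        exact Finset.mem_union_left _ hv)
      exact this.trans (Finset.card_union_le _ _)
    have h2 : ({x1, x2} : Finset V).card ≤ 2 := Finset.card_le_two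
    omega
  obtain ⟨z, l, hl, hlen, hlU⟩ := dfs_from F (H \ {x1, x2}) y ((hmem y).mpr ⟨hy, hy1, hy2⟩) (k + 1)
    (2 * k) (by omega) (by omega) (by
      intro S hS hyS hSc
      by_cases h1 : S.card ≤ 1
      · -- `S = {y}`
        have hSy : S = {y} := by
          refine (Finset.eq_singleton_iff_unique_mem).mpr ⟨hyS, fun v hv => ?_⟩
          exact Finset.card_le_one.mp h1 v hv y hyS
        have h3 : (3 : ℝ) ≤ (dg F H y : ℝ) := by
          have := hH y hy
          linarith
        have h4 : 3 ≤ dg F H y := by exact_mod_cast h3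
        unfold dg at h4
        have h5 := hcard2 (H.filter fun w => F.Adj y w)
        have h6 : 0 < ((H.filter fun w => F.Adj y w) \ {x1, x2}).card := by omega
        obtain ⟨w, hw⟩ := Finset.card_pos.mp h6
        rw [Finset.mem_sdiff, Finset.mem_filter] at hw
        refine ⟨y, hyS, w, Finset.mem_sdiff.mpr ⟨hw.1.1, hw.2⟩, ?_, hw.1.2⟩
        rw [hSy, Finset.mem_singleton]
        rintro rfl
        exact F.loopless.irrefl _ hw.1.2
      · obtain ⟨W, hWH, hWc, hW⟩ := small_expand F k hk D hD0 hY H hH S (hsub S hS) ⟨y, hyS⟩ hSc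
        have h5 := hcard2 W
        have h6 : 0 < (W \ {x1, x2}).card := by omega
        obtain ⟨w, hw⟩ := Finset.card_pos.mp h6
        rw [Finset.mem_sdiff] at hw
        obtain ⟨hwS, s, hs, hsw⟩ := hW w hw.1
        exact ⟨s, hs, w, Finset.mem_sdiff.mpr ⟨hWH hw.1, hw.2⟩, hwS, hsw⟩) (by
      intro S hS hSc
      obtain ⟨W, hWH, hWc, hW⟩ := small_expand F k hk D hD0 hY H hH S (hsub S hS)
        (Finset.card_pos.mp (by omega)) (by omega)
      have h5 := hcard2 W
      refine ⟨W \ {x1, x2}, Finset.sdiff_subset_sdiff hWH (Finset.Subset.refl _), by omega,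
        fun w hw => hW w (Finset.mem_sdiff.mp hw).1⟩)
  exact ⟨z, l, hl, hlen, fun v hv => (hmem v).mp (hlU v hv)⟩

/- MODULE EX7 -/
/-- THE EXPANSION LEMMA.
PROOF. `bip_half`: `F1 ≤ F` bipartite, `vol F1 ≥ 25 D |V| > 24 D |V|`.  `potential` with `t = 0`,
`B = 24 D`: connected `S` with `vol F1 S > 24 D |S|`, `|S| > 12 D + 1 ≥ 1`.  `bfs` for `F1`, `S`, some
`r ∈ S`.  `dense_level` with `B = 24 D`: `vol (T i) > 12 D |T i|`.  `potential` with `t = 0`, `B = 12 D`
inside `T i`: connected `H ⊆ T i`, all degrees inside `H` at least `6 D ≥ 3` (`D ≥ 1/2`).  `H` contains two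
vertices of level `i`: a vertex of level `i+1` in `H` has at least 3 neighbours in `H`, of level `i`
(levels differ by one); a vertex of level `i` in `H` has a neighbour of level `i + 1`.
`branch`; `long_path_avoiding` for `F1` (its hypothesis `hY` holds for `F1` since `vol F1 Y ≤ vol F Y`);
`tree_cycle` for `s = 1, …, k`; answer `s0 = j + 1`.  `HasCyc.mono`. -/
theorem expansion [Fintype V] [Nonempty V] (F : SimpleGraph V) (k : ℕ) (hk : 3 ≤ k) (D : ℝ)
    (hD : 1 / 2 ≤ D)
    (hY : ∀ Y : Finset V, Y.Nonempty → Y.card ≤ 4 * k → (vol F Y : ℝ) < 2 * D * Y.card)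
    (hvol : 50 * D * (Fintype.card V : ℝ) ≤ (vol F Finset.univ : ℝ)) :
    ∃ s : ℕ, ∀ i < k, HasCyc F (2 * (s + i)) := by
  classical
  have hD0 : 0 < D := by linarith
  have hV : (0 : ℝ) < (Fintype.card V : ℝ) := by exact_mod_cast Fintype.card_pos
  obtain ⟨c, F1, hle, hbip, hv⟩ := bip_half F
  have hv' : (vol F Finset.univ : ℝ) ≤ 2 * (vol F1 Finset.univ : ℝ) := by exact_mod_cast hv
  have hvolmono : ∀ Y : Finset V, (vol F1 Y : ℝ) ≤ (vol F Y : ℝ) := by
    intro Y
    unfold vol dg
    push_cast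
    refine Finset.sum_le_sum fun v _ => ?_
    have := Finset.card_le_card (show (Y.filter fun w => F1.Adj v w) ⊆ Y.filter fun w => F.Adj v w from
      fun w hw => Finset.mem_filter.mpr ⟨(Finset.mem_filter.mp hw).1, hle (Finset.mem_filter.mp hw).2⟩)
    exact_mod_cast this
  obtain ⟨S, -, hSvol, hSdeg, hScard, hSconn⟩ := potential F1 Finset.univ (24 * D) 0
    (by push_cast; linarith) (by push_cast; linarith)
    (by rw [Finset.card_univ]; have := Fintype.card_pos (α := V); omega)
    (by
      rw [Finset.card_univ, Nat.cast_zero, sub_zero]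
      have := mul_pos hD0 hV
      linarith)
  rw [Nat.cast_zero, sub_zero] at hSvol
  have hSne : S.Nonempty := by
    refine Finset.card_pos.mp ?_
    have : (0 : ℝ) < (S.card : ℝ) := by linarith
    exact_mod_cast this
  obtain ⟨r, hr⟩ := hSne
  obtain ⟨lev, par, h0, hpar, hlev⟩ := bfs F1 c hbip S hSconn r hr
  obtain ⟨i, hi⟩ := dense_level F1 S lev (24 * D) (by linarith) hlev hSvol
  set Ti := S.filter (fun v => lev v = i ∨ lev v = i + 1) with hTi
  have hTne : 1 ≤ Ti.card := by
    by_contra hlt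
    have h1 : Ti = ∅ := Finset.card_eq_zero.mp (by omega)
    rw [h1] at hi
    unfold vol at hi
    simp at hi
  obtain ⟨H, hHT, -, hHdeg, hHcard, hHconn⟩ := potential F1 Ti (12 * D) 0
    (by push_cast; linarith) (by push_cast; linarith) (by omega)
    (by
      rw [Nat.cast_zero, sub_zero]
      have h1 : 24 * D / 2 = 12 * D := by ring
      rw [h1] at hi
      exact hi)
  have hHS : H ⊆ S := hHT.trans (Finset.filter_subset _ _)
  have hHlev : ∀ v ∈ H, lev v = i ∨ lev v = i + 1 := fun v hv =>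
    (Finset.mem_filter.mp (hHT hv)).2
  have hH6 : ∀ v ∈ H, 6 * D ≤ (dg F1 H v : ℝ) := fun v hv => by
    have := hHdeg v hv
    linarith
  have hH3 : ∀ v ∈ H, 3 ≤ dg F1 H v := fun v hv => by
    have h1 := hH6 v hv
    have h2 : (3 : ℝ) ≤ (dg F1 H v : ℝ) := by linarith
    exact_mod_cast h2
  -- a vertex of level `i + 1` gives two vertices of level `i`
  have htwo : ∀ v ∈ H, lev v = i + 1 → ∃ u ∈ H, ∃ u' ∈ H, lev u = i ∧ lev u' = i ∧ u ≠ u' := by
    intro v hv hvl
    have h1 := hH3 v hv
    unfold dg at h1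
    obtain ⟨u, hu, u', hu', huu⟩ := Finset.one_lt_card.mp (show 1 < (H.filter fun w =>
      F1.Adj v w).card by omega)
    have hl : ∀ w ∈ H.filter (fun w => F1.Adj v w), lev w = i := by
      intro w hw
      obtain ⟨hwH, hvw⟩ := Finset.mem_filter.mp hw
      rcases hlev v (hHS hv) w (hHS hwH) hvw with h | h
      · omega
      · rcases hHlev w hwH with h' | h' <;> omega
    exact ⟨u, (Finset.mem_filter.mp hu).1, u', (Finset.mem_filter.mp hu').1, hl u hu, hl u' hu', huu⟩
  have hHne : H.Nonempty := by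
    refine Finset.card_pos.mp ?_
    have : (0 : ℝ) < (H.card : ℝ) := by linarith
    exact_mod_cast this
  obtain ⟨u, hu, u', hu', hui, hui', huu⟩ : ∃ u ∈ H, ∃ u' ∈ H, lev u = i ∧ lev u' = i ∧ u ≠ u' := by
    obtain ⟨v, hv⟩ := hHne
    rcases hHlev v hv with h | h
    · have h1 := hH3 v hv
      unfold dg at h1
      obtain ⟨w, hw⟩ := Finset.card_pos.mp (show 0 < (H.filter fun w => F1.Adj v w).card by omega)
      obtain ⟨hwH, hvw⟩ := Finset.mem_filter.mp hw
      refine htwo w hwH ?_
      rcases hlev v (hHS hv) w (hHS hwH) hvw with h2 | h2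
      · rcases hHlev w hwH with h' | h' <;> omega
      · omega
    · exact htwo v hv h
  obtain ⟨j, hj1, hji, hjc, y, hy, x1, hx1, x2, hx2, hyi, hx1i, hx2i, hyx1, hyx2, hx12⟩ :=
    branch F1 S r lev par h0 hpar hlev H hHS i hHlev hHconn u u' hu hu' hui hui' huu
  obtain ⟨z, l, hl, hlk, hlH⟩ := long_path_avoiding F1 k hk D hD
    (fun Y hne hc => (hvolmono Y).trans_lt (hY Y hne hc)) H hH6 y x1 x2 hy
    (by rintro rfl; omega) (by rintro rfl; omega)
  refine ⟨j + 1, fun a ha => ?_⟩
  have h1 := tree_cycle F1 S r lev par h0 hpar hlev H hHS i hHlev j hj1 hji hjc y x1 x2 hx1 hx2 hy hyi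
    hx1i hx2i hyx1 hyx2 hx12 k z l hl hlk hlH (a + 1) (by omega) (by omega)
  have h2 : 2 * (a + 1 + j) = 2 * (j + 1 + a) := by ring
  rw [h2] at h1
  exact h1.mono hle

end TurMod
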