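import Pool.Agent.TurMod.Piece
import Pool.Agent.TurMod.Menger
import Pool.Agent.TurMod.Pot

/-!
# Many dense pieces in a highly connected graph: `k` consecutive cycle lengths of one parity
-/

namespace TurMod

open Finset

universe u

variable {V : Type*}

/- MODULE HB1 -/
private lemma HB1_head_only {p : V → Prop} {x : V} {l : List V}
    (h : ∀ l1 u mid v l2, x :: l = l1 ++ u :: (mid ++ v :: l2) → p u → p v → mid = [])
    (hx : p x) : ∀ v ∈ l, p v → l.head? = some v := by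
  intro v hv hpv
  obtain ⟨mid, l2, rfl⟩ := List.append_of_mem hv
  have := h [] x mid v l2 (by simp) hx hpv
  subst this
  simp

private lemma HB1_one {p : V → Prop} [DecidablePred p] (l : List V) (hn : l.Nodup)
    (h : ∀ v ∈ l, p v → l.head? = some v) : (l.filter p).length ≤ 1 := by
  have hn' : (l.filter p).Nodup := hn.filter _
  rcases hf : l.filter p with _ | ⟨a, _ | ⟨b, r⟩⟩
  · rw [hf]; simp
  · rw [hf]; simp
  · exfalso
    have ha : a ∈ l.filter p := by rw [hf]; simp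
    have hb : b ∈ l.filter p := by rw [hf]; simp
    simp only [List.mem_filter, decide_eq_true_eq] at ha hb
    have e1 := h a ha.1 ha.2
    have e2 := h b hb.1 hb.2
    rw [e1] at e2
    rw [hf] at hn'
    simp only [Option.some.injEq] at e2
    subst e2
    simp at hn'

private lemma HB1_two {p : V → Prop} [DecidablePred p] : ∀ (l : List V), l.Nodup →
    (∀ l1 u mid v l2, l = l1 ++ u :: (mid ++ v :: l2) → p u → p v → mid = []) →
    (l.filter p).length ≤ 2 := by
  intro l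
  induction l with
  | nil => intro _ _; simp
  | cons x l ih =>
    intro hn h
    have hn' := (List.nodup_cons.1 hn).2
    have h' : ∀ l1 u mid v l2, l = l1 ++ u :: (mid ++ v :: l2) → p u → p v → mid = [] := by
      intro l1 u mid v l2 he
      exact h (x :: l1) u mid v l2 (by rw [he]; simp)
    by_cases hx : p x
    · have key := HB1_one l hn' (HB1_head_only h hx)
      rw [List.filter_cons_of_pos (by simpa using hx), List.length_cons]
      omega
    · rw [List.filter_cons_of_neg (by simpa using hx)]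
      exact ih hn' h'

private lemma HB1_card_two [DecidableEq V] (S : Finset V) (l : List V) (hn : l.Nodup)
    (h : ∀ l1 u mid v l2, l = l1 ++ u :: (mid ++ v :: l2) → u ∈ S → v ∈ S → mid = []) :
    (S ∩ l.toFinset).card ≤ 2 := by
  have h2 := HB1_two (p := fun x => x ∈ S) l hn h
  refine le_trans ?_ h2
  refine le_trans (Finset.card_le_card (t := (l.filter (fun x => x ∈ S)).toFinset) ?_)
    (List.toFinset_card_le _)
  intro x hx
  simp only [Finset.mem_inter, List.mem_toFinset, List.mem_filter, decide_eq_true_eq] at hx ⊢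
  exact ⟨hx.2, hx.1⟩

private lemma HB1_starts [DecidableEq V] (q : ℕ) (Q : ℕ → Finset V)
    (hdisj : ∀ i ≤ q, ∀ j ≤ q, i ≠ j → Disjoint (Q i) (Q j))
    (hcard : ∀ i ≤ q, 2 * q ≤ (Q i).card) (v0 : V) :
    ∃ z : ℕ → V, (∀ a < 2 * q, z a ∈ Q (a / 2 + 1)) ∧
      ∀ a < 2 * q, ∀ b < 2 * q, a ≠ b → z a ≠ z b := by
  have hlen : ∀ a < 2 * q, a < (Q (a / 2 + 1)).toList.length := by
    intro a ha
    rw [Finset.length_toList]
    have := hcard (a / 2 + 1) (by omega)
    omega
  have hmem : ∀ a < 2 * q, (Q (a / 2 + 1)).toList.getD a v0 ∈ Q (a / 2 + 1) := by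
    intro a ha
    rw [List.getD_eq_getElem _ _ (hlen a ha)]
    exact Finset.mem_toList.1 (List.getElem_mem _)
  refine ⟨fun a => (Q (a / 2 + 1)).toList.getD a v0, hmem, ?_⟩
  intro a ha b hb hab he
  simp only at he
  have h1 := hmem a ha
  have h2 := hmem b hb
  by_cases hc : a / 2 + 1 = b / 2 + 1
  · have hlb := hlen b hb
    rw [← hc] at he hlb
    rw [List.getD_eq_getElem _ _ (hlen a ha), List.getD_eq_getElem _ _ hlb] at he
    exact hab ((Finset.nodup_toList _).getElem_inj_iff.1 he)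
  · rw [← he] at h2
    exact (Finset.disjoint_left.1 (hdisj (a / 2 + 1) (by omega) (b / 2 + 1) (by omega) hc)) h1 h2

private lemma HB1_short {G : SimpleGraph V} {x y : V} {l l1 mid l2 : List V} {u v : V}
    (h : PathL G x y l) (he : l = l1 ++ u :: (mid ++ v :: l2)) (hadj : u ≠ v → G.Adj u v) :
    PathL G x y (l1 ++ u :: v :: l2) := by
  subst he
  obtain ⟨h1, h2, h3, h4⟩ := h
  have hsub : (l1 ++ u :: v :: l2).Sublist (l1 ++ u :: (mid ++ v :: l2)) := by
    refine List.Sublist.append (List.Sublist.refl _) ?_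
    refine List.Sublist.cons_cons _ ?_
    exact List.sublist_append_right mid (v :: l2)
  have h2' := h2.sublist hsub
  refine ⟨?_, h2', ?_, ?_⟩
  · rw [List.isChain_append] at h1 ⊢
    obtain ⟨c1, c2, c3⟩ := h1
    have c4 : (v :: l2).IsChain G.Adj := by
      have := c2.tail
      simp only [List.tail_cons] at this
      exact (List.isChain_append.1 this).2.1
    refine ⟨c1, ?_, ?_⟩
    · rw [List.isChain_cons_cons]
      refine ⟨hadj ?_, c4⟩
      rintro rfl
      have := (List.nodup_append.1 h2').2.1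
      simp at this
    · intro a ha b hb
      exact c3 a ha b (by simpa using hb)
  · cases l1 with
    | nil => simpa using h3
    | cons a l1 => simpa using h3
  · have e1 : (l1 ++ u :: (mid ++ v :: l2)).getLast? = (v :: l2).getLast? := by
      have : l1 ++ u :: (mid ++ v :: l2) = (l1 ++ u :: mid) ++ (v :: l2) := by simp
      rw [this, List.getLast?_append_of_ne_nil _ (by simp)]
    have e2 : (l1 ++ u :: v :: l2).getLast? = (v :: l2).getLast? := by
      have : l1 ++ u :: v :: l2 = (l1 ++ [u]) ++ (v :: l2) := by simp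
      rw [this, List.getLast?_append_of_ne_nil _ (by simp)]
    rw [e2, ← e1, h4]

private lemma HB1_drop {G : SimpleGraph V} {x y : V} {l : List V} {p : V → Prop}
    (h : PathL G x y l) (hx : p x)
    (hnd : ∀ l1 u mid v l2, l = l1 ++ u :: (mid ++ v :: l2) → p u → p v → mid = []) :
    ∃ (l' : List V) (u : V), PathL G u y l' ∧ p u ∧ (∀ w ∈ l', p w → w = u) ∧
      (∀ w ∈ l', w ∈ l) ∧ l'.length ≤ l.length := by
  classical
  obtain ⟨h1, h2, h3, h4⟩ := h
  obtain ⟨t, rfl⟩ : ∃ t, l = x :: t := by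
    cases l with
    | nil => simp at h3
    | cons a t => simp at h3; exact ⟨t, by rw [h3]⟩
  have hho := HB1_head_only hnd hx
  by_cases hex : ∃ v ∈ t, p v
  · obtain ⟨v, hv, hpv⟩ := hex
    have hh := hho v hv hpv
    refine ⟨t, v, ⟨?_, (List.nodup_cons.1 h2).2, hh, ?_⟩, hpv, ?_, ?_, by simp⟩
    · exact h1.tail
    · cases t with
      | nil => simp at hv
      | cons a t => simpa using h4
    · intro w hw hpw
      have := hho w hw hpw
      rw [hh] at this
      simpa using this.symm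
    · intro w hw
      exact List.mem_cons_of_mem _ hw
  · refine ⟨x :: t, x, ⟨h1, h2, h3, h4⟩, hx, ?_, fun w hw => hw, le_refl _⟩
    intro w hw hpw
    rcases List.mem_cons.1 hw with h | h
    · exact h
    · exact absurd ⟨w, h, hpw⟩ hex

/-- THE SYSTEM.  `Q 0` (the hub), `Q 1, …, Q q` disjoint sets with at least `2 q` elements in a graph without
separations of order `≤ t`, `2 q ≤ t + 1`.  There are `2 q` disjoint paths `P a` (`a < 2 q`) in the graph
`G` with all `Q i` (`1 ≤ i ≤ q`) made complete, `P a` from `Q (a/2 + 1)` to the hub, meeting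
`Q (a/2 + 1)` only in the first vertex, the hub only in the last vertex and every `Q i` (`1 ≤ i`) in at
most two vertices.
PROOF. Let `G'` be the graph with `u ~ v` iff `u ≠ v` and (`G.Adj u v` or `u, v ∈ Q i` for some
`1 ≤ i ≤ q`); `Conn G' univ t` holds too.  Choose distinct `z (2 i - 2), z (2 i - 1) ∈ Q i` (all `z a` are distinct because
the `Q i` are disjoint).  `menger_conn`: disjoint paths from `z a` to `Q 0`.  Among all systems of
disjoint paths of `G'`, `P a` from `z a` to some vertex of `Q 0`, take one with the smallest sum of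
lengths.  Then (1) `P a` meets `Q 0` only in its last vertex (cut it, `cut_first`);
(2) if `u, v ∈ Q i` (`1 ≤ i ≤ q`) are two vertices of `P a`, `u` before `v`, then `v` is the next vertex after
`u` (otherwise leave out what is between: shorter, still a path of `G'`, still disjoint from the
others); so `P a` has at most two vertices in `Q i`.  Finally if `P a` has a second vertex in
`Q (a/2 + 1)`, it is the one after `z a` by (2): drop `z a`. -/
theorem system [Fintype V] [DecidableEq V] (G : SimpleGraph V) (t q : ℕ)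
    (hconn : Conn G Finset.univ t) (hq : 2 * q ≤ t + 1) (hq1 : 1 ≤ q) (Q : ℕ → Finset V)
    (hdisj : ∀ i ≤ q, ∀ j ≤ q, i ≠ j → Disjoint (Q i) (Q j))
    (hcard : ∀ i ≤ q, 2 * q ≤ (Q i).card) :
    ∃ (P : ℕ → List V) (u v : ℕ → V), (∀ a < 2 * q,
        (P a).IsChain (fun x y => G.Adj x y ∨ ∃ i, 1 ≤ i ∧ i ≤ q ∧ x ∈ Q i ∧ y ∈ Q i) ∧
        (P a).Nodup ∧ (P a).head? = some (u a) ∧ (P a).getLast? = some (v a) ∧
        u a ∈ Q (a / 2 + 1) ∧ v a ∈ Q 0 ∧
        (∀ x ∈ P a, x ∈ Q (a / 2 + 1) → x = u a) ∧ (∀ x ∈ P a, x ∈ Q 0 → x = v a) ∧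
        ∀ i, 1 ≤ i → i ≤ q → (Q i ∩ (P a).toFinset).card ≤ 2) ∧
      ∀ a < 2 * q, ∀ b < 2 * q, a ≠ b → List.Disjoint (P a) (P b) := by
  classical
  obtain ⟨v0, hv0⟩ : (Q 0).Nonempty := by
    rw [← Finset.card_pos]
    have := hcard 0 (Nat.zero_le _)
    omega
  -- the auxiliary graph
  let G' : SimpleGraph V :=
    { Adj := fun x y => x ≠ y ∧ (G.Adj x y ∨ ∃ i, 1 ≤ i ∧ i ≤ q ∧ x ∈ Q i ∧ y ∈ Q i)
      symm := ⟨by
        rintro x y ⟨hne, h | ⟨i, h1, h2, h3, h4⟩⟩
        · exact ⟨hne.symm, Or.inl h.symm⟩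
        · exact ⟨hne.symm, Or.inr ⟨i, h1, h2, h4, h3⟩⟩⟩
      loopless := ⟨fun x hx => hx.1 rfl⟩ }
  have hG' : ∀ x y, G'.Adj x y → G.Adj x y ∨ ∃ i, 1 ≤ i ∧ i ≤ q ∧ x ∈ Q i ∧ y ∈ Q i :=
    fun x y h => h.2
  have hGG' : ∀ x y, G.Adj x y → G'.Adj x y := fun x y h => ⟨h.ne, Or.inl h⟩
  have hQG' : ∀ i, 1 ≤ i → i ≤ q → ∀ x ∈ Q i, ∀ y ∈ Q i, x ≠ y → G'.Adj x y :=
    fun i h1 h2 x hx y hy hne => ⟨hne, Or.inr ⟨i, h1, h2, hx, hy⟩⟩
  have hconn' : Conn G' Finset.univ t := by
    intro X A hX hA hAn hAX hc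
    obtain ⟨a, ha, c, hcS, hcA, hcX, hac⟩ := hconn X A hX hA hAn hAX hc
    exact ⟨a, ha, c, hcS, hcA, hcX, hGG' _ _ hac⟩
  -- the start vertices
  obtain ⟨z, hz1, hz2⟩ := HB1_starts q Q hdisj hcard v0
  obtain ⟨P0, hP0, hd0⟩ := menger_conn G' t (2 * q) hconn' hq z hz2 (Q 0) (hcard 0 (Nat.zero_le _))
  -- a minimal system
  let Sys : (ℕ → List V) → Prop := fun P =>
    (∀ a < 2 * q, ∃ b ∈ Q 0, PathL G' (z a) b (P a)) ∧
      ∀ a < 2 * q, ∀ b < 2 * q, a ≠ b → List.Disjoint (P a) (P b)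
  obtain ⟨P1, hP1, hmin1⟩ : ∃ P, Sys P ∧ ∀ P', Sys P' →
      ∑ a ∈ Finset.range (2 * q), (P a).length ≤ ∑ a ∈ Finset.range (2 * q), (P' a).length := by
    have hex : ∃ n, ∃ P, Sys P ∧ ∑ a ∈ Finset.range (2 * q), (P a).length = n :=
      ⟨_, P0, ⟨hP0, hd0⟩, rfl⟩
    obtain ⟨P, hP, hPn⟩ := Nat.find_spec hex
    refine ⟨P, hP, fun P' hP' => ?_⟩
    rw [hPn]
    exact Nat.find_min' hex ⟨P', hP', rfl⟩
  -- cut at the first vertex of the hub
  have hcut : ∀ a, ∃ l' : List V, a < 2 * q → (∃ b ∈ Q 0, PathL G' (z a) b l' ∧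
      (∀ x ∈ l', x ∈ Q 0 → x = b)) ∧ (∀ x ∈ l', x ∈ P1 a) ∧ l'.length ≤ (P1 a).length := by
    intro a
    by_cases ha : a < 2 * q
    · obtain ⟨b, hb, hPb⟩ := hP1.1 a ha
      obtain ⟨b', hb', _, l', h1, h2, h3, h4⟩ :=
        cut_first hPb (fun x => x ∈ Q 0) ⟨b, hPb.right_mem, hb⟩
      exact ⟨l', fun _ => ⟨⟨b', hb', h1, h3⟩, h2, h4⟩⟩
    · exact ⟨[], fun h => absurd h ha⟩
  choose P2 hP2 using hcut
  have hSys2 : Sys P2 := by
    refine ⟨fun a ha => ?_, fun a ha b hb hab => ?_⟩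
    · obtain ⟨⟨b, hb, h1, h2⟩, h3, h4⟩ := hP2 a ha
      exact ⟨b, hb, h1⟩
    · intro x hx hx'
      exact hP1.2 a ha b hb hab ((hP2 a ha).2.1 x hx) ((hP2 b hb).2.1 x hx')
  have hmin2 : ∀ P', Sys P' →
      ∑ a ∈ Finset.range (2 * q), (P2 a).length ≤ ∑ a ∈ Finset.range (2 * q), (P' a).length := by
    intro P' hP'
    refine le_trans (Finset.sum_le_sum (fun a ha => ?_)) (hmin1 P' hP')
    exact (hP2 a (Finset.mem_range.1 ha)).2.2
  -- no detour
  have hnd : ∀ a < 2 * q, ∀ i, 1 ≤ i → i ≤ q → ∀ l1 u mid v l2,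
      P2 a = l1 ++ u :: (mid ++ v :: l2) → u ∈ Q i → v ∈ Q i → mid = [] := by
    intro a ha i hi1 hi2 l1 u mid v l2 he hu hv
    by_contra hmid
    obtain ⟨b, hb, hPb⟩ := hSys2.1 a ha
    have hnew := HB1_short (G := G') hPb he (fun hne => hQG' i hi1 hi2 u hu v hv hne)
    have hS : Sys (Function.update P2 a (l1 ++ u :: v :: l2)) := by
      refine ⟨fun c hc => ?_, fun c hc e hee hce => ?_⟩
      · by_cases hca : c = a
        · subst hca
          rw [Function.update_self]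
          exact ⟨b, hb, hnew⟩
        · rw [Function.update_of_ne hca]
          exact hSys2.1 c hc
      · have hsub : ∀ x, x ∈ l1 ++ u :: v :: l2 → x ∈ P2 a := by
          intro x hx
          rw [he]
          simp only [List.mem_append, List.mem_cons] at hx ⊢
          tauto
        by_cases hca : c = a
        · have hea : e ≠ a := fun h => hce (hca.trans h.symm)
          rw [hca, Function.update_self, Function.update_of_ne hea]
          intro x hx hx'
          exact hSys2.2 a ha e hee (fun h => hea h.symm) (hsub x hx) hx'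
        · rw [Function.update_of_ne hca]
          by_cases hea : e = a
          · rw [hea, Function.update_self]
            intro x hx hx'
            exact hSys2.2 c hc a ha hca hx (hsub x hx')
          · rw [Function.update_of_ne hea]
            exact hSys2.2 c hc e hee hce
    have hlt : ∑ c ∈ Finset.range (2 * q), (Function.update P2 a (l1 ++ u :: v :: l2) c).length <
        ∑ c ∈ Finset.range (2 * q), (P2 c).length := by
      apply Finset.sum_lt_sum
      · intro c _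
        by_cases hca : c = a
        · subst hca
          rw [Function.update_self, he]
          simp only [List.length_append, List.length_cons]
          omega
        · rw [Function.update_of_ne hca]
      · refine ⟨a, Finset.mem_range.2 ha, ?_⟩
        rw [Function.update_self, he]
        have := List.length_pos_iff.2 hmid
        simp only [List.length_append, List.length_cons]
        omega
    exact absurd (hmin2 _ hS) (not_le.2 hlt)
  -- the final lists
  have hfin : ∀ a, ∃ (l : List V) (u v : V), a < 2 * q →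
      (l.IsChain (fun x y => G.Adj x y ∨ ∃ i, 1 ≤ i ∧ i ≤ q ∧ x ∈ Q i ∧ y ∈ Q i) ∧
        l.Nodup ∧ l.head? = some u ∧ l.getLast? = some v ∧
        u ∈ Q (a / 2 + 1) ∧ v ∈ Q 0 ∧
        (∀ x ∈ l, x ∈ Q (a / 2 + 1) → x = u) ∧ (∀ x ∈ l, x ∈ Q 0 → x = v) ∧
        ∀ i, 1 ≤ i → i ≤ q → (Q i ∩ l.toFinset).card ≤ 2) ∧ (∀ x ∈ l, x ∈ P2 a) := by
    intro a
    by_cases ha : a < 2 * q
    swap
    · exact ⟨[], v0, v0, fun h => absurd h ha⟩
    obtain ⟨⟨b, hb, hPb, hPb2⟩, h3, h4⟩ := hP2 a ha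
    have haq : a / 2 + 1 ≤ q := by omega
    have htwo : ∀ i, 1 ≤ i → i ≤ q → (Q i ∩ (P2 a).toFinset).card ≤ 2 := by
      intro i hi1 hi2
      exact HB1_card_two (Q i) (P2 a) hPb.2.1 (hnd a ha i hi1 hi2)
    obtain ⟨l, u, hl1, hl2, hl3, hl4, hl5⟩ := HB1_drop (p := fun x => x ∈ Q (a / 2 + 1)) hPb
      (hz1 a ha) (hnd a ha (a / 2 + 1) (by omega) haq)
    refine ⟨l, u, b, fun _ => ⟨⟨hl1.1.imp hG', hl1.2.1, hl1.2.2.1, hl1.2.2.2, hl2, hb, hl3, ?_, ?_⟩,
      hl4⟩⟩
    · intro x hx hx0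
      exact hPb2 x (hl4 x hx) hx0
    · intro i hi1 hi2
      refine le_trans (Finset.card_le_card ?_) (htwo i hi1 hi2)
      intro x hx
      simp only [Finset.mem_inter, List.mem_toFinset] at hx ⊢
      exact ⟨hx.1, hl4 x hx.2⟩
  choose P u v hPuv using hfin
  refine ⟨P, u, v, fun a ha => (hPuv a ha).1, fun a ha b hb hab => ?_⟩
  intro x hx hx'
  exact hSys2.2 a ha b hb hab ((hPuv a ha).2 x hx) ((hPuv b hb).2 x hx')

/- MODULE HB2 -/
private lemma HB2_chain {Rel : V → V → Prop} (Qs : Finset V) : ∀ (l : List V),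
    l.IsChain (fun x y => Rel x y ∨ (x ∈ Qs ∧ y ∈ Qs)) →
    (∀ m1 u v m2, l = m1 ++ u :: v :: m2 → u ∈ Qs → v ∉ Qs) → l.IsChain Rel := by
  intro l
  induction l with
  | nil => intro _ _; exact List.isChain_nil
  | cons x l ih =>
    intro hc h
    cases l with
    | nil => exact List.isChain_singleton _
    | cons y l =>
      rw [List.isChain_cons_cons] at hc ⊢
      refine ⟨?_, ih hc.2 ?_⟩
      · rcases hc.1 with h1 | ⟨h1, h2⟩
        · exact h1
        · exact absurd h2 (h [] x y l rfl h1)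
      · intro m1 u v m2 he hu
        exact h (x :: m1) u v m2 (by rw [he]; rfl) hu

private lemma HB2_only [DecidableEq V] (Qs : Finset V) (l : List V) (hn : l.Nodup)
    (h2 : (Qs ∩ l.toFinset).card ≤ 2) (l1 l2 : List V) (x y : V)
    (he : l = l1 ++ x :: y :: l2) (hx : x ∈ Qs) (hy : y ∈ Qs) :
    (∀ v ∈ l1, v ∉ Qs) ∧ (∀ v ∈ l2, v ∉ Qs) ∧ x ≠ y := by
  subst he
  have hxy : x ≠ y := by
    rintro rfl
    have := (List.nodup_append.1 hn).2.1
    simp at this
  have key : ∀ v, v ∈ l1 ++ x :: y :: l2 → v ∈ Qs → v = x ∨ v = y := by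
    intro v hv hvQ
    by_contra hne
    push Not at hne
    have hsub : ({v, x, y} : Finset V) ⊆ Qs ∩ (l1 ++ x :: y :: l2).toFinset := by
      intro w hw
      simp only [Finset.mem_insert, Finset.mem_singleton] at hw
      rcases hw with rfl | rfl | rfl
      · exact Finset.mem_inter.2 ⟨hvQ, List.mem_toFinset.2 hv⟩
      · simp [hx]
      · simp [hy]
    have := Finset.card_le_card hsub
    rw [Finset.card_insert_of_notMem (by simp [hne]), Finset.card_pair hxy] at this
    omega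
  rw [List.nodup_append] at hn
  obtain ⟨n1, n2, n3⟩ := hn
  refine ⟨?_, ?_, hxy⟩
  · intro v hv hvQ
    rcases key v (by simp [hv]) hvQ with rfl | rfl
    · exact n3 v hv v (by simp) rfl
    · exact n3 v hv v (by simp) rfl
  · intro v hv hvQ
    simp only [List.nodup_cons, List.mem_cons, not_or] at n2
    rcases key v (by simp [hv]) hvQ with rfl | rfl
    · exact n2.1.2 hv
    · exact n2.2.1 hv

private lemma HB2_ins {G : SimpleGraph V} {Rel : V → V → Prop} (Qs : Finset V)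
    (hRel : ∀ x y, G.Adj x y → Rel x y) {l1 l2 M : List V} {x y : V}
    (hc : (l1 ++ x :: y :: l2).IsChain (fun x y => Rel x y ∨ (x ∈ Qs ∧ y ∈ Qs)))
    (hn : (l1 ++ x :: y :: l2).Nodup) (h1 : ∀ v ∈ l1, v ∉ Qs) (h2 : ∀ v ∈ l2, v ∉ Qs)
    (hx : x ∈ Qs) (hy : y ∈ Qs) (hM : PathL G x y M) (hMQ : ∀ v ∈ M, v ∈ Qs) :
    (l1 ++ (M ++ l2)).IsChain Rel ∧ (l1 ++ (M ++ l2)).Nodup ∧
      (l1 ++ (M ++ l2)).head? = (l1 ++ x :: y :: l2).head? ∧
      (l1 ++ (M ++ l2)).getLast? = (l1 ++ x :: y :: l2).getLast? ∧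
      ∀ v, v ∉ Qs → (v ∈ l1 ++ (M ++ l2) ↔ v ∈ l1 ++ x :: y :: l2) := by
  obtain ⟨m1, m2, m3, m4⟩ := hM
  have hMne : M ≠ [] := by rintro rfl; simp at m3
  rw [List.isChain_append] at hc
  obtain ⟨c1, c2, c3⟩ := hc
  rw [List.isChain_cons_cons] at c2
  have d1 : l1.IsChain Rel := by
    refine HB2_chain Qs l1 c1 ?_
    intro a u v b he hu _
    exact h1 u (by rw [he]; simp) hu
  have d2 : l2.IsChain Rel := by
    refine HB2_chain Qs l2 ?_ ?_
    · have := c2.2.tail
      simpa using this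
    · intro a u v b he hu _
      exact h2 u (by rw [he]; simp) hu
  rw [List.nodup_append] at hn
  obtain ⟨n1, n2, n3⟩ := hn
  refine ⟨?_, ?_, ?_, ?_, ?_⟩
  · rw [List.isChain_append]
    refine ⟨d1, ?_, ?_⟩
    · rw [List.isChain_append]
      refine ⟨m1.imp (fun a b h => hRel a b h), d2, ?_⟩
      intro a ha b hb
      rw [m4] at ha
      simp only [Option.mem_def, Option.some.injEq] at ha
      subst ha
      have hb' : b ∈ l2 := mem_of_head? hb
      cases l2 with
      | nil => simp at hb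
      | cons w l2 =>
        simp only [List.head?_cons, Option.mem_def, Option.some.injEq] at hb
        subst hb
        rw [List.isChain_cons_cons] at c2
        rcases c2.2.1 with h | ⟨_, h⟩
        · exact h
        · exact absurd h (h2 _ hb')
    · intro a ha b hb
      rw [List.head?_append_of_ne_nil _ hMne, m3] at hb
      simp only [Option.mem_def, Option.some.injEq] at hb
      subst hb
      rcases c3 a ha x (by simp) with h | ⟨h, _⟩
      · exact h
      · exact absurd h (h1 a (List.mem_of_getLast? ha))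
  · rw [List.nodup_append]
    refine ⟨n1, ?_, ?_⟩
    · rw [List.nodup_append]
      refine ⟨m2, ?_, ?_⟩
      · simp only [List.nodup_cons] at n2
        exact n2.2.2
      · rintro a ha b hb rfl
        exact h2 a hb (hMQ a ha)
    · rintro a ha b hb rfl
      rcases List.mem_append.1 hb with h | h
      · exact h1 a ha (hMQ a h)
      · exact n3 a ha a (by simp [h]) rfl
  · cases l1 with
    | nil =>
      simp only [List.nil_append, List.head?_cons]
      rw [List.head?_append_of_ne_nil _ hMne, m3]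
    | cons a l1 => simp
  · rcases l2 with _ | ⟨w, l2⟩
    · have e1 : (l1 ++ (M ++ [])).getLast? = M.getLast? := by
        rw [List.append_nil, List.getLast?_append_of_ne_nil _ hMne]
      rw [e1, m4]
      have e2 : l1 ++ [x, y] = (l1 ++ [x]) ++ [y] := by simp
      rw [e2, List.getLast?_append_of_ne_nil _ (by simp)]
      simp
    · have e1 : l1 ++ (M ++ w :: l2) = (l1 ++ M) ++ (w :: l2) := by simp
      have e2 : l1 ++ x :: y :: w :: l2 = (l1 ++ [x, y]) ++ (w :: l2) := by simp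
      rw [e1, e2, List.getLast?_append_of_ne_nil _ (by simp),
        List.getLast?_append_of_ne_nil _ (by simp)]
  · intro v hv
    simp only [List.mem_append, List.mem_cons]
    constructor
    · rintro (h | h | h)
      · exact Or.inl h
      · exact absurd (hMQ v h) hv
      · exact Or.inr (Or.inr (Or.inr h))
    · rintro (h | h | h | h)
      · exact Or.inl h
      · exact absurd (h ▸ hx) hv
      · exact absurd (h ▸ hy) hv
      · exact Or.inr (Or.inr h)

/-- One linking step: in the piece `Qs` replace the virtual edges by real short paths.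
PROOF. Let `T` be the set of `a < n` such that `P a` has two consecutive vertices `x a, y a ∈ Qs`,
`P a = l1 ++ [x a, y a] ++ l2`; then `l1`, `l2` have no vertex in `Qs` (at most two).  Let `X` be the set of
all vertices in `Qs` of the `P a` with `a ∉ T`, `a < n` (`|X| ≤ 2 n`).  `links` (with
`|X| + |T| (6 K + 3) ≤ 2 n + n (6 K + 3)`) gives `L a` from `x a` to `y a` in `Qs ∖ X`, disjoint.
`P' a = l1 ++ L a ++ l2` for `a ∈ T`, `P' a = P a` for `a ∉ T`.  Consecutive vertices which are not both in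
`Qs` satisfy `Rel`. -/
theorem link_step [DecidableEq V] (G : SimpleGraph V) (Qs : Finset V) (D K : ℝ) (t : ℕ)
    (hD : 0 < D) (hmin : ∀ v ∈ Qs, D ≤ (dg G Qs v : ℝ)) (hQ : (Qs.card : ℝ) ≤ K * D)
    (hK : 0 ≤ K) (hconn : Conn G Qs t) (n : ℕ) (ht : (n * (6 * K + 5) : ℝ) ≤ t)
    (hDn : 2 * (n * (6 * K + 5) : ℝ) ≤ D) (Rel : V → V → Prop) (hRel : ∀ x y, G.Adj x y → Rel x y)
    (P : ℕ → List V)
    (hP : ∀ a < n, (P a).IsChain (fun x y => Rel x y ∨ (x ∈ Qs ∧ y ∈ Qs)) ∧ (P a).Nodup ∧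
      (Qs ∩ (P a).toFinset).card ≤ 2)
    (hd : ∀ a < n, ∀ b < n, a ≠ b → List.Disjoint (P a) (P b)) :
    ∃ P' : ℕ → List V, (∀ a < n, (P' a).IsChain Rel ∧ (P' a).Nodup ∧
        (P' a).head? = (P a).head? ∧ (P' a).getLast? = (P a).getLast? ∧
        (∀ x, x ∉ Qs → (x ∈ P' a ↔ x ∈ P a)) ∧
        ((Qs ∩ (P a).toFinset).card ≤ 1 → P' a = P a) ∧
        ((Qs ∩ (P' a).toFinset).card : ℝ) ≤ 6 * K + 3) ∧
      ∀ a < n, ∀ b < n, a ≠ b → List.Disjoint (P' a) (P' b) := by
  classical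
  -- decomposition of the paths with a virtual edge
  let Dec : ℕ → Prop := fun a => a < n ∧ ∃ l1 x y l2, P a = l1 ++ x :: y :: l2 ∧ x ∈ Qs ∧ y ∈ Qs
  have hdec : ∀ a, Dec a → ∃ l1 x y l2, P a = l1 ++ x :: y :: l2 ∧ x ∈ Qs ∧ y ∈ Qs ∧
      (∀ v ∈ l1, v ∉ Qs) ∧ (∀ v ∈ l2, v ∉ Qs) ∧ x ≠ y := by
    rintro a ⟨ha, l1, x, y, l2, he, hx, hy⟩
    obtain ⟨h1, h2, h3⟩ := hP a ha
    exact ⟨l1, x, y, l2, he, hx, hy, HB2_only Qs (P a) h2 h3 l1 l2 x y he hx hy⟩
  by_cases hV : Nonempty V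
  swap
  · -- all paths are empty lists
    have hnil : ∀ a, P a = [] := by
      intro a
      rcases P a with _ | ⟨x, l⟩
      · rfl
      · exact absurd ⟨x⟩ hV
    refine ⟨P, fun a ha => ⟨?_, (hP a ha).2.1, rfl, rfl, fun x _ => Iff.rfl, fun _ => rfl, ?_⟩, hd⟩
    · rw [hnil a]; exact List.isChain_nil
    · rw [hnil a]; simp; positivity
  obtain ⟨v0⟩ := hV
  have hdec2 : ∀ a, ∃ (l1 : List V) (x y : V) (l2 : List V), Dec a →
      (P a = l1 ++ x :: y :: l2 ∧ x ∈ Qs ∧ y ∈ Qs ∧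
      (∀ v ∈ l1, v ∉ Qs) ∧ (∀ v ∈ l2, v ∉ Qs) ∧ x ≠ y) := by
    intro a
    by_cases h : Dec a
    · obtain ⟨l1, x, y, l2, h'⟩ := hdec a h
      exact ⟨l1, x, y, l2, fun _ => h'⟩
    · exact ⟨[], v0, v0, [], fun h' => absurd h' h⟩
  choose l1 x y l2 hsp using hdec2
  let T : Finset ℕ := (Finset.range n).filter Dec
  have hT : ∀ a, a ∈ T ↔ Dec a := by
    intro a
    simp only [T, Finset.mem_filter, Finset.mem_range]
    exact ⟨fun h => h.2, fun h => ⟨h.1, h⟩⟩
  let X : Finset V := ((Finset.range n).filter (fun a => ¬ Dec a)).biUnion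
    (fun a => Qs ∩ (P a).toFinset)
  have hX : ∀ v, v ∈ X ↔ v ∈ Qs ∧ ∃ a, a < n ∧ ¬ Dec a ∧ v ∈ P a := by
    intro v
    simp only [X, Finset.mem_biUnion, Finset.mem_filter, Finset.mem_range, Finset.mem_inter,
      List.mem_toFinset]
    exact ⟨fun ⟨a, ⟨h1, h2⟩, h3, h4⟩ => ⟨h3, a, h1, h2, h4⟩,
      fun ⟨h3, a, h1, h2, h4⟩ => ⟨a, ⟨h1, h2⟩, h3, h4⟩⟩
  have hXc : X.card ≤ ((Finset.range n).filter (fun a => ¬ Dec a)).card * 2 := by
    apply Finset.card_biUnion_le_card_mul
    intro a ha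
    exact (hP a (Finset.mem_range.1 (Finset.mem_filter.1 ha).1)).2.2
  have hTc : T.card + ((Finset.range n).filter (fun a => ¬ Dec a)).card = n := by
    have := Finset.card_filter_add_card_filter_not (s := Finset.range n) Dec
    simpa [T] using this
  have hbound : (X.card : ℝ) + T.card * (6 * K + 3) ≤ n * (6 * K + 5) := by
    have e1 : (X.card : ℝ) ≤ (((Finset.range n).filter (fun a => ¬ Dec a)).card : ℝ) * 2 := by
      exact_mod_cast hXc
    have e2 : (T.card : ℝ) + (((Finset.range n).filter (fun a => ¬ Dec a)).card : ℝ) = n := by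
      exact_mod_cast hTc
    have e3 : (0 : ℝ) ≤ (((Finset.range n).filter (fun a => ¬ Dec a)).card : ℝ) := by positivity
    have e4 : (0 : ℝ) ≤ (T.card : ℝ) := by positivity
    rw [← e2]
    nlinarith [mul_nonneg e3 hK, mul_nonneg e4 hK]
  have hxP : ∀ a, Dec a → x a ∈ P a := by
    intro a ha
    rw [(hsp a ha).1]
    simp
  have hyP : ∀ a, Dec a → y a ∈ P a := by
    intro a ha
    rw [(hsp a ha).1]
    simp
  have hnotX : ∀ a, Dec a → ∀ v ∈ P a, v ∉ X := by
    intro a ha v hv hvX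
    obtain ⟨_, b, hb, hnb, hvb⟩ := (hX v).1 hvX
    have hab : a ≠ b := by rintro rfl; exact hnb ha
    exact hd a ha.1 b hb hab hv hvb
  obtain ⟨L, hL, hLd⟩ := links G Qs X D K t hD hmin hQ hconn T (hbound.trans ht)
    (by linarith) x y
    (fun a ha => ⟨(hsp a ((hT a).1 ha)).2.1, hnotX a ((hT a).1 ha) _ (hxP a ((hT a).1 ha))⟩)
    (fun a ha => ⟨(hsp a ((hT a).1 ha)).2.2.1, hnotX a ((hT a).1 ha) _ (hyP a ((hT a).1 ha))⟩)
    (fun a ha b hb hab he => hd a ((hT a).1 ha).1 b ((hT b).1 hb).1 hab (hxP a ((hT a).1 ha))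
      (he ▸ hxP b ((hT b).1 hb)))
    (fun a ha b hb hab he => hd a ((hT a).1 ha).1 b ((hT b).1 hb).1 hab (hyP a ((hT a).1 ha))
      (he ▸ hyP b ((hT b).1 hb)))
    (by
      intro a ha b hb he
      by_cases hab : a = b
      · subst hab
        exact (hsp a ((hT a).1 ha)).2.2.2.2.2 he
      · exact hd a ((hT a).1 ha).1 b ((hT b).1 hb).1 hab (hxP a ((hT a).1 ha))
          (he ▸ hyP b ((hT b).1 hb)))
  refine ⟨fun a => if Dec a then l1 a ++ (L a ++ l2 a) else P a, ?_, ?_⟩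
  · intro a ha
    obtain ⟨hc, hn, htwo⟩ := hP a ha
    beta_reduce
    by_cases hDa : Dec a
    · rw [if_pos hDa]
      obtain ⟨s1, s2, s3, s4, s5, s6⟩ := hsp a hDa
      obtain ⟨hLp, hLQ, hLl⟩ := hL a ((hT a).2 hDa)
      rw [s1] at hc hn htwo ⊢
      obtain ⟨r1, r2, r3, r4, r5⟩ := HB2_ins Qs hRel hc hn s4 s5 s2 s3 hLp (fun v hv => (hLQ v hv).1)
      refine ⟨r1, r2, r3, r4, r5, ?_, ?_⟩
      · intro hle
        exfalso
        have : ({x a, y a} : Finset V) ⊆ Qs ∩ (l1 a ++ x a :: y a :: l2 a).toFinset := by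
          intro v hv
          simp only [Finset.mem_insert, Finset.mem_singleton] at hv
          rcases hv with rfl | rfl
          · simp [s2]
          · simp [s3]
        have := Finset.card_le_card this
        rw [Finset.card_pair s6] at this
        omega
      · have hsub : Qs ∩ (l1 a ++ (L a ++ l2 a)).toFinset ⊆ (L a).toFinset := by
          intro v hv
          simp only [Finset.mem_inter, List.mem_toFinset, List.mem_append] at hv ⊢
          rcases hv with ⟨hv, h | h | h⟩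
          · exact absurd hv (s4 v h)
          · exact h
          · exact absurd hv (s5 v h)
        have h1 := (Finset.card_le_card hsub).trans (List.toFinset_card_le _)
        have h2 : ((Qs ∩ (l1 a ++ (L a ++ l2 a)).toFinset).card : ℝ) ≤ (L a).length := by
          exact_mod_cast h1
        linarith
    · rw [if_neg hDa]
      refine ⟨?_, hn, rfl, rfl, fun v _ => Iff.rfl, fun _ => rfl, ?_⟩
      · refine HB2_chain Qs (P a) hc ?_
        intro m1 u v m2 he hu
        by_contra hv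
        exact hDa ⟨ha, m1, u, v, m2, he, hu, hv⟩
      · have : ((Qs ∩ (P a).toFinset).card : ℝ) ≤ 2 := by exact_mod_cast htwo
        linarith
  · intro a ha b hb hab v hv hv'
    by_cases hDa : Dec a
    · simp only [if_pos hDa] at hv
      obtain ⟨s1, s2, s3, s4, s5, s6⟩ := hsp a hDa
      obtain ⟨hLp, hLQ, hLl⟩ := hL a ((hT a).2 hDa)
      by_cases hDb : Dec b
      · simp only [if_pos hDb] at hv'
        obtain ⟨t1, t2, t3, t4, t5, t6⟩ := hsp b hDb
        obtain ⟨hLp', hLQ', hLl'⟩ := hL b ((hT b).2 hDb)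
        by_cases hvQ : v ∈ Qs
        · have e1 : v ∈ L a := by
            simp only [List.mem_append] at hv
            rcases hv with h | h | h
            · exact absurd hvQ (s4 v h)
            · exact h
            · exact absurd hvQ (s5 v h)
          have e2 : v ∈ L b := by
            simp only [List.mem_append] at hv'
            rcases hv' with h | h | h
            · exact absurd hvQ (t4 v h)
            · exact h
            · exact absurd hvQ (t5 v h)
          exact hLd a ((hT a).2 hDa) b ((hT b).2 hDb) hab e1 e2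
        · have e1 : v ∈ P a := by
            rw [s1]
            simp only [List.mem_append, List.mem_cons] at hv ⊢
            rcases hv with h | h | h
            · exact Or.inl h
            · exact absurd (hLQ v h).1 hvQ
            · exact Or.inr (Or.inr (Or.inr h))
          have e2 : v ∈ P b := by
            rw [t1]
            simp only [List.mem_append, List.mem_cons] at hv' ⊢
            rcases hv' with h | h | h
            · exact Or.inl h
            · exact absurd (hLQ' v h).1 hvQ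
            · exact Or.inr (Or.inr (Or.inr h))
          exact hd a ha b hb hab e1 e2
      · simp only [if_neg hDb] at hv'
        have e1 : v ∈ P a := by
          rw [s1]
          simp only [List.mem_append, List.mem_cons] at hv ⊢
          rcases hv with h | h | h
          · exact Or.inl h
          · exfalso
            exact (hLQ v h).2 ((hX v).2 ⟨(hLQ v h).1, b, hb, hDb, hv'⟩)
          · exact Or.inr (Or.inr (Or.inr h))
        exact hd a ha b hb hab e1 hv'
    · simp only [if_neg hDa] at hv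
      by_cases hDb : Dec b
      · simp only [if_pos hDb] at hv'
        obtain ⟨t1, t2, t3, t4, t5, t6⟩ := hsp b hDb
        obtain ⟨hLp', hLQ', hLl'⟩ := hL b ((hT b).2 hDb)
        have e2 : v ∈ P b := by
          rw [t1]
          simp only [List.mem_append, List.mem_cons] at hv' ⊢
          rcases hv' with h | h | h
          · exact Or.inl h
          · exfalso
            exact (hLQ' v h).2 ((hX v).2 ⟨(hLQ' v h).1, a, ha, hDa, hv⟩)
          · exact Or.inr (Or.inr (Or.inr h))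
        exact hd a ha b hb hab hv e2
      · simp only [if_neg hDb] at hv'
        exact hd a ha b hb hab hv hv'

/- MODULE HB3 -/
/-- All linking steps.
PROOF. Induction on `m ≤ q`: after `m` steps the lists are chains for the relation
`G.Adj x y ∨ ∃ i, m < i ∧ i ≤ q ∧ x ∈ Q i ∧ y ∈ Q i`; in the step `m → m + 1` use `link_step` with
`Qs = Q (m+1)`.  Kept: nodup, ends, disjointness, the properties `x ∈ P a, x ∈ Q (a/2+1) → x = u a`
(if `m + 1 = a/2 + 1` then `P a` has one vertex in `Qs` and is not changed; otherwise the vertices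
in `Q (a/2+1)` do not change), `x ∈ P a, x ∈ Q 0 → x = v a`, at most two vertices in `Q i` for `i > m`, at
most `6 K + 3` vertices in `Q i` for `1 ≤ i ≤ m`. -/
theorem all_links [DecidableEq V] (G : SimpleGraph V) (q : ℕ) (Q : ℕ → Finset V)
    (hdisj : ∀ i ≤ q, ∀ j ≤ q, i ≠ j → Disjoint (Q i) (Q j)) (D K : ℝ) (t : ℕ) (hK : 0 ≤ K)
    (hD : 0 < D) (hmin : ∀ i ≤ q, ∀ v ∈ Q i, D ≤ (dg G (Q i) v : ℝ))
    (hQ : ∀ i ≤ q, ((Q i).card : ℝ) ≤ K * D) (hconn : ∀ i ≤ q, Conn G (Q i) t)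
    (ht : (2 * q * (6 * K + 5) : ℝ) ≤ t) (hDn : 2 * (2 * q * (6 * K + 5) : ℝ) ≤ D)
    (P : ℕ → List V) (u v : ℕ → V)
    (hP : ∀ a < 2 * q,
        (P a).IsChain (fun x y => G.Adj x y ∨ ∃ i, 1 ≤ i ∧ i ≤ q ∧ x ∈ Q i ∧ y ∈ Q i) ∧
        (P a).Nodup ∧ (P a).head? = some (u a) ∧ (P a).getLast? = some (v a) ∧
        u a ∈ Q (a / 2 + 1) ∧ v a ∈ Q 0 ∧
        (∀ x ∈ P a, x ∈ Q (a / 2 + 1) → x = u a) ∧ (∀ x ∈ P a, x ∈ Q 0 → x = v a) ∧
        ∀ i, 1 ≤ i → i ≤ q → (Q i ∩ (P a).toFinset).card ≤ 2)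
    (hd : ∀ a < 2 * q, ∀ b < 2 * q, a ≠ b → List.Disjoint (P a) (P b)) :
    ∃ P' : ℕ → List V, (∀ a < 2 * q, PathL G (u a) (v a) (P' a) ∧
        (∀ x ∈ P' a, x ∈ Q (a / 2 + 1) → x = u a) ∧ (∀ x ∈ P' a, x ∈ Q 0 → x = v a) ∧
        ∀ i, 1 ≤ i → i ≤ q → ((Q i ∩ (P' a).toFinset).card : ℝ) ≤ 6 * K + 3) ∧
      ∀ a < 2 * q, ∀ b < 2 * q, a ≠ b → List.Disjoint (P' a) (P' b) := by
  have key : ∀ m ≤ q, ∃ P' : ℕ → List V, (∀ a < 2 * q,
      (P' a).IsChain (fun x y => G.Adj x y ∨ ∃ i, m + 1 ≤ i ∧ i ≤ q ∧ x ∈ Q i ∧ y ∈ Q i) ∧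
      (P' a).Nodup ∧ (P' a).head? = some (u a) ∧ (P' a).getLast? = some (v a) ∧
      (∀ x ∈ P' a, x ∈ Q (a / 2 + 1) → x = u a) ∧ (∀ x ∈ P' a, x ∈ Q 0 → x = v a) ∧
      (∀ i, m + 1 ≤ i → i ≤ q → (Q i ∩ (P' a).toFinset).card ≤ 2) ∧
      ∀ i, 1 ≤ i → i ≤ m → ((Q i ∩ (P' a).toFinset).card : ℝ) ≤ 6 * K + 3) ∧
      ∀ a < 2 * q, ∀ b < 2 * q, a ≠ b → List.Disjoint (P' a) (P' b) := by
    intro m
    induction m with
    | zero =>
      intro _
      refine ⟨P, fun a ha => ?_, hd⟩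
      obtain ⟨h1, h2, h3, h4, h5, h6, h7, h8, h9⟩ := hP a ha
      exact ⟨h1, h2, h3, h4, h7, h8, h9, fun i hi hi' => by omega⟩
    | succ m ih =>
      intro hm
      obtain ⟨P1, hP1, hd1⟩ := ih (by omega)
      have hcast : ((2 * q : ℕ) : ℝ) = 2 * q := by push_cast; ring
      obtain ⟨P2, hP2, hd2⟩ := link_step G (Q (m + 1)) D K t hD (hmin (m + 1) hm) (hQ (m + 1) hm)
        hK (hconn (m + 1) hm) (2 * q) (by rw [hcast]; exact ht) (by rw [hcast]; exact hDn)
        (fun x y => G.Adj x y ∨ ∃ i, m + 1 + 1 ≤ i ∧ i ≤ q ∧ x ∈ Q i ∧ y ∈ Q i)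
        (fun x y h => Or.inl h) P1 (by
          intro a ha
          obtain ⟨h1, h2, h3, h4, h5, h6, h7, h8⟩ := hP1 a ha
          refine ⟨h1.imp ?_, h2, h7 (m + 1) (le_refl _) hm⟩
          rintro x y (h | ⟨i, hi1, hi2, hx, hy⟩)
          · exact Or.inl (Or.inl h)
          · rcases Nat.eq_or_lt_of_le hi1 with h | h
            · subst h
              exact Or.inr ⟨hx, hy⟩
            · exact Or.inl (Or.inr ⟨i, h, hi2, hx, hy⟩)) hd1
      refine ⟨P2, fun a ha => ?_, hd2⟩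
      obtain ⟨h1, h2, h3, h4, h5, h6, h7, h8⟩ := hP1 a ha
      obtain ⟨g1, g2, g3, g4, g5, g6, g7⟩ := hP2 a ha
      have haq : a / 2 + 1 ≤ q := by omega
      have hother : ∀ i ≤ q, i ≠ m + 1 → ∀ x ∈ Q i, (x ∈ P2 a ↔ x ∈ P1 a) := by
        intro i hi hne x hx
        exact g5 x (fun hx' => Finset.disjoint_left.1 (hdisj i hi (m + 1) hm hne) hx hx')
      have hsame : ∀ i ≤ q, i ≠ m + 1 → Q i ∩ (P2 a).toFinset = Q i ∩ (P1 a).toFinset := by
        intro i hi hne
        ext x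
        simp only [Finset.mem_inter, List.mem_toFinset]
        exact ⟨fun h => ⟨h.1, (hother i hi hne x h.1).1 h.2⟩,
          fun h => ⟨h.1, (hother i hi hne x h.1).2 h.2⟩⟩
      refine ⟨g1, g2, g3.trans h3, g4.trans h4, ?_, ?_, ?_, ?_⟩
      · intro x hx hxQ
        by_cases hc : a / 2 + 1 = m + 1
        · have hle : (Q (m + 1) ∩ (P1 a).toFinset).card ≤ 1 := by
            rw [Finset.card_le_one]
            intro y hy z hz
            simp only [Finset.mem_inter, List.mem_toFinset] at hy hz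
            rw [← hc] at hy hz
            rw [h5 y hy.2 hy.1, h5 z hz.2 hz.1]
          rw [g6 hle] at hx
          exact h5 x hx hxQ
        · exact h5 x ((hother _ haq hc x hxQ).1 hx) hxQ
      · intro x hx hxQ
        exact h6 x ((hother 0 (Nat.zero_le _) (by omega) x hxQ).1 hx) hxQ
      · intro i hi1 hi2
        rw [hsame i hi2 (by omega)]
        exact h7 i (by omega) hi2
      · intro i hi1 hi2
        by_cases hc : i = m + 1
        · rw [hc]; exact g7
        · rw [hsame i (by omega) hc]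
          exact h8 i hi1 (by omega)
  obtain ⟨P', hP', hd'⟩ := key q (le_refl _)
  refine ⟨P', fun a ha => ?_, hd'⟩
  obtain ⟨h1, h2, h3, h4, h5, h6, h7, h8⟩ := hP' a ha
  refine ⟨⟨h1.imp ?_, h2, h3, h4⟩, h5, h6, h8⟩
  rintro x y (h | ⟨i, hi1, hi2, _⟩)
  · exact h
  · omega

/- MODULE HB4 -/
/-- PROOF. Induction on `q`. -/
theorem exists_sum_le (q H T : ℕ) (h : T ≤ q * H) :
    ∃ c : ℕ → ℕ, (∀ j < q, c j ≤ H) ∧ ∑ j ∈ Finset.range q, c j = T := by
  induction q generalizing T with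
  | zero => exact ⟨fun _ => 0, fun j hj => absurd hj (Nat.not_lt_zero j), by simp; omega⟩
  | succ q ih =>
    by_cases hT : T ≤ q * H
    · obtain ⟨c, hc, hs⟩ := ih T hT
      refine ⟨Function.update c q 0, ?_, ?_⟩
      · intro j hj
        by_cases hjq : j = q
        · subst hjq; simp
        · rw [Function.update_of_ne hjq]; exact hc j (by omega)
      · rw [Finset.sum_range_succ, Function.update_self, add_zero, ← hs]
        apply Finset.sum_congr rfl
        intro j hj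
        rw [Function.update_of_ne (Finset.mem_range.1 hj).ne]
    · obtain ⟨c, hc, hs⟩ := ih (q * H) (le_refl _)
      refine ⟨Function.update c q (T - q * H), ?_, ?_⟩
      · intro j hj
        by_cases hjq : j = q
        · subst hjq
          rw [Function.update_self]
          have : (j + 1) * H = j * H + H := by ring
          omega
        · rw [Function.update_of_ne hjq]; exact hc j (by omega)
      · rw [Finset.sum_range_succ, Function.update_self]
        have : ∑ j ∈ Finset.range q, Function.update c q (T - q * H) j = q * H := by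
          rw [← hs]
          apply Finset.sum_congr rfl
          intro j hj
          rw [Function.update_of_ne (Finset.mem_range.1 hj).ne]
        rw [this]
        omega

private lemma HB4_two_le {G : SimpleGraph V} {x y : V} {l : List V} (h : PathL G x y l)
    (hne : x ≠ y) : 2 ≤ l.length := by
  obtain ⟨_, _, h3, h4⟩ := h
  rcases l with _ | ⟨a, _ | ⟨b, r⟩⟩
  · simp at h3
  · simp only [List.head?_cons, Option.some.injEq, List.getLast?_singleton] at h3 h4
    exact absurd (h3.symm.trans h4) hne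
  · simp

private lemma HB4_set [DecidableEq V] (S : Finset V) (n : ℕ) (P : ℕ → List V) (M : ℝ)
    (h : ∀ a < n, ((S ∩ (P a).toFinset).card : ℝ) ≤ M) (e1 e2 : V) :
    ∃ X : Finset V, (∀ w, w ∈ X ↔ (∃ a < n, w ∈ S ∧ w ∈ P a) ∧ w ≠ e1 ∧ w ≠ e2) ∧
      (X.card : ℝ) ≤ n * M := by
  refine ⟨((Finset.range n).biUnion (fun a => S ∩ (P a).toFinset)) \ {e1, e2}, ?_, ?_⟩
  · intro w
    simp only [Finset.mem_sdiff, Finset.mem_biUnion, Finset.mem_range, Finset.mem_inter,
      List.mem_toFinset, Finset.mem_insert, Finset.mem_singleton, not_or]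
  · have h1 : (((Finset.range n).biUnion (fun a => S ∩ (P a).toFinset)) \ {e1, e2}).card ≤
        ∑ a ∈ Finset.range n, (S ∩ (P a).toFinset).card :=
      (Finset.card_le_card Finset.sdiff_subset).trans Finset.card_biUnion_le
    have h2 : ((((Finset.range n).biUnion (fun a => S ∩ (P a).toFinset)) \ {e1, e2}).card : ℝ) ≤
        ∑ a ∈ Finset.range n, ((S ∩ (P a).toFinset).card : ℝ) := by exact_mod_cast h1
    refine h2.trans ?_
    refine (Finset.sum_le_sum (fun a ha => h a (Finset.mem_range.1 ha))).trans ?_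
    rw [Finset.sum_const, Finset.card_range, nsmul_eq_mul]

private lemma HB4_four {α : Type*} (g0 g1 g2 g3 : ℕ → α) :
    ∃ B : ℕ → α, ∀ i, B (4 * i) = g0 i ∧ B (4 * i + 1) = g1 i ∧ B (4 * i + 2) = g2 i ∧
      B (4 * i + 3) = g3 i := by
  refine ⟨fun k => if k % 4 = 0 then g0 (k / 4) else if k % 4 = 1 then g1 (k / 4) else
    if k % 4 = 2 then g2 (k / 4) else g3 (k / 4), fun i => ⟨?_, ?_, ?_, ?_⟩⟩
  · beta_reduce
    rw [if_pos (by omega), show 4 * i / 4 = i by omega]
  · beta_reduce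
    rw [if_neg (by omega), if_pos (by omega), show (4 * i + 1) / 4 = i by omega]
  · beta_reduce
    rw [if_neg (by omega), if_neg (by omega), if_pos (by omega),
      show (4 * i + 2) / 4 = i by omega]
  · beta_reduce
    rw [if_neg (by omega), if_neg (by omega), if_neg (by omega),
      show (4 * i + 3) / 4 = i by omega]

private lemma HB4_sum4 (g : ℕ → ℕ) (q : ℕ) : ∑ k ∈ Finset.range (4 * q), g k =
    ∑ i ∈ Finset.range q, (g (4 * i) + g (4 * i + 1) + g (4 * i + 2) + g (4 * i + 3)) := by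
  induction q with
  | zero => simp
  | succ q ih =>
    rw [show 4 * (q + 1) = 4 * q + 1 + 1 + 1 + 1 by ring, Finset.sum_range_succ,
      Finset.sum_range_succ, Finset.sum_range_succ, Finset.sum_range_succ,
      Finset.sum_range_succ _ q, ih]
    ring

/-- The cycles through the hub and all petals.
PROOF. For `i < q` let `X i` be the set of vertices of `Q (i+1)` on the paths `P a` (`a < 2 q`), without
`u (2 i)`, `u (2 i + 1)`: `|X i| ≤ 2 q (6 K + 3)`.  `gadget` gives `f i` and for every `c < ρ` a path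
`Fl i c` from `u (2 i)` to `u (2 i + 1)` in `Q (i+1) ∖ X i` with `f i + 2 c` vertices (`u (2 i) ≠ u (2 i + 1)`
as `P (2 i)`, `P (2 i + 1)` are disjoint).  Hub links: `links` in `Q 0` with `X = ∅`, `T = range q`,
`a i = v (2 i + 1)`, `b i = v ((2 i + 2) % (2 q))` (all these vertices are distinct): `H i`.
Given `c ≤ q (ρ - 1)` choose `c i ≤ ρ - 1` with sum `c`.  `hasCyc_of_paths` with `r = 4 q`:
`B (4 i) = (P (2 i)).reverse` (from `v (2 i)` to `u (2 i)`), `B (4 i + 1) = Fl i (c i)`,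
`B (4 i + 2) = P (2 i + 1)`, `B (4 i + 3) = H i`; `z (4 i) = v (2 (i % q))`, `z (4 i + 1) = u (2 i)`,
`z (4 i + 2) = u (2 i + 1)`, `z (4 i + 3) = v (2 i + 1)`.  The sum of `|B| - 1` is
`∑_i ((|P (2i)| - 1) + (f i - 1) + (|P (2i+1)| - 1) + (|H i| - 1)) + 2 c` (all these lists have at
least two elements; `f i ≥ 2` by `c = 0`). -/
theorem hub_cycles [DecidableEq V] (G : SimpleGraph V) (q : ℕ) (hq : 1 ≤ q) (Q : ℕ → Finset V)
    (hdisj : ∀ i ≤ q, ∀ j ≤ q, i ≠ j → Disjoint (Q i) (Q j)) (D K : ℝ) (t : ℕ) (hK : 0 < K)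
    (hD : 128 ≤ D) (hmin : ∀ i ≤ q, ∀ v ∈ Q i, D ≤ (dg G (Q i) v : ℝ))
    (hQ : ∀ i ≤ q, ((Q i).card : ℝ) ≤ K * D) (hconn : ∀ i ≤ q, Conn G (Q i) t)
    (ht : (2 * q * (6 * K + 5) + (6 * K + 2) : ℝ) ≤ t)
    (hDn : 2 * (2 * q * (6 * K + 5) + (6 * K + 2) : ℝ) ≤ D)
    (P : ℕ → List V) (u v : ℕ → V)
    (hu : ∀ a < 2 * q, u a ∈ Q (a / 2 + 1)) (hv : ∀ a < 2 * q, v a ∈ Q 0)
    (hP : ∀ a < 2 * q, PathL G (u a) (v a) (P a) ∧
        (∀ x ∈ P a, x ∈ Q (a / 2 + 1) → x = u a) ∧ (∀ x ∈ P a, x ∈ Q 0 → x = v a) ∧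
        ∀ i, 1 ≤ i → i ≤ q → ((Q i ∩ (P a).toFinset).card : ℝ) ≤ 6 * K + 3)
    (hd : ∀ a < 2 * q, ∀ b < 2 * q, a ≠ b → List.Disjoint (P a) (P b)) (ρ : ℕ) (hρ1 : 1 ≤ ρ)
    (hρ : (2 * (ρ + 1) + 1 + 2 * (6 * K + 1) : ℝ) ≤ D / (256 * K))
    (hρ2 : (2 * ((ρ + 1) + 2 * (6 * K + 1) + 2) : ℝ) ≤ D / 4) :
    ∃ F : ℕ, ∀ c ≤ q * (ρ - 1), HasCyc G (F + 2 * c) := by
  classical
  have hvm : ∀ a < 2 * q, v a ∈ P a := fun a ha => (hP a ha).1.right_mem
  have hum : ∀ a < 2 * q, u a ∈ P a := fun a ha => (hP a ha).1.left_mem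
  have hvinj : ∀ a < 2 * q, ∀ b < 2 * q, v a = v b → a = b := by
    intro a ha b hb he
    by_contra hab
    exact hd a ha b hb hab (hvm a ha) (he ▸ hvm b hb)
  have huinj : ∀ a < 2 * q, ∀ b < 2 * q, u a = u b → a = b := by
    intro a ha b hb he
    by_contra hab
    exact hd a ha b hb hab (hum a ha) (he ▸ hum b hb)
  have hqr : (1 : ℝ) ≤ q := by exact_mod_cast hq
  have hqK : (0 : ℝ) ≤ q * K := by positivity
  have hue : ∀ i < q, u (2 * i) ∈ Q (i + 1) := by
    intro i hi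
    have := hu (2 * i) (by omega)
    rwa [show 2 * i / 2 = i by omega] at this
  have huo : ∀ i < q, u (2 * i + 1) ∈ Q (i + 1) := by
    intro i hi
    have := hu (2 * i + 1) (by omega)
    rwa [show (2 * i + 1) / 2 = i by omega] at this
  -- the gadgets
  have hgad : ∀ i, ∃ f : ℕ, i < q → ∀ c < ρ, ∃ l, PathL G (u (2 * i)) (u (2 * i + 1)) l ∧
      l.length = f + 2 * c ∧ ∀ w ∈ l, w ∈ Q (i + 1) ∧
        ∀ a < 2 * q, w ∈ P a → w = u (2 * i) ∨ w = u (2 * i + 1) := by
    intro i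
    by_cases hi : i < q
    swap
    · exact ⟨0, fun h => absurd h hi⟩
    obtain ⟨X, hX, hXc⟩ := HB4_set (Q (i + 1)) (2 * q) P (6 * K + 3)
      (fun a ha => (hP a ha).2.2.2 (i + 1) (by omega) (by omega)) (u (2 * i)) (u (2 * i + 1))
    have hcast : ((2 * q : ℕ) : ℝ) = 2 * q := by push_cast; ring
    rw [hcast] at hXc
    have hb1 : (X.card : ℝ) + (6 * K + 2) ≤ 2 * q * (6 * K + 5) + (6 * K + 2) := by nlinarith
    obtain ⟨f, hf⟩ := gadget G (Q (i + 1)) X D K t hD (hmin (i + 1) (by omega))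
      (hQ (i + 1) (by omega)) (hconn (i + 1) (by omega)) (hb1.trans ht)
      (le_trans (by linarith) hDn) (u (2 * i)) (u (2 * i + 1))
      (fun he => by have := huinj (2 * i) (by omega) (2 * i + 1) (by omega) he; omega)
      (hue i hi) (fun h => ((hX _).1 h).2.1 rfl) (huo i hi) (fun h => ((hX _).1 h).2.2 rfl)
      ρ hρ hρ2
    refine ⟨f, fun _ c hc => ?_⟩
    obtain ⟨l, h1, h2, h3⟩ := hf c hc
    refine ⟨l, h1, h2, fun w hw => ⟨(h3 w hw).1, fun a ha hwa => ?_⟩⟩
    by_contra hne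
    push Not at hne
    exact (h3 w hw).2 ((hX w).2 ⟨⟨a, ha, (h3 w hw).1, hwa⟩, hne⟩)
  choose f hf using hgad
  -- the links in the hub
  have hmod : ∀ i < q, (i + 1 < q ∧ (i + 1) % q = i + 1) ∨ (i + 1 = q ∧ (i + 1) % q = 0) := by
    intro i hi
    rcases lt_or_eq_of_le (Nat.succ_le_of_lt hi) with h | h
    · exact Or.inl ⟨h, Nat.mod_eq_of_lt h⟩
    · right
      refine ⟨h, ?_⟩
      have h' : i + 1 = q := h
      rw [h', Nat.mod_self]
  obtain ⟨H, hH, hHd⟩ := links G (Q 0) ∅ D K t (by linarith) (hmin 0 (Nat.zero_le _))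
    (hQ 0 (Nat.zero_le _)) (hconn 0 (Nat.zero_le _)) (Finset.range q)
    (by
      simp only [Finset.card_empty, Nat.cast_zero, Finset.card_range]
      nlinarith)
    (by
      simp only [Finset.card_empty, Nat.cast_zero, Finset.card_range]
      nlinarith)
    (fun i => v (2 * i + 1)) (fun i => v (2 * ((i + 1) % q)))
    (by
      intro i hi
      rw [Finset.mem_range] at hi
      exact ⟨hv _ (by omega), by simp⟩)
    (by
      intro i hi
      rw [Finset.mem_range] at hi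
      have := Nat.mod_lt (i + 1) hq
      exact ⟨hv _ (by omega), by simp⟩)
    (by
      intro i hi j hj hij he
      rw [Finset.mem_range] at hi hj
      have := hvinj _ (by omega) _ (by omega) he
      omega)
    (by
      intro i hi j hj hij he
      rw [Finset.mem_range] at hi hj
      have h1 := Nat.mod_lt (i + 1) hq
      have h2 := Nat.mod_lt (j + 1) hq
      have := hvinj _ (by omega) _ (by omega) he
      rcases hmod i hi with h3 | h3 <;> rcases hmod j hj with h4 | h4 <;> omega)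
    (by
      intro i hi j hj he
      rw [Finset.mem_range] at hi hj
      have h2 := Nat.mod_lt (j + 1) hq
      have := hvinj _ (by omega) _ (by omega) he
      omega)
  refine ⟨∑ i ∈ Finset.range q, (((P (2 * i)).length - 1) + (f i - 1) +
    ((P (2 * i + 1)).length - 1) + ((H i).length - 1)), fun c hc => ?_⟩
  obtain ⟨cc, hcc, hcs⟩ := exists_sum_le q (ρ - 1) c hc
  have hFl : ∀ i, ∃ l : List V, i < q → PathL G (u (2 * i)) (u (2 * i + 1)) l ∧
      l.length = f i + 2 * cc i ∧ ∀ w ∈ l, w ∈ Q (i + 1) ∧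
        ∀ a < 2 * q, w ∈ P a → w = u (2 * i) ∨ w = u (2 * i + 1) := by
    intro i
    by_cases hi : i < q
    · have h1 := hcc i hi
      obtain ⟨l, hl⟩ := hf i hi (cc i) (by omega)
      exact ⟨l, fun _ => hl⟩
    · exact ⟨[], fun h => absurd h hi⟩
  choose Fl hFl using hFl
  have huu : ∀ i < q, u (2 * i) ≠ u (2 * i + 1) := by
    intro i hi he
    have := huinj (2 * i) (by omega) (2 * i + 1) (by omega) he
    omega
  have hf2 : ∀ i < q, 2 ≤ f i := by
    intro i hi
    obtain ⟨l, h1, h2, _⟩ := hf i hi 0 (by omega)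
    have := HB4_two_le h1 (huu i hi)
    omega
  -- mutual position of the pieces
  have cPF : ∀ a < 2 * q, ∀ j < q, ∀ w, w ∈ P a → w ∈ Fl j →
      (w = u (2 * j) ∧ a = 2 * j) ∨ (w = u (2 * j + 1) ∧ a = 2 * j + 1) := by
    intro a ha j hj w hw hw'
    rcases ((hFl j hj).2.2 w hw').2 a ha hw with h | h
    · left
      refine ⟨h, ?_⟩
      by_contra hne
      exact hd a ha (2 * j) (by omega) hne hw (h ▸ hum (2 * j) (by omega))
    · right
      refine ⟨h, ?_⟩
      by_contra hne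
      exact hd a ha (2 * j + 1) (by omega) hne hw (h ▸ hum (2 * j + 1) (by omega))
  have hHR : ∀ j < q, v (2 * ((j + 1) % q)) ∈ H j := fun j hj =>
    (hH j (Finset.mem_range.2 hj)).1.right_mem
  have hHL : ∀ j < q, v (2 * j + 1) ∈ H j := fun j hj =>
    (hH j (Finset.mem_range.2 hj)).1.left_mem
  have cPH : ∀ a < 2 * q, ∀ j < q, ∀ w, w ∈ P a → w ∈ H j →
      (w = v (2 * j + 1) ∧ a = 2 * j + 1) ∨
        (w = v (2 * ((j + 1) % q)) ∧ a = 2 * ((j + 1) % q)) := by
    intro a ha j hj w hw hw'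
    have hwv : w = v a := (hP a ha).2.2.1 w hw ((hH j (Finset.mem_range.2 hj)).2.1 w hw').1
    rcases Nat.even_or_odd' a with ⟨m, hm | hm⟩
    · right
      have hmq : m < q := by omega
      obtain ⟨m', hm', hmm⟩ : ∃ m', m' < q ∧ (m' + 1) % q = m := by
        rcases Nat.eq_zero_or_pos m with h0 | h0
        · refine ⟨q - 1, by omega, ?_⟩
          rw [show q - 1 + 1 = q by omega, Nat.mod_self, h0]
        · refine ⟨m - 1, by omega, ?_⟩
          rw [show m - 1 + 1 = m by omega, Nat.mod_eq_of_lt hmq]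
      have hj' : m' = j := by
        by_contra hne
        refine hHd m' (Finset.mem_range.2 hm') j (Finset.mem_range.2 hj) hne (hHR m' hm') ?_
        rw [hmm, ← hm, ← hwv]
        exact hw'
      subst hj'
      rw [hmm, ← hm]
      exact ⟨hwv, rfl⟩
    · left
      have hmq : m < q := by omega
      have hj' : m = j := by
        by_contra hne
        refine hHd m (Finset.mem_range.2 hmq) j (Finset.mem_range.2 hj) hne (hHL m hmq) ?_
        rw [← hm, ← hwv]
        exact hw'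
      subst hj'
      exact ⟨hwv.trans (by rw [hm]), hm⟩
  have cFF : ∀ i < q, ∀ j < q, i ≠ j → ∀ w, w ∈ Fl i → w ∈ Fl j → False := by
    intro i hi j hj hij w hw hw'
    exact Finset.disjoint_left.1 (hdisj (i + 1) (by omega) (j + 1) (by omega) (by omega))
      ((hFl i hi).2.2 w hw).1 ((hFl j hj).2.2 w hw').1
  have cFH : ∀ i < q, ∀ j < q, ∀ w, w ∈ Fl i → w ∈ H j → False := by
    intro i hi j hj w hw hw'
    exact Finset.disjoint_left.1 (hdisj (i + 1) (by omega) 0 (by omega) (by omega))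
      ((hFl i hi).2.2 w hw).1 ((hH j (Finset.mem_range.2 hj)).2.1 w hw').1
  -- the closed chain of paths
  obtain ⟨z, hz⟩ := HB4_four (fun i => v (2 * (i % q))) (fun i => u (2 * i))
    (fun i => u (2 * i + 1)) (fun i => v (2 * i + 1))
  obtain ⟨B, hBd⟩ := HB4_four (fun i => (P (2 * i)).reverse) Fl (fun i => P (2 * i + 1)) H
  have hlenP : ∀ a < 2 * q, 2 ≤ (P a).length := by
    intro a ha
    refine HB4_two_le (hP a ha).1 ?_
    intro he
    have h1 := hu a ha
    rw [he] at h1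
    exact Finset.disjoint_left.1 (hdisj (a / 2 + 1) (by omega) 0 (by omega) (by omega)) h1 (hv a ha)
  have hlenF : ∀ i < q, 2 ≤ (Fl i).length := by
    intro i hi
    exact HB4_two_le (hFl i hi).1 (huu i hi)
  have hlenH : ∀ i < q, 2 ≤ (H i).length := by
    intro i hi
    refine HB4_two_le (hH i (Finset.mem_range.2 hi)).1 ?_
    intro he
    have h2 := Nat.mod_lt (i + 1) hq
    have := hvinj _ (by omega) _ (by omega) he
    omega
  have h2 : ∀ k < 4 * q, 2 ≤ (B k).length := by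
    intro k hk
    obtain ⟨i, h | h | h | h⟩ : ∃ i, k = 4 * i ∨ k = 4 * i + 1 ∨ k = 4 * i + 2 ∨ k = 4 * i + 3 :=
      ⟨k / 4, by omega⟩
    · rw [h, (hBd i).1, List.length_reverse]; exact hlenP _ (by omega)
    · rw [h, (hBd i).2.1]; exact hlenF _ (by omega)
    · rw [h, (hBd i).2.2.1]; exact hlenP _ (by omega)
    · rw [h, (hBd i).2.2.2]; exact hlenH _ (by omega)
  have hsum : ∑ k ∈ Finset.range (4 * q), ((B k).length - 1) =
      ∑ i ∈ Finset.range q, (((P (2 * i)).length - 1) + (f i - 1) +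
    ((P (2 * i + 1)).length - 1) + ((H i).length - 1)) + 2 * c := by
    rw [HB4_sum4, ← hcs, Finset.mul_sum, ← Finset.sum_add_distrib]
    apply Finset.sum_congr rfl
    intro i hi
    rw [Finset.mem_range] at hi
    rw [(hBd i).1, (hBd i).2.1, (hBd i).2.2.1, (hBd i).2.2.2, List.length_reverse,
      (hFl i hi).2.1]
    have := hf2 i hi
    omega
  rw [← hsum]
  apply hasCyc_of_paths (4 * q) (by omega) z B
  · intro k hk
    obtain ⟨i, h | h | h | h⟩ : ∃ i, k = 4 * i ∨ k = 4 * i + 1 ∨ k = 4 * i + 2 ∨ k = 4 * i + 3 :=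
      ⟨k / 4, by omega⟩
    · rw [h, (hBd i).1, (hz i).1, (hz i).2.1, Nat.mod_eq_of_lt (show i < q by omega)]
      exact (hP (2 * i) (by omega)).1.reverse
    · rw [h, (hBd i).2.1, (hz i).2.1, show 4 * i + 1 + 1 = 4 * i + 2 by ring, (hz i).2.2.1]
      exact (hFl i (by omega)).1
    · rw [h, (hBd i).2.2.1, (hz i).2.2.1, show 4 * i + 2 + 1 = 4 * i + 3 by ring, (hz i).2.2.2]
      exact (hP (2 * i + 1) (by omega)).1
    · rw [h, (hBd i).2.2.2, (hz i).2.2.2, show 4 * i + 3 + 1 = 4 * (i + 1) by ring,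
        (hz (i + 1)).1]
      exact (hH i (Finset.mem_range.2 (by omega))).1
  · have e1 := (hz q).1
    have e2 := (hz 0).1
    rw [Nat.mod_self] at e1
    rw [Nat.zero_mod] at e2
    rw [e1, ← e2]
  · exact h2
  · intro k k' hkk hk' w hw hw'
    obtain ⟨i, hi⟩ : ∃ i, k = 4 * i ∨ k = 4 * i + 1 ∨ k = 4 * i + 2 ∨ k = 4 * i + 3 :=
      ⟨k / 4, by omega⟩
    obtain ⟨j, hj⟩ : ∃ i, k' = 4 * i ∨ k' = 4 * i + 1 ∨ k' = 4 * i + 2 ∨ k' = 4 * i + 3 :=
      ⟨k' / 4, by omega⟩
    have hiq : i < q := by omega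
    have hjq : j < q := by omega
    have hmi := hmod i hiq
    have hmj := hmod j hjq
    -- the even pieces
    have cPP : ∀ a < 2 * q, ∀ b < 2 * q, a ≠ b → w ∈ P a → w ∈ P b → False :=
      fun a ha b hb hab h1 h2 => hd a ha b hb hab h1 h2
    rcases hi with h | h | h | h
    · rw [h, (hBd i).1, List.mem_reverse] at hw
      rcases hj with h' | h' | h' | h'
      · rw [h', (hBd j).1, List.mem_reverse] at hw'
        exact (cPP _ (by omega) _ (by omega) (by omega) hw hw').elim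
      · rw [h', (hBd j).2.1] at hw'
        rcases cPF _ (by omega) j hjq w hw hw' with ⟨e1, e2⟩ | ⟨e1, e2⟩
        · left
          refine ⟨by omega, ?_⟩
          rw [h', (hz j).2.1, e1]
        · omega
      · rw [h', (hBd j).2.2.1] at hw'
        exact (cPP _ (by omega) _ (by omega) (by omega) hw hw').elim
      · rw [h', (hBd j).2.2.2] at hw'
        rcases cPH _ (by omega) j hjq w hw hw' with ⟨e1, e2⟩ | ⟨e1, e2⟩
        · omega
        · right
          rcases hmj with h3 | h3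
          · omega
          · refine ⟨by omega, by omega, ?_⟩
            have e0 := (hz 0).1
            rw [Nat.zero_mod] at e0
            rw [e1, h3.2]
            exact e0.symm
    · rw [h, (hBd i).2.1] at hw
      rcases hj with h' | h' | h' | h'
      · rw [h', (hBd j).1, List.mem_reverse] at hw'
        rcases cPF _ (by omega) i hiq w hw' hw with ⟨e1, e2⟩ | ⟨e1, e2⟩
        · omega
        · omega
      · rw [h', (hBd j).2.1] at hw'
        exact (cFF i hiq j hjq (by omega) w hw hw').elim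
      · rw [h', (hBd j).2.2.1] at hw'
        rcases cPF _ (by omega) i hiq w hw' hw with ⟨e1, e2⟩ | ⟨e1, e2⟩
        · omega
        · left
          refine ⟨by omega, ?_⟩
          have hij : i = j := by omega
          rw [h', (hz j).2.2.1, e1, hij]
      · rw [h', (hBd j).2.2.2] at hw'
        exact (cFH i hiq j hjq w hw hw').elim
    · rw [h, (hBd i).2.2.1] at hw
      rcases hj with h' | h' | h' | h'
      · rw [h', (hBd j).1, List.mem_reverse] at hw'
        exact (cPP _ (by omega) _ (by omega) (by omega) hw hw').elim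
      · rw [h', (hBd j).2.1] at hw'
        rcases cPF _ (by omega) j hjq w hw hw' with ⟨e1, e2⟩ | ⟨e1, e2⟩
        · omega
        · omega
      · rw [h', (hBd j).2.2.1] at hw'
        exact (cPP _ (by omega) _ (by omega) (by omega) hw hw').elim
      · rw [h', (hBd j).2.2.2] at hw'
        rcases cPH _ (by omega) j hjq w hw hw' with ⟨e1, e2⟩ | ⟨e1, e2⟩
        · left
          refine ⟨by omega, ?_⟩
          rw [h', (hz j).2.2.2, e1]
        · omega
    · rw [h, (hBd i).2.2.2] at hw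
      rcases hj with h' | h' | h' | h'
      · rw [h', (hBd j).1, List.mem_reverse] at hw'
        rcases cPH _ (by omega) i hiq w hw' hw with ⟨e1, e2⟩ | ⟨e1, e2⟩
        · omega
        · left
          refine ⟨by omega, ?_⟩
          rw [h', (hz j).1, Nat.mod_eq_of_lt hjq, e1, ← e2]
      · rw [h', (hBd j).2.1] at hw'
        exact (cFH j hjq i hiq w hw' hw).elim
      · rw [h', (hBd j).2.2.1] at hw'
        rcases cPH _ (by omega) i hiq w hw' hw with ⟨e1, e2⟩ | ⟨e1, e2⟩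
        · omega
        · omega
      · rw [h', (hBd j).2.2.2] at hw'
        exact (hHd i (Finset.mem_range.2 hiq) j (Finset.mem_range.2 hjq) (by omega) hw hw').elim
  · have h3 : ∑ _k ∈ Finset.range (4 * q), 1 ≤ ∑ k ∈ Finset.range (4 * q), ((B k).length - 1) := by
      apply Finset.sum_le_sum
      intro k hk
      have := h2 k (Finset.mem_range.1 hk)
      omega
    rw [Finset.sum_const, Finset.card_range, smul_eq_mul, mul_one] at h3
    omega

/- MODULE HB5 -/
private lemma HB5_pot {V : Type u} [Fintype V] (G : SimpleGraph V) (D : ℝ) (t : ℕ) (ht1 : 1 ≤ t)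
    (hD1 : 2 * (t : ℝ) ≤ D) (hD2 : (t : ℝ) * (t + 1) ≤ D) (P : Finset V) (hne : P.Nonempty)
    (hvol : 2 * D * (P.card : ℝ) ≤ (vol G P : ℝ)) :
    ∃ Q ⊆ P, (∀ v ∈ Q, D ≤ (dg G Q v : ℝ)) ∧ D + 1 < (Q.card : ℝ) ∧ Conn G Q t := by
  have ht1' : (1 : ℝ) ≤ t := by exact_mod_cast ht1
  have hDpos : 0 < D := by linarith
  have hcpos : 0 < P.card := Finset.card_pos.2 hne
  have hc1 : (1 : ℝ) ≤ (P.card : ℝ) := by exact_mod_cast hcpos
  have hcard : 2 * D + 1 ≤ (P.card : ℝ) := by
    have h1 : (vol G P : ℝ) ≤ (P.card : ℝ) * ((P.card : ℝ) - 1) := by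
      have h2 := vol_le G P
      have h3 : ((P.card * (P.card - 1) : ℕ) : ℝ) = (P.card : ℝ) * ((P.card : ℝ) - 1) := by
        rw [Nat.cast_mul, Nat.cast_sub hcpos, Nat.cast_one]
      rw [← h3]
      exact_mod_cast h2
    have h4 : (P.card : ℝ) * (2 * D) ≤ (P.card : ℝ) * ((P.card : ℝ) - 1) := by linarith
    have h5 := le_of_mul_le_mul_left h4 (by linarith)
    linarith
  obtain ⟨S, hS, _, h2, h3, h4⟩ := potential G P (2 * D) t (by linarith) (by linarith)
    (by
      have : ((t + 1 : ℕ) : ℝ) ≤ (P.card : ℝ) := by push_cast; linarith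
      exact_mod_cast this)
    (by nlinarith)
  refine ⟨S, hS, fun v hv => ?_, ?_, h4⟩
  · have := h2 v hv
    linarith
  · linarith

/-- THE GLUING LEMMA.
PROOF. `K = 4/δ`, `q = ⌈10^5/δ²⌉` (`≥ 1`), `T = q + 1`, `t = 2 q`,
`t2 = ⌈2 q (6 K + 5) + 6 K + 2⌉`, `k0` large.  For `k ≥ k0` put `D = δ k`.  `potential` for `S₀ = P i`, `B = 2 D`,
parameter `t2` (`1 ≤ t2`, so `B (|P i| - t2) < B |P i| ≤ vol (P i)`; `t2 + 1 ≤ |P i|` since
`2 D |P i| ≤ vol ≤ |P i| (|P i| - 1)` gives `|P i| ≥ 2 D + 1`) gives `Q i ⊆ P i` with degrees `> D`, more than `D + 1`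
vertices, `Conn G (Q i) t2`; `|Q i| ≤ 4 k = K D`.  `system`, `all_links`, `hub_cycles` with
`ρ = ⌊δ² k / 4096⌋`: `D/(256 K) = δ² k / 1024`, `2 (ρ + 1) + 1 + 2 (6 K + 1) ≤ δ² k/2048 + const`, fine for
large `k`; `D/4 = δ k/4 ≥ δ² k / 4`.  `q (ρ - 1) ≥ (10^5/δ²) (δ² k/4096 - 2) ≥ k` for large `k`. -/
theorem hub (δ : ℝ) (hδ : 0 < δ) (hδ1 : δ ≤ 1) :
    ∃ T t k0 : ℕ, ∀ k : ℕ, k0 ≤ k → ∀ (V : Type u) [Fintype V] (G : SimpleGraph V),
      Conn G Finset.univ t → ∀ P : ℕ → Finset V,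
      (∀ i < T, (P i).Nonempty ∧ (P i).card ≤ 4 * k ∧
        2 * (δ * k) * ((P i).card : ℝ) ≤ (vol G (P i) : ℝ)) →
      (∀ i < T, ∀ j < T, i ≠ j → Disjoint (P i) (P j)) →
      ∃ f : ℕ, ∀ i < k, HasCyc G (f + 2 * i) := by
  obtain ⟨K, hK⟩ : ∃ K : ℝ, K = 4 / δ := ⟨_, rfl⟩
  have hKpos : 0 < K := by rw [hK]; positivity
  have hKδ : K * δ = 4 := by rw [hK]; field_simp
  obtain ⟨q, hq⟩ := exists_nat_ge ((10 : ℝ) ^ 5 / δ ^ 2)
  have hδ2 : 0 < δ ^ 2 := by positivity
  have hδ2le : δ ^ 2 ≤ δ := by nlinarith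
  have hqd : (10 : ℝ) ^ 5 ≤ q * δ ^ 2 := by
    rw [div_le_iff₀ hδ2] at hq
    exact hq
  have hq1 : 1 ≤ q := by
    rcases Nat.eq_zero_or_pos q with h | h
    · rw [h] at hqd
      norm_num at hqd
    · exact h
  have hq1' : (1 : ℝ) ≤ q := by exact_mod_cast hq1
  obtain ⟨t2, ht2⟩ := exists_nat_ge (2 * (q : ℝ) * (6 * K + 5) + (6 * K + 2))
  have ht2pos : (1 : ℝ) ≤ t2 := by
    have : 0 ≤ 2 * (q : ℝ) * (6 * K + 5) := by positivity
    linarith
  have ht21 : 1 ≤ t2 := by exact_mod_cast ht2pos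
  obtain ⟨W, hW⟩ : ∃ W : ℝ, W = 4096 * (5 + 12 * K) + 2 * (t2 * ((t2 : ℝ) + 1)) + 4 * q + 10 ^ 4
    := ⟨_, rfl⟩
  obtain ⟨k0, hk0⟩ := exists_nat_ge (W / δ ^ 2)
  refine ⟨q + 1, 2 * q, k0, ?_⟩
  intro k hk V _ G hconn P hP hdisj
  classical
  have hk' : (k0 : ℝ) ≤ k := by exact_mod_cast hk
  have hWk : W ≤ δ ^ 2 * k := by
    have h1 : W / δ ^ 2 ≤ k := hk0.trans hk'
    rw [div_le_iff₀ hδ2] at h1
    linarith
  have hkpos : (0 : ℝ) ≤ k := Nat.cast_nonneg k
  have hDk : δ ^ 2 * k ≤ δ * k := mul_le_mul_of_nonneg_right hδ2le hkpos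
  obtain ⟨D, hD⟩ : ∃ D : ℝ, D = δ * k := ⟨_, rfl⟩
  have hWD : W ≤ D := by rw [hD]; exact hWk.trans hDk
  have htt : 0 ≤ (t2 : ℝ) * ((t2 : ℝ) + 1) := by positivity
  have htt2 : (t2 : ℝ) ≤ (t2 : ℝ) * ((t2 : ℝ) + 1) := by nlinarith
  have ha : 2 * (t2 : ℝ) ≤ D := by rw [hW] at hWD; linarith
  have hb : (t2 : ℝ) * (t2 + 1) ≤ D := by rw [hW] at hWD; linarith
  have hd : 2 * (q : ℝ) ≤ D := by rw [hW] at hWD; linarith
  have hf : 128 ≤ D := by rw [hW] at hWD; linarith
  have hDpos : 0 < D := by linarith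
  have hpot : ∀ i, ∃ Q : Finset V, i ≤ q → Q ⊆ P i ∧ (∀ v ∈ Q, D ≤ (dg G Q v : ℝ)) ∧
      D + 1 < (Q.card : ℝ) ∧ Conn G Q t2 := by
    intro i
    by_cases hi : i ≤ q
    · obtain ⟨h1, _, h3⟩ := hP i (by omega)
      obtain ⟨Q, hQ⟩ := HB5_pot G D t2 ht21 ha hb (P i) h1 (by rw [hD]; exact h3)
      exact ⟨Q, fun _ => hQ⟩
    · exact ⟨∅, fun h => absurd h hi⟩
  choose Q hQ using hpot
  have hQdisj : ∀ i ≤ q, ∀ j ≤ q, i ≠ j → Disjoint (Q i) (Q j) := fun i hi j hj hij =>
    Finset.disjoint_of_subset_left (hQ i hi).1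
      (Finset.disjoint_of_subset_right (hQ j hj).1 (hdisj i (by omega) j (by omega) hij))
  have hQcard : ∀ i ≤ q, 2 * q ≤ (Q i).card := by
    intro i hi
    have h1 := (hQ i hi).2.2.1
    have h2 : ((2 * q : ℕ) : ℝ) ≤ (Q i).card := by push_cast; linarith
    exact_mod_cast h2
  have hQK : ∀ i ≤ q, ((Q i).card : ℝ) ≤ K * D := by
    intro i hi
    have h1 : ((Q i).card : ℝ) ≤ (P i).card := by
      exact_mod_cast Finset.card_le_card (hQ i hi).1
    have h2 : ((P i).card : ℝ) ≤ 4 * k := by exact_mod_cast (hP i (by omega)).2.1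
    have h3 : K * D = 4 * k := by rw [hD, ← mul_assoc, hKδ]
    linarith
  have hmin : ∀ i ≤ q, ∀ v ∈ Q i, D ≤ (dg G (Q i) v : ℝ) := fun i hi => (hQ i hi).2.1
  have hcQ : ∀ i ≤ q, Conn G (Q i) t2 := fun i hi => (hQ i hi).2.2.2
  obtain ⟨P1, u, v, hP1, hP1d⟩ := system G (2 * q) q hconn (by omega) hq1 Q hQdisj hQcard
  obtain ⟨P2, hP2, hP2d⟩ := all_links G q Q hQdisj D K t2 hKpos.le hDpos hmin hQK hcQ
    (by linarith) (by linarith) P1 u v hP1 hP1d
  obtain ⟨ρ, hρ⟩ : ∃ ρ : ℕ, ρ = ⌊δ ^ 2 * k / 4096⌋₊ := ⟨_, rfl⟩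
  have hρle : (ρ : ℝ) ≤ δ ^ 2 * k / 4096 := by
    rw [hρ]; exact Nat.floor_le (by positivity)
  have hρlt : δ ^ 2 * k / 4096 < ρ + 1 := by
    rw [hρ]; exact Nat.lt_floor_add_one _
  have hWk' : 4096 * (5 + 12 * K) + 10 ^ 4 ≤ δ ^ 2 * k := by
    rw [hW] at hWk
    linarith
  have hρ1 : 1 ≤ ρ := by
    have h1 : (0 : ℝ) < ρ := by
      have : (2 : ℝ) < δ ^ 2 * k / 4096 := by linarith
      linarith
    exact_mod_cast h1
  have hDK : D / (256 * K) = δ ^ 2 * k / 1024 := by
    rw [hD, hK]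
    field_simp
    ring
  obtain ⟨F, hF⟩ := hub_cycles G q hq1 Q hQdisj D K t2 hKpos hf hmin hQK hcQ ht2
    (by linarith) P2 u v (fun a ha => (hP1 a ha).2.2.2.2.1) (fun a ha => (hP1 a ha).2.2.2.2.2.1)
    hP2 hP2d ρ hρ1
    (by rw [hDK]; linarith)
    (by
      have h1 : δ ^ 2 * k ≤ D := by rw [hD]; exact hDk
      linarith)
  refine ⟨F, fun i hi => hF i ?_⟩
  have h1 : (k : ℝ) ≤ q * ((ρ : ℝ) - 1) := by
    have h2 : (10 : ℝ) ^ 5 * k ≤ q * δ ^ 2 * k := mul_le_mul_of_nonneg_right hqd hkpos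
    have h3 : q * (δ ^ 2 * k / 4096 - 2) ≤ q * ((ρ : ℝ) - 1) :=
      mul_le_mul_of_nonneg_left (by linarith) (by positivity)
    have h4 : 2 * (q : ℝ) ≤ q * (δ ^ 2 * k) / 5000 := by
      have : (10 : ℝ) ^ 4 ≤ δ ^ 2 * k := by linarith
      have h5 : (q : ℝ) * 10 ^ 4 ≤ q * (δ ^ 2 * k) := mul_le_mul_of_nonneg_left this (by positivity)
      linarith
    have h6 : q * (δ ^ 2 * k / 4096 - 2) = q * δ ^ 2 * k / 4096 - 2 * q := by ring
    have h7 : (q : ℝ) * (δ ^ 2 * k) = q * δ ^ 2 * k := by ring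
    linarith
  have h8 : ((q * (ρ - 1) : ℕ) : ℝ) = q * ((ρ : ℝ) - 1) := by
    rw [Nat.cast_mul, Nat.cast_sub hρ1, Nat.cast_one]
  rw [← h8] at h1
  have h9 : k ≤ q * (ρ - 1) := by exact_mod_cast h1
  omega

end TurMod
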