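import Pool.Agent.TurMod.Dense
import Pool.Agent.TurMod.Exp
import Pool.Agent.TurMod.Hub

/-!
# The asymptotic theorem
-/

namespace TurMod

open Finset

universe u

variable {V : Type u}

/- MODULE MA1 -/
/-- A subset of prescribed size with at least average weight.
PROOF. Induction on `|W| - c` removing an element of smallest weight, or sort. -/
theorem exists_heavy_subset (W : Finset V) (f : V → ℝ) (c : ℕ) (hc : c ≤ W.card) (hc1 : 1 ≤ c)
    (A : ℝ) (h : A * (W.card : ℝ) ≤ ∑ w ∈ W, f w) :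
    ∃ W' ⊆ W, W'.card = c ∧ A * (c : ℝ) ≤ ∑ w ∈ W', f w := by
  classical
  obtain ⟨n, hn⟩ : ∃ n, W.card = c + n := ⟨W.card - c, by omega⟩
  induction n generalizing W with
  | zero =>
    refine ⟨W, Finset.Subset.refl _, by omega, ?_⟩
    rw [hn, add_zero] at h
    exact h
  | succ n ih =>
    have hne : W.Nonempty := Finset.card_pos.mp (by omega)
    obtain ⟨w, hw, hmin⟩ := Finset.exists_min_image W f hne
    have hce := Finset.card_erase_of_mem hw
    have hse : ∑ v ∈ W.erase w, f v + f w = ∑ v ∈ W, f v := Finset.sum_erase_add _ _ hw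
    have h1 : (W.card : ℝ) * f w ≤ ∑ v ∈ W, f v := by
      rw [← nsmul_eq_mul, ← Finset.sum_const]
      exact Finset.sum_le_sum fun v hv => hmin v hv
    have hpos : (0 : ℝ) < W.card := by exact_mod_cast Finset.card_pos.mpr hne
    have hcast : ((W.erase w).card : ℝ) = (W.card : ℝ) - 1 := by
      rw [hce, Nat.cast_sub (Finset.card_pos.mpr hne), Nat.cast_one]
    have h2 : A * ((W.erase w).card : ℝ) ≤ ∑ v ∈ W.erase w, f v := by
      rw [hcast]
      have hge : (1 : ℝ) ≤ W.card := by exact_mod_cast Finset.card_pos.mpr hne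
      have h3 : (W.card : ℝ) * (A * ((W.card : ℝ) - 1)) ≤ (W.card : ℝ) * ∑ v ∈ W.erase w, f v := by
        have h4 : ∑ v ∈ W.erase w, f v = ∑ v ∈ W, f v - f w := by linarith
        rw [h4]
        have h5 : A * (W.card : ℝ) * ((W.card : ℝ) - 1) ≤ (∑ v ∈ W, f v) * ((W.card : ℝ) - 1) :=
          mul_le_mul_of_nonneg_right h (by linarith)
        nlinarith
      exact le_of_mul_le_mul_left h3 hpos
    obtain ⟨W', hW', hcard, hsum⟩ := ih (W.erase w) (by omega) h2 (by omega)
    exact ⟨W', hW'.trans (Finset.erase_subset _ _), hcard, hsum⟩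

/-- volume of a union of two disjoint sets. PROOF. Split the sum and `dg` of a disjoint union; the
cross terms are symmetric. -/
theorem vol_union [DecidableEq V] (G : SimpleGraph V) (U W : Finset V) (h : Disjoint U W) :
    vol G (U ∪ W) = vol G U + vol G W + 2 * ∑ w ∈ W, dg G U w := by
  classical
  have hdg : ∀ v, dg G (U ∪ W) v = dg G U v + dg G W v := by
    intro v
    unfold dg
    rw [Finset.filter_union, Finset.card_union_of_disjoint]
    exact Finset.disjoint_filter_filter h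
  have hcross : ∑ v ∈ U, dg G W v = ∑ w ∈ W, dg G U w := by
    unfold dg
    simp only [Finset.card_filter]
    rw [Finset.sum_comm]
    refine Finset.sum_congr rfl fun w _ => Finset.sum_congr rfl fun v _ => ?_
    simp only [G.adj_comm]
  unfold vol
  rw [Finset.sum_union h]
  simp only [hdg, Finset.sum_add_distrib]
  rw [hcross]
  ring

/- MODULE MA2 -/
/-- A maximal family of disjoint pieces.  Either there are `T` disjoint sets with the property `p`
or there is a set `U`, union of fewer than `T` of them, so that no nonempty subset of the complement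
has the property.
PROOF. Take the largest `s ≤ T` such that there are `s` disjoint nonempty sets with `p` (`s = 0` is
possible). If `s < T` let `U` be the union of such `s` sets. -/
theorem max_family [Fintype V] [DecidableEq V] (p : Finset V → Prop) (T M : ℕ)
    (hp : ∀ Y, p Y → Y.Nonempty ∧ Y.card ≤ M) :
    (∃ P : ℕ → Finset V, (∀ i < T, p (P i)) ∧ ∀ i < T, ∀ j < T, i ≠ j → Disjoint (P i) (P j)) ∨
      ∃ U : Finset V, U.card ≤ T * M ∧ ∀ Y, p Y → ¬ Disjoint Y U := by
  by_cases hU : ∃ U : Finset V, U.card ≤ T * M ∧ ∀ Y, p Y → ¬ Disjoint Y U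
  · exact Or.inr hU
  left
  push Not at hU
  have key : ∀ s ≤ T, ∃ P : ℕ → Finset V, (∀ i < s, p (P i)) ∧
      ∀ i < s, ∀ j < s, i ≠ j → Disjoint (P i) (P j) := by
    intro s
    induction s with
    | zero => exact fun _ => ⟨fun _ => ∅, fun i hi => absurd hi (Nat.not_lt_zero i),
        fun i hi => absurd hi (Nat.not_lt_zero i)⟩
    | succ s ih =>
      intro hs
      obtain ⟨P, hP, hPd⟩ := ih (by omega)
      have hcard : ((Finset.range s).biUnion P).card ≤ T * M := by
        refine Finset.card_biUnion_le.trans ?_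
        refine (Finset.sum_le_sum (g := fun _ => M) fun i hi =>
          (hp _ (hP i (Finset.mem_range.mp hi))).2).trans ?_
        rw [Finset.sum_const, Finset.card_range, smul_eq_mul]
        exact Nat.mul_le_mul_right _ (by omega)
      obtain ⟨Y, hY, hYd⟩ := hU _ hcard
      rw [Finset.disjoint_biUnion_right] at hYd
      have hYd' : ∀ i < s, Disjoint Y (P i) := fun i hi => hYd i (Finset.mem_range.mpr hi)
      refine ⟨fun i => if i = s then Y else P i, ?_, ?_⟩
      · intro i hi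
        by_cases h : i = s
        · simp only [h, if_true]
          exact hY
        · simp only [h, if_false]
          exact hP i (by omega)
      · intro i hi j hj hij
        by_cases h : i = s
        · have h' : j ≠ s := fun h'' => hij (h.trans h''.symm)
          simp only [h, h', if_true, if_false]
          exact hYd' j (by omega)
        · by_cases h' : j = s
          · simp only [h, h', if_true, if_false]
            exact (hYd' i (by omega)).symm
          · simp only [h, h', if_false]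
            exact hPd i (by omega) j (by omega) hij
  exact key T le_rfl

/- MODULE MA3 -/
/-- The case of few pieces: a small set `U` sends many edges to `W`, nothing else is dense.
There is `C2` (depending on `T`, `ε`) such that if `|U| ≤ 4 k T`, `k ≤ 2 m`, `|W| ≥ C2 m` and
`∑_(w ∈ W) dg U w ≥ (1 + ε/2) m |W|` then there is a cycle of length `2 m` (`m ≥ m0`).
PROOF. `C2 = 64 T / ε + 1`, `C = C2 + 8 T + 2`, `m0` from `dense (ε/4) C`.  Take `W' ⊆ W` with `⌈(C2 - 1) m⌉`
elements (`≤ |W|`; if `T = 0` the sum is zero: contradiction; so `|W'| ≥ 64 T m / ε ≥ 1`), and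
`∑_(W') dg U ≥ (1 + ε/2) m |W'|` (`exists_heavy_subset`).  In the graph induced on `U ∪ W'`:
`vol ≥ 2 ∑_(W') dg U ≥ 2 (1 + ε/2) m |W'| ≥ 2 (1 + ε/4) m (|U| + |W'|)` because
`|U| ≤ 8 T m ≤ (ε/8) |W'|` and `(ε/4) |W'| ≥ (1 + ε/4) |U|`.  `dense` for the induced graph on the
subtype (`vol_induce`), `HasCyc.map`. -/
theorem few_pieces (ε : ℝ) (hε : 0 < ε) (hε1 : ε ≤ 1) (T : ℕ) :
    ∃ (C2 : ℝ) (m0 : ℕ), 1 ≤ C2 ∧ ∀ m : ℕ, m0 ≤ m → ∀ k : ℕ, k ≤ 2 * m → ∀ (V : Type u) [Fintype V]
      (G : SimpleGraph V) (U W : Finset V), Disjoint U W → U.card ≤ T * (4 * k) →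
      C2 * m ≤ (W.card : ℝ) → (1 + ε / 2) * m * (W.card : ℝ) ≤ ∑ w ∈ W, (dg G U w : ℝ) →
      HasCyc G (2 * m) := by
  classical
  have hT0 : (0 : ℝ) ≤ T := Nat.cast_nonneg T
  set C2 : ℝ := 64 * T / ε + 1 with hC2
  have hC21 : 1 ≤ C2 := by
    have : (0 : ℝ) ≤ 64 * T / ε := by positivity
    linarith
  obtain ⟨m1, hm1⟩ := dense.{u} (ε / 4) (C2 + 8 * T + 2) (by linarith) (by linarith) (by linarith)
  refine ⟨C2, max m1 1, hC21, ?_⟩
  intro m hm k hk V _ G U W hUW hU hW hsum
  have hm1' : m1 ≤ m := (le_max_left _ _).trans hm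
  have hm2 : 1 ≤ m := (le_max_right _ _).trans hm
  have hmr : (1 : ℝ) ≤ (m : ℝ) := by exact_mod_cast hm2
  -- the size of the part of `W`
  set c : ℕ := ⌈(C2 - 1) * m⌉₊ with hc
  have hnn : 0 ≤ (C2 - 1) * (m : ℝ) := mul_nonneg (by linarith) (by linarith)
  have hc1 : (C2 - 1) * m ≤ (c : ℝ) := Nat.le_ceil _
  have hc2 : (c : ℝ) < (C2 - 1) * m + 1 := Nat.ceil_lt_add_one hnn
  have hcW : c ≤ W.card := by
    have : (c : ℝ) < (W.card : ℝ) + 1 := by nlinarith
    have h2 : c < W.card + 1 := by exact_mod_cast this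
    omega
  have hWpos : (0 : ℝ) < (W.card : ℝ) := by nlinarith
  have hUr : (U.card : ℝ) ≤ 8 * T * m := by
    have h1 : U.card ≤ T * (4 * (2 * m)) := hU.trans (Nat.mul_le_mul_left _ (by omega))
    have h2 : (U.card : ℝ) ≤ T * (4 * (2 * m)) := by exact_mod_cast h1
    linarith
  have hTpos : 1 ≤ T := by
    by_contra hT
    have hT' : T = 0 := by omega
    have hU0 : U = ∅ := by
      rw [hT', zero_mul] at hU
      exact Finset.card_eq_zero.mp (by omega)
    have h0 : ∑ w ∈ W, (dg G U w : ℝ) = 0 := by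
      refine Finset.sum_eq_zero fun w _ => ?_
      rw [hU0]
      unfold dg
      simp
    rw [h0] at hsum
    have : 0 < (1 + ε / 2) * m * (W.card : ℝ) := by positivity
    linarith
  have hTr : (1 : ℝ) ≤ T := by exact_mod_cast hTpos
  have hcbig : 64 * T * m / ε ≤ (c : ℝ) := by
    refine le_trans (le_of_eq ?_) hc1
    rw [hC2]
    field_simp
    ring
  have hcpos : (0 : ℝ) < (c : ℝ) := lt_of_lt_of_le (by positivity) hcbig
  obtain ⟨W', hW'W, hW'c, hW's⟩ := exists_heavy_subset W (fun w => (dg G U w : ℝ)) c hcW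
    (by exact_mod_cast hcpos) ((1 + ε / 2) * m) hsum
  have hd : Disjoint U W' := Finset.disjoint_of_subset_right hW'W hUW
  have hvol := vol_union G U W' hd
  -- the induced graph
  set S : Finset V := U ∪ W' with hS
  have hScard : S.card = U.card + c := by rw [hS, Finset.card_union_of_disjoint hd, hW'c]
  have hSr : (S.card : ℝ) = U.card + c := by exact_mod_cast hScard
  have hmap : (Finset.univ : Finset S).map (Function.Embedding.subtype _) = S := by
    ext v
    simp
  have hvolS : vol (G.comap (fun v : S => (v : V))) Finset.univ = vol G S := by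
    rw [vol_induce, hmap]
  have hcardS : Fintype.card S = S.card := Fintype.card_coe S
  have hcyc := hm1 m hm1' S (G.comap (fun v : S => (v : V))) (by
      rw [hcardS, hScard]
      have : 1 ≤ c := by exact_mod_cast hcpos
      omega) (by
      rw [hcardS, hSr]
      nlinarith) (by
      rw [hvolS, hcardS, hSr]
      have h1 : 2 * ∑ w ∈ W', (dg G U w : ℝ) ≤ (vol G S : ℝ) := by
        rw [hvol]
        push_cast
        have h2 : (0 : ℝ) ≤ (vol G U : ℝ) := Nat.cast_nonneg _
        have h3 : (0 : ℝ) ≤ (vol G W' : ℝ) := Nat.cast_nonneg _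
        linarith
      refine le_trans ?_ h1
      have h2 : 2 * ((1 + ε / 2) * m * c) ≤ 2 * ∑ w ∈ W', (dg G U w : ℝ) := by linarith
      refine le_trans ?_ h2
      -- `U` is small
      have h3 : (U.card : ℝ) ≤ ε / 8 * c := by
        refine hUr.trans ?_
        have h4 : ε / 8 * (64 * T * m / ε) ≤ ε / 8 * c :=
          mul_le_mul_of_nonneg_left hcbig (by positivity)
        refine le_trans (le_of_eq ?_) h4
        field_simp
        ring
      have h5 : (1 + ε / 4) * ((U.card : ℝ) + c) ≤ (1 + ε / 2) * c := by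
        have h6 : (1 + ε / 4) * (U.card : ℝ) ≤ 5 / 4 * (ε / 8 * c) :=
          mul_le_mul (by linarith) h3 (Nat.cast_nonneg _) (by norm_num)
        nlinarith
      calc 2 * (1 + ε / 4) * m * ((U.card : ℝ) + c) = 2 * m * ((1 + ε / 4) * ((U.card : ℝ) + c)) := by
            ring
        _ ≤ 2 * m * ((1 + ε / 2) * c) := mul_le_mul_of_nonneg_left h5 (by positivity)
        _ = 2 * ((1 + ε / 2) * m * c) := by ring)
  exact hcyc.map (fun v : S => (v : V)) Subtype.val_injective fun u v h => h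

/- MODULE MA4 -/
/-- THE SPARSE CASE.  `G` has no separation of order `≤ t`, `|V| ≥ C1 m`,
`vol ≥ 2 (1 + ε) m (|V| - t)`: then `G` has a cycle of length `2 m` or cycles of the `k` lengths
`f, f + 2, …, f + 2 (k-1)`.
PROOF. `δ = ε/400`; `T, t, k0` from `hub δ`; `C2`, `m0` from `few_pieces ε T`.  `C1 = C2 + 8 T + 1 + c` with
`c = (8/(3 ε)) (2 t + 32 T² ) + ...` large (see below).  `p Y` := `Y` nonempty, `|Y| ≤ 4 k`,
`2 (δ k) |Y| ≤ vol Y`.  `max_family` with `M = 4 k`.  If there are `T` disjoint sets with `p`: `hub`.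
Otherwise let `U` be as in `max_family`, `|U| ≤ 4 k T ≤ 8 T m`, `W = Uᶜ`, `|W| ≥ (C1 - 8 T) m ≥ 1`.
If `vol W ≥ 50 (δ k) |W|`: `expansion` for the graph induced on `W` (`vol_induce`), `D = δ k ≥ 1/2`, gives `s` and
cycles of length `2 (s + i) = 2 s + 2 i`, `i < k`.  Otherwise `vol W < 50 δ k |W| ≤ (ε/8) k |W| ≤ (ε/4) m |W|`.
`vol_union`: `2 ∑_(w ∈ W) dg U w = vol - vol U - vol W ≥ 2 (1+ε) m (|V| - t) - |U|² - (ε/4) m |W| ≥
2 (1 + ε) m |W| - 2 (1 + ε) m t - 64 T² m² ... `: NOTE `|U|² ≤ (8 T m)²` is quadratic in `m`, and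
`|W| ≥ C m` gives `m |W| ≥ C m²`, so it is absorbed: we need
`(3 ε/4) m |W| ≥ 4 m t + 64 T² m²`, true if `|W| ≥ (4/(3 ε)) (4 t + 64 T²) m` (`m ≥ 1`).
So `∑_(w ∈ W) dg U w ≥ (1 + ε/2) m |W|`, and `few_pieces` gives the cycle of length `2 m`. -/
theorem sparse_case (ε : ℝ) (hε : 0 < ε) (hε1 : ε ≤ 1) :
    ∃ (C1 : ℝ) (t m0 : ℕ), 1 ≤ C1 ∧ ∀ m : ℕ, m0 ≤ m → ∀ k : ℕ, m ≤ k → k ≤ 2 * m →
      ∀ (V : Type u) [Fintype V] (G : SimpleGraph V), Conn G Finset.univ t →
      C1 * m ≤ (Fintype.card V : ℝ) →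
      2 * (1 + ε) * m * ((Fintype.card V : ℝ) - t) ≤ (vol G Finset.univ : ℝ) →
      HasCyc G (2 * m) ∨ ∃ f : ℕ, ∀ i < k, HasCyc G (f + 2 * i) := by
  classical
  obtain ⟨T, t, k0, hhub⟩ := hub.{u} (ε / 400) (by linarith) (by linarith)
  obtain ⟨C2, m1, hC2, hfew⟩ := few_pieces.{u} ε hε hε1 T
  have hT0 : (0 : ℝ) ≤ T := Nat.cast_nonneg T
  have ht0 : (0 : ℝ) ≤ t := Nat.cast_nonneg t
  set E : ℝ := 4 / (3 * ε) * (4 * t + 64 * T ^ 2) with hE
  have hE0 : 0 ≤ E := by positivity
  obtain ⟨m2, hm2⟩ := exists_nat_ge (200 / ε)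
  refine ⟨C2 + 8 * T + E, t, max (max k0 m1) (max m2 3), by nlinarith, ?_⟩
  intro m hm k hmk hk2 V _ G hconn hcard hvol
  have hmk0 : k0 ≤ m := (le_max_left _ _).trans ((le_max_left _ _).trans hm)
  have hmm1 : m1 ≤ m := (le_max_right _ _).trans ((le_max_left _ _).trans hm)
  have hmm2 : m2 ≤ m := (le_max_left _ _).trans ((le_max_right _ _).trans hm)
  have hm3 : 3 ≤ m := (le_max_right _ _).trans ((le_max_right _ _).trans hm)
  have hmr : (1 : ℝ) ≤ (m : ℝ) := by
    have : 1 ≤ m := by omega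
    exact_mod_cast this
  have hkr : (m : ℝ) ≤ (k : ℝ) := by exact_mod_cast hmk
  have hkr2 : (k : ℝ) ≤ 2 * (m : ℝ) := by exact_mod_cast hk2
  set δ : ℝ := ε / 400 with hδ
  have hδ0 : 0 < δ := by positivity
  have hδk : 1 / 2 ≤ δ * k := by
    have h1 : 200 / ε ≤ (k : ℝ) := hm2.trans ((by exact_mod_cast hmm2 : (m2 : ℝ) ≤ m).trans hkr)
    rw [div_le_iff₀ hε] at h1
    rw [hδ]
    linarith
  rcases max_family (fun Y : Finset V => Y.Nonempty ∧ Y.card ≤ 4 * k ∧
      2 * (δ * k) * (Y.card : ℝ) ≤ (vol G Y : ℝ)) T (4 * k) (fun Y hY => ⟨hY.1, hY.2.1⟩) with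
    ⟨P, hP, hPd⟩ | ⟨U, hU, hUY⟩
  · exact Or.inr (hhub k (hmk0.trans hmk) V G hconn P hP hPd)
  set W : Finset V := Uᶜ with hW
  have hUW : Disjoint U W := disjoint_compl_right
  have hUWu : U ∪ W = Finset.univ := Finset.union_compl U
  have hWc : (W.card : ℝ) = (Fintype.card V : ℝ) - U.card := by
    have h1 : U.card + W.card = Fintype.card V := Finset.card_add_card_compl U
    have h2 : (U.card : ℝ) + W.card = Fintype.card V := by exact_mod_cast h1
    linarith
  have hUr : (U.card : ℝ) ≤ 8 * T * m := by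
    have h1 : U.card ≤ T * (4 * (2 * m)) := hU.trans (Nat.mul_le_mul_left _ (by omega))
    have h2 : (U.card : ℝ) ≤ T * (4 * (2 * m)) := by exact_mod_cast h1
    linarith
  have hWbig : (C2 + E) * m ≤ (W.card : ℝ) := by
    rw [hWc]
    nlinarith
  have hWC2 : C2 * m ≤ (W.card : ℝ) := by nlinarith
  have hWE : E * m ≤ (W.card : ℝ) := by nlinarith
  have hWpos : (0 : ℝ) < (W.card : ℝ) := by nlinarith
  have hmap : (Finset.univ : Finset W).map (Function.Embedding.subtype _) = W := by
    ext v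
    simp
  have hvolW : vol (G.comap (fun v : W => (v : V))) Finset.univ = vol G W := by
    rw [vol_induce, hmap]
  have hcardW : Fintype.card W = W.card := Fintype.card_coe W
  by_cases hbig : 50 * (δ * k) * (W.card : ℝ) ≤ (vol G W : ℝ)
  · -- expansion
    right
    have hne : Nonempty W := by
      rw [← Fintype.card_pos_iff, hcardW]
      exact_mod_cast hWpos
    obtain ⟨s, hs⟩ := expansion (G.comap (fun v : W => (v : V))) k (by omega) (δ * k) hδk (by
      intro Y hne hYc
      by_contra hcon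
      push Not at hcon
      refine hUY (Y.map (Function.Embedding.subtype _)) ⟨?_, ?_, ?_⟩ ?_
      · exact (Finset.map_nonempty).mpr hne
      · rw [Finset.card_map]
        exact hYc
      · rw [Finset.card_map, ← vol_induce]
        exact hcon
      · rw [Finset.disjoint_left]
        intro v hv hvU
        obtain ⟨w, -, rfl⟩ := Finset.mem_map.mp hv
        exact (Finset.mem_compl.mp w.2) hvU) (by
      rw [hvolW, hcardW]
      exact hbig)
    refine ⟨2 * s, fun i hi => ?_⟩
    have h1 := (hs i hi).map (H := G) (fun v : W => (v : V)) Subtype.val_injective fun u v h => h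
    rwa [mul_add] at h1
  · -- few edges outside `U`
    left
    push Not at hbig
    refine hfew m hmm1 k hk2 V G U W hUW hU hWC2 ?_
    have hvu := vol_union G U W hUW
    rw [hUWu] at hvu
    have hvu' : (vol G Finset.univ : ℝ) = vol G U + vol G W + 2 * ∑ w ∈ W, (dg G U w : ℝ) := by
      rw [hvu]
      push_cast
      ring
    have h1 : (vol G U : ℝ) ≤ 64 * T ^ 2 * m ^ 2 := by
      have h2 : vol G U ≤ U.card * U.card := (vol_le G U).trans (Nat.mul_le_mul_left _ (by omega))
      have h3 : (vol G U : ℝ) ≤ (U.card : ℝ) * U.card := by exact_mod_cast h2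
      have h4 : (U.card : ℝ) * U.card ≤ (8 * T * m) * (8 * T * m) :=
        mul_le_mul hUr hUr (Nat.cast_nonneg _) (by positivity)
      calc (vol G U : ℝ) ≤ (U.card : ℝ) * U.card := h3
        _ ≤ (8 * T * m) * (8 * T * m) := h4
        _ = 64 * T ^ 2 * m ^ 2 := by ring
    have h2 : (vol G W : ℝ) ≤ ε / 4 * m * W.card := by
      refine hbig.le.trans ?_
      have h3 : 50 * (δ * k) ≤ ε / 4 * m := by
        rw [hδ]
        nlinarith
      exact mul_le_mul_of_nonneg_right h3 hWpos.le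
    have h3 : (4 * t + 64 * T ^ 2) * (m : ℝ) ≤ 3 * ε / 4 * W.card := by
      have h4 : 3 * ε / 4 * (E * m) ≤ 3 * ε / 4 * W.card :=
        mul_le_mul_of_nonneg_left hWE (by positivity)
      refine le_trans (le_of_eq ?_) h4
      rw [hE]
      field_simp
    have h4 : (4 * t + 64 * T ^ 2) * (m : ℝ) * m ≤ 3 * ε / 4 * W.card * m :=
      mul_le_mul_of_nonneg_right h3 (by linarith)
    have h5 : 2 * (1 + ε) * m * ((W.card : ℝ) - t) ≤ 2 * (1 + ε) * m * ((Fintype.card V : ℝ) - t) := by
      refine mul_le_mul_of_nonneg_left ?_ (by positivity)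
      rw [hWc]
      have : (0 : ℝ) ≤ U.card := Nat.cast_nonneg _
      linarith
    have h6 : 2 * (1 + ε) * m * t ≤ 4 * t * m ^ 2 := by
      have h7 : (m : ℝ) * t ≤ t * m ^ 2 := by nlinarith [mul_nonneg ht0 (show (0 : ℝ) ≤ m by linarith)]
      have h8 : 2 * (1 + ε) * ((m : ℝ) * t) ≤ 4 * ((m : ℝ) * t) :=
        mul_le_mul_of_nonneg_right (by linarith) (by positivity)
      nlinarith
    nlinarith

/- MODULE MA5 -/
/-- MAIN DICHOTOMY.
PROOF. `C1`, `t`, `m1` from `sparse_case ε` (replace `t` by `max t 1`? not needed: if `t = 0` the condition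
`vol > B (|V| - t)` below needs a strict inequality; use `ε' = ε / 2` for `B`: `B = 2 (1 + ε/2) m`, then
`vol ≥ 2 (1+ε) m n > B (n - t)`, `n ≥ 1`).  So take `C1, t, m1` from `sparse_case (ε/2)` and `m2` from
`dense (ε/4) C1`.  `potential` for `S₀ = univ`, `B = 2 (1 + ε/2) m`, `t` (conditions for large `m`;
`t + 1 ≤ n` because `2 (1+ε) m n ≤ vol ≤ n (n-1)`): `S` with `vol S > B (|S| - t)`, `Conn G S t`,
`|S| > B/2 + 1 > m`.  If `|S| ≤ C1 m`: `vol S ≥ B (|S| - t) ≥ 2 (1 + ε/4) m |S|` since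
`(1 + ε/2)(1 - t/|S|) ≥ 1 + ε/4` when `t/|S| ≤ t/m ≤ ε/8`: `dense (ε/4) C1` for the graph induced on `S`.
Otherwise `sparse_case (ε/2)` for the graph induced on `S` (`conn_induce`, `vol_induce`).  `HasCyc.map`. -/
theorem dichotomy (ε : ℝ) (hε : 0 < ε) (hε1 : ε ≤ 1) :
    ∃ m0 : ℕ, ∀ m : ℕ, m0 ≤ m → ∀ k : ℕ, m ≤ k → k ≤ 2 * m →
      ∀ (V : Type u) [Fintype V] (G : SimpleGraph V), 1 ≤ Fintype.card V →
      2 * (1 + ε) * m * (Fintype.card V : ℝ) ≤ (vol G Finset.univ : ℝ) →
      HasCyc G (2 * m) ∨ ∃ f : ℕ, ∀ i < k, HasCyc G (f + 2 * i) := by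
  classical
  obtain ⟨C1, t, m1, hC1, hsp⟩ := sparse_case.{u} (ε / 2) (by linarith) (by linarith)
  obtain ⟨m2, hde⟩ := dense.{u} (ε / 4) C1 (by linarith) (by linarith) hC1
  obtain ⟨m3, hm3⟩ := exists_nat_ge (6 * (t : ℝ) / ε)
  refine ⟨max (max m1 m2) (max (max m3 (2 * t + 1)) (t * (t + 1))), ?_⟩
  intro m hm k hmk hk2 V _ G hn hvol
  have h1m : m1 ≤ m := (le_max_left _ _).trans ((le_max_left _ _).trans hm)
  have h2m : m2 ≤ m := (le_max_right _ _).trans ((le_max_left _ _).trans hm)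
  have h3m : m3 ≤ m :=
    (le_max_left _ _).trans ((le_max_left _ _).trans ((le_max_right _ _).trans hm))
  have h4m : 2 * t + 1 ≤ m :=
    (le_max_right _ _).trans ((le_max_left _ _).trans ((le_max_right _ _).trans hm))
  have h5m : t * (t + 1) ≤ m := (le_max_right _ _).trans ((le_max_right _ _).trans hm)
  have hmr : (1 : ℝ) ≤ (m : ℝ) := by
    have : 1 ≤ m := by omega
    exact_mod_cast this
  have h4r : 2 * (t : ℝ) + 1 ≤ m := by exact_mod_cast h4m
  have h5r : (t : ℝ) * (t + 1) ≤ m := by exact_mod_cast h5m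
  have h3r : 6 * (t : ℝ) ≤ ε * m := by
    have h1 : 6 * (t : ℝ) / ε ≤ m := hm3.trans (by exact_mod_cast h3m)
    rw [div_le_iff₀ hε] at h1
    linarith
  have hnr : (1 : ℝ) ≤ (Fintype.card V : ℝ) := by exact_mod_cast hn
  have ht0 : (0 : ℝ) ≤ t := Nat.cast_nonneg t
  have hεm : 0 < ε * m := by positivity
  -- many vertices
  have hnbig : 2 * (1 + ε) * m + 1 ≤ (Fintype.card V : ℝ) := by
    have h1 := vol_le G (Finset.univ : Finset V)
    rw [Finset.card_univ] at h1
    have h2 : (vol G Finset.univ : ℝ) ≤ (Fintype.card V : ℝ) * ((Fintype.card V : ℝ) - 1) := by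
      have h3 : (vol G Finset.univ : ℝ) ≤ ((Fintype.card V * (Fintype.card V - 1) : ℕ) : ℝ) := by
        exact_mod_cast h1
      rwa [Nat.cast_mul, Nat.cast_sub hn, Nat.cast_one] at h3
    have h3 : (Fintype.card V : ℝ) * (2 * (1 + ε) * m) ≤
        (Fintype.card V : ℝ) * ((Fintype.card V : ℝ) - 1) := by linarith
    have h4 := le_of_mul_le_mul_left h3 (by linarith)
    linarith
  obtain ⟨S, -, hSvol, hSdeg, hScard, hSconn⟩ := potential G Finset.univ (2 * (1 + ε / 2) * m) t
    (by nlinarith) (by nlinarith) (by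
      rw [Finset.card_univ]
      have h1 : ((t + 1 : ℕ) : ℝ) ≤ (Fintype.card V : ℝ) := by
        push_cast
        nlinarith
      exact_mod_cast h1) (by
      rw [Finset.card_univ]
      refine lt_of_lt_of_le ?_ hvol
      have h1 : 2 * (1 + ε / 2) * m * ((Fintype.card V : ℝ) - t) ≤
          2 * (1 + ε / 2) * m * (Fintype.card V : ℝ) :=
        mul_le_mul_of_nonneg_left (by linarith) (by positivity)
      have h2 : 0 < ε * m * (Fintype.card V : ℝ) := by positivity
      nlinarith)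
  have hSm : (m : ℝ) < (S.card : ℝ) := by nlinarith
  have hmap : (Finset.univ : Finset S).map (Function.Embedding.subtype _) = S := by
    ext v
    simp
  have hvolS : vol (G.comap (fun v : S => (v : V))) Finset.univ = vol G S := by
    rw [vol_induce, hmap]
  have hcardS : Fintype.card S = S.card := Fintype.card_coe S
  have hback : ∀ L, HasCyc (G.comap (fun v : S => (v : V))) L → HasCyc G L := fun L h =>
    h.map (fun v : S => (v : V)) Subtype.val_injective fun u v h => h
  rcases le_or_gt (S.card : ℝ) (C1 * m) with hsmall | hlarge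
  · left
    refine hback _ (hde m h2m S (G.comap (fun v : S => (v : V))) ?_ ?_ ?_)
    · rw [hcardS]
      have : (1 : ℝ) ≤ (S.card : ℝ) := by linarith
      exact_mod_cast this
    · rw [hcardS]
      exact hsmall
    · rw [hvolS, hcardS]
      refine le_trans ?_ hSvol.le
      have h1 : (1 + ε / 4) * (S.card : ℝ) ≤ (1 + ε / 2) * ((S.card : ℝ) - t) := by
        have h2 : ε * m ≤ ε * S.card := mul_le_mul_of_nonneg_left hSm.le hε.le
        nlinarith
      calc 2 * (1 + ε / 4) * m * (S.card : ℝ) = 2 * m * ((1 + ε / 4) * (S.card : ℝ)) := by ring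
        _ ≤ 2 * m * ((1 + ε / 2) * ((S.card : ℝ) - t)) :=
            mul_le_mul_of_nonneg_left h1 (by positivity)
        _ = 2 * (1 + ε / 2) * m * ((S.card : ℝ) - t) := by ring
  · rcases hsp m h1m k hmk hk2 S (G.comap (fun v : S => (v : V))) (conn_induce G S t hSconn)
      (by rw [hcardS]; exact hlarge.le) (by rw [hcardS, hvolS]; exact hSvol.le) with h | ⟨f, hf⟩
    · exact Or.inl (hback _ h)
    · exact Or.inr ⟨f, fun i hi => hback _ (hf i hi)⟩

/-- among `f, f + 2, …, f + 2 (k-1)` every residue modulo an odd `k` occurs -/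
theorem exists_residue (k : ℕ) (hk : Odd k) (f l : ℕ) : ∃ i < k, (f + 2 * i) % k = l % k := by
  obtain ⟨r, hr⟩ := hk
  have hk0 : 0 < k := by omega
  have hfk : f % k ≤ k := (Nat.mod_lt f hk0).le
  set x := l + (k - f % k) with hx
  refine ⟨(x * (r + 1)) % k, Nat.mod_lt _ hk0, ?_⟩
  change f + 2 * ((x * (r + 1)) % k) ≡ l [MOD k]
  have h1 : (x * (r + 1)) % k ≡ x * (r + 1) [MOD k] := Nat.mod_modEq _ _
  have h2 : 2 * ((x * (r + 1)) % k) ≡ 2 * (x * (r + 1)) [MOD k] := h1.mul_left 2
  have h3 : 2 * (x * (r + 1)) = x + x * k := by rw [hr]; ring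
  have h4 : x + x * k ≡ x [MOD k] := by
    have : x + x * k ≡ x + 0 [MOD k] := (Nat.ModEq.refl x).add
      ((Nat.modEq_zero_iff_dvd).mpr (Dvd.intro_left x rfl))
    simpa using this
  have h5 : f + x ≡ l [MOD k] := by
    have h6 : f ≡ f % k [MOD k] := (Nat.mod_modEq f k).symm
    have h7 : f + x ≡ f % k + x [MOD k] := h6.add_right x
    have h8 : f % k + x = l + k := by omega
    rw [h8] at h7
    have h9 : l + k ≡ l [MOD k] := by
      have : l + k ≡ l + 0 [MOD k] := (Nat.ModEq.refl l).add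
        ((Nat.modEq_zero_iff_dvd).mpr (dvd_refl k))
      simpa using this
    exact h7.trans h9
  rw [h3] at h2
  exact ((h2.trans h4).add_left f).trans h5

/-- THE ASYMPTOTIC THEOREM, first form (all `n`). -/
theorem asymptotic (ε : ℝ) (hε : 0 < ε) :
    ∃ k0 : ℕ, ∀ k : ℕ, k0 ≤ k → Odd k → ∀ l : ℕ, Odd l → 3 ≤ l → l < k →
      ∀ (V : Type u) [Fintype V] (G : SimpleGraph V) [DecidableRel G.Adj],
      (∀ (v : V) (c : G.Walk v v), c.IsCycle → c.length % k ≠ l) →
      (G.edgeFinset.card : ℝ) ≤ (1 + ε) * (((k : ℝ) + l) / 2) * (Fintype.card V : ℝ) := by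
  obtain ⟨m0, hm0⟩ := dichotomy.{u} (min ε 1) (lt_min hε one_pos) (min_le_right _ _)
  refine ⟨2 * m0, fun k hk hko l hlo hl3 hlk V _ G _ hcyc => ?_⟩
  obtain ⟨a, ha⟩ := hko
  obtain ⟨b, hb⟩ := hlo
  set m := a + b + 1 with hm
  have hkl : k + l = 2 * m := by omega
  have hmr : ((k : ℝ) + l) / 2 = m := by
    have : (k : ℝ) + l = 2 * m := by exact_mod_cast hkl
    rw [this]
    ring
  rw [hmr]
  have hnoc : ∀ L, HasCyc G L → L % k ≠ l := by
    rintro L ⟨v, c, hc, rfl⟩
    exact hcyc v c hc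
  have hv := vol_univ_eq G
  rcases Nat.eq_zero_or_pos (Fintype.card V) with hV | hV
  · have hemp : IsEmpty V := Fintype.card_eq_zero_iff.mp hV
    have h0 : vol G Finset.univ = 0 := by
      unfold vol
      rw [Finset.univ_eq_empty, Finset.sum_empty]
    have h1 : G.edgeFinset.card = 0 := by omega
    rw [h1, hV]
    simp
  · by_contra hcon
    push Not at hcon
    have h1 : 2 * (1 + min ε 1) * m * (Fintype.card V : ℝ) ≤ (vol G Finset.univ : ℝ) := by
      rw [hv]
      push_cast
      have h2 : (1 + min ε 1) * m * (Fintype.card V : ℝ) ≤ (1 + ε) * m * (Fintype.card V : ℝ) :=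
        mul_le_mul_of_nonneg_right (mul_le_mul_of_nonneg_right
          (by linarith [min_le_left ε 1]) (Nat.cast_nonneg _)) (Nat.cast_nonneg _)
      linarith
    rcases hm0 m (by omega) k (by omega) (by omega) V G hV h1 with h | ⟨f, hf⟩
    · refine hnoc _ h ?_
      rw [← hkl, Nat.add_mod_left]
      exact Nat.mod_eq_of_lt hlk
    · obtain ⟨i, hi, hfi⟩ := exists_residue k ⟨a, ha⟩ f l
      refine hnoc _ (hf i hi) ?_
      rw [hfi]
      exact Nat.mod_eq_of_lt hlk

end TurMod
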