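import Pool.Agent.TurMod.ConMat
import Pool.Agent.TurMod.Reg
import Pool.Agent.TurMod.Main

/-!
# The dense range `2 m ≤ n ≤ C m`, and the theorem for all `n ≥ k + l`
-/

namespace TurMod

open Finset

universe u

/- MODULE DS1 -/
/-- From the regularity lemma to the structure of the reduced graph.
`h = (1 + ε/8) m / N`.
PROOF. `vol R · N² ≥ 2 (1 + ε) m (n - m) - κ n² ≥ 2 (1 + 3 ε/4) m (n - m)`: as `n ≥ 2 m` we have
`m (n - m) ≥ m n / 2 ≥ n²/(2 C)`, so `κ n² ≤ 2 C κ m (n - m) ≤ (ε/2) m (n - m)` for `κ ≤ ε/(4 C)`.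
In particular `N ≥ 1` (the right side is positive).  Put `μ = m / N`, `h = (1 + ε/8) μ > 0`,
`r' = max r (2 h)`.  Dividing by `N²`: `vol R ≥ 2 (1 + 3 ε/4) μ (n/N - μ)`, and `n/N ≥ r`, `n/N ≥ 2 μ`.
We need `2 h (r' - h) r < r' vol R`.
Case `2 h ≤ r = r'`: `h (r - h) ≤ (1 + ε/8) μ (r - μ) < (1 + 3 ε/4) μ (r - μ) ≤ vol R / 2` (`μ ≤ h ≤ r/2`).
Case `r < 2 h = r'`: we need `2 h · h · r < 2 h · vol R`, that is `h r < vol R`:
`n/N - μ ≥ n/(2 N) ≥ r/2`, so `vol R ≥ (1 + 3 ε/4) μ r > (1 + ε/8) μ r = h r`.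
Then `reduced_structure`. -/
theorem structure_of_reduced {V : Type u} [Fintype V] (G : SimpleGraph V) (ε C κ : ℝ) (hε : 0 < ε)
    (hε1 : ε ≤ 1) (hC : 1 ≤ C) (hκ : κ ≤ ε / (4 * C)) (hκ0 : 0 < κ) (m : ℕ) (hm : 1 ≤ m)
    (h2m : 2 * m ≤ Fintype.card V) (hCm : (Fintype.card V : ℝ) ≤ C * m)
    (hvol : 2 * (1 + ε) * m * ((Fintype.card V : ℝ) - m) ≤ (vol G Finset.univ : ℝ))
    (r : ℕ) (hr : 1 ≤ r) (R : SimpleGraph (Fin r)) (N : ℕ) (hN : N = Fintype.card V / r)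
    (hred : (vol G Finset.univ : ℝ) ≤ (vol R Finset.univ : ℝ) * (N : ℝ) ^ 2 +
      κ * (Fintype.card V : ℝ) ^ 2) :
    ∃ (K : Finset (Fin r)) (ν : ℕ) (x y : ℕ → Fin r), Conn R K 0 ∧ Mat R K ν x y ∧
      ((1 + ε / 8) * m ≤ (ν : ℝ) * N ∨ ((1 + ε / 8) * m ≤ 2 * ((ν : ℝ) * N) ∧
        ∃ a ∈ K, ∃ b ∈ K, ∃ c ∈ K, R.Adj a b ∧ R.Adj b c ∧ R.Adj a c)) := by
  set n : ℝ := (Fintype.card V : ℝ) with hn
  have hm1 : (1 : ℝ) ≤ m := by exact_mod_cast hm
  have h2m' : 2 * (m : ℝ) ≤ n := by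
    rw [hn]
    exact_mod_cast h2m
  have hA : 0 < (m : ℝ) * (n - m) := mul_pos (by linarith) (by linarith)
  have hn0 : 0 ≤ n := by linarith
  have hn2 : n ^ 2 ≤ 2 * C * (m * (n - m)) := by
    have h1 : n * n ≤ (C * m) * (2 * (n - m)) :=
      mul_le_mul hCm (by linarith) hn0 (by nlinarith)
    nlinarith
  have hκn : κ * n ^ 2 ≤ ε / 2 * (m * (n - m)) := by
    have h1 : κ * n ^ 2 ≤ ε / (4 * C) * (2 * C * (m * (n - m))) :=
      mul_le_mul hκ hn2 (sq_nonneg _) (by positivity)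
    have h2 : ε / (4 * C) * (2 * C * (m * (n - m))) = ε / 2 * (m * (n - m)) := by
      have hC0 : C ≠ 0 := by linarith
      field_simp
      ring
    linarith
  have hvR : 2 * (1 + 3 * ε / 4) * (m * (n - m)) ≤ (vol R Finset.univ : ℝ) * (N : ℝ) ^ 2 := by
    have h1 : 2 * (1 + ε) * m * (n - m) = 2 * (1 + 3 * ε / 4) * (m * (n - m)) +
        ε / 2 * (m * (n - m)) := by ring
    linarith
  have hN0 : N ≠ 0 := by
    intro h0
    rw [h0] at hvR
    norm_num at hvR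
    have : 0 < 2 * (1 + 3 * ε / 4) * (m * (n - m)) := by positivity
    linarith
  have hNp : (0 : ℝ) < N := by exact_mod_cast Nat.pos_of_ne_zero hN0
  have hr1 : (1 : ℝ) ≤ r := by exact_mod_cast hr
  have hNr : (N : ℝ) * r ≤ n := by
    rw [hn, hN]
    exact_mod_cast Nat.div_mul_le_self _ _
  -- the scaled quantities
  set μ : ℝ := m / N with hμ
  set ρ : ℝ := n / N with hρ
  have hμ0 : 0 < μ := div_pos (by linarith) hNp
  have hρr : (r : ℝ) ≤ ρ := by
    rw [hρ, le_div_iff₀ hNp]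
    linarith
  have hρμ : 2 * μ ≤ ρ := by
    rw [hρ, hμ, ← mul_div_assoc]
    exact div_le_div_of_nonneg_right h2m' hNp.le
  have hvol' : 2 * (1 + 3 * ε / 4) * (μ * (ρ - μ)) ≤ (vol R Finset.univ : ℝ) := by
    have h1 : 2 * (1 + 3 * ε / 4) * (μ * (ρ - μ)) =
        2 * (1 + 3 * ε / 4) * (m * (n - m)) / (N : ℝ) ^ 2 := by
      rw [hμ, hρ]
      field_simp
    rw [h1, div_le_iff₀ (by positivity)]
    exact hvR
  set h : ℝ := (1 + ε / 8) * μ with hh
  have hh0 : 0 < h := mul_pos (by linarith) hμ0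
  have hμh : μ ≤ h := by
    rw [hh, add_mul, one_mul]
    have : 0 ≤ ε / 8 * μ := by positivity
    linarith
  have hcard : (Fintype.card (Fin r) : ℝ) = r := by rw [Fintype.card_fin]
  have key : ∃ (K : Finset (Fin r)) (ν : ℕ) (x y : ℕ → Fin r), Conn R K 0 ∧ Mat R K ν x y ∧
      (h ≤ ν ∨ (h / 2 ≤ ν ∧ ∃ a ∈ K, ∃ b ∈ K, ∃ c ∈ K, R.Adj a b ∧ R.Adj b c ∧ R.Adj a c)) := by
    refine reduced_structure R h (max r (2 * h)) hh0 ?_ (le_max_right _ _) ?_
    · rw [hcard]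
      exact le_max_left _ _
    · rw [hcard]
      rcases le_total (2 * h) (r : ℝ) with hc | hc
      · rw [max_eq_left hc]
        have h1 : h * (r - h) ≤ (1 + ε / 8) * (μ * (r - μ)) := by
          calc h * (r - h) ≤ h * (r - μ) := mul_le_mul_of_nonneg_left (by linarith) hh0.le
            _ = (1 + ε / 8) * (μ * (r - μ)) := by rw [hh]; ring
        have h3 : (1 + ε / 8) * (μ * (r - μ)) < (1 + 3 * ε / 4) * (μ * (ρ - μ)) := by
          have h4 : 0 < μ * (r - μ) := mul_pos hμ0 (by linarith)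
          have h5 : μ * (r - μ) ≤ μ * (ρ - μ) := mul_le_mul_of_nonneg_left (by linarith) hμ0.le
          have h6 : (1 + ε / 8) * (μ * (r - μ)) < (1 + 3 * ε / 4) * (μ * (r - μ)) :=
            mul_lt_mul_of_pos_right (by linarith) h4
          have h7 : (1 + 3 * ε / 4) * (μ * (r - μ)) ≤ (1 + 3 * ε / 4) * (μ * (ρ - μ)) :=
            mul_le_mul_of_nonneg_left h5 (by linarith)
          linarith
        have h8 : 2 * (h * (r - h)) < (vol R Finset.univ : ℝ) := by linarith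
        calc 2 * (h * (r - h)) * r < (vol R Finset.univ : ℝ) * r :=
              mul_lt_mul_of_pos_right h8 (by linarith)
          _ = r * (vol R Finset.univ : ℝ) := mul_comm _ _
      · rw [max_eq_right hc]
        have h1 : h * r < (vol R Finset.univ : ℝ) := by
          have h2 : (r : ℝ) / 2 ≤ ρ - μ := by linarith
          have h3 : μ * (r / 2) ≤ μ * (ρ - μ) := mul_le_mul_of_nonneg_left h2 hμ0.le
          have h4 : 2 * (1 + 3 * ε / 4) * (μ * (r / 2)) ≤ 2 * (1 + 3 * ε / 4) * (μ * (ρ - μ)) :=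
            mul_le_mul_of_nonneg_left h3 (by linarith)
          have h5 : h * r < 2 * (1 + 3 * ε / 4) * (μ * (r / 2)) := by
            have h6 : 0 < μ * r := mul_pos hμ0 (by linarith)
            calc h * r = (1 + ε / 8) * (μ * r) := by rw [hh]; ring
              _ < (1 + 3 * ε / 4) * (μ * r) := mul_lt_mul_of_pos_right (by linarith) h6
              _ = 2 * (1 + 3 * ε / 4) * (μ * (r / 2)) := by ring
          linarith
        have h2 : 2 * (h * (2 * h - h)) * r = 2 * h * (h * r) := by ring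
        rw [h2]
        exact mul_lt_mul_of_pos_left h1 (by linarith)
  obtain ⟨K, ν, x, y, hconn, hM, hor⟩ := key
  refine ⟨K, ν, x, y, hconn, hM, ?_⟩
  have hhN : h * N = (1 + ε / 8) * m := by
    rw [hh, hμ]
    field_simp
  rcases hor with h1 | ⟨h1, h2⟩
  · left
    rw [← hhN]
    exact mul_le_mul_of_nonneg_right h1 hNp.le
  · right
    refine ⟨?_, h2⟩
    rw [← hhN]
    have h3 : h / 2 * N ≤ ν * N := mul_le_mul_of_nonneg_right h1 hNp.le
    linarith

/- MODULE DS2 -/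
private theorem DS2_mat {r ν : ℕ} {R : SimpleGraph (Fin r)} {K : Finset (Fin r)}
    {x y : ℕ → Fin r} (hM : Mat R K ν x y) : ν ≤ r := by
  have h : Function.Injective (fun i : Fin ν => x i) := by
    intro i j hij
    by_contra hne
    exact hM.xx i i.2 j j.2 (fun h => hne (Fin.ext h)) hij
  have := Fintype.card_le_of_injective _ h
  simpa using this

/-- THE SECOND DENSE LEMMA.
PROOF. `κ = ε/(4 C)` (`≤ 1`), `d = κ/32`, `η = ε/64`, `σ = min (d η / 8) (ε/200)`, `l0 = 1`, `M` from `reg`.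
`m0` large; `n ≥ 2 m ≥ M`; `N ≥ n / r - 1 ≥ 2 m / M - 1` large.  `structure_of_reduced`.  `g = ⌊η N⌋`; for
`ν ≤ r ≤ M`: `2 s + ν (6 r + 10) ≤ 2 σ N + M (6 M + 10) ≤ d g` for large `N`; `g + 3 s ≤ (η + 3 σ) N ≤ (ε/32) N`.
(i) If `(1 + ε/8) m ≤ ν N`: `conn_matching_cycle` with `q = ν`, `L = 2 m` (even):
`2 m + 2 ν (g + 3 s) ≤ 2 ν N` since `m ≤ ν N (1 - ε/32)` (`(1 + ε/8)(1 - ε/32) ≥ 1`);
`ν (6 r + 12) ≤ M (6 M + 12) ≤ 2 m`.
(ii) Otherwise there is a triangle and `(1 + ε/8) m ≤ 2 ν N`.  If `l ≤ N/2`: `odd_cycle_of_triangle`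
(`l + g + 3 s ≤ N`).  If `l > N/2`: `conn_matching_cycle` with `q = ν`, `L = l`:
`l + 2 ν (g + 3 s) ≤ m + 2 ν N ε/32 ≤ 2 ν N`; `l ≥ N/2 ≥ M (6 M + 12)`. -/
theorem dense2 (ε C : ℝ) (hε : 0 < ε) (hε1 : ε ≤ 1) (hC : 1 ≤ C) :
    ∃ m0 : ℕ, ∀ m : ℕ, m0 ≤ m → ∀ l : ℕ, Odd l → 3 ≤ l → l ≤ m →
      ∀ (V : Type u) [Fintype V] (G : SimpleGraph V),
      2 * m ≤ Fintype.card V → (Fintype.card V : ℝ) ≤ C * m →
      2 * (1 + ε) * m * ((Fintype.card V : ℝ) - m) ≤ (vol G Finset.univ : ℝ) →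
      HasCyc G (2 * m) ∨ HasCyc G l := by
  classical
  obtain ⟨κ, hκ⟩ : ∃ κ : ℝ, κ = ε / (4 * C) := ⟨_, rfl⟩
  obtain ⟨d, hd⟩ : ∃ d : ℝ, d = κ / 32 := ⟨_, rfl⟩
  obtain ⟨η, hη⟩ : ∃ η : ℝ, η = ε / 64 := ⟨_, rfl⟩
  obtain ⟨σ, hσ⟩ : ∃ σ : ℝ, σ = min (d * η / 8) (ε / 200) := ⟨_, rfl⟩
  have hκ0 : 0 < κ := by rw [hκ]; positivity
  have hκ1 : κ ≤ 1 := by
    rw [hκ, div_le_one (by positivity)]
    linarith
  have hd0 : 0 < d := by rw [hd]; positivity
  have hd1 : d ≤ 1 := by rw [hd]; linarith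
  have hη0 : 0 < η := by rw [hη]; positivity
  have hdη : 0 < d * η := mul_pos hd0 hη0
  have hσ0 : 0 < σ := by rw [hσ]; exact lt_min (by positivity) (by positivity)
  have hσ1 : σ ≤ d * η / 8 := by rw [hσ]; exact min_le_left _ _
  have hσ2 : σ ≤ ε / 200 := by rw [hσ]; exact min_le_right _ _
  obtain ⟨M, hM⟩ := reg.{u} κ σ hκ0 hκ1 hσ0 1
  obtain ⟨N0, hN0⟩ : ∃ N0 : ℕ, 2 * ((M : ℝ) * (6 * M + 10) + 1) / (d * η) ≤ N0 ∧
      2 * (M * (6 * M + 12)) + 1 ≤ N0 := by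
    refine ⟨max ⌈2 * ((M : ℝ) * (6 * M + 10) + 1) / (d * η)⌉₊ (2 * (M * (6 * M + 12)) + 1), ?_,
      le_max_right _ _⟩
    exact (Nat.le_ceil _).trans (by exact_mod_cast le_max_left _ _)
  refine ⟨M * N0 + M * (6 * M + 12) + M + 1, ?_⟩
  intro m hm l hl hl3 hlm V _ G h2m hCm hvol
  have hMn : M ≤ Fintype.card V := by
    have h1 : 0 ≤ M * N0 := Nat.zero_le _
    have h2 : 0 ≤ M * (6 * M + 12) := Nat.zero_le _
    omega
  obtain ⟨r, -, hr1, hrM, X, R, N, s, hN, hs, hclus, hred⟩ := hM V G hMn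
  have hm1 : 1 ≤ m := by
    have h1 : 0 ≤ M * N0 := Nat.zero_le _
    have h2 : 0 ≤ M * (6 * M + 12) := Nat.zero_le _
    omega
  obtain ⟨K, ν, x, y, hK, hmat, hcase⟩ := structure_of_reduced G ε C κ hε hε1 hC (le_of_eq hκ)
    hκ0 m hm1 h2m hCm hvol r hr1 R N hN hred
  have hνr : ν ≤ r := DS2_mat hmat
  have hνM : ν ≤ M := hνr.trans hrM
  have hM1 : 1 ≤ M := hr1.trans hrM
  have hNN : N0 ≤ N := by
    rw [hN, Nat.le_div_iff_mul_le (by omega)]
    have h1 : N0 * r ≤ N0 * M := Nat.mul_le_mul_left _ hrM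
    have h2 : N0 * M = M * N0 := Nat.mul_comm _ _
    have h3 : 0 ≤ M * (6 * M + 12) := Nat.zero_le _
    omega
  have hNR : (N0 : ℝ) ≤ N := by exact_mod_cast hNN
  have hmR : (1 : ℝ) ≤ m := by exact_mod_cast hm1
  have hMR : (1 : ℝ) ≤ M := by exact_mod_cast hM1
  have hN1 : (1 : ℝ) ≤ N := by
    have h1 : 1 ≤ N0 := by
      have := hN0.2
      omega
    have h2 : 1 ≤ N := h1.trans hNN
    exact_mod_cast h2
  obtain ⟨g, hg⟩ : ∃ g : ℕ, g = ⌊η * N⌋₊ := ⟨_, rfl⟩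
  have hg1 : (g : ℝ) ≤ η * N := by
    rw [hg]
    exact Nat.floor_le (by positivity)
  have hg2 : η * N - 1 ≤ (g : ℝ) := by
    rw [hg]
    exact (Nat.sub_one_lt_floor _).le
  have hs2 : (s : ℝ) ≤ d * η / 8 * N := hs.trans (mul_le_mul_of_nonneg_right hσ1 (by linarith))
  have hs3 : (s : ℝ) ≤ ε / 200 * N := hs.trans (mul_le_mul_of_nonneg_right hσ2 (by linarith))
  have hbig : 2 * ((M : ℝ) * (6 * M + 10) + 1) ≤ N * (d * η) := by
    have h1 := hN0.1.trans hNR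
    rwa [div_le_iff₀ hdη] at h1
  -- the two conditions on g
  have G1 : 2 * (s : ℝ) + (M : ℝ) * (6 * M + 10) ≤ d * g := by
    have h1 : d * (η * N - 1) ≤ d * g := mul_le_mul_of_nonneg_left hg2 hd0.le
    have h2 : 0 ≤ (N : ℝ) * (d * η) := by positivity
    clear * - h1 h2 hs2 hbig hd1
    linarith
  have G2 : (g : ℝ) + 3 * s ≤ ε / 32 * N := by
    rw [hη] at hg1
    have h1 : 0 ≤ ε * N := by positivity
    linarith
  have hνR : (ν : ℝ) ≤ r := by exact_mod_cast hνr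
  have hrR : (r : ℝ) ≤ M := by exact_mod_cast hrM
  have hν0 : (0 : ℝ) ≤ ν := Nat.cast_nonneg _
  have hr0 : (0 : ℝ) ≤ r := Nat.cast_nonneg _
  have hgq : (2 * s + ν * (6 * Fintype.card (Fin r) + 10) : ℝ) ≤ d * g := by
    rw [Fintype.card_fin]
    refine le_trans ?_ G1
    have : (ν : ℝ) * (6 * r + 10) ≤ (M : ℝ) * (6 * M + 10) :=
      mul_le_mul (hνR.trans hrR) (by linarith) (by linarith) (by linarith)
    linarith
  have hL1 : ν * (6 * Fintype.card (Fin r) + 12) ≤ M * (6 * M + 12) := by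
    rw [Fintype.card_fin]
    exact Nat.mul_le_mul hνM (by omega)
  -- the length condition
  have hlen : ∀ (L : ℕ) (A : ℝ), (L : ℝ) ≤ A → (1 + ε / 8) * A ≤ 2 * (ν * N) →
      L + 2 * ν * (g + 3 * s) ≤ 2 * ν * N := by
    intro L A hLA hA
    have h1 : (ν : ℝ) * (g + 3 * s) ≤ ν * (ε / 32 * N) := mul_le_mul_of_nonneg_left G2 hν0
    have h2 : A ≤ 2 * (ν * N) * (1 - ε / 32) := by
      have hA0 : 0 ≤ A := (Nat.cast_nonneg _).trans hLA
      have h3 : (1 + ε / 8) * A * (1 - ε / 32) ≤ 2 * (ν * N) * (1 - ε / 32) :=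
        mul_le_mul_of_nonneg_right hA (by linarith)
      have h4 : A ≤ (1 + ε / 8) * A * (1 - ε / 32) := by
        have h5 : (1 + ε / 8) * A * (1 - ε / 32) - A = A * (ε * (24 - ε) / 256) := by ring
        have h6 : 0 ≤ A * (ε * (24 - ε) / 256) := by
          apply mul_nonneg hA0
          apply div_nonneg (mul_nonneg hε.le (by linarith)) (by norm_num)
        linarith
      linarith
    have h7 : (L : ℝ) + 2 * ν * (g + 3 * s) ≤ 2 * ν * N := by
      clear * - h1 h2 hLA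
      linarith
    exact_mod_cast h7
  have hνpos : 1 ≤ ν := by
    by_contra h0
    have h1 : ν = 0 := by omega
    have h2 : (1 + ε / 8) * m ≤ 0 := by
      rcases hcase with h3 | ⟨h3, _⟩
      · rw [h1] at h3
        simpa using h3
      · rw [h1] at h3
        simpa using h3
    have h3 : 0 < (1 + ε / 8) * (m : ℝ) := by positivity
    linarith
  have h2mR : ((2 * m : ℕ) : ℝ) = 2 * m := by push_cast; ring
  rcases hcase with h3 | ⟨h3, htri⟩
  · left
    refine conn_matching_cycle hclus K hK ν hνpos x y hmat g (2 * m) (Or.inl (even_two_mul m))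
      (by rw [← hd]; exact hgq) ?_ ?_
    · have h4 : 0 ≤ M * N0 := Nat.zero_le _
      omega
    · exact hlen (2 * m) (2 * m) (le_of_eq h2mR) (by linarith)
  · right
    obtain ⟨a, ha, b, hb, c, hc, hab, hbc, hac⟩ := htri
    by_cases hlN : 2 * l ≤ N
    · refine odd_cycle_of_triangle hclus a b c hab hbc hac g l hl hl3 ?_ ?_
      · rw [← hd]
        refine le_trans ?_ G1
        have h4 : (1 : ℝ) * 16 ≤ (M : ℝ) * (6 * M + 10) :=
          mul_le_mul hMR (by linarith) (by norm_num) (by linarith)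
        linarith
      · have h5 : (2 : ℝ) * l ≤ N := by exact_mod_cast hlN
        have h7 : ε / 32 * (N : ℝ) ≤ 1 / 32 * N :=
          mul_le_mul_of_nonneg_right (by linarith) (by linarith)
        have h6 : (l : ℝ) + g + 3 * s ≤ N := by linarith
        exact_mod_cast h6
    · refine conn_matching_cycle hclus K hK ν hνpos x y hmat g l
        (Or.inr ⟨a, ha, b, hb, c, hc, hab, hbc, hac⟩) (by rw [← hd]; exact hgq) ?_ ?_
      · have h4 := hN0.2
        omega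
      · exact hlen l m (by exact_mod_cast hlm) h3

/- MODULE DS3 -/
/-- THE THEOREM FOR ALL `n ≥ k + l`.
PROOF. May assume `ε ≤ 1` (`a (n - a) ≥ 0`).  Let `m = (k + l)/2 = a + 1`, so `m ≥ k/2` is large, `l < m`
(as `l < k`), `m ≤ k ≤ 2 m`.  Suppose `e(G) > (1 + ε) a (n - a)`.
(1) `n ≤ C m` with `C = 8/ε`: `a (n - a) ≥ (1 - ε/8) m (n - m)` since `a = m - 1`, `n - a ≥ n - m`, so
`vol = 2 e ≥ 2 (1 + ε)(1 - ε/8) m (n - m) ≥ 2 (1 + ε/2) m (n - m)`, and `dense2 (ε/2) C` gives a cycle of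
length `2 m = k + l` or of length `l`, both `≡ l` modulo `k`.
(2) `n > C m`: `a (n - a) ≥ (1 - ε/8) m · (1 - ε/8) n` (as `a ≤ m ≤ (ε/8) n`), so
`vol ≥ 2 (1 + ε)(1 - ε/8)² m n ≥ 2 (1 + ε/2) m n`: `dichotomy (ε/2)` and `exists_residue`. -/
theorem asymptotic_full (ε : ℝ) (hε : 0 < ε) :
    ∃ k0 : ℕ, ∀ k : ℕ, k0 ≤ k → Odd k → ∀ l : ℕ, Odd l → 3 ≤ l → l < k →
      ∀ (V : Type u) [Fintype V] (G : SimpleGraph V) [DecidableRel G.Adj],
      k + l ≤ Fintype.card V →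
      (∀ (v : V) (c : G.Walk v v), c.IsCycle → c.length % k ≠ l) →
      (G.edgeFinset.card : ℝ) ≤ (1 + ε) * ((((k : ℝ) + l - 2) / 2) *
        ((Fintype.card V : ℝ) - ((k : ℝ) + l - 2) / 2)) := by
  obtain ⟨δ, hδ⟩ : ∃ δ : ℝ, δ = min ε 1 := ⟨_, rfl⟩
  have hδ0 : 0 < δ := by rw [hδ]; exact lt_min hε one_pos
  have hδ1 : δ ≤ 1 := by rw [hδ]; exact min_le_right _ _
  have hδε : δ ≤ ε := by rw [hδ]; exact min_le_left _ _
  have hC : 1 ≤ 8 / δ := by
    rw [le_div_iff₀ hδ0]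
    linarith
  obtain ⟨m1, hm1⟩ := dense2.{u} (δ / 2) (8 / δ) (by positivity) (by linarith) hC
  obtain ⟨m2, hm2⟩ := dichotomy.{u} (δ / 2) (by positivity) (by linarith)
  refine ⟨2 * (m1 + m2 + ⌈8 / δ⌉₊) + 1, ?_⟩
  intro k hk hko l hlo hl3 hlk V _ G _ hn hcyc
  obtain ⟨m, hm⟩ : ∃ m, k + l = m + m := hko.add_odd hlo
  have hm3 : m1 + m2 + ⌈8 / δ⌉₊ ≤ m := by omega
  have hmδ : 8 / δ ≤ m := by
    refine (Nat.le_ceil _).trans ?_
    exact_mod_cast (by omega : ⌈8 / δ⌉₊ ≤ m)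
  have hkl : (k : ℝ) + l = 2 * m := by
    have : ((k + l : ℕ) : ℝ) = ((m + m : ℕ) : ℝ) := by rw [hm]
    push_cast at this
    linarith
  have ha : ((k : ℝ) + l - 2) / 2 = m - 1 := by
    rw [hkl]
    ring
  rw [ha]
  have h8 : 8 ≤ m * δ := by rwa [div_le_iff₀ hδ0] at hmδ
  have hm0 : (0 : ℝ) < m := by
    have h1 : 0 < m := by omega
    exact_mod_cast h1
  have hn2 : 2 * (m : ℝ) ≤ Fintype.card V := by
    have : ((k + l : ℕ) : ℝ) ≤ (Fintype.card V : ℝ) := by exact_mod_cast hn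
    push_cast at this
    linarith
  have hm1R : (1 : ℝ) ≤ m := by
    have h1 : 1 ≤ m := by omega
    exact_mod_cast h1
  have hno : ∀ L : ℕ, L % k = l → ¬ HasCyc G L := by
    rintro L hL ⟨v, c, hc, hcl⟩
    exact hcyc v c hc (by rw [hcl, hL])
  have hlk2 : l % k = l := Nat.mod_eq_of_lt hlk
  have h2m : (2 * m) % k = l := by
    have : 2 * m = k + l := by omega
    rw [this, Nat.add_mod_left, hlk2]
  have key : (G.edgeFinset.card : ℝ) ≤ (1 + δ) * (((m : ℝ) - 1) *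
      ((Fintype.card V : ℝ) - (m - 1))) := by
    by_contra hlt
    push Not at hlt
    have hvol : (vol G Finset.univ : ℝ) = 2 * (G.edgeFinset.card : ℝ) := by
      rw [vol_univ_eq]
      push_cast
      ring
    have ha1 : (1 - δ / 8) * m ≤ (m : ℝ) - 1 := by linarith
    have hnm : 0 ≤ (Fintype.card V : ℝ) - m := by linarith
    rcases le_or_gt (Fintype.card V : ℝ) (8 / δ * m) with hCm | hCm
    · have hge : 2 * (1 + δ / 2) * m * ((Fintype.card V : ℝ) - m) ≤ (vol G Finset.univ : ℝ) := by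
        rw [hvol]
        have h3 : (1 - δ / 8) * m * ((Fintype.card V : ℝ) - m) ≤
            ((m : ℝ) - 1) * ((Fintype.card V : ℝ) - (m - 1)) :=
          mul_le_mul ha1 (by linarith) hnm (by linarith)
        have h4 : (1 + δ) * ((1 - δ / 8) * m * ((Fintype.card V : ℝ) - m)) ≤
            (1 + δ) * (((m : ℝ) - 1) * ((Fintype.card V : ℝ) - (m - 1))) :=
          mul_le_mul_of_nonneg_left h3 (by linarith)
        have h5 : (1 + δ / 2) * (m * ((Fintype.card V : ℝ) - m)) ≤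
            (1 + δ) * (1 - δ / 8) * (m * ((Fintype.card V : ℝ) - m)) := by
          apply mul_le_mul_of_nonneg_right _ (mul_nonneg hm0.le hnm)
          have h6 : (1 + δ) * (1 - δ / 8) - (1 + δ / 2) = δ * (3 - δ) / 8 := by ring
          have h7 : 0 ≤ δ * (3 - δ) / 8 :=
            div_nonneg (mul_nonneg hδ0.le (by linarith)) (by norm_num)
          linarith
        clear * - hlt h4 h5
        linarith
      have hVm : 2 * m ≤ Fintype.card V := by omega
      rcases hm1 m (by omega) l hlo hl3 (by omega) V G hVm hCm hge with h | h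
      · exact hno _ h2m h
      · exact hno _ hlk2 h
    · have hmn : (m : ℝ) ≤ δ / 8 * (Fintype.card V : ℝ) := by
        have h3 : 8 / δ * m * (δ / 8) ≤ (Fintype.card V : ℝ) * (δ / 8) :=
          mul_le_mul_of_nonneg_right hCm.le (by positivity)
        have h4 : 8 / δ * (m : ℝ) * (δ / 8) = m := by
          field_simp
        linarith
      have hge : 2 * (1 + δ / 2) * m * (Fintype.card V : ℝ) ≤ (vol G Finset.univ : ℝ) := by
        rw [hvol]
        have h3 : (1 - δ / 8) * m * ((1 - δ / 8) * (Fintype.card V : ℝ)) ≤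
            ((m : ℝ) - 1) * ((Fintype.card V : ℝ) - (m - 1)) := by
          apply mul_le_mul ha1 (by linarith) _ (by linarith)
          exact mul_nonneg (by linarith) (by linarith)
        have h4 : (1 + δ) * ((1 - δ / 8) * m * ((1 - δ / 8) * (Fintype.card V : ℝ))) ≤
            (1 + δ) * (((m : ℝ) - 1) * ((Fintype.card V : ℝ) - (m - 1))) :=
          mul_le_mul_of_nonneg_left h3 (by linarith)
        have h5 : (1 + δ / 2) * (m * (Fintype.card V : ℝ)) ≤
            (1 + δ) * ((1 - δ / 8) * (1 - δ / 8)) * (m * (Fintype.card V : ℝ)) := by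
          apply mul_le_mul_of_nonneg_right _ (mul_nonneg hm0.le (by linarith))
          have h6 : (1 + δ) * ((1 - δ / 8) * (1 - δ / 8)) - (1 + δ / 2) =
              δ * ((16 - 15 * δ) + δ * δ) / 64 := by ring
          have h7 : 0 ≤ δ * ((16 - 15 * δ) + δ * δ) / 64 :=
            div_nonneg (mul_nonneg hδ0.le (add_nonneg (by linarith) (mul_nonneg hδ0.le hδ0.le)))
              (by norm_num)
          linarith
        clear * - hlt h4 h5
        linarith
      rcases hm2 m (by omega) k (by omega) (by omega) V G (by omega) hge with h | ⟨f, hf⟩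
      · exact hno _ h2m h
      · obtain ⟨i, hi, hi2⟩ := exists_residue k hko f l
        exact hno _ (by rw [hi2, hlk2]) (hf i hi)
  refine key.trans ?_
  apply mul_le_mul_of_nonneg_right (by linarith)
  exact mul_nonneg (by linarith) (by linarith)

end TurMod
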