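import Pool.Agent.TurMod.Match

/-!
# Structure of the reduced graph: stability
-/

namespace TurMod

open Finset

universe u

variable {V : Type*}

/- MODULE RS1 -/
private lemma RS1_dgu [DecidableEq V] (G : SimpleGraph V) (A B : Finset V) (h : Disjoint A B)
    (v : V) : dg G (A ∪ B) v = dg G A v + dg G B v := by
  classical
  unfold dg
  rw [Finset.filter_union, Finset.card_union_of_disjoint (Finset.disjoint_filter_filter h)]

private lemma RS1_comm (G : SimpleGraph V) (A B : Finset V) :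
    ∑ v ∈ A, dg G B v = ∑ w ∈ B, dg G A w := by
  classical
  simp only [dg, Finset.card_filter]
  rw [Finset.sum_comm]
  refine Finset.sum_congr rfl fun b _ => Finset.sum_congr rfl fun a _ => ?_
  simp only [G.adj_comm a b]

private lemma RS1_vol [DecidableEq V] (G : SimpleGraph V) (A B : Finset V) (h : Disjoint A B) :
    vol G (A ∪ B) = vol G A + vol G B + 2 * ∑ v ∈ A, dg G B v := by
  unfold vol
  rw [Finset.sum_union h]
  have h1 : ∑ v ∈ A, dg G (A ∪ B) v = ∑ v ∈ A, dg G A v + ∑ v ∈ A, dg G B v := by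
    rw [← Finset.sum_add_distrib]
    exact Finset.sum_congr rfl fun v _ => RS1_dgu G A B h v
  have h2 : ∑ v ∈ B, dg G (A ∪ B) v = ∑ v ∈ B, dg G A v + ∑ v ∈ B, dg G B v := by
    rw [← Finset.sum_add_distrib]
    exact Finset.sum_congr rfl fun v _ => RS1_dgu G A B h v
  rw [h1, h2, RS1_comm G B A]
  ring

private lemma RS1_zero (G : SimpleGraph V) (A B : Finset V)
    (h : ∀ a ∈ A, ∀ b ∈ B, ¬ G.Adj a b) : ∑ v ∈ A, dg G B v = 0 := by
  classical
  refine Finset.sum_eq_zero fun a ha => ?_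
  unfold dg
  rw [Finset.card_eq_zero, Finset.filter_eq_empty_iff]
  exact fun b hb => h a ha b hb

/-- A component of at least average density.
PROOF. Among all nonempty sets `K` without edges to the complement and with
`vol univ · |K| ≤ vol K · |V|` (`univ` is one) take one with the smallest cardinality.  If `Conn G K 0` fails there
is a nonempty `A ⊆ K`, `K ∖ A` nonempty, without edges between them; both are without edges to their
complements, `vol K = vol A + vol (K ∖ A)`, `|K| = |A| + |K ∖ A|`, so one of them has the inequality: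
contradiction. -/
theorem exists_component [Fintype V] [Nonempty V] [DecidableEq V] (G : SimpleGraph V) :
    ∃ K : Finset V, K.Nonempty ∧ Conn G K 0 ∧ (∀ u ∈ K, ∀ w, w ∉ K → ¬ G.Adj u w) ∧
      vol G Finset.univ * K.card ≤ vol G K * Fintype.card V := by
  classical
  set F : Finset (Finset V) := Finset.univ.filter (fun K : Finset V => K.Nonempty ∧
    (∀ u ∈ K, ∀ w, w ∉ K → ¬ G.Adj u w) ∧
      vol G Finset.univ * K.card ≤ vol G K * Fintype.card V) with hF
  have hne : F.Nonempty := by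
    refine ⟨Finset.univ, Finset.mem_filter.2 ⟨Finset.mem_univ _, Finset.univ_nonempty, ?_, ?_⟩⟩
    · intro u _ w hw
      exact absurd (Finset.mem_univ w) hw
    · rw [Finset.card_univ]
  obtain ⟨K, hK, hmin⟩ := Finset.exists_min_image F Finset.card hne
  obtain ⟨-, hKne, hKcl, hKv⟩ := Finset.mem_filter.1 hK
  refine ⟨K, hKne, ?_, hKcl, hKv⟩
  intro X A hX hAK hAne hAX hex
  have hX0 : X = ∅ := Finset.card_eq_zero.1 (by omega)
  subst hX0
  obtain ⟨c, hcK, hcA, -⟩ := hex
  by_contra hcon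
  push Not at hcon
  have hno : ∀ a ∈ A, ∀ b ∈ K \ A, ¬ G.Adj a b := by
    intro a ha b hb
    rw [Finset.mem_sdiff] at hb
    exact hcon a ha b hb.1 hb.2 (Finset.notMem_empty b)
  have hclA : ∀ u ∈ A, ∀ w, w ∉ A → ¬ G.Adj u w := by
    intro u hu w hw
    by_cases hwK : w ∈ K
    · exact hno u hu w (Finset.mem_sdiff.2 ⟨hwK, hw⟩)
    · exact hKcl u (hAK hu) w hwK
  have hclB : ∀ u ∈ K \ A, ∀ w, w ∉ K \ A → ¬ G.Adj u w := by
    intro u hu w hw
    by_cases hwK : w ∈ K
    · have hwA : w ∈ A := by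
        by_contra h
        exact hw (Finset.mem_sdiff.2 ⟨hwK, h⟩)
      exact fun h => hno w hwA u hu h.symm
    · exact hKcl u (Finset.mem_sdiff.1 hu).1 w hwK
  have hvol : vol G K = vol G A + vol G (K \ A) := by
    have h1 := RS1_vol G A (K \ A) Finset.disjoint_sdiff
    rw [Finset.union_sdiff_of_subset hAK, RS1_zero G A (K \ A) hno] at h1
    omega
  have hcard : K.card = A.card + (K \ A).card := by
    have := Finset.card_sdiff_add_card_eq_card hAK
    omega
  have hAc : 0 < A.card := hAne.card_pos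
  have hBne : (K \ A).Nonempty := ⟨c, Finset.mem_sdiff.2 ⟨hcK, hcA⟩⟩
  have hBc : 0 < (K \ A).card := hBne.card_pos
  have hA : ¬ vol G Finset.univ * A.card ≤ vol G A * Fintype.card V := by
    intro h
    have := hmin A (Finset.mem_filter.2 ⟨Finset.mem_univ _, hAne, hclA, h⟩)
    omega
  have hB : ¬ vol G Finset.univ * (K \ A).card ≤ vol G (K \ A) * Fintype.card V := by
    intro h
    have := hmin (K \ A) (Finset.mem_filter.2 ⟨Finset.mem_univ _, hBne, hclB, h⟩)
    omega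
  rw [hvol, hcard, Nat.mul_add, Nat.add_mul] at hKv
  omega

/- MODULE RS2 -/
/-- a maximum matching `x i y i` of `K`, labelled; `I` the unmatched vertices -/
structure MM (G : SimpleGraph V) (K : Finset V) (ν : ℕ) (x y : ℕ → V) (I : Finset V) : Prop where
  mat : Mat G K ν x y
  memI : ∀ v, v ∈ I ↔ v ∈ K ∧ ∀ i < ν, v ≠ x i ∧ v ≠ y i
  indI : ∀ u ∈ I, ∀ w ∈ I, ¬ G.Adj u w
  aug : ∀ i < ν, ∀ u ∈ I, ∀ w ∈ I, G.Adj u (x i) → G.Adj w (y i) → u = w
  two : ∀ i < ν, dg G I (x i) + dg G I (y i) ≤ 2 ∨ (2 ≤ dg G I (x i) ∧ dg G I (y i) = 0)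
  far : ∀ i < ν, ∀ j < ν, i ≠ j → 2 ≤ dg G I (x i) → 2 ≤ dg G I (x j) → ¬ G.Adj (y i) (y j)

private lemma RS2_ext {G : SimpleGraph V} {K : Finset V} {ν : ℕ} {x y : ℕ → V}
    (hM : Mat G K ν x y) {u w : V} (hu : u ∈ K) (hw : w ∈ K) (hadj : G.Adj u w)
    (hu' : ∀ i < ν, u ≠ x i ∧ u ≠ y i) (hw' : ∀ i < ν, w ≠ x i ∧ w ≠ y i) :
    Mat G K (ν + 1) (Function.update x ν u) (Function.update y ν w) := by
  constructor
  · intro i hi
    rw [Function.update_apply]
    split_ifs with h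
    · exact hu
    · exact hM.xK i (by omega)
  · intro i hi
    rw [Function.update_apply]
    split_ifs with h
    · exact hw
    · exact hM.yK i (by omega)
  · intro i hi
    rw [Function.update_apply, Function.update_apply]
    split_ifs with h
    · exact hadj
    · exact hM.adj i (by omega)
  · intro i hi j hj hij
    rw [Function.update_apply, Function.update_apply]
    split_ifs with h h'
    · omega
    · exact (hu' j (by omega)).1
    · exact (hu' i (by omega)).1.symm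
    · exact hM.xx i (by omega) j (by omega) hij
  · intro i hi j hj hij
    rw [Function.update_apply, Function.update_apply]
    split_ifs with h h'
    · omega
    · exact (hw' j (by omega)).2
    · exact (hw' i (by omega)).2.symm
    · exact hM.yy i (by omega) j (by omega) hij
  · intro i hi j hj
    rw [Function.update_apply, Function.update_apply]
    split_ifs with h h'
    · exact hadj.ne
    · exact (hu' j (by omega)).2
    · exact (hw' i (by omega)).1.symm
    · exact hM.xy i (by omega) j (by omega)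

private lemma RS2_swap {G : SimpleGraph V} {K : Finset V} {ν : ℕ} {x y : ℕ → V}
    (hM : Mat G K ν x y) {i : ℕ} (hi : i < ν) {u : V} (hu : u ∈ K) (hadj : G.Adj u (x i))
    (hu' : ∀ i < ν, u ≠ x i ∧ u ≠ y i) :
    Mat G K ν (Function.update x i u) (Function.update y i (x i)) := by
  constructor
  · intro j hj
    rw [Function.update_apply]
    split_ifs with h
    · exact hu
    · exact hM.xK j hj
  · intro j hj
    rw [Function.update_apply]
    split_ifs with h
    · exact hM.xK i hi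
    · exact hM.yK j hj
  · intro j hj
    rw [Function.update_apply, Function.update_apply]
    split_ifs with h
    · exact hadj
    · exact hM.adj j hj
  · intro j hj k hk hjk
    rw [Function.update_apply, Function.update_apply]
    split_ifs with h h'
    · exact absurd (h.trans h'.symm) hjk
    · exact (hu' k hk).1
    · exact (hu' j hj).1.symm
    · exact hM.xx j hj k hk hjk
  · intro j hj k hk hjk
    rw [Function.update_apply, Function.update_apply]
    split_ifs with h h'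
    · exact absurd (h.trans h'.symm) hjk
    · exact hM.xy i hi k hk
    · exact (hM.xy i hi j hj).symm
    · exact hM.yy j hj k hk hjk
  · intro j hj k hk
    rw [Function.update_apply, Function.update_apply]
    split_ifs with h h' h'
    · exact hadj.ne
    · exact (hu' k hk).2
    · exact hM.xx j hj i hi h
    · exact hM.xy j hj k hk

/-- EXISTENCE.
PROOF. Take a matching with the largest `ν` (`ν ≤ |K|`; as in `exists_max_matching`), then exchange `x i` and
`y i` for those `i` with `dg I (y i) > dg I (x i)`.  `indI`: otherwise `ν + 1`.  `aug`: otherwise replace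
`x i y i` by `u x i` and `w y i`.  `two`: if `dg I (y i) = 0` one of the alternatives holds; otherwise, by `aug`, all
neighbours of `x i` and of `y i` in `I` coincide, both have exactly one (`dg I (x i) ≥ dg I (y i) ≥ 1`).
`far`: if `y i ~ y j` choose `u ~ x i`, `w ~ x j` in `I`, `u ≠ w`; replace `x i y i`, `x j y j` by
`u x i`, `y i y j`, `w x j`: `ν + 1`. -/
theorem exists_MM [Nonempty V] [DecidableEq V] (G : SimpleGraph V) (K : Finset V) :
    ∃ (ν : ℕ) (x y : ℕ → V) (I : Finset V), MM G K ν x y I := by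
  classical
  have hne : {ν : ℕ | ∃ x y : ℕ → V, Mat G K ν x y}.Nonempty := by
    obtain ⟨v⟩ := (inferInstance : Nonempty V)
    refine ⟨0, fun _ => v, fun _ => v, ?_⟩
    constructor <;> intro i hi <;> omega
  have hbd : BddAbove {ν : ℕ | ∃ x y : ℕ → V, Mat G K ν x y} := by
    refine ⟨K.card, ?_⟩
    rintro ν ⟨x, y, hM⟩
    have h1 : ((Finset.range ν).image x).card = ν := by
      rw [Finset.card_image_of_injOn, Finset.card_range]
      intro i hi j hj hij
      rw [Finset.mem_coe, Finset.mem_range] at hi hj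
      by_contra hne
      exact hM.xx i hi j hj hne hij
    rw [← h1]
    refine Finset.card_le_card ?_
    intro v hv
    obtain ⟨i, hi, rfl⟩ := Finset.mem_image.1 hv
    exact hM.xK i (Finset.mem_range.1 hi)
  obtain ⟨x₀, y₀, hM₀⟩ := Nat.sSup_mem hne hbd
  set ν := sSup {ν : ℕ | ∃ x y : ℕ → V, Mat G K ν x y} with hν
  have hmax : ∀ x' y' : ℕ → V, ¬ Mat G K (ν + 1) x' y' := by
    intro x' y' h
    have h1 : ν + 1 ≤ ν := le_csSup hbd ⟨x', y', h⟩
    omega
  set I := K.filter (fun v => ∀ i < ν, v ≠ x₀ i ∧ v ≠ y₀ i) with hI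
  set x : ℕ → V := fun i => if dg G I (x₀ i) < dg G I (y₀ i) then y₀ i else x₀ i with hx
  set y : ℕ → V := fun i => if dg G I (x₀ i) < dg G I (y₀ i) then x₀ i else y₀ i with hy
  have hxy : ∀ i, (x i = x₀ i ∧ y i = y₀ i) ∨ (x i = y₀ i ∧ y i = x₀ i) := by
    intro i
    by_cases h : dg G I (x₀ i) < dg G I (y₀ i)
    · exact Or.inr ⟨if_pos h, if_pos h⟩
    · exact Or.inl ⟨if_neg h, if_neg h⟩
  have hle : ∀ i, dg G I (y i) ≤ dg G I (x i) := by
    intro i
    by_cases h : dg G I (x₀ i) < dg G I (y₀ i)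
    · have h1 : x i = y₀ i := if_pos h
      have h2 : y i = x₀ i := if_pos h
      rw [h1, h2]
      exact h.le
    · have h1 : x i = x₀ i := if_neg h
      have h2 : y i = y₀ i := if_neg h
      rw [h1, h2]
      exact not_lt.1 h
  have hM : Mat G K ν x y := by
    constructor
    · intro i hi
      rcases hxy i with h | h <;> rw [h.1]
      · exact hM₀.xK i hi
      · exact hM₀.yK i hi
    · intro i hi
      rcases hxy i with h | h <;> rw [h.2]
      · exact hM₀.yK i hi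
      · exact hM₀.xK i hi
    · intro i hi
      rcases hxy i with h | h <;> rw [h.1, h.2]
      · exact hM₀.adj i hi
      · exact (hM₀.adj i hi).symm
    · intro i hi j hj hij
      rcases hxy i with h | h <;> rcases hxy j with h' | h' <;> rw [h.1, h'.1]
      · exact hM₀.xx i hi j hj hij
      · exact hM₀.xy i hi j hj
      · exact (hM₀.xy j hj i hi).symm
      · exact hM₀.yy i hi j hj hij
    · intro i hi j hj hij
      rcases hxy i with h | h <;> rcases hxy j with h' | h' <;> rw [h.2, h'.2]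
      · exact hM₀.yy i hi j hj hij
      · exact (hM₀.xy j hj i hi).symm
      · exact hM₀.xy i hi j hj
      · exact hM₀.xx i hi j hj hij
    · intro i hi j hj
      by_cases hij : i = j
      · subst hij
        rcases hxy i with h | h <;> rw [h.1, h.2]
        · exact hM₀.xy i hi i hi
        · exact (hM₀.xy i hi i hi).symm
      · rcases hxy i with h | h <;> rcases hxy j with h' | h' <;> rw [h.1, h'.2]
        · exact hM₀.xy i hi j hj
        · exact hM₀.xx i hi j hj hij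
        · exact hM₀.yy i hi j hj hij
        · exact (hM₀.xy j hj i hi).symm
  have hmemI : ∀ v, v ∈ I ↔ v ∈ K ∧ ∀ i < ν, v ≠ x i ∧ v ≠ y i := by
    intro v
    rw [hI, Finset.mem_filter]
    refine and_congr_right fun _ => forall_congr' fun i => imp_congr_right fun _ => ?_
    rcases hxy i with h | h <;> rw [h.1, h.2]
    exact and_comm
  have haug : ∀ i < ν, ∀ u ∈ I, ∀ w ∈ I, G.Adj u (x i) → G.Adj w (y i) → u = w := by
    intro i hi u hu w hw hux hwy
    obtain ⟨huK, hu'⟩ := (hmemI u).1 hu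
    obtain ⟨hwK, hw'⟩ := (hmemI w).1 hw
    by_contra huw
    have h1 := RS2_swap hM hi huK hux hu'
    refine hmax _ _ (RS2_ext h1 hwK (hM.yK i hi) hwy ?_ ?_)
    · intro j hj
      rw [Function.update_apply, Function.update_apply]
      split_ifs with hji
      · exact ⟨fun h => huw h.symm, (hw' i hi).1⟩
      · exact hw' j hj
    · intro j hj
      rw [Function.update_apply, Function.update_apply]
      split_ifs with hji
      · exact ⟨fun h => (hu' i hi).2 h.symm, fun h => hM.xy i hi i hi h.symm⟩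
      · exact ⟨fun h => hM.xy j hj i hi h.symm, hM.yy i hi j hj (fun h => hji h.symm)⟩
  refine ⟨ν, x, y, I, ⟨hM, hmemI, ?_, haug, ?_, ?_⟩⟩
  · intro u hu w hw hadj
    obtain ⟨huK, hu'⟩ := (hmemI u).1 hu
    obtain ⟨hwK, hw'⟩ := (hmemI w).1 hw
    exact hmax _ _ (RS2_ext hM huK hwK hadj hu' hw')
  · intro i hi
    have h1 := hle i
    by_cases hy0 : dg G I (y i) = 0
    · by_cases h2 : dg G I (x i) ≤ 2
      · left
        omega
      · right
        omega
    · left
      have hx1 : dg G I (x i) ≤ 1 := by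
        unfold dg at hy0 ⊢
        obtain ⟨w, hw⟩ := Finset.card_ne_zero.1 hy0
        rw [Finset.mem_filter] at hw
        rw [Finset.card_le_one]
        have h8 : ∀ u ∈ I.filter (fun u => G.Adj (x i) u), u = w := by
          intro u hu
          rw [Finset.mem_filter] at hu
          exact haug i hi u hu.1 w hw.1 hu.2.symm hw.2.symm
        intro u hu u' hu'
        rw [h8 u hu, h8 u' hu']
      omega
  · intro i hi j hj hij hxi hxj hadj
    unfold dg at hxi hxj
    obtain ⟨u, hu⟩ : (I.filter (fun w => G.Adj (x i) w)).Nonempty :=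
      Finset.card_pos.1 (by omega)
    obtain ⟨w, hw, hwu⟩ : ∃ w ∈ I.filter (fun w => G.Adj (x j) w), w ≠ u := by
      obtain ⟨a, ha, b, hb, hab⟩ := Finset.one_lt_card.1 hxj
      by_cases h : a = u
      · exact ⟨b, hb, fun h' => hab (h.trans h'.symm)⟩
      · exact ⟨a, ha, h⟩
    rw [Finset.mem_filter] at hu hw
    obtain ⟨huK, hu'⟩ := (hmemI u).1 hu.1
    obtain ⟨hwK, hw'⟩ := (hmemI w).1 hw.1
    have h1 := RS2_swap hM hi huK hu.2.symm hu'
    have hxj' : Function.update x i u j = x j := Function.update_of_ne (Ne.symm hij) _ _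
    have h2 := RS2_swap h1 hj hwK (by rw [hxj']; exact hw.2.symm) (by
      intro k hk
      rw [Function.update_apply, Function.update_apply]
      split_ifs with hki
      · exact ⟨hwu, (hw' i hi).1⟩
      · exact hw' k hk)
    rw [hxj'] at h2
    refine hmax _ _ (RS2_ext h2 (hM.yK i hi) (hM.yK j hj) hadj ?_ ?_)
    · intro k hk
      rw [Function.update_apply, Function.update_apply, Function.update_apply,
        Function.update_apply]
      split_ifs with hkj hki
      · exact ⟨fun h => (hw' i hi).2 h.symm, fun h => hM.xy j hj i hi h.symm⟩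
      · exact ⟨fun h => (hu' i hi).2 h.symm, fun h => hM.xy i hi i hi h.symm⟩
      · exact ⟨fun h => hM.xy k hk i hi h.symm, hM.yy i hi k hk (fun h => hki h.symm)⟩
    · intro k hk
      rw [Function.update_apply, Function.update_apply, Function.update_apply,
        Function.update_apply]
      split_ifs with hkj hki
      · exact ⟨fun h => (hw' j hj).2 h.symm, fun h => hM.xy j hj j hj h.symm⟩
      · exact ⟨fun h => (hu' j hj).2 h.symm, fun h => hM.xy i hi j hj h.symm⟩
      · exact ⟨fun h => hM.xy k hk j hj h.symm, hM.yy j hj k hk (fun h => hkj h.symm)⟩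

/- MODULE RS3 -/
/-- the matched vertices -/
private noncomputable def RS3_W [DecidableEq V] (ν : ℕ) (x y : ℕ → V) : Finset V :=
  (Finset.range ν).image x ∪ (Finset.range ν).image y

private lemma RS3_injx {G : SimpleGraph V} {K : Finset V} {ν : ℕ} {x y : ℕ → V}
    (hM : Mat G K ν x y) : Set.InjOn x (Finset.range ν) := by
  intro i hi j hj hij
  rw [Finset.mem_coe, Finset.mem_range] at hi hj
  by_contra hne
  exact hM.xx i hi j hj hne hij

private lemma RS3_injy {G : SimpleGraph V} {K : Finset V} {ν : ℕ} {x y : ℕ → V}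
    (hM : Mat G K ν x y) : Set.InjOn y (Finset.range ν) := by
  intro i hi j hj hij
  rw [Finset.mem_coe, Finset.mem_range] at hi hj
  by_contra hne
  exact hM.yy i hi j hj hne hij

private lemma RS3_disj [DecidableEq V] {G : SimpleGraph V} {K : Finset V} {ν : ℕ} {x y : ℕ → V}
    (hM : Mat G K ν x y) : Disjoint ((Finset.range ν).image x) ((Finset.range ν).image y) := by
  rw [Finset.disjoint_left]
  intro v hv hv'
  obtain ⟨i, hi, rfl⟩ := Finset.mem_image.1 hv
  obtain ⟨j, hj, hj'⟩ := Finset.mem_image.1 hv'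
  exact hM.xy i (Finset.mem_range.1 hi) j (Finset.mem_range.1 hj) hj'.symm

private lemma RS3_sum [DecidableEq V] {G : SimpleGraph V} {K : Finset V} {ν : ℕ} {x y : ℕ → V}
    (hM : Mat G K ν x y) (f : V → ℕ) :
    ∑ v ∈ RS3_W ν x y, f v = ∑ i ∈ Finset.range ν, (f (x i) + f (y i)) := by
  unfold RS3_W
  rw [Finset.sum_union (RS3_disj hM), Finset.sum_image (RS3_injx hM),
    Finset.sum_image (RS3_injy hM), Finset.sum_add_distrib]

private lemma RS3_cardW [DecidableEq V] {G : SimpleGraph V} {K : Finset V} {ν : ℕ} {x y : ℕ → V}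
    (hM : Mat G K ν x y) : (RS3_W ν x y).card = 2 * ν := by
  rw [Finset.card_eq_sum_ones, RS3_sum hM, Finset.sum_const, Finset.card_range, smul_eq_mul]
  ring

private lemma RS3_memx [DecidableEq V] {ν : ℕ} (x y : ℕ → V) {i : ℕ} (hi : i < ν) :
    x i ∈ RS3_W ν x y :=
  Finset.mem_union_left _ (Finset.mem_image.2 ⟨i, Finset.mem_range.2 hi, rfl⟩)

private lemma RS3_memy [DecidableEq V] {ν : ℕ} (x y : ℕ → V) {i : ℕ} (hi : i < ν) :
    y i ∈ RS3_W ν x y :=
  Finset.mem_union_right _ (Finset.mem_image.2 ⟨i, Finset.mem_range.2 hi, rfl⟩)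

private lemma RS3_split [DecidableEq V] {G : SimpleGraph V} {K : Finset V} {ν : ℕ} {x y : ℕ → V}
    {I : Finset V} (h : MM G K ν x y I) : Disjoint (RS3_W ν x y) I ∧ RS3_W ν x y ∪ I = K := by
  constructor
  · rw [Finset.disjoint_left]
    intro v hv hvI
    have h1 := ((h.memI v).1 hvI).2
    rcases Finset.mem_union.1 hv with h2 | h2
    · obtain ⟨i, hi, rfl⟩ := Finset.mem_image.1 h2
      exact (h1 i (Finset.mem_range.1 hi)).1 rfl
    · obtain ⟨i, hi, rfl⟩ := Finset.mem_image.1 h2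
      exact (h1 i (Finset.mem_range.1 hi)).2 rfl
  · ext v
    rw [Finset.mem_union]
    constructor
    · rintro (h2 | h2)
      · rcases Finset.mem_union.1 h2 with h3 | h3
        · obtain ⟨i, hi, rfl⟩ := Finset.mem_image.1 h3
          exact h.mat.xK i (Finset.mem_range.1 hi)
        · obtain ⟨i, hi, rfl⟩ := Finset.mem_image.1 h3
          exact h.mat.yK i (Finset.mem_range.1 hi)
      · exact ((h.memI v).1 h2).1
    · intro hv
      by_cases h2 : v ∈ RS3_W ν x y
      · exact Or.inl h2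
      · refine Or.inr ((h.memI v).2 ⟨hv, fun i hi => ⟨?_, ?_⟩⟩)
        · rintro rfl
          exact h2 (RS3_memx x y hi)
        · rintro rfl
          exact h2 (RS3_memy x y hi)

private lemma RS3_volI {G : SimpleGraph V} {K : Finset V} {ν : ℕ} {x y : ℕ → V}
    {I : Finset V} (h : MM G K ν x y I) : vol G I = 0 := RS1_zero G I I h.indI

private lemma RS3_volK [DecidableEq V] {G : SimpleGraph V} {K : Finset V} {ν : ℕ} {x y : ℕ → V}
    {I : Finset V} (h : MM G K ν x y I) : vol G K = vol G (RS3_W ν x y) +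
      2 * ∑ i ∈ Finset.range ν, (dg G I (x i) + dg G I (y i)) := by
  obtain ⟨h1, h2⟩ := RS3_split h
  have h3 := RS1_vol G (RS3_W ν x y) I h1
  rw [h2, RS3_volI h, RS3_sum h.mat] at h3
  omega

/-- PROOF. `K` is the disjoint union of `I`, of the `x i` and of the `y i`. -/
theorem MM.card [DecidableEq V] {G : SimpleGraph V} {K : Finset V} {ν : ℕ} {x y : ℕ → V}
    {I : Finset V} (h : MM G K ν x y I) : K.card = 2 * ν + I.card := by
  obtain ⟨h1, h2⟩ := RS3_split h
  rw [← h2, Finset.card_union_of_disjoint h1, RS3_cardW h.mat]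

/-- THE BOUND OF ERDŐS AND GALLAI (weak form).
PROOF. `T` = the matched vertices, `|T| = 2 ν`; `J` = the `i` with `2 ≤ dg I (x i)`, `dg I (y i) = 0`, `ν1 = |J|`.
`vol K = vol T + vol I + 2 ∑_i (dg I (x i) + dg I (y i))` (`vol_union`), `vol I = 0`; the sum is at most
`ν1 |I| + 2 (ν - ν1)` by `two`.  `Y1 = {y i : i ∈ J}` is independent (`far`), so `dg T (y i) ≤ 2 ν - ν1` for `i ∈ J`, and
`dg T v ≤ 2 ν - 1` for the other `v ∈ T`: `vol T ≤ 2 ν (2 ν - 1) - ν1 (ν1 - 1)`.  Together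
`vol K ≤ 4 ν² + 2 ν - ν1² - 3 ν1 + 2 ν1 |I|`. -/
theorem MM.vol_le [DecidableEq V] {G : SimpleGraph V} {K : Finset V} {ν : ℕ} {x y : ℕ → V}
    {I : Finset V} (h : MM G K ν x y I) :
    ∃ ν1 ≤ ν, vol G K + ν1 ^ 2 ≤ 4 * ν ^ 2 + 2 * ν1 * I.card + 2 * ν := by
  classical
  set W := RS3_W ν x y with hW
  set J := (Finset.range ν).filter (fun i => 2 ≤ dg G I (x i) ∧ dg G I (y i) = 0) with hJ
  have hJν : J.card ≤ ν := by
    have := Finset.card_filter_le (Finset.range ν) (fun i => 2 ≤ dg G I (x i) ∧ dg G I (y i) = 0)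
    rwa [Finset.card_range] at this
  refine ⟨J.card, hJν, ?_⟩
  have hcW : W.card = 2 * ν := RS3_cardW h.mat
  -- degrees in `W`
  have hlt : ∀ v ∈ W, dg G W v + 1 ≤ 2 * ν := by
    intro v hv
    rw [← hcW]
    unfold dg
    refine Finset.card_lt_card ?_
    rw [Finset.ssubset_iff_of_subset (Finset.filter_subset _ _)]
    exact ⟨v, hv, fun h => (Finset.mem_filter.1 h).2.ne rfl⟩
  have hJd : ∀ i ∈ J, dg G W (y i) + J.card ≤ 2 * ν := by
    intro i hi
    obtain ⟨hi1, hi2, -⟩ := Finset.mem_filter.1 hi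
    rw [Finset.mem_range] at hi1
    have h1 : (J.image y).card = J.card := by
      refine Finset.card_image_of_injOn ?_
      intro a ha b hb hab
      have ha' : a ∈ Finset.range ν := (Finset.mem_filter.1 (Finset.mem_coe.1 ha)).1
      have hb' : b ∈ Finset.range ν := (Finset.mem_filter.1 (Finset.mem_coe.1 hb)).1
      exact RS3_injy h.mat (Finset.mem_coe.2 ha') (Finset.mem_coe.2 hb') hab
    rw [← h1, ← hcW]
    unfold dg
    rw [← Finset.card_union_of_disjoint]
    · refine Finset.card_le_card (Finset.union_subset (Finset.filter_subset _ _) ?_)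
      intro v hv
      obtain ⟨j, hj, rfl⟩ := Finset.mem_image.1 hv
      exact RS3_memy x y (Finset.mem_range.1 (Finset.mem_filter.1 hj).1)
    · rw [Finset.disjoint_left]
      intro v hv hv'
      obtain ⟨j, hj, rfl⟩ := Finset.mem_image.1 hv'
      obtain ⟨hj1, hj2, -⟩ := Finset.mem_filter.1 hj
      rw [Finset.mem_range] at hj1
      have hadj := (Finset.mem_filter.1 hv).2
      by_cases hij : i = j
      · subst hij
        exact hadj.ne rfl
      · exact h.far i hi1 j hj1 hij hi2 hj2 hadj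
  have hvW : vol G W = ∑ i ∈ Finset.range ν, (dg G W (x i) + dg G W (y i)) :=
    RS3_sum h.mat _
  have hterm : ∀ i ∈ Finset.range ν, (dg G W (x i) + dg G W (y i)) +
      2 * (dg G I (x i) + dg G I (y i)) + (if 2 ≤ dg G I (x i) ∧ dg G I (y i) = 0 then J.card else 0) ≤
      (4 * ν + 2) + (if 2 ≤ dg G I (x i) ∧ dg G I (y i) = 0 then 2 * I.card else 0) := by
    intro i hi
    have hi' := Finset.mem_range.1 hi
    have h1 := hlt _ (RS3_memx x y hi')
    have h2 := hlt _ (RS3_memy x y hi')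
    by_cases hc : 2 ≤ dg G I (x i) ∧ dg G I (y i) = 0
    · rw [if_pos hc, if_pos hc]
      have h3 := hJd i (Finset.mem_filter.2 ⟨hi, hc⟩)
      have h4 := dg_le_card G I (x i)
      have h5 := hc.2
      omega
    · rw [if_neg hc, if_neg hc]
      have h3 : dg G I (x i) + dg G I (y i) ≤ 2 := by
        rcases h.two i hi' with h4 | h4
        · exact h4
        · exact absurd h4 hc
      omega
  have hs := Finset.sum_le_sum hterm
  have hR : ∑ i ∈ Finset.range ν, ((4 * ν + 2) +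
      (if 2 ≤ dg G I (x i) ∧ dg G I (y i) = 0 then 2 * I.card else 0)) =
      ν * (4 * ν + 2) + J.card * (2 * I.card) := by
    rw [Finset.sum_add_distrib, ← Finset.sum_filter, Finset.sum_const, Finset.sum_const,
      Finset.card_range, smul_eq_mul, smul_eq_mul]
  have hL : ∑ i ∈ Finset.range ν, ((dg G W (x i) + dg G W (y i)) +
      2 * (dg G I (x i) + dg G I (y i)) +
      (if 2 ≤ dg G I (x i) ∧ dg G I (y i) = 0 then J.card else 0)) =
      vol G K + J.card * J.card := by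
    rw [Finset.sum_add_distrib, ← Finset.sum_filter, Finset.sum_const, smul_eq_mul,
      Finset.sum_add_distrib, ← hvW, ← Finset.mul_sum, RS3_volK h]
  rw [hR, hL] at hs
  have e1 : J.card ^ 2 = J.card * J.card := sq _
  have e2 : 4 * ν ^ 2 + 2 * J.card * I.card + 2 * ν = ν * (4 * ν + 2) + J.card * (2 * I.card) := by
    ring
  rw [e1, e2]
  exact hs

/- MODULE RS4 -/
/-- NEAR-EXTREMAL TRIANGLE-FREE GRAPHS WITH GIVEN MATCHING NUMBER.
PROOF. `T` = the matched vertices.  `vol T ≤ 2 ν²` (`vol_le_of_triangle_free` for `T`), so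
`vol K ≤ 2 ν² + 2 ∑_i e_i`, `e_i = dg I (x i) + dg I (y i)`; hence `∑_i 2 (|I| - e_i) ≤ δ`; all `e_i ≤ |I|` (no common
neighbours of `x i`, `y i`: triangle-free).  Good `i`: `3 dg I (x i) > 2 |I|`.  A good `i` has
`dg I (x i) ≥ 3`, so by `two` `dg I (y i) = 0`.  A bad `i` has `e_i ≤ (2/3) |I|` (by `two`: `e_i ≤ 2 ≤ (2/3) |I|` or
`e_i = dg I (x i)`).  So `2 |I| · #bad ≤ 3 δ`.  `P = {x i : i good}`: two elements have a common
neighbour in `I`, so they are not adjacent (no triangle): `vol P = 0`.  `Q = I ∪ {y i : i good}`: `vol Q = 0`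
by `indI`, `dg I (y i) = 0`, `far`.  `|K ∖ (P ∪ Q)| = 2 #bad`. -/
theorem near_extremal [DecidableEq V] {G : SimpleGraph V} {K : Finset V} {ν : ℕ} {x y : ℕ → V}
    {I : Finset V} (h : MM G K ν x y I)
    (htri : ∀ a ∈ K, ∀ b ∈ K, ∀ c ∈ K, G.Adj a b → G.Adj b c → ¬ G.Adj a c) (hI : 3 ≤ I.card)
    (δ : ℝ) (hδ : 2 * ((ν : ℝ) * (ν + I.card)) ≤ (vol G K : ℝ) + δ) :
    ∃ P Q : Finset V, P ⊆ K ∧ Q ⊆ K ∧ Disjoint P Q ∧ P.card ≤ ν ∧ vol G P = 0 ∧ vol G Q = 0 ∧
      (I.card : ℝ) * ((K \ (P ∪ Q)).card : ℝ) ≤ 3 * δ := by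
  classical
  set W := RS3_W ν x y with hW
  obtain ⟨hWI, hWIK⟩ := RS3_split h
  have hWK : W ⊆ K := by
    rw [← hWIK]
    exact Finset.subset_union_left
  have hIK : I ⊆ K := by
    rw [← hWIK]
    exact Finset.subset_union_right
  have hcW : W.card = 2 * ν := RS3_cardW h.mat
  have hMW : Mat G W ν x y := ⟨fun i hi => RS3_memx x y hi, fun i hi => RS3_memy x y hi,
    h.mat.adj, h.mat.xx, h.mat.yy, h.mat.xy⟩
  have hvW : (vol G W : ℝ) ≤ 2 * ν * ν := by
    have h1 := (vol_le_of_triangle_free G W ν x y hMW (by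
      intro u hu w _ hu' _ _
      rcases Finset.mem_union.1 hu with h3 | h3
      · obtain ⟨i, hi, rfl⟩ := Finset.mem_image.1 h3
        exact (hu' i (Finset.mem_range.1 hi)).1 rfl
      · obtain ⟨i, hi, rfl⟩ := Finset.mem_image.1 h3
        exact (hu' i (Finset.mem_range.1 hi)).2 rfl)
      (fun a ha b hb c hc => htri a (hWK ha) b (hWK hb) c (hWK hc))).1
    rw [hcW] at h1
    push_cast at h1
    have e : (2 * (ν : ℝ) - ν) = ν := by ring
    rwa [e] at h1
  have hvK : (vol G K : ℝ) = vol G W +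
      2 * ∑ i ∈ Finset.range ν, ((dg G I (x i) : ℝ) + (dg G I (y i) : ℝ)) := by
    have := RS3_volK h
    exact_mod_cast this
  have hsum : ∑ i ∈ Finset.range ν, 2 * ((I.card : ℝ) -
      ((dg G I (x i) : ℝ) + (dg G I (y i) : ℝ))) ≤ δ := by
    rw [← Finset.mul_sum, Finset.sum_sub_distrib, Finset.sum_const, Finset.card_range,
      nsmul_eq_mul]
    rw [hvK] at hδ
    linarith
  have hnb : ∀ i < ν, ∀ w ∈ I, G.Adj (x i) w → ¬ G.Adj (y i) w := by
    intro i hi w hw h1 h2
    exact htri (x i) (h.mat.xK i hi) (y i) (h.mat.yK i hi) w (hIK hw) (h.mat.adj i hi) h2 h1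
  have he : ∀ i < ν, dg G I (x i) + dg G I (y i) ≤ I.card := by
    intro i hi
    unfold dg
    rw [← Finset.card_union_of_disjoint]
    · exact Finset.card_le_card (Finset.union_subset (Finset.filter_subset _ _)
        (Finset.filter_subset _ _))
    · rw [Finset.disjoint_left]
      intro w hw hw'
      rw [Finset.mem_filter] at hw hw'
      exact hnb i hi w hw.1 hw.2 hw'.2
  set Gd := (Finset.range ν).filter (fun i => 2 * I.card < 3 * dg G I (x i)) with hGd
  set Bd := (Finset.range ν).filter (fun i => ¬ 2 * I.card < 3 * dg G I (x i)) with hBd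
  have hgood : ∀ i ∈ Gd, i < ν ∧ 3 ≤ dg G I (x i) ∧ dg G I (y i) = 0 ∧
      2 * I.card < 3 * dg G I (x i) := by
    intro i hi
    obtain ⟨hi1, hi2⟩ := Finset.mem_filter.1 hi
    have hi1' := Finset.mem_range.1 hi1
    have h3 : 3 ≤ dg G I (x i) := by omega
    refine ⟨hi1', h3, ?_, hi2⟩
    rcases h.two i hi1' with h4 | h4
    · omega
    · exact h4.2
  have hbad : (I.card : ℝ) * (2 * (Bd.card : ℝ)) ≤ 3 * δ := by
    have h1 : ∑ i ∈ Bd, (2 / 3 * (I.card : ℝ)) ≤ ∑ i ∈ Finset.range ν, 2 * ((I.card : ℝ) -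
        ((dg G I (x i) : ℝ) + (dg G I (y i) : ℝ))) := by
      refine le_trans (Finset.sum_le_sum (g := fun i => 2 * ((I.card : ℝ) -
        ((dg G I (x i) : ℝ) + (dg G I (y i) : ℝ)))) ?_) ?_
      · intro i hi
        obtain ⟨hi1, hi2⟩ := Finset.mem_filter.1 hi
        have hi1' := Finset.mem_range.1 hi1
        have h3 : 3 * (dg G I (x i) + dg G I (y i)) ≤ 2 * I.card := by
          rcases h.two i hi1' with h4 | h4
          · omega
          · have := h4.2
            omega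
        have h4 : 3 * ((dg G I (x i) : ℝ) + dg G I (y i)) ≤ 2 * I.card := by exact_mod_cast h3
        linarith
      · refine Finset.sum_le_sum_of_subset_of_nonneg (Finset.filter_subset _ _) ?_
        intro i hi _
        have h3 := he i (Finset.mem_range.1 hi)
        have h4 : (dg G I (x i) : ℝ) + dg G I (y i) ≤ I.card := by exact_mod_cast h3
        linarith
    rw [Finset.sum_const, nsmul_eq_mul] at h1
    linarith
  refine ⟨Gd.image x, I ∪ Gd.image y, ?_, ?_, ?_, ?_, ?_, ?_, ?_⟩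
  · intro v hv
    obtain ⟨i, hi, rfl⟩ := Finset.mem_image.1 hv
    exact h.mat.xK i (hgood i hi).1
  · refine Finset.union_subset hIK ?_
    intro v hv
    obtain ⟨i, hi, rfl⟩ := Finset.mem_image.1 hv
    exact h.mat.yK i (hgood i hi).1
  · rw [Finset.disjoint_left]
    intro v hv hv'
    obtain ⟨i, hi, rfl⟩ := Finset.mem_image.1 hv
    rcases Finset.mem_union.1 hv' with h1 | h1
    · exact (((h.memI _).1 h1).2 i (hgood i hi).1).1 rfl
    · obtain ⟨j, hj, hj'⟩ := Finset.mem_image.1 h1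
      exact h.mat.xy i (hgood i hi).1 j (hgood j hj).1 hj'.symm
  · refine Finset.card_image_le.trans ?_
    have := Finset.card_filter_le (Finset.range ν) (fun i => 2 * I.card < 3 * dg G I (x i))
    rwa [Finset.card_range] at this
  · refine RS1_zero G _ _ ?_
    intro a ha b hb hab
    obtain ⟨i, hi, rfl⟩ := Finset.mem_image.1 ha
    obtain ⟨j, hj, rfl⟩ := Finset.mem_image.1 hb
    obtain ⟨hi1, -, -, hi4⟩ := hgood i hi
    obtain ⟨hj1, -, -, hj4⟩ := hgood j hj
    obtain ⟨w, hw⟩ : ((I.filter (fun w => G.Adj (x i) w)) ∩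
        (I.filter (fun w => G.Adj (x j) w))).Nonempty := by
      rw [← Finset.card_pos]
      unfold dg at hi4 hj4
      have h1 := Finset.card_union_add_card_inter (I.filter (fun w => G.Adj (x i) w))
        (I.filter (fun w => G.Adj (x j) w))
      have h2 : ((I.filter (fun w => G.Adj (x i) w)) ∪
        (I.filter (fun w => G.Adj (x j) w))).card ≤ I.card := Finset.card_le_card
          (Finset.union_subset (Finset.filter_subset _ _) (Finset.filter_subset _ _))
      omega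
    rw [Finset.mem_inter, Finset.mem_filter, Finset.mem_filter] at hw
    exact htri (x i) (h.mat.xK i hi1) (x j) (h.mat.xK j hj1) w (hIK hw.1.1) hab hw.2.2 hw.1.2
  · refine RS1_zero G _ _ ?_
    have hIy : ∀ a ∈ I, ∀ j ∈ Gd, ¬ G.Adj a (y j) := by
      intro a ha j hj hadj
      have h1 := (hgood j hj).2.2.1
      unfold dg at h1
      rw [Finset.card_eq_zero, Finset.filter_eq_empty_iff] at h1
      exact h1 ha hadj.symm
    intro a ha b hb hab
    rcases Finset.mem_union.1 ha with ha | ha <;> rcases Finset.mem_union.1 hb with hb | hb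
    · exact h.indI a ha b hb hab
    · obtain ⟨j, hj, rfl⟩ := Finset.mem_image.1 hb
      exact hIy a ha j hj hab
    · obtain ⟨j, hj, rfl⟩ := Finset.mem_image.1 ha
      exact hIy b hb j hj hab.symm
    · obtain ⟨i, hi, rfl⟩ := Finset.mem_image.1 ha
      obtain ⟨j, hj, rfl⟩ := Finset.mem_image.1 hb
      by_cases hij : i = j
      · subst hij
        exact hab.ne rfl
      · have h1 := (hgood i hi).2.1
        have h2 := (hgood j hj).2.1
        exact h.far i (hgood i hi).1 j (hgood j hj).1 hij (by omega) (by omega) hab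
  · have h1 : K \ (Gd.image x ∪ (I ∪ Gd.image y)) ⊆ Bd.image x ∪ Bd.image y := by
      intro v hv
      rw [Finset.mem_sdiff, Finset.mem_union, Finset.mem_union] at hv
      obtain ⟨hvK, hv⟩ := hv
      push Not at hv
      obtain ⟨hv1, hv2, hv3⟩ := hv
      rw [← hWIK] at hvK
      rcases Finset.mem_union.1 hvK with h2 | h2
      · rcases Finset.mem_union.1 h2 with h3 | h3
        · obtain ⟨i, hi, rfl⟩ := Finset.mem_image.1 h3
          refine Finset.mem_union_left _ (Finset.mem_image.2 ⟨i, Finset.mem_filter.2 ⟨hi, ?_⟩, rfl⟩)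
          exact fun h4 => hv1 (Finset.mem_image.2 ⟨i, Finset.mem_filter.2 ⟨hi, h4⟩, rfl⟩)
        · obtain ⟨i, hi, rfl⟩ := Finset.mem_image.1 h3
          refine Finset.mem_union_right _ (Finset.mem_image.2 ⟨i, Finset.mem_filter.2 ⟨hi, ?_⟩, rfl⟩)
          exact fun h4 => hv3 (Finset.mem_image.2 ⟨i, Finset.mem_filter.2 ⟨hi, h4⟩, rfl⟩)
      · exact absurd h2 hv2
    have h2 : (K \ (Gd.image x ∪ (I ∪ Gd.image y))).card ≤ 2 * Bd.card := by
      refine (Finset.card_le_card h1).trans ((Finset.card_union_le _ _).trans ?_)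
      have h3 := Finset.card_image_le (s := Bd) (f := x)
      have h4 := Finset.card_image_le (s := Bd) (f := y)
      omega
    have h3 : ((K \ (Gd.image x ∪ (I ∪ Gd.image y))).card : ℝ) ≤ 2 * Bd.card := by
      exact_mod_cast h2
    exact (mul_le_mul_of_nonneg_left h3 (Nat.cast_nonneg _)).trans hbad

/- MODULE RS5 -/
/-- NUMERICAL LEMMA for `range1`.
PROOF. `x = μ/r ≤ 1/(2 + η0)`, so `1 - x ≥ (1 + η0) x`; `28 C θ ≤ η0/2`.  `F(t) = t (1 - t/r)` is increasing
on `[0, r/2]`, and `(1 + θ) μ ≤ r/2`.  From the hypothesis (divide by `r c`):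
`(1 - θ) μ (1 - x) ≤ ν (1 - ν/c) ≤ F(ν)`.
(i) If `ν < (1 - τ) μ`, `τ = 3 θ/η0 ≤ 1/40`: `F(ν) ≤ (1 - τ) μ (1 - (1 - τ) x)`, so
`(1 - θ)(1 - x) ≤ (1 - τ)(1 - x) + (1 - τ) τ x`, `(τ - θ)(1 - x) ≤ τ x`, `(τ - θ)(1 + η0) ≤ τ` (`x > 0`),
`τ η0 ≤ θ (1 + η0) ≤ 2 θ`: contradiction.
(ii) If `c < (1 - 9 C θ) r`: `1/c ≥ (1 + 9 C θ)/r`, so `ν - ν²/c ≤ F(ν) - 9 C θ ν²/r` and
`F(ν) ≤ (1 + θ) μ (1 - x)`; so `9 C θ ν²/r ≤ 2 θ μ`, but `ν² ≥ (9/10) μ²` and `r ≤ C μ`:
`9 C θ ν²/r ≥ 8.1 θ μ`: contradiction.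
(iii) `c - 2 ν ≥ (1 - 9 C θ)(2 + η0) μ - 2 (1 + θ) μ ≥ (η0 - 27 C θ - 2 θ) μ ≥ (η0/2) μ`.
(iv) `ν (c - ν) ≤ ν (r - ν) ≤ (1 + θ) μ (r - μ)`, `(1 - θ) μ (r - μ) c/r ≥ (1 - θ - 9 C θ) μ (r - μ)`; the difference is
at most `(2 θ + 9 C θ) μ r ≤ 10 C θ μ r`. -/
theorem range1_numeric (r μ C η0 θ c ν : ℝ) (hη : 0 < η0) (hη1 : η0 ≤ 1) (hC : 2 ≤ C)
    (hθ : 0 < θ) (hθ1 : 60 * C * θ ≤ η0) (hμ : 0 < μ) (h1 : (2 + η0) * μ ≤ r) (h2 : r ≤ C * μ)
    (hc : 0 < c) (hcr : c ≤ r) (hν0 : 0 ≤ ν) (hν : ν ≤ (1 + θ) * μ) (hνc : 2 * ν ≤ c)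
    (h : (1 - θ) * (μ * (r - μ)) * c ≤ r * (ν * (c - ν))) :
    (1 - 3 * θ / η0) * μ ≤ ν ∧ (1 - 9 * C * θ) * r ≤ c ∧ η0 / 2 * μ ≤ c - 2 * ν ∧
      ν * (c - ν) - (1 - θ) * (μ * (r - μ)) * c / r ≤ 10 * C * θ * (μ * r) := by
  have hr : 0 < r := lt_of_lt_of_le (mul_pos (by linarith) hμ) h1
  have hCθ : 2 * θ ≤ C * θ := mul_le_mul_of_nonneg_right hC hθ.le
  have hθs : θ ≤ 1 / 120 := by linarith
  have hA : r * (ν * (c - ν)) ≤ c * (ν * (r - ν)) := by
    linarith [mul_nonneg (mul_nonneg hν0 hν0) (sub_nonneg.2 hcr)]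
  have hB : (1 - θ) * (μ * (r - μ)) ≤ ν * (r - ν) := by
    have h3 : c * ((1 - θ) * (μ * (r - μ))) ≤ c * (ν * (r - ν)) := by linarith
    exact le_of_mul_le_mul_left h3 hc
  have hrμ : (1 + η0) * μ ≤ r - μ := by linarith
  have hrμ0 : 0 ≤ r - μ := le_trans (mul_nonneg (by linarith) hμ.le) hrμ
  have hsum : 0 ≤ r - (1 + θ) * μ - ν := by
    have := mul_le_mul_of_nonneg_right (show 2 * θ ≤ η0 by linarith) hμ.le
    linarith
  have hF : ν * (r - ν) ≤ (1 + θ) * (μ * (r - μ)) := by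
    have h3 : 0 ≤ ((1 + θ) * μ - ν) * (r - (1 + θ) * μ - ν) :=
      mul_nonneg (sub_nonneg.2 hν) hsum
    have h4 : 0 ≤ θ * μ * ((1 + θ) * μ) := by positivity
    linarith
  obtain ⟨τ, hτ⟩ : ∃ τ : ℝ, τ = 3 * θ / η0 := ⟨_, rfl⟩
  have hτη : τ * η0 = 3 * θ := by
    rw [hτ]
    field_simp
  have hτ0 : 0 < τ := by
    rw [hτ]
    positivity
  have hτ1 : τ ≤ 1 / 40 := by
    rw [hτ, div_le_iff₀ hη]
    linarith
  have hτθ : 3 * θ ≤ τ := by
    rw [← hτη]
    have := mul_le_mul_of_nonneg_left hη1 hτ0.le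
    linarith
  have c1 : (1 - τ) * μ ≤ ν := by
    by_contra hcon
    push Not at hcon
    have h3 : 0 ≤ ((1 - τ) * μ - ν) * (r - (1 - τ) * μ - ν) := by
      refine mul_nonneg (by linarith) ?_
      linarith [mul_pos hτ0 hμ, mul_pos hη hμ]
    have h4 : (1 - θ) * (μ * (r - μ)) ≤ (1 - τ) * μ * (r - (1 - τ) * μ) := by linarith
    have h5 : μ * ((1 - θ) * (r - μ)) ≤ μ * ((1 - τ) * (r - μ + τ * μ)) := by linarith
    have h6 := le_of_mul_le_mul_left h5 hμ
    have h7 : (τ - θ) * (r - μ) ≤ (1 - τ) * (τ * μ) := by linarith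
    have h8 : (τ - θ) * ((1 + η0) * μ) ≤ (τ - θ) * (r - μ) :=
      mul_le_mul_of_nonneg_left hrμ (by linarith)
    have h9 : (1 - τ) * (τ * μ) ≤ τ * μ := by
      have : 0 ≤ τ * (τ * μ) := by positivity
      linarith
    have h10 : μ * ((τ - θ) * (1 + η0)) ≤ μ * τ := by linarith
    have h11 := le_of_mul_le_mul_left h10 hμ
    have h12 : θ * η0 ≤ θ * 1 := mul_le_mul_of_nonneg_left hη1 hθ.le
    linarith
  have c2 : (1 - 9 * C * θ) * r ≤ c := by
    by_contra hcon
    push Not at hcon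
    obtain ⟨A, hAd⟩ : ∃ A : ℝ, A = r * ν - (1 - θ) * (μ * (r - μ)) := ⟨_, rfl⟩
    have h3 : r * ν ^ 2 ≤ c * A := by
      rw [hAd]
      linarith
    have h4 : 0 ≤ A := by
      have h5 : 0 ≤ c * A := le_trans (by positivity) h3
      exact nonneg_of_mul_nonneg_right h5 hc
    have h5 : c * A ≤ (1 - 9 * C * θ) * r * A := mul_le_mul_of_nonneg_right hcon.le h4
    have h6 : r * ν ^ 2 ≤ r * ((1 - 9 * C * θ) * A) := by linarith
    have h7 := le_of_mul_le_mul_left h6 hr
    have h8 : A - ν ^ 2 ≤ 2 * θ * (μ * (r - μ)) := by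
      rw [hAd]
      linarith
    have h9 : μ * (r - μ) ≤ μ * (C * μ) := mul_le_mul_of_nonneg_left (by linarith) hμ.le
    have h10 : 2 * θ * (μ * (r - μ)) ≤ 2 * θ * (μ * (C * μ)) :=
      mul_le_mul_of_nonneg_left h9 (by positivity)
    have hCθ0 : 0 < C * θ := mul_pos (by linarith) hθ
    have h11 : ν ^ 2 ≤ A := by
      have : 0 ≤ 9 * (C * θ) * A := by positivity
      linarith
    have h12 : 9 * (C * θ) * ν ^ 2 ≤ 9 * (C * θ) * A :=
      mul_le_mul_of_nonneg_left h11 (by positivity)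
    have h13 : C * θ * (9 * ν ^ 2) ≤ C * θ * (2 * μ ^ 2) := by linarith
    have h14 := le_of_mul_le_mul_left h13 hCθ0
    have h15 : 39 / 40 * μ ≤ ν := by
      have := mul_le_mul_of_nonneg_right hτ1 hμ.le
      linarith
    have h16 : (39 / 40 * μ) * (39 / 40 * μ) ≤ ν * ν :=
      mul_self_le_mul_self (by positivity) h15
    have h17 : 0 < μ * μ := mul_pos hμ hμ
    linarith
  have hCμ : 9 * C * θ ≤ 1 := by
    linarith
  have c3 : η0 / 2 * μ ≤ c - 2 * ν := by
    have h3 : (1 - 9 * C * θ) * ((2 + η0) * μ) ≤ (1 - 9 * C * θ) * r :=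
      mul_le_mul_of_nonneg_left h1 (by linarith)
    have h4 : 9 * (C * θ) * ((2 + η0) * μ) ≤ 9 * (C * θ) * (3 * μ) := by
      refine mul_le_mul_of_nonneg_left ?_ (by linarith [hCθ, hθ])
      exact mul_le_mul_of_nonneg_right (by linarith) hμ.le
    have h5 : (60 * C * θ) * μ ≤ η0 * μ := mul_le_mul_of_nonneg_right hθ1 hμ.le
    have h6 : 2 * θ * μ ≤ C * θ * μ := mul_le_mul_of_nonneg_right hCθ hμ.le
    have h7 : 0 ≤ C * θ * μ := by
      have := mul_pos hθ hμ
      linarith [this]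
    linarith
  have c4 : ν * (c - ν) - (1 - θ) * (μ * (r - μ)) * c / r ≤ 10 * C * θ * (μ * r) := by
    have h3 : ν * (c - ν) ≤ ν * (r - ν) := mul_le_mul_of_nonneg_left (by linarith) hν0
    have hM0 : 0 ≤ μ * (r - μ) := mul_nonneg hμ.le hrμ0
    have h4 : (1 - θ) * (μ * (r - μ)) * (1 - 9 * C * θ) ≤ (1 - θ) * (μ * (r - μ)) * c / r := by
      rw [le_div_iff₀ hr]
      have h5 : (1 - θ) * (μ * (r - μ)) * ((1 - 9 * C * θ) * r) ≤
          (1 - θ) * (μ * (r - μ)) * c :=
        mul_le_mul_of_nonneg_left c2 (mul_nonneg (by linarith) hM0)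
      linarith
    have h6 : 0 ≤ θ * (μ * (r - μ)) * (9 * C * θ) := by
      have : 0 ≤ C * θ := by linarith
      have h7 : 0 ≤ θ * (μ * (r - μ)) := mul_nonneg hθ.le hM0
      exact mul_nonneg h7 (by linarith)
    have h8 : C * θ * (μ * (r - μ)) ≤ C * θ * (μ * r) := by
      refine mul_le_mul_of_nonneg_left ?_ (by linarith)
      exact mul_le_mul_of_nonneg_left (by linarith) hμ.le
    have h9 : 2 * θ * (μ * (r - μ)) ≤ C * θ * (μ * (r - μ)) :=
      mul_le_mul_of_nonneg_right hCθ hM0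
    linarith
  rw [← hτ]
  exact ⟨c1, c2, c3, c4⟩

/- MODULE RS6 -/
private lemma RS6_union {ι : Type*} [Fintype ι] [DecidableEq ι] (R : SimpleGraph ι)
    (Q Z : Finset ι) (h : Disjoint Q Z) :
    vol R (Q ∪ Z) ≤ vol R Q + 2 * Z.card * Fintype.card ι := by
  rw [RS1_vol R Q Z h, RS1_comm R Q Z]
  have h1 : vol R Z + 2 * ∑ z ∈ Z, dg R Q z ≤ ∑ _z ∈ Z, 2 * Fintype.card ι := by
    unfold vol
    rw [Finset.mul_sum, ← Finset.sum_add_distrib]
    refine Finset.sum_le_sum fun z _ => ?_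
    have h2 := RS1_dgu R Q Z h z
    have h3 := (dg_le_card R (Q ∪ Z) z).trans (Finset.card_le_univ _)
    omega
  rw [Finset.sum_const, smul_eq_mul] at h1
  have h2 : 2 * Z.card * Fintype.card ι = Z.card * (2 * Fintype.card ι) := by ring
  omega

private lemma RS6_hI {ι : Type*} {R : SimpleGraph ι} {K : Finset ι} {ν : ℕ} {x y : ℕ → ι}
    {I : Finset ι} (h : MM R K ν x y I) :
    ∀ u ∈ K, ∀ w ∈ K, (∀ i < ν, u ≠ x i ∧ u ≠ y i) → (∀ i < ν, w ≠ x i ∧ w ≠ y i) →
      ¬ R.Adj u w := by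
  intro u hu w hw hu' hw'
  exact h.indI u ((h.memI u).2 ⟨hu, hu'⟩) w ((h.memI w).2 ⟨hw, hw'⟩)

private lemma RS6_haug {ι : Type*} {R : SimpleGraph ι} {K : Finset ι} {ν : ℕ} {x y : ℕ → ι}
    {I : Finset ι} (h : MM R K ν x y I) :
    ∀ i < ν, ∀ u ∈ K, ∀ w ∈ K, (∀ i < ν, u ≠ x i ∧ u ≠ y i) →
      (∀ i < ν, w ≠ x i ∧ w ≠ y i) → R.Adj u (x i) → R.Adj w (y i) → u = w := by
  intro i hi u hu w hw hu' hw' h1 h2
  exact h.aug i hi u ((h.memI u).2 ⟨hu, hu'⟩) w ((h.memI w).2 ⟨hw, hw'⟩) h1 h2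

/-- RANGE I: the reduced graph is nearly bipartite, with one side of size at most about `μ`.
PROOF. `θ = min (η0/(60 C)) (θ' η0/(300 C))`.  `r = |ι|`.  `exists_component`: `K`, `c = |K|`,
`vol K ≥ 2 (1 - θ) μ (r - μ) c/r`.  `exists_MM` for `K`: `ν ≤ (1 + θ) μ` by `h3`.
If `K` has a triangle: `vol_le_of_matching` gives `vol K ≤ 2 ν c ≤ (1 + θ) μ c`, so `2 (1 - θ)(1 - μ/r) ≤ 1 + θ`, but
`1 - μ/r ≥ (1 + η0)/(2 + η0) ≥ 1/2 + η0/6`: `(1 - θ)(1 + η0/3) > 1 + θ` since `θ ≤ η0/120`: contradiction.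
So `K` is triangle-free: `vol_le_of_triangle_free`: `vol K ≤ 2 ν (c - ν)`, `2 ν ≤ c`, and `range1_numeric` applies:
`|I| = c - 2 ν ≥ (η0/2) μ ≥ 3`, `c ≥ (1 - 9 C θ) r`, `2 ν (ν + |I|) = 2 ν (c - ν) ≤ vol K + δ`, `δ = 20 C θ μ r`.
`near_extremal`: `P`, `Q`, `|K ∖ (P ∪ Q)| ≤ 3 δ/|I| ≤ 120 C θ r/η0`.  `|P| ≤ ν`.  The complement of `P` is the union of
`Q` and a set `Z` with at most `9 C θ r + 120 C θ r/η0` elements; `vol (Pᶜ) ≤ vol Q + 2 |Z| r ≤
(18 C + 240 C/η0) θ r² ≤ (260 C/η0) θ r² ≤ θ' r²`. -/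
theorem range1 (C η0 θ' : ℝ) (hC : 2 ≤ C) (hη : 0 < η0) (hη1 : η0 ≤ 1) (hθ' : 0 < θ') (hθ1 : θ' ≤ 1) :
    ∃ θ : ℝ, 0 < θ ∧ θ ≤ θ' ∧ ∀ (ι : Type u) [Fintype ι] [DecidableEq ι] (R : SimpleGraph ι) (μ : ℝ),
      6 ≤ η0 * μ → (2 + η0) * μ ≤ (Fintype.card ι : ℝ) → (Fintype.card ι : ℝ) ≤ C * μ →
      2 * (1 - θ) * (μ * ((Fintype.card ι : ℝ) - μ)) ≤ (vol R Finset.univ : ℝ) →
      (∀ K ν x y, Conn R K 0 → Mat R K ν x y → (ν : ℝ) ≤ (1 + θ) * μ) →
      (∀ K ν x y, Conn R K 0 → Mat R K ν x y →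
        (∃ a ∈ K, ∃ b ∈ K, ∃ c ∈ K, R.Adj a b ∧ R.Adj b c ∧ R.Adj a c) →
        2 * (ν : ℝ) ≤ (1 + θ) * μ) →
      ∃ P : Finset ι, (P.card : ℝ) ≤ (1 + θ') * μ ∧
        (vol R P : ℝ) ≤ θ' * (Fintype.card ι : ℝ) ^ 2 ∧
        (vol R (Finset.univ \ P) : ℝ) ≤ θ' * (Fintype.card ι : ℝ) ^ 2 := by
  have hC0 : 0 < C := by linarith
  obtain ⟨θ, hθd⟩ : ∃ θ : ℝ, θ = θ' * η0 / (300 * C) := ⟨_, rfl⟩
  have hθ : 0 < θ := by
    rw [hθd]
    positivity
  have hCθ : 300 * C * θ = θ' * η0 := by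
    rw [hθd]
    field_simp
  have hCθ0 : 0 < C * θ := mul_pos hC0 hθ
  have hCθ2 : 2 * θ ≤ C * θ := mul_le_mul_of_nonneg_right hC hθ.le
  have hθη : θ' * η0 ≤ θ' := mul_le_of_le_one_right hθ'.le hη1
  have hθη' : θ' * η0 ≤ η0 := mul_le_of_le_one_left hη.le hθ1
  have hθθ' : θ ≤ θ' := by linarith
  refine ⟨θ, hθ, hθθ', ?_⟩
  intro ι _ _ R μ h6 h1 h2 hvol h3 h4
  obtain ⟨r, hr⟩ : ∃ r : ℝ, r = (Fintype.card ι : ℝ) := ⟨_, rfl⟩
  rw [← hr] at h1 h2 hvol ⊢
  have hμ : 0 < μ := by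
    by_contra hcon
    push Not at hcon
    have : η0 * μ ≤ 0 := mul_nonpos_of_nonneg_of_nonpos hη.le hcon
    linarith
  have hr0 : 0 < r := lt_of_lt_of_le (mul_pos (by linarith) hμ) h1
  have hne : Nonempty ι := by
    rw [← Fintype.card_pos_iff]
    rw [hr] at hr0
    exact_mod_cast hr0
  obtain ⟨K, hKne, hconn, hclosed, hvolK⟩ := exists_component R
  obtain ⟨c, hcd⟩ : ∃ c : ℝ, c = (K.card : ℝ) := ⟨_, rfl⟩
  have hc0 : 0 < c := by
    rw [hcd]
    exact_mod_cast hKne.card_pos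
  have hcr : c ≤ r := by
    rw [hcd, hr]
    exact_mod_cast Finset.card_le_univ K
  have hvK : 2 * (1 - θ) * (μ * (r - μ)) * c ≤ (vol R K : ℝ) * r := by
    have h5 : (vol R Finset.univ : ℝ) * c ≤ (vol R K : ℝ) * r := by
      rw [hcd, hr]
      exact_mod_cast hvolK
    exact le_trans (mul_le_mul_of_nonneg_right hvol hc0.le) h5
  obtain ⟨ν, x, y, I, hMM⟩ := exists_MM R K
  have hν := h3 K ν x y hconn hMM.mat
  have hcard : c = 2 * (ν : ℝ) + (I.card : ℝ) := by
    rw [hcd]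
    exact_mod_cast hMM.card
  by_cases htri : ∃ a ∈ K, ∃ b ∈ K, ∃ c ∈ K, R.Adj a b ∧ R.Adj b c ∧ R.Adj a c
  · exfalso
    have h5 := h4 K ν x y hconn hMM.mat htri
    have h7 : (vol R K : ℝ) ≤ 2 * ν * c := by
      rw [hcd]
      exact_mod_cast vol_le_of_matching R K ν x y hMM.mat (RS6_hI hMM) (RS6_haug hMM)
    have h8 : (vol R K : ℝ) ≤ (1 + θ) * μ * c :=
      le_trans h7 (mul_le_mul_of_nonneg_right h5 hc0.le)
    have h9 : (vol R K : ℝ) * r ≤ (1 + θ) * μ * c * r := mul_le_mul_of_nonneg_right h8 hr0.le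
    have h10 : (μ * c) * (2 * (1 - θ) * (r - μ)) ≤ (μ * c) * ((1 + θ) * r) := by linarith
    have h11 := le_of_mul_le_mul_left h10 (mul_pos hμ hc0)
    have h12 : (1 - 3 * θ) * ((2 + η0) * μ) ≤ (1 - 3 * θ) * r := by
      refine mul_le_mul_of_nonneg_left h1 ?_
      linarith
    have h13 : μ * ((1 - 3 * θ) * (2 + η0)) ≤ μ * (2 * (1 - θ)) := by linarith
    have h14 := le_of_mul_le_mul_left h13 hμ
    have h15 : θ * η0 ≤ θ * 1 := mul_le_mul_of_nonneg_left hη1 hθ.le
    linarith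
  · push Not at htri
    obtain ⟨h5, h7⟩ := vol_le_of_triangle_free R K ν x y hMM.mat (RS6_hI hMM)
      (fun a ha b hb c hc hab hbc => htri a ha b hb c hc hab hbc)
    rw [← hcd] at h5
    have h7' : 2 * (ν : ℝ) ≤ c := by
      rw [hcd]
      exact_mod_cast h7
    have hnum : (1 - θ) * (μ * (r - μ)) * c ≤ r * (ν * (c - ν)) := by
      have h8 : (vol R K : ℝ) * r ≤ 2 * ν * (c - ν) * r := mul_le_mul_of_nonneg_right h5 hr0.le
      linarith
    obtain ⟨-, n2, n3, n4⟩ := range1_numeric r μ C η0 θ c ν hη hη1 hC hθ (by linarith) hμ h1 h2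
      hc0 hcr (Nat.cast_nonneg _) hν h7' hnum
    have hI3 : 3 ≤ I.card := by
      have h8 : (3 : ℝ) ≤ (I.card : ℝ) := by linarith
      exact_mod_cast h8
    have hδ : 2 * ((ν : ℝ) * (ν + I.card)) ≤ (vol R K : ℝ) + 20 * C * θ * (μ * r) := by
      have h8 : (1 - θ) * (μ * (r - μ)) * c / r ≤ (vol R K : ℝ) / 2 := by
        rw [div_le_iff₀ hr0]
        linarith
      have h9 : (ν : ℝ) * (ν + I.card) = ν * (c - ν) := by
        rw [hcard]
        ring
      rw [h9]
      linarith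
    obtain ⟨P, Q, hPK, hQK, hPQ, hPν, hvP, hvQ, hrest⟩ := near_extremal hMM
      (fun a ha b hb c hc hab hbc => htri a ha b hb c hc hab hbc) hI3 _ hδ
    refine ⟨P, ?_, ?_, ?_⟩
    · have h8 : (P.card : ℝ) ≤ ν := by exact_mod_cast hPν
      have h9 : (1 + θ) * μ ≤ (1 + θ') * μ := mul_le_mul_of_nonneg_right (by linarith) hμ.le
      linarith
    · rw [hvP, Nat.cast_zero]
      positivity
    · have hun : Finset.univ \ P = Q ∪ (Finset.univ \ (P ∪ Q)) := by
        ext v
        simp only [Finset.mem_sdiff, Finset.mem_univ, true_and, Finset.mem_union]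
        constructor
        · intro hv
          by_cases hvQ : v ∈ Q
          · exact Or.inl hvQ
          · exact Or.inr (fun h => h.elim hv hvQ)
        · rintro (hv | hv)
          · exact fun hvP => (Finset.disjoint_left.1 hPQ) hvP hv
          · exact fun hvP => hv (Or.inl hvP)
      have hdis : Disjoint Q (Finset.univ \ (P ∪ Q)) := by
        rw [Finset.disjoint_left]
        intro v hv hv'
        exact (Finset.mem_sdiff.1 hv').2 (Finset.mem_union_right _ hv)
      have hb := RS6_union R Q (Finset.univ \ (P ∪ Q)) hdis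
      rw [← hun, hvQ, zero_add] at hb
      have hb' : (vol R (Finset.univ \ P) : ℝ) ≤
          2 * ((Finset.univ \ (P ∪ Q) : Finset ι).card : ℝ) * r := by
        rw [hr]
        exact_mod_cast hb
      have hZ : ((Finset.univ \ (P ∪ Q) : Finset ι).card : ℝ) =
          (r - c) + ((K \ (P ∪ Q)).card : ℝ) := by
        have e1 := Finset.card_sdiff_add_card_eq_card (Finset.subset_univ (P ∪ Q))
        have e2 := Finset.card_sdiff_add_card_eq_card (Finset.union_subset hPK hQK)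
        rw [Finset.card_univ] at e1
        have e1' : ((Finset.univ \ (P ∪ Q) : Finset ι).card : ℝ) + ((P ∪ Q).card : ℝ) = r := by
          rw [hr]
          exact_mod_cast e1
        have e2' : ((K \ (P ∪ Q)).card : ℝ) + ((P ∪ Q).card : ℝ) = c := by
          rw [hcd]
          exact_mod_cast e2
        linarith
      have hk0 : (0 : ℝ) ≤ ((K \ (P ∪ Q)).card : ℝ) := Nat.cast_nonneg _
      have hrest2 : (η0 / 2 * μ) * ((K \ (P ∪ Q)).card : ℝ) ≤ 60 * C * θ * (μ * r) := by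
        have h8 : (η0 / 2 * μ) * ((K \ (P ∪ Q)).card : ℝ) ≤
            (I.card : ℝ) * ((K \ (P ∪ Q)).card : ℝ) :=
          mul_le_mul_of_nonneg_right (by linarith) hk0
        linarith
      have hrest3 : η0 * ((K \ (P ∪ Q)).card : ℝ) ≤ 120 * C * θ * r := by
        have h8 : μ * (η0 * ((K \ (P ∪ Q)).card : ℝ)) ≤ μ * (120 * C * θ * r) := by linarith
        exact le_of_mul_le_mul_left h8 hμ
      have hZ2 : η0 * ((Finset.univ \ (P ∪ Q) : Finset ι).card : ℝ) ≤ η0 * (θ' / 2 * r) := by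
        rw [hZ]
        have h8 : r - c ≤ 9 * C * θ * r := by linarith
        have h9 : η0 * (r - c) ≤ η0 * (9 * C * θ * r) := mul_le_mul_of_nonneg_left h8 hη.le
        have h10 : η0 * (9 * C * θ * r) ≤ 1 * (9 * C * θ * r) :=
          mul_le_mul_of_nonneg_right hη1 (by positivity)
        have h11 : 300 * C * θ * r = θ' * η0 * r := by rw [hCθ]
        have h12 : 0 ≤ C * θ * r := by positivity
        linarith
      have hZ3 := le_of_mul_le_mul_left hZ2 hη
      have h13 : 2 * ((Finset.univ \ (P ∪ Q) : Finset ι).card : ℝ) * r ≤ 2 * (θ' / 2 * r) * r :=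
        mul_le_mul_of_nonneg_right (by linarith) hr0.le
      have h14 : 2 * (θ' / 2 * r) * r = θ' * r ^ 2 := by ring
      linarith

/- MODULE RS7 -/
/-- An edge with a large degree sum.
PROOF. `∑_(u ∈ K) (dg K u)² ≥ (vol K)²/|K|` (Cauchy-Schwarz); the left side is the sum over the ordered adjacent
pairs `(u, v)` in `K` of `dg K u`, so the sum over these pairs of `dg K u + dg K v` is at least
`2 (vol K)²/|K|`; there are `vol K > 0` pairs. -/
theorem edge_degree_sum [DecidableEq V] (G : SimpleGraph V) (K : Finset V) (hv : 0 < vol G K) :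
    ∃ u ∈ K, ∃ v ∈ K, G.Adj u v ∧ 2 * vol G K ≤ K.card * (dg G K u + dg G K v) := by
  classical
  by_contra hcon
  push Not at hcon
  have h1 : ∑ u ∈ K, ∑ v ∈ K.filter (fun w => G.Adj u w),
      (K.card * (dg G K u + dg G K v) + 1) ≤
      ∑ u ∈ K, ∑ v ∈ K.filter (fun w => G.Adj u w), 2 * vol G K := by
    refine Finset.sum_le_sum fun u hu => Finset.sum_le_sum fun v hv => ?_
    rw [Finset.mem_filter] at hv
    exact hcon u hu v hv.1 hv.2
  have hdg : ∀ u, (K.filter (fun w => G.Adj u w)).card = dg G K u := fun u => rfl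
  have h2 : ∑ u ∈ K, ∑ v ∈ K.filter (fun w => G.Adj u w), 2 * vol G K =
      vol G K * (2 * vol G K) := by
    have h3 : ∀ u ∈ K, ∑ v ∈ K.filter (fun w => G.Adj u w), 2 * vol G K =
        dg G K u * (2 * vol G K) := by
      intro u _
      rw [Finset.sum_const, hdg, smul_eq_mul]
    rw [Finset.sum_congr rfl h3, ← Finset.sum_mul]
    rfl
  have h4 : ∑ u ∈ K, ∑ v ∈ K.filter (fun w => G.Adj u w), dg G K v =
      ∑ v ∈ K, dg G K v * dg G K v := by
    have h5 : ∀ u ∈ K, ∑ v ∈ K.filter (fun w => G.Adj u w), dg G K v =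
        ∑ v ∈ K, if G.Adj u v then dg G K v else 0 := by
      intro u _
      rw [Finset.sum_filter]
    rw [Finset.sum_congr rfl h5, Finset.sum_comm]
    refine Finset.sum_congr rfl fun v _ => ?_
    rw [← Finset.sum_filter, Finset.sum_const, smul_eq_mul]
    congr 1
    rw [← hdg]
    congr 1
    ext w
    rw [Finset.mem_filter, Finset.mem_filter, G.adj_comm]
  have h6 : ∑ u ∈ K, ∑ v ∈ K.filter (fun w => G.Adj u w), dg G K u =
      ∑ v ∈ K, dg G K v * dg G K v := by
    refine Finset.sum_congr rfl fun u _ => ?_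
    rw [Finset.sum_const, hdg, smul_eq_mul]
  have h7 : ∑ u ∈ K, ∑ v ∈ K.filter (fun w => G.Adj u w),
      (K.card * (dg G K u + dg G K v) + 1) =
      K.card * (2 * ∑ v ∈ K, dg G K v * dg G K v) + vol G K := by
    have h8 : ∀ u ∈ K, ∑ v ∈ K.filter (fun w => G.Adj u w),
        (K.card * (dg G K u + dg G K v) + 1) =
        K.card * (∑ v ∈ K.filter (fun w => G.Adj u w), dg G K u) +
        K.card * (∑ v ∈ K.filter (fun w => G.Adj u w), dg G K v) + dg G K u := by
      intro u _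
      rw [Finset.sum_add_distrib, ← Finset.mul_sum, Finset.sum_add_distrib, mul_add,
        Finset.sum_const (1 : ℕ), hdg, smul_eq_mul, mul_one]
    rw [Finset.sum_congr rfl h8, Finset.sum_add_distrib, Finset.sum_add_distrib,
      ← Finset.mul_sum, ← Finset.mul_sum, h4, h6]
    unfold vol
    ring
  rw [h2, h7] at h1
  have h9 : (vol G K) ^ 2 ≤ K.card * ∑ v ∈ K, (dg G K v) ^ 2 := by
    unfold vol
    exact sq_sum_le_card_mul_sum_sq
  have h10 : ∑ v ∈ K, (dg G K v) ^ 2 = ∑ v ∈ K, dg G K v * dg G K v :=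
    Finset.sum_congr rfl fun v _ => sq _
  rw [h10] at h9
  linarith

/- MODULE RS8 -/
/-- RANGE II: the reduced graph is nearly balanced bipartite, or nearly the union of two cliques.
PROOF. `r = |ι| ≥ 50/θ ≥ 5000`.  `exists_component`: `K`, `c = |K|`, `vol K ≥ (1/2 - θ) r c > 0`.
If `K` is triangle-free: `edge_degree_sum`: `u ~ v` in `K` with `dg K u + dg K v ≥ (1 - 2 θ) r`;
`P = N(u) ∩ K`, `Q = N(v) ∩ K` are disjoint and independent; the complement of `P` is `Q` and at most `2 θ r`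
further elements: `vol (Pᶜ) ≤ vol Q + 2 (2 θ r) r = 4 θ r²`.  First alternative.
If `K` has a triangle: `exists_MM`; `h4`: `ν ≤ (lam/4 + θ) r`.  `vol_le_of_matching`: `vol K ≤ 2 ν c`, so
`1/2 - θ ≤ 2 ν/r ≤ lam/2 + 2 θ`, `lam ≥ 1 - 6 θ`, and `ν ≥ (1/4 - θ/2) r ≥ r/5`.  `vol K ≤ c²` gives
`c ≥ (1/2 - θ) r`, so `|Kᶜ| ≤ (1/2 + θ) r`.  `MM.vol_le`, `t = |I| = c - 2 ν`:
`vol K ≤ 4 ν² - ν1² + 2 ν1 t + 2 ν`, and `2 ν c - vol K ≤ 2 (1/4 + θ) r c - (1/2 - θ) r c = 3 θ r c`
(`lam ≤ 1`).  If `t > ν`: `-ν1² + 2 ν1 t ≤ -ν² + 2 ν t` (`ν1 ≤ ν < t`), so `ν² - 2 ν ≤ 3 θ r c ≤ (3/100) r²`, but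
`ν ≥ r/5`, `ν ≤ r`: `r²/25 - 2 r ≤ (3/100) r²`: contradiction for `r ≥ 5000`.  If `t ≤ ν`:
`-ν1² + 2 ν1 t ≤ t²`, so `2 ν t - t² - 2 ν ≤ 3 θ r c`, `ν t - 2 ν ≤ 3 θ r²`, `t ≤ 15 θ r + 2`; `c = 2 ν + t ≤
(1/2 + 2 θ) r + 15 θ r + 2 ≤ (1/2 + 18 θ) r`.  Second alternative with `P = K`. -/
theorem range2 (θ : ℝ) (hθ : 0 < θ) (hθ1 : θ ≤ 1 / 100) (ι : Type u) [Fintype ι] [DecidableEq ι]
    (R : SimpleGraph ι) (lam : ℝ) (hlam : lam ≤ 1) (hr : 50 / θ ≤ (Fintype.card ι : ℝ))
    (hvol : (1 / 2 - θ) * (Fintype.card ι : ℝ) ^ 2 ≤ (vol R Finset.univ : ℝ))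
    (h4 : ∀ K ν x y, Conn R K 0 → Mat R K ν x y →
      (∃ a ∈ K, ∃ b ∈ K, ∃ c ∈ K, R.Adj a b ∧ R.Adj b c ∧ R.Adj a c) →
      (ν : ℝ) ≤ (lam / 4 + θ) * (Fintype.card ι : ℝ)) :
    (∃ P : Finset ι, vol R P = 0 ∧
      (vol R (Finset.univ \ P) : ℝ) ≤ 4 * θ * (Fintype.card ι : ℝ) ^ 2) ∨
    (1 - 6 * θ ≤ lam ∧ ∃ P : Finset ι, (P.card : ℝ) ≤ (1 / 2 + 18 * θ) * (Fintype.card ι : ℝ) ∧
      ((Finset.univ \ P : Finset ι).card : ℝ) ≤ (1 / 2 + 18 * θ) * (Fintype.card ι : ℝ) ∧
      ∀ u ∈ P, ∀ w, w ∉ P → ¬ R.Adj u w) := by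
  classical
  obtain ⟨r, hr'⟩ : ∃ r : ℝ, r = (Fintype.card ι : ℝ) := ⟨_, rfl⟩
  rw [← hr'] at hr hvol ⊢
  have hθr : 50 ≤ θ * r := by
    rw [div_le_iff₀ hθ] at hr
    linarith
  have hr0 : 0 < r := by
    by_contra hcon
    push Not at hcon
    have := mul_nonpos_of_nonneg_of_nonpos hθ.le hcon
    linarith
  have hr5 : 5000 ≤ r := by
    have h1 : θ * r ≤ 1 / 100 * r := mul_le_mul_of_nonneg_right hθ1 hr0.le
    linarith
  have hne : Nonempty ι := by
    rw [← Fintype.card_pos_iff]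
    rw [hr'] at hr0
    exact_mod_cast hr0
  obtain ⟨K, hKne, hconn, hclosed, hvolK⟩ := exists_component R
  obtain ⟨c, hcd⟩ : ∃ c : ℝ, c = (K.card : ℝ) := ⟨_, rfl⟩
  have hc0 : 0 < c := by
    rw [hcd]
    exact_mod_cast hKne.card_pos
  have hcr : c ≤ r := by
    rw [hcd, hr']
    exact_mod_cast Finset.card_le_univ K
  have hvK : (1 / 2 - θ) * r * c ≤ (vol R K : ℝ) := by
    have h5 : (vol R Finset.univ : ℝ) * c ≤ (vol R K : ℝ) * r := by
      rw [hcd, hr']
      exact_mod_cast hvolK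
    have h6 : (1 / 2 - θ) * r ^ 2 * c ≤ (vol R Finset.univ : ℝ) * c :=
      mul_le_mul_of_nonneg_right hvol hc0.le
    have h7 : r * ((1 / 2 - θ) * r * c) ≤ r * (vol R K : ℝ) := by linarith
    exact le_of_mul_le_mul_left h7 hr0
  have hvK0 : (0 : ℝ) < (vol R K : ℝ) := by
    refine lt_of_lt_of_le ?_ hvK
    have : 0 < 1 / 2 - θ := by linarith
    positivity
  have hvK0' : 0 < vol R K := by exact_mod_cast hvK0
  by_cases htri : ∃ a ∈ K, ∃ b ∈ K, ∃ c ∈ K, R.Adj a b ∧ R.Adj b c ∧ R.Adj a c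
  · right
    obtain ⟨ν, x, y, I, hMM⟩ := exists_MM R K
    have hν := h4 K ν x y hconn hMM.mat htri
    rw [← hr'] at hν
    obtain ⟨n, hn⟩ : ∃ n : ℝ, n = (ν : ℝ) := ⟨_, rfl⟩
    obtain ⟨t, ht⟩ : ∃ t : ℝ, t = (I.card : ℝ) := ⟨_, rfl⟩
    have hn0 : 0 ≤ n := by
      rw [hn]
      exact Nat.cast_nonneg _
    have ht0 : 0 ≤ t := by
      rw [ht]
      exact Nat.cast_nonneg _
    have hcard : c = 2 * n + t := by
      rw [hcd, hn, ht]
      exact_mod_cast hMM.card
    have h7 : (vol R K : ℝ) ≤ 2 * n * c := by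
      rw [hcd, hn]
      exact_mod_cast vol_le_of_matching R K ν x y hMM.mat (RS6_hI hMM) (RS6_haug hMM)
    rw [← hn] at hν
    have h8 : (1 / 2 - θ) * r ≤ 2 * n := by
      have h9 : c * ((1 / 2 - θ) * r) ≤ c * (2 * n) := by linarith
      exact le_of_mul_le_mul_left h9 hc0
    have hlam' : 1 - 6 * θ ≤ lam := by
      have h9 : r * (1 / 2 - θ) ≤ r * (2 * (lam / 4 + θ)) := by linarith
      have h10 := le_of_mul_le_mul_left h9 hr0
      linarith
    have hn5 : r / 5 ≤ n := by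
      have h9 : θ * r ≤ 1 / 100 * r := mul_le_mul_of_nonneg_right hθ1 hr0.le
      linarith
    have hc2 : (vol R K : ℝ) ≤ c * c := by
      have h9 : vol R K ≤ K.card * K.card :=
        (vol_le R K).trans (Nat.mul_le_mul_left _ (Nat.sub_le _ _))
      rw [hcd]
      exact_mod_cast h9
    have hc3 : (1 / 2 - θ) * r ≤ c := by
      have h9 : c * ((1 / 2 - θ) * r) ≤ c * c := by linarith
      exact le_of_mul_le_mul_left h9 hc0
    have hνlam : n ≤ (1 / 4 + θ) * r := by
      have h9 : lam * r ≤ 1 * r := mul_le_mul_of_nonneg_right hlam hr0.le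
      linarith
    obtain ⟨ν1, hν1, hv1⟩ := hMM.vol_le
    obtain ⟨m, hm⟩ : ∃ m : ℝ, m = (ν1 : ℝ) := ⟨_, rfl⟩
    have hmn : m ≤ n := by
      rw [hm, hn]
      exact_mod_cast hν1
    have hm0 : 0 ≤ m := by
      rw [hm]
      exact Nat.cast_nonneg _
    have hv2 : (vol R K : ℝ) + m ^ 2 ≤ 4 * n ^ 2 + 2 * m * t + 2 * n := by
      rw [hm, hn, ht]
      exact_mod_cast hv1
    have hkey : 2 * n * t - 2 * m * t + m ^ 2 - 2 * n ≤ 3 * θ * r * c := by
      have h9 : 2 * n * c ≤ 2 * ((1 / 4 + θ) * r) * c :=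
        mul_le_mul_of_nonneg_right (by linarith) hc0.le
      have h10 : 2 * n * c = 4 * n ^ 2 + 2 * n * t := by
        rw [hcard]
        ring
      linarith
    have hθrc : 3 * θ * r * c ≤ 3 * θ * r * r :=
      mul_le_mul_of_nonneg_left hcr (by positivity)
    have htn : t ≤ n := by
      by_contra hcon
      push Not at hcon
      have h9 : 0 ≤ (n - m) * (2 * t - n - m) :=
        mul_nonneg (by linarith) (by linarith)
      have h10 : n ^ 2 - 2 * n ≤ 3 * θ * r * r := by linarith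
      have h11 : 3 * θ * r * r ≤ 3 * (1 / 100) * r * r := by
        have h12 : θ * (r * r) ≤ 1 / 100 * (r * r) :=
          mul_le_mul_of_nonneg_right hθ1 (by positivity)
        linarith
      have h12 : r / 5 * (r / 5 - 2) ≤ n * (n - 2) :=
        mul_le_mul hn5 (by linarith) (by linarith) hn0
      have h13 : 0 < r * (r - 40) := mul_pos hr0 (by linarith)
      linarith
    have ht2 : t ≤ 15 * (θ * r) + 2 := by
      have h9 : 0 ≤ (t - m) ^ 2 := sq_nonneg _
      have h10 : 0 ≤ t * (n - t) := mul_nonneg ht0 (by linarith)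
      have h11 : n * (t - 2) ≤ 3 * θ * r * r := by linarith
      by_cases ht3 : t ≤ 2
      · linarith
      · push Not at ht3
        have h12 : r / 5 * (t - 2) ≤ n * (t - 2) :=
          mul_le_mul_of_nonneg_right hn5 (by linarith)
        have h13 : r * (t - 2) ≤ r * (15 * (θ * r)) := by linarith
        have h14 := le_of_mul_le_mul_left h13 hr0
        linarith
    refine ⟨hlam', K, ?_, ?_, hclosed⟩
    · rw [← hcd]
      linarith
    · have e1 := Finset.card_sdiff_add_card_eq_card (Finset.subset_univ K)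
      rw [Finset.card_univ] at e1
      have e1' : ((Finset.univ \ K : Finset ι).card : ℝ) + c = r := by
        rw [hcd, hr']
        exact_mod_cast e1
      linarith
  · left
    push Not at htri
    obtain ⟨u, hu, v, hv, huv, hdeg⟩ := edge_degree_sum R K hvK0'
    have hdeg' : (1 - 2 * θ) * r ≤ (dg R K u : ℝ) + (dg R K v : ℝ) := by
      have h5 : 2 * (vol R K : ℝ) ≤ c * ((dg R K u : ℝ) + (dg R K v : ℝ)) := by
        rw [hcd]
        exact_mod_cast hdeg
      have h6 : c * ((1 - 2 * θ) * r) ≤ c * ((dg R K u : ℝ) + (dg R K v : ℝ)) := by linarith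
      exact le_of_mul_le_mul_left h6 hc0
    set P := K.filter (fun w => R.Adj u w) with hP
    set Q := K.filter (fun w => R.Adj v w) with hQ
    have hPc : (P.card : ℝ) = dg R K u := rfl
    have hQc : (Q.card : ℝ) = dg R K v := rfl
    have hPQ : Disjoint P Q := by
      rw [Finset.disjoint_left]
      intro w hw hw'
      rw [hP, Finset.mem_filter] at hw
      rw [hQ, Finset.mem_filter] at hw'
      exact htri u hu v hv w hw.1 huv hw'.2 hw.2
    have hvP : vol R P = 0 := by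
      refine RS1_zero R P P ?_
      intro a ha b hb hab
      rw [hP, Finset.mem_filter] at ha hb
      exact htri u hu a ha.1 b hb.1 ha.2 hab hb.2
    have hvQ : vol R Q = 0 := by
      refine RS1_zero R Q Q ?_
      intro a ha b hb hab
      rw [hQ, Finset.mem_filter] at ha hb
      exact htri v hv a ha.1 b hb.1 ha.2 hab hb.2
    refine ⟨P, hvP, ?_⟩
    have hun : Finset.univ \ P = Q ∪ (Finset.univ \ (P ∪ Q)) := by
      ext v
      simp only [Finset.mem_sdiff, Finset.mem_univ, true_and, Finset.mem_union]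
      constructor
      · intro hv
        by_cases hvQ : v ∈ Q
        · exact Or.inl hvQ
        · exact Or.inr (fun h => h.elim hv hvQ)
      · rintro (hv | hv)
        · exact fun hvP => (Finset.disjoint_left.1 hPQ) hvP hv
        · exact fun hvP => hv (Or.inl hvP)
    have hdis : Disjoint Q (Finset.univ \ (P ∪ Q)) := by
      rw [Finset.disjoint_left]
      intro v hv hv'
      exact (Finset.mem_sdiff.1 hv').2 (Finset.mem_union_right _ hv)
    have hb := RS6_union R Q (Finset.univ \ (P ∪ Q)) hdis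
    rw [← hun, hvQ, zero_add] at hb
    have hb' : (vol R (Finset.univ \ P) : ℝ) ≤
        2 * ((Finset.univ \ (P ∪ Q) : Finset ι).card : ℝ) * r := by
      rw [hr']
      exact_mod_cast hb
    have e1 := Finset.card_sdiff_add_card_eq_card (Finset.subset_univ (P ∪ Q))
    rw [Finset.card_univ, Finset.card_union_of_disjoint hPQ] at e1
    have e1' : ((Finset.univ \ (P ∪ Q) : Finset ι).card : ℝ) + ((P.card : ℝ) + (Q.card : ℝ)) =
        r := by
      rw [hr']
      exact_mod_cast e1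
    have hZ : ((Finset.univ \ (P ∪ Q) : Finset ι).card : ℝ) ≤ 2 * θ * r := by
      rw [hPc, hQc] at e1'
      linarith
    have h13 : 2 * ((Finset.univ \ (P ∪ Q) : Finset ι).card : ℝ) * r ≤ 2 * (2 * θ * r) * r :=
      mul_le_mul_of_nonneg_right (by linarith) hr0.le
    have h14 : 2 * (2 * θ * r) * r = 4 * θ * r ^ 2 := by ring
    linarith

end TurMod
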