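import Pool.Agent.TurMod.Reg2
import Pool.Agent.TurMod.RStr

/-!
# Stability for `2 m ≤ n ≤ C m`
-/

namespace TurMod

open Finset

universe u

/- MODULE SB1 -/
private theorem SB1_W {V : Type u} [Fintype V] [DecidableEq V] {G : SimpleGraph V} {r : ℕ}
    {R : SimpleGraph (Fin r)} {X : Fin r → Finset V} {N m l : ℕ} {θ : ℝ}
    (h : Red G r R X N m l θ) (S : Finset (Fin r)) (W : Finset V)
    (hW : ∀ a, a ∉ S → Disjoint (X a) W) :
    (vol G W : ℝ) ≤ (vol R S : ℝ) * (N : ℝ) ^ 2 + θ * (Fintype.card V : ℝ) ^ 2 := by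
  have h1 := vol_supG G R X N h.disj h.size S W hW
  have h2 := vol_sub_mono G (supG G R X) (fun u v huv => huv.1) W
  have h3 := h.sup
  have h1' : (vol (supG G R X) W : ℝ) ≤ (vol R S : ℝ) * (N : ℝ) ^ 2 := by exact_mod_cast h1
  have h2' : (vol G W : ℝ) + (vol (supG G R X) Finset.univ : ℝ) ≤
      (vol (supG G R X) W : ℝ) + (vol G Finset.univ : ℝ) := by exact_mod_cast h2
  linarith

private theorem SB1_sets {V : Type u} [Fintype V] [DecidableEq V] {G : SimpleGraph V} {r : ℕ}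
    {R : SimpleGraph (Fin r)} {X : Fin r → Finset V} {N m l : ℕ} {θ : ℝ}
    (h : Red G r R X N m l θ) (P : Finset (Fin r)) :
    (P.biUnion X).card = P.card * N ∧
    (vol G (P.biUnion X) : ℝ) ≤ (vol R P : ℝ) * (N : ℝ) ^ 2 +
      θ * (Fintype.card V : ℝ) ^ 2 ∧
    (vol G (Finset.univ \ P.biUnion X) : ℝ) ≤ (vol R (Finset.univ \ P) : ℝ) * (N : ℝ) ^ 2 +
      θ * (Fintype.card V : ℝ) ^ 2 := by
  refine ⟨?_, SB1_W h _ _ fun a ha => ?_, SB1_W h _ _ fun a ha => ?_⟩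
  · rw [Finset.card_biUnion fun a _ b _ hab => h.disj a b hab]
    rw [Finset.sum_congr rfl fun a _ => h.size a, Finset.sum_const, smul_eq_mul]
  · rw [Finset.disjoint_biUnion_right]
    intro b hb
    refine h.disj a b fun hab => ha ?_
    rw [hab]
    exact hb
  · have ha' : a ∈ P := by
      by_contra hc
      exact ha (Finset.mem_sdiff.2 ⟨Finset.mem_univ a, hc⟩)
    exact Finset.disjoint_of_subset_left (Finset.subset_biUnion_of_mem X ha')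
      Finset.disjoint_sdiff

/-- the lower bound for the volume in real numbers -/
private theorem SB1_vol {n m v : ℕ} (hm : 1 ≤ m) (hn : m ≤ n)
    (h : 2 * ((m - 1) * (n - (m - 1))) ≤ v) :
    2 * (((m : ℝ) - 1) * ((n : ℝ) - ((m : ℝ) - 1))) ≤ (v : ℝ) := by
  have h1 : ((2 * ((m - 1) * (n - (m - 1))) : ℕ) : ℝ) ≤ (v : ℝ) := by exact_mod_cast h
  rw [Nat.cast_mul, Nat.cast_mul, Nat.cast_sub ((Nat.sub_le m 1).trans hn), Nat.cast_sub hm] at h1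
  push_cast at h1
  exact h1

/-- STABILITY, `n ≥ (2 + η0) m`.
PROOF. `range1 C (η0/2) (ζ/4)` gives `θ1 ≤ ζ/4`.  `θ = min (η0/8) (θ1/(4 C))`; `l0 ≥ 12 · C/η0 + 1`.  `dense_reduce C θ l0`
gives `r`, `R`, `X`, `N`.  `μ = m/N`.  `n ≤ (1 + θ) r N` and `n ≥ (2 + η0) m` give `r ≥ (2 + η0) μ/(1 + θ) ≥ (2 + η0/2) μ`;
`r N ≤ n ≤ C m` gives `r ≤ C μ`; `μ ≥ r/C ≥ l0/C`, so `(η0/2) μ ≥ 6`.
`vol R univ · N² ≥ vol (supG) univ ≥ vol G univ - θ n²` (`vol_supG` with `S = univ`, `W = univ`),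
`vol G univ ≥ 2 (m - 1)(n - m + 1) ≥ 2 (1 - θ) m (n - m)` (`m ≥ 1/θ`), `θ n² ≤ θ C m n ≤ 2 C θ m (n - m)`.  So
`vol R univ · N² ≥ 2 (1 - θ - C θ) m (n - m) ≥ 2 (1 - θ1) m (r N - m)`, i.e.
`vol R univ ≥ 2 (1 - θ1) μ (r - μ)`.  `Red.two`, `Red.tri` (with `l < m`) divided by `N` are the hypotheses of `range1`
(`θ ≤ θ1`).  `range1`: `P ⊆ Fin r`.  `P' = ⋃_(a ∈ P) X a`: `|P'| = |P| N ≤ (1 + ζ/4) m`.  `vol_sub_mono` and
`Red.sup`: `vol G W ≤ vol (supG) W + θ n²` for every `W`; `vol_supG` with `S = P`, `W = P'`, and with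
`S = univ ∖ P`, `W = univ ∖ P'`: `vol G P' ≤ (ζ/4) r² N² + θ n² ≤ ζ n²`, the same for the complement. -/
theorem stab1 (C η0 ζ : ℝ) (hC : 2 ≤ C) (hη : 0 < η0) (hη1 : η0 ≤ 1) (hζ : 0 < ζ) (hζ1 : ζ ≤ 1) :
    ∃ m0 : ℕ, ∀ m : ℕ, m0 ≤ m → ∀ l : ℕ, Odd l → 3 ≤ l → l < m →
      ∀ (V : Type u) [Fintype V] [DecidableEq V] (G : SimpleGraph V),
      (2 + η0) * m ≤ (Fintype.card V : ℝ) → (Fintype.card V : ℝ) ≤ C * m →
      ¬ HasCyc G (2 * m) → ¬ HasCyc G l →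
      2 * ((m - 1) * (Fintype.card V - (m - 1))) ≤ vol G Finset.univ →
      ∃ P : Finset V, (P.card : ℝ) ≤ (1 + ζ) * m ∧
        (vol G P : ℝ) ≤ ζ * (Fintype.card V : ℝ) ^ 2 ∧
        (vol G (Finset.univ \ P) : ℝ) ≤ ζ * (Fintype.card V : ℝ) ^ 2 := by
  obtain ⟨θ1, hθ1, hθ1', hrange⟩ := range1.{0} C (η0 / 2) (ζ / 4) hC (by linarith) (by linarith)
    (by linarith) (by linarith)
  have hC0 : 0 < C := by linarith
  obtain ⟨θ, hθ0, hθa, hθb⟩ : ∃ θ : ℝ, 0 < θ ∧ θ ≤ η0 / 8 ∧ θ * (4 * C) ≤ θ1 := by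
    refine ⟨min (η0 / 8) (θ1 / (4 * C)), lt_min (by linarith) (by positivity), min_le_left _ _, ?_⟩
    have := min_le_right (η0 / 8) (θ1 / (4 * C))
    rwa [le_div_iff₀ (by positivity)] at this
  have hθc : θ ≤ θ1 := by nlinarith
  obtain ⟨m0, hm0⟩ := dense_reduce C θ (by linarith) hθ0 (by linarith) (⌈12 * C / η0⌉₊)
  refine ⟨max m0 (⌈1 / θ⌉₊ + 1), fun m hm l hodd h3 hlm V _ _ G hn1 hn2 h2m hl hvol => ?_⟩
  have hm1 : m0 ≤ m := (le_max_left _ _).trans hm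
  have hm2 : ⌈1 / θ⌉₊ + 1 ≤ m := (le_max_right _ _).trans hm
  have hmpos : 1 ≤ m := by omega
  have hmR : (1 : ℝ) ≤ (m : ℝ) := by exact_mod_cast hmpos
  have hmθ : 1 ≤ θ * (m : ℝ) := by
    have h1 : 1 / θ ≤ (m : ℝ) := (Nat.le_ceil _).trans (by exact_mod_cast (by omega))
    rw [div_le_iff₀ hθ0] at h1
    linarith
  have hn2m : 2 * m ≤ Fintype.card V := by
    have h1 : (2 * m : ℝ) ≤ (Fintype.card V : ℝ) := by nlinarith
    exact_mod_cast h1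
  obtain ⟨r, R, X, N, hl0, hr1, hred⟩ := hm0 m hm1 l hodd h3 hlm V G hn2m hn2 h2m hl
  have hvol' := SB1_vol hmpos (by omega) hvol
  have hup : (r : ℝ) * (N : ℝ) ≤ (Fintype.card V : ℝ) := by exact_mod_cast hred.up
  have hlo := hred.lo
  have hN1 : (1 : ℝ) ≤ (N : ℝ) := by exact_mod_cast hred.N1
  have htwo := hred.two
  have htri := hred.tri
  have hlm' : (l : ℝ) ≤ (m : ℝ) := by exact_mod_cast hlm.le
  have huniv := SB1_W hred Finset.univ Finset.univ fun a ha => absurd (Finset.mem_univ a) ha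
  have hsets := SB1_sets hred
  clear hm0 hred hvol
  obtain ⟨μ, hμ⟩ : ∃ μ : ℝ, μ * (N : ℝ) = (m : ℝ) := ⟨(m : ℝ) / N, by field_simp⟩
  have hN0 : (0 : ℝ) < (N : ℝ) := by linarith
  have hμ0 : 0 < μ := by
    by_contra hc
    push Not at hc
    nlinarith
  generalize hn : (Fintype.card V : ℝ) = n at *
  generalize hrr : (r : ℝ) = rr at *
  -- the hypotheses of `range1`
  have ha : (2 + η0 / 2) * μ ≤ rr := by
    refine le_of_mul_le_mul_right ?_ hN0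
    by_contra hc
    push Not at hc
    have e1 : (2 + η0 / 2) * μ * (N : ℝ) = (2 + η0 / 2) * m := by rw [mul_assoc, hμ]
    rw [e1] at hc
    have e2 : (1 + θ) * (rr * (N : ℝ)) < (1 + θ) * ((2 + η0 / 2) * m) :=
      mul_lt_mul_of_pos_left hc (by linarith)
    have e3 : (1 + θ) * (2 + η0 / 2) ≤ 2 + η0 := by nlinarith
    have e4 : (1 + θ) * ((2 + η0 / 2) * m) ≤ (2 + η0) * m := by
      rw [← mul_assoc]
      exact mul_le_mul_of_nonneg_right e3 (by linarith)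
    linarith
  have hb : rr ≤ C * μ := by
    refine le_of_mul_le_mul_right ?_ hN0
    have e1 : C * μ * (N : ℝ) = C * m := by rw [mul_assoc, hμ]
    rw [e1]
    exact hup.trans hn2
  have hc : 6 ≤ η0 / 2 * μ := by
    have e1 : 12 * C / η0 ≤ rr := by
      rw [← hrr]
      exact (Nat.le_ceil _).trans (by exact_mod_cast hl0)
    have e2 : 12 * C / η0 ≤ C * μ := e1.trans hb
    rw [div_le_iff₀ hη] at e2
    nlinarith
  have hd : 2 * (1 - θ1) * (μ * (rr - μ)) ≤ (vol R Finset.univ : ℝ) := by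
    refine le_of_mul_le_mul_right ?_ (pow_pos hN0 2)
    have e0 : 2 * (1 - θ1) * (μ * (rr - μ)) * (N : ℝ) ^ 2 =
        2 * (1 - θ1) * ((μ * N) * (rr * N - μ * N)) := by ring
    rw [e0, hμ]
    have hD : (m : ℝ) ≤ n - m := by
      have f0 : 0 ≤ η0 * (m : ℝ) := by positivity
      linarith
    have e1 : 2 * ((1 - θ) * m * (n - m)) ≤ 2 * (((m : ℝ) - 1) * (n - ((m : ℝ) - 1))) := by
      refine mul_le_mul_of_nonneg_left ?_ (by norm_num)
      refine mul_le_mul (by linarith) (by linarith) (by linarith) (by linarith)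
    have e2 : θ * n ^ 2 ≤ 2 * (C * θ) * (m * (n - m)) := by
      have e3 : n * n ≤ (C * m) * (2 * (n - m)) :=
        mul_le_mul hn2 (by linarith) (by linarith) (mul_nonneg hC0.le (by linarith))
      calc θ * n ^ 2 = θ * (n * n) := by ring
        _ ≤ θ * ((C * m) * (2 * (n - m))) := mul_le_mul_of_nonneg_left e3 hθ0.le
        _ = 2 * (C * θ) * (m * (n - m)) := by ring
    have e4 : 2 * (1 - θ1) * ((m : ℝ) * (rr * N - m)) ≤ 2 * (1 - θ1) * ((m : ℝ) * (n - m)) := by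
      refine mul_le_mul_of_nonneg_left ?_ (by linarith)
      exact mul_le_mul_of_nonneg_left (by linarith) (by linarith)
    have e6 : 0 ≤ (m : ℝ) * (n - m) := mul_nonneg (by linarith) (by linarith)
    have e7 : 2 * θ ≤ C * θ := mul_le_mul_of_nonneg_right hC hθ0.le
    have e5 : (1 - θ1) * ((m : ℝ) * (n - m)) ≤ (1 - θ - C * θ) * ((m : ℝ) * (n - m)) :=
      mul_le_mul_of_nonneg_right (by linarith) e6
    have e8 : (1 - θ) * (m : ℝ) * (n - m) = (1 - θ) * ((m : ℝ) * (n - m)) := by ring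
    have e9 : (1 - θ - C * θ) * ((m : ℝ) * (n - m)) = (1 - θ) * ((m : ℝ) * (n - m)) -
      (C * θ) * ((m : ℝ) * (n - m)) := by ring
    rw [e8] at e1
    rw [e9] at e5
    linarith
  have he : ∀ K ν x y, Conn R K 0 → Mat R K ν x y → (ν : ℝ) ≤ (1 + θ1) * μ := by
    intro K ν x y h1 h2
    refine le_of_mul_le_mul_right ?_ hN0
    rw [mul_assoc, hμ]
    exact (htwo K ν x y h1 h2).trans (mul_le_mul_of_nonneg_right (by linarith) (by linarith))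
  have hf : ∀ K ν x y, Conn R K 0 → Mat R K ν x y →
        (∃ a ∈ K, ∃ b ∈ K, ∃ c ∈ K, R.Adj a b ∧ R.Adj b c ∧ R.Adj a c) →
        2 * (ν : ℝ) ≤ (1 + θ1) * μ := by
    intro K ν x y h1 h2 h4
    refine le_of_mul_le_mul_right ?_ hN0
    have e1 : (1 + θ1) * μ * (N : ℝ) = (1 + θ1) * m := by rw [mul_assoc, hμ]
    rw [e1, mul_assoc]
    refine (htri K ν x y h1 h2 h4).trans ?_
    exact mul_le_mul (by linarith) hlm' (by positivity) (by linarith)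
  have hcardr : (Fintype.card (Fin r) : ℝ) = rr := by rw [Fintype.card_fin, hrr]
  obtain ⟨P, hP1, hP2, hP3⟩ := hrange (Fin r) R μ hc (by rw [hcardr]; exact ha)
    (by rw [hcardr]; exact hb) (by rw [hcardr]; exact hd) he hf
  obtain ⟨hs1, hs2, hs3⟩ := hsets P
  rw [hcardr] at hP2 hP3
  have hNn : rr ^ 2 * (N : ℝ) ^ 2 ≤ n ^ 2 := by
    rw [← mul_pow]
    refine pow_le_pow_left₀ ?_ hup 2
    rw [← hrr]
    positivity
  have hfin : ζ / 4 * rr ^ 2 * (N : ℝ) ^ 2 + θ * n ^ 2 ≤ ζ * n ^ 2 := by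
    have e1 : ζ / 4 * rr ^ 2 * (N : ℝ) ^ 2 ≤ ζ / 4 * n ^ 2 := by
      rw [mul_assoc]
      exact mul_le_mul_of_nonneg_left hNn (by linarith)
    have e2 : θ * n ^ 2 ≤ ζ / 4 * n ^ 2 := mul_le_mul_of_nonneg_right (by linarith) (sq_nonneg n)
    nlinarith [sq_nonneg n]
  refine ⟨P.biUnion X, ?_, ?_, ?_⟩
  · rw [hs1, Nat.cast_mul]
    calc (P.card : ℝ) * N ≤ (1 + ζ / 4) * μ * N := mul_le_mul_of_nonneg_right hP1 hN0.le
      _ = (1 + ζ / 4) * m := by rw [mul_assoc, hμ]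
      _ ≤ (1 + ζ) * m := mul_le_mul_of_nonneg_right (by linarith) (by linarith)
  · exact (hs2.trans (add_le_add_left (mul_le_mul_of_nonneg_right hP2 (sq_nonneg _)) _)).trans hfin
  · exact (hs3.trans (add_le_add_left (mul_le_mul_of_nonneg_right hP3 (sq_nonneg _)) _)).trans hfin

/- MODULE SB2 -/
private theorem SB2_mono {V : Type*} {G H : SimpleGraph V} (h : H ≤ G) (W : Finset V) :
    vol H W ≤ vol G W := by
  classical
  unfold vol
  refine Finset.sum_le_sum fun v _ => ?_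
  unfold dg
  refine Finset.card_le_card fun w hw => ?_
  rw [Finset.mem_filter] at hw ⊢
  exact ⟨hw.1, h hw.2⟩

/-- STABILITY, `2 m ≤ n ≤ (2 + η0) m`.
PROOF. `θ1 = ζ/100`, `θ = θ1/4`, `η0 = √(θ1/4)` (`η0² = θ1/4`, `η0 ≤ 1`), `l0 ≥ 50/θ1`.  `dense_reduce 3 θ l0`.
`vol G univ ≥ 2 (m-1)(n-m+1) = n²/2 - 2 (n/2 - (m-1))² ≥ n²/2 - η0² n²/2`, because
`0 ≤ n/2 - (m - 1) ≤ η0 m/2 + 1 ≤ η0 m ≤ η0 n/2`.  `vol R univ · N² ≥ vol G univ - θ n² ≥ (1/2 - η0²/2 - θ) n² ≥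
(1/2 - θ1) r² N²`.  `lam = l/m`: `Red.tri`: `ν ≤ (1 + θ) l/(2 N) = (1 + θ) lam m/(2 N)`, `m ≤ n/2 ≤ (1 + θ) r N/2`:
`ν ≤ (1 + θ)² lam r/4 ≤ (lam/4 + θ1) r`.  `range2 θ1`.  First alternative: `P' = ⋃_(a ∈ P) X a`,
`vol G P' ≤ 0 + θ n²`, `vol G (P'ᶜ) ≤ 4 θ1 r² N² + θ n² ≤ ζ n²` as in `stab1`.  Second alternative:
`l ≥ (1 - 6 θ1) m`, `|P'| = |P| N ≤ (1/2 + 18 θ1) n`, `|P'ᶜ| = (n - r N) + |Pᶜ| N ≤ θ n + (1/2 + 18 θ1) n`
(`n ≤ (1 + θ) r N`, so `n - r N ≤ θ r N ≤ θ n`);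
`vol G univ ≤ vol (supG) univ + θ n² = vol (supG) P' + vol (supG) P'ᶜ + θ n² ≤ vol G P' + vol G P'ᶜ + θ n²`
(`vol_supG_split`). -/
theorem stab2 (ζ : ℝ) (hζ : 0 < ζ) (hζ1 : ζ ≤ 1) :
    ∃ (η0 : ℝ) (m0 : ℕ), 0 < η0 ∧ η0 ≤ 1 ∧ ∀ m : ℕ, m0 ≤ m → ∀ l : ℕ, Odd l → 3 ≤ l → l < m →
      ∀ (V : Type u) [Fintype V] [DecidableEq V] (G : SimpleGraph V),
      2 * m ≤ Fintype.card V → (Fintype.card V : ℝ) ≤ (2 + η0) * m →
      ¬ HasCyc G (2 * m) → ¬ HasCyc G l →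
      2 * ((m - 1) * (Fintype.card V - (m - 1))) ≤ vol G Finset.univ →
      (∃ P : Finset V, (vol G P : ℝ) ≤ ζ * (Fintype.card V : ℝ) ^ 2 ∧
        (vol G (Finset.univ \ P) : ℝ) ≤ ζ * (Fintype.card V : ℝ) ^ 2) ∨
      ((1 - ζ) * m ≤ (l : ℝ) ∧ ∃ P : Finset V,
        (P.card : ℝ) ≤ (1 / 2 + ζ) * (Fintype.card V : ℝ) ∧
        ((Finset.univ \ P : Finset V).card : ℝ) ≤ (1 / 2 + ζ) * (Fintype.card V : ℝ) ∧
        (vol G Finset.univ : ℝ) ≤ (vol G P : ℝ) + (vol G (Finset.univ \ P) : ℝ) +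
          ζ * (Fintype.card V : ℝ) ^ 2) := by
  obtain ⟨θ1, hθ1⟩ : ∃ θ1 : ℝ, θ1 = ζ / 100 := ⟨_, rfl⟩
  have hθ1p : 0 < θ1 := by linarith
  have hθ1s : θ1 ≤ 1 / 100 := by linarith
  obtain ⟨m0, hm0⟩ := dense_reduce 3 (θ1 / 4) (by norm_num) (by linarith) (by linarith)
    (⌈50 / θ1⌉₊)
  refine ⟨θ1 / 2, max m0 (⌈4 / θ1⌉₊ + 1), by linarith, by linarith,
    fun m hm l hodd h3 hlm V _ _ G hn1 hn2 h2m hl hvol => ?_⟩
  have hm1 : m0 ≤ m := (le_max_left _ _).trans hm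
  have hm2 : ⌈4 / θ1⌉₊ + 1 ≤ m := (le_max_right _ _).trans hm
  have hmpos : 1 ≤ m := by omega
  have hmR : (1 : ℝ) ≤ (m : ℝ) := by exact_mod_cast hmpos
  have hmθ : 4 ≤ θ1 * (m : ℝ) := by
    have h1 : 4 / θ1 ≤ (m : ℝ) := (Nat.le_ceil _).trans (by exact_mod_cast (by omega))
    rw [div_le_iff₀ hθ1p] at h1
    linarith
  obtain ⟨r, R, X, N, hl0, hr1, hred⟩ := hm0 m hm1 l hodd h3 hlm V G hn1 (by nlinarith) h2m hl
  have hvol' := SB1_vol hmpos (by omega) hvol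
  have hn1' : 2 * (m : ℝ) ≤ (Fintype.card V : ℝ) := by exact_mod_cast hn1
  have hup : (r : ℝ) * (N : ℝ) ≤ (Fintype.card V : ℝ) := by exact_mod_cast hred.up
  have hlo := hred.lo
  have hN1 : (1 : ℝ) ≤ (N : ℝ) := by exact_mod_cast hred.N1
  have htri := hred.tri
  have hlm' : (l : ℝ) ≤ (m : ℝ) := by exact_mod_cast hlm.le
  have hl0' : (0 : ℝ) ≤ (l : ℝ) := Nat.cast_nonneg l
  have hr0 : (0 : ℝ) ≤ (r : ℝ) := Nat.cast_nonneg r
  have huniv := SB1_W hred Finset.univ Finset.univ fun a ha => absurd (Finset.mem_univ a) ha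
  have hsets := SB1_sets hred
  have hsup := hred.sup
  have hsplit : ∀ P : Finset (Fin r), (∀ a ∈ P, ∀ b, b ∉ P → ¬ R.Adj a b) →
      (vol (supG G R X) Finset.univ : ℝ) ≤ (vol G (P.biUnion X) : ℝ) +
        (vol G (Finset.univ \ P.biUnion X) : ℝ) := by
    intro P hP
    have e1 := vol_supG_split G R X N hred.disj P hP (P.biUnion X) fun v => by
      rw [Finset.mem_biUnion]
    have e2 := SB2_mono (G := G) (H := supG G R X) (fun u v huv => huv.1) (P.biUnion X)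
    have e3 := SB2_mono (G := G) (H := supG G R X) (fun u v huv => huv.1)
      (Finset.univ \ P.biUnion X)
    have e4 : vol (supG G R X) Finset.univ ≤ vol G (P.biUnion X) +
        vol G (Finset.univ \ P.biUnion X) := by omega
    exact_mod_cast e4
  have hcompl : ∀ P : Finset (Fin r), ((Finset.univ \ P.biUnion X : Finset V).card : ℝ) =
      (Fintype.card V : ℝ) - ((P.biUnion X).card : ℝ) := by
    intro P
    have e1 := Finset.card_sdiff_add_card_eq_card (Finset.subset_univ (P.biUnion X))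
    rw [Finset.card_univ] at e1
    have e2 : ((Finset.univ \ P.biUnion X : Finset V).card : ℝ) + ((P.biUnion X).card : ℝ) =
      (Fintype.card V : ℝ) := by exact_mod_cast e1
    linarith
  clear hm0 hred hvol
  have hN0 : (0 : ℝ) < (N : ℝ) := by linarith
  have hm0' : (0 : ℝ) < (m : ℝ) := by linarith
  obtain ⟨lam, hlam⟩ : ∃ lam : ℝ, lam * (m : ℝ) = (l : ℝ) := ⟨(l : ℝ) / m, by field_simp⟩
  have hlam1 : lam ≤ 1 := by
    refine le_of_mul_le_mul_right ?_ hm0'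
    rw [hlam, one_mul]
    exact hlm'
  have hlam0 : 0 ≤ lam := by
    refine le_of_mul_le_mul_right ?_ hm0'
    rw [hlam, zero_mul]
    exact hl0'
  generalize hn : (Fintype.card V : ℝ) = n at *
  have hcardr : (Fintype.card (Fin r) : ℝ) = (r : ℝ) := by rw [Fintype.card_fin]
  have hn0 : 0 < n := by linarith
  have hNn : (r : ℝ) ^ 2 * (N : ℝ) ^ 2 ≤ n ^ 2 := by
    rw [← mul_pow]
    exact pow_le_pow_left₀ (by positivity) hup 2
  -- the hypotheses of `range2`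
  have ha : 50 / θ1 ≤ (Fintype.card (Fin r) : ℝ) := by
    rw [hcardr]
    exact (Nat.le_ceil _).trans (by exact_mod_cast hl0)
  have hb : (1 / 2 - θ1) * (Fintype.card (Fin r) : ℝ) ^ 2 ≤ (vol R Finset.univ : ℝ) := by
    rw [hcardr]
    refine le_of_mul_le_mul_right ?_ (pow_pos hN0 2)
    have e1 : (1 / 2 - θ1) * (r : ℝ) ^ 2 * (N : ℝ) ^ 2 ≤ (1 / 2 - θ1) * n ^ 2 := by
      rw [mul_assoc]
      exact mul_le_mul_of_nonneg_left hNn (by linarith)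
    have e2 : 0 ≤ n / 2 - ((m : ℝ) - 1) := by linarith
    have e3 : n / 2 - ((m : ℝ) - 1) ≤ θ1 / 4 * n := by
      have f0 : θ1 * (2 * (m : ℝ)) ≤ θ1 * n := mul_le_mul_of_nonneg_left hn1' hθ1p.le
      have f1 : (2 + θ1 / 2) * (m : ℝ) = 2 * m + θ1 * (2 * (m : ℝ)) / 4 := by ring
      rw [f1] at hn2
      linarith
    have e4 : (n / 2 - ((m : ℝ) - 1)) ^ 2 ≤ (θ1 / 4 * n) ^ 2 := pow_le_pow_left₀ e2 e3 2
    have e5 : 2 * (((m : ℝ) - 1) * (n - ((m : ℝ) - 1))) =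
        n ^ 2 / 2 - 2 * (n / 2 - ((m : ℝ) - 1)) ^ 2 := by ring
    have e6 : (θ1 / 4 * n) ^ 2 ≤ θ1 / 16 * n ^ 2 := by
      have e7 : (θ1 / 4 * n) ^ 2 = θ1 / 16 * (θ1 * n ^ 2) := by ring
      rw [e7]
      refine mul_le_mul_of_nonneg_left ?_ (by linarith)
      have f0 : θ1 * n ^ 2 ≤ 1 * n ^ 2 := mul_le_mul_of_nonneg_right (by linarith) (sq_nonneg n)
      linarith
    rw [e5] at hvol'
    have e8 : 0 ≤ θ1 * n ^ 2 := by positivity
    have e9 : (1 / 2 - θ1) * n ^ 2 = n ^ 2 / 2 - θ1 * n ^ 2 := by ring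
    have e10 : θ1 / 16 * n ^ 2 = θ1 * n ^ 2 / 16 := by ring
    have e11 : θ1 / 4 * n ^ 2 = θ1 * n ^ 2 / 4 := by ring
    rw [e9] at e1
    rw [e10] at e6
    rw [e11] at huniv
    linarith
  have hc : ∀ K ν x y, Conn R K 0 → Mat R K ν x y →
      (∃ a ∈ K, ∃ b ∈ K, ∃ c ∈ K, R.Adj a b ∧ R.Adj b c ∧ R.Adj a c) →
      (ν : ℝ) ≤ (lam / 4 + θ1) * (Fintype.card (Fin r) : ℝ) := by
    intro K ν x y h1 h2 h4
    rw [hcardr]
    refine le_of_mul_le_mul_right ?_ hN0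
    have e1 := htri K ν x y h1 h2 h4
    rw [← hlam] at e1
    have e2 : (m : ℝ) ≤ (1 + θ1 / 4) * ((r : ℝ) * N) / 2 := by linarith
    have e3 : lam * (m : ℝ) ≤ lam * ((1 + θ1 / 4) * ((r : ℝ) * N) / 2) :=
      mul_le_mul_of_nonneg_left e2 hlam0
    have e4 : (1 + θ1 / 4) * (lam * (m : ℝ)) ≤
        (1 + θ1 / 4) * (lam * ((1 + θ1 / 4) * ((r : ℝ) * N) / 2)) :=
      mul_le_mul_of_nonneg_left e3 (by linarith)
    have hrN : 0 ≤ (r : ℝ) * N := by positivity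
    have e5 : (1 + θ1 / 4) ^ 2 * lam ≤ lam + 4 * θ1 := by
      have f0 : θ1 * θ1 ≤ 1 / 100 * θ1 := mul_le_mul_of_nonneg_right hθ1s hθ1p.le
      have f1 : (1 + θ1 / 4) ^ 2 = 1 + θ1 / 2 + θ1 * θ1 / 16 := by ring
      have f2 : (1 + θ1 / 4) ^ 2 * lam ≤ (1 + θ1) * lam := by
        rw [f1]
        exact mul_le_mul_of_nonneg_right (by linarith) hlam0
      have f3 : θ1 * lam ≤ θ1 * 1 := mul_le_mul_of_nonneg_left hlam1 hθ1p.le
      linarith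
    have e6 : (1 + θ1 / 4) ^ 2 * lam * ((r : ℝ) * N) ≤ (lam + 4 * θ1) * ((r : ℝ) * N) :=
      mul_le_mul_of_nonneg_right e5 hrN
    have e7 : (1 + θ1 / 4) * (lam * ((1 + θ1 / 4) * ((r : ℝ) * N) / 2)) =
        (1 + θ1 / 4) ^ 2 * lam * ((r : ℝ) * N) / 2 := by ring
    have e8 : (lam / 4 + θ1) * (r : ℝ) * N = (lam + 4 * θ1) * ((r : ℝ) * N) / 4 := by ring
    rw [e7] at e4
    rw [e8]
    linarith
  rcases range2.{0} θ1 hθ1p hθ1s (Fin r) R lam hlam1 ha hb hc with ⟨P, hP1, hP2⟩ | ⟨hl1, P, hP1, hP2, hP3⟩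
  · left
    obtain ⟨-, hs2, hs3⟩ := hsets P
    rw [hP1, Nat.cast_zero, zero_mul, zero_add] at hs2
    rw [hcardr] at hP2
    refine ⟨P.biUnion X, hs2.trans ?_, hs3.trans ?_⟩
    · exact mul_le_mul_of_nonneg_right (by linarith) (sq_nonneg n)
    · have e1 : (vol R (Finset.univ \ P) : ℝ) * (N : ℝ) ^ 2 ≤ 4 * θ1 * n ^ 2 := by
        calc (vol R (Finset.univ \ P) : ℝ) * (N : ℝ) ^ 2
            ≤ 4 * θ1 * (r : ℝ) ^ 2 * (N : ℝ) ^ 2 := mul_le_mul_of_nonneg_right hP2 (sq_nonneg _)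
          _ = 4 * θ1 * ((r : ℝ) ^ 2 * (N : ℝ) ^ 2) := by ring
          _ ≤ 4 * θ1 * n ^ 2 := mul_le_mul_of_nonneg_left hNn (by linarith)
      have e2 : 4 * θ1 * n ^ 2 + θ1 / 4 * n ^ 2 = (4 * θ1 + θ1 / 4) * n ^ 2 := by ring
      have e3 : (4 * θ1 + θ1 / 4) * n ^ 2 ≤ ζ * n ^ 2 :=
        mul_le_mul_of_nonneg_right (by linarith) (sq_nonneg n)
      linarith
  · right
    obtain ⟨hs1, -, -⟩ := hsets P
    have hcP := hcompl P
    have hsP := hsplit P hP3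
    rw [hcardr] at hP1 hP2
    have hcr : ((Finset.univ \ P : Finset (Fin r)).card : ℝ) = (r : ℝ) - (P.card : ℝ) := by
      have e1 := Finset.card_sdiff_add_card_eq_card (Finset.subset_univ P)
      rw [Finset.card_univ, Fintype.card_fin] at e1
      have e2 : ((Finset.univ \ P : Finset (Fin r)).card : ℝ) + (P.card : ℝ) = (r : ℝ) := by
        exact_mod_cast e1
      linarith
    rw [hcr] at hP2
    refine ⟨?_, P.biUnion X, ?_, ?_, ?_⟩
    · rw [← hlam]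
      exact mul_le_mul_of_nonneg_right (by linarith) hm0'.le
    · rw [hs1, Nat.cast_mul]
      calc (P.card : ℝ) * N ≤ (1 / 2 + 18 * θ1) * (r : ℝ) * N :=
            mul_le_mul_of_nonneg_right hP1 hN0.le
        _ = (1 / 2 + 18 * θ1) * ((r : ℝ) * N) := by ring
        _ ≤ (1 / 2 + 18 * θ1) * n := mul_le_mul_of_nonneg_left hup (by linarith)
        _ ≤ (1 / 2 + ζ) * n := mul_le_mul_of_nonneg_right (by linarith) hn0.le
    · rw [hcP, hs1, Nat.cast_mul]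
      have e1 : ((r : ℝ) - (P.card : ℝ)) * N ≤ (1 / 2 + 18 * θ1) * (r : ℝ) * N :=
        mul_le_mul_of_nonneg_right hP2 hN0.le
      have e2 : (1 / 2 + 18 * θ1) * (r : ℝ) * N ≤ (1 / 2 + 18 * θ1) * n := by
        rw [mul_assoc]
        exact mul_le_mul_of_nonneg_left hup (by linarith)
      have e3 : n - (r : ℝ) * N ≤ θ1 / 4 * n := by
        have f0 : θ1 / 4 * ((r : ℝ) * N) ≤ θ1 / 4 * n :=
          mul_le_mul_of_nonneg_left hup (by linarith)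
        linarith
      have e4 : (1 / 2 + 18 * θ1) * n + θ1 / 4 * n ≤ (1 / 2 + ζ) * n := by
        have f0 : (1 / 2 + 18 * θ1 + θ1 / 4) * n ≤ (1 / 2 + ζ) * n :=
          mul_le_mul_of_nonneg_right (by linarith) hn0.le
        linarith
      linarith
    · have e1 : θ1 / 4 * n ^ 2 ≤ ζ * n ^ 2 :=
        mul_le_mul_of_nonneg_right (by linarith) (sq_nonneg n)
      linarith

end TurMod
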