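import Pool.Agent.TurMod.Gain
import Pool.Agent.TurMod.Code
import Pool.Agent.TurMod.Stab

/-!
# No minimal counterexample with `(2 + η0) m ≤ n ≤ C m`
-/

namespace TurMod

open Finset

universe u

/- MODULE DI1 -/
private theorem DI1_dg_union {V : Type*} [DecidableEq V] (G : SimpleGraph V) {U W : Finset V}
    (h : Disjoint U W) (v : V) : dg G (U ∪ W) v = dg G U v + dg G W v := by
  classical
  unfold dg
  rw [Finset.filter_union, Finset.card_union_of_disjoint]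
  exact Finset.disjoint_filter_filter h

private theorem DI1_cross {V : Type*} (G : SimpleGraph V) (U W : Finset V) :
    ∑ v ∈ U, dg G W v = ∑ w ∈ W, dg G U w := by
  classical
  unfold dg
  simp only [Finset.card_filter]
  rw [Finset.sum_comm]
  refine Finset.sum_congr rfl fun w _ => Finset.sum_congr rfl fun v _ => ?_
  simp only [G.adj_comm]

private theorem DI1_vol {V : Type*} [DecidableEq V] (G : SimpleGraph V) (U W : Finset V)
    (h : Disjoint U W) : vol G (U ∪ W) = vol G U + vol G W + 2 * ∑ v ∈ U, dg G W v := by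
  have hcross := DI1_cross G W U
  unfold vol
  rw [Finset.sum_union h, Finset.sum_congr rfl fun v _ => DI1_dg_union G h v,
    Finset.sum_congr rfl fun v _ => DI1_dg_union G h v, Finset.sum_add_distrib,
    Finset.sum_add_distrib, hcross]
  ring

private theorem DI1_sub {V : Type*} [DecidableEq V] (G : SimpleGraph V) {B Q : Finset V}
    (h : B ⊆ Q) (a : V) : B.card + dg G Q a ≤ Q.card + dg G B a := by
  have h1 : Q = B ∪ (Q \ B) := (Finset.union_sdiff_of_subset h).symm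
  have h2 := DI1_dg_union G (Finset.disjoint_sdiff (s := B) (t := Q)) a
  rw [← h1] at h2
  have h3 := dg_le_card G (Q \ B) a
  have h4 := Finset.card_sdiff_add_card_eq_card h
  omega

private theorem DI1_codeg {V : Type*} [DecidableEq V] (G : SimpleGraph V) (B : Finset V)
    (u v : V) : dg G B u + dg G B v ≤ codeg G B u v + B.card := by
  classical
  unfold dg codeg
  have h1 := Finset.card_union_add_card_inter (B.filter fun w => G.Adj u w)
    (B.filter fun w => G.Adj v w)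
  rw [← Finset.filter_and, ← Finset.filter_or] at h1
  have h2 := Finset.card_filter_le B (fun w => G.Adj u w ∨ G.Adj v w)
  omega

/-- few vertices have many non-neighbours -/
private theorem DI1_bad {V : Type*} [DecidableEq V] (G : SimpleGraph V) (S W S0 : Finset V)
    (t M : ℝ) (hS0 : ∀ v ∈ S, v ∉ S0 → (dg G W v : ℝ) + t * (W.card : ℝ) ≤ (W.card : ℝ))
    (h : (S.card : ℝ) * (W.card : ℝ) - ∑ v ∈ S, (dg G W v : ℝ) ≤ M) :
    ((S \ S0).card : ℝ) * (t * (W.card : ℝ)) ≤ M := by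
  have h1 : (S.card : ℝ) * (W.card : ℝ) - ∑ v ∈ S, (dg G W v : ℝ) =
      ∑ v ∈ S, ((W.card : ℝ) - (dg G W v : ℝ)) := by
    rw [Finset.sum_sub_distrib, Finset.sum_const, nsmul_eq_mul]
  rw [h1] at h
  refine le_trans ?_ h
  have h2 : ∑ v ∈ S \ S0, ((W.card : ℝ) - (dg G W v : ℝ)) ≤
      ∑ v ∈ S, ((W.card : ℝ) - (dg G W v : ℝ)) := by
    refine Finset.sum_le_sum_of_subset_of_nonneg Finset.sdiff_subset fun v _ _ => ?_
    have : (dg G W v : ℝ) ≤ (W.card : ℝ) := by exact_mod_cast dg_le_card G W v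
    linarith
  refine le_trans ?_ h2
  rw [← nsmul_eq_mul, ← Finset.sum_const]
  refine Finset.sum_le_sum fun v hv => ?_
  have h3 := Finset.mem_sdiff.1 hv
  have := hS0 v h3.1 h3.2
  linarith

/-- few non-adjacent pairs -/
private theorem DI1_num1 {η0 ζ C n m p e vP vQ : ℝ} (hC : 2 ≤ C) (h0 : 0 < η0) (h1 : η0 ≤ 1)
    (hζ : 0 < ζ) (hζ1 : ζ ≤ η0 / 100) (hm : 1 ≤ m) (hn1 : (2 + η0) * m ≤ n) (hn2 : n ≤ C * m)
    (hζn : 1 ≤ ζ * n) (_hp0 : 0 ≤ p) (hp : p ≤ (1 + ζ) * m) (he : e ≤ p * (n - p))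
    (hvP : vP ≤ ζ * n ^ 2) (hvQ : vQ ≤ ζ * n ^ 2)
    (hvol : 2 * ((m - 1) * (n - (m - 1))) ≤ vP + vQ + 2 * e) :
    p * (n - p) - e ≤ 3 * ζ * n ^ 2 ∧ (m - p) * η0 ≤ 2 * ζ * C ^ 2 * m := by
  have hn0 : 0 < n := by nlinarith
  have hnn : n ≤ ζ * n ^ 2 := by nlinarith
  have e1 : (m - 1) * (n - (m - 1)) = m * (n - m) - (n - 2 * m + 1) := by ring
  have e2 : m * (n - m) - (n - 2 * m + 1) - ζ * n ^ 2 ≤ e := by
    rw [e1] at hvol
    linarith
  constructor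
  · have e3 : p * (n - p) ≤ (1 + ζ) * m * (n - (1 + ζ) * m) := by
      have e4 : 0 ≤ ((1 + ζ) * m - p) * (n - (1 + ζ) * m - p) :=
        mul_nonneg (by linarith) (by nlinarith)
      nlinarith
    have e5 : (1 + ζ) * m * (n - (1 + ζ) * m) ≤ (1 + ζ) * m * (n - m) := by
      refine mul_le_mul_of_nonneg_left ?_ (by positivity)
      nlinarith
    have hmn : m ≤ n := by nlinarith
    have e6 : m * (n - m) ≤ n ^ 2 := by
      calc m * (n - m) ≤ n * n := mul_le_mul hmn (by linarith) (by linarith) hn0.le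
        _ = n ^ 2 := by ring
    have e7 : ζ * (m * (n - m)) ≤ ζ * n ^ 2 := mul_le_mul_of_nonneg_left e6 hζ.le
    nlinarith
  · by_cases hy : m - p ≤ 0
    · have : (m - p) * η0 ≤ 0 := mul_nonpos_of_nonpos_of_nonneg hy h0.le
      have : 0 ≤ 2 * ζ * C ^ 2 * m := by positivity
      linarith
    · push Not at hy
      have e3 : m * (n - m) - p * (n - p) = (m - p) * (n - m - p) := by ring
      have e4 : (m - p) * (η0 * m) ≤ (m - p) * (n - m - p) :=
        mul_le_mul_of_nonneg_left (by nlinarith) hy.le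
      have e5 : (m - p) * (η0 * m) ≤ 2 * ζ * n ^ 2 := by nlinarith
      have e6 : n ^ 2 ≤ (C * m) ^ 2 := pow_le_pow_left₀ hn0.le hn2 2
      have e7 : 2 * ζ * n ^ 2 ≤ 2 * ζ * (C * m) ^ 2 :=
        mul_le_mul_of_nonneg_left e6 (by positivity)
      refine le_of_mul_le_mul_right ?_ (lt_of_lt_of_le one_pos hm)
      calc (m - p) * η0 * m = (m - p) * (η0 * m) := by ring
        _ ≤ 2 * ζ * (C * m) ^ 2 := e5.trans e7
        _ = 2 * ζ * C ^ 2 * m * m := by ring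

/-- few exceptional vertices -/
private theorem DI1_num2 {η ζ C n m x q : ℝ} (hη : 0 < η) (hζ : 0 < ζ)
    (hζ2 : 24 * ζ * C ^ 2 ≤ η ^ 2 / 8) (hm : 1 ≤ m) (hn0 : 0 ≤ n) (hn2 : n ≤ C * m)
    (hx0 : 0 ≤ x) (hq : m / 2 ≤ q) (hx : x * (η / 4 * q) ≤ 3 * ζ * n ^ 2) : x ≤ η / 8 * m := by
  have e6 : n ^ 2 ≤ (C * m) ^ 2 := pow_le_pow_left₀ hn0 hn2 2
  have e7 : 3 * ζ * n ^ 2 ≤ 3 * ζ * (C * m) ^ 2 := mul_le_mul_of_nonneg_left e6 (by positivity)
  have e8 : x * (η / 4 * (m / 2)) ≤ x * (η / 4 * q) := by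
    refine mul_le_mul_of_nonneg_left ?_ hx0
    exact mul_le_mul_of_nonneg_left hq (by positivity)
  have e9 : x * (η * m) ≤ η / 8 * m * (η * m) := by
    have e10 : 24 * ζ * C ^ 2 * m ^ 2 ≤ η ^ 2 / 8 * m ^ 2 :=
      mul_le_mul_of_nonneg_right hζ2 (by positivity)
    nlinarith
  exact le_of_mul_le_mul_right e9 (by positivity)

private theorem DI1_num3 {η η0 ζ m n p q a b xA xB : ℝ} (_h0 : 0 < η0) (h1 : η0 ≤ 1) (hη : 0 < η)
    (hη1 : η ≤ η0 / 10) (hζ : 0 < ζ) (hζ1 : ζ ≤ η0 / 100) (hm : 2 ≤ m) (hmη : 2 ≤ η0 * m)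
    (hn1 : (2 + η0) * m ≤ n) (hp : p ≤ (1 + ζ) * m) (hpm : (1 - η / 8) * m ≤ p) (hq : q = n - p)
    (hxa : xA + a = p) (hxb : xB + b = q) (hxA : xA ≤ η / 8 * m) (hxB : xB ≤ η / 8 * m) :
    (1 + η0 / 2) * m ≤ b ∧ (1 - η) * m ≤ a ∧ m + 1 + b ≤ 2 * (b - η / 4 * q) ∧ q ≤ 4 * b ∧
      p ≤ 4 * a ∧ n ≤ a + b + η * m := by
  have hu1 : η * m ≤ η0 / 10 * m := mul_le_mul_of_nonneg_right hη1 (by linarith)
  have hz1 : ζ * m ≤ η0 / 100 * m := mul_le_mul_of_nonneg_right hζ1 (by linarith)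
  have hu0 : 0 < η * m := by positivity
  have hz0 : 0 < ζ * m := by positivity
  have hw1 : η0 * m ≤ 1 * m := mul_le_mul_of_nonneg_right h1 (by linarith)
  have e1 : (1 - η / 2) * (m + η0 * m - ζ * m) ≤ (1 - η / 2) * q :=
    mul_le_mul_of_nonneg_left (by linarith) (by linarith)
  have e2 : η * (η0 * m - ζ * m) ≤ 1 / 10 * (η0 * m) := by
    have e3 : η * (η0 * m - ζ * m) ≤ 1 / 10 * (η0 * m - ζ * m) :=
      mul_le_mul_of_nonneg_right (by linarith) (by linarith)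
    linarith
  refine ⟨by linarith, by linarith, ?_, by linarith, by linarith, by linarith⟩
  have e4 : (1 - η / 2) * (m + η0 * m - ζ * m) =
      m + η0 * m - ζ * m - η * m / 2 - η * (η0 * m - ζ * m) / 2 := by ring
  have e5 : (1 - η / 2) * q = q - 2 * (η / 4 * q) := by ring
  rw [e4, e5] at e1
  linarith

/-- A CORE FROM THE STABLE STRUCTURE.
PROOF. `ζ = η³ η0/(400 C³)`, `m` large.  `p = |P|`, `Q = univ ∖ P`, `q = n - p`, `e` = the number of edges between `P` and `Q`: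
`vol G univ = vol P + vol Q + 2 e`, so `e ≥ (m-1)(n-m+1) - ζ n² ≥ m (n - m) - 2 ζ n²`
(`m (n-m) - (m-1)(n-m+1) = n - 2 m + 1 ≤ n ≤ ζ n²`, `m ≥ 1/ζ`).
`p ≤ (1 + ζ) m ≤ n/2`, so `p q ≤ (1 + ζ) m (n - m)`: the number `M = p q - e` of non-adjacent pairs is
`≤ ζ m (n - m) + 2 ζ n² ≤ 3 ζ n²`.  Also `p ≥ (1 - 3 ζ C²/η0) m`: with `p = (1 - x) m`, `x > 0`:
`p (n - p) = m (n - m) - x m (n - 2 m) - x² m² ≤ m (n - m) - x η0 m²`, and `p q ≥ e`, so
`x η0 m² ≤ 2 ζ n² ≤ 2 ζ C² m²`.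
`t = η/4`; `A0 = {v ∈ P : q ≤ dg Q v + t q}`, `B0 = {v ∈ Q : p ≤ dg P v + t p}`.  `|P ∖ A0| t q ≤ M`, `q ≥ n/2`:
`|P ∖ A0| ≤ 6 ζ n/t ≤ 24 ζ C m/η ≤ (η/8) m`.  `|Q ∖ B0| t p ≤ M`, `p ≥ m/2 ≥ n/(2 C)`: `|Q ∖ B0| ≤ 6 ζ C n/t ≤
24 ζ C² m/η ≤ (η/8) m`.  So `|A0| ≥ (1 - η) m`, `n - |A0| - |B0| ≤ (η/4) m`, `|B0| ≥ n - (1 + ζ) m - (η/8) m ≥
(1 + η0 - ζ - η/8) m ≥ (1 + η0/2) m`.  `dA`: `v ∈ A0` has at most `t q ≤ η |B0|` non-neighbours in `B0`
(`|B0| ≥ q/2`), `dB` in the same way (`|A0| ≥ p/2`).  `|A0| < m`: otherwise take `m` elements of `A0` in a list; two of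
them have at least `|B0| - 2 t q ≥ q - (η/8) m - (η/2) q ≥ (1 - η) q ≥ (1 - η)(1 + η0 - ζ) m ≥ (1 + η0/2) m ≥ m + 1` common
neighbours in `B0` (`q ≥ n - (1 + ζ) m`, `η ≤ η0/10`): `close_weave`: a cycle of length `2 m`. -/
theorem core_of_bip (C η0 η : ℝ) (hC : 2 ≤ C) (h0 : 0 < η0) (h1 : η0 ≤ 1) (hη : 0 < η)
    (hη1 : η ≤ η0 / 10) :
    ∃ (ζ : ℝ) (m0 : ℕ), 0 < ζ ∧ ζ ≤ 1 ∧ ∀ m : ℕ, m0 ≤ m →
      ∀ (V : Type u) [Fintype V] [DecidableEq V] (G : SimpleGraph V),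
      (2 + η0) * m ≤ (Fintype.card V : ℝ) → (Fintype.card V : ℝ) ≤ C * m →
      ¬ HasCyc G (2 * m) →
      2 * ((m - 1) * (Fintype.card V - (m - 1))) ≤ vol G Finset.univ →
      ∀ P : Finset V, (P.card : ℝ) ≤ (1 + ζ) * m →
        (vol G P : ℝ) ≤ ζ * (Fintype.card V : ℝ) ^ 2 →
        (vol G (Finset.univ \ P) : ℝ) ≤ ζ * (Fintype.card V : ℝ) ^ 2 →
      ∃ A0 B0 : Finset V, Core G m η A0 B0 ∧ (1 + η0 / 2) * m ≤ (B0.card : ℝ) ∧
        (Fintype.card V : ℝ) ≤ (A0.card : ℝ) + (B0.card : ℝ) + η * m := by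
  obtain ⟨ζ, hζ, hζ1, hζ2, hζ3⟩ : ∃ ζ : ℝ, 0 < ζ ∧ ζ ≤ η0 / 100 ∧
      24 * ζ * C ^ 2 ≤ η ^ 2 / 8 ∧ 2 * ζ * C ^ 2 ≤ η / 8 * η0 := by
    have hC2 : 0 < C ^ 2 := by positivity
    refine ⟨min (η0 / 100) (min (η ^ 2 / 8 / (24 * C ^ 2)) (η / 8 * η0 / (2 * C ^ 2))),
      lt_min (by linarith) (lt_min (by positivity) (by positivity)), min_le_left _ _, ?_, ?_⟩
    · have h2 := (min_le_right (η0 / 100) (min (η ^ 2 / 8 / (24 * C ^ 2))
        (η / 8 * η0 / (2 * C ^ 2)))).trans (min_le_left _ _)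
      rw [le_div_iff₀ (by positivity)] at h2
      linarith
    · have h2 := (min_le_right (η0 / 100) (min (η ^ 2 / 8 / (24 * C ^ 2))
        (η / 8 * η0 / (2 * C ^ 2)))).trans (min_le_right _ _)
      rw [le_div_iff₀ (by positivity)] at h2
      linarith
  refine ⟨ζ, ⌈1 / ζ⌉₊ + ⌈2 / η0⌉₊ + 2, hζ, by linarith, fun m hm V _ _ G hn1 hn2 h2m hvol P hP1
    hP2 hP3 => ?_⟩
  have hm2 : 2 ≤ m := by omega
  have hmR : (2 : ℝ) ≤ (m : ℝ) := by exact_mod_cast hm2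
  have hmζ : 1 ≤ ζ * (m : ℝ) := by
    have h2 : 1 / ζ ≤ (m : ℝ) := (Nat.le_ceil _).trans (by exact_mod_cast (by omega))
    rw [div_le_iff₀ hζ] at h2
    linarith
  have hmη : 2 ≤ η0 * (m : ℝ) := by
    have h2 : 2 / η0 ≤ (m : ℝ) := (Nat.le_ceil _).trans (by exact_mod_cast (by omega))
    rw [div_le_iff₀ h0] at h2
    linarith
  have hmn : m ≤ Fintype.card V := by
    have h2 : (m : ℝ) ≤ (Fintype.card V : ℝ) := by nlinarith
    exact_mod_cast h2
  -- the volume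
  have hvol' : 2 * (((m : ℝ) - 1) * ((Fintype.card V : ℝ) - ((m : ℝ) - 1))) ≤
      (vol G Finset.univ : ℝ) := by
    have h2 : ((2 * ((m - 1) * (Fintype.card V - (m - 1))) : ℕ) : ℝ) ≤
      (vol G Finset.univ : ℝ) := by exact_mod_cast hvol
    rw [Nat.cast_mul, Nat.cast_mul, Nat.cast_sub ((Nat.sub_le m 1).trans hmn),
      Nat.cast_sub (by omega : 1 ≤ m)] at h2
    push_cast at h2
    exact h2
  obtain ⟨Q, hQ⟩ : ∃ Q : Finset V, Q = Finset.univ \ P := ⟨_, rfl⟩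
  rw [← hQ] at hP3
  have hd : Disjoint P Q := by
    rw [hQ]
    exact Finset.disjoint_sdiff
  have hun : P ∪ Q = Finset.univ := by
    rw [hQ]
    exact Finset.union_sdiff_of_subset (Finset.subset_univ P)
  have hcQ : (Q.card : ℝ) = (Fintype.card V : ℝ) - (P.card : ℝ) := by
    have e1 := Finset.card_union_of_disjoint hd
    rw [hun, Finset.card_univ] at e1
    have e2 : (Fintype.card V : ℝ) = (P.card : ℝ) + (Q.card : ℝ) := by exact_mod_cast e1
    linarith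
  have hvu : (vol G Finset.univ : ℝ) = (vol G P : ℝ) + (vol G Q : ℝ) +
      2 * ∑ v ∈ P, (dg G Q v : ℝ) := by
    have e1 := DI1_vol G P Q hd
    rw [hun] at e1
    exact_mod_cast e1
  have hcross : ∑ v ∈ P, (dg G Q v : ℝ) = ∑ w ∈ Q, (dg G P w : ℝ) := by
    exact_mod_cast DI1_cross G P Q
  have hePQ : ∑ v ∈ P, (dg G Q v : ℝ) ≤ (P.card : ℝ) * (Q.card : ℝ) := by
    rw [← nsmul_eq_mul, ← Finset.sum_const]
    exact Finset.sum_le_sum fun v _ => by exact_mod_cast dg_le_card G Q v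
  rw [hvu] at hvol'
  have hp0 : (0 : ℝ) ≤ (P.card : ℝ) := Nat.cast_nonneg _
  obtain ⟨hA, hB⟩ := DI1_num1 hC h0 h1 hζ hζ1 (by linarith) hn1 hn2 (by nlinarith) hp0 hP1
    (by rw [← hcQ]; exact hePQ) hP2 hP3 hvol'
  rw [← hcQ] at hA
  have hpm : (1 - η / 8) * (m : ℝ) ≤ (P.card : ℝ) := by
    have e1 : 2 * ζ * C ^ 2 * (m : ℝ) ≤ η / 8 * η0 * m :=
      mul_le_mul_of_nonneg_right hζ3 (by linarith)
    have e2 : ((m : ℝ) - (P.card : ℝ)) * η0 ≤ (η / 8 * m) * η0 := by linarith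
    have e3 := le_of_mul_le_mul_right e2 h0
    linarith
  -- the two sets
  classical
  obtain ⟨A0, hA0⟩ : ∃ A0 : Finset V, A0 = P.filter fun v =>
      (Q.card : ℝ) ≤ (dg G Q v : ℝ) + η / 4 * (Q.card : ℝ) := ⟨_, rfl⟩
  obtain ⟨B0, hB0⟩ : ∃ B0 : Finset V, B0 = Q.filter fun v =>
      (P.card : ℝ) ≤ (dg G P v : ℝ) + η / 4 * (P.card : ℝ) := ⟨_, rfl⟩
  have hA0P : A0 ⊆ P := by
    rw [hA0]
    exact Finset.filter_subset _ _
  have hB0Q : B0 ⊆ Q := by
    rw [hB0]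
    exact Finset.filter_subset _ _
  have hA0m : ∀ v ∈ A0, (Q.card : ℝ) ≤ (dg G Q v : ℝ) + η / 4 * (Q.card : ℝ) := by
    intro v hv
    rw [hA0] at hv
    exact (Finset.mem_filter.1 hv).2
  have hB0m : ∀ v ∈ B0, (P.card : ℝ) ≤ (dg G P v : ℝ) + η / 4 * (P.card : ℝ) := by
    intro v hv
    rw [hB0] at hv
    exact (Finset.mem_filter.1 hv).2
  have hcA : ((P \ A0).card : ℝ) + (A0.card : ℝ) = (P.card : ℝ) := by
    exact_mod_cast Finset.card_sdiff_add_card_eq_card hA0P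
  have hcB : ((Q \ B0).card : ℝ) + (B0.card : ℝ) = (Q.card : ℝ) := by
    exact_mod_cast Finset.card_sdiff_add_card_eq_card hB0Q
  have hn0 : (0 : ℝ) ≤ (Fintype.card V : ℝ) := Nat.cast_nonneg _
  have hηs : η ≤ 1 / 10 := by linarith
  have hqm1 : (m : ℝ) ≤ (Q.card : ℝ) := by
    rw [hcQ]
    have e1 : ζ * (m : ℝ) ≤ η0 * m := mul_le_mul_of_nonneg_right (by linarith) (by linarith)
    linarith
  have hpm1 : (m : ℝ) / 2 ≤ (P.card : ℝ) := by
    have e1 : η * (m : ℝ) ≤ 1 / 10 * m := mul_le_mul_of_nonneg_right hηs (by linarith)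
    linarith
  have hxA : ((P \ A0).card : ℝ) ≤ η / 8 * m := by
    refine DI1_num2 hη hζ hζ2 (by linarith) hn0 hn2 (Nat.cast_nonneg _)
      (q := (Q.card : ℝ)) (by linarith) ?_
    refine DI1_bad G P Q A0 (η / 4) _ (fun v hv hv' => ?_) hA
    by_contra hc
    push Not at hc
    apply hv'
    rw [hA0]
    exact Finset.mem_filter.2 ⟨hv, by linarith⟩
  have hxB : ((Q \ B0).card : ℝ) ≤ η / 8 * m := by
    refine DI1_num2 hη hζ hζ2 (by linarith) hn0 hn2 (Nat.cast_nonneg _)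
      (q := (P.card : ℝ)) (by linarith) ?_
    refine DI1_bad G Q P B0 (η / 4) _ (fun v hv hv' => ?_) ?_
    · by_contra hc
      push Not at hc
      apply hv'
      rw [hB0]
      exact Finset.mem_filter.2 ⟨hv, by linarith⟩
    · rw [← hcross, mul_comm]
      exact hA
  have hdA : ∀ a ∈ A0, (B0.card : ℝ) - η / 4 * (Q.card : ℝ) ≤ (dg G B0 a : ℝ) := by
    intro a ha
    have e1 : (B0.card : ℝ) + (dg G Q a : ℝ) ≤ (Q.card : ℝ) + (dg G B0 a : ℝ) := by
      exact_mod_cast DI1_sub G hB0Q a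
    have e2 := hA0m a ha
    linarith
  have hdB : ∀ b ∈ B0, (A0.card : ℝ) - η / 4 * (P.card : ℝ) ≤ (dg G A0 b : ℝ) := by
    intro b hb
    have e1 : (A0.card : ℝ) + (dg G P b : ℝ) ≤ (P.card : ℝ) + (dg G A0 b : ℝ) := by
      exact_mod_cast DI1_sub G hA0P b
    have e2 := hB0m b hb
    linarith
  obtain ⟨hB0c, hAc, hco1, hq4, hp4, hfin⟩ := DI1_num3 h0 h1 hη hη1 hζ hζ1 hmR hmη hn1 hP1 hpm
    hcQ hcA hcB hxA hxB
  refine ⟨A0, B0, ⟨?_, hAc, ?_, ?_, ?_⟩, hB0c, hfin⟩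
  · exact Finset.disjoint_of_subset_left hA0P (Finset.disjoint_of_subset_right hB0Q hd)
  · by_contra hcon
    push Not at hcon
    obtain ⟨S, hS, hSm⟩ := Finset.exists_subset_card_eq hcon
    have hco : ∀ u ∈ S, ∀ v ∈ S, m + 1 ≤ codeg G B0 u v := by
      intro u hu v hv
      have e1 := hdA u (hS hu)
      have e2 := hdA v (hS hv)
      have e3 : (dg G B0 u : ℝ) + (dg G B0 v : ℝ) ≤ (codeg G B0 u v : ℝ) + (B0.card : ℝ) := by
        exact_mod_cast DI1_codeg G B0 u v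
      have e4 : ((m + 1 : ℕ) : ℝ) ≤ (codeg G B0 u v : ℝ) := by
        push_cast
        linarith
      exact_mod_cast e4
    have hlen : S.toList.length = m := by rw [Finset.length_toList, hSm]
    have hne : S.toList ≠ [] := by
      intro h
      rw [h] at hlen
      simp at hlen
      omega
    have hmem : ∀ v ∈ S.toList, v ∈ S := fun v hv => Finset.mem_toList.1 hv
    apply h2m
    refine close_weave G B0 S.toList m hm2 S.nodup_toList hlen ?_ ?_ (S.toList.head hne)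
      (S.toList.getLast hne) (List.head?_eq_some_head hne) (List.getLast?_eq_some_getLast hne) ?_
    · intro v hv hvB
      exact Finset.disjoint_left.1 hd (hA0P (hS (hmem v hv))) (hB0Q hvB)
    · exact (List.pairwise_of_forall_mem_list fun u hu v hv =>
        hco u (hmem u hu) v (hmem v hv)).isChain
    · exact hco _ (hmem _ (List.getLast_mem hne)) _ (hmem _ (List.head_mem hne))
  · intro a ha
    have e1 := hdA a ha
    have e2 : η / 4 * (Q.card : ℝ) ≤ η / 4 * (4 * (B0.card : ℝ)) :=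
      mul_le_mul_of_nonneg_left hq4 (by linarith)
    linarith
  · intro b hb
    have e1 := hdB b hb
    have e2 : η / 4 * (P.card : ℝ) ≤ η / 4 * (4 * (A0.card : ℝ)) :=
      mul_le_mul_of_nonneg_left hp4 (by linarith)
    linarith

/- MODULE DI2 -/
/-- A CORE THAT COVERS ALMOST EVERYTHING IS IMPOSSIBLE IN A MINIMAL COUNTEREXAMPLE.
PROOF. `exists_setup` (with `η₀ = η1`): `A`, `Bst`, `D`; `few_ears`: `X`, `|X| ≤ 15 η m`; `outside` (first part): every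
`v ∈ D ∖ X` has at most one neighbour in `Bst ∖ X`; `few_stuck`: all but `|X| + 2 (m - 1 - |A|) ≤ 17 η m` of the
`b ∈ Bst ∖ X` have a neighbour in `D ∖ X`.  So `|Bst ∖ X| - 17 η m ≤ |D ∖ X| ≤ n - |A0| - |B0| ≤ η m` (`A0 ⊆ A`,
`B0 ⊆ Bst` are disjoint from `D`).  But `|Bst ∖ X| ≥ |B0| - 15 η m ≥ m - 15 η m`: `m ≤ 33 η m`, contradiction. -/
theorem no_spanning_core {V : Type u} [Fintype V] [DecidableEq V] {G : SimpleGraph V} {m l : ℕ}
    {η1 η : ℝ} {A0 B0 : Finset V} (hc : Core G m η A0 B0) (h0 : 0 < η1) (h1 : η1 ≤ 1)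
    (h2 : 0 < η) (h3 : η ≤ η1 / 10000) (hB : (1 + η1) * m ≤ (B0.card : ℝ))
    (hm : 1000 / η ≤ (m : ℝ)) (no2m : ¬ HasCyc G (2 * m)) (hodd : Odd l) (h3l : 3 ≤ l)
    (hlm : l < m) (nol : ¬ HasCyc G l) (hdeg : ∀ v, m ≤ dg G Finset.univ v)
    (hcov : (Fintype.card V : ℝ) ≤ (A0.card : ℝ) + (B0.card : ℝ) + η * m) : False := by
  obtain ⟨A, Bst, D, S⟩ := exists_setup hc h0 h1 h2 h3 hB hm no2m hodd h3l hlm nol
  obtain ⟨X, hX, hE⟩ := S.few_ears
  obtain ⟨ho, -, -, -⟩ := S.outside X hX hE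
  have hst := S.few_stuck hdeg X
  have hBs := S.B₀_sub
  have hAs := S.big.sub
  -- double counting
  have hdc : ∑ b ∈ Bst \ X, dg G (D \ X) b = ∑ v ∈ D \ X, dg G (Bst \ X) v := by
    classical
    unfold dg
    simp only [Finset.card_filter]
    rw [Finset.sum_comm]
    refine Finset.sum_congr rfl fun v _ => Finset.sum_congr rfl fun b _ => ?_
    simp only [G.adj_comm]
  have hD1 : ∑ v ∈ D \ X, dg G (Bst \ X) v ≤ (D \ X).card := by
    have := Finset.sum_le_card_nsmul (D \ X) (fun v => dg G (Bst \ X) v) 1 ho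
    simpa using this
  have hns : ((Bst \ X).filter (fun b => ¬ dg G (D \ X) b = 0)).card ≤
      ∑ b ∈ Bst \ X, dg G (D \ X) b := by
    refine le_trans ?_ (Finset.sum_le_sum_of_subset (Finset.filter_subset
      (fun b => ¬ dg G (D \ X) b = 0) (Bst \ X)))
    have := Finset.card_nsmul_le_sum ((Bst \ X).filter (fun b => ¬ dg G (D \ X) b = 0))
      (fun b => dg G (D \ X) b) 1 (fun b hb => by
        have := (Finset.mem_filter.1 hb).2
        omega)
    simpa using this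
  have hsplit := Finset.card_filter_add_card_filter_not (s := Bst \ X)
    (fun b => dg G (D \ X) b = 0)
  have hDA : Disjoint D A := by
    rw [Finset.disjoint_left]
    intro v hv hvA
    exact ((S.memD v).1 hv).1 hvA
  have hDB : Disjoint D Bst := by
    rw [Finset.disjoint_left]
    intro v hv hvB
    exact ((S.memD v).1 hv).2 hvB
  have hcard : D.card + (A0.card + B0.card) ≤ Fintype.card V := by
    rw [← Finset.card_union_of_disjoint hc.disj, ← Finset.card_union_of_disjoint]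
    · exact Finset.card_le_univ _
    · rw [Finset.disjoint_union_right]
      exact ⟨Finset.disjoint_of_subset_right hAs hDA, Finset.disjoint_of_subset_right hBs hDB⟩
  have hA0A := Finset.card_le_card hAs
  have hBB := Finset.card_le_card hBs
  have hDX : (D \ X).card ≤ D.card := Finset.card_le_card Finset.sdiff_subset
  have hBX : Bst.card ≤ (Bst \ X).card + X.card := by
    have := Finset.le_card_sdiff X Bst
    omega
  have hAm := S.cardA'
  obtain ⟨j, hj⟩ : ∃ j, j = m - 1 - A.card := ⟨_, rfl⟩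
  have hj1 : j + A.card + 1 = m := by omega
  rw [← hj] at hst
  have htot : B0.card ≤ X.card + X.card + 2 * j + D.card := by omega
  have htotR : (B0.card : ℝ) ≤ X.card + X.card + 2 * j + D.card := by exact_mod_cast htot
  have hcR : (D.card : ℝ) + (A0.card + B0.card) ≤ Fintype.card V := by exact_mod_cast hcard
  have hjR : (j : ℝ) + A.card + 1 = m := by exact_mod_cast hj1
  have hAR : (A0.card : ℝ) ≤ A.card := by exact_mod_cast hA0A
  have hcA := hc.cardA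
  have hm0 : 0 < (m : ℝ) := lt_of_lt_of_le (by positivity) hm
  have h4 : (B0.card : ℝ) ≤ 33 * (η * m) := by nlinarith
  have h5 : η * m ≤ 1 / 10000 * m := mul_le_mul_of_nonneg_right (by linarith) hm0.le
  nlinarith

/- MODULE DI3 -/
/-- PROOF. `η = η0/20000`; `core_of_bip C η0 η` gives `ζ`; `stab1 C η0 ζ`; then `no_spanning_core` with
`η1 = η0/2`. -/
theorem range1_case (C η0 : ℝ) (hC : 2 ≤ C) (h0 : 0 < η0) (h1 : η0 ≤ 1) :
    ∃ m0 : ℕ, ∀ m : ℕ, m0 ≤ m → ∀ l : ℕ, Odd l → 3 ≤ l → l < m →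
      ∀ (V : Type u) [Fintype V] [DecidableEq V] (G : SimpleGraph V),
      (2 + η0) * m ≤ (Fintype.card V : ℝ) → (Fintype.card V : ℝ) ≤ C * m →
      ¬ HasCyc G (2 * m) → ¬ HasCyc G l →
      2 * ((m - 1) * (Fintype.card V - (m - 1))) ≤ vol G Finset.univ →
      (∀ v, m ≤ dg G Finset.univ v) → False := by
  obtain ⟨ζ, m1, hζ, hζ1, h1'⟩ := core_of_bip.{u} C η0 (η0 / 20000) hC h0 h1 (by positivity)
    (by linarith)
  obtain ⟨m2, h2'⟩ := stab1.{u} C η0 ζ hC h0 h1 hζ hζ1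
  refine ⟨max (max m1 m2) ⌈1000 / (η0 / 20000)⌉₊, ?_⟩
  intro m hm l hl h3 hlm V _ _ G hn hnC no2m nol hvol hdeg
  have hm1 : m1 ≤ m := (le_max_left _ _).trans ((le_max_left _ _).trans hm)
  have hm2 : m2 ≤ m := (le_max_right _ _).trans ((le_max_left _ _).trans hm)
  have hm3 : 1000 / (η0 / 20000) ≤ (m : ℝ) := (Nat.le_ceil _).trans (by
    exact_mod_cast (le_max_right _ _).trans hm)
  obtain ⟨P, hP, hP1, hP2⟩ := h2' m hm2 l hl h3 hlm V G hn hnC no2m nol hvol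
  obtain ⟨A0, B0, hc, hB, hcov⟩ := h1' m hm1 V G hn hnC no2m hvol P hP hP1 hP2
  exact no_spanning_core (η1 := η0 / 2) hc (by linarith) (by linarith) (by positivity)
    (by linarith) (by convert hB using 2) hm3 no2m hl h3 hlm nol hdeg hcov

end TurMod
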