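import Pool.Agent.TurMod.Glue
import Pool.Agent.TurMod.Dfs

/-!
# Embedding a cycle along matching edges of the reduced graph
-/

namespace TurMod

open Finset

variable {V : Type*} {ι : Type*}

open Classical in
private theorem EM1_nb {G : SimpleGraph V} {R : SimpleGraph ι} {X : ι → Finset V} {N s : ℕ} {d : ℝ}
    (_hC : Clus G R X N s d) (Res : ι → Finset V) (g : ℕ)
    (hRes : ∀ a, Res a ⊆ X a ∧ (Res a).card = g) (F : Finset V) (a : ι) (x : V) (p : ℕ)
    (hx : d * g ≤ (dg G (Res a) x : ℝ)) (hF : (2 * s + F.card + p : ℝ) ≤ d * g) :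
    ((Res a).filter (fun v => G.Adj x v)) \ F ⊆ X a ∧
      s ≤ (((Res a).filter (fun v => G.Adj x v)) \ F).card := by
  refine ⟨(Finset.sdiff_subset.trans (Finset.filter_subset _ _)).trans (hRes a).1, ?_⟩
  have h1 := Finset.le_card_sdiff F ((Res a).filter (fun v => G.Adj x v))
  have h2 : dg G (Res a) x = ((Res a).filter (fun v => G.Adj x v)).card := rfl
  rw [← h2] at h1
  have h3 : (s : ℝ) + F.card ≤ (dg G (Res a) x : ℝ) := by
    have h4 : (0 : ℝ) ≤ s := Nat.cast_nonneg s
    have h5 : (0 : ℝ) ≤ p := Nat.cast_nonneg p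
    linarith
  have h6 : s + F.card ≤ dg G (Res a) x := by exact_mod_cast h3
  omega

/- MODULE EM1 -/
/-- PROOF. `typ` gives `x ∈ A` with at least `d |B| > 0` neighbours in `B`. -/
theorem Clus.edge {G : SimpleGraph V} {R : SimpleGraph ι} {X : ι → Finset V} {N s : ℕ} {d : ℝ}
    (hC : Clus G R X N s d) {a b : ι} (hab : R.Adj a b) {A B : Finset V} (hA : A ⊆ X a)
    (hB : B ⊆ X b) (hAs : s ≤ A.card) (hBs : s ≤ B.card) : ∃ x ∈ A, ∃ y ∈ B, G.Adj x y := by
  classical
  obtain ⟨x, hx, hd⟩ := hC.typ a b hab B hB hBs A hA hAs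
  have h1 : (0 : ℝ) < B.card := by
    have := hC.s_pos.trans hBs
    exact_mod_cast this
  have h2 : (0 : ℝ) < (dg G B x : ℝ) := (mul_pos hC.d_pos h1).trans_le hd
  have h3 : 0 < dg G B x := by exact_mod_cast h2
  unfold dg at h3
  obtain ⟨y, hy⟩ := Finset.card_pos.1 h3
  rw [Finset.mem_filter] at hy
  exact ⟨x, hx, y, hy.1, hy.2⟩

/-- The connecting path.  `Res a ⊆ X a` of size `g`; `w 0, …, w p` a walk of the reduced graph,
`p ≥ 3`; `x` has at least `d g` neighbours in `Res (w 1)`, `y` has at least `d g` neighbours in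
`Res (w (p-1))`.  Then there is a path `x, l, y` with `p - 1` inner vertices in the reserve sets,
outside the set `F` of forbidden vertices.
PROOF. Induction on `p ≥ 3`, for all `w`, `x`, `F`.  `p = 3`: `A = N(x) ∩ Res (w 1) ∖ F` and
`B = N(y) ∩ Res (w 2) ∖ F` have at least `d g - |F| ≥ s` elements; `Clus.edge` for `w 1 ~ w 2`
gives an edge `r1 r2` with `r1 ∈ A`, `r2 ∈ B`, `l = [r1, r2]`.  `p > 3`: `A` as before has at least
`s` elements, `|Res (w 2)| = g ≥ d g ≥ s`, so by `typ` for `w 1 ~ w 2`, `B = Res (w 2)`, there is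
`r1 ∈ A` with at least `d g` neighbours in `Res (w 2)`; use the induction hypothesis for the walk
`i ↦ w (i+1)`, for `r1` instead of `x`, and `insert r1 F`; `l = r1 :: l'`. -/
theorem connector {G : SimpleGraph V} {R : SimpleGraph ι} {X : ι → Finset V} {N s : ℕ} {d : ℝ}
    (hC : Clus G R X N s d) (Res : ι → Finset V) (g : ℕ)
    (hRes : ∀ a, Res a ⊆ X a ∧ (Res a).card = g) (F : Finset V) (p : ℕ) (hp : 3 ≤ p)
    (w : ℕ → ι) (hw : ∀ i < p, R.Adj (w i) (w (i + 1))) (x y : V)
    (hx : d * g ≤ (dg G (Res (w 1)) x : ℝ)) (hy : d * g ≤ (dg G (Res (w (p - 1))) y : ℝ))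
    (hF : (2 * s + F.card + p : ℝ) ≤ d * g) :
    ∃ l : List V, (x :: (l ++ [y])).IsChain G.Adj ∧ l.Nodup ∧ l.length = p - 1 ∧
      ∀ v ∈ l, (∃ a, v ∈ Res a) ∧ v ∉ F := by
  classical
  induction p, hp using Nat.le_induction generalizing w x F with
  | base =>
    obtain ⟨hA1, hA2⟩ := EM1_nb hC Res g hRes F (w 1) x 3 hx hF
    obtain ⟨hB1, hB2⟩ := EM1_nb hC Res g hRes F (w 2) y 3 hy hF
    obtain ⟨r1, hr1, r2, hr2, h12⟩ := hC.edge (hw 1 (by norm_num)) hA1 hB1 hA2 hB2
    rw [Finset.mem_sdiff, Finset.mem_filter] at hr1 hr2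
    refine ⟨[r1, r2], ?_, ?_, rfl, ?_⟩
    · simp only [List.cons_append, List.nil_append, List.isChain_cons_cons,
        List.isChain_singleton, and_true]
      exact ⟨hr1.1.2, h12, hr2.1.2.symm⟩
    · simp only [List.nodup_cons, List.mem_cons, List.not_mem_nil, or_false, not_false_eq_true,
        List.nodup_nil, and_true]
      exact h12.ne
    · intro v hv
      simp only [List.mem_cons, List.not_mem_nil, or_false] at hv
      rcases hv with rfl | rfl
      · exact ⟨⟨_, hr1.1.1⟩, hr1.2⟩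
      · exact ⟨⟨_, hr2.1.1⟩, hr2.2⟩
  | succ p hp ih =>
    obtain ⟨hA1, hA2⟩ := EM1_nb hC Res g hRes F (w 1) x (p + 1) hx hF
    have hg : s ≤ (Res (w 2)).card := by
      rw [(hRes (w 2)).2]
      have h1 : (s : ℝ) ≤ g := by
        have h2 : d * g ≤ g := mul_le_of_le_one_left (Nat.cast_nonneg g) hC.d_le
        have h3 : (0 : ℝ) ≤ s := Nat.cast_nonneg s
        have h4 : (0 : ℝ) ≤ F.card := Nat.cast_nonneg _
        have h5 : (0 : ℝ) ≤ ((p + 1 : ℕ) : ℝ) := Nat.cast_nonneg _
        linarith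
      exact_mod_cast h1
    obtain ⟨r1, hr1, hd1⟩ := hC.typ _ _ (hw 1 (by omega)) (Res (w 2)) (hRes _).1 hg _ hA1 hA2
    rw [(hRes (w 2)).2] at hd1
    rw [Finset.mem_sdiff, Finset.mem_filter] at hr1
    have hF' : (2 * s + (insert r1 F).card + p : ℝ) ≤ d * g := by
      have h1 : ((insert r1 F).card : ℝ) ≤ F.card + 1 := by
        exact_mod_cast Finset.card_insert_le r1 F
      push_cast at hF
      linarith
    have hy' : d * g ≤ (dg G (Res ((fun i => w (i + 1)) (p - 1))) y : ℝ) := by
      have h1 : p - 1 + 1 = p + 1 - 1 := by omega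
      simp only [h1]
      exact hy
    obtain ⟨l, hl1, hl2, hl3, hl4⟩ := ih (insert r1 F) (fun i => w (i + 1))
      (fun i hi => hw (i + 1) (by omega)) r1 hd1 hy' hF'
    refine ⟨r1 :: l, ?_, ?_, ?_, ?_⟩
    · rw [List.cons_append, List.isChain_cons_cons]
      exact ⟨hr1.1.2, hl1⟩
    · rw [List.nodup_cons]
      exact ⟨fun h => (hl4 r1 h).2 (Finset.mem_insert_self _ _), hl2⟩
    · rw [List.length_cons, hl3]
      omega
    · intro v hv
      rcases List.mem_cons.1 hv with rfl | hv
      · exact ⟨⟨_, hr1.1.1⟩, hr1.2⟩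
      · exact ⟨(hl4 v hv).1, fun h => (hl4 v hv).2 (Finset.mem_insert_of_mem h)⟩

private theorem EM2_typ [DecidableEq V] {G : SimpleGraph V} {R : SimpleGraph ι}
    {X : ι → Finset V} {N s : ℕ} {d : ℝ}
    (hC : Clus G R X N s d) (Res : ι → Finset V) (g : ℕ)
    (hRes : ∀ a, Res a ⊆ X a ∧ (Res a).card = g) (hgs : s ≤ g) (a c : ι) (hc : R.Adj a c) :
    ((X a) \ (Res a)).filter (fun x => d * g ≤ (dg G (Res c) x : ℝ)) ⊆ X a ∧
      N ≤ (((X a) \ (Res a)).filter (fun x => d * g ≤ (dg G (Res c) x : ℝ))).card + g + s := by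
  refine ⟨(Finset.filter_subset _ _).trans Finset.sdiff_subset, ?_⟩
  have h1 : ((X a) \ (Res a)).card + g = N := by
    rw [Finset.card_sdiff_of_subset (hRes a).1, hC.size, (hRes a).2]
    have := Finset.card_le_card (hRes a).1
    rw [hC.size, (hRes a).2] at this
    omega
  have h2 := Finset.card_filter_add_card_filter_not (s := (X a) \ (Res a))
    (fun x => d * g ≤ (dg G (Res c) x : ℝ))
  have h3 : (((X a) \ (Res a)).filter (fun x => ¬ d * g ≤ (dg G (Res c) x : ℝ))).card < s := by
    by_contra hcon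
    push Not at hcon
    obtain ⟨x, hx, hd⟩ := hC.typ a c hc (Res c) (hRes c).1 (by rw [(hRes c).2]; exact hgs)
      _ ((Finset.filter_subset _ _).trans Finset.sdiff_subset) hcon
    rw [(hRes c).2] at hd
    exact absurd hd (not_le.2 (Finset.mem_filter.1 hx).2)
  omega

/- MODULE EM2 -/
/-- The long paths inside the matching pairs with typical ends.
`Res` as above.  For `j < q` the pair `a j ~ b j`, and clusters `c j ~ a j` (the last but one vertex
of the previous connecting walk), `e j ~ b j` (the second vertex of the next one).  There are paths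
`P j` with exactly `2 h j` vertices, from `x j ∈ X (a j)` to `y j ∈ X (b j)`, inside
`(X (a j) ∪ X (b j)) ∖ ⋃ Res`, where `x j` has `≥ d g` neighbours in `Res (c j)` and `y j` has
`≥ d g` neighbours in `Res (e j)`.
PROOF. For fixed `j`: `A = {x ∈ X (a j) ∖ Res (a j) : d g ≤ dg G (Res (c j)) x}`,
`B = {y ∈ X (b j) ∖ Res (b j) : d g ≤ dg G (Res (e j)) y}`.  The vertices of `X (a j) ∖ Res (a j)` not
in `A` are fewer than `s` by `typ` for `a j ~ c j` (`g ≥ s`), so `|A| ≥ N - g - s ≥ h j + 2 s`, also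
`|B|`.  `dfs_pair` (condition `hE` by `Clus.edge`). -/
theorem pair_path [DecidableEq V] {G : SimpleGraph V} {R : SimpleGraph ι} {X : ι → Finset V}
    {N s : ℕ} {d : ℝ}
    (hC : Clus G R X N s d) (Res : ι → Finset V) (g : ℕ)
    (hRes : ∀ a, Res a ⊆ X a ∧ (Res a).card = g) (hgs : s ≤ g) (a b c e : ι)
    (hab : R.Adj a b) (hc : R.Adj a c) (he : R.Adj b e) (h : ℕ) (h1 : 1 ≤ h)
    (h2 : h + g + 3 * s ≤ N) :
    ∃ x ∈ X a, ∃ y ∈ X b, ∃ l, PathL G x y l ∧ l.length = 2 * h ∧
      (∀ v ∈ l, (v ∈ X a ∨ v ∈ X b) ∧ ∀ i, v ∉ Res i) ∧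
      d * g ≤ (dg G (Res c) x : ℝ) ∧ d * g ≤ (dg G (Res e) y : ℝ) := by
  obtain ⟨hA1, hA2⟩ := EM2_typ hC Res g hRes hgs a c hc
  obtain ⟨hB1, hB2⟩ := EM2_typ hC Res g hRes hgs b e he
  classical
  set A := ((X a) \ (Res a)).filter (fun x => d * g ≤ (dg G (Res c) x : ℝ)) with hA
  set B := ((X b) \ (Res b)).filter (fun x => d * g ≤ (dg G (Res e) x : ℝ)) with hB
  have hab' : a ≠ b := hab.ne
  have hdis : Disjoint A B :=
    Finset.disjoint_of_subset_left hA1 (Finset.disjoint_of_subset_right hB1 (hC.disj a b hab'))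
  obtain ⟨x, hx, y, hy, l, hl, hlen, hmem⟩ := dfs_pair G A B s h hC.s_pos h1 hdis (by omega)
    (by omega) (fun A' hA' B' hB' hs1 hs2 =>
      hC.edge hab (hA'.trans hA1) (hB'.trans hB1) hs1 hs2)
  refine ⟨x, hA1 hx, y, hB1 hy, l, hl, hlen, ?_, (Finset.mem_filter.1 hx).2,
    (Finset.mem_filter.1 hy).2⟩
  intro v hv
  rcases hmem v hv with h3 | h3
  · refine ⟨Or.inl (hA1 h3), fun i hi => ?_⟩
    rcases eq_or_ne i a with rfl | hia
    · exact (Finset.mem_sdiff.1 (Finset.mem_filter.1 h3).1).2 hi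
    · exact Finset.disjoint_left.1 (hC.disj i a hia) ((hRes i).1 hi) (hA1 h3)
  · refine ⟨Or.inr (hB1 h3), fun i hi => ?_⟩
    rcases eq_or_ne i b with rfl | hib
    · exact (Finset.mem_sdiff.1 (Finset.mem_filter.1 h3).1).2 hi
    · exact Finset.disjoint_left.1 (hC.disj i b hib) ((hRes i).1 hi) (hB1 h3)

/- MODULE EM3 -/
private lemma EM3_sum (f : ℕ → ℕ) (q : ℕ) :
    ∑ i ∈ Finset.range (2 * q), f i = ∑ j ∈ Finset.range q, (f (2 * j) + f (2 * j + 1)) := by
  induction q with
  | zero => simp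
  | succ q ih =>
    rw [Finset.sum_range_succ, ← ih, show 2 * (q + 1) = 2 * q + 1 + 1 by ring,
      Finset.sum_range_succ, Finset.sum_range_succ]
    ring

private lemma EM3_mod (m q : ℕ) (h : m < q) : ((m + 1) % q + q - 1) % q = m := by
  rcases Nat.lt_or_ge (m + 1) q with h1 | h1
  · rw [Nat.mod_eq_of_lt h1, show m + 1 + q - 1 = m + q by omega, Nat.add_mod_right,
      Nat.mod_eq_of_lt h]
  · have : m + 1 = q := by omega
    rw [this, Nat.mod_self, Nat.zero_add, Nat.mod_eq_of_lt (by omega)]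
    omega

/-- EMBEDDING LEMMA (Łuczak's method).
`a j ~ b j` (`j < q`) are disjoint edges of the reduced graph, `w j` a walk of length `p j ≥ 3` in the
reduced graph from `b j` to `a (j+1)` (cyclically).  For all `h j` with `1 ≤ h j ≤ N - g - 3 s` there
is a cycle of length `∑ (2 h j - 1 + p j)`.
PROOF. Choose `Res i ⊆ X i` with `g` elements (`g ≤ N` by `h2` and `q ≥ 1`).  From `hg`: `s ≤ g` (as
`d ≤ 1`).  `pair_path` for every `j < q` with `c j = w (j-1) (p (j-1) - 1)` (cyclic predecessor,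
`j - 1` read as `(j + q - 1) % q`) and `e j = w j 1`; `a j ~ c j` since `w (j-1) (p (j-1)) = a j`.
Result: `x j`, `y j`, `P j`.  Then choose the connecting paths one after the other: for every `m ≤ q`
there are lists `c j`, `j < m`, with `y j :: (c j ++ [x ((j+1) % q)])` a chain, `c j` without
repetition, `|c j| = p j - 1`, all vertices of `c j` in `⋃ Res`, and `c i`, `c j` disjoint for `i ≠ j`:
induction on `m`, using `connector` with `F` the set of all vertices of the earlier `c i`,
`|F| ≤ ∑_(i < m) (p i - 1)`, so that `2 s + |F| + p m ≤ 2 s + ∑ p ≤ d g`.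
Finally `hasCyc_of_paths` with `r = 2 q`, `B (2 j) = P j`, `B (2 j + 1) = y j :: (c j ++ [x ((j+1) % q)])`,
`z (2 j) = x (j % q)`, `z (2 j + 1) = y j`.  The `P j` lie in `X (a j) ∪ X (b j)` outside the reserve
sets and are pairwise disjoint because the clusters are; the `c j` lie in the reserve sets.  The
sum of `|B i| - 1` is `∑ (2 h j - 1) + (p j)`. -/
theorem embed [DecidableEq V] {G : SimpleGraph V} {R : SimpleGraph ι} {X : ι → Finset V}
    {N s : ℕ} {d : ℝ} (hC : Clus G R X N s d) (q : ℕ) (hq : 1 ≤ q) (a b : ℕ → ι)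
    (hab : ∀ j < q, R.Adj (a j) (b j))
    (haa : ∀ i < q, ∀ j < q, i ≠ j → a i ≠ a j) (hbb : ∀ i < q, ∀ j < q, i ≠ j → b i ≠ b j)
    (hne : ∀ i < q, ∀ j < q, a i ≠ b j)
    (p : ℕ → ℕ) (w : ℕ → ℕ → ι) (hp : ∀ j < q, 3 ≤ p j)
    (hw0 : ∀ j < q, w j 0 = b j) (hw1 : ∀ j < q, w j (p j) = a ((j + 1) % q))
    (hw : ∀ j < q, ∀ i < p j, R.Adj (w j i) (w j (i + 1)))
    (g : ℕ) (hg : (2 * s + ∑ j ∈ Finset.range q, (p j : ℝ)) ≤ d * g)
    (h : ℕ → ℕ) (h1 : ∀ j < q, 1 ≤ h j) (h2 : ∀ j < q, h j + g + 3 * s ≤ N) :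
    HasCyc G (∑ j ∈ Finset.range q, (2 * h j - 1 + p j)) := by
  have hgN : g ≤ N := by have := h2 0 (by omega); omega
  have hRes0 : ∀ i, ∃ A : Finset V, A ⊆ X i ∧ A.card = g := fun i =>
    Finset.exists_subset_card_eq (by rw [hC.size]; exact hgN)
  choose Res hRes using hRes0
  have hgs : s ≤ g := by
    have hs0 : (0 : ℝ) ≤ ∑ j ∈ Finset.range q, (p j : ℝ) := Finset.sum_nonneg (fun _ _ => by positivity)
    have h3 : d * g ≤ 1 * g := by
      apply mul_le_mul_of_nonneg_right hC.d_le (by positivity)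
    have h4 : (s : ℝ) ≤ g := by
      have : (0 : ℝ) ≤ s := by positivity
      linarith
    exact_mod_cast h4
  -- the paths in the pairs
  have hpp : ∀ j < q, ∃ x ∈ X (a j), ∃ y ∈ X (b j), ∃ l, PathL G x y l ∧ l.length = 2 * h j ∧
      (∀ v ∈ l, (v ∈ X (a j) ∨ v ∈ X (b j)) ∧ ∀ i, v ∉ Res i) ∧
      d * g ≤ (dg G (Res (w ((j + q - 1) % q) (p ((j + q - 1) % q) - 1))) x : ℝ) ∧
      d * g ≤ (dg G (Res (w j 1)) y : ℝ) := by
    intro j hj
    have hj' : (j + q - 1) % q < q := Nat.mod_lt _ (by omega)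
    have hp' := hp _ hj'
    refine pair_path hC Res g hRes hgs (a j) (b j) _ _ (hab j hj) ?_ ?_ (h j) (h1 j hj) (h2 j hj)
    · have := hw _ hj' (p ((j + q - 1) % q) - 1) (by omega)
      rw [show p ((j + q - 1) % q) - 1 + 1 = p ((j + q - 1) % q) by omega, hw1 _ hj'] at this
      have hjj : ((j + q - 1) % q + 1) % q = j := by
        rw [Nat.mod_add_mod, show j + q - 1 + 1 = j + q by omega, Nat.add_mod_right,
          Nat.mod_eq_of_lt hj]
      rw [hjj] at this
      exact this.symm
    · have := hw j hj 0 (by have := hp j hj; omega)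
      rwa [hw0 j hj] at this
  obtain ⟨x00, -, -⟩ := hpp 0 (by omega)
  have hpp' : ∀ j, ∃ (x y : V) (l : List V), j < q → (x ∈ X (a j) ∧ y ∈ X (b j) ∧ PathL G x y l ∧
      l.length = 2 * h j ∧
      (∀ v ∈ l, (v ∈ X (a j) ∨ v ∈ X (b j)) ∧ ∀ i, v ∉ Res i) ∧
      d * g ≤ (dg G (Res (w ((j + q - 1) % q) (p ((j + q - 1) % q) - 1))) x : ℝ) ∧
      d * g ≤ (dg G (Res (w j 1)) y : ℝ)) := by
    intro j
    by_cases hj : j < q
    · obtain ⟨x, hx, y, hy, l, hl⟩ := hpp j hj
      exact ⟨x, y, l, fun _ => ⟨hx, hy, hl⟩⟩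
    · exact ⟨x00, x00, [], fun h => absurd h hj⟩
  choose x y P hP using hpp'
  -- the connectors
  have hcon : ∀ m ≤ q, ∃ c : ℕ → List V,
      (∀ j < m, (y j :: (c j ++ [x ((j + 1) % q)])).IsChain G.Adj ∧ (c j).Nodup ∧
        (c j).length = p j - 1 ∧ ∀ v ∈ c j, ∃ i, v ∈ Res i) ∧
      ∀ i < m, ∀ j < m, i ≠ j → List.Disjoint (c i) (c j) := by
    intro m
    induction m with
    | zero => exact fun _ => ⟨fun _ => [], fun j hj => absurd hj (by omega), fun i hi => absurd hi (by omega)⟩
    | succ m ih =>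
      intro hm
      obtain ⟨c, hc, hcd⟩ := ih (by omega)
      have hmq : m < q := by omega
      let F : Finset V := (Finset.range m).biUnion (fun j => (c j).toFinset)
      have hF : F.card ≤ ∑ j ∈ Finset.range m, p j := by
        refine Finset.card_biUnion_le.trans (Finset.sum_le_sum (fun j hj => ?_))
        have hj' := Finset.mem_range.1 hj
        have := (hc j hj').2.2.1
        have h5 := List.toFinset_card_le (c j)
        omega
      have hF' : (F.card : ℝ) ≤ ∑ j ∈ Finset.range m, (p j : ℝ) := by exact_mod_cast hF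
      have hsub : ∑ j ∈ Finset.range m, (p j : ℝ) + (p m : ℝ) ≤ ∑ j ∈ Finset.range q, (p j : ℝ) := by
        rw [← Finset.sum_range_succ]
        exact Finset.sum_le_sum_of_subset_of_nonneg
          (fun i hi => by simp only [Finset.mem_range] at hi ⊢; omega) (fun _ _ _ => by positivity)
      obtain ⟨l, hl1, hl2, hl3, hl4⟩ := connector hC Res g hRes F (p m) (hp m hmq) (w m) (hw m hmq)
        (y m) (x ((m + 1) % q)) (hP m hmq).2.2.2.2.2.2
        (by
          have := (hP ((m + 1) % q) (Nat.mod_lt _ (by omega))).2.2.2.2.2.1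
          rwa [EM3_mod m q hmq] at this)
        (by linarith)
      refine ⟨fun j => if j = m then l else c j, ?_, ?_⟩
      · intro j hj
        by_cases hjm : j = m
        · subst hjm
          simp only [if_true]
          exact ⟨hl1, hl2, hl3, fun v hv => (hl4 v hv).1⟩
        · simp only [hjm, if_false]
          exact hc j (by omega)
      · intro i hi j hj hij
        by_cases him : i = m
        · subst him
          have hji : j ≠ i := fun h => hij h.symm
          simp only [hji, if_false, if_true]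
          intro v hv hv'
          refine (hl4 v hv).2 ?_
          simp only [F, Finset.mem_biUnion, Finset.mem_range, List.mem_toFinset]
          exact ⟨j, by omega, hv'⟩
        · by_cases hjm : j = m
          · subst hjm
            simp only [him, if_false, if_true]
            intro v hv hv'
            refine (hl4 v hv').2 ?_
            simp only [F, Finset.mem_biUnion, Finset.mem_range, List.mem_toFinset]
            exact ⟨i, by omega, hv⟩
          · simp only [him, hjm, if_false]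
            exact hcd i (by omega) j (by omega) hij
  obtain ⟨c, hc, hcd⟩ := hcon q le_rfl
  -- disjointness of clusters
  have hdis : ∀ i j v, v ∈ X i → v ∈ X j → i = j := by
    intro i j v hi hj
    by_contra hij
    exact Finset.disjoint_left.1 (hC.disj i j hij) hi hj
  have hxR : ∀ j < q, ∀ i, x j ∉ Res i := fun j hj i =>
    ((hP j hj).2.2.2.2.1 _ (hP j hj).2.2.1.left_mem).2 i
  have hyR : ∀ j < q, ∀ i, y j ∉ Res i := fun j hj i =>
    ((hP j hj).2.2.2.2.1 _ (hP j hj).2.2.1.right_mem).2 i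
  have hmodlt : ∀ j, (j + 1) % q < q := fun j => Nat.mod_lt _ (by omega)
  -- membership in connectors
  have hcm : ∀ j < q, ∀ v ∈ y j :: (c j ++ [x ((j + 1) % q)]),
      v = y j ∨ (v ∈ c j ∧ ∃ i, v ∈ Res i) ∨ v = x ((j + 1) % q) := by
    intro j hj v hv
    simp only [List.mem_cons, List.mem_append, List.not_mem_nil, or_false] at hv
    rcases hv with hv | hv | hv
    · exact Or.inl hv
    · exact Or.inr (Or.inl ⟨hv, (hc j hj).2.2.2 v hv⟩)
    · exact Or.inr (Or.inr hv)
  let B : ℕ → List V := fun i => if i % 2 = 0 then P (i / 2) else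
    y (i / 2) :: (c (i / 2) ++ [x ((i / 2 + 1) % q)])
  let z : ℕ → V := fun i => if i % 2 = 0 then x ((i / 2) % q) else y (i / 2)
  have hBe : ∀ j, B (2 * j) = P j := fun j => by
    simp only [B]; rw [if_pos (by omega), show 2 * j / 2 = j by omega]
  have hBo : ∀ j, B (2 * j + 1) = y j :: (c j ++ [x ((j + 1) % q)]) := fun j => by
    simp only [B]; rw [if_neg (by omega), show (2 * j + 1) / 2 = j by omega]
  have hze : ∀ j, z (2 * j) = x (j % q) := fun j => by
    simp only [z]; rw [if_pos (by omega), show 2 * j / 2 = j by omega]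
  have hzo : ∀ j, z (2 * j + 1) = y j := fun j => by
    simp only [z]; rw [if_neg (by omega), show (2 * j + 1) / 2 = j by omega]
  have hyx : ∀ i < q, ∀ j < q, y i ≠ x j := by
    intro i hi j hj hyx
    have h3 := (hP i hi).2.1
    rw [hyx] at h3
    exact hne j hj i hi (hdis _ _ _ (hP j hj).1 h3)
  have hxx : ∀ i < q, ∀ j < q, x i = x j → i = j := by
    intro i hi j hj hxx
    by_contra hij
    have h3 := (hP i hi).1
    rw [hxx] at h3
    exact haa i hi j hj hij (hdis _ _ _ h3 (hP j hj).1)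
  have hyy : ∀ i < q, ∀ j < q, y i = y j → i = j := by
    intro i hi j hj hyy
    by_contra hij
    have h3 := (hP i hi).2.1
    rw [hyy] at h3
    exact hbb i hi j hj hij (hdis _ _ _ h3 (hP j hj).2.1)
  have hlenB : ∀ j < q, ((B (2 * j)).length - 1) + ((B (2 * j + 1)).length - 1) =
      2 * h j - 1 + p j := by
    intro j hj
    rw [hBe, hBo, (hP j hj).2.2.2.1]
    simp only [List.length_cons, List.length_append, List.length_nil]
    rw [(hc j hj).2.2.1]
    have := hp j hj
    omega
  have hsum : ∑ i ∈ Finset.range (2 * q), ((B i).length - 1) =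
      ∑ j ∈ Finset.range q, (2 * h j - 1 + p j) := by
    rw [EM3_sum]
    exact Finset.sum_congr rfl (fun j hj => hlenB j (Finset.mem_range.1 hj))
  rw [← hsum]
  refine hasCyc_of_paths (2 * q) (by omega) z B ?_ ?_ ?_ ?_ ?_
  · intro i hi
    obtain ⟨j, hj⟩ : ∃ j, i = 2 * j ∨ i = 2 * j + 1 := ⟨i / 2, by omega⟩
    rcases hj with rfl | rfl
    · have hj : j < q := by omega
      rw [hBe, hze, hzo, Nat.mod_eq_of_lt hj]
      exact (hP j hj).2.2.1
    · have hj : j < q := by omega
      rw [hBo, hzo, show 2 * j + 1 + 1 = 2 * (j + 1) by ring, hze]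
      refine ⟨(hc j hj).1, ?_, by simp, ?_⟩
      swap
      · rw [show y j :: (c j ++ [x ((j + 1) % q)]) = (y j :: c j) ++ [x ((j + 1) % q)] by simp,
          List.getLast?_append_of_ne_nil _ (by simp)]
        rfl
      rw [List.nodup_cons]
      refine ⟨?_, ?_⟩
      · intro hmem
        simp only [List.mem_append, List.mem_cons, List.not_mem_nil, or_false] at hmem
        rcases hmem with hmem | hmem
        · obtain ⟨i, hi⟩ := (hc j hj).2.2.2 _ hmem
          exact hyR j hj i hi
        · exact hyx j hj _ (hmodlt j) hmem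
      · rw [List.nodup_append]
        refine ⟨(hc j hj).2.1, by simp, ?_⟩
        intro u hu v hv huv
        simp only [List.mem_cons, List.not_mem_nil, or_false] at hv
        subst huv
        subst hv
        obtain ⟨i, hi⟩ := (hc j hj).2.2.2 _ hu
        exact hxR _ (hmodlt j) i hi
  · rw [hze, show z 0 = z (2 * 0) by rfl, hze, Nat.mod_self, Nat.zero_mod]
  · intro i hi
    obtain ⟨j, hj⟩ : ∃ j, i = 2 * j ∨ i = 2 * j + 1 := ⟨i / 2, by omega⟩
    rcases hj with rfl | rfl
    · have hj : j < q := by omega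
      rw [hBe, (hP j hj).2.2.2.1]
      have := h1 j hj
      omega
    · rw [hBo]
      simp
  · intro i j hij hj v hvi hvj
    obtain ⟨i', hi'⟩ : ∃ i', i = 2 * i' ∨ i = 2 * i' + 1 := ⟨i / 2, by omega⟩
    obtain ⟨j', hj'⟩ : ∃ j', j = 2 * j' ∨ j = 2 * j' + 1 := ⟨j / 2, by omega⟩
    have hi'q : i' < q := by omega
    have hj'q : j' < q := by omega
    rcases hi' with rfl | rfl <;> rcases hj' with rfl | rfl
    · -- even even
      exfalso
      rw [hBe] at hvi hvj
      have h3 := ((hP i' hi'q).2.2.2.2.1 v hvi).1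
      have h4 := ((hP j' hj'q).2.2.2.2.1 v hvj).1
      have hne' : i' ≠ j' := by omega
      rcases h3 with h3 | h3 <;> rcases h4 with h4 | h4
      · exact haa _ hi'q _ hj'q hne' (hdis _ _ _ h3 h4)
      · exact hne _ hi'q _ hj'q (hdis _ _ _ h3 h4)
      · exact hne _ hj'q _ hi'q (hdis _ _ _ h4 h3)
      · exact hbb _ hi'q _ hj'q hne' (hdis _ _ _ h3 h4)
    · -- even odd
      rw [hBe] at hvi
      rw [hBo] at hvj
      have h3 := (hP i' hi'q).2.2.2.2.1 v hvi
      rcases hcm j' hj'q v hvj with h4 | ⟨h4, h5⟩ | h4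
      · subst h4
        have h5 := (hP j' hj'q).2.1
        have : i' = j' := by
          by_contra hne'
          rcases h3.1 with h6 | h6
          · exact hne _ hi'q _ hj'q (hdis _ _ _ h6 h5)
          · exact hbb _ hi'q _ hj'q hne' (hdis _ _ _ h6 h5)
        subst this
        left
        exact ⟨rfl, (hzo _).symm⟩
      · obtain ⟨i0, hi0⟩ := h5
        exact absurd hi0 (h3.2 i0)
      · subst h4
        have h5 := (hP _ (hmodlt j')).1
        have : i' = (j' + 1) % q := by
          by_contra hne'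
          rcases h3.1 with h6 | h6
          · exact haa _ hi'q _ (hmodlt j') hne' (hdis _ _ _ h6 h5)
          · exact hne _ (hmodlt j') _ hi'q (hdis _ _ _ h5 h6)
        right
        have hjq : j' + 1 = q := by
          by_contra hjq
          rw [Nat.mod_eq_of_lt (by omega)] at this
          omega
        rw [hjq, Nat.mod_self] at this
        subst this
        refine ⟨rfl, by omega, ?_⟩
        rw [hjq, Nat.mod_self, show z 0 = z (2 * 0) by rfl, hze, Nat.zero_mod]
    · -- odd even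
      rw [hBo] at hvi
      rw [hBe] at hvj
      have h3 := (hP j' hj'q).2.2.2.2.1 v hvj
      rcases hcm i' hi'q v hvi with h4 | ⟨h4, h5⟩ | h4
      · exfalso
        subst h4
        have h5 := (hP i' hi'q).2.1
        have : i' = j' := by
          by_contra hne'
          rcases h3.1 with h6 | h6
          · exact hne _ hj'q _ hi'q (hdis _ _ _ h6 h5)
          · exact hbb _ hi'q _ hj'q hne' (hdis _ _ _ h5 h6)
        omega
      · obtain ⟨i0, hi0⟩ := h5
        exact absurd hi0 (h3.2 i0)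
      · subst h4
        have h5 := (hP _ (hmodlt i')).1
        have : j' = (i' + 1) % q := by
          by_contra hne'
          rcases h3.1 with h6 | h6
          · exact haa _ hj'q _ (hmodlt i') hne' (hdis _ _ _ h6 h5)
          · exact hne _ (hmodlt i') _ hj'q (hdis _ _ _ h5 h6)
        have hjq : i' + 1 < q := by
          omega
        rw [Nat.mod_eq_of_lt hjq] at this
        subst this
        left
        refine ⟨by ring, ?_⟩
        rw [hze]
    · -- odd odd
      exfalso
      rw [hBo] at hvi hvj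
      have hne' : i' ≠ j' := by omega
      rcases hcm i' hi'q v hvi with h4 | ⟨h4, h5⟩ | h4 <;>
        rcases hcm j' hj'q v hvj with h6 | ⟨h6, h7⟩ | h6
      · exact hne' (hyy _ hi'q _ hj'q (h4.symm.trans h6))
      · obtain ⟨i0, hi0⟩ := h7
        rw [h4] at hi0
        exact hyR _ hi'q i0 hi0
      · exact hyx _ hi'q _ (hmodlt j') (h4.symm.trans h6)
      · obtain ⟨i0, hi0⟩ := h5
        rw [h6] at hi0
        exact hyR _ hj'q i0 hi0
      · exact hcd i' hi'q j' hj'q hne' h4 h6
      · obtain ⟨i0, hi0⟩ := h5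
        rw [h6] at hi0
        exact hxR _ (hmodlt j') i0 hi0
      · exact hyx _ hj'q _ (hmodlt i') (h6.symm.trans h4)
      · obtain ⟨i0, hi0⟩ := h7
        rw [h4] at hi0
        exact hxR _ (hmodlt i') i0 hi0
      · have h8 := hxx _ (hmodlt i') _ (hmodlt j') (h4.symm.trans h6)
        rw [Nat.mod_eq_of_lt (show i' + 1 < q by omega)] at h8
        rcases Nat.lt_or_ge (j' + 1) q with h9 | h9
        · rw [Nat.mod_eq_of_lt h9] at h8
          omega
        · have : j' + 1 = q := by omega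
          rw [this, Nat.mod_self] at h8
          omega
  · rw [hsum]
    calc 3 ≤ 2 * h 0 - 1 + p 0 := by
          have := hp 0 (by omega)
          have := h1 0 (by omega)
          omega
      _ ≤ _ := Finset.single_le_sum (f := fun j => 2 * h j - 1 + p j) (fun _ _ => Nat.zero_le _)
          (Finset.mem_range.2 (by omega))

end TurMod
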