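import Pool.Agent.TurMod.Greedy

/-!
# Nearly balanced bipartite graphs with `2 m ≤ n ≤ (2 + 1/1000) m`: exact analysis
-/

namespace TurMod

open Finset

universe u

variable {V : Type*}

/-- nearly complete, nearly balanced bipartite pair, covering almost all vertices -/
structure NB [Fintype V] (G : SimpleGraph V) (m : ℕ) (P Q : Finset V) : Prop where
  disj : Disjoint P Q
  P1 : 99 * m ≤ 100 * P.card
  P2 : 100 * P.card ≤ 101 * m
  Q1 : 99 * m ≤ 100 * Q.card
  Q2 : 100 * Q.card ≤ 101 * m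
  dP : ∀ v ∈ P, 100 * Q.card ≤ 100 * dg G Q v + m
  dQ : ∀ v ∈ Q, 100 * P.card ≤ 100 * dg G P v + m
  cov : 100 * Fintype.card V ≤ 100 * (P.card + Q.card) + m

/-- PROOF. Symmetry of the definition. -/
theorem NB.symm [Fintype V] {G : SimpleGraph V} {m : ℕ} {P Q : Finset V} (h : NB G m P Q) :
    NB G m Q P := by
  exact ⟨h.disj.symm, h.Q1, h.Q2, h.P1, h.P2, h.dQ, h.dP, by rw [add_comm Q.card]; exact h.cov⟩

/- MODULE NB1 -/
private theorem NB1_sub [DecidableEq V] (G : SimpleGraph V) (P T : Finset V) (v : V) (h : T ⊆ P) :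
    T.card + dg G P v ≤ dg G T v + P.card := by
  classical
  have h1 : ∀ S : Finset V, dg G S v + (S.filter (fun u => ¬ G.Adj v u)).card = S.card := by
    intro S
    have h2 : dg G S v = (S.filter (fun u => G.Adj v u)).card := by
      unfold dg
      congr
    rw [h2]
    exact Finset.card_filter_add_card_filter_not _
  have h3 := h1 P
  have h4 := h1 T
  have h5 := Finset.card_le_card (Finset.filter_subset_filter (fun u => ¬ G.Adj v u) h)
  omega

private theorem NB1_cross [DecidableEq V] (G : SimpleGraph V) (U W : Finset V) :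
    ∑ v ∈ U, dg G W v = ∑ w ∈ W, dg G U w := by
  classical
  unfold dg
  simp only [Finset.card_filter]
  rw [Finset.sum_comm]
  refine Finset.sum_congr rfl fun w _ => Finset.sum_congr rfl fun v _ => ?_
  simp only [G.adj_comm]

private theorem NB1_union [DecidableEq V] (G : SimpleGraph V) (U W : Finset V) (h : Disjoint U W) :
    vol G (U ∪ W) = vol G U + vol G W + 2 * ∑ w ∈ W, dg G U w := by
  classical
  have hdg : ∀ v, dg G (U ∪ W) v = dg G U v + dg G W v := by
    intro v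
    unfold dg
    rw [Finset.filter_union, Finset.card_union_of_disjoint]
    exact Finset.disjoint_filter_filter h
  have hcross := NB1_cross G U W
  unfold vol
  rw [Finset.sum_union h]
  simp only [hdg, Finset.sum_add_distrib]
  rw [hcross]
  ring

private theorem NB1_vol (m n : ℕ) (hm : 1 ≤ m) (hn : 2 * m ≤ n) (vU : ℕ)
    (hvol : 2 * ((m - 1) * (n - (m - 1))) ≤ vU) :
    2 * (((m : ℝ) - 1) * ((n : ℝ) - ((m : ℝ) - 1))) ≤ (vU : ℝ) := by
  have h4 : ((2 * ((m - 1) * (n - (m - 1))) : ℕ) : ℝ) ≤ (vU : ℝ) := by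
    exact_mod_cast hvol
  have h5 : ((2 * ((m - 1) * (n - (m - 1))) : ℕ) : ℝ) =
      2 * (((m : ℝ) - 1) * ((n : ℝ) - ((m : ℝ) - 1))) := by
    have e1 : ((m - 1 : ℕ) : ℝ) = (m : ℝ) - 1 := by rw [Nat.cast_sub hm, Nat.cast_one]
    have e2 : ((n - (m - 1) : ℕ) : ℝ) = (n : ℝ) - ((m : ℝ) - 1) := by
      rw [Nat.cast_sub (by omega), e1]
    rw [Nat.cast_mul, Nat.cast_mul, e1, e2, Nat.cast_ofNat]
  rw [h5] at h4
  exact h4

private theorem NB1_num (M n p q vU vP vQ e : ℝ) (hM : (10 : ℝ) ^ 6 ≤ M) (hn : 2 * M ≤ n)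
    (hn2 : n ≤ (2 + 1 / 1000) * M) (hvol : 2 * ((M - 1) * (n - (M - 1))) ≤ vU)
    (hpq : p + q = n) (hP : vP ≤ 1 / 10 ^ 7 * n ^ 2) (hQ : vQ ≤ 1 / 10 ^ 7 * n ^ 2)
    (hU : vU = vP + vQ + 2 * e) (he : e ≤ p * q) :
    p * q - e ≤ 35 / 10 ^ 8 * n ^ 2 ∧ (p - n / 2) ^ 2 ≤ 35 / 10 ^ 8 * n ^ 2 := by
  norm_num at hM
  have h1 : 0 ≤ n / 2 - M + 1 := by linarith
  have h2 : n / 2 - M + 1 ≤ M / 1000 := by linarith
  have h3 : (n / 2 - M + 1) ^ 2 ≤ (M / 1000) ^ 2 := pow_le_pow_left₀ h1 h2 2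
  have hM0 : 0 ≤ M := by linarith
  have h4 : M ^ 2 ≤ (n / 2) ^ 2 := pow_le_pow_left₀ hM0 (by linarith) 2
  have h5 : (M - 1) * (n - (M - 1)) = n ^ 2 / 4 - (n / 2 - M + 1) ^ 2 := by ring
  rw [h5] at hvol
  have h9 : q = n - p := by linarith
  subst h9
  have h10 : p * (n - p) = n ^ 2 / 4 - (p - n / 2) ^ 2 := by ring
  have h11 : 0 ≤ (p - n / 2) ^ 2 := sq_nonneg _
  constructor
  · nlinarith
  · nlinarith

private theorem NB1_half [DecidableEq V] (G : SimpleGraph V) (P Q : Finset V) (N : ℝ) (hN : 0 < N)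
    (h : (P.card : ℝ) * (Q.card : ℝ) - ((∑ v ∈ P, dg G Q v : ℕ) : ℝ) ≤ 35 / 10 ^ 8 * N ^ 2) :
    ∃ P0 ⊆ P, ((P \ P0).card : ℝ) ≤ N / 2000 ∧ ∀ v ∈ P0, (Q.card : ℝ) ≤ (dg G Q v : ℝ) + N / 1000 := by
  classical
  refine ⟨P.filter (fun v => (Q.card : ℝ) ≤ (dg G Q v : ℝ) + N / 1000), Finset.filter_subset _ _, ?_,
    fun v hv => (Finset.mem_filter.1 hv).2⟩
  obtain ⟨R, hR⟩ : ∃ R, R = P \ P.filter (fun v => (Q.card : ℝ) ≤ (dg G Q v : ℝ) + N / 1000) := ⟨_, rfl⟩
  rw [← hR]
  have hRP : R ⊆ P := by rw [hR]; exact Finset.sdiff_subset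
  have h1 : ∑ v ∈ P, ((Q.card : ℝ) - (dg G Q v : ℝ)) = (P.card : ℝ) * (Q.card : ℝ) - ((∑ v ∈ P, dg G Q v : ℕ) : ℝ) := by
    rw [Finset.sum_sub_distrib, Finset.sum_const, nsmul_eq_mul, Nat.cast_sum]
  have h2 : ∑ v ∈ R, (N / 1000) ≤ ∑ v ∈ R, ((Q.card : ℝ) - (dg G Q v : ℝ)) := by
    apply Finset.sum_le_sum
    intro v hv
    rw [hR, Finset.mem_sdiff, Finset.mem_filter, not_and] at hv
    have h3 := hv.2 hv.1
    rw [not_le] at h3
    linarith
  have h3 : ∑ v ∈ R, ((Q.card : ℝ) - (dg G Q v : ℝ)) ≤ ∑ v ∈ P, ((Q.card : ℝ) - (dg G Q v : ℝ)) := by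
    apply Finset.sum_le_sum_of_subset_of_nonneg hRP
    intro v _ _
    have h4 := dg_le_card G Q v
    have h5 : (dg G Q v : ℝ) ≤ (Q.card : ℝ) := by exact_mod_cast h4
    linarith
  rw [Finset.sum_const, nsmul_eq_mul] at h2
  rw [h1] at h3
  have h6 : (R.card : ℝ) * (N / 1000) ≤ (N / 2000) * (N / 1000) := by
    have h7 : (N / 2000) * (N / 1000) = 50 / 10 ^ 8 * N ^ 2 := by ring
    have h8 : 0 ≤ N ^ 2 := sq_nonneg N
    rw [h7]
    linarith
  exact le_of_mul_le_mul_right h6 (by positivity)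

/-- FROM THE STABLE STRUCTURE.
PROOF. `Q = univ ∖ P`, `p = |P|`, `q = |Q| = n - p`, `e` = the number of edges between `P` and `Q`.
`(m-1)(n-m+1) = n²/4 - (n/2 - (m-1))²` and `1 ≤ n/2 - m + 1 ≤ m/2000 + 1 ≤ m/1000`; `m² ≤ n²/4`.  So
`2 e = vol G univ - vol P - vol Q ≥ n²/2 - 2 · 10^(-6) m² - 2 · 10^(-7) n² ≥ (1/2 - 0.7 · 10^(-6)) n²`,
`e ≥ (1/4 - 0.35 · 10^(-6)) n²`.  `p q ≥ e` gives `(p - n/2)² = n²/4 - p q ≤ 0.35 · 10^(-6) n²`, so `|p - n/2| ≤ n/1000`,
the same for `q`.  The number of non-adjacent pairs `(v, w) ∈ P × Q` is `p q - e ≤ n²/4 - e ≤ 0.35 · 10^(-6) n²`.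
`P0 = {v ∈ P : q ≤ dg Q v + n/1000}`: `|P ∖ P0| n/1000 ≤ 0.35 · 10^(-6) n²`, so `|P ∖ P0| ≤ n/2000`; `Q0` in the same
way.  Then `NB G m P0 Q0`: `|P0| ≥ n/2 - n/1000 - n/2000 ≥ 0.4985 n ≥ 0.99 m`, `|P0| ≤ n/2 + n/1000 ≤ 0.501 · 2.001 m ≤
1.01 m`; `v ∈ P0`: the non-neighbours in `Q0 ⊆ Q` are at most `n/1000 ≤ m/100`; `n - |P0| - |Q0| ≤ n/1000 ≤ m/100`. -/
theorem nb_of_stab [Fintype V] [DecidableEq V] (G : SimpleGraph V) (m : ℕ) (hm : 10 ^ 6 ≤ m)
    (hn : 2 * m ≤ Fintype.card V) (hn2 : (Fintype.card V : ℝ) ≤ (2 + 1 / 1000) * m)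
    (hvol : 2 * ((m - 1) * (Fintype.card V - (m - 1))) ≤ vol G Finset.univ) (P : Finset V)
    (hP : (vol G P : ℝ) ≤ 1 / 10 ^ 7 * (Fintype.card V : ℝ) ^ 2)
    (hQ : (vol G (Finset.univ \ P) : ℝ) ≤ 1 / 10 ^ 7 * (Fintype.card V : ℝ) ^ 2) :
    ∃ P0 Q0 : Finset V, NB G m P0 Q0 := by
  have hmR : (10 : ℝ) ^ 6 ≤ (m : ℝ) := by exact_mod_cast hm
  have hnR : 2 * (m : ℝ) ≤ (Fintype.card V : ℝ) := by exact_mod_cast hn
  have hm1 : 1 ≤ m := le_trans (by norm_num) hm
  have hvolR := NB1_vol m (Fintype.card V) hm1 hn _ hvol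
  have hc : P.card + (Finset.univ \ P).card = Fintype.card V := by
    rw [Finset.card_sdiff_of_subset (Finset.subset_univ _), Finset.card_univ]
    have := Finset.card_le_univ P
    omega
  have hcR : (P.card : ℝ) + ((Finset.univ \ P).card : ℝ) = (Fintype.card V : ℝ) := by exact_mod_cast hc
  obtain ⟨Q, hQd⟩ : ∃ Q : Finset V, Q = Finset.univ \ P := ⟨_, rfl⟩
  have hdPQ : Disjoint P Q := by rw [hQd]; exact Finset.disjoint_sdiff
  have huPQ : P ∪ Q = Finset.univ := by rw [hQd]; exact Finset.union_sdiff_of_subset (Finset.subset_univ _)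
  have huQP : Q ∪ P = Finset.univ := by rw [Finset.union_comm]; exact huPQ
  rw [← hQd] at hQ hcR hc
  have v1 := NB1_union G P Q hdPQ
  have v2 := NB1_union G Q P hdPQ.symm
  rw [huPQ] at v1
  rw [huQP] at v2
  have le1 : ∑ v ∈ P, dg G Q v ≤ P.card * Q.card := by
    have := Finset.sum_le_card_nsmul P (fun v => dg G Q v) Q.card (fun v _ => dg_le_card G Q v)
    rwa [smul_eq_mul] at this
  have le2 : ∑ v ∈ Q, dg G P v ≤ Q.card * P.card := by
    have := Finset.sum_le_card_nsmul Q (fun v => dg G P v) P.card (fun v _ => dg_le_card G P v)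
    rwa [smul_eq_mul] at this
  obtain ⟨a1, a2⟩ := NB1_num m (Fintype.card V) P.card Q.card (vol G Finset.univ) (vol G P)
    (vol G Q) ((∑ v ∈ P, dg G Q v : ℕ) : ℝ) hmR hnR hn2 hvolR hcR hP hQ (by rw [v2]; push_cast; ring)
    (by exact_mod_cast le1)
  obtain ⟨b1, b2⟩ := NB1_num m (Fintype.card V) Q.card P.card (vol G Finset.univ) (vol G Q)
    (vol G P) ((∑ v ∈ Q, dg G P v : ℕ) : ℝ) hmR hnR hn2 hvolR (by linarith) hQ hP (by rw [v1]; push_cast; ring)
    (by exact_mod_cast le2)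
  norm_num at hmR
  have hN : (0 : ℝ) < (Fintype.card V : ℝ) := by
    have h1 : (1000000 : ℝ) ≤ (m : ℝ) := by exact_mod_cast hmR
    linarith
  have hM1 : (1000000 : ℝ) ≤ (m : ℝ) := by exact_mod_cast hmR
  have hN2 : (0 : ℝ) ≤ (Fintype.card V : ℝ) ^ 2 := sq_nonneg _
  have habs : ∀ x : ℝ, (x - (Fintype.card V : ℝ) / 2) ^ 2 ≤ 35 / 10 ^ 8 * (Fintype.card V : ℝ) ^ 2 →
      (Fintype.card V : ℝ) / 2 - (Fintype.card V : ℝ) / 1000 ≤ x ∧
        x ≤ (Fintype.card V : ℝ) / 2 + (Fintype.card V : ℝ) / 1000 := by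
    intro x hx
    have h1 : (x - (Fintype.card V : ℝ) / 2) ^ 2 ≤ ((Fintype.card V : ℝ) / 1000) ^ 2 := by
      refine hx.trans ?_
      have h2 : ((Fintype.card V : ℝ) / 1000) ^ 2 = 100 / 10 ^ 8 * (Fintype.card V : ℝ) ^ 2 := by ring
      rw [h2]
      linarith
    have h2 := abs_le_of_sq_le_sq' h1 (by positivity)
    constructor
    · linarith [h2.1]
    · linarith [h2.2]
  obtain ⟨p1, p2⟩ := habs _ a2
  obtain ⟨q1, q2⟩ := habs _ b2
  obtain ⟨P0, hP0, hP0c, hP0d⟩ := NB1_half G P Q _ hN a1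
  obtain ⟨Q0, hQ0, hQ0c, hQ0d⟩ := NB1_half G Q P _ hN b1
  have cP : (P0.card : ℝ) + ((P \ P0).card : ℝ) = (P.card : ℝ) := by
    have h1 := Finset.card_sdiff_add_card_eq_card hP0
    have h2 : P0.card + (P \ P0).card = P.card := by omega
    exact_mod_cast h2
  have cQ : (Q0.card : ℝ) + ((Q \ Q0).card : ℝ) = (Q.card : ℝ) := by
    have h1 := Finset.card_sdiff_add_card_eq_card hQ0
    have h2 : Q0.card + (Q \ Q0).card = Q.card := by omega
    exact_mod_cast h2
  have dP0 : (0 : ℝ) ≤ ((P \ P0).card : ℝ) := Nat.cast_nonneg _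
  have dQ0 : (0 : ℝ) ≤ ((Q \ Q0).card : ℝ) := Nat.cast_nonneg _
  refine ⟨P0, Q0, ⟨?_, ?_, ?_, ?_, ?_, ?_, ?_, ?_⟩⟩
  · exact Finset.disjoint_of_subset_left hP0 (Finset.disjoint_of_subset_right hQ0 hdPQ)
  · have h1 : 99 * (m : ℝ) ≤ 100 * (P0.card : ℝ) := by linarith
    exact_mod_cast h1
  · have h1 : 100 * (P0.card : ℝ) ≤ 101 * (m : ℝ) := by linarith
    exact_mod_cast h1
  · have h1 : 99 * (m : ℝ) ≤ 100 * (Q0.card : ℝ) := by linarith
    exact_mod_cast h1
  · have h1 : 100 * (Q0.card : ℝ) ≤ 101 * (m : ℝ) := by linarith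
    exact_mod_cast h1
  · intro v hv
    have h1 := hP0d v hv
    have h2 := NB1_sub G Q Q0 v hQ0
    have h3 : (Q0.card : ℝ) + (dg G Q v : ℝ) ≤ (dg G Q0 v : ℝ) + (Q.card : ℝ) := by exact_mod_cast h2
    have h4 : 100 * (Q0.card : ℝ) ≤ 100 * (dg G Q0 v : ℝ) + m := by linarith
    exact_mod_cast h4
  · intro v hv
    have h1 := hQ0d v hv
    have h2 := NB1_sub G P P0 v hP0
    have h3 : (P0.card : ℝ) + (dg G P v : ℝ) ≤ (dg G P0 v : ℝ) + (P.card : ℝ) := by exact_mod_cast h2
    have h4 : 100 * (P0.card : ℝ) ≤ 100 * (dg G P0 v : ℝ) + m := by linarith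
    exact_mod_cast h4
  · have h2 : 100 * (Fintype.card V : ℝ) ≤ 100 * ((P0.card : ℝ) + (Q0.card : ℝ)) + m := by linarith
    exact_mod_cast h2

/- MODULE NB2 -/
private theorem NB2_nb [DecidableEq V] (G : SimpleGraph V) (P F : Finset V) (w : V)
    (h : F.card < dg G P w) : ∃ u ∈ P, G.Adj w u ∧ u ∉ F := by
  classical
  have h1 : dg G P w = (P.filter (fun u => G.Adj w u)).card := by
    unfold dg
    congr
  rw [h1] at h
  have h2 : ∃ u ∈ P.filter (fun u => G.Adj w u), u ∉ F := by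
    by_contra hcon
    push Not at hcon
    exact absurd (Finset.card_le_card (fun u hu => hcon u hu)) (by omega)
  obtain ⟨u, hu, hF⟩ := h2
  rw [Finset.mem_filter] at hu
  exact ⟨u, hu.1, hu.2, hF⟩

private theorem NB2_snoc {G : SimpleGraph V} {a y c : V} {l : List V} (h : PathL G a y l)
    (hy : G.Adj y c) (hd : c ∉ l) : PathL G a c (l ++ [c]) := by
  have h1 : PathL G y c [y, c] := by
    refine ⟨by simp [hy], ?_, by simp, by simp⟩
    have h2 : y ≠ c := hy.ne
    simp [h2]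
  have h2 := h.glue h1 (by
    intro v hv hv'
    rcases List.mem_cons.1 hv' with h3 | h3
    · exact h3
    · rw [List.mem_singleton] at h3
      exact absurd (h3 ▸ hv) hd)
  exact h2

private theorem NB2_codeg [DecidableEq V] (G : SimpleGraph V) (P B : Finset V) (u w : V) (hB : B ⊆ P) (c : ℕ)
    (hu : P.card ≤ dg G P u + c) (hw : P.card ≤ dg G P w + c) : B.card ≤ codeg G B u w + 2 * c := by
  classical
  have h1 := NB1_sub G P B u hB
  have h2 := NB1_sub G P B w hB
  have h3 : B.card ≤ codeg G B u w + (B.filter (fun z => ¬ G.Adj u z)).card + (B.filter (fun z => ¬ G.Adj w z)).card := by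
    have h4 : B ⊆ (B.filter (fun z => G.Adj u z ∧ G.Adj w z)) ∪ (B.filter (fun z => ¬ G.Adj u z)) ∪
        (B.filter (fun z => ¬ G.Adj w z)) := by
      intro z hz
      rw [Finset.mem_union, Finset.mem_union, Finset.mem_filter, Finset.mem_filter, Finset.mem_filter]
      by_cases h5 : G.Adj u z
      · by_cases h6 : G.Adj w z
        · exact Or.inl (Or.inl ⟨hz, h5, h6⟩)
        · exact Or.inr ⟨hz, h6⟩
      · exact Or.inl (Or.inr ⟨hz, h5⟩)
    have h5 := Finset.card_le_card h4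
    have h6 := Finset.card_union_le ((B.filter (fun z => G.Adj u z ∧ G.Adj w z)) ∪ (B.filter (fun z => ¬ G.Adj u z)))
      (B.filter (fun z => ¬ G.Adj w z))
    have h7 := Finset.card_union_le (B.filter (fun z => G.Adj u z ∧ G.Adj w z)) (B.filter (fun z => ¬ G.Adj u z))
    have h8 : codeg G B u w = (B.filter (fun z => G.Adj u z ∧ G.Adj w z)).card := by
      unfold codeg
      congr
    omega
  have h9 : ∀ v, dg G B v + (B.filter (fun z => ¬ G.Adj v z)).card = B.card := by
    intro v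
    have h10 : dg G B v = (B.filter (fun z => G.Adj v z)).card := by
      unfold dg
      congr
    rw [h10]
    exact Finset.card_filter_add_card_filter_not _
  have h10 := h9 u
  have h11 := h9 w
  omega

/-- PATHS.  `x ≠ y`, both with at least `m / 5` neighbours in `Q`: a path from `x` to `y` with `i` inner vertices in `Q`
and `i - 1` in `P`.
PROOF. Choose `q ∈ N(x) ∩ Q`, `q' ∈ N(y) ∩ Q`, `q ≠ q'`, different from `x`, `y`, and a list without repetition of `i`
elements of `Q ∖ {x, y}` from `q` to `q'` (`2 ≤ i ≤ m/2 ≤ |Q| - 2`); `weave` with `P ∖ {x, y}`, `S` = all, `c = 0`: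
two elements of `Q` have at least `|P| - 2 m/100 - 2 ≥ m/2 ≥ i` common neighbours there.  Put `x` in front and
`y` at the end. -/
theorem nb_path [Fintype V] [DecidableEq V] {G : SimpleGraph V} {m : ℕ} {P Q : Finset V}
    (h : NB G m P Q) (hm : 1000 ≤ m) (x y : V) (hxy : x ≠ y) (hx : m ≤ 5 * dg G Q x)
    (hy : m ≤ 5 * dg G Q y) (i : ℕ) (h2 : 2 ≤ i) (hi : 2 * i ≤ m) :
    ∃ l, PathL G x y l ∧ l.length = 2 * i + 1 := by
  classical
  have hQ1 := h.Q1
  have hP1 := h.P1
  obtain ⟨q, hq, hxq, hqF⟩ := NB2_nb G Q {x, y} x (by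
    have := Finset.card_le_two (a := x) (b := y)
    omega)
  obtain ⟨q', hq', hyq, hqF'⟩ := NB2_nb G Q {x, y, q} y (by
    have := Finset.card_le_three (a := x) (b := y) (c := q)
    omega)
  simp only [Finset.mem_insert, Finset.mem_singleton, not_or] at hqF hqF'
  have hT0 : i - 2 ≤ (Q \ {x, y, q, q'}).card := by
    have h4 := Finset.le_card_sdiff {x, y, q, q'} Q
    have h5 := Finset.card_le_four (a := x) (b := y) (c := q) (d := q')
    omega
  obtain ⟨T, hT, hTc⟩ := Finset.exists_subset_card_eq hT0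
  have hTm : ∀ w ∈ T, w ∈ Q ∧ w ≠ x ∧ w ≠ y ∧ w ≠ q ∧ w ≠ q' := by
    intro w hw
    have h4 := Finset.mem_sdiff.1 (hT hw)
    refine ⟨h4.1, ?_⟩
    have h5 := h4.2
    simp only [Finset.mem_insert, Finset.mem_singleton, not_or] at h5
    exact h5
  obtain ⟨l, hl⟩ : ∃ l : List V, l = q :: (T.toList ++ [q']) := ⟨_, rfl⟩
  have hlm : ∀ w ∈ l, w ∈ Q ∧ w ≠ x ∧ w ≠ y := by
    intro w hw
    rw [hl, List.mem_cons, List.mem_append, Finset.mem_toList, List.mem_singleton] at hw
    rcases hw with h4 | h4 | h4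
    · exact ⟨h4 ▸ hq, h4 ▸ hqF.1, h4 ▸ hqF.2⟩
    · exact ⟨(hTm w h4).1, (hTm w h4).2.1, (hTm w h4).2.2.1⟩
    · exact ⟨h4 ▸ hq', h4 ▸ hqF'.1, h4 ▸ hqF'.2.1⟩
  have hln : l.Nodup := by
    rw [hl, List.nodup_cons, List.mem_append, Finset.mem_toList, List.mem_singleton, not_or,
      List.nodup_append]
    refine ⟨⟨fun h4 => (hTm q h4).2.2.2.1 rfl, fun h4 => hqF'.2.2 h4.symm⟩, Finset.nodup_toList T, by simp, ?_⟩
    intro a ha b hb hab
    rw [Finset.mem_toList] at ha
    rw [List.mem_singleton] at hb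
    exact (hTm a ha).2.2.2.2 (hab.trans hb)
  have hll : l.length = i := by
    rw [hl, List.length_cons, List.length_append, Finset.length_toList, hTc, List.length_singleton]
    omega
  obtain ⟨B, hB⟩ : ∃ B, B = P \ {x, y} := ⟨_, rfl⟩
  have hBP : B ⊆ P := by rw [hB]; exact Finset.sdiff_subset
  have hBm : ∀ w ∈ B, w ≠ x ∧ w ≠ y := by
    intro w hw
    rw [hB, Finset.mem_sdiff] at hw
    have h5 := hw.2
    simp only [Finset.mem_insert, Finset.mem_singleton, not_or] at h5
    exact h5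
  have hBc : P.card ≤ B.card + 2 := by
    have h4 := Finset.le_card_sdiff {x, y} P
    have h5 := Finset.card_le_two (a := x) (b := y)
    rw [hB]
    omega
  have hall : ∀ R : V → V → Prop, (∀ a ∈ l, ∀ b ∈ l, R a b) → l.IsChain R :=
    fun R h => (List.pairwise_of_forall_mem_list h).isChain
  have hco : ∀ a ∈ l, ∀ b ∈ l, i ≤ codeg G B a b := by
    intro a ha b hb
    have h4 := h.dQ a (hlm a ha).1
    have h5 := h.dQ b (hlm b hb).1
    have h6 := NB2_codeg G P B a b hBP (m / 100) (by omega) (by omega)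
    omega
  have hhead : l.head? = some q := by rw [hl]; simp
  have hlast : l.getLast? = some q' := by
    rw [hl, List.getLast?_cons_of_ne_nil (by simp), List.getLast?_append_of_ne_nil _ (by simp)]
    simp
  obtain ⟨L, hL, hLl, hLv⟩ := weave G B Finset.univ l hln (by rw [hl]; simp)
    (fun w hw hwB => Finset.disjoint_left.1 h.disj (hBP hwB) (hlm w hw).1) i i 0
    (hall _ hco) (hall _ (fun a ha b hb _ _ => hco a ha b hb))
    (by rw [Finset.sdiff_eq_empty_iff_subset.2 (Finset.subset_univ _), Finset.card_empty])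
    (by omega) (by omega) q q' hhead hlast
  have hLm : ∀ w ∈ L, w ≠ x ∧ w ≠ y := by
    intro w hw
    rcases hLv w hw with h4 | h4
    · exact (hlm w h4).2
    · exact hBm w h4
  have p1 := NB2_snoc hL hyq.symm (fun h4 => (hLm y h4).2 rfl)
  have p2 := NB2_snoc p1.reverse hxq.symm (by
    rw [List.mem_reverse, List.mem_append, List.mem_singleton, not_or]
    exact ⟨fun h4 => (hLm x h4).1 rfl, hxy⟩)
  refine ⟨_, p2.reverse, ?_⟩
  rw [List.length_reverse, List.length_append, List.length_reverse, List.length_append, hLl, hll]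
  simp only [List.length_singleton]
  omega

/-- ODD CYCLES.
PROOF. `l = 3`: a common neighbour of `x` and `y` in `Q` (`hsum`).  `l ≥ 5`: `nb_path` with `i = (l - 1)/2`, closed by the
edge `x y` (`hasCyc_of_list`). -/
theorem nb_cycle [Fintype V] [DecidableEq V] {G : SimpleGraph V} {m : ℕ} {P Q : Finset V}
    (h : NB G m P Q) (hm : 1000 ≤ m) (x y : V) (hxy : G.Adj x y) (hx : m ≤ 5 * dg G Q x)
    (hy : m ≤ 5 * dg G Q y) (hsum : Q.card < dg G Q x + dg G Q y) (l : ℕ) (hl : Odd l)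
    (h3 : 3 ≤ l) (hlm : l < m) : HasCyc G l := by
  classical
  obtain ⟨r, hr⟩ := hl
  rcases Nat.lt_or_ge 3 l with h5 | h5
  · obtain ⟨L, hL, hLl⟩ := nb_path h hm x y hxy.ne hx hy r (by omega) (by omega)
    have h6 := hasCyc_of_list hL (by omega) hxy.symm
    rw [hLl, ← hr] at h6
    exact h6
  · have hl3 : l = 3 := by omega
    obtain ⟨z, hz, hxz, hyz⟩ : ∃ z ∈ Q, G.Adj x z ∧ G.Adj y z := by
      by_contra hcon
      push Not at hcon
      have h6 : Disjoint (Q.filter (fun z => G.Adj x z)) (Q.filter (fun z => G.Adj y z)) := by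
        rw [Finset.disjoint_left]
        intro z hz hz'
        rw [Finset.mem_filter] at hz hz'
        exact hcon z hz.1 hz.2 hz'.2
      have h7 := Finset.card_union_of_disjoint h6
      have h8 := Finset.card_le_card (Finset.union_subset (Finset.filter_subset (fun z => G.Adj x z) Q)
        (Finset.filter_subset (fun z => G.Adj y z) Q))
      have h9 : ∀ w, dg G Q w = (Q.filter (fun z => G.Adj w z)).card := by
        intro w
        unfold dg
        congr
      rw [h9 x, h9 y] at hsum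
      omega
    have p : PathL G x y [x, z, y] := by
      refine ⟨?_, ?_, by simp, by simp⟩
      · simp only [List.isChain_cons_cons, List.IsChain.singleton, and_true]
        exact ⟨hxz, hyz.symm⟩
      · simp only [List.nodup_cons, List.mem_cons, List.not_mem_nil, or_false, not_or, not_false_eq_true,
          List.nodup_nil, and_true]
        exact ⟨⟨hxz.ne, hxy.ne⟩, hyz.ne.symm⟩
    have h6 := hasCyc_of_list p (by simp) hxy.symm
    rw [hl3]
    exact h6

/- MODULE NB3 -/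
private theorem NB3_sum [Fintype V] [DecidableEq V] {G : SimpleGraph V} {m : ℕ} {P Q : Finset V}
    (h : NB G m P Q) (w : V) : 100 * dg G Finset.univ w ≤ 100 * (dg G P w + dg G Q w) + m := by
  classical
  have h1 := NB1_sub G Finset.univ (P ∪ Q) w (Finset.subset_univ _)
  have h2 : (P ∪ Q).card = P.card + Q.card := Finset.card_union_of_disjoint h.disj
  have h3 : dg G (P ∪ Q) w ≤ dg G P w + dg G Q w := by
    unfold dg
    rw [Finset.filter_union]
    exact Finset.card_union_le _ _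
  have h4 := h.cov
  rw [h2, Finset.card_univ] at h1
  omega

private theorem NB3_half [Fintype V] [DecidableEq V] {G : SimpleGraph V} {m : ℕ} {P Q : Finset V}
    (h : NB G m P Q) (hm : 1000 ≤ m) (l : ℕ) (hl : Odd l) (h3 : 3 ≤ l) (hlm : l < m)
    (nol : ¬ HasCyc G l) (w : V) (hw : m ≤ 5 * dg G Q w) : dg G P w = 0 := by
  by_contra hne
  obtain ⟨p, hp, hwp, -⟩ := NB2_nb G P ∅ w (by rw [Finset.card_empty]; omega)
  have h4 := h.dP p hp
  have h5 := h.Q1
  exact nol (nb_cycle h hm w p hwp hw (by omega) (by omega) l hl h3 hlm)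

/-- CLASSIFICATION of the vertices of degree at least `3 m/4`.
PROOF. `w` has at least `3 m/4 - m/100 = 0.74 m` neighbours in `P ∪ Q` (`cov`).  Suppose `p ∈ N(w) ∩ P`, `q ∈ N(w) ∩ Q`.  One of
`dg P w`, `dg Q w` is at least `0.37 m ≥ m/5`; say `dg Q w`.  `nb_cycle` for the edge `w p`: `dg Q p ≥ |Q| - m/100`, so
`dg Q p ≥ m/5` and `dg Q p + dg Q w > |Q|`: a cycle of length `l`, contradiction.  The other case by `NB.symm`. -/
theorem nb_class [Fintype V] [DecidableEq V] {G : SimpleGraph V} {m : ℕ} {P Q : Finset V}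
    (h : NB G m P Q) (hm : 1000 ≤ m) (l : ℕ) (hl : Odd l) (h3 : 3 ≤ l) (hlm : l < m)
    (nol : ¬ HasCyc G l) (w : V) (hw : 3 * m ≤ 4 * dg G Finset.univ w) :
    (dg G P w = 0 ∧ 74 * m ≤ 100 * dg G Q w) ∨ (dg G Q w = 0 ∧ 74 * m ≤ 100 * dg G P w) := by
  have h1 := NB3_sum h w
  by_cases h2 : m ≤ 5 * dg G Q w
  · left
    have h4 := NB3_half h hm l hl h3 hlm nol w h2
    refine ⟨h4, ?_⟩
    omega
  · right
    have h4 := NB3_half h.symm hm l hl h3 hlm nol w (by omega)
    refine ⟨h4, ?_⟩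
    omega

/- MODULE NB4 -/
/-- THE TWO SIDES ARE INDEPENDENT.
PROOF. `P1 = {w : 3 m ≤ 4 dg univ w, dg P w = 0}`, `Q1 = {w : 3 m ≤ 4 dg univ w, dg P w ≠ 0}`.  By `nb_class` the
elements of `P1` have at least `0.74 m` neighbours in `Q`, those of `Q1` at least `0.74 m` in `P` and none in `Q`.
If `u ~ v` in `P1`: `dg Q u + dg Q v ≥ 1.48 m > |Q|`, `nb_cycle`: contradiction.  For `Q1` use `NB.symm`. -/
theorem nb_sides [Fintype V] [DecidableEq V] {G : SimpleGraph V} {m : ℕ} {P Q : Finset V}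
    (h : NB G m P Q) (hm : 1000 ≤ m) (l : ℕ) (hl : Odd l) (h3 : 3 ≤ l) (hlm : l < m)
    (nol : ¬ HasCyc G l) : ∃ P1 Q1 : Finset V, Disjoint P1 Q1 ∧
      (∀ w, w ∈ P1 ∪ Q1 ↔ 3 * m ≤ 4 * dg G Finset.univ w) ∧
      (∀ u ∈ P1, ∀ v ∈ P1, ¬ G.Adj u v) ∧ (∀ u ∈ Q1, ∀ v ∈ Q1, ¬ G.Adj u v) := by
  classical
  obtain ⟨P1, hP1⟩ : ∃ P1 : Finset V, P1 = Finset.univ.filter (fun w => 3 * m ≤ 4 * dg G Finset.univ w ∧
    dg G P w = 0) := ⟨_, rfl⟩
  obtain ⟨Q1, hQ1⟩ : ∃ Q1 : Finset V, Q1 = Finset.univ.filter (fun w => 3 * m ≤ 4 * dg G Finset.univ w ∧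
    ¬ dg G P w = 0) := ⟨_, rfl⟩
  have m1 : ∀ w, w ∈ P1 ↔ (3 * m ≤ 4 * dg G Finset.univ w ∧ dg G P w = 0) := by
    intro w
    rw [hP1, Finset.mem_filter]
    exact ⟨fun h1 => h1.2, fun h1 => ⟨Finset.mem_univ _, h1⟩⟩
  have m2 : ∀ w, w ∈ Q1 ↔ (3 * m ≤ 4 * dg G Finset.univ w ∧ ¬ dg G P w = 0) := by
    intro w
    rw [hQ1, Finset.mem_filter]
    exact ⟨fun h1 => h1.2, fun h1 => ⟨Finset.mem_univ _, h1⟩⟩
  refine ⟨P1, Q1, ?_, ?_, ?_, ?_⟩
  · rw [Finset.disjoint_left]
    intro v hv hv'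
    exact ((m2 v).1 hv').2 ((m1 v).1 hv).2
  · intro w
    rw [Finset.mem_union, m1, m2]
    by_cases h4 : dg G P w = 0
    · tauto
    · tauto
  · intro u hu v hv huv
    have hu' := (m1 u).1 hu
    have hv' := (m1 v).1 hv
    have cu : 74 * m ≤ 100 * dg G Q u := by
      rcases nb_class h hm l hl h3 hlm nol u hu'.1 with h4 | h4
      · exact h4.2
      · omega
    have cv : 74 * m ≤ 100 * dg G Q v := by
      rcases nb_class h hm l hl h3 hlm nol v hv'.1 with h4 | h4
      · exact h4.2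
      · omega
    have h5 := h.Q2
    exact nol (nb_cycle h hm u v huv (by omega) (by omega) (by omega) l hl h3 hlm)
  · intro u hu v hv huv
    have hu' := (m2 u).1 hu
    have hv' := (m2 v).1 hv
    have cu : 74 * m ≤ 100 * dg G P u := by
      rcases nb_class h hm l hl h3 hlm nol u hu'.1 with h4 | h4
      · exact absurd h4.1 hu'.2
      · exact h4.2
    have cv : 74 * m ≤ 100 * dg G P v := by
      rcases nb_class h hm l hl h3 hlm nol v hv'.1 with h4 | h4
      · exact absurd h4.1 hv'.2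
      · exact h4.2
    have h5 := h.P2
    exact nol (nb_cycle h.symm hm u v huv (by omega) (by omega) (by omega) l hl h3 hlm)

/- MODULE NB5 -/
private theorem NB5_vol (G : SimpleGraph V) (U : Finset V) (h : ∀ u ∈ U, ∀ v ∈ U, ¬ G.Adj u v) :
    vol G U = 0 := by
  classical
  unfold vol
  apply Finset.sum_eq_zero
  intro v hv
  unfold dg
  rw [Finset.card_eq_zero, Finset.filter_eq_empty_iff]
  intro w hw
  exact h v hv w hw

private theorem NB5_low [Fintype V] [DecidableEq V] (G : SimpleGraph V) (U L : Finset V)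
    (h : Disjoint U L) (hU : U ∪ L = Finset.univ) :
    vol G Finset.univ ≤ vol G U + 2 * ∑ w ∈ L, dg G Finset.univ w := by
  have h1 := NB1_union G U L h
  rw [hU] at h1
  have h2 : ∀ w ∈ L, dg G Finset.univ w = dg G L w + dg G U w := by
    intro w _
    rw [← hU]
    classical
    unfold dg
    rw [Finset.filter_union, Finset.card_union_of_disjoint (Finset.disjoint_filter_filter h)]
    ring
  rw [Finset.sum_congr rfl h2, Finset.sum_add_distrib]
  have h3 : vol G L = ∑ w ∈ L, dg G L w := rfl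
  omega

private theorem NB5_num (m p q t vU S : ℝ) (hm : 1000 ≤ m) (ht : 1 ≤ t) (htm : 100 * t ≤ m)
    (hs : p + q + t = 2 * m) (hv : 2 * ((m - 1) * (m + 1)) ≤ vU)
    (hv2 : vU ≤ 2 * (p * q) + 2 * S) (hS : 4 * S ≤ 3 * (m * t)) : False := by
  have h3 : q = 2 * m - p - t := by linarith
  subst h3
  have h4 : 0 ≤ (2 * p - (2 * m - t)) ^ 2 := sq_nonneg _
  have h5 : (m - t) * 1 ≤ (m - t) * t := mul_le_mul_of_nonneg_left ht (by linarith)
  nlinarith

/-- NO VERTICES OF LOW DEGREE.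
PROOF. If `2 m < n` use `hdeg`.  Let `n = 2 m`, `L = univ ∖ (P1 ∪ Q1)` = the vertices of degree less than `3 m/4`,
`t = |L|`.  The elements of `P ∪ Q` have degree at least `0.98 m`, so `L` is disjoint from `P ∪ Q` and `t ≤ m/100` (`cov`).
`vol univ ≤ vol (P1 ∪ Q1) + 2 ∑_(w ∈ L) dg univ w ≤ 2 |P1| |Q1| + (3/2) m t`, and `4 |P1| |Q1| ≤ (2 m - t)²`.  So
`2 (m² - 1) ≤ (2 m - t)²/2 + (3/2) m t = 2 m² - m t/2 + t²/2`, `t (m - t) ≤ 4`, hence `t = 0`. -/
theorem nb_no_low [Fintype V] [DecidableEq V] {G : SimpleGraph V} {m : ℕ} {P Q : Finset V}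
    (h : NB G m P Q) (hm : 1000 ≤ m) (hn : 2 * m ≤ Fintype.card V)
    (hvol : 2 * ((m - 1) * (Fintype.card V - (m - 1))) ≤ vol G Finset.univ)
    (hdeg : 2 * m < Fintype.card V → ∀ v, m ≤ dg G Finset.univ v) (P1 Q1 : Finset V)
    (hd : Disjoint P1 Q1) (hmem : ∀ w, w ∈ P1 ∪ Q1 ↔ 3 * m ≤ 4 * dg G Finset.univ w)
    (hP : ∀ u ∈ P1, ∀ v ∈ P1, ¬ G.Adj u v) (hQ : ∀ u ∈ Q1, ∀ v ∈ Q1, ¬ G.Adj u v) :
    P1 ∪ Q1 = Finset.univ := by
  rcases Nat.lt_or_ge (2 * m) (Fintype.card V) with h1 | h1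
  · ext w
    refine ⟨fun _ => Finset.mem_univ w, fun _ => (hmem w).2 ?_⟩
    have h2 := hdeg h1 w
    omega
  · have hn2m : Fintype.card V = 2 * m := by omega
    by_contra hne
    obtain ⟨L, hL⟩ : ∃ L : Finset V, L = Finset.univ \ (P1 ∪ Q1) := ⟨_, rfl⟩
    have hUL : Disjoint (P1 ∪ Q1) L := by rw [hL]; exact Finset.disjoint_sdiff
    have hULu : (P1 ∪ Q1) ∪ L = Finset.univ := by
      rw [hL]
      exact Finset.union_sdiff_of_subset (Finset.subset_univ _)
    have hLlow : ∀ w ∈ L, 4 * dg G Finset.univ w ≤ 3 * m := by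
      intro w hw
      rw [hL, Finset.mem_sdiff, hmem w] at hw
      omega
    have hLpos : 1 ≤ L.card := by
      rw [Nat.one_le_iff_ne_zero]
      intro h2
      rw [Finset.card_eq_zero] at h2
      rw [h2, Finset.union_empty] at hULu
      exact hne hULu
    have hLPQ : Disjoint L (P ∪ Q) := by
      rw [Finset.disjoint_left]
      intro w hw hw'
      have h2 : ¬ (3 * m ≤ 4 * dg G Finset.univ w) := by
        rw [hL, Finset.mem_sdiff, hmem w] at hw
        exact hw.2
      rcases Finset.mem_union.1 hw' with h3 | h3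
      · have h4 := h.dP w h3
        have h5 := h.Q1
        have h6 := dg_mono_set G (Finset.subset_univ Q) w
        omega
      · have h4 := h.dQ w h3
        have h5 := h.P1
        have h6 := dg_mono_set G (Finset.subset_univ P) w
        omega
    have hLm : 100 * L.card ≤ m := by
      have h2 := Finset.card_union_of_disjoint hLPQ
      have h3 := Finset.card_le_univ (L ∪ (P ∪ Q))
      have h4 := Finset.card_union_of_disjoint h.disj
      have h5 := h.cov
      omega
    have hv1 := NB5_low G _ L hUL hULu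
    have hv2 := NB1_union G Q1 P1 hd.symm
    rw [Finset.union_comm Q1 P1, NB5_vol G P1 hP, NB5_vol G Q1 hQ] at hv2
    have le1 : ∑ v ∈ P1, dg G Q1 v ≤ P1.card * Q1.card := by
      have := Finset.sum_le_card_nsmul P1 (fun v => dg G Q1 v) Q1.card (fun v _ => dg_le_card G Q1 v)
      rwa [smul_eq_mul] at this
    have hS : 4 * ∑ w ∈ L, dg G Finset.univ w ≤ 3 * m * L.card := by
      rw [Finset.mul_sum]
      have h1 : ∑ w ∈ L, 4 * dg G Finset.univ w ≤ ∑ w ∈ L, 3 * m :=
        Finset.sum_le_sum (fun w hw => hLlow w hw)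
      rw [Finset.sum_const, smul_eq_mul] at h1
      linarith
    have hcu : P1.card + Q1.card + L.card = 2 * m := by
      rw [← Finset.card_union_of_disjoint hd, ← Finset.card_union_of_disjoint hUL, hULu, Finset.card_univ, hn2m]
    rw [hn2m] at hvol
    have e1 : 2 * m - (m - 1) = m + 1 := by omega
    rw [e1] at hvol
    obtain ⟨S, hSd⟩ : ∃ S, S = ∑ w ∈ L, dg G Finset.univ w := ⟨_, rfl⟩
    rw [← hSd] at hS hv1
    have hfin : vol G Finset.univ ≤ 2 * (P1.card * Q1.card) + 2 * S := by omega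
    have g2 : 2 * (((m : ℝ) - 1) * ((m : ℝ) + 1)) ≤ (vol G Finset.univ : ℝ) := by
      have h1 : ((2 * ((m - 1) * (m + 1)) : ℕ) : ℝ) ≤ (vol G Finset.univ : ℝ) := by exact_mod_cast hvol
      rw [Nat.cast_mul, Nat.cast_mul, Nat.cast_sub (by omega : 1 ≤ m), Nat.cast_add] at h1
      push_cast at h1
      exact h1
    have g8 : 4 * (S : ℝ) ≤ 3 * ((m : ℝ) * L.card) := by
      have h1 : 4 * S ≤ 3 * (m * L.card) := by linarith
      exact_mod_cast h1
    exact NB5_num m P1.card Q1.card L.card (vol G Finset.univ) S (by exact_mod_cast hm)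
      (by exact_mod_cast hLpos) (by exact_mod_cast hLm) (by exact_mod_cast hcu) g2
      (by exact_mod_cast hfin) g8

/- MODULE NB6 -/
private theorem NB6_enum (P : Finset V) (m : ℕ) (hm : 1 ≤ m) (hP : P.card = m) :
    ∃ p : ℕ → V, (∀ i, p i ∈ P) ∧ (∀ i j, p i = p j ↔ i % m = j % m) := by
  classical
  have e : Fin m ≃ P := (Finset.equivFinOfCardEq hP).symm
  refine ⟨fun i => (e ⟨i % m, Nat.mod_lt _ hm⟩ : V), fun i => (e _).2, fun i j => ?_⟩
  constructor
  · intro h
    have h1 := e.injective (Subtype.ext h)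
    exact Fin.mk.inj_iff.1 h1
  · intro h
    simp only [h]

private theorem NB6_bad [DecidableEq V] (G : SimpleGraph V) (m d : ℕ) (P : Finset V) (hP : P.card = m)
    (q : V) (hq : m ≤ dg G P q + d) (f : Fin m → V) (hf : Function.Injective f) (hfP : ∀ i, f i ∈ P)
    (B : Finset (Fin m)) (hB : ∀ i ∈ B, ¬ G.Adj q (f i)) : B.card ≤ d := by
  classical
  have h1 : (P.filter (fun u => G.Adj q u)).card + (P.filter (fun u => ¬ G.Adj q u)).card = P.card :=
    Finset.card_filter_add_card_filter_not _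
  have h2 : dg G P q = (P.filter (fun u => G.Adj q u)).card := by
    unfold dg
    congr
  have h3 : B.card ≤ (P.filter (fun u => ¬ G.Adj q u)).card := by
    rw [← Finset.card_image_of_injective B hf]
    apply Finset.card_le_card
    intro u hu
    obtain ⟨i, hi, rfl⟩ := Finset.mem_image.1 hu
    exact Finset.mem_filter.2 ⟨hfP i, hB i hi⟩
  omega

/-- A SPANNING CYCLE in a balanced bipartite graph, every vertex with at most `d` non-neighbours on the
other side.
PROOF. Enumerate `P = {p_0, …, p_(m-1)}`, `N_i = N(p_i) ∩ N(p_(i+1 mod m)) ∩ Q`.  Hall's theorem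
(`Finset.all_card_le_biUnion_card_iff_exists_injective`) for the sets `N_i`, `i < m`: let `J` be a set of indices.  If
`0 < |J| ≤ m - 2 d` the union has at least `|N_i| ≥ m - 2 d ≥ |J|` elements.  If `|J| > m - 2 d > 2 d` the union is
all of `Q`: an element `q ∈ Q` is missing in at most `2 d` of the `N_i` (each of its at most `d` non-neighbours
`p_j` is in two of the pairs).  So there are distinct `w_i ∈ N_i`, and `p_0, w_0, p_1, w_1, …, p_(m-1), w_(m-1)` is a
cycle of length `2 m` (as a list: `hasCyc_of_list`). -/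
theorem bip_spanning [DecidableEq V] (G : SimpleGraph V) (m d : ℕ) (P Q : Finset V)
    (hd : Disjoint P Q) (hP : P.card = m) (hQ : Q.card = m) (hm : 2 ≤ m) (h5 : 5 * d ≤ m)
    (hPd : ∀ v ∈ P, m ≤ dg G Q v + d) (hQd : ∀ v ∈ Q, m ≤ dg G P v + d) : HasCyc G (2 * m) := by
  classical
  obtain ⟨p, hpP, hpj⟩ := NB6_enum P m (by omega) hP
  have hinj0 : Function.Injective (fun i : Fin m => p i) := by
    intro i j hij
    have h1 := (hpj i j).1 hij
    rw [Nat.mod_eq_of_lt i.2, Nat.mod_eq_of_lt j.2] at h1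
    exact Fin.ext h1
  have hinj1 : Function.Injective (fun i : Fin m => p (i + 1)) := by
    intro i j hij
    have h1 := (hpj (i + 1) (j + 1)).1 hij
    have h2 : (i : ℕ) ≡ j [MOD m] := Nat.ModEq.add_right_cancel' 1 h1
    unfold Nat.ModEq at h2
    rw [Nat.mod_eq_of_lt i.2, Nat.mod_eq_of_lt j.2] at h2
    exact Fin.ext h2
  obtain ⟨t, ht⟩ : ∃ t : Fin m → Finset V, t = fun i : Fin m =>
      Q.filter (fun q => G.Adj (p i) q ∧ G.Adj (p (i + 1)) q) := ⟨_, rfl⟩
  have htm : ∀ i q, q ∈ t i ↔ q ∈ Q ∧ G.Adj (p i) q ∧ G.Adj (p ((i : ℕ) + 1)) q := by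
    intro i q
    rw [ht]
    exact Finset.mem_filter
  have hcodeg : ∀ i, m ≤ (t i).card + 2 * d := by
    intro i
    have h1 := NB2_codeg G Q Q (p i) (p ((i : ℕ) + 1)) subset_rfl d (by rw [hQ]; exact hPd _ (hpP _))
      (by rw [hQ]; exact hPd _ (hpP _))
    rw [hQ] at h1
    have h2 : codeg G Q (p i) (p ((i : ℕ) + 1)) = (t i).card := by
      rw [ht]
      unfold codeg
      congr
    omega
  have hhall : ∀ J : Finset (Fin m), J.card ≤ (J.biUnion t).card := by
    intro J
    rcases Finset.eq_empty_or_nonempty J with hJ | ⟨i, hi⟩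
    · rw [hJ, Finset.card_empty]
      exact Nat.zero_le _
    · rcases Nat.lt_or_ge (m - 2 * d) J.card with h1 | h1
      · have h2 : Q ⊆ J.biUnion t := by
          intro q hq
          rw [Finset.mem_biUnion]
          by_contra hcon
          push Not at hcon
          have h3 : J ⊆ (J.filter (fun i : Fin m => ¬ G.Adj q (p i))) ∪
              (J.filter (fun i : Fin m => ¬ G.Adj q (p ((i : ℕ) + 1)))) := by
            intro j hj
            have h4 := hcon j hj
            rw [htm] at h4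
            rw [Finset.mem_union, Finset.mem_filter, Finset.mem_filter]
            by_cases h5 : G.Adj q (p j)
            · right
              refine ⟨hj, fun h6 => h4 ⟨hq, h5.symm, h6.symm⟩⟩
            · exact Or.inl ⟨hj, h5⟩
          have h4 := Finset.card_le_card h3
          have h5 := Finset.card_union_le (J.filter (fun i : Fin m => ¬ G.Adj q (p i)))
            (J.filter (fun i : Fin m => ¬ G.Adj q (p ((i : ℕ) + 1))))
          have h6 := NB6_bad G m d P hP q (hQd q hq) (fun i : Fin m => p i) hinj0 (fun i => hpP _)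
            (J.filter (fun i : Fin m => ¬ G.Adj q (p i))) (fun i hi => (Finset.mem_filter.1 hi).2)
          have h7 := NB6_bad G m d P hP q (hQd q hq) (fun i : Fin m => p (i + 1)) hinj1 (fun i => hpP _)
            (J.filter (fun i : Fin m => ¬ G.Adj q (p ((i : ℕ) + 1)))) (fun i hi => (Finset.mem_filter.1 hi).2)
          omega
        have h3 := Finset.card_le_card h2
        have h4 := Finset.card_le_univ J
        rw [Fintype.card_fin] at h4
        omega
      · have h2 := Finset.card_le_card (Finset.subset_biUnion_of_mem t hi)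
        have h3 := hcodeg i
        omega
  obtain ⟨f, hf, hft⟩ := (Finset.all_card_le_biUnion_card_iff_exists_injective t).1 hhall
  have hfm : ∀ i, f i ∈ Q ∧ G.Adj (p i) (f i) ∧ G.Adj (p ((i : ℕ) + 1)) (f i) := fun i => (htm i _).1 (hft i)
  have hdis := Finset.disjoint_left.1 hd
  obtain ⟨g, hg⟩ : ∃ g : ℕ → V, g = fun i => if h : i < m then f ⟨i, h⟩ else p 0 := ⟨_, rfl⟩
  have hgf : ∀ i (h : i < m), g i = f ⟨i, h⟩ := by
    intro i h
    rw [hg]
    exact dif_pos h
  have hmod : ∀ i, i < m → (i + 1) % m ≠ i % m := by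
    intro i hi h1
    rw [Nat.mod_eq_of_lt hi] at h1
    rcases Nat.lt_or_ge (i + 1) m with h2 | h2
    · rw [Nat.mod_eq_of_lt h2] at h1
      omega
    · have h3 : i + 1 = m := by omega
      rw [h3, Nat.mod_self] at h1
      omega
  have hcyc := hasCyc_of_paths (G := G) m hm p (fun i => [p i, g i, p (i + 1)])
    (by
      intro i hi
      have h1 := hfm ⟨i, hi⟩
      rw [← hgf i hi] at h1
      refine ⟨?_, ?_, by simp, by simp⟩
      · simp only [List.isChain_cons_cons, List.IsChain.singleton, and_true]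
        exact ⟨h1.2.1, h1.2.2.symm⟩
      · simp only [List.nodup_cons, List.mem_cons, List.not_mem_nil, or_false, not_or, not_false_eq_true,
          List.nodup_nil, and_true]
        refine ⟨⟨h1.2.1.ne, ?_⟩, h1.2.2.ne.symm⟩
        intro h2
        exact hmod i hi ((hpj i (i + 1)).1 h2).symm)
    ((hpj m 0).2 (by rw [Nat.mod_self, Nat.zero_mod])) (by intro i _; simp) (by
      intro i j hij hj v hv hv'
      have hi : i < m := hij.trans hj
      have hgi := hfm ⟨i, hi⟩
      rw [← hgf i hi] at hgi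
      have hgj := hfm ⟨j, hj⟩
      rw [← hgf j hj] at hgj
      have hgP : ∀ k, g i ≠ p k := fun k h1 => hdis (h1 ▸ hpP k) hgi.1
      have hgP' : ∀ k, g j ≠ p k := fun k h1 => hdis (h1 ▸ hpP k) hgj.1
      simp only [List.mem_cons, List.not_mem_nil, or_false] at hv hv'
      rcases hv with h1 | h1 | h1
      · rcases hv' with h2 | h2 | h2
        · exfalso
          have h3 := (hpj i j).1 (h1.symm.trans h2)
          rw [Nat.mod_eq_of_lt hi, Nat.mod_eq_of_lt hj] at h3
          omega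
        · exact absurd (h2.symm.trans h1) (hgP' i)
        · have h3 := (hpj i (j + 1)).1 (h1.symm.trans h2)
          rw [Nat.mod_eq_of_lt hi] at h3
          right
          rcases Nat.lt_or_ge (j + 1) m with h4 | h4
          · rw [Nat.mod_eq_of_lt h4] at h3
            omega
          · have h5 : j + 1 = m := by omega
            rw [h5, Nat.mod_self] at h3
            exact ⟨h3, by omega, by rw [h1, h3]⟩
      · rcases hv' with h2 | h2 | h2
        · exact absurd (h1.symm.trans h2) (hgP j)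
        · exfalso
          have h3 := h1.symm.trans h2
          rw [hgf i hi, hgf j hj] at h3
          have h4 := Fin.mk.inj_iff.1 (hf h3)
          omega
        · exact absurd (h1.symm.trans h2) (hgP (j + 1))
      · rcases hv' with h2 | h2 | h2
        · have h3 := (hpj (i + 1) j).1 (h1.symm.trans h2)
          left
          rw [Nat.mod_eq_of_lt hj, Nat.mod_eq_of_lt (by omega)] at h3
          exact ⟨h3.symm, h2⟩
        · exact absurd (h2.symm.trans h1) (hgP' (i + 1))
        · exfalso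
          have h3 := (hpj (i + 1) (j + 1)).1 (h1.symm.trans h2)
          have h4 : i ≡ j [MOD m] := Nat.ModEq.add_right_cancel' 1 h3
          unfold Nat.ModEq at h4
          rw [Nat.mod_eq_of_lt hi, Nat.mod_eq_of_lt hj] at h4
          omega) (by
      simp only [List.length_cons, List.length_nil, Finset.sum_const, Finset.card_range, smul_eq_mul]
      omega)
  simp only [List.length_cons, List.length_nil, Finset.sum_const, Finset.card_range, smul_eq_mul] at hcyc
  have h1 : m * (0 + 1 + 1 + 1 - 1) = 2 * m := by omega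
  rw [h1] at hcyc
  exact hcyc

/- MODULE NB7 -/
/-- both sides independent and all pairs adjacent -/
private theorem NB7_kab [Fintype V] [DecidableEq V] (G : SimpleGraph V) (P Q : Finset V)
    (hU : P ∪ Q = Finset.univ) (hP : ∀ u ∈ P, ∀ v ∈ P, ¬ G.Adj u v) (hQ : ∀ u ∈ Q, ∀ v ∈ Q, ¬ G.Adj u v)
    (hall : P.card * Q.card ≤ ∑ v ∈ P, dg G Q v) : KAB G P := by
  classical
  have hmem : ∀ v, v ∉ P → v ∈ Q := by
    intro v hv
    have h1 : v ∈ P ∪ Q := by rw [hU]; exact Finset.mem_univ v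
    exact (Finset.mem_union.1 h1).resolve_left hv
  have hfull : ∀ v ∈ P, dg G Q v = Q.card := by
    intro v hv
    refine le_antisymm (dg_le_card G Q v) ?_
    rw [← Finset.add_sum_erase _ _ hv] at hall
    have h1 : ∑ w ∈ P.erase v, dg G Q w ≤ (P.erase v).card * Q.card := by
      have := Finset.sum_le_card_nsmul (P.erase v) (fun v => dg G Q v) Q.card (fun v _ => dg_le_card G Q v)
      rwa [smul_eq_mul] at this
    have h2 : P.card = (P.erase v).card + 1 := (Finset.card_erase_add_one hv).symm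
    rw [h2, Nat.add_mul, Nat.one_mul] at hall
    omega
  have hadj : ∀ u ∈ P, ∀ w ∈ Q, G.Adj u w := by
    intro u hu w hw
    have h1 := hfull u hu
    have h2 : dg G Q u = (Q.filter (fun z => G.Adj u z)).card := by
      unfold dg
      congr
    have h3 : Q.filter (fun z => G.Adj u z) = Q := by
      apply Finset.eq_of_subset_of_card_le (Finset.filter_subset _ _)
      omega
    rw [← h3, Finset.mem_filter] at hw
    exact hw.2
  intro u w
  constructor
  · intro huw
    by_cases hu : u ∈ P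
    · left
      exact ⟨hu, fun hw => hP u hu w hw huw⟩
    · right
      refine ⟨?_, hu⟩
      by_contra hw
      exact hQ u (hmem u hu) w (hmem w hw) huw
  · rintro (⟨hu, hw⟩ | ⟨hw, hu⟩)
    · exact hadj u hu w (hmem w hw)
    · exact (hadj w hw u (hmem u hu)).symm

/-- the balanced case: every vertex has at most one non-neighbour -/
private theorem NB7_one [DecidableEq V] (G : SimpleGraph V) (P Q : Finset V) (m : ℕ)
    (hP : P.card = m) (hQ : Q.card = m) (h : m * m ≤ ∑ v ∈ P, dg G Q v + 1) : ∀ v ∈ P, m ≤ dg G Q v + 1 := by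
  intro v hv
  rw [← Finset.add_sum_erase _ _ hv] at h
  have h1 : ∑ w ∈ P.erase v, dg G Q w ≤ (P.erase v).card * Q.card := by
    have := Finset.sum_le_card_nsmul (P.erase v) (fun v => dg G Q v) Q.card (fun v _ => dg_le_card G Q v)
    rwa [smul_eq_mul] at this
  have h2 : (P.erase v).card + 1 = m := by rw [← hP]; exact Finset.card_erase_add_one hv
  rw [hQ] at h1
  have h3 : m * m = (P.erase v).card * m + m := by
    nth_rw 1 [← h2]
    rw [Nat.add_mul, Nat.one_mul]
  omega

private theorem NB7_num (m p q : ℕ) (hs : p + q = 2 * m) (h : m * m ≤ p * q + 1) :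
    (p = m ∧ q = m) ∨ (p + 1 = m ∧ q = m + 1) ∨ (q + 1 = m ∧ p = m + 1) := by
  rcases Nat.le_total p m with h1 | h1
  · obtain ⟨k, rfl⟩ := Nat.exists_eq_add_of_le h1
    have h2 : q = p + 2 * k := by omega
    subst h2
    have h3 : k * k ≤ 1 := by nlinarith
    have h4 : k ≤ 1 := by
      by_contra hcon
      push Not at hcon
      nlinarith
    omega
  · obtain ⟨k, rfl⟩ := Nat.exists_eq_add_of_le h1
    have h4 : k ≤ 1 := by
      by_contra hcon
      push Not at hcon
      have h2 : q + k = m := by omega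
      subst h2
      nlinarith
    omega

/-- THE NEARLY BIPARTITE CASE.
PROOF. `nb_of_stab`, `nb_sides`, `nb_no_low`: `V = P1 ∪ Q1`, both independent, `p = |P1|`, `q = |Q1|`, `p + q = n`,
`vol univ ≤ 2 p q`.
Case `n = 2 m`: `p q ≥ m² - 1`, so `{p, q} = {m, m}` or `{m - 1, m + 1}` (`p q = m² - (m - p)²`).  If `p = q = m`:
`∑_(v ∈ P1) (m - dg Q1 v) ≤ 1`, so every vertex has at most one non-neighbour on the other side: `bip_spanning` with
`d = 1`: contradiction.  If `p = m - 1`: `p q = m² - 1`, so all pairs are adjacent: `KAB G P1`.  If `q = m - 1`: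
`KAB G Q1`.
Case `n > 2 m`: every `v ∈ P1` has at least `m` neighbours, all in `Q1`, so `q ≥ m`, and `p ≥ m` likewise (both sides
are nonempty as every vertex has a neighbour); so `p, q ≤ n - m ≤ m + m/1000`.  Choose `P2 ⊆ P1`, `Q2 ⊆ Q1` of
size `m`: `dg Q2 v ≥ m - (q - m) ≥ m - m/1000`: `bip_spanning` with `d = ⌊m/1000⌋` (`n - 2 m ≤ ⌊m/1000⌋`):
contradiction. -/
theorem near_bip_case [Fintype V] [DecidableEq V] (G : SimpleGraph V) (m l : ℕ)
    (hm : 10 ^ 6 ≤ m) (hl : Odd l) (h3 : 3 ≤ l) (hlm : l < m) (hn : 2 * m ≤ Fintype.card V)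
    (hn2 : (Fintype.card V : ℝ) ≤ (2 + 1 / 1000) * m) (no2m : ¬ HasCyc G (2 * m))
    (nol : ¬ HasCyc G l)
    (hvol : 2 * ((m - 1) * (Fintype.card V - (m - 1))) ≤ vol G Finset.univ)
    (hdeg : 2 * m < Fintype.card V → ∀ v, m ≤ dg G Finset.univ v) (P : Finset V)
    (hP : (vol G P : ℝ) ≤ 1 / 10 ^ 7 * (Fintype.card V : ℝ) ^ 2)
    (hQ : (vol G (Finset.univ \ P) : ℝ) ≤ 1 / 10 ^ 7 * (Fintype.card V : ℝ) ^ 2) :
    ∃ A : Finset V, A.card = m - 1 ∧ KAB G A := by
  obtain ⟨P0, Q0, hNB⟩ := nb_of_stab G m hm hn hn2 hvol P hP hQ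
  have hm1000 : 1000 ≤ m := le_trans (by norm_num) hm
  obtain ⟨P1, Q1, hd, hmem, hP1, hQ1⟩ := nb_sides hNB hm1000 l hl h3 hlm nol
  have hU := nb_no_low hNB hm1000 hn hvol hdeg P1 Q1 hd hmem hP1 hQ1
  have hcard : P1.card + Q1.card = Fintype.card V := by
    rw [← Finset.card_union_of_disjoint hd, hU, Finset.card_univ]
  have hv := NB1_union G Q1 P1 hd.symm
  rw [Finset.union_comm Q1 P1, hU, NB5_vol G P1 hP1, NB5_vol G Q1 hQ1] at hv
  have hcr := NB1_cross G P1 Q1
  have le1 : ∑ v ∈ P1, dg G Q1 v ≤ P1.card * Q1.card := by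
    have := Finset.sum_le_card_nsmul P1 (fun v => dg G Q1 v) Q1.card (fun v _ => dg_le_card G Q1 v)
    rwa [smul_eq_mul] at this
  rcases Nat.lt_or_ge (2 * m) (Fintype.card V) with h1 | h1
  · -- `n > 2 m`
    exfalso
    have hsideP : ∀ v ∈ P1, m ≤ dg G Q1 v := by
      intro v hv1
      refine (hdeg h1 v).trans ?_
      classical
      have h4 : dg G Finset.univ v = (Finset.univ.filter (fun w => G.Adj v w)).card := by
        unfold dg
        congr
      have h5 : dg G Q1 v = (Q1.filter (fun w => G.Adj v w)).card := by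
        unfold dg
        congr
      rw [h4, h5]
      apply Finset.card_le_card
      intro w hw
      rw [Finset.mem_filter] at hw ⊢
      refine ⟨?_, hw.2⟩
      have h6 : w ∈ P1 ∪ Q1 := by rw [hU]; exact Finset.mem_univ w
      exact (Finset.mem_union.1 h6).resolve_left (fun h7 => hP1 v hv1 w h7 hw.2)
    have hsideQ : ∀ v ∈ Q1, m ≤ dg G P1 v := by
      intro v hv1
      refine (hdeg h1 v).trans ?_
      classical
      have h4 : dg G Finset.univ v = (Finset.univ.filter (fun w => G.Adj v w)).card := by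
        unfold dg
        congr
      have h5 : dg G P1 v = (P1.filter (fun w => G.Adj v w)).card := by
        unfold dg
        congr
      rw [h4, h5]
      apply Finset.card_le_card
      intro w hw
      rw [Finset.mem_filter] at hw ⊢
      refine ⟨?_, hw.2⟩
      have h6 : w ∈ P1 ∪ Q1 := by rw [hU]; exact Finset.mem_univ w
      exact (Finset.mem_union.1 h6).resolve_right (fun h7 => hQ1 v hv1 w h7 hw.2)
    have hPm : P1.Nonempty → m ≤ Q1.card := by
      rintro ⟨v, hv1⟩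
      exact (hsideP v hv1).trans (dg_le_card G Q1 v)
    have hQm : Q1.Nonempty → m ≤ P1.card := by
      rintro ⟨v, hv1⟩
      exact (hsideQ v hv1).trans (dg_le_card G P1 v)
    have hPne : P1.Nonempty := by
      by_contra hcon
      rw [Finset.not_nonempty_iff_eq_empty] at hcon
      have h4 : P1.card = 0 := by rw [hcon, Finset.card_empty]
      have h5 : Q1.Nonempty := Finset.card_pos.1 (by omega)
      have h6 := hQm h5
      omega
    have hqm := hPm hPne
    have hQne : Q1.Nonempty := Finset.card_pos.1 (by omega)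
    have hpm := hQm hQne
    have hnm : 1000 * (Fintype.card V - 2 * m) ≤ m := by
      have h4 : 1000 * (Fintype.card V : ℝ) ≤ 2001 * (m : ℝ) := by linarith
      have h5 : 1000 * Fintype.card V ≤ 2001 * m := by exact_mod_cast h4
      omega
    obtain ⟨P2, hP2, hP2c⟩ := Finset.exists_subset_card_eq hpm
    obtain ⟨Q2, hQ2, hQ2c⟩ := Finset.exists_subset_card_eq hqm
    refine no2m (bip_spanning G m (m / 1000) P2 Q2
      (Finset.disjoint_of_subset_left hP2 (Finset.disjoint_of_subset_right hQ2 hd)) hP2c hQ2c (by omega)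
      (by omega) ?_ ?_)
    · intro v hv1
      have h4 := hsideP v (hP2 hv1)
      have h5 := NB1_sub G Q1 Q2 v hQ2
      omega
    · intro v hv1
      have h4 := hsideQ v (hQ2 hv1)
      have h5 := NB1_sub G P1 P2 v hP2
      omega
  · -- `n = 2 m`
    have hn2m : Fintype.card V = 2 * m := by omega
    rw [hn2m] at hvol hcard
    have e1 : 2 * m - (m - 1) = m + 1 := by omega
    have e2 : (m - 1) * (m + 1) + 1 = m * m := by
      obtain ⟨k, rfl⟩ : ∃ k, m = k + 1 := ⟨m - 1, by omega⟩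
      rw [Nat.add_sub_cancel]
      ring
    rw [e1] at hvol
    have he : m * m ≤ ∑ v ∈ P1, dg G Q1 v + 1 := by omega
    rcases NB7_num m P1.card Q1.card hcard (by omega) with ⟨hp, hq⟩ | ⟨hp, hq⟩ | ⟨hq, hp⟩
    · exfalso
      exact no2m (bip_spanning G m 1 P1 Q1 hd hp hq (by omega) (by omega)
        (NB7_one G P1 Q1 m hp hq he) (NB7_one G Q1 P1 m hq hp (by rw [← hcr]; exact he)))
    · refine ⟨P1, by omega, NB7_kab G P1 Q1 hU hP1 hQ1 ?_⟩
      have h4 : P1.card * Q1.card + 1 = m * m := by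
        rw [hq]
        have h5 : P1.card = m - 1 := by omega
        rw [h5]
        exact e2
      omega
    · refine ⟨Q1, by omega, NB7_kab G Q1 P1 (by rw [Finset.union_comm]; exact hU) hQ1 hP1 ?_⟩
      have h4 : Q1.card * P1.card + 1 = m * m := by
        rw [hp]
        have h5 : Q1.card = m - 1 := by omega
        rw [h5]
        exact e2
      rw [← hcr]
      omega

end TurMod
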