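import Pool.Agent.TurMod.Greedy

/-!
# Nearly the union of two cliques: exact analysis
-/

namespace TurMod

open Finset

universe u

variable {V : Type*}

/- MODULE NC1 -/
/-- a long list with few bad elements has two consecutive good ones -/
private theorem NC1_pair (p : V → Prop) [DecidablePred p] : ∀ (n : ℕ) (l : List V), l.length ≤ n →
    2 * l.countP (fun w => !decide (p w)) + 1 < l.length →
    ∃ l1 a b l2, l = l1 ++ a :: b :: l2 ∧ p a ∧ p b := by
  intro n
  induction n with
  | zero =>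
    intro l hl h
    omega
  | succ n ih =>
    intro l hl h
    cases l with
    | nil => simp at h
    | cons a t =>
      by_cases ha : p a
      · cases t with
        | nil => simp [ha] at h
        | cons b t =>
          by_cases hb : p b
          · exact ⟨[], a, b, t, rfl, ha, hb⟩
          · have h1 : 2 * t.countP (fun w => !decide (p w)) + 1 < t.length := by
              simp only [List.countP_cons, List.length_cons, ha, hb, decide_true, decide_false,
                Bool.not_true, Bool.not_false, if_true] at h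
              simp only [Bool.false_eq_true, if_false] at h
              omega
            obtain ⟨l1, c, e, l2, h2, hc, he⟩ := ih t (by simp only [List.length_cons] at hl; omega) h1
            exact ⟨a :: b :: l1, c, e, l2, by rw [h2]; rfl, hc, he⟩
      · have h1 : 2 * t.countP (fun w => !decide (p w)) + 1 < t.length := by
          simp only [List.countP_cons, List.length_cons, ha, decide_false, Bool.not_false, if_true] at h
          omega
        obtain ⟨l1, c, e, l2, h2, hc, he⟩ := ih t (by simp only [List.length_cons] at hl; omega) h1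
        exact ⟨a :: l1, c, e, l2, by rw [h2]; rfl, hc, he⟩

/-- inserting a vertex between two consecutive ones -/
private theorem NC1_insert {G : SimpleGraph V} {x y a b v : V} {l1 l2 : List V}
    (h : PathL G x y (l1 ++ a :: b :: l2)) (ha : G.Adj a v) (hb : G.Adj v b)
    (hv : v ∉ l1 ++ a :: b :: l2) : PathL G x y (l1 ++ a :: v :: b :: l2) := by
  obtain ⟨hc, hn, hh, hl⟩ := h
  refine ⟨?_, ?_, ?_, ?_⟩
  · rw [List.isChain_append_cons_cons] at hc ⊢
    refine ⟨hc.1, ha, ?_⟩
    rw [List.isChain_cons_cons]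
    exact ⟨hb, hc.2.2⟩
  · have hp : (l1 ++ a :: v :: b :: l2).Perm (v :: (l1 ++ a :: b :: l2)) := by
      have h1 : l1 ++ a :: v :: b :: l2 = (l1 ++ [a]) ++ v :: (b :: l2) := by simp
      have h2 : l1 ++ a :: b :: l2 = (l1 ++ [a]) ++ (b :: l2) := by simp
      rw [h1, h2]
      exact List.perm_middle
    rw [hp.nodup_iff, List.nodup_cons]
    exact ⟨hv, hn⟩
  · cases l1 with
    | nil => simpa using hh
    | cons c t => simpa using hh
  · rw [List.getLast?_append_of_ne_nil _ (by simp)] at hl ⊢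
    simpa using hl

private theorem NC1_step [DecidableEq V] (G : SimpleGraph V) (T : Finset V) (d : ℕ) (x y : V)
    (hx : x ∉ T) (hy : y ∉ T) (hd : ∀ v ∈ T, T.card ≤ dg G T v + d) (l : List V)
    (hl : PathL G x y l) (hlT : ∀ v ∈ l, v = x ∨ v = y ∨ v ∈ T) (j : ℕ) (hj : l.length = j + 2)
    (h4 : 4 * d + 10 ≤ 2 * j) (hjT : j < T.card) :
    ∃ l', PathL G x y l' ∧ l'.length = (j + 1) + 2 ∧ ∀ v ∈ l', v = x ∨ v = y ∨ v ∈ T := by
  classical
  -- an element of `T` not on `l`
  obtain ⟨v, hvT, hvl⟩ : ∃ v ∈ T, v ∉ l := by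
    by_contra hcon
    push Not at hcon
    have h1 : insert x T ⊆ l.toFinset := by
      intro w hw
      rw [List.mem_toFinset]
      rcases Finset.mem_insert.1 hw with h | h
      · exact h ▸ hl.left_mem
      · exact hcon w h
    have hxl := hl.left_mem
    have h2 : T ⊆ l.toFinset := (Finset.subset_insert x T).trans h1
    have h3 := Finset.card_le_card h1
    rw [Finset.card_insert_of_notMem hx, List.toFinset_card_of_nodup hl.2.1] at h3
    have h5 : l.toFinset ⊆ insert x (insert y T) := by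
      intro w hw
      rw [List.mem_toFinset] at hw
      rcases hlT w hw with h | h | h
      · exact h ▸ Finset.mem_insert_self _ _
      · exact Finset.mem_insert_of_mem (h ▸ Finset.mem_insert_self _ _)
      · exact Finset.mem_insert_of_mem (Finset.mem_insert_of_mem h)
    -- if all of `T` is on `l`, then `j + 2 ≥ T.card + 1`, so `T.card ≤ j + 1`; exclude equality
    by_cases hxy : x = y
    · subst hxy
      have h6 := hl.2.2.1
      have h7 := hl.2.2.2
      cases l with
      | nil => simp at h6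
      | cons a t =>
        cases t with
        | nil => simp at hj
        | cons b t =>
          simp only [List.head?_cons, Option.some.injEq] at h6
          rw [h6] at h7
          have h8 : x ∈ b :: t := by
            rw [List.getLast?_cons_of_ne_nil (by simp)] at h7
            exact List.mem_of_getLast? h7
          have h9 := (List.nodup_cons.1 hl.2.1).1
          rw [h6] at h9
          exact h9 h8
    · have h6 : insert y (insert x T) ⊆ l.toFinset := by
        intro w hw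
        rcases Finset.mem_insert.1 hw with h | h
        · rw [List.mem_toFinset]
          exact h ▸ hl.right_mem
        · exact h1 h
      have h7 := Finset.card_le_card h6
      rw [Finset.card_insert_of_notMem, Finset.card_insert_of_notMem hx,
        List.toFinset_card_of_nodup hl.2.1] at h7
      · omega
      · rw [Finset.mem_insert]
        rintro (h | h)
        · exact hxy h.symm
        · exact hy h
  -- few non-neighbours
  have hbad : (l.toFinset.filter (fun w => ¬ G.Adj v w)).card ≤ d + 2 := by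
    have h1 : l.toFinset.filter (fun w => ¬ G.Adj v w) ⊆
        insert x (insert y (T.filter (fun w => ¬ G.Adj v w))) := by
      intro w hw
      rw [Finset.mem_filter, List.mem_toFinset] at hw
      rcases hlT w hw.1 with h | h | h
      · exact h ▸ Finset.mem_insert_self _ _
      · exact Finset.mem_insert_of_mem (h ▸ Finset.mem_insert_self _ _)
      · exact Finset.mem_insert_of_mem (Finset.mem_insert_of_mem (Finset.mem_filter.2 ⟨h, hw.2⟩))
    have h2 := Finset.card_le_card h1
    have h3 := Finset.card_insert_le x (insert y (T.filter (fun w => ¬ G.Adj v w)))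
    have h5 := Finset.card_insert_le y (T.filter (fun w => ¬ G.Adj v w))
    have h6 := hd v hvT
    have h7 : (T.filter (fun w => G.Adj v w)).card + (T.filter (fun w => ¬ G.Adj v w)).card = T.card :=
      Finset.card_filter_add_card_filter_not _
    have h8 : dg G T v = (T.filter (fun w => G.Adj v w)).card := by
      unfold dg
      congr
    omega
  have hcount : l.countP (fun w => !decide (G.Adj v w)) ≤ d + 2 := by
    rw [List.countP_eq_length_filter]
    have h1 : (l.filter (fun w => !decide (G.Adj v w))).toFinset ⊆ l.toFinset.filter (fun w => ¬ G.Adj v w) := by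
      intro w hw
      rw [List.mem_toFinset, List.mem_filter] at hw
      rw [Finset.mem_filter, List.mem_toFinset]
      refine ⟨hw.1, ?_⟩
      simpa using hw.2
    have h2 := Finset.card_le_card h1
    rw [List.toFinset_card_of_nodup (hl.2.1.filter _)] at h2
    omega
  obtain ⟨l1, a, b, l2, hll, ha, hb⟩ := NC1_pair (fun w => G.Adj v w) l.length l le_rfl (by omega)
  rw [hll] at hl hvl hj hlT
  refine ⟨l1 ++ a :: v :: b :: l2, NC1_insert hl ha.symm hb hvl, ?_, ?_⟩
  · rw [List.length_append] at hj ⊢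
    simp only [List.length_cons] at hj ⊢
    omega
  · intro w hw
    by_cases hwv : w = v
    · exact Or.inr (Or.inr (hwv ▸ hvT))
    · apply hlT w
      rw [List.mem_append, List.mem_cons, List.mem_cons, List.mem_cons] at hw
      rw [List.mem_append, List.mem_cons, List.mem_cons]
      tauto

/-- HAMILTON-CONNECTED.  As `greedy_path`, but up to ALL elements of `T`.
PROOF. If `i + 2 d ≤ |T|`: `greedy_path`.  Otherwise start with `greedy_path` for `i0 = |T| - 2 d ≥ 4 d + 10` inner
vertices and insert further elements of `T` one by one (induction on the number of inner vertices): let `l` be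
a path from `x` to `y` with `j ≥ 4 d + 10` inner vertices, all in `T`, and `v ∈ T` not on it.  `v` has at most `d`
non-neighbours in `T`; among the `j - 1` pairs of consecutive inner vertices at most `2 d` contain a
non-neighbour of `v`; so there are consecutive inner vertices `a`, `b` both adjacent to `v`; insert `v` between
them. -/
theorem ham_connected [DecidableEq V] (G : SimpleGraph V) (T : Finset V) (d : ℕ) (x y : V)
    (hxy : x ≠ y) (hx : x ∉ T) (hy : y ∉ T) (hdx : T.card ≤ dg G T x + d)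
    (hdy : T.card ≤ dg G T y + d) (hd : ∀ v ∈ T, T.card ≤ dg G T v + d) (h6 : 6 * d + 10 ≤ T.card)
    (i : ℕ) (hi : 1 ≤ i) (hiT : i ≤ T.card) :
    ∃ l, PathL G x y l ∧ l.length = i + 2 ∧ ∀ v ∈ l, v = x ∨ v = y ∨ v ∈ T := by
  rcases Nat.lt_or_ge T.card (i + 2 * d) with hlt | hge
  · have key : ∀ n : ℕ, T.card - 2 * d + n ≤ T.card → ∃ l, PathL G x y l ∧
        l.length = (T.card - 2 * d + n) + 2 ∧ ∀ v ∈ l, v = x ∨ v = y ∨ v ∈ T := by
      intro n
      induction n with
      | zero =>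
        intro _
        exact greedy_path G T d x y hxy hx hy hdx hdy hd (T.card - 2 * d) (by omega) (by omega)
      | succ n ih =>
        intro hn
        obtain ⟨l, hl, hll, hlv⟩ := ih (by omega)
        exact NC1_step G T d x y hx hy hd l hl hlv (T.card - 2 * d + n) hll (by omega) (by omega)
    obtain ⟨l, hl, hll, hlv⟩ := key (i - (T.card - 2 * d)) (by omega)
    refine ⟨l, hl, ?_, hlv⟩
    rw [hll]
    omega
  · exact greedy_path G T d x y hxy hx hy hdx hdy hd i hi hge

/- MODULE NC2 -/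
/-- appending one vertex to a path -/
private theorem NC2_snoc {G : SimpleGraph V} {a y c : V} {l : List V} (h : PathL G a y l)
    (hy : G.Adj y c) (hd : c ∉ l) : PathL G a c (l ++ [c]) := by
  have h1 : PathL G y c [y, c] := by
    refine ⟨by simp [hy], ?_, by simp, by simp⟩
    have h2 : y ≠ c := hy.ne
    simp [h2]
  have h2 := h.glue h1 (by
    intro v hv hv'
    rcases List.mem_cons.1 hv' with h3 | h3
    · exact h3
    · rw [List.mem_singleton] at h3
      exact absurd (h3 ▸ hv) hd)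
  exact h2

/-- a neighbour in `P` outside a small set -/
private theorem NC2_nb [DecidableEq V] (G : SimpleGraph V) (P F : Finset V) (w : V)
    (h : F.card < dg G P w) : ∃ u ∈ P, G.Adj w u ∧ u ∉ F := by
  classical
  have h1 : dg G P w = (P.filter (fun u => G.Adj w u)).card := by
    unfold dg
    congr
  rw [h1] at h
  have h2 : ∃ u ∈ P.filter (fun u => G.Adj w u), u ∉ F := by
    by_contra hcon
    push Not at hcon
    exact absurd (Finset.card_le_card (fun u hu => hcon u hu)) (by omega)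
  obtain ⟨u, hu, hF⟩ := h2
  rw [Finset.mem_filter] at hu
  exact ⟨u, hu.1, hu.2, hF⟩

private theorem NC2_sub [DecidableEq V] (G : SimpleGraph V) (P T : Finset V) (v : V) (h : T ⊆ P) :
    T.card + dg G P v ≤ dg G T v + P.card := by
  classical
  have h1 : ∀ S : Finset V, dg G S v + (S.filter (fun u => ¬ G.Adj v u)).card = S.card := by
    intro S
    have h2 : dg G S v = (S.filter (fun u => G.Adj v u)).card := by
      unfold dg
      congr
    rw [h2]
    exact Finset.card_filter_add_card_filter_not _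
  have h3 := h1 P
  have h4 := h1 T
  have h5 := Finset.card_le_card (Finset.filter_subset_filter (fun u => ¬ G.Adj v u) h)
  omega

/-- a common neighbour in `P` outside a small set -/
private theorem NC2_common [DecidableEq V] (G : SimpleGraph V) (P F : Finset V) (v u : V)
    (h : P.card + P.card + F.card < dg G P v + dg G P u + P.card) :
    ∃ z ∈ P, G.Adj v z ∧ G.Adj u z ∧ z ∉ F := by
  classical
  by_contra hcon
  push Not at hcon
  have h1 : P ⊆ (P.filter (fun w => ¬ G.Adj v w)) ∪ (P.filter (fun w => ¬ G.Adj u w)) ∪ F := by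
    intro z hz
    rw [Finset.mem_union, Finset.mem_union, Finset.mem_filter, Finset.mem_filter]
    by_cases h2 : G.Adj v z
    · by_cases h3 : G.Adj u z
      · exact Or.inr (hcon z hz h2 h3)
      · exact Or.inl (Or.inr ⟨hz, h3⟩)
    · exact Or.inl (Or.inl ⟨hz, h2⟩)
  have h2 := Finset.card_le_card h1
  have h3 := Finset.card_union_le ((P.filter (fun w => ¬ G.Adj v w)) ∪ (P.filter (fun w => ¬ G.Adj u w))) F
  have h4 := Finset.card_union_le (P.filter (fun w => ¬ G.Adj v w)) (P.filter (fun w => ¬ G.Adj u w))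
  have h5 : dg G P v + (P.filter (fun w => ¬ G.Adj v w)).card = P.card := by
    have h6 : dg G P v = (P.filter (fun w => G.Adj v w)).card := by
      unfold dg
      congr
    rw [h6]
    exact Finset.card_filter_add_card_filter_not _
  have h7 : dg G P u + (P.filter (fun w => ¬ G.Adj u w)).card = P.card := by
    have h6 : dg G P u = (P.filter (fun w => G.Adj u w)).card := by
      unfold dg
      congr
    rw [h6]
    exact Finset.card_filter_add_card_filter_not _
  omega

/-- A PATH COVERING THE EXCEPTIONAL VERTICES.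
PROOF. Induction on `j` (`1 ≤ j ≤ |E|`): a path with `4 j - 1` vertices, from `u ∈ P` to `v ∈ P`, with exactly `j` elements
of `E`, the other `3 j - 1` in `P`.  `j = 1`: `u w v` with two neighbours `u ≠ v` of `w ∈ E` in `P`.  Step: choose `w' ∈ E`
not used, `u' ≠ v'` two neighbours of `w'` in `P` not used (`m/6 ≥ 3 j + 4`), `z ∈ P` adjacent to `v` and `u'`, not used
(`|P| - 2 m/100 - 3 j - 4 > 0`); append `z, u', w', v'`. -/
theorem ear_path [DecidableEq V] (G : SimpleGraph V) (m : ℕ) (hm : 1000 ≤ m) (P E : Finset V)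
    (hPE : Disjoint P E) (hP : 99 * m ≤ 100 * P.card)
    (hd : ∀ v ∈ P, 100 * P.card ≤ 100 * dg G P v + m) (hE : 100 * E.card ≤ m)
    (hEd : ∀ w ∈ E, m ≤ 6 * dg G P w) (j : ℕ) (hj : 1 ≤ j) (hjE : j ≤ E.card) :
    ∃ u ∈ P, ∃ v ∈ P, ∃ l : List V, PathL G u v l ∧ l.length = 4 * j - 1 ∧
      (l.toFinset ∩ P).card = 3 * j - 1 ∧ ∀ w ∈ l, w ∈ P ∨ w ∈ E := by
  induction j, hj using Nat.le_induction with
  | base =>
    obtain ⟨w, hw⟩ : E.Nonempty := Finset.card_pos.1 (by omega)
    have hwd := hEd w hw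
    obtain ⟨u, hu, hwu, -⟩ := NC2_nb G P ∅ w (by rw [Finset.card_empty]; omega)
    obtain ⟨v, hv, hwv, hvu⟩ := NC2_nb G P {u} w (by rw [Finset.card_singleton]; omega)
    rw [Finset.mem_singleton] at hvu
    have hwP : w ∉ P := fun h => Finset.disjoint_left.1 hPE h hw
    have huw : u ≠ w := fun h => hwP (h ▸ hu)
    have hvw : v ≠ w := fun h => hwP (h ▸ hv)
    refine ⟨u, hu, v, hv, [u, w, v], ⟨?_, ?_, by simp, by simp⟩, by simp, ?_, ?_⟩
    · simp only [List.isChain_cons_cons, List.IsChain.singleton, and_true]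
      exact ⟨hwu.symm, hwv⟩
    · simp only [List.nodup_cons, List.mem_cons, List.not_mem_nil, or_false, not_or, not_false_eq_true,
        List.nodup_nil, and_true]
      exact ⟨⟨huw, fun h => hvu h.symm⟩, hvw.symm⟩
    · have h1 : [u, w, v].toFinset ∩ P = {u, v} := by
        ext z
        simp only [List.toFinset_cons, List.toFinset_nil, Finset.mem_inter, Finset.mem_insert,
          Finset.notMem_empty, or_false, Finset.mem_singleton]
        constructor
        · rintro ⟨h | h | h, h2⟩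
          · exact Or.inl h
          · exact absurd (h ▸ h2) hwP
          · exact Or.inr h
        · rintro (h | h)
          · exact ⟨Or.inl h, h ▸ hu⟩
          · exact ⟨Or.inr (Or.inr h), h ▸ hv⟩
      rw [h1, Finset.card_pair (fun h => hvu h.symm)]
    · intro z hz
      simp only [List.mem_cons, List.not_mem_nil, or_false] at hz
      rcases hz with h | h | h
      · exact Or.inl (h ▸ hu)
      · exact Or.inr (h ▸ hw)
      · exact Or.inl (h ▸ hv)
  | succ j hj ih =>
    obtain ⟨u, hu, v, hv, l, hl, hll, hlP, hlv⟩ := ih (by omega)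
    have hlE : (l.toFinset ∩ E).card = j := by
      have h1 : l.toFinset = (l.toFinset ∩ P) ∪ (l.toFinset ∩ E) := by
        ext z
        simp only [Finset.mem_union, Finset.mem_inter, List.mem_toFinset]
        constructor
        · intro hz
          rcases hlv z hz with h | h
          · exact Or.inl ⟨hz, h⟩
          · exact Or.inr ⟨hz, h⟩
        · rintro (h | h)
          · exact h.1
          · exact h.1
      have h2 : Disjoint (l.toFinset ∩ P) (l.toFinset ∩ E) := by
        rw [Finset.disjoint_left]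
        intro z hz hz'
        exact Finset.disjoint_left.1 hPE (Finset.mem_inter.1 hz).2 (Finset.mem_inter.1 hz').2
      have h3 := Finset.card_union_of_disjoint h2
      rw [← h1, List.toFinset_card_of_nodup hl.2.1, hll, hlP] at h3
      omega
    obtain ⟨w, hw, hwl⟩ : ∃ w ∈ E, w ∉ l := by
      by_contra hcon
      push Not at hcon
      have h1 : E ⊆ l.toFinset ∩ E := fun z hz => Finset.mem_inter.2 ⟨List.mem_toFinset.2 (hcon z hz), hz⟩
      have h2 := Finset.card_le_card h1
      omega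
    have hwP : w ∉ P := fun h => Finset.disjoint_left.1 hPE h hw
    have hwd := hEd w hw
    obtain ⟨u', hu', hwu', hu'l⟩ := NC2_nb G P (l.toFinset ∩ P) w (by rw [hlP]; omega)
    have hu'l' : u' ∉ l := fun h => hu'l (Finset.mem_inter.2 ⟨List.mem_toFinset.2 h, hu'⟩)
    obtain ⟨v', hv', hwv', hv'l⟩ := NC2_nb G P (insert u' (l.toFinset ∩ P)) w (by
      rw [Finset.card_insert_of_notMem hu'l, hlP]; omega)
    rw [Finset.mem_insert, not_or] at hv'l
    have hv'l' : v' ∉ l := fun h => hv'l.2 (Finset.mem_inter.2 ⟨List.mem_toFinset.2 h, hv'⟩)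
    have hdv := hd v hv
    have hdu' := hd u' hu'
    obtain ⟨z, hz, hvz, hu'z, hzF⟩ := NC2_common G P (insert v' (l.toFinset ∩ P)) v u' (by
      rw [Finset.card_insert_of_notMem (fun h => hv'l.2 h), hlP]
      omega)
    rw [Finset.mem_insert, not_or] at hzF
    have hzl : z ∉ l := fun h => hzF.2 (Finset.mem_inter.2 ⟨List.mem_toFinset.2 h, hz⟩)
    have hzw : z ≠ w := fun h => hwP (h ▸ hz)
    have hu'w : u' ≠ w := fun h => hwP (h ▸ hu')
    have hv'w : v' ≠ w := fun h => hwP (h ▸ hv')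
    have hu'z' : u' ≠ z := hu'z.ne
    have p1 := NC2_snoc hl hvz hzl
    have p2 := NC2_snoc p1 hu'z.symm (by
      rw [List.mem_append, List.mem_singleton, not_or]
      exact ⟨hu'l', hu'z'⟩)
    have p3 := NC2_snoc p2 hwu'.symm (by
      rw [List.mem_append, List.mem_append, List.mem_singleton, List.mem_singleton, not_or, not_or]
      exact ⟨⟨hwl, hzw.symm⟩, hu'w.symm⟩)
    have p4 := NC2_snoc p3 hwv' (by
      rw [List.mem_append, List.mem_append, List.mem_append, List.mem_singleton, List.mem_singleton,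
        List.mem_singleton, not_or, not_or, not_or]
      exact ⟨⟨⟨hv'l', fun h => hzF.1 h.symm⟩, hv'l.1⟩, hv'w⟩)
    refine ⟨u, hu, v', hv', _, p4, ?_, ?_, ?_⟩
    · simp only [List.length_append, List.length_singleton, hll]
      omega
    · have h1 : ((((l ++ [z]) ++ [u']) ++ [w]) ++ [v']).toFinset ∩ P =
          insert z (insert u' (insert v' (l.toFinset ∩ P))) := by
        ext y
        simp only [List.toFinset_append, List.toFinset_cons, List.toFinset_nil, Finset.mem_inter,
          Finset.mem_union, Finset.mem_insert, Finset.notMem_empty, or_false]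
        constructor
        · rintro ⟨(((h | h) | h) | h) | h, h2⟩
          · exact Or.inr (Or.inr (Or.inr ⟨h, h2⟩))
          · exact Or.inl h
          · exact Or.inr (Or.inl h)
          · exact absurd (h ▸ h2) hwP
          · exact Or.inr (Or.inr (Or.inl h))
        · rintro (h | h | h | h)
          · exact ⟨Or.inl (Or.inl (Or.inl (Or.inr h))), h ▸ hz⟩
          · exact ⟨Or.inl (Or.inl (Or.inr h)), h ▸ hu'⟩
          · exact ⟨Or.inr h, h ▸ hv'⟩
          · exact ⟨Or.inl (Or.inl (Or.inl (Or.inl h.1))), h.2⟩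
      rw [h1, Finset.card_insert_of_notMem, Finset.card_insert_of_notMem, Finset.card_insert_of_notMem, hlP]
      · omega
      · exact hv'l.2
      · rw [Finset.mem_insert, not_or]
        exact ⟨fun h => hv'l.1 h.symm, hu'l⟩
      · rw [Finset.mem_insert, Finset.mem_insert, not_or, not_or]
        exact ⟨hu'z'.symm, hzF.1, hzF.2⟩
    · intro y hy
      simp only [List.mem_append, List.mem_singleton] at hy
      rcases hy with (((h | h) | h) | h) | h
      · exact hlv y h
      · exact Or.inl (h ▸ hz)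
      · exact Or.inl (h ▸ hu')
      · exact Or.inr (h ▸ hw)
      · exact Or.inl (h ▸ hv')

/-- ALL CYCLE LENGTHS UP TO `|P| + |E|`.
PROOF. `d = ⌊m/100⌋ + 1`.  `3 ≤ L ≤ |P|`: choose `x ~ y` in `P`, `T = P ∖ {x, y}`, `ham_connected` with `i = L - 2` (every
`v ∈ P` has at most `m/100` non-neighbours in `P`, itself included), closed by `y ~ x`.  `L = |P| + j`,
`1 ≤ j ≤ |E|`: `ear_path`: `l` from `u` to `v`; `T = P ∖ l.toFinset`, `|T| = |P| - 3 j + 1`; `ham_connected` from `v` to `u` with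
`i = |T|` inner vertices; the two paths form a cycle with `4 j - 1 + |T| = |P| + j` vertices
(`hasCyc_of_paths`, `r = 2`: `(4 j - 2) + (|T| + 1)`). -/
theorem clique_cycles [DecidableEq V] (G : SimpleGraph V) (m : ℕ) (hm : 1000 ≤ m)
    (P E : Finset V) (hPE : Disjoint P E) (hP : 99 * m ≤ 100 * P.card)
    (hd : ∀ v ∈ P, 100 * P.card ≤ 100 * dg G P v + m) (hE : 100 * E.card ≤ m)
    (hEd : ∀ w ∈ E, m ≤ 6 * dg G P w) (L : ℕ) (h3 : 3 ≤ L) (hL : L ≤ P.card + E.card) :
    HasCyc G L := by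
  have hdT : ∀ T ⊆ P, ∀ v ∈ P, T.card ≤ dg G T v + m / 100 := by
    intro T hT v hv
    have h1 := NC2_sub G P T v hT
    have h2 := hd v hv
    omega
  rcases Nat.lt_or_ge P.card L with hlt | hge
  · -- `L = |P| + j`
    obtain ⟨j, hj⟩ : ∃ j, L = P.card + j := ⟨L - P.card, by omega⟩
    obtain ⟨u, hu, v, hv, l, hl, hll, hlP, hlv⟩ := ear_path G m hm P E hPE hP hd hE hEd j (by omega) (by omega)
    have huv : u ≠ v := by
      intro h
      have h1 := hl.2.2.1
      have h2 := hl.2.2.2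
      cases l with
      | nil => simp at h1
      | cons a t =>
        cases t with
        | nil =>
          simp only [List.length_singleton] at hll
          omega
        | cons b t =>
          simp only [List.head?_cons, Option.some.injEq] at h1
          rw [← h] at h2
          rw [List.getLast?_cons_of_ne_nil (by simp)] at h2
          have h3 := List.mem_of_getLast? h2
          have h4 := (List.nodup_cons.1 hl.2.1).1
          rw [h1] at h4
          exact h4 h3
    have hTP : P \ l.toFinset ⊆ P := Finset.sdiff_subset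
    have hTc : (P \ l.toFinset).card = P.card - (3 * j - 1) := by
      rw [Finset.card_sdiff, hlP]
    obtain ⟨l', hl', hll', hlv'⟩ := ham_connected G (P \ l.toFinset) (m / 100) v u huv.symm
      (fun h => (Finset.mem_sdiff.1 h).2 (List.mem_toFinset.2 hl.right_mem))
      (fun h => (Finset.mem_sdiff.1 h).2 (List.mem_toFinset.2 hl.left_mem))
      (hdT _ hTP v hv) (hdT _ hTP u hu) (fun w hw => hdT _ hTP w (hTP hw)) (by omega)
      (P \ l.toFinset).card (by omega) le_rfl
    have hcyc := hasCyc_of_paths (G := G) 2 le_rfl (fun i => if i = 1 then v else u)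
      (fun i => if i = 0 then l else l') (by
        intro i hi
        interval_cases i
        · simpa using hl
        · simpa using hl') (by simp) (by
        intro i hi
        interval_cases i
        · simp only [if_true]
          omega
        · simp only [one_ne_zero, if_false]
          omega) (by
        intro i j' hij hj' w hw hw'
        have h1 : i = 0 := by omega
        have h2 : j' = 1 := by omega
        subst h1 h2
        simp only [if_true] at hw
        simp only [one_ne_zero, if_false] at hw'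
        rcases hlv' w hw' with h | h | h
        · exact Or.inl ⟨rfl, by simpa using h⟩
        · exact Or.inr ⟨rfl, rfl, by simpa using h⟩
        · exact absurd (List.mem_toFinset.2 hw) (Finset.mem_sdiff.1 h).2) (by
        rw [Finset.sum_range_succ, Finset.sum_range_one]
        simp only [if_true, one_ne_zero, if_false]
        omega)
    rw [Finset.sum_range_succ, Finset.sum_range_one] at hcyc
    simp only [if_true, one_ne_zero, if_false] at hcyc
    have h5 : l.length - 1 + (l'.length - 1) = L := by omega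
    rw [h5] at hcyc
    exact hcyc
  · obtain ⟨x, hx⟩ : P.Nonempty := Finset.card_pos.1 (by omega)
    have hdx := hd x hx
    obtain ⟨y, hy, hxy, -⟩ := NC2_nb G P ∅ x (by rw [Finset.card_empty]; omega)
    have hTP : (P.erase x).erase y ⊆ P := (Finset.erase_subset _ _).trans (Finset.erase_subset _ _)
    have hTc : ((P.erase x).erase y).card = P.card - 2 := by
      rw [Finset.card_erase_of_mem (Finset.mem_erase.2 ⟨hxy.ne.symm, hy⟩), Finset.card_erase_of_mem hx]
      omega
    obtain ⟨l, hl, hll, -⟩ := ham_connected G ((P.erase x).erase y) (m / 100) x y hxy.ne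
      (fun h => Finset.notMem_erase x P (Finset.mem_of_mem_erase h))
      (Finset.notMem_erase y _) (hdT _ hTP x hx) (hdT _ hTP y hy) (fun w hw => hdT _ hTP w (hTP hw))
      (by omega) (L - 2) (by omega) (by omega)
    have h1 := hasCyc_of_list hl (by omega) hxy.symm
    have h2 : l.length = L := by omega
    rw [h2] at h1
    exact h1

/- MODULE NC3 -/
/-- two nearly complete disjoint sets, covering almost all vertices -/
structure NC [Fintype V] (G : SimpleGraph V) (m : ℕ) (P Q : Finset V) : Prop where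
  disj : Disjoint P Q
  P1 : 99 * m ≤ 100 * P.card
  Q1 : 99 * m ≤ 100 * Q.card
  dP : ∀ v ∈ P, 100 * P.card ≤ 100 * dg G P v + m
  dQ : ∀ v ∈ Q, 100 * Q.card ≤ 100 * dg G Q v + m
  cov : 100 * Fintype.card V ≤ 100 * (P.card + Q.card) + m

private theorem NC3_num (M n p q vU vP vQ : ℝ) (hM : (10 : ℝ) ^ 6 ≤ M) (hn : 2 * M ≤ n)
    (hn2 : n ≤ (2 + 1 / 1000) * M) (hvol : 2 * ((M - 1) * (n - (M - 1))) ≤ vU)
    (hp : p ≤ (1 / 2 + 1 / 10 ^ 7) * n) (hq : q ≤ (1 / 2 + 1 / 10 ^ 7) * n) (hpq : p + q = n)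
    (hPQ : vU ≤ vP + vQ + 1 / 10 ^ 7 * n ^ 2) (hQ : vQ ≤ q ^ 2) :
    p ^ 2 ≤ vP + (n / 1000) ^ 2 := by
  have h1 : 0 ≤ n / 2 - M + 1 := by linarith
  have h2 : n / 2 - M + 1 ≤ M / 1000 := by
    norm_num at hM
    linarith
  have h3 : (n / 2 - M + 1) ^ 2 ≤ (M / 1000) ^ 2 := pow_le_pow_left₀ h1 h2 2
  have hM0 : 0 ≤ M := by
    norm_num at hM
    linarith
  have h4 : M ^ 2 ≤ (n / 2) ^ 2 := pow_le_pow_left₀ hM0 (by linarith) 2
  have h5 : (M - 1) * (n - (M - 1)) = n ^ 2 / 4 - (n / 2 - M + 1) ^ 2 := by ring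
  have h6 : (p - n / 2) ≤ 1 / 10 ^ 7 * n := by linarith
  have h7 : -(1 / 10 ^ 7 * n) ≤ (p - n / 2) := by linarith
  have h8 : (p - n / 2) ^ 2 ≤ (1 / 10 ^ 7 * n) ^ 2 := by
    apply sq_le_sq'
    · exact h7
    · exact h6
  have h9 : q = n - p := by linarith
  rw [h5] at hvol
  subst h9
  have h10 : 0 ≤ n ^ 2 := sq_nonneg n
  nlinarith

/-- PROOF. `Q = univ ∖ P`.  `vol G univ ≥ 2 (m-1)(n-m+1) ≥ n²/2 - 0.5 · 10^(-6) n²` (see `nb_of_stab` in NearBip.lean:
`(m-1)(n-m+1) = n²/4 - (n/2 - m + 1)²`, `1 ≤ n/2 - m + 1 ≤ m/1000`, `m² ≤ n²/4`).  So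
`vol P + vol Q ≥ n²/2 - 0.6 · 10^(-6) n²`, and `|P|² + |Q|² ≤ 2 (1/2 + 10^(-7))² n² ≤ n²/2 + 0.3 · 10^(-6) n²`.  As
`vol P ≤ |P|²`, `vol Q ≤ |Q|²`: `|P|² ≤ vol P + 10^(-6) n²`, the same for `Q`.  `few_missing` with `x = n/1000`: `P0 ⊆ P`,
`|P ∖ P0| ≤ n/1000`, and for `v ∈ P0` (with `T = P0`) `|P0| ≤ dg P0 v + n/1000`; `Q0` in the same way.
`n/1000 ≤ 0.0021 m`; `|P| = n - |Q| ≥ (1/2 - 10^(-7)) n ≥ 0.999 m`, so `|P0| ≥ 0.99 m`;
`n - |P0| - |Q0| ≤ n/500 ≤ m/100`. -/
theorem nc_of_stab [Fintype V] [DecidableEq V] (G : SimpleGraph V) (m : ℕ) (hm : 10 ^ 6 ≤ m)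
    (hn : 2 * m ≤ Fintype.card V) (hn2 : (Fintype.card V : ℝ) ≤ (2 + 1 / 1000) * m)
    (hvol : 2 * ((m - 1) * (Fintype.card V - (m - 1))) ≤ vol G Finset.univ) (P : Finset V)
    (hP : (P.card : ℝ) ≤ (1 / 2 + 1 / 10 ^ 7) * (Fintype.card V : ℝ))
    (hQ : ((Finset.univ \ P : Finset V).card : ℝ) ≤ (1 / 2 + 1 / 10 ^ 7) * (Fintype.card V : ℝ))
    (hPQ : (vol G Finset.univ : ℝ) ≤ (vol G P : ℝ) + (vol G (Finset.univ \ P) : ℝ) +
      1 / 10 ^ 7 * (Fintype.card V : ℝ) ^ 2) :
    ∃ P0 Q0 : Finset V, NC G m P0 Q0 := by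
  have hmR : (10 : ℝ) ^ 6 ≤ (m : ℝ) := by exact_mod_cast hm
  have hnR : 2 * (m : ℝ) ≤ (Fintype.card V : ℝ) := by exact_mod_cast hn
  have hm1 : 1 ≤ m := le_trans (by norm_num) hm
  have hvolR : 2 * (((m : ℝ) - 1) * ((Fintype.card V : ℝ) - ((m : ℝ) - 1))) ≤ (vol G Finset.univ : ℝ) := by
    have h4 : ((2 * ((m - 1) * (Fintype.card V - (m - 1))) : ℕ) : ℝ) ≤ (vol G Finset.univ : ℝ) := by
      exact_mod_cast hvol
    have h5 : ((2 * ((m - 1) * (Fintype.card V - (m - 1))) : ℕ) : ℝ) =
        2 * (((m : ℝ) - 1) * ((Fintype.card V : ℝ) - ((m : ℝ) - 1))) := by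
      have e1 : ((m - 1 : ℕ) : ℝ) = (m : ℝ) - 1 := by rw [Nat.cast_sub hm1, Nat.cast_one]
      have e2 : ((Fintype.card V - (m - 1) : ℕ) : ℝ) = (Fintype.card V : ℝ) - ((m : ℝ) - 1) := by
        rw [Nat.cast_sub (by omega), e1]
      rw [Nat.cast_mul, Nat.cast_mul, e1, e2, Nat.cast_ofNat]
    rw [h5] at h4
    exact h4
  have hsq : ∀ S : Finset V, (vol G S : ℝ) ≤ (S.card : ℝ) ^ 2 := by
    intro S
    have h1 := vol_le G S
    have h2 : S.card * (S.card - 1) ≤ S.card ^ 2 := by
      rw [pow_two]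
      exact Nat.mul_le_mul_left _ (Nat.sub_le _ _)
    exact_mod_cast h1.trans h2
  have hc : P.card + (Finset.univ \ P).card = Fintype.card V := by
    rw [Finset.card_sdiff_of_subset (Finset.subset_univ _), Finset.card_univ]
    have := Finset.card_le_univ P
    omega
  have hcR : (P.card : ℝ) + ((Finset.univ \ P).card : ℝ) = (Fintype.card V : ℝ) := by exact_mod_cast hc
  have n1 := NC3_num m (Fintype.card V) P.card (Finset.univ \ P).card (vol G Finset.univ) (vol G P)
    (vol G (Finset.univ \ P)) hmR hnR hn2 hvolR hP hQ hcR hPQ (hsq _)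
  have n2 := NC3_num m (Fintype.card V) (Finset.univ \ P).card P.card (vol G Finset.univ)
    (vol G (Finset.univ \ P)) (vol G P) hmR hnR hn2 hvolR hQ hP (by linarith) (by linarith) (hsq _)
  have hx : (0 : ℝ) < (Fintype.card V : ℝ) / 1000 := by
    have : (0 : ℝ) < (10 : ℝ) ^ 6 := by positivity
    linarith
  obtain ⟨P0, hP0, hP0c, hP0d⟩ := few_missing G P _ hx n1
  obtain ⟨Q0, hQ0, hQ0c, hQ0d⟩ := few_missing G (Finset.univ \ P) _ hx n2
  have cP : (P0.card : ℝ) + ((P \ P0).card : ℝ) = (P.card : ℝ) := by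
    have h1 := Finset.card_sdiff_add_card_eq_card hP0
    have h2 : P0.card + (P \ P0).card = P.card := by omega
    exact_mod_cast h2
  have cQ : (Q0.card : ℝ) + (((Finset.univ \ P) \ Q0).card : ℝ) = ((Finset.univ \ P).card : ℝ) := by
    have h1 := Finset.card_sdiff_add_card_eq_card hQ0
    have h2 : Q0.card + ((Finset.univ \ P) \ Q0).card = (Finset.univ \ P).card := by omega
    exact_mod_cast h2
  refine ⟨P0, Q0, ⟨?_, ?_, ?_, ?_, ?_, ?_⟩⟩
  · rw [Finset.disjoint_left]
    intro v hv hv'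
    exact (Finset.mem_sdiff.1 (hQ0 hv')).2 (hP0 hv)
  · have h1 : 99 * (m : ℝ) ≤ 100 * (P0.card : ℝ) := by linarith
    exact_mod_cast h1
  · have h1 : 99 * (m : ℝ) ≤ 100 * (Q0.card : ℝ) := by linarith
    exact_mod_cast h1
  · intro v hv
    have h1 := hP0d v hv P0 hP0
    have h2 : 100 * (P0.card : ℝ) ≤ 100 * (dg G P0 v : ℝ) + m := by linarith
    exact_mod_cast h2
  · intro v hv
    have h1 := hQ0d v hv Q0 hQ0
    have h2 : 100 * (Q0.card : ℝ) ≤ 100 * (dg G Q0 v : ℝ) + m := by linarith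
    exact_mod_cast h2
  · have h2 : 100 * (Fintype.card V : ℝ) ≤ 100 * ((P0.card : ℝ) + (Q0.card : ℝ)) + m := by linarith
    exact_mod_cast h2

/- MODULE NC4 -/
/-- every vertex of degree at least `2 m / 5` has many neighbours on one side -/
private theorem NC4_split [Fintype V] [DecidableEq V] {G : SimpleGraph V} {m : ℕ} {P Q : Finset V}
    (h : NC G m P Q) (w : V) : dg G Finset.univ w + (P.card + Q.card) ≤
      dg G P w + dg G Q w + Fintype.card V := by
  classical
  have h1 := NC2_sub G Finset.univ (P ∪ Q) w (Finset.subset_univ _)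
  have h2 : (P ∪ Q).card = P.card + Q.card := Finset.card_union_of_disjoint h.disj
  have h3 : dg G (P ∪ Q) w ≤ dg G P w + dg G Q w := by
    unfold dg
    rw [Finset.filter_union]
    exact Finset.card_union_le _ _
  rw [h2, Finset.card_univ] at h1
  omega

/-- SIDES.
PROOF. `L = {w : 5 dg univ w < 2 m}`.  `P`, `Q` are disjoint from `L` (degree at least `0.98 m`).  `w ∉ P ∪ Q ∪ L` has at least
`2 m/5 - m/100 = 0.39 m` neighbours in `P ∪ Q`, so at least `m/6` in `P` or in `Q`.  `E1` = those with `m ≤ 6 dg P w`,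
`E2` = the others.  `|E1|, |E2| ≤ n - |P| - |Q| ≤ m/100`. -/
theorem nc_sides [Fintype V] [DecidableEq V] {G : SimpleGraph V} {m : ℕ} {P Q : Finset V}
    (h : NC G m P Q) (hm : 1000 ≤ m) :
    ∃ E1 E2 L : Finset V, Disjoint P E1 ∧ Disjoint Q E2 ∧ Disjoint (P ∪ E1) (Q ∪ E2) ∧
      100 * E1.card ≤ m ∧ 100 * E2.card ≤ m ∧ 100 * L.card ≤ m ∧
      (∀ w ∈ E1, m ≤ 6 * dg G P w) ∧ (∀ w ∈ E2, m ≤ 6 * dg G Q w) ∧
      L = Finset.univ \ ((P ∪ E1) ∪ (Q ∪ E2)) ∧
      ∀ w, w ∈ L ↔ 5 * dg G Finset.univ w < 2 * m := by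
  have hcov := h.cov
  have hrest : ∀ S : Finset V, Disjoint S (P ∪ Q) → 100 * S.card ≤ m := by
    intro S hS
    have h1 := Finset.card_union_of_disjoint hS
    have h2 := Finset.card_le_univ (S ∪ (P ∪ Q))
    rw [h1, Finset.card_union_of_disjoint h.disj] at h2
    omega
  obtain ⟨E1, hE1⟩ : ∃ E1 : Finset V, E1 = Finset.univ.filter (fun w => w ∉ P ∪ Q ∧
    ¬ (5 * dg G Finset.univ w < 2 * m) ∧ m ≤ 6 * dg G P w) := ⟨_, rfl⟩
  obtain ⟨E2, hE2⟩ : ∃ E2 : Finset V, E2 = Finset.univ.filter (fun w => w ∉ P ∪ Q ∧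
    ¬ (5 * dg G Finset.univ w < 2 * m) ∧ ¬ (m ≤ 6 * dg G P w)) := ⟨_, rfl⟩
  have m1 : ∀ w, w ∈ E1 ↔ (w ∉ P ∪ Q ∧ ¬ (5 * dg G Finset.univ w < 2 * m) ∧ m ≤ 6 * dg G P w) := by
    intro w
    rw [hE1, Finset.mem_filter]
    exact ⟨fun h1 => h1.2, fun h1 => ⟨Finset.mem_univ _, h1⟩⟩
  have m2 : ∀ w, w ∈ E2 ↔ (w ∉ P ∪ Q ∧ ¬ (5 * dg G Finset.univ w < 2 * m) ∧ ¬ (m ≤ 6 * dg G P w)) := by
    intro w
    rw [hE2, Finset.mem_filter]
    exact ⟨fun h1 => h1.2, fun h1 => ⟨Finset.mem_univ _, h1⟩⟩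
  have hPQ := h.disj
  rw [Finset.disjoint_left] at hPQ
  have hlow : ∀ w ∈ P ∪ Q, ¬ (5 * dg G Finset.univ w < 2 * m) := by
    intro w hw
    rcases Finset.mem_union.1 hw with h1 | h1
    · have h2 := h.dP w h1
      have h3 := h.P1
      have h4 := dg_mono_set G (Finset.subset_univ P) w
      omega
    · have h2 := h.dQ w h1
      have h3 := h.Q1
      have h4 := dg_mono_set G (Finset.subset_univ Q) w
      omega
  refine ⟨E1, E2, Finset.univ \ ((P ∪ E1) ∪ (Q ∪ E2)), ?_, ?_, ?_, ?_, ?_, ?_, ?_, ?_, rfl, ?_⟩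
  · rw [Finset.disjoint_left]
    intro v hv hv'
    exact ((m1 v).1 hv').1 (Finset.mem_union_left _ hv)
  · rw [Finset.disjoint_left]
    intro v hv hv'
    exact ((m2 v).1 hv').1 (Finset.mem_union_right _ hv)
  · rw [Finset.disjoint_left]
    intro v hv hv'
    rcases Finset.mem_union.1 hv with h1 | h1
    · rcases Finset.mem_union.1 hv' with h2 | h2
      · exact hPQ h1 h2
      · exact ((m2 v).1 h2).1 (Finset.mem_union_left _ h1)
    · rcases Finset.mem_union.1 hv' with h2 | h2
      · exact ((m1 v).1 h1).1 (Finset.mem_union_right _ h2)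
      · exact ((m2 v).1 h2).2.2 ((m1 v).1 h1).2.2
  · apply hrest
    rw [Finset.disjoint_left]
    intro v hv hv'
    exact ((m1 v).1 hv).1 hv'
  · apply hrest
    rw [Finset.disjoint_left]
    intro v hv hv'
    exact ((m2 v).1 hv).1 hv'
  · apply hrest
    rw [Finset.disjoint_left]
    intro v hv hv'
    apply (Finset.mem_sdiff.1 hv).2
    rcases Finset.mem_union.1 hv' with h1 | h1
    · exact Finset.mem_union_left _ (Finset.mem_union_left _ h1)
    · exact Finset.mem_union_right _ (Finset.mem_union_left _ h1)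
  · intro w hw
    exact ((m1 w).1 hw).2.2
  · intro w hw
    have h1 := (m2 w).1 hw
    have h2 := NC4_split h w
    omega
  · intro w
    rw [Finset.mem_sdiff]
    constructor
    · rintro ⟨-, h1⟩
      by_contra h2
      apply h1
      by_cases h3 : w ∈ P ∪ Q
      · rcases Finset.mem_union.1 h3 with h4 | h4
        · exact Finset.mem_union_left _ (Finset.mem_union_left _ h4)
        · exact Finset.mem_union_right _ (Finset.mem_union_left _ h4)
      · by_cases h4 : m ≤ 6 * dg G P w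
        · exact Finset.mem_union_left _ (Finset.mem_union_right _ ((m1 w).2 ⟨h3, h2, h4⟩))
        · exact Finset.mem_union_right _ (Finset.mem_union_right _ ((m2 w).2 ⟨h3, h2, h4⟩))
    · intro h1
      refine ⟨Finset.mem_univ _, ?_⟩
      intro h2
      rcases Finset.mem_union.1 h2 with h3 | h3
      · rcases Finset.mem_union.1 h3 with h4 | h4
        · exact hlow w (Finset.mem_union_left _ h4) h1
        · exact ((m1 w).1 h4).2.1 h1
      · rcases Finset.mem_union.1 h3 with h4 | h4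
        · exact hlow w (Finset.mem_union_right _ h4) h1
        · exact ((m2 w).1 h4).2.1 h1

/- MODULE NC5 -/
/-- a path between two attached vertices with prescribed number of inner vertices -/
private theorem NC5_path [DecidableEq V] {G : SimpleGraph V} {m : ℕ} (hm : 1000 ≤ m) {P : Finset V}
    (hP : 99 * m ≤ 100 * P.card) (hd : ∀ v ∈ P, 100 * P.card ≤ 100 * dg G P v + m) (p1 p2 : V)
    (h12 : p1 ≠ p2) (h1 : m ≤ 6 * dg G P p1) (h2 : m ≤ 6 * dg G P p2) (i : ℕ) (h3 : 3 ≤ i)
    (him : 2 * i ≤ m) :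
    ∃ l, PathL G p1 p2 l ∧ l.length = i + 2 ∧ ∀ v ∈ l, v = p1 ∨ v = p2 ∨ v ∈ P := by
  obtain ⟨u, hu, hpu, huF⟩ := NC2_nb G P {p1, p2} p1 (by
    have := Finset.card_le_two (a := p1) (b := p2)
    omega)
  obtain ⟨v, hv, hpv, hvF⟩ := NC2_nb G P {p1, p2, u} p2 (by
    have := Finset.card_le_three (a := p1) (b := p2) (c := u)
    omega)
  simp only [Finset.mem_insert, Finset.mem_singleton, not_or] at huF hvF
  obtain ⟨T, hT⟩ : ∃ T : Finset V, T = P \ {p1, p2, u, v} := ⟨_, rfl⟩
  have hTP : T ⊆ P := by rw [hT]; exact Finset.sdiff_subset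
  have hTm : ∀ w ∈ T, w ≠ p1 ∧ w ≠ p2 ∧ w ≠ u ∧ w ≠ v := by
    intro w hw
    rw [hT, Finset.mem_sdiff] at hw
    have h4 := hw.2
    simp only [Finset.mem_insert, Finset.mem_singleton, not_or] at h4
    exact h4
  have hTc : P.card ≤ T.card + 4 := by
    have h4 := Finset.le_card_sdiff {p1, p2, u, v} P
    have h5 := Finset.card_le_four (a := p1) (b := p2) (c := u) (d := v)
    rw [hT]
    omega
  have hdT : ∀ w ∈ P, T.card ≤ dg G T w + m / 100 := by
    intro w hw
    have h4 := NC2_sub G P T w hTP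
    have h5 := hd w hw
    omega
  obtain ⟨l, hl, hll, hlv⟩ := greedy_path G T (m / 100) u v (fun h => hvF.2.2 h.symm)
    (fun h => (hTm u h).2.2.1 rfl) (fun h => (hTm v h).2.2.2 rfl) (hdT u hu) (hdT v hv)
    (fun w hw => hdT w (hTP hw)) (i - 2) (by omega) (by omega)
  have hlP : ∀ w ∈ l, w ∈ P ∧ w ≠ p1 ∧ w ≠ p2 := by
    intro w hw
    rcases hlv w hw with h4 | h4 | h4
    · exact ⟨h4 ▸ hu, h4 ▸ huF.1, h4 ▸ huF.2⟩
    · exact ⟨h4 ▸ hv, h4 ▸ hvF.1, h4 ▸ hvF.2.1⟩
    · exact ⟨hTP h4, (hTm w h4).1, (hTm w h4).2.1⟩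
  have q1 := NC2_snoc hl hpv.symm (fun h => (hlP p2 h).2.2 rfl)
  have q2 := NC2_snoc q1.reverse hpu.symm (by
    rw [List.mem_reverse, List.mem_append, List.mem_singleton, not_or]
    exact ⟨fun h => (hlP p1 h).2.1 rfl, h12⟩)
  refine ⟨_, q2.reverse, ?_, ?_⟩
  · rw [List.length_reverse, List.length_append, List.length_reverse, List.length_append, hll]
    simp only [List.length_singleton]
    omega
  · intro w hw
    rw [List.mem_reverse, List.mem_append, List.mem_reverse, List.mem_append, List.mem_singleton,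
      List.mem_singleton] at hw
    rcases hw with (h4 | h4) | h4
    · exact Or.inr (Or.inr (hlP w h4).1)
    · exact Or.inr (Or.inl h4)
    · exact Or.inl h4

private theorem NC5_append {G : SimpleGraph V} {a y c y' : V} {l C : List V} (h : PathL G a y l)
    (h' : PathL G c y' C) (hy : G.Adj y c) (hd : ∀ v ∈ l, v ∉ C) : PathL G a y' (l ++ C) := by
  have hCne := h'.ne_nil
  have hlne := h.ne_nil
  refine ⟨?_, ?_, ?_, ?_⟩
  · rw [List.isChain_append]
    refine ⟨h.1, h'.1, ?_⟩
    intro p hp q hq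
    rw [h.2.2.2] at hp
    rw [h'.2.2.1] at hq
    simp only [Option.mem_def, Option.some.injEq] at hp hq
    subst hp hq
    exact hy
  · rw [List.nodup_append]
    refine ⟨h.2.1, h'.2.1, ?_⟩
    rintro p hp q hq rfl
    exact hd p hp hq
  · rw [List.head?_append_of_ne_nil _ hlne]
    exact h.2.2.1
  · rw [List.getLast?_append_of_ne_nil _ hCne]
    exact h'.2.2.2

/-- CROSSING EDGES.
PROOF. Suppose there are `p1 ≠ p2` in `P ∪ E1`, `q1 ≠ q2` in `Q ∪ E2` with `p1 ~ q1`, `p2 ~ q2`.  `i = (l - 4)/2`, `j = l - 4 - i`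
(`3 ≤ i, j ≤ m/2`).  A path from `p1` to `p2` with `i` inner vertices in `P`: choose neighbours `u ≠ v` in `P` of `p1`, `p2`
(at least `m/6` each; elements of `P` have at least `0.98 m`), different from `p1`, `p2`, and apply `greedy_path` from
`u` to `v` in `T = P ∖ {p1, p2, u, v}` with `i - 2` inner vertices, `d = ⌊m/100⌋ + 1`.  The same from `q2` to `q1` in `Q`.  With
the edges `p2 q2`, `q1 p1` they form a cycle with `i + 2 + j + 2 = l` vertices: contradiction.
So there are no two disjoint crossing edges.  If there is a crossing edge `p1 q1` all others contain `p1` or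
`q1`: at most `|Q ∪ E2| + |P ∪ E1|` in total. -/
theorem nc_cross [Fintype V] [DecidableEq V] {G : SimpleGraph V} {m : ℕ} {P Q : Finset V}
    (h : NC G m P Q) (hm : 1000 ≤ m) (l : ℕ) (hlm : l < m) (hl9 : 9 * m ≤ 10 * l)
    (nol : ¬ HasCyc G l) (E1 E2 : Finset V) (hP : Disjoint P E1) (hQ : Disjoint Q E2)
    (hd : Disjoint (P ∪ E1) (Q ∪ E2)) (h1 : ∀ w ∈ E1, m ≤ 6 * dg G P w)
    (h2 : ∀ w ∈ E2, m ≤ 6 * dg G Q w) :
    ∑ v ∈ P ∪ E1, dg G (Q ∪ E2) v ≤ (P ∪ E1).card + (Q ∪ E2).card := by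
  classical
  have hdisj := Finset.disjoint_left.1 hd
  have hsideP : ∀ w ∈ P ∪ E1, m ≤ 6 * dg G P w := by
    intro w hw
    rcases Finset.mem_union.1 hw with h3 | h3
    · have h4 := h.dP w h3
      have h5 := h.P1
      omega
    · exact h1 w h3
  have hsideQ : ∀ w ∈ Q ∪ E2, m ≤ 6 * dg G Q w := by
    intro w hw
    rcases Finset.mem_union.1 hw with h3 | h3
    · have h4 := h.dQ w h3
      have h5 := h.Q1
      omega
    · exact h2 w h3
  have hno : ∀ p1 ∈ P ∪ E1, ∀ p2 ∈ P ∪ E1, ∀ q1 ∈ Q ∪ E2, ∀ q2 ∈ Q ∪ E2, p1 ≠ p2 → q1 ≠ q2 →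
      G.Adj p1 q1 → ¬ G.Adj p2 q2 := by
    intro p1 hp1 p2 hp2 q1 hq1 q2 hq2 hp hq ha1 ha2
    obtain ⟨l1, hl1, hl1l, hl1v⟩ := NC5_path hm h.P1 h.dP p1 p2 hp (hsideP p1 hp1) (hsideP p2 hp2)
      ((l - 4) / 2) (by omega) (by omega)
    obtain ⟨l2, hl2, hl2l, hl2v⟩ := NC5_path hm h.Q1 h.dQ q2 q1 hq.symm (hsideQ q2 hq2) (hsideQ q1 hq1)
      (l - 4 - (l - 4) / 2) (by omega) (by omega)
    have m1 : ∀ v ∈ l1, v ∈ P ∪ E1 := by
      intro v hv
      rcases hl1v v hv with h3 | h3 | h3
      · exact h3 ▸ hp1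
      · exact h3 ▸ hp2
      · exact Finset.mem_union_left _ h3
    have m2 : ∀ v ∈ l2, v ∈ Q ∪ E2 := by
      intro v hv
      rcases hl2v v hv with h3 | h3 | h3
      · exact h3 ▸ hq2
      · exact h3 ▸ hq1
      · exact Finset.mem_union_left _ h3
    have h3 := NC5_append hl1 hl2 ha2 (fun v hv hv' => hdisj (m1 v hv) (m2 v hv'))
    have h4 := hasCyc_of_list h3 (by rw [List.length_append]; omega) ha1.symm
    rw [List.length_append, hl1l, hl2l] at h4
    have h5 : (l - 4) / 2 + 2 + (l - 4 - (l - 4) / 2 + 2) = l := by omega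
    rw [h5] at h4
    exact nol h4
  by_cases hex : ∃ p1 ∈ P ∪ E1, ∃ q1 ∈ Q ∪ E2, G.Adj p1 q1
  · obtain ⟨p1, hp1, q1, hq1, ha⟩ := hex
    rw [← Finset.add_sum_erase _ _ hp1]
    have h3 : dg G (Q ∪ E2) p1 ≤ (Q ∪ E2).card := dg_le_card G _ _
    have h4 : ∑ v ∈ (P ∪ E1).erase p1, dg G (Q ∪ E2) v ≤ ∑ v ∈ (P ∪ E1).erase p1, 1 := by
      apply Finset.sum_le_sum
      intro v hv
      have hv' := Finset.mem_erase.1 hv
      have h5 : dg G (Q ∪ E2) v = ((Q ∪ E2).filter (fun w => G.Adj v w)).card := by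
        unfold dg
        congr
      rw [h5]
      have h6 : (Q ∪ E2).filter (fun w => G.Adj v w) ⊆ {q1} := by
        intro w hw
        rw [Finset.mem_filter] at hw
        rw [Finset.mem_singleton]
        by_contra hne
        exact hno p1 hp1 v hv'.2 q1 hq1 w hw.1 (fun h7 => hv'.1 h7.symm) (fun h7 => hne h7.symm) ha hw.2
      have h7 := Finset.card_le_card h6
      rw [Finset.card_singleton] at h7
      exact h7
    rw [Finset.sum_const, smul_eq_mul, mul_one] at h4
    have h5 := Finset.card_erase_le (s := P ∪ E1) (a := p1)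
    omega
  · have h3 : ∑ v ∈ P ∪ E1, dg G (Q ∪ E2) v = 0 := by
      apply Finset.sum_eq_zero
      intro v hv
      have h5 : dg G (Q ∪ E2) v = ((Q ∪ E2).filter (fun w => G.Adj v w)).card := by
        unfold dg
        congr
      rw [h5, Finset.card_eq_zero, Finset.filter_eq_empty_iff]
      intro w hw ha
      exact hex ⟨v, hv, w, hw, ha⟩
    rw [h3]
    exact Nat.zero_le _

/- MODULE NC6 -/
private theorem NC6_union [DecidableEq V] (G : SimpleGraph V) (U W : Finset V) (h : Disjoint U W) :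
    vol G (U ∪ W) = vol G U + vol G W + 2 * ∑ w ∈ W, dg G U w := by
  classical
  have hdg : ∀ v, dg G (U ∪ W) v = dg G U v + dg G W v := by
    intro v
    unfold dg
    rw [Finset.filter_union, Finset.card_union_of_disjoint]
    exact Finset.disjoint_filter_filter h
  have hcross : ∑ v ∈ U, dg G W v = ∑ w ∈ W, dg G U w := by
    unfold dg
    simp only [Finset.card_filter]
    rw [Finset.sum_comm]
    refine Finset.sum_congr rfl fun w _ => Finset.sum_congr rfl fun v _ => ?_
    simp only [G.adj_comm]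
  unfold vol
  rw [Finset.sum_union h]
  simp only [hdg, Finset.sum_add_distrib]
  rw [hcross]
  ring

private theorem NC6_low [Fintype V] [DecidableEq V] (G : SimpleGraph V) (U L : Finset V)
    (h : Disjoint U L) (hU : U ∪ L = Finset.univ) :
    vol G Finset.univ ≤ vol G U + 2 * ∑ w ∈ L, dg G Finset.univ w := by
  have h1 := NC6_union G U L h
  rw [hU] at h1
  have h2 : ∀ w ∈ L, dg G Finset.univ w = dg G L w + dg G U w := by
    intro w _
    rw [← hU]
    classical
    unfold dg
    rw [Finset.filter_union, Finset.card_union_of_disjoint (Finset.disjoint_filter_filter h)]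
    ring
  rw [Finset.sum_congr rfl h2, Finset.sum_add_distrib]
  have h3 : vol G L = ∑ w ∈ L, dg G L w := rfl
  omega

private theorem NC6_num (m p q t vU S : ℝ) (hm : (10 : ℝ) ^ 6 ≤ m) (hp : p ≤ m - 2) (hq : q ≤ m - 2)
    (hp1 : 1 ≤ p) (hq1 : 1 ≤ q) (ht : 0 ≤ t) (hs : p + q + t = 2 * m) (hv : 2 * ((m - 1) * (m + 1)) ≤ vU)
    (hv2 : vU ≤ (p * (p - 1) + q * (q - 1) + 2 * (p + q)) + S) (hS : 5 * S ≤ 4 * (m * t)) : False := by
  have h1 : p * (p - 1) ≤ (m - 2) * (p - 1) := mul_le_mul_of_nonneg_right hp (by linarith)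
  have h2 : q * (q - 1) ≤ (m - 2) * (q - 1) := mul_le_mul_of_nonneg_right hq (by linarith)
  have h3 : t = 2 * m - p - q := by linarith
  have h4 : 0 ≤ m * t := mul_nonneg (by norm_num at hm; linarith) ht
  norm_num at hm
  subst h3
  nlinarith

/-- THE NEARLY TWO CLIQUES CASE IS IMPOSSIBLE.
PROOF. `nc_of_stab`, `nc_sides`.  `P1 = P ∪ E1`, `Q1 = Q ∪ E2`, `p`, `q` their cardinalities.  `clique_cycles` (`L = l`): if `l ≤ p` or
`l ≤ q` there is a cycle of length `l`: contradiction.  So `p, q ≤ l - 1 ≤ m - 2`.  `t = |L| = n - p - q ≥ 4`.  If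
`n > 2 m` all degrees are at least `m`, so `L` is empty: contradiction.  Let `n = 2 m`, `t ≤ m/100`.
`vol univ ≤ vol (P1 ∪ Q1) + 2 ∑_(w ∈ L) dg univ w`, `2 ∑ ≤ (4/5) m t`,
`vol (P1 ∪ Q1) = vol P1 + vol Q1 + 2 ∑_(v ∈ P1) dg Q1 v ≤ p (p - 1) + q (q - 1) + 2 (p + q)` (`nc_cross`),
`p (p-1) + q (q-1) ≤ (m-2)(p + q - 2) = (m - 2)(2 m - t - 2)`.  The sum is at most
`(m-2)(2m-t-2) + 2 (2m - t) + (4/5) m t = 2 m² - 2 m + 4 - m t/5 < 2 m² - 2 ≤ vol univ`: contradiction. -/
theorem near_clq_case [Fintype V] [DecidableEq V] (G : SimpleGraph V) (m l : ℕ)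
    (hm : 10 ^ 6 ≤ m) (h3 : 3 ≤ l) (hlm : l < m) (hl9 : 9 * m ≤ 10 * l)
    (hn : 2 * m ≤ Fintype.card V) (hn2 : (Fintype.card V : ℝ) ≤ (2 + 1 / 1000) * m)
    (nol : ¬ HasCyc G l)
    (hvol : 2 * ((m - 1) * (Fintype.card V - (m - 1))) ≤ vol G Finset.univ)
    (hdeg : 2 * m < Fintype.card V → ∀ v, m ≤ dg G Finset.univ v) (P : Finset V)
    (hP : (P.card : ℝ) ≤ (1 / 2 + 1 / 10 ^ 7) * (Fintype.card V : ℝ))
    (hQ : ((Finset.univ \ P : Finset V).card : ℝ) ≤ (1 / 2 + 1 / 10 ^ 7) * (Fintype.card V : ℝ))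
    (hPQ : (vol G Finset.univ : ℝ) ≤ (vol G P : ℝ) + (vol G (Finset.univ \ P) : ℝ) +
      1 / 10 ^ 7 * (Fintype.card V : ℝ) ^ 2) : False := by
  obtain ⟨P0, Q0, hNC⟩ := nc_of_stab G m hm hn hn2 hvol P hP hQ hPQ
  have hm1000 : 1000 ≤ m := le_trans (by norm_num) hm
  obtain ⟨E1, E2, L, hPE1, hQE2, hdisj, hE1, hE2, hL, hE1d, hE2d, hLdef, hLiff⟩ := nc_sides hNC hm1000
  have cp : (P0 ∪ E1).card = P0.card + E1.card := Finset.card_union_of_disjoint hPE1
  have cq : (Q0 ∪ E2).card = Q0.card + E2.card := Finset.card_union_of_disjoint hQE2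
  have hpl : (P0 ∪ E1).card < l := by
    by_contra hcon
    exact nol (clique_cycles G m hm1000 P0 E1 hPE1 hNC.P1 hNC.dP hE1 hE1d l h3 (by omega))
  have hql : (Q0 ∪ E2).card < l := by
    by_contra hcon
    exact nol (clique_cycles G m hm1000 Q0 E2 hQE2 hNC.Q1 hNC.dQ hE2 hE2d l h3 (by omega))
  have hUL : Disjoint ((P0 ∪ E1) ∪ (Q0 ∪ E2)) L := by
    rw [hLdef]
    exact Finset.disjoint_sdiff
  have hULu : ((P0 ∪ E1) ∪ (Q0 ∪ E2)) ∪ L = Finset.univ := by
    rw [hLdef]
    exact Finset.union_sdiff_of_subset (Finset.subset_univ _)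
  have hcu : (P0 ∪ E1).card + (Q0 ∪ E2).card + L.card = Fintype.card V := by
    rw [← Finset.card_union_of_disjoint hdisj, ← Finset.card_union_of_disjoint hUL, hULu, Finset.card_univ]
  have hLpos : 0 < L.card := by omega
  obtain ⟨w, hw⟩ := Finset.card_pos.1 hLpos
  have hwd := (hLiff w).1 hw
  have hn2m : Fintype.card V = 2 * m := by
    rcases Nat.lt_or_ge (2 * m) (Fintype.card V) with h1 | h1
    · exfalso
      have h2 := hdeg h1 w
      omega
    · omega
  have hcross := nc_cross hNC hm1000 l hlm hl9 nol E1 E2 hPE1 hQE2 hdisj hE1d hE2d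
  have hv1 := NC6_low G _ L hUL hULu
  have hv2 := NC6_union G (Q0 ∪ E2) (P0 ∪ E1) hdisj.symm
  rw [Finset.union_comm (Q0 ∪ E2) (P0 ∪ E1)] at hv2
  have hvp := vol_le G (P0 ∪ E1)
  have hvq := vol_le G (Q0 ∪ E2)
  have hS : 5 * ∑ w ∈ L, dg G Finset.univ w ≤ 2 * m * L.card := by
    rw [Finset.mul_sum]
    have h1 : ∑ w ∈ L, 5 * dg G Finset.univ w ≤ ∑ w ∈ L, 2 * m :=
      Finset.sum_le_sum (fun w hw => ((hLiff w).1 hw).le)
    rw [Finset.sum_const, smul_eq_mul] at h1
    linarith
  obtain ⟨p, hp⟩ : ∃ p, p = (P0 ∪ E1).card := ⟨_, rfl⟩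
  obtain ⟨q, hq⟩ : ∃ q, q = (Q0 ∪ E2).card := ⟨_, rfl⟩
  obtain ⟨t, ht⟩ : ∃ t, t = L.card := ⟨_, rfl⟩
  obtain ⟨S, hSd⟩ : ∃ S, S = ∑ w ∈ L, dg G Finset.univ w := ⟨_, rfl⟩
  obtain ⟨vU, hvU⟩ : ∃ vU, vU = vol G Finset.univ := ⟨_, rfl⟩
  have hP1 := hNC.P1
  have hQ1 := hNC.Q1
  rw [← hp, ← hq] at hcross
  rw [← hp] at hvp hpl hcu cp
  rw [← hq] at hvq hql hcu cq
  rw [← ht] at hcu hS
  rw [← hSd] at hS hv1
  rw [← hvU] at hv1 hvol
  have hfin : vU ≤ (p * (p - 1) + q * (q - 1) + 2 * (p + q)) + 2 * S := by omega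
  rw [hn2m] at hvol hcu
  have e1 : 2 * m - (m - 1) = m + 1 := by omega
  rw [e1] at hvol
  have f1 : ((p * (p - 1) + q * (q - 1) + 2 * (p + q) + 2 * S : ℕ) : ℝ) =
      ((p : ℝ) * ((p : ℝ) - 1) + (q : ℝ) * ((q : ℝ) - 1) + 2 * ((p : ℝ) + q)) + 2 * S := by
    rw [Nat.cast_add, Nat.cast_add, Nat.cast_add, Nat.cast_mul, Nat.cast_mul, Nat.cast_mul, Nat.cast_mul,
      Nat.cast_sub (by omega : 1 ≤ p), Nat.cast_sub (by omega : 1 ≤ q), Nat.cast_add]
    push_cast
    ring
  have g1 : (vU : ℝ) ≤ ((p : ℝ) * ((p : ℝ) - 1) + (q : ℝ) * ((q : ℝ) - 1) + 2 * ((p : ℝ) + q)) + 2 * S := by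
    rw [← f1]
    exact_mod_cast hfin
  have g2 : 2 * (((m : ℝ) - 1) * ((m : ℝ) + 1)) ≤ (vU : ℝ) := by
    have h1 : ((2 * ((m - 1) * (m + 1)) : ℕ) : ℝ) ≤ (vU : ℝ) := by exact_mod_cast hvol
    rw [Nat.cast_mul, Nat.cast_mul, Nat.cast_sub (by omega : 1 ≤ m), Nat.cast_add] at h1
    push_cast at h1
    exact h1
  have g3 : (p : ℝ) + q + t = 2 * m := by exact_mod_cast hcu
  have g4 : (p : ℝ) ≤ (m : ℝ) - 2 := by
    have h1 : p + 2 ≤ m := by omega
    have h2 : (p : ℝ) + 2 ≤ m := by exact_mod_cast h1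
    linarith
  have g5 : (q : ℝ) ≤ (m : ℝ) - 2 := by
    have h1 : q + 2 ≤ m := by omega
    have h2 : (q : ℝ) + 2 ≤ m := by exact_mod_cast h1
    linarith
  have g6 : (1 : ℝ) ≤ p := by
    have h1 : 1 ≤ p := by omega
    exact_mod_cast h1
  have g7 : (1 : ℝ) ≤ q := by
    have h1 : 1 ≤ q := by omega
    exact_mod_cast h1
  have g8 : 5 * (2 * (S : ℝ)) ≤ 4 * ((m : ℝ) * t) := by
    have h1 : 5 * (2 * S) ≤ 4 * (m * t) := by nlinarith
    exact_mod_cast h1
  exact NC6_num m p q t vU (2 * S) (by exact_mod_cast hm) g4 g5 g6 g7 (Nat.cast_nonneg _) g3 g2 g1 g8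

end TurMod
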