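import Pool.Agent.TurMod.Mini
import Pool.Agent.TurMod.DenseI
import Pool.Agent.TurMod.NearBip
import Pool.Agent.TurMod.NearClq

/-!
# The exact theorem for large `k`
-/

namespace TurMod

open Finset

universe u

/- MODULE XF1 -/
/-- THE DENSE RANGE.
PROOF. `stab2 (1/10^7)` gives `η2`; `η0 = min η2 (1/1000)`; `range1_case C η0` gives the first `m0`.  Let `n = |V|`.
`FreeC.no`: no cycles of the lengths `2 m`, `l`.  If `n ≥ (2 + η0) m`: then `n > 2 m`, so all degrees are at least `m`: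
`range1_case`: contradiction.  Otherwise `n ≤ (2 + η0) m`: `stab2`.  First alternative: `near_bip_case`.  Second
alternative: `l ≥ (1 - 10^(-7)) m`, so `9 m ≤ 10 l`: `near_clq_case`: contradiction. -/
theorem dense_case (C : ℝ) (hC : 4 ≤ C) : ∃ m0 : ℕ, ∀ m : ℕ, m0 ≤ m → ∀ l : ℕ, Odd l →
      3 ≤ l → l < m → ∀ (V : Type u) [Fintype V] [DecidableEq V] (G : SimpleGraph V),
      2 * m ≤ Fintype.card V → (Fintype.card V : ℝ) ≤ C * m → FreeC G m l →
      2 * ((m - 1) * (Fintype.card V - (m - 1))) ≤ vol G Finset.univ →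
      (2 * m < Fintype.card V → ∀ v, m ≤ dg G Finset.univ v) →
      ∃ A : Finset V, A.card = m - 1 ∧ KAB G A := by
  obtain ⟨η2, m1, hη2, -, hst⟩ := stab2.{u} (1 / 10 ^ 7) (by norm_num) (by norm_num)
  obtain ⟨η0, hη0⟩ : ∃ η0, η0 = min η2 (1 / 1000) := ⟨_, rfl⟩
  have h0 : 0 < η0 := by rw [hη0]; positivity
  have h01 : η0 ≤ 1 / 1000 := by rw [hη0]; exact min_le_right _ _
  have h02 : η0 ≤ η2 := by rw [hη0]; exact min_le_left _ _
  obtain ⟨m2, hr1⟩ := range1_case.{u} C η0 (by linarith) h0 (by linarith)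
  refine ⟨max (max m1 m2) (10 ^ 6), ?_⟩
  intro m hm l hl h3 hlm V _ _ G hn hnC hF hvol hdeg
  have hm1 : m1 ≤ m := (le_max_left _ _).trans ((le_max_left _ _).trans hm)
  have hm2 : m2 ≤ m := (le_max_right _ _).trans ((le_max_left _ _).trans hm)
  have hm3 : 10 ^ 6 ≤ m := (le_max_right _ _).trans hm
  obtain ⟨no2m, nol, -⟩ := hF.no hl hlm
  have hm0 : (0 : ℝ) < m := by
    have : 0 < m := by omega
    exact_mod_cast this
  by_cases hbig : (2 + η0) * m ≤ (Fintype.card V : ℝ)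
  · have h2m : 2 * m < Fintype.card V := by
      have : (2 * m : ℝ) < (Fintype.card V : ℝ) := by nlinarith
      exact_mod_cast this
    exact (hr1 m hm2 l hl h3 hlm V G hbig hnC no2m nol hvol (hdeg h2m)).elim
  · push Not at hbig
    have hn1 : (Fintype.card V : ℝ) ≤ (2 + η2) * m :=
      hbig.le.trans (mul_le_mul_of_nonneg_right (by linarith) hm0.le)
    have hn2 : (Fintype.card V : ℝ) ≤ (2 + 1 / 1000) * m :=
      hbig.le.trans (mul_le_mul_of_nonneg_right (by linarith) hm0.le)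
    rcases hst m hm1 l hl h3 hlm V G hn hn1 no2m nol hvol with ⟨P, hP, hQ⟩ | ⟨hlz, P, hP, hQ, hPQ⟩
    · exact near_bip_case G m l hm3 hl h3 hlm hn hn2 no2m nol hvol hdeg P hP hQ
    · have hl9 : 9 * m ≤ 10 * l := by
        have : (9 * m : ℝ) ≤ 10 * l := by nlinarith
        exact_mod_cast this
      exact (near_clq_case G m l hm3 h3 hlm hl9 hn hn2 nol hvol hdeg P hP hQ hPQ).elim

/-- THE EXACT THEOREM.
PROOF. `exact_of_dense` and `dense_case`. -/
theorem exact_large : ∃ m0 : ℕ, ∀ m : ℕ, m0 ≤ m → ∀ l : ℕ, Odd l → 3 ≤ l → l < m →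
      ∀ (V : Type u) [Fintype V] [DecidableEq V] (G : SimpleGraph V), 2 * m ≤ Fintype.card V →
      FreeC G m l → 2 * ((m - 1) * (Fintype.card V - (m - 1))) ≤ vol G Finset.univ →
      ∃ A : Finset V, A.card = m - 1 ∧ KAB G A := by
  refine exact_of_dense.{u} ?_
  intro C hC
  obtain ⟨m0, h⟩ := dense_case.{u} C hC
  exact ⟨m0, fun m hm l hl h3 hlm V _ _ G hn hnC hF hvol hdeg _ =>
    h m hm l hl h3 hlm V G hn hnC hF hvol hdeg⟩

end TurMod
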