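import Pool.Agent.TurMod.Core

/-!
# Ears of positive gain, and the structure outside a core
-/

namespace TurMod

open Finset

variable {V : Type*}

/-- The situation: a core `(A₀, B₀)` in a graph without cycles of the lengths `2 m` and `l`
(`3 ≤ l < m` odd); `A` = all vertices outside `B₀` with at least `|B₀|/10` neighbours in `B₀`, `Bst` = all
typical vertices outside `A`, `D` = the rest. -/
structure Setup [Fintype V] (G : SimpleGraph V) (m l : ℕ) (η₀ η : ℝ) (A₀ A B₀ Bst D : Finset V) :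
    Prop where
  big : Big G m η₀ η A₀ A B₀
  memA : ∀ v, v ∈ A ↔ (v ∉ B₀ ∧ B₀.card ≤ 10 * dg G B₀ v)
  memB : ∀ v, v ∈ Bst ↔ (v ∉ A ∧ Typ G A₀ v)
  memD : ∀ v, v ∈ D ↔ (v ∉ A ∧ v ∉ Bst)
  cardA' : A.card < m
  no2m : ¬ HasCyc G (2 * m)
  oddl : Odd l
  l3 : 3 ≤ l
  lm : l < m
  nol : ¬ HasCyc G l

/-- `Q` is a path from `x` to `y` with at most seven vertices, `x`, `y` typical and outside `A`, of
positive gain: `gain = |Q| - 1 - 2 |A ∩ Q| ≥ 1` -/
structure Ear [DecidableEq V] (G : SimpleGraph V) (A₀ A : Finset V) (Q : List V) (x y : V) :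
    Prop where
  path : PathL G x y Q
  tx : Typ G A₀ x
  ty : Typ G A₀ y
  xA : x ∉ A
  yA : y ∉ A
  len : Q.length ≤ 7
  gain : 2 * (A ∩ Q.toFinset).card + 2 ≤ Q.length

/- MODULE GA1 -/
private theorem GA1_snoc {G : SimpleGraph V} {x v w : V} {l : List V} (h : PathL G x v l)
    (hvw : G.Adj v w) (hw : w ∉ l) : PathL G x w (l ++ [w]) := by
  obtain ⟨hc, hn, hh, hl⟩ := h
  have hne : l ≠ [] := by rintro rfl; simp at hh
  refine ⟨?_, ?_, ?_, ?_⟩
  · rw [List.isChain_append]
    refine ⟨hc, List.isChain_singleton _, ?_⟩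
    intro a ha b hb
    rw [hl] at ha
    simp only [Option.mem_def, Option.some.injEq] at ha
    simp only [List.head?_cons, Option.mem_def, Option.some.injEq] at hb
    subst ha
    subst hb
    exact hvw
  · rw [List.nodup_append]
    refine ⟨hn, List.nodup_singleton _, ?_⟩
    intro a ha b hb hab
    rw [List.mem_singleton] at hb
    exact hw (hb ▸ hab ▸ ha)
  · rw [List.head?_append_of_ne_nil _ hne]
    exact hh
  · simp

/-- `|N(u) ∩ N(v) ∩ B| ≥ |N(u) ∩ B| + |N(v) ∩ B| - |B|`. -/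
private theorem GA1_codeg [DecidableEq V] (G : SimpleGraph V) (B : Finset V) (u v : V) :
    dg G B u + dg G B v ≤ codeg G B u v + B.card := by
  classical
  have h1 := Finset.card_union_add_card_inter (B.filter (fun w => G.Adj u w))
    (B.filter (fun w => G.Adj v w))
  have h2 : (B.filter (fun w => G.Adj u w) ∪ B.filter (fun w => G.Adj v w)).card ≤ B.card :=
    Finset.card_le_card (Finset.union_subset (Finset.filter_subset _ _) (Finset.filter_subset _ _))
  have h3 : (B.filter (fun w => G.Adj u w) ∩ B.filter (fun w => G.Adj v w)).card = codeg G B u v := by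
    unfold codeg
    rw [← Finset.filter_and]
  have h4 : dg G B u = (B.filter (fun w => G.Adj u w)).card := rfl
  have h5 : dg G B v = (B.filter (fun w => G.Adj v w)).card := rfl
  omega

/-- removing one vertex from the set -/
private theorem GA1_codeg_erase [DecidableEq V] (G : SimpleGraph V) (B : Finset V) (u v z : V) :
    codeg G B u v ≤ codeg G (B.erase z) u v + 1 := by
  classical
  unfold codeg
  have h1 : (B.filter (fun w => G.Adj u w ∧ G.Adj v w)) ⊆
      insert z ((B.erase z).filter (fun w => G.Adj u w ∧ G.Adj v w)) := by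
    intro w hw
    rw [Finset.mem_filter] at hw
    rw [Finset.mem_insert, Finset.mem_filter, Finset.mem_erase]
    by_cases h : w = z
    · exact Or.inl h
    · exact Or.inr ⟨⟨h, hw.1⟩, hw.2⟩
  exact (Finset.card_le_card h1).trans (Finset.card_insert_le _ _)

/-- EXISTENCE OF THE SETUP.  (The only thing to prove is `|A| < m`.)
PROOF. Let `A` be the set of `memA`.  `A₀ ⊆ A` (`A₀` is disjoint from `B₀` and `(1-η)|B₀| ≥ |B₀|/10`).  If
`|A| ≥ m` choose `A₀ ⊆ A1 ⊆ A` with `|A1| = m` (`|A₀| < m`).  We find a cycle of length `2 m`: choose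
`p ≠ q` in `A₀`, a common neighbour `z ∈ B₀` of `p` and `q` (they have `(1 - 2 η)|B₀| > 0`), `arrange` all `m`
elements of `A1` in a list from `p` to `q` (`S = A₀`, `|A1 ∖ A₀| ≤ η m`), `weave` with `B = B₀ ∖ {z}`:
`τ = ⌊m/30⌋`, `c = ⌊η m⌋`, `τ' = m`, as in `core_path`.  Closing with `z` gives `2 m` vertices
(`hasCyc_of_list`).  So `|A| < m`; `Big` holds; put `Bst`, `D` as in `memB`, `memD`. -/
theorem exists_setup [Fintype V] [DecidableEq V] {G : SimpleGraph V} {m l : ℕ} {η₀ η : ℝ}
    {A₀ B₀ : Finset V} (hc : Core G m η A₀ B₀) (h0 : 0 < η₀) (h1 : η₀ ≤ 1) (h2 : 0 < η)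
    (h3 : η ≤ η₀ / 10000) (hB : (1 + η₀) * m ≤ (B₀.card : ℝ)) (hm : 1000 / η ≤ (m : ℝ))
    (no2m : ¬ HasCyc G (2 * m)) (hodd : Odd l) (h3l : 3 ≤ l) (hlm : l < m)
    (nol : ¬ HasCyc G l) : ∃ A Bst D, Setup G m l η₀ η A₀ A B₀ Bst D := by
  classical
  obtain ⟨A, hA⟩ : ∃ A : Finset V, A = Finset.univ.filter (fun v => v ∉ B₀ ∧ B₀.card ≤ 10 * dg G B₀ v) :=
    ⟨_, rfl⟩
  have memA : ∀ v, v ∈ A ↔ (v ∉ B₀ ∧ B₀.card ≤ 10 * dg G B₀ v) := by
    intro v
    rw [hA, Finset.mem_filter]
    exact ⟨fun h => h.2, fun h => ⟨Finset.mem_univ v, h⟩⟩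
  have hη : η ≤ 1 / 10000 := by linarith
  have hηm : 1000 ≤ η * m := by
    rw [div_le_iff₀ h2] at hm
    linarith
  have hm0 : (0 : ℝ) < m := by nlinarith
  have hB0 : (m : ℝ) ≤ B₀.card := by nlinarith
  have hB0' : (0 : ℝ) < B₀.card := by linarith
  have hAB : Disjoint A B₀ := by
    rw [Finset.disjoint_left]
    intro v hv
    exact ((memA v).1 hv).1
  have hsub : A₀ ⊆ A := by
    intro a ha
    rw [memA]
    refine ⟨Finset.disjoint_left.1 hc.disj ha, ?_⟩
    have e1 := hc.dA a ha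
    have e2 : (B₀.card : ℝ) ≤ 10 * (dg G B₀ a : ℝ) := by nlinarith
    exact_mod_cast e2
  have hA0c : (1 - η) * m ≤ (A₀.card : ℝ) := hc.cardA
  have hcard : A.card < m := by
    by_contra hcon
    rw [not_lt] at hcon
    obtain ⟨A1, hA1, hA1', hA1c⟩ := Finset.exists_subsuperset_card_eq hsub hc.cardA'.le hcon
    have hA02 : 2 ≤ A₀.card := by
      have : (2 : ℝ) ≤ A₀.card := by nlinarith
      exact_mod_cast this
    obtain ⟨p, hp, q, hq, hpq⟩ := Finset.one_lt_card.1 (by omega : 1 < A₀.card)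
    have hweak : ((A1 \ A₀).card : ℝ) ≤ η * m := by
      have e1 := Finset.card_sdiff_add_card_eq_card hA1
      have e2 : ((A1 \ A₀).card : ℝ) + A₀.card = m := by rw [← hA1c]; exact_mod_cast e1
      linarith
    -- the common neighbour
    have hz : 0 < codeg G B₀ p q := by
      have e1 := GA1_codeg G B₀ p q
      have e2 := hc.dA p hp
      have e3 := hc.dA q hq
      have e4 : (dg G B₀ p : ℝ) + dg G B₀ q ≤ codeg G B₀ p q + B₀.card := by exact_mod_cast e1
      have e5 : (0 : ℝ) < codeg G B₀ p q := by nlinarith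
      exact_mod_cast e5
    obtain ⟨z, hz⟩ := Finset.card_pos.1 hz
    rw [Finset.mem_filter] at hz
    have hzA : z ∉ A := fun h => ((memA z).1 h).1 hz.1
    obtain ⟨l, hl1, hl2, hl3, hl4, hl5, hl6⟩ := arrange A1 A₀ hA1 (by
      have e1 : ((A1 \ A₀).card : ℝ) + 2 ≤ A₀.card := by nlinarith
      exact_mod_cast e1) p q hp hq hpq m (by
      have : (2 : ℝ) ≤ m := by nlinarith
      exact_mod_cast this) hA1c.ge
    have hcd : ∀ u v, u ∈ A → v ∈ A₀ → m / 30 ≤ codeg G (B₀.erase z) u v := by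
      intro u v hu hv
      have e1 := GA1_codeg G B₀ u v
      have e2 := hc.dA v hv
      have e3 : (B₀.card : ℝ) ≤ 10 * dg G B₀ u := by exact_mod_cast ((memA u).1 hu).2
      have e4 : (dg G B₀ u : ℝ) + dg G B₀ v ≤ codeg G B₀ u v + B₀.card := by exact_mod_cast e1
      have e5 : (codeg G B₀ u v : ℝ) ≤ codeg G (B₀.erase z) u v + 1 := by
        exact_mod_cast GA1_codeg_erase G B₀ u v z
      have e6 : ((m / 30 : ℕ) : ℝ) ≤ codeg G (B₀.erase z) u v := by
        refine (Nat.cast_div_le).trans ?_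
        push_cast
        nlinarith
      exact_mod_cast e6
    have hcd' : ∀ u v, codeg G (B₀.erase z) u v = codeg G (B₀.erase z) v u := by
      intro u v
      unfold codeg
      congr 1
      ext w
      rw [Finset.mem_filter, Finset.mem_filter, and_comm (a := G.Adj u w)]
    obtain ⟨L, hL1, hL2, hL3⟩ := weave G (B₀.erase z) A₀ l hl1 (by
        rintro rfl
        simp at hl3) (fun v hv h => ((memA v).1 (hA1' (hl5 v hv))).1 (Finset.mem_of_mem_erase h))
      (m / 30) m ⌊η * m⌋₊ (by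
        have e1 : l.IsChain (fun u v => (u ∈ A ∧ v ∈ A) ∧ (u ∈ A₀ ∨ v ∈ A₀)) := by
          rw [List.isChain_iff_getElem] at hl6 ⊢
          intro i hi
          exact ⟨⟨hA1' (hl5 _ (List.getElem_mem _)), hA1' (hl5 _ (List.getElem_mem _))⟩, hl6 i hi⟩
        refine e1.imp fun u v huv => ?_
        rcases huv.2 with h | h
        · rw [hcd']
          exact hcd v u huv.1.2 h
        · exact hcd u v huv.1.1 h) (by
        have e1 : l.IsChain (fun u v => (u ∈ A ∧ v ∈ A)) := by
          rw [List.isChain_iff_getElem] at hl6 ⊢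
          intro i hi
          exact ⟨hA1' (hl5 _ (List.getElem_mem _)), hA1' (hl5 _ (List.getElem_mem _))⟩
        refine e1.imp fun u v _ hu hv => ?_
        have e1 := GA1_codeg G B₀ u v
        have e2 := hc.dA u hu
        have e3 := hc.dA v hv
        have e4 : (dg G B₀ u : ℝ) + dg G B₀ v ≤ codeg G B₀ u v + B₀.card := by exact_mod_cast e1
        have e5 : (codeg G B₀ u v : ℝ) ≤ codeg G (B₀.erase z) u v + 1 := by
          exact_mod_cast GA1_codeg_erase G B₀ u v z
        have e6 : (m : ℝ) ≤ codeg G (B₀.erase z) u v := by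
          have e7 : (1 - 2 * η) * ((1 + η₀) * m) ≤ (1 - 2 * η) * B₀.card :=
            mul_le_mul_of_nonneg_left hB (by linarith)
          have e8 : η₀ * m * (1 - 2 * η) ≥ η₀ * m / 2 := by
            have : 0 ≤ η₀ * m := by positivity
            nlinarith
          have e9 : 10000 * (η * m) ≤ η₀ * m := by nlinarith
          nlinarith
        exact_mod_cast e6) (by
        refine Nat.le_floor (le_trans ?_ hweak)
        exact_mod_cast Finset.card_le_card (Finset.sdiff_subset_sdiff (fun v hv =>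
          hl5 v (List.mem_toFinset.1 hv)) (le_refl A₀))) (by
        have e1 : (⌊η * m⌋₊ : ℝ) ≤ η * m := Nat.floor_le (by positivity)
        have e2 : (m : ℝ) < 30 * ((m / 30 : ℕ) + 1) := by
          have : m < 30 * (m / 30 + 1) := by omega
          exact_mod_cast this
        have e3 : (2 * ⌊η * m⌋₊ : ℝ) < (m / 30 : ℕ) := by nlinarith
        exact_mod_cast e3) hl2.le p q hl3 hl4
    have hzL : z ∉ L := by
      intro h
      rcases hL3 z h with h | h
      · exact hzA (hA1' (hl5 z h))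
      · exact Finset.notMem_erase z B₀ h
    have hfin := hasCyc_of_list (GA1_snoc hL1 hz.2.2 hzL) (by
      rw [List.length_append, hL2, hl2, List.length_singleton]
      have : (3 : ℝ) ≤ m := by nlinarith
      have : 3 ≤ m := by exact_mod_cast this
      omega) hz.2.1.symm
    have hlen : (L ++ [z]).length = 2 * m := by
      rw [List.length_append, hL2, hl2, List.length_singleton]
      have : (3 : ℝ) ≤ m := by nlinarith
      have : 3 ≤ m := by exact_mod_cast this
      omega
    rw [hlen] at hfin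
    exact no2m hfin
  obtain ⟨Bst, hBst⟩ : ∃ Bst : Finset V, Bst = Finset.univ.filter (fun v => v ∉ A ∧ Typ G A₀ v) := ⟨_, rfl⟩
  obtain ⟨D, hD⟩ : ∃ D : Finset V, D = Finset.univ.filter (fun v => v ∉ A ∧ v ∉ Bst) := ⟨_, rfl⟩
  exact ⟨A, Bst, D,
    { big :=
        { core := hc
          η₀_pos := h0
          η₀_le := h1
          η_pos := h2
          η_le := h3
          cardB := hB
          sub := hsub
          disj := hAB
          many := fun v hv => ((memA v).1 hv).2
          cardA := hcard.le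
          large := hm }
      memA := memA
      memB := fun v => by rw [hBst, Finset.mem_filter]; exact ⟨fun h => h.2, fun h => ⟨Finset.mem_univ v, h⟩⟩
      memD := fun v => by rw [hD, Finset.mem_filter]; exact ⟨fun h => h.2, fun h => ⟨Finset.mem_univ v, h⟩⟩
      cardA' := hcard
      no2m := no2m
      oddl := hodd
      l3 := h3l
      lm := hlm
      nol := nol }⟩

/-- `B₀ ⊆ Bst`. PROOF. `b ∈ B₀` is not in `A` and has at least `(1-η)|A₀|` neighbours in `A₀`. -/
theorem Setup.B₀_sub [Fintype V] {G : SimpleGraph V} {m l : ℕ} {η₀ η : ℝ}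
    {A₀ A B₀ Bst D : Finset V} (S : Setup G m l η₀ η A₀ A B₀ Bst D) : B₀ ⊆ Bst := by
  classical
  intro b hb
  have hb' := S.big
  have hη : η ≤ 1 / 10000 := by linarith [hb'.η_le, hb'.η₀_le]
  rw [S.memB]
  refine ⟨fun h => Finset.disjoint_left.1 hb'.disj h hb, ?_⟩
  have e1 := hb'.core.dB b hb
  have e2 : (3 : ℝ) * A₀.card ≤ 4 * dg G A₀ b := by
    have : (0 : ℝ) ≤ A₀.card := Nat.cast_nonneg _
    nlinarith
  unfold Typ
  exact_mod_cast e2

/- MODULE GA2 -/
private theorem GA2_num {G : SimpleGraph V} {m : ℕ} {η₀ η : ℝ} {A₀ A B₀ : Finset V}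
    (h : Big G m η₀ η A₀ A B₀) : η ≤ 1 / 10000 ∧ 1000 ≤ η * m ∧ 10000 * (η * m) ≤ η₀ * m ∧
      (10000000 : ℝ) ≤ m ∧ (1 - η) * m ≤ (A₀.card : ℝ) := by
  have h1 : η ≤ 1 / 10000 := by linarith [h.η_le, h.η₀_le]
  have h2 : 1000 ≤ η * m := by
    have := h.large
    rw [div_le_iff₀ h.η_pos] at this
    linarith
  have h3 : (0 : ℝ) ≤ m := Nat.cast_nonneg m
  refine ⟨h1, h2, ?_, ?_, h.core.cardA⟩
  · have := h.η_le
    nlinarith
  · nlinarith

/-- `Bst` is independent.
PROOF. Let `b ~ b'` in `Bst`.  If `l = 3`: `b`, `b'` have at least `3/4 |A₀|` neighbours each in `A₀`, so a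
common one: a triangle.  If `l ≥ 5`: `multi_ear` with `s = 1`, `Q = [b, b']`, `i = (l - 1)/2`, `2 ≤ i ≤ |A|`
(as `l < m` and `|A| ≥ (1-η) m`): length `1 + 2 i = l`. -/
theorem Setup.indep [Fintype V] {G : SimpleGraph V} {m l : ℕ} {η₀ η : ℝ}
    {A₀ A B₀ Bst D : Finset V} (S : Setup G m l η₀ η A₀ A B₀ Bst D) :
    ∀ b ∈ Bst, ∀ b' ∈ Bst, ¬ G.Adj b b' := by
  classical
  intro b hb b' hb' hadj
  obtain ⟨n1, n2, n3, n4, n5⟩ := GA2_num S.big
  obtain ⟨hbA, hbT⟩ := (S.memB b).1 hb
  obtain ⟨hbA', hbT'⟩ := (S.memB b').1 hb'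
  have hbb' : b ≠ b' := G.ne_of_adj hadj
  have hA0 : 0 < A₀.card := by
    have : (0 : ℝ) < A₀.card := by nlinarith
    exact_mod_cast this
  by_cases hl : l = 3
  · have h1 : 0 < codeg G A₀ b b' := by
      have e1 := GA1_codeg G A₀ b b'
      unfold Typ at hbT hbT'
      omega
    obtain ⟨a, ha⟩ := Finset.card_pos.1 h1
    rw [Finset.mem_filter] at ha
    have h2 : PathL G b a [b, a] := by
      refine ⟨?_, ?_, rfl, rfl⟩
      · rw [List.isChain_cons_cons]
        exact ⟨ha.2.1, List.isChain_singleton _⟩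
      · rw [List.nodup_cons]
        refine ⟨?_, List.nodup_singleton _⟩
        rw [List.mem_singleton]
        exact G.ne_of_adj ha.2.1
    have h3 : b' ∉ [b, a] := by
      rw [List.mem_cons, List.mem_singleton]
      rintro (h | h)
      · exact hbb' h.symm
      · exact G.ne_of_adj ha.2.2 h
    have h4 := hasCyc_of_list (GA1_snoc h2 ha.2.2.symm h3) (by simp) hadj.symm
    apply S.nol
    rw [hl]
    exact h4
  · obtain ⟨r, hr⟩ := S.oddl
    have hl5 : 5 ≤ l := by
      have := S.l3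
      omega
    have hlm := S.lm
    have hpath : PathL G b b' [b, b'] := by
      refine ⟨?_, ?_, rfl, rfl⟩
      · rw [List.isChain_cons_cons]
        exact ⟨hadj, List.isChain_singleton _⟩
      · rw [List.nodup_cons]
        refine ⟨?_, List.nodup_singleton _⟩
        rw [List.mem_singleton]
        exact hbb'
    have hAU : A ∩ {b, b'} = ∅ := by
      rw [← Finset.disjoint_iff_inter_eq_empty, Finset.disjoint_right]
      intro v hv
      rw [Finset.mem_insert, Finset.mem_singleton] at hv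
      rcases hv with rfl | rfl
      · exact hbA
      · exact hbA'
    have h1 := multi_ear S.big 1 le_rfl (fun _ => [b, b']) (fun _ => b) (fun _ => b')
      (fun j _ => ⟨hpath, by simp⟩) (fun j _ => ⟨hbT, hbA⟩) (fun j _ => ⟨hbT', hbA'⟩)
      (fun i hi j hj hij => by omega) {b, b'} (fun v => by
        constructor
        · intro hv
          refine ⟨0, Nat.one_pos, ?_⟩
          rw [Finset.mem_insert, Finset.mem_singleton] at hv
          rw [List.mem_cons, List.mem_singleton]
          exact hv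
        · rintro ⟨j, -, hv⟩
          rw [List.mem_cons, List.mem_singleton] at hv
          rw [Finset.mem_insert, Finset.mem_singleton]
          exact hv) (by
        rw [Finset.card_pair hbb']
        push_cast
        linarith) r (by omega) (by
        rw [hAU, Finset.card_empty, add_zero]
        have e1 : A₀.card ≤ A.card := Finset.card_le_card S.big.sub
        have e2 : (r : ℝ) ≤ A₀.card := by
          have e3 : (2 * r + 1 : ℝ) ≤ m := by
            have : 2 * r + 1 ≤ m := by omega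
            exact_mod_cast this
          nlinarith
        have e3 : r ≤ A₀.card := by exact_mod_cast e2
        omega)
    apply S.nol
    rw [hr]
    have h2 : ∑ j ∈ Finset.range 1, (([b, b'] : List V).length - 1) + 2 * r = 2 * r + 1 := by
      simp
      ring
    rw [h2] at h1
    exact h1

/- MODULE GA3 -/
/-- Disjoint ears with even total gain at least `2 (m - |A|)` do not exist.
PROOF. `α j = |A ∩ Q j|`, `∑ (|Q j| - 1) = gain + 2 ∑ α j` is even; `multi_ear` with
`i = m - (∑ (|Q j| - 1))/2`: `i + ∑ α j ≤ |A|` iff `2 (m - |A|) ≤ gain`; `2 s ≤ i` because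
`∑ (|Q j| - 1) ≤ 6 s` and `s ≤ η₀ m/1100`; `|U| + 4 s ≤ 11 s ≤ η₀ m / 100`.  Length `2 m`. -/
theorem Setup.no_gain [Fintype V] [DecidableEq V] {G : SimpleGraph V} {m l : ℕ} {η₀ η : ℝ}
    {A₀ A B₀ Bst D : Finset V} (S : Setup G m l η₀ η A₀ A B₀ Bst D) (s : ℕ) (hs : 1 ≤ s)
    (hsm : (s : ℝ) ≤ η₀ * m / 1100) (Q : ℕ → List V) (x y : ℕ → V)
    (hQ : ∀ j < s, Ear G A₀ A (Q j) (x j) (y j))
    (hd : ∀ i < s, ∀ j < s, i ≠ j → List.Disjoint (Q i) (Q j))
    (hev : Even (∑ j ∈ Finset.range s, ((Q j).length - 1)))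
    (hg : 2 * (m - A.card) + 2 * ∑ j ∈ Finset.range s, (A ∩ (Q j).toFinset).card ≤
      ∑ j ∈ Finset.range s, ((Q j).length - 1)) : False := by
  obtain ⟨n1, n2, n3, n4, n5⟩ := GA2_num S.big
  obtain ⟨T, hT⟩ := hev
  have hlen : ∀ j < s, 2 ≤ (Q j).length ∧ (Q j).length ≤ 7 := by
    intro j hj
    have h1 := (hQ j hj).gain
    exact ⟨by omega, (hQ j hj).len⟩
  have hT3 : ∑ j ∈ Finset.range s, ((Q j).length - 1) ≤ 6 * s := by
    have : ∑ j ∈ Finset.range s, ((Q j).length - 1) ≤ ∑ _j ∈ Finset.range s, 6 :=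
      Finset.sum_le_sum fun j hj => by
        have := (hlen j (Finset.mem_range.1 hj)).2
        omega
    refine this.trans (le_of_eq ?_)
    rw [Finset.sum_const, Finset.card_range, smul_eq_mul, mul_comm]
  have hs5 : 5 * s ≤ m := by
    have e1 : η₀ * m ≤ m := by nlinarith [S.big.η₀_le]
    have e2 : (5 * s : ℝ) ≤ m := by linarith
    exact_mod_cast e2
  obtain ⟨U, hU⟩ : ∃ U : Finset V, U = (Finset.range s).biUnion fun j => (Q j).toFinset := ⟨_, rfl⟩
  have hUc : U.card ≤ 7 * s := by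
    rw [hU]
    refine Finset.card_biUnion_le.trans ?_
    have : ∑ j ∈ Finset.range s, (Q j).toFinset.card ≤ ∑ _j ∈ Finset.range s, 7 :=
      Finset.sum_le_sum fun j hj =>
        (List.toFinset_card_le _).trans (hlen j (Finset.mem_range.1 hj)).2
    refine this.trans (le_of_eq ?_)
    rw [Finset.sum_const, Finset.card_range, smul_eq_mul, mul_comm]
  have hAU : (A ∩ U).card ≤ ∑ j ∈ Finset.range s, (A ∩ (Q j).toFinset).card := by
    rw [hU, Finset.inter_biUnion]
    exact Finset.card_biUnion_le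
  have hAm := S.cardA'
  have hcyc := multi_ear S.big s hs Q x y (fun j hj => ⟨(hQ j hj).path, (hlen j hj).1⟩)
    (fun j hj => ⟨(hQ j hj).tx, (hQ j hj).xA⟩) (fun j hj => ⟨(hQ j hj).ty, (hQ j hj).yA⟩) hd U
    (fun v => by
      rw [hU, Finset.mem_biUnion]
      constructor
      · rintro ⟨j, hj, hv⟩
        exact ⟨j, Finset.mem_range.1 hj, List.mem_toFinset.1 hv⟩
      · rintro ⟨j, hj, hv⟩
        exact ⟨j, Finset.mem_range.2 hj, List.mem_toFinset.2 hv⟩) (by
      have e1 : (U.card : ℝ) ≤ 7 * s := by exact_mod_cast hUc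
      linarith) (m - T) (by omega) (by omega)
  apply S.no2m
  have h1 : ∑ j ∈ Finset.range s, ((Q j).length - 1) + 2 * (m - T) = 2 * m := by omega
  rw [h1] at hcyc
  exact hcyc

/- MODULE GA4 -/
private theorem GA4_gap [Fintype V] {G : SimpleGraph V} {m l : ℕ} {η₀ η : ℝ}
    {A₀ A B₀ Bst D : Finset V} (S : Setup G m l η₀ η A₀ A B₀ Bst D) :
    ((m - A.card : ℕ) : ℝ) ≤ η * m ∧ 1 ≤ m - A.card := by
  have h1 := S.cardA'
  have h2 : (A₀.card : ℝ) ≤ A.card := by exact_mod_cast Finset.card_le_card S.big.sub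
  have h3 := S.big.core.cardA
  refine ⟨?_, by omega⟩
  rw [Nat.cast_sub h1.le]
  linarith

/-- the family property -/
private def GA4_P (G : SimpleGraph V) [DecidableEq V] (A₀ A : Finset V) (s : ℕ) : Prop :=
  ∃ (Q : ℕ → List V) (x y : ℕ → V), (∀ j < s, Ear G A₀ A (Q j) (x j) (y j)) ∧
    ∀ i < s, ∀ j < s, i ≠ j → List.Disjoint (Q i) (Q j)

private theorem GA4_no [Fintype V] [DecidableEq V] {G : SimpleGraph V} {m l : ℕ} {η₀ η : ℝ}
    {A₀ A B₀ Bst D : Finset V} (S : Setup G m l η₀ η A₀ A B₀ Bst D) :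
    ¬ GA4_P G A₀ A (2 * (m - A.card) + 1) := by
  rintro ⟨Q, x, y, hQ, hd⟩
  obtain ⟨n1, n2, n3, n4, n5⟩ := GA2_num S.big
  obtain ⟨g1, g2⟩ := GA4_gap S
  obtain ⟨g, hg⟩ : ∃ g, g = m - A.card := ⟨_, rfl⟩
  rw [← hg] at g1 g2 hQ hd
  have hsm : ((2 * g + 1 : ℕ) : ℝ) ≤ η₀ * m / 1100 := by
    push_cast
    linarith
  have hgain : ∀ j < 2 * g + 1, 2 * (A ∩ (Q j).toFinset).card + 1 ≤ (Q j).length - 1 := by
    intro j hj
    have := (hQ j hj).gain
    omega
  by_cases hev : Even (∑ j ∈ Finset.range (2 * g + 1), ((Q j).length - 1))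
  · refine S.no_gain (2 * g + 1) (by omega) hsm Q x y hQ hd hev ?_
    rw [← hg]
    have h1 : ∑ j ∈ Finset.range (2 * g + 1), (2 * (A ∩ (Q j).toFinset).card + 1) ≤
        ∑ j ∈ Finset.range (2 * g + 1), ((Q j).length - 1) :=
      Finset.sum_le_sum fun j hj => hgain j (Finset.mem_range.1 hj)
    rw [Finset.sum_add_distrib, ← Finset.mul_sum, Finset.sum_const, Finset.card_range, smul_eq_mul,
      mul_one] at h1
    omega
  · obtain ⟨j₁, hj₁, hodd⟩ : ∃ j₁ < 2 * g + 1, ¬ Even ((Q j₁).length - 1) := by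
      by_contra hcon
      push Not at hcon
      exact hev (Finset.even_sum _ fun j hj => hcon j (Finset.mem_range.1 hj))
    obtain ⟨σ, hσ⟩ : ∃ σ : Equiv.Perm ℕ, σ = Equiv.swap j₁ (2 * g) := ⟨_, rfl⟩
    have hσlt : ∀ j < 2 * g, σ j < 2 * g + 1 := by
      intro j hj
      rw [hσ, Equiv.swap_apply_def]
      split_ifs <;> omega
    have hσl : σ (2 * g) = j₁ := by rw [hσ, Equiv.swap_apply_right]
    have hsum : ∑ j ∈ Finset.range (2 * g + 1), ((Q (σ j)).length - 1) =
        ∑ j ∈ Finset.range (2 * g + 1), ((Q j).length - 1) :=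
      Equiv.Perm.sum_comp σ (Finset.range (2 * g + 1)) (fun j => (Q j).length - 1) (by
        intro a ha
        rw [Finset.coe_range, Set.mem_Iio]
        by_contra hcon
        apply ha
        rw [hσ, Equiv.swap_apply_of_ne_of_ne] <;> omega)
    rw [Finset.sum_range_succ, hσl] at hsum
    refine S.no_gain (2 * g) (by omega) (by
      push_cast at hsm ⊢
      linarith) (fun j => Q (σ j)) (fun j => x (σ j)) (fun j => y (σ j))
      (fun j hj => hQ _ (hσlt j hj)) (fun i hi j hj hij => hd _ (hσlt i hi) _ (hσlt j hj)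
        fun h => hij (σ.injective h)) ?_ ?_
    · rw [← hsum] at hev
      rw [Nat.not_even_iff_odd] at hev hodd
      by_contra hcon
      rw [Nat.not_even_iff_odd] at hcon
      exact (Nat.not_even_iff_odd.2 hev) (hcon.add_odd hodd)
    · rw [← hg]
      have h1 : ∑ j ∈ Finset.range (2 * g), (2 * (A ∩ (Q (σ j)).toFinset).card + 1) ≤
          ∑ j ∈ Finset.range (2 * g), ((Q (σ j)).length - 1) :=
        Finset.sum_le_sum fun j hj => hgain _ (hσlt j (Finset.mem_range.1 hj))
      rw [Finset.sum_add_distrib, ← Finset.mul_sum, Finset.sum_const, Finset.card_range, smul_eq_mul,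
        mul_one] at h1
      omega

/-- FEW EARS.
PROOF. `j₀ = m - 1 - |A| ≤ η m`.  Let `s` be the largest number of pairwise disjoint ears (at most
`|V|`).  Claim `s ≤ 2 j₀ + 2`.  Otherwise take `2 j₀ + 3` disjoint ears, each has gain
`g = |Q| - 1 - 2 α ≥ 1`.  If the total gain is even use `no_gain` for all; if it is odd one of them has odd gain,
leave it out: the other `2 j₀ + 2` have even total gain `≥ 2 j₀ + 2 = 2 (m - |A|)`.
(`2 j₀ + 3 ≤ 2 η m + 3 ≤ η₀ m / 1100`.)  Let `X` be the set of all vertices of a maximal family: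
`|X| ≤ 7 (2 j₀ + 2) ≤ 15 η m`; every ear meets `X` by maximality. -/
theorem Setup.few_ears [Fintype V] [DecidableEq V] {G : SimpleGraph V} {m l : ℕ} {η₀ η : ℝ}
    {A₀ A B₀ Bst D : Finset V} (S : Setup G m l η₀ η A₀ A B₀ Bst D) :
    ∃ X : Finset V, (X.card : ℝ) ≤ 15 * η * m ∧
      ∀ Q x y, Ear G A₀ A Q x y → ∃ v ∈ Q, v ∈ X := by
  classical
  obtain ⟨n1, n2, n3, n4, n5⟩ := GA2_num S.big
  obtain ⟨g1, g2⟩ := GA4_gap S
  have hno := GA4_no S
  obtain ⟨g, hg⟩ : ∃ g, g = m - A.card := ⟨_, rfl⟩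
  rw [← hg] at g1 g2 hno
  have h0 : GA4_P G A₀ A 0 :=
    ⟨fun _ => [], fun _ => by
      have : 0 < A₀.card := by
        have : (0 : ℝ) < A₀.card := by nlinarith
        exact_mod_cast this
      exact (Finset.card_pos.1 this).choose, fun _ => by
      have : 0 < A₀.card := by
        have : (0 : ℝ) < A₀.card := by nlinarith
        exact_mod_cast this
      exact (Finset.card_pos.1 this).choose, fun j hj => absurd hj (Nat.not_lt_zero j),
      fun j hj => absurd hj (Nat.not_lt_zero j)⟩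
  obtain ⟨s, hs⟩ : ∃ s, s = Nat.findGreatest (fun s => GA4_P G A₀ A s) (2 * g) := ⟨_, rfl⟩
  have hs1 : s ≤ 2 * g := by rw [hs]; exact Nat.findGreatest_le _
  have hs2 : GA4_P G A₀ A s := by
    rw [hs]
    exact Nat.findGreatest_spec (P := fun s => GA4_P G A₀ A s) (Nat.zero_le _) h0
  have hs3 : ¬ GA4_P G A₀ A (s + 1) := by
    intro h
    rcases Nat.lt_or_ge s (2 * g) with h1 | h1
    · have h2 := Nat.le_findGreatest (P := fun s => GA4_P G A₀ A s) (by omega : s + 1 ≤ 2 * g) h
      rw [← hs] at h2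
      omega
    · have : s + 1 = 2 * g + 1 := by omega
      rw [this] at h
      exact hno h
  obtain ⟨Q, x, y, hQ, hd⟩ := hs2
  refine ⟨(Finset.range s).biUnion fun j => (Q j).toFinset, ?_, ?_⟩
  · have h1 : ((Finset.range s).biUnion fun j => (Q j).toFinset).card ≤ 7 * s := by
      refine Finset.card_biUnion_le.trans ?_
      have : ∑ j ∈ Finset.range s, (Q j).toFinset.card ≤ ∑ _j ∈ Finset.range s, 7 :=
        Finset.sum_le_sum fun j hj =>
          (List.toFinset_card_le _).trans (hQ j (Finset.mem_range.1 hj)).len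
      refine this.trans (le_of_eq ?_)
      rw [Finset.sum_const, Finset.card_range, smul_eq_mul, mul_comm]
    have h2 : (((Finset.range s).biUnion fun j => (Q j).toFinset).card : ℝ) ≤ 14 * g := by
      have : ((Finset.range s).biUnion fun j => (Q j).toFinset).card ≤ 14 * g := by omega
      exact_mod_cast this
    linarith
  · intro Q' x' y' hear
    by_contra hcon
    push Not at hcon
    apply hs3
    refine ⟨fun j => if j < s then Q j else Q', fun j => if j < s then x j else x',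
      fun j => if j < s then y j else y', ?_, ?_⟩
    · intro j hj
      dsimp only
      by_cases h : j < s
      · rw [if_pos h, if_pos h, if_pos h]
        exact hQ j h
      · rw [if_neg h, if_neg h, if_neg h]
        exact hear
    · have hQ' : ∀ j < s, List.Disjoint (Q j) Q' := by
        intro j hj v hv hv'
        exact hcon v hv' (Finset.mem_biUnion.2 ⟨j, Finset.mem_range.2 hj, List.mem_toFinset.2 hv⟩)
      intro i hi j hj hij
      dsimp only
      by_cases h : i < s
      · by_cases h' : j < s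
        · rw [if_pos h, if_pos h']
          exact hd i h j h' hij
        · rw [if_pos h, if_neg h']
          exact hQ' i h
      · by_cases h' : j < s
        · rw [if_neg h, if_pos h']
          exact (hQ' j h').symm
        · omega

/- MODULE GA5 -/
private theorem GA5_two [DecidableEq V] {G : SimpleGraph V} {T : Finset V} {v : V} (h : 2 ≤ dg G T v)
    (z : V) : ∃ w ∈ T, G.Adj v w ∧ w ≠ z := by
  classical
  have h1 : 1 < (T.filter (fun w => G.Adj v w)).card := h
  obtain ⟨w, hw, hwz⟩ := Finset.exists_mem_ne h1 z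
  rw [Finset.mem_filter] at hw
  exact ⟨w, hw.1, hw.2, hwz⟩

private theorem GA5_pos {G : SimpleGraph V} {T : Finset V} {v : V} (h : dg G T v ≠ 0) :
    ∃ w ∈ T, G.Adj v w := by
  classical
  have h1 : 0 < (T.filter (fun w => G.Adj v w)).card := Nat.pos_of_ne_zero h
  obtain ⟨w, hw⟩ := Finset.card_pos.1 h1
  rw [Finset.mem_filter] at hw
  exact ⟨w, hw.1, hw.2⟩

/-- the facts on a vertex of `B₀` -/
private theorem GA5_b [Fintype V] [DecidableEq V] {G : SimpleGraph V} {m l : ℕ} {η₀ η : ℝ}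
    {A₀ A B₀ Bst D : Finset V} (S : Setup G m l η₀ η A₀ A B₀ Bst D) (X : Finset V)
    (hX : (X.card : ℝ) ≤ 15 * η * m) (a z : V) (ha : a ∈ A) :
    ∃ b ∈ Bst \ X, G.Adj a b ∧ b ≠ z := by
  classical
  obtain ⟨n1, n2, n3, n4, n5⟩ := GA2_num S.big
  have h1 := S.big.many a ha
  have h2 := S.big.cardB
  have h3 : 0 < ((B₀.filter (fun w => G.Adj a w)) \ insert z X).card := by
    have h4 := Finset.le_card_sdiff (insert z X) (B₀.filter (fun w => G.Adj a w))
    have h5 := Finset.card_insert_le z X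
    have h6 : dg G B₀ a = (B₀.filter (fun w => G.Adj a w)).card := rfl
    have h7 : X.card + 1 < dg G B₀ a := by
      have h8 : (B₀.card : ℝ) ≤ 10 * dg G B₀ a := by exact_mod_cast h1
      have h9 : (X.card : ℝ) + 1 < dg G B₀ a := by
        have : (m : ℝ) ≤ B₀.card := by nlinarith [S.big.η₀_pos]
        nlinarith
      exact_mod_cast h9
    omega
  obtain ⟨b, hb⟩ := Finset.card_pos.1 h3
  rw [Finset.mem_sdiff, Finset.mem_filter, Finset.mem_insert, not_or] at hb
  exact ⟨b, Finset.mem_sdiff.2 ⟨S.B₀_sub hb.1.1, hb.2.2⟩, hb.1.2, hb.2.1⟩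

private theorem GA5_gain [DecidableEq V] (A K : Finset V) (Q : List V) (h : ∀ v ∈ Q, v ∈ A → v ∈ K)
    (hK : 2 * K.card + 2 ≤ Q.length) : 2 * (A ∩ Q.toFinset).card + 2 ≤ Q.length := by
  have h1 : A ∩ Q.toFinset ⊆ K := by
    intro v hv
    rw [Finset.mem_inter, List.mem_toFinset] at hv
    exact h v hv.2 hv.1
  have := Finset.card_le_card h1
  omega

/-- CONSEQUENCES OUTSIDE `X`.  `A' = A ∖ X`, `B' = Bst ∖ X`, `D' = D ∖ X`.
PROOF. Every `a ∈ A'` has at least `|B₀|/10 ≥ m/10` neighbours in `B₀`, so more than `|X| + 10`; so for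
every finite set of at most ten vertices there is a neighbour of `a` in `B₀ ∖ X` outside it; the
vertices of `B₀` are typical and not in `A`, `D`.
(1) two neighbours `b ≠ b'` of `v` in `B'`: the ear `b v b'` (`|Q| = 3`, `α = 0`).
(2) `b ∈ B'`, `a ∈ A'` neighbours of `v ∈ D'`: the ear `b v a b''` with `b'' ∈ N(a) ∩ B₀ ∖ X`, `b'' ≠ b`
(`|Q| = 4`, `α = 1`).
(3) `v, v' ∈ D'` adjacent, `v` with two neighbours in `A'`; `a' ∈ A'` a neighbour of `v'`: choose
`a ∈ N(v) ∩ A'`, `a ≠ a'`; the ear `b1 a v v' a' b2` (`|Q| = 6`, `α = 2`).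
(4) `v, v' ∈ D'` adjacent, `v` with two neighbours in `A'`, `b ∈ B'` a neighbour of `v'`: the ear
`b v' v a b2` (`|Q| = 5`, `α = 1`).
(5) `v' ∈ D'` adjacent to `v ≠ v'' ∈ D'`, both with two neighbours in `A'`: choose `a ∈ N(v)`,
`a'' ∈ N(v'')`, `a ≠ a''`: the ear `b1 a v v' v'' a'' b2` (`|Q| = 7`, `α = 2`).  All these ears avoid `X`. -/
theorem Setup.outside [Fintype V] [DecidableEq V] {G : SimpleGraph V} {m l : ℕ} {η₀ η : ℝ}
    {A₀ A B₀ Bst D : Finset V} (S : Setup G m l η₀ η A₀ A B₀ Bst D) (X : Finset V)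
    (hX : (X.card : ℝ) ≤ 15 * η * m) (hE : ∀ Q x y, Ear G A₀ A Q x y → ∃ v ∈ Q, v ∈ X) :
    (∀ v ∈ D \ X, dg G (Bst \ X) v ≤ 1) ∧
    (∀ v ∈ D \ X, ∀ b ∈ Bst \ X, G.Adj v b → dg G (A \ X) v = 0) ∧
    (∀ v ∈ D \ X, ∀ v' ∈ D \ X, G.Adj v v' → 2 ≤ dg G (A \ X) v →
      dg G (A \ X) v' = 0 ∧ dg G (Bst \ X) v' = 0) ∧
    (∀ v' ∈ D \ X, ∀ v ∈ D \ X, ∀ v'' ∈ D \ X, G.Adj v' v → G.Adj v' v'' → 2 ≤ dg G (A \ X) v →
      2 ≤ dg G (A \ X) v'' → v = v'') := by
  classical
  have hD : ∀ v ∈ D \ X, v ∉ A ∧ v ∉ Bst ∧ v ∉ X := by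
    intro v hv
    rw [Finset.mem_sdiff, S.memD] at hv
    exact ⟨hv.1.1, hv.1.2, hv.2⟩
  have hB : ∀ b ∈ Bst \ X, b ∉ A ∧ Typ G A₀ b ∧ b ∉ X ∧ b ∈ Bst := by
    intro b hb
    rw [Finset.mem_sdiff] at hb
    exact ⟨((S.memB b).1 hb.1).1, ((S.memB b).1 hb.1).2, hb.2, hb.1⟩
  have hA : ∀ a ∈ A \ X, a ∈ A ∧ a ∉ X := by
    intro a ha
    exact Finset.mem_sdiff.1 ha
  refine ⟨?_, ?_, ?_, ?_⟩
  · intro v hv
    by_contra hcon
    obtain ⟨hv1, hv2, hv3⟩ := hD v hv
    obtain ⟨b, hb, hvb, -⟩ := GA5_two (by omega : 2 ≤ dg G (Bst \ X) v) v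
    obtain ⟨b', hb', hvb', hne⟩ := GA5_two (by omega : 2 ≤ dg G (Bst \ X) v) b
    obtain ⟨f1, f2, f3, f4⟩ := hB b hb
    obtain ⟨k1, k2, k3, k4⟩ := hB b' hb'
    have e1 : b ≠ v := fun h => hv2 (h ▸ f4)
    have e2 : v ≠ b' := fun h => hv2 (h ▸ k4)
    obtain ⟨w, hw, hwX⟩ := hE [b, v, b'] b b'
      { path := ⟨by simp [hvb.symm, hvb'], by simp [e1, e2, hne.symm], rfl, rfl⟩
        tx := f2
        ty := k2
        xA := f1
        yA := k1
        len := by simp
        gain := GA5_gain A ∅ _ (by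
          intro w hw hwA
          simp only [List.mem_cons, List.not_mem_nil, or_false] at hw
          rcases hw with rfl | rfl | rfl
          · exact absurd hwA f1
          · exact absurd hwA hv1
          · exact absurd hwA k1) (by simp) }
    simp only [List.mem_cons, List.not_mem_nil, or_false] at hw
    rcases hw with rfl | rfl | rfl
    · exact f3 hwX
    · exact hv3 hwX
    · exact k3 hwX
  · intro v hv b hb hvb
    by_contra hcon
    obtain ⟨hv1, hv2, hv3⟩ := hD v hv
    obtain ⟨a, ha, hva⟩ := GA5_pos hcon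
    obtain ⟨ha1, ha2⟩ := hA a ha
    obtain ⟨b', hb', hab', hne⟩ := GA5_b S X hX a b ha1
    obtain ⟨f1, f2, f3, f4⟩ := hB b hb
    obtain ⟨k1, k2, k3, k4⟩ := hB b' hb'
    have e1 : b ≠ v := fun h => hv2 (h ▸ f4)
    have e2 : v ≠ b' := fun h => hv2 (h ▸ k4)
    have e3 : b ≠ a := fun h => f1 (h ▸ ha1)
    have e4 : v ≠ a := fun h => hv1 (h ▸ ha1)
    have e5 : a ≠ b' := fun h => k1 (h ▸ ha1)
    obtain ⟨w, hw, hwX⟩ := hE [b, v, a, b'] b b'
      { path := ⟨by simp [hvb.symm, hva, hab'], by simp [e1, e2, e3, e4, e5, hne.symm], rfl, rfl⟩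
        tx := f2
        ty := k2
        xA := f1
        yA := k1
        len := by simp
        gain := GA5_gain A {a} _ (by
          intro w hw hwA
          simp only [List.mem_cons, List.not_mem_nil, or_false] at hw
          rw [Finset.mem_singleton]
          rcases hw with rfl | rfl | rfl | rfl
          · exact absurd hwA f1
          · exact absurd hwA hv1
          · rfl
          · exact absurd hwA k1) (by simp) }
    simp only [List.mem_cons, List.not_mem_nil, or_false] at hw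
    rcases hw with rfl | rfl | rfl | rfl
    · exact f3 hwX
    · exact hv3 hwX
    · exact ha2 hwX
    · exact k3 hwX
  · intro v hv v' hv' hvv' h2
    obtain ⟨hv1, hv2, hv3⟩ := hD v hv
    obtain ⟨hu1, hu2, hu3⟩ := hD v' hv'
    have e0 : v ≠ v' := G.ne_of_adj hvv'
    constructor
    · by_contra hcon
      obtain ⟨a', ha', hva'⟩ := GA5_pos hcon
      obtain ⟨a, ha, hva, haa'⟩ := GA5_two h2 a'
      obtain ⟨ha1, ha2⟩ := hA a ha
      obtain ⟨ha1', ha2'⟩ := hA a' ha'
      obtain ⟨b, hb, hab, -⟩ := GA5_b S X hX a a ha1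
      obtain ⟨b', hb', hab', hne⟩ := GA5_b S X hX a' b ha1'
      obtain ⟨f1, f2, f3, f4⟩ := hB b hb
      obtain ⟨k1, k2, k3, k4⟩ := hB b' hb'
      have e1 : b ≠ v := fun h => hv2 (h ▸ f4)
      have e1' : b ≠ v' := fun h => hu2 (h ▸ f4)
      have e2 : v ≠ b' := fun h => hv2 (h ▸ k4)
      have e2' : v' ≠ b' := fun h => hu2 (h ▸ k4)
      have e3 : b ≠ a := fun h => f1 (h ▸ ha1)
      have e3' : b ≠ a' := fun h => f1 (h ▸ ha1')
      have e4 : a ≠ v := fun h => hv1 (h ▸ ha1)
      have e4' : a ≠ v' := fun h => hu1 (h ▸ ha1)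
      have e6 : v ≠ a' := fun h => hv1 (h ▸ ha1')
      have e6' : v' ≠ a' := fun h => hu1 (h ▸ ha1')
      have e5 : a ≠ b' := fun h => k1 (h ▸ ha1)
      have e5' : a' ≠ b' := fun h => k1 (h ▸ ha1')
      obtain ⟨w, hw, hwX⟩ := hE [b, a, v, v', a', b'] b b'
        { path := ⟨by simp [hab.symm, hva.symm, hvv', hva', hab'],
            by simp [e0, e1, e1', e2, e2', e3, e3', e4, e4', e5, e5', e6, e6', haa', hne.symm], rfl, rfl⟩
          tx := f2
          ty := k2
          xA := f1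
          yA := k1
          len := by simp
          gain := GA5_gain A {a, a'} _ (by
            intro w hw hwA
            simp only [List.mem_cons, List.not_mem_nil, or_false] at hw
            rw [Finset.mem_insert, Finset.mem_singleton]
            rcases hw with rfl | rfl | rfl | rfl | rfl | rfl
            · exact absurd hwA f1
            · exact Or.inl rfl
            · exact absurd hwA hv1
            · exact absurd hwA hu1
            · exact Or.inr rfl
            · exact absurd hwA k1) (by rw [Finset.card_pair haa']; simp) }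
      simp only [List.mem_cons, List.not_mem_nil, or_false] at hw
      rcases hw with rfl | rfl | rfl | rfl | rfl | rfl
      · exact f3 hwX
      · exact ha2 hwX
      · exact hv3 hwX
      · exact hu3 hwX
      · exact ha2' hwX
      · exact k3 hwX
    · by_contra hcon
      obtain ⟨b, hb, hvb⟩ := GA5_pos hcon
      obtain ⟨a, ha, hva, -⟩ := GA5_two h2 v
      obtain ⟨ha1, ha2⟩ := hA a ha
      obtain ⟨b', hb', hab', hne⟩ := GA5_b S X hX a b ha1
      obtain ⟨f1, f2, f3, f4⟩ := hB b hb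
      obtain ⟨k1, k2, k3, k4⟩ := hB b' hb'
      have e1 : b ≠ v := fun h => hv2 (h ▸ f4)
      have e1' : b ≠ v' := fun h => hu2 (h ▸ f4)
      have e2 : v ≠ b' := fun h => hv2 (h ▸ k4)
      have e2' : v' ≠ b' := fun h => hu2 (h ▸ k4)
      have e3 : b ≠ a := fun h => f1 (h ▸ ha1)
      have e4 : v ≠ a := fun h => hv1 (h ▸ ha1)
      have e4' : v' ≠ a := fun h => hu1 (h ▸ ha1)
      have e5 : a ≠ b' := fun h => k1 (h ▸ ha1)
      obtain ⟨w, hw, hwX⟩ := hE [b, v', v, a, b'] b b'
        { path := ⟨by simp [hvb.symm, hvv'.symm, hva, hab'],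
            by simp [e0.symm, e1, e1', e2, e2', e3, e4, e4', e5, hne.symm], rfl, rfl⟩
          tx := f2
          ty := k2
          xA := f1
          yA := k1
          len := by simp
          gain := GA5_gain A {a} _ (by
            intro w hw hwA
            simp only [List.mem_cons, List.not_mem_nil, or_false] at hw
            rw [Finset.mem_singleton]
            rcases hw with rfl | rfl | rfl | rfl | rfl
            · exact absurd hwA f1
            · exact absurd hwA hu1
            · exact absurd hwA hv1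
            · rfl
            · exact absurd hwA k1) (by simp) }
      simp only [List.mem_cons, List.not_mem_nil, or_false] at hw
      rcases hw with rfl | rfl | rfl | rfl | rfl
      · exact f3 hwX
      · exact hu3 hwX
      · exact hv3 hwX
      · exact ha2 hwX
      · exact k3 hwX
  · intro v' hv' v hv v'' hv'' hvv hvv'' h2 h2''
    by_contra hne0
    obtain ⟨hu1, hu2, hu3⟩ := hD v' hv'
    obtain ⟨hv1, hv2, hv3⟩ := hD v hv
    obtain ⟨ht1, ht2, ht3⟩ := hD v'' hv''
    obtain ⟨a, ha, hva, -⟩ := GA5_two h2 v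
    obtain ⟨a', ha', hva', haa'⟩ := GA5_two h2'' a
    obtain ⟨ha1, ha2⟩ := hA a ha
    obtain ⟨ha1', ha2'⟩ := hA a' ha'
    obtain ⟨b, hb, hab, -⟩ := GA5_b S X hX a a ha1
    obtain ⟨b', hb', hab', hne⟩ := GA5_b S X hX a' b ha1'
    obtain ⟨f1, f2, f3, f4⟩ := hB b hb
    obtain ⟨k1, k2, k3, k4⟩ := hB b' hb'
    have c1 : b ≠ a := fun h => f1 (h ▸ ha1)
    have c2 : b ≠ v := fun h => hv2 (h ▸ f4)
    have c3 : b ≠ v' := fun h => hu2 (h ▸ f4)
    have c4 : b ≠ v'' := fun h => ht2 (h ▸ f4)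
    have c5 : b ≠ a' := fun h => f1 (h ▸ ha1')
    have c6 : a ≠ v := fun h => hv1 (h ▸ ha1)
    have c7 : a ≠ v' := fun h => hu1 (h ▸ ha1)
    have c8 : a ≠ v'' := fun h => ht1 (h ▸ ha1)
    have c9 : a ≠ b' := fun h => k1 (h ▸ ha1)
    have d1 : v ≠ v' := (G.ne_of_adj hvv).symm
    have d2 : v ≠ a' := fun h => hv1 (h ▸ ha1')
    have d3 : v ≠ b' := fun h => hv2 (h ▸ k4)
    have d4 : v' ≠ v'' := G.ne_of_adj hvv''
    have d5 : v' ≠ a' := fun h => hu1 (h ▸ ha1')
    have d6 : v' ≠ b' := fun h => hu2 (h ▸ k4)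
    have d7 : v'' ≠ a' := fun h => ht1 (h ▸ ha1')
    have d8 : v'' ≠ b' := fun h => ht2 (h ▸ k4)
    have d9 : a' ≠ b' := fun h => k1 (h ▸ ha1')
    obtain ⟨w, hw, hwX⟩ := hE [b, a, v, v', v'', a', b'] b b'
      { path := ⟨by simp [hab.symm, hva.symm, hvv.symm, hvv'', hva', hab'],
          by simp [c1, c2, c3, c4, c5, c6, c7, c8, c9, d1, d2, d3, d4, d5, d6, d7, d8, d9, haa'.symm,
            hne.symm, hne0], rfl, rfl⟩
        tx := f2
        ty := k2
        xA := f1
        yA := k1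
        len := by simp
        gain := GA5_gain A {a, a'} _ (by
          intro w hw hwA
          simp only [List.mem_cons, List.not_mem_nil, or_false] at hw
          rw [Finset.mem_insert, Finset.mem_singleton]
          rcases hw with rfl | rfl | rfl | rfl | rfl | rfl | rfl
          · exact absurd hwA f1
          · exact Or.inl rfl
          · exact absurd hwA hv1
          · exact absurd hwA hu1
          · exact absurd hwA ht1
          · exact Or.inr rfl
          · exact absurd hwA k1) (by rw [Finset.card_pair haa'.symm]; simp) }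
    simp only [List.mem_cons, List.not_mem_nil, or_false] at hw
    rcases hw with rfl | rfl | rfl | rfl | rfl | rfl | rfl
    · exact f3 hwX
    · exact ha2 hwX
    · exact hv3 hwX
    · exact hu3 hwX
    · exact ht3 hwX
    · exact ha2' hwX
    · exact k3 hwX

/- MODULE GA6 -/
/-- `s` disjoint cherries with leaves in `B2` and centres in `C`. -/
private def GA6_P (G : SimpleGraph V) (B2 C : Finset V) (s : ℕ) : Prop :=
  ∃ b v b' : ℕ → V, (∀ j < s, b j ∈ B2 ∧ b' j ∈ B2 ∧ v j ∈ C ∧ b j ≠ b' j ∧ G.Adj (b j) (v j) ∧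
    G.Adj (v j) (b' j)) ∧ ∀ i < s, ∀ j < s, i ≠ j → List.Disjoint [b i, v i, b' i] [b j, v j, b' j]

private theorem GA6_sub [DecidableEq V] (G : SimpleGraph V) (T A B1 B2 B3 : Finset V)
    (h : T ⊆ A ∪ (B1 ∪ (B2 ∪ B3))) (v : V) :
    dg G T v ≤ dg G A v + (dg G B1 v + (dg G B2 v + dg G B3 v)) := by
  classical
  unfold dg
  have h1 : T.filter (fun w => G.Adj v w) ⊆ A.filter (fun w => G.Adj v w) ∪
      (B1.filter (fun w => G.Adj v w) ∪ (B2.filter (fun w => G.Adj v w) ∪
        B3.filter (fun w => G.Adj v w))) := by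
    rw [← Finset.filter_union, ← Finset.filter_union, ← Finset.filter_union]
    exact Finset.filter_subset_filter _ h
  refine (Finset.card_le_card h1).trans ((Finset.card_union_le _ _).trans
    (Nat.add_le_add_left ((Finset.card_union_le _ _).trans
      (Nat.add_le_add_left (Finset.card_union_le _ _) _)) _))

/-- MOST VERTICES OF `Bst` HAVE A NEIGHBOUR IN `D ∖ X`.
PROOF. Let `B'' = {b ∈ Bst ∖ X : dg G (D ∖ X) b = 0}`, `j₀ = m - 1 - |A|`.  By minimum degree `m`, since `b`
has at most `|A|` neighbours in `A`, none in `Bst` (`indep`), none in `D ∖ X`, it has at least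
`j₀ + 1` neighbours in `D ∩ X`.  Take a maximal family of pairwise disjoint cherries `b v b'` with
`v ∈ D ∩ X`, `b, b' ∈ B''`, say `x` of them.  `x ≤ j₀`: otherwise `no_gain` for `j₀ + 1` of them
(`Q = [b, v, b']`, `α = 0`, total `2 (j₀ + 1) = 2 (m - |A|)`; `j₀ + 1 ≤ η m + 1 ≤ η₀ m/1100`).  Let `Z` be the set
of the centres, `L` the set of the `2 x` leaves.  By maximality every `v ∈ D ∩ X ∖ Z` has at most one
neighbour in `B'' ∖ L`; every `b ∈ B'' ∖ L` has at least `j₀ + 1 - x ≥ 1` neighbours in `D ∩ X ∖ Z`.  So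
`|B'' ∖ L| ≤ |D ∩ X ∖ Z| ≤ |X|`. -/
theorem Setup.few_stuck [Fintype V] [DecidableEq V] {G : SimpleGraph V} {m l : ℕ} {η₀ η : ℝ}
    {A₀ A B₀ Bst D : Finset V} (S : Setup G m l η₀ η A₀ A B₀ Bst D)
    (hdeg : ∀ v, m ≤ dg G Finset.univ v) (X : Finset V) :
    ((Bst \ X).filter (fun b => dg G (D \ X) b = 0)).card ≤ X.card + 2 * (m - 1 - A.card) := by
  classical
  obtain ⟨n1, n2, n3, n4, n5⟩ := GA2_num S.big
  obtain ⟨g1, g2⟩ := GA4_gap S
  obtain ⟨B2, hB2⟩ : ∃ B2, B2 = (Bst \ X).filter (fun b => dg G (D \ X) b = 0) := ⟨_, rfl⟩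
  obtain ⟨C, hC⟩ : ∃ C, C = D ∩ X := ⟨_, rfl⟩
  have memB2 : ∀ b ∈ B2, b ∈ Bst ∧ b ∉ X ∧ dg G (D \ X) b = 0 ∧ b ∉ A ∧ Typ G A₀ b := by
    intro b hb
    rw [hB2, Finset.mem_filter, Finset.mem_sdiff] at hb
    exact ⟨hb.1.1, hb.1.2, hb.2, (S.memB b).1 hb.1.1⟩
  have memC : ∀ v ∈ C, v ∈ D ∧ v ∈ X ∧ v ∉ A ∧ v ∉ Bst := by
    intro v hv
    rw [hC, Finset.mem_inter] at hv
    exact ⟨hv.1, hv.2, (S.memD v).1 hv.1⟩
  have hAm := S.cardA'
  obtain ⟨g, hg⟩ : ∃ g, g = m - A.card := ⟨_, rfl⟩
  have hg' : m - 1 - A.card = g - 1 := by omega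
  rw [← hB2, hg']
  rw [← hg] at g1 g2
  -- at most `g - 1` disjoint cherries
  have hno : ¬ GA6_P G B2 C g := by
    rintro ⟨b, v, b', h1, h2⟩
    refine S.no_gain g g2 (by linarith) (fun j => [b j, v j, b' j]) b b' ?_ h2 ?_ ?_
    · intro j hj
      obtain ⟨k1, k2, k3, k4, k5, k6⟩ := h1 j hj
      obtain ⟨f1, f2, f3, f4, f5⟩ := memB2 _ k1
      obtain ⟨f1', f2', f3', f4', f5'⟩ := memB2 _ k2
      obtain ⟨c1, c2, c3, c4⟩ := memC _ k3
      exact
        { path := ⟨by simp [k5, k6], by simp [G.ne_of_adj k5, G.ne_of_adj k6, k4], rfl, rfl⟩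
          tx := f5
          ty := f5'
          xA := f4
          yA := f4'
          len := by simp
          gain := GA5_gain A ∅ _ (by
            intro w hw hwA
            simp only [List.mem_cons, List.not_mem_nil, or_false] at hw
            rcases hw with rfl | rfl | rfl
            · exact absurd hwA f4
            · exact absurd hwA c3
            · exact absurd hwA f4') (by simp) }
    · have : ∑ j ∈ Finset.range g, (([b j, v j, b' j] : List V).length - 1) = 2 * g := by
        simp [mul_comm]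
      rw [this]
      exact even_two_mul g
    · have e1 : ∑ j ∈ Finset.range g, (([b j, v j, b' j] : List V).length - 1) = 2 * g := by
        simp [mul_comm]
      have e2 : ∑ j ∈ Finset.range g, (A ∩ ([b j, v j, b' j] : List V).toFinset).card = 0 := by
        refine Finset.sum_eq_zero fun j hj => ?_
        obtain ⟨k1, k2, k3, k4, k5, k6⟩ := h1 j (Finset.mem_range.1 hj)
        rw [Finset.card_eq_zero, ← Finset.disjoint_iff_inter_eq_empty, Finset.disjoint_right]
        intro w hw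
        rw [List.mem_toFinset] at hw
        simp only [List.mem_cons, List.not_mem_nil, or_false] at hw
        rcases hw with rfl | rfl | rfl
        · exact (memB2 _ k1).2.2.2.1
        · exact (memC _ k3).2.2.1
        · exact (memB2 _ k2).2.2.2.1
      rw [e1, e2, ← hg]
      omega
  have hP0 : ∀ x0 : V, GA6_P G B2 C 0 := fun x0 =>
    ⟨fun _ => x0, fun _ => x0, fun _ => x0, fun j hj => absurd hj (Nat.not_lt_zero j),
      fun j hj => absurd hj (Nat.not_lt_zero j)⟩
  rcases Finset.eq_empty_or_nonempty B2 with hemp | ⟨x0, -⟩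
  · rw [hemp, Finset.card_empty]
    exact Nat.zero_le _
  obtain ⟨s, hs⟩ : ∃ s, s = Nat.findGreatest (fun s => GA6_P G B2 C s) (g - 1) := ⟨_, rfl⟩
  have hs1 : s ≤ g - 1 := by rw [hs]; exact Nat.findGreatest_le _
  have hs2 : GA6_P G B2 C s := by
    rw [hs]
    exact Nat.findGreatest_spec (P := fun s => GA6_P G B2 C s) (Nat.zero_le _) (hP0 x0)
  have hs3 : ¬ GA6_P G B2 C (s + 1) := by
    intro h
    rcases Nat.lt_or_ge s (g - 1) with h1 | h1
    · have h2 := Nat.le_findGreatest (P := fun s => GA6_P G B2 C s) (by omega : s + 1 ≤ g - 1) h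
      rw [← hs] at h2
      omega
    · have : s + 1 = g := by omega
      rw [this] at h
      exact hno h
  obtain ⟨b, v, b', h1, h2⟩ := hs2
  obtain ⟨U, hU⟩ : ∃ U : Finset V, U = (Finset.range s).biUnion fun j => ([b j, v j, b' j] : List V).toFinset :=
    ⟨_, rfl⟩
  have memU : ∀ w, w ∈ U ↔ ∃ j < s, w ∈ [b j, v j, b' j] := by
    intro w
    rw [hU, Finset.mem_biUnion]
    constructor
    · rintro ⟨j, hj, hw⟩
      exact ⟨j, Finset.mem_range.1 hj, List.mem_toFinset.1 hw⟩
    · rintro ⟨j, hj, hw⟩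
      exact ⟨j, Finset.mem_range.2 hj, List.mem_toFinset.2 hw⟩
  have hL : (U ∩ B2).card ≤ 2 * s := by
    rw [hU, Finset.biUnion_inter]
    refine Finset.card_biUnion_le.trans ?_
    have : ∑ j ∈ Finset.range s, (([b j, v j, b' j] : List V).toFinset ∩ B2).card ≤
        ∑ _j ∈ Finset.range s, 2 := by
      refine Finset.sum_le_sum fun j hj => ?_
      obtain ⟨k1, k2, k3, k4, k5, k6⟩ := h1 j (Finset.mem_range.1 hj)
      have e1 : ([b j, v j, b' j] : List V).toFinset ∩ B2 ⊆ {b j, b' j} := by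
        intro w hw
        rw [Finset.mem_inter, List.mem_toFinset] at hw
        obtain ⟨hw1, hw2⟩ := hw
        simp only [List.mem_cons, List.not_mem_nil, or_false] at hw1
        rw [Finset.mem_insert, Finset.mem_singleton]
        rcases hw1 with rfl | rfl | rfl
        · exact Or.inl rfl
        · exact absurd (memB2 _ hw2).1 (memC _ k3).2.2.2
        · exact Or.inr rfl
      exact (Finset.card_le_card e1).trans Finset.card_le_two
    refine this.trans (le_of_eq ?_)
    rw [Finset.sum_const, Finset.card_range, smul_eq_mul, mul_comm]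
  have hZ : (U ∩ C).card ≤ s := by
    rw [hU, Finset.biUnion_inter]
    refine Finset.card_biUnion_le.trans ?_
    have : ∑ j ∈ Finset.range s, (([b j, v j, b' j] : List V).toFinset ∩ C).card ≤
        ∑ _j ∈ Finset.range s, 1 := by
      refine Finset.sum_le_sum fun j hj => ?_
      obtain ⟨k1, k2, k3, k4, k5, k6⟩ := h1 j (Finset.mem_range.1 hj)
      have e1 : ([b j, v j, b' j] : List V).toFinset ∩ C ⊆ {v j} := by
        intro w hw
        rw [Finset.mem_inter, List.mem_toFinset] at hw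
        obtain ⟨hw1, hw2⟩ := hw
        simp only [List.mem_cons, List.not_mem_nil, or_false] at hw1
        rw [Finset.mem_singleton]
        rcases hw1 with rfl | rfl | rfl
        · exact absurd (memB2 _ k1).1 (memC _ hw2).2.2.2
        · rfl
        · exact absurd (memB2 _ k2).1 (memC _ hw2).2.2.2
      exact (Finset.card_le_card e1).trans (Finset.card_singleton _).le
    refine this.trans (le_of_eq ?_)
    rw [Finset.sum_const, Finset.card_range, smul_eq_mul, mul_one]
  -- the injection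
  have hf : ∀ a ∈ B2 \ U, ∃ w ∈ C \ U, G.Adj a w := by
    intro a ha
    rw [Finset.mem_sdiff] at ha
    obtain ⟨f1, f2, f3, f4, f5⟩ := memB2 a ha.1
    have e1 := GA6_sub G Finset.univ A Bst (D \ X) C (by
      intro w _
      rw [Finset.mem_union, Finset.mem_union, Finset.mem_union, Finset.mem_sdiff, hC, Finset.mem_inter]
      by_cases c1 : w ∈ A
      · exact Or.inl c1
      · by_cases c2 : w ∈ Bst
        · exact Or.inr (Or.inl c2)
        · have c3 : w ∈ D := (S.memD w).2 ⟨c1, c2⟩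
          by_cases c4 : w ∈ X
          · exact Or.inr (Or.inr (Or.inr ⟨c3, c4⟩))
          · exact Or.inr (Or.inr (Or.inl ⟨c3, c4⟩))) a
    have e2 := hdeg a
    have e3 := dg_le_card G A a
    have e4 : dg G Bst a = 0 := by
      unfold dg
      rw [Finset.card_eq_zero, Finset.filter_eq_empty_iff]
      intro w hw
      exact S.indep a f1 w hw
    have e5 : s < dg G C a := by omega
    have e6 : 0 < ((C.filter (fun w => G.Adj a w)) \ (U ∩ C)).card := by
      have h4 := Finset.le_card_sdiff (U ∩ C) (C.filter (fun w => G.Adj a w))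
      have h6 : dg G C a = (C.filter (fun w => G.Adj a w)).card := rfl
      omega
    obtain ⟨w, hw⟩ := Finset.card_pos.1 e6
    rw [Finset.mem_sdiff, Finset.mem_filter, Finset.mem_inter] at hw
    exact ⟨w, Finset.mem_sdiff.2 ⟨hw.1.1, fun h => hw.2 ⟨h, hw.1.1⟩⟩, hw.1.2⟩
  choose! f hf1 hf2 using hf
  have hinj : ∀ a ∈ B2 \ U, ∀ c ∈ B2 \ U, f a = f c → a = c := by
    intro a ha c hc hac
    by_contra hne
    apply hs3
    have ha1 := Finset.mem_sdiff.1 ha
    have hc1 := Finset.mem_sdiff.1 hc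
    have hfa := Finset.mem_sdiff.1 (hf1 a ha)
    refine ⟨fun j => if j < s then b j else a, fun j => if j < s then v j else f a,
      fun j => if j < s then b' j else c, ?_, ?_⟩
    · intro j hj
      dsimp only
      by_cases h : j < s
      · rw [if_pos h, if_pos h, if_pos h]
        exact h1 j h
      · rw [if_neg h, if_neg h, if_neg h]
        exact ⟨ha1.1, hc1.1, hfa.1, hne, hf2 a ha, by rw [hac]; exact (hf2 c hc).symm⟩
    · have hQ' : ∀ j < s, List.Disjoint [b j, v j, b' j] [a, f a, c] := by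
        intro j hj w hw hw'
        have hwU : w ∈ U := (memU w).2 ⟨j, hj, hw⟩
        simp only [List.mem_cons, List.not_mem_nil, or_false] at hw'
        rcases hw' with rfl | rfl | rfl
        · exact ha1.2 hwU
        · exact hfa.2 hwU
        · exact hc1.2 hwU
      intro i hi j hj hij
      dsimp only
      by_cases h : i < s
      · by_cases h' : j < s
        · rw [if_pos h, if_pos h', if_pos h, if_pos h', if_pos h, if_pos h']
          exact h2 i h j h' hij
        · rw [if_pos h, if_neg h', if_pos h, if_neg h', if_pos h, if_neg h']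
          exact hQ' i h
      · by_cases h' : j < s
        · rw [if_neg h, if_pos h', if_neg h, if_pos h', if_neg h, if_pos h']
          exact (hQ' j h').symm
        · omega
  have hcard : (B2 \ U).card ≤ (C \ U).card :=
    Finset.card_le_card_of_injOn f (fun a ha => hf1 a ha) (fun a ha c hc => hinj a ha c hc)
  have hCX : (C \ U).card ≤ X.card :=
    Finset.card_le_card (fun w hw => (memC w (Finset.mem_sdiff.1 hw).1).2.1)
  have hfin : B2.card ≤ (U ∩ B2).card + (B2 \ U).card := by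
    have e1 := Finset.card_sdiff_add_card_inter B2 U
    rw [Finset.inter_comm] at e1
    omega
  omega

/- MODULE GA7 -/
private theorem GA7_union [DecidableEq V] (G : SimpleGraph V) (U W : Finset V) (h : Disjoint U W) :
    vol G (U ∪ W) = vol G U + vol G W + 2 * ∑ w ∈ W, dg G U w := by
  classical
  have hdg : ∀ v, dg G (U ∪ W) v = dg G U v + dg G W v := by
    intro v
    unfold dg
    rw [Finset.filter_union, Finset.card_union_of_disjoint]
    exact Finset.disjoint_filter_filter h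
  have hcross : ∑ v ∈ U, dg G W v = ∑ w ∈ W, dg G U w := by
    unfold dg
    simp only [Finset.card_filter]
    rw [Finset.sum_comm]
    refine Finset.sum_congr rfl fun w _ => Finset.sum_congr rfl fun v _ => ?_
    simp only [G.adj_comm]
  unfold vol
  rw [Finset.sum_union h]
  simp only [hdg, Finset.sum_add_distrib]
  rw [hcross]
  ring

/-- COUNTING.  `D' = D ∖ X`, `DA = {v ∈ D' : at least two neighbours in A ∖ X}`, `D0 = D' ∖ DA`.
`hinc`: at least `(m - 1) |D'|` edges meet `D'`.  Then `D0` is dense, and it is large.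
PROOF. (`outside` = (1) - (4).)  By `vol_union` for `D'` and its complement
`(X) ∪ (A ∖ X) ∪ (Bst ∖ X)`, `hinc` gives
`2 (m-1) |D'| ≤ vol D' + 2 ∑_(v ∈ D') (dg X v + dg (A ∖ X) v + dg (Bst ∖ X) v)`.  Here `dg X v ≤ |X|`,
`dg (Bst ∖ X) v ≤ 1`, `dg (A ∖ X) v ≤ 1` for `v ∈ D0`, and `dg (A ∖ X) v ≤ dg A₀ v + |A ∖ A₀| ≤
(3/4 + η) m` for `v ∈ DA` (`v` is not typical).  `DA` is independent by (3), and `dg DA v ≤ 1` for
`v ∈ D0` by (4), so `vol D' = vol D0 + 2 ∑_(v ∈ D0) dg DA v ≤ vol D0 + 2 |D0|`.  Together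
`vol D0 ≥ |D0| (2 m - 8 - 2 |X|) + |DA| (2 m - 4 - 2 |X| - (3/2 + 2 η) m) ≥ 2 (1 - 16 η) m |D0|`
(`|X| ≤ 15 η m`, `8 ≤ 2 η m`, the second bracket is `≥ 0`).
Size: by `few_stuck` all but `|X| + 2 (m - 1 - |A|) ≤ 17 η m` vertices `b` of `Bst ∖ X` have a neighbour
`v_b ∈ D'`; `v_b` has no neighbour in `A ∖ X` by (2), so `v_b ∈ D0`; `b ↦ v_b` is injective by (1).
`|Bst ∖ X| ≥ |B₀| - 15 η m`. -/
theorem Setup.dense_outside [Fintype V] [DecidableEq V] {G : SimpleGraph V} {m l : ℕ} {η₀ η : ℝ}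
    {A₀ A B₀ Bst D : Finset V} (S : Setup G m l η₀ η A₀ A B₀ Bst D)
    (hdeg : ∀ v, m ≤ dg G Finset.univ v) (X : Finset V)
    (hX : (X.card : ℝ) ≤ 15 * η * m) (hE : ∀ Q x y, Ear G A₀ A Q x y → ∃ v ∈ Q, v ∈ X)
    (hinc : vol G (Finset.univ \ (D \ X)) + 2 * (m - 1) * (D \ X).card ≤ vol G Finset.univ)
    (D0 : Finset V) (hD0 : D0 = (D \ X).filter (fun v => dg G (A \ X) v ≤ 1)) :
    2 * (1 - 16 * η) * m * (D0.card : ℝ) ≤ (vol G D0 : ℝ) ∧
      (B₀.card : ℝ) - 32 * η * m ≤ (D0.card : ℝ) := by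
  classical
  obtain ⟨n1, n2, n3, n4, n5⟩ := GA2_num S.big
  obtain ⟨g1, g2⟩ := GA4_gap S
  obtain ⟨o1, o2, o3, o4⟩ := S.outside X hX hE
  have hAm := S.cardA'
  obtain ⟨D', hD'⟩ : ∃ D', D' = D \ X := ⟨_, rfl⟩
  obtain ⟨DA, hDA⟩ : ∃ DA, DA = D'.filter (fun v => ¬ dg G (A \ X) v ≤ 1) := ⟨_, rfl⟩
  rw [← hD'] at hD0 hinc o1 o2 o3 o4
  have hm1 : 1 ≤ m := by omega
  have hsplit : D' = D0 ∪ DA := by
    rw [hD0, hDA, Finset.filter_union_filter_not_eq]
  have hdisj : Disjoint D0 DA := by
    rw [hD0, hDA]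
    exact Finset.disjoint_filter_filter_not _ _ _
  have hcardD : D'.card = D0.card + DA.card := by
    rw [hsplit, Finset.card_union_of_disjoint hdisj]
  have mem0 : ∀ v, v ∈ D0 ↔ v ∈ D' ∧ dg G (A \ X) v ≤ 1 := by
    intro v
    rw [hD0, Finset.mem_filter]
  have memDA : ∀ v, v ∈ DA ↔ v ∈ D' ∧ 2 ≤ dg G (A \ X) v := by
    intro v
    rw [hDA, Finset.mem_filter, not_le]
    exact Iff.rfl
  constructor
  · -- the volume
    have hC : vol G Finset.univ = vol G (Finset.univ \ D') + vol G D' +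
        2 * ∑ w ∈ D', dg G (Finset.univ \ D') w := by
      rw [← GA7_union G _ _ Finset.sdiff_disjoint, Finset.sdiff_union_of_subset (Finset.subset_univ _)]
    have hvD : vol G D' = vol G D0 + vol G DA + 2 * ∑ w ∈ DA, dg G D0 w := by
      rw [hsplit]
      exact GA7_union G D0 DA hdisj
    have hvD2 : vol G D' = vol G DA + vol G D0 + 2 * ∑ w ∈ D0, dg G DA w := by
      rw [hsplit, Finset.union_comm]
      exact GA7_union G DA D0 hdisj.symm
    have hvDA : vol G DA = 0 := by
      unfold vol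
      refine Finset.sum_eq_zero fun v hv => ?_
      unfold dg
      rw [Finset.card_eq_zero, Finset.filter_eq_empty_iff]
      intro w hw hadj
      obtain ⟨hv1, hv2⟩ := (memDA v).1 hv
      obtain ⟨hw1, hw2⟩ := (memDA w).1 hw
      have := (o3 v hv1 w hw1 hadj hv2).1
      omega
    have hdDA : ∀ v ∈ D0, dg G DA v ≤ 1 := by
      intro v hv
      by_contra hcon
      obtain ⟨w, hw, hvw, -⟩ := GA5_two (by omega : 2 ≤ dg G DA v) v
      obtain ⟨w', hw', hvw', hne⟩ := GA5_two (by omega : 2 ≤ dg G DA v) w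
      obtain ⟨hw1, hw2⟩ := (memDA w).1 hw
      obtain ⟨hw1', hw2'⟩ := (memDA w').1 hw'
      exact hne (o4 v ((mem0 v).1 hv).1 w' hw1' w hw1 hvw' hvw hw2' hw2)
    have hs1 : ∑ w ∈ D0, dg G DA w ≤ D0.card := by
      refine (Finset.sum_le_card_nsmul D0 _ 1 hdDA).trans ?_
      rw [smul_eq_mul, mul_one]
    have hdC : ∀ v, dg G (Finset.univ \ D') v ≤ dg G X v + (dg G (A \ X) v + (dg G (Bst \ X) v + dg G ∅ v)) := by
      intro v
      refine GA6_sub G _ X (A \ X) (Bst \ X) ∅ ?_ v
      intro w hw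
      rw [Finset.mem_sdiff, hD', Finset.mem_sdiff] at hw
      rw [Finset.mem_union, Finset.mem_union, Finset.mem_union, Finset.mem_sdiff, Finset.mem_sdiff]
      by_cases c4 : w ∈ X
      · exact Or.inl c4
      · by_cases c1 : w ∈ A
        · exact Or.inr (Or.inl ⟨c1, c4⟩)
        · by_cases c2 : w ∈ Bst
          · exact Or.inr (Or.inr (Or.inl ⟨c2, c4⟩))
          · exact absurd ⟨(S.memD w).2 ⟨c1, c2⟩, c4⟩ hw.2
    have hempty : ∀ v, dg G ∅ v = 0 := by
      intro v
      unfold dg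
      rw [Finset.filter_empty, Finset.card_empty]
    have hd0 : ∀ v ∈ D0, (dg G (Finset.univ \ D') v : ℝ) ≤ X.card + 2 := by
      intro v hv
      obtain ⟨hv1, hv2⟩ := (mem0 v).1 hv
      have e1 := hdC v
      have e2 := dg_le_card G X v
      have e3 := o1 v hv1
      have e4 := hempty v
      have e5 : dg G (Finset.univ \ D') v ≤ X.card + 2 := by omega
      exact_mod_cast e5
    have hdA : ∀ v ∈ DA, (dg G (Finset.univ \ D') v : ℝ) ≤ X.card + 1 + (3 / 4 + η) * m := by
      intro v hv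
      obtain ⟨hv1, hv2⟩ := (memDA v).1 hv
      have e1 := hdC v
      have e2 := dg_le_card G X v
      have e3 := o1 v hv1
      have e4 := hempty v
      have e5 : dg G (Finset.univ \ D') v ≤ X.card + 1 + dg G (A \ X) v := by omega
      have e6 : dg G (A \ X) v ≤ dg G A₀ v + (A \ A₀).card := by
        have e7 : dg G (A \ X) v ≤ dg G A₀ v + (dg G (A \ A₀) v + (dg G ∅ v + dg G ∅ v)) := by
          refine GA6_sub G _ _ _ _ _ ?_ v
          intro w hw
          rw [Finset.mem_union, Finset.mem_union, Finset.mem_sdiff]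
          by_cases c1 : w ∈ A₀
          · exact Or.inl c1
          · exact Or.inr (Or.inl ⟨(Finset.mem_sdiff.1 hw).1, c1⟩)
        have e8 := dg_le_card G (A \ A₀) v
        omega
      have e9 : 4 * dg G A₀ v < 3 * A₀.card := by
        by_contra hcon
        rw [hD', Finset.mem_sdiff, S.memD] at hv1
        apply hv1.1.2
        rw [S.memB]
        exact ⟨hv1.1.1, not_lt.1 hcon⟩
      have e10 := Finset.card_sdiff_add_card_eq_card S.big.sub
      have f1 : (4 * dg G A₀ v : ℝ) ≤ 3 * A₀.card := by exact_mod_cast e9.le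
      have f2 : ((A \ A₀).card : ℝ) + A₀.card = A.card := by exact_mod_cast e10
      have f3 : (A.card : ℝ) ≤ m := by exact_mod_cast hAm.le
      have f4 : (dg G (Finset.univ \ D') v : ℝ) ≤ X.card + 1 + dg G (A \ X) v := by exact_mod_cast e5
      have f5 : (dg G (A \ X) v : ℝ) ≤ dg G A₀ v + (A \ A₀).card := by exact_mod_cast e6
      have f6 : (A₀.card : ℝ) ≤ m := by exact_mod_cast S.big.core.cardA'.le
      linarith
    have hsum : (∑ w ∈ D', (dg G (Finset.univ \ D') w : ℝ)) ≤ D0.card * (X.card + 2) +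
        DA.card * (X.card + 1 + (3 / 4 + η) * m) := by
      have e0 : (∑ w ∈ D', (dg G (Finset.univ \ D') w : ℝ)) = ∑ w ∈ D0, (dg G (Finset.univ \ D') w : ℝ) +
          ∑ w ∈ DA, (dg G (Finset.univ \ D') w : ℝ) := by
        conv_lhs => rw [hsplit]
        rw [Finset.sum_union hdisj, ← hsplit]
      rw [e0]
      refine add_le_add ?_ ?_
      · refine (Finset.sum_le_card_nsmul D0 _ _ hd0).trans (le_of_eq ?_)
        rw [nsmul_eq_mul]
      · refine (Finset.sum_le_card_nsmul DA _ _ hdA).trans (le_of_eq ?_)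
        rw [nsmul_eq_mul]
    have hmain : 2 * (m - 1) * D'.card ≤ vol G D0 + 2 * D0.card +
        2 * ∑ w ∈ D', dg G (Finset.univ \ D') w := by omega
    have hmain' : 2 * ((m : ℝ) - 1) * (D0.card + DA.card) ≤ vol G D0 + 2 * D0.card +
        2 * ∑ w ∈ D', (dg G (Finset.univ \ D') w : ℝ) := by
      have e1 : ((2 * (m - 1) * D'.card : ℕ) : ℝ) ≤ ((vol G D0 + 2 * D0.card +
        2 * ∑ w ∈ D', dg G (Finset.univ \ D') w : ℕ) : ℝ) := by exact_mod_cast hmain
      rw [hcardD] at e1
      push_cast [Nat.cast_sub hm1] at e1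
      exact e1
    have p0 : (0 : ℝ) ≤ D0.card := Nat.cast_nonneg _
    have pA : (0 : ℝ) ≤ DA.card := Nat.cast_nonneg _
    have q0 : (0 : ℝ) ≤ D0.card * (15 * η * m - X.card) := mul_nonneg p0 (by linarith)
    have qA : (0 : ℝ) ≤ DA.card * (15 * η * m - X.card) := mul_nonneg pA (by linarith)
    have q1 : (0 : ℝ) ≤ D0.card * (η * m - 1000) := mul_nonneg p0 (by linarith)
    have hηm : η * m ≤ m / 10000 := by nlinarith
    have q2 : (0 : ℝ) ≤ DA.card * (m / 10000 - η * m) := mul_nonneg pA (by linarith)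
    have q3 : (0 : ℝ) ≤ DA.card * ((m : ℝ) - 10000000) := mul_nonneg pA (by linarith)
    nlinarith
  · -- the size
    have hBst : (B₀.card : ℝ) - 15 * η * m ≤ (Bst \ X).card := by
      have e1 := Finset.le_card_sdiff X Bst
      have e2 : B₀.card ≤ Bst.card := Finset.card_le_card S.B₀_sub
      have e3 : B₀.card ≤ (Bst \ X).card + X.card := by omega
      have e4 : (B₀.card : ℝ) ≤ (Bst \ X).card + X.card := by exact_mod_cast e3
      linarith
    have hstuck := S.few_stuck hdeg X
    rw [← hD'] at hstuck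
    have hf : ∀ b ∈ (Bst \ X).filter (fun b => ¬ dg G D' b = 0), ∃ v ∈ D0, G.Adj b v := by
      intro b hb
      rw [Finset.mem_filter] at hb
      obtain ⟨v, hv, hbv⟩ := GA5_pos hb.2
      refine ⟨v, (mem0 v).2 ⟨hv, ?_⟩, hbv⟩
      rw [o2 v hv b hb.1 hbv.symm]
      exact Nat.zero_le _
    choose! f hf1 hf2 using hf
    have hinj : ((Bst \ X).filter (fun b => ¬ dg G D' b = 0)).card ≤ D0.card := by
      refine Finset.card_le_card_of_injOn f (fun b hb => hf1 b hb) ?_
      intro b hb c hc hbc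
      by_contra hne
      have hb1 := (Finset.mem_filter.1 hb).1
      have hc1 := (Finset.mem_filter.1 hc).1
      have e1 := o1 (f b) ((mem0 _).1 (hf1 b hb)).1
      have e2 : 1 < ((Bst \ X).filter (fun w => G.Adj (f b) w)).card := by
        refine Finset.one_lt_card.2 ⟨b, Finset.mem_filter.2 ⟨hb1, (hf2 b hb).symm⟩, c,
          Finset.mem_filter.2 ⟨hc1, ?_⟩, hne⟩
        rw [hbc]
        exact (hf2 c hc).symm
      have e3 : dg G (Bst \ X) (f b) = ((Bst \ X).filter (fun w => G.Adj (f b) w)).card := rfl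
      omega
    have hsum := Finset.card_filter_add_card_filter_not (s := Bst \ X) (fun b => dg G D' b = 0)
    have e1 : (Bst \ X).card ≤ D0.card + X.card + 2 * (m - A.card) := by omega
    have e2 : ((Bst \ X).card : ℝ) ≤ D0.card + X.card + 2 * ((m - A.card : ℕ) : ℝ) := by exact_mod_cast e1
    linarith

end TurMod
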