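import Pool.Agent.TurMod.Core

/-!
# Nearly complete graphs: greedy paths and cycles
-/

namespace TurMod

open Finset

variable {V : Type*}

/- MODULE GR0 -/
/-- From a cycle (closed walk) to a list.
PROOF. `c : G.Walk v v` a cycle of length `L`: `l = c.support.tail` has no repetition
(`IsCycle.support_nodup`), length `c.length`, its last element is `v`, and `c.support = v :: l` is a chain
(`Walk.isChain_adj_support` or the like), so `v` is adjacent to the head of `l`. -/
theorem list_of_hasCyc {G : SimpleGraph V} {L : ℕ} (h : HasCyc G L) :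
    ∃ x y l, PathL G x y l ∧ l.length = L ∧ G.Adj y x ∧ 3 ≤ L := by
  obtain ⟨v, c, hc, hL⟩ := h
  have h3 : 3 ≤ L := by
    rw [← hL]
    exact hc.isCircuit.three_le_length
  cases c with
  | nil => simp at hL; omega
  | @cons _ u _ hadj p =>
    have hp := ((SimpleGraph.Walk.cons_isCycle_iff p hadj).1 hc).1
    refine ⟨u, v, p.support, ⟨p.isChain_adj_support, hp.support_nodup, ?_, ?_⟩, ?_, hadj, h3⟩
    · rw [List.head?_eq_some_head p.support_ne_nil, p.head_support]
    · rw [List.getLast?_eq_some_getLast p.support_ne_nil, p.getLast_support]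
    · rw [SimpleGraph.Walk.length_support, ← hL, SimpleGraph.Walk.length_cons]

/- MODULE GR1 -/
private theorem GR1_snoc {G : SimpleGraph V} {x v w : V} {l : List V} (h : PathL G x v l)
    (hvw : G.Adj v w) (hw : w ∉ l) : PathL G x w (l ++ [w]) := by
  obtain ⟨hc, hn, hh, hl⟩ := h
  have hne : l ≠ [] := by rintro rfl; simp at hh
  refine ⟨?_, ?_, ?_, ?_⟩
  · rw [List.isChain_append]
    refine ⟨hc, List.isChain_singleton _, ?_⟩
    intro a ha b hb
    rw [hl] at ha
    simp only [Option.mem_def, Option.some.injEq] at ha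
    simp only [List.head?_cons, Option.mem_def, Option.some.injEq] at hb
    subst ha
    subst hb
    exact hvw
  · rw [List.nodup_append]
    refine ⟨hn, List.nodup_singleton _, ?_⟩
    intro a ha b hb hab
    rw [List.mem_singleton] at hb
    exact hw (hb ▸ hab ▸ ha)
  · rw [List.head?_append_of_ne_nil _ hne]
    exact hh
  · simp

private theorem GR1_used [DecidableEq V] {G : SimpleGraph V} {T : Finset V} {x v : V} {l : List V}
    (h : PathL G x v l) (hx : x ∉ T) : (T ∩ l.toFinset).card + 1 ≤ l.length := by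
  have h1 : T ∩ l.toFinset ⊆ l.toFinset.erase x := by
    intro w hw
    rw [Finset.mem_inter] at hw
    rw [Finset.mem_erase]
    exact ⟨fun h2 => hx (h2 ▸ hw.1), hw.2⟩
  have h2 := Finset.card_le_card h1
  have hxl : x ∈ l.toFinset := List.mem_toFinset.2 h.left_mem
  rw [Finset.card_erase_of_mem hxl, List.toFinset_card_of_nodup h.2.1] at h2
  have h3 : 0 < l.length := List.length_pos_of_ne_nil h.ne_nil
  omega

private theorem GR1_start [DecidableEq V] (G : SimpleGraph V) (T : Finset V) (d : ℕ) (x : V)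
    (hx : x ∉ T) (hdx : T.card ≤ dg G T x + d) (hd : ∀ v ∈ T, T.card ≤ dg G T v + d) (j : ℕ)
    (hj : j + 1 + d ≤ T.card + 1) :
    ∃ v l, PathL G x v l ∧ l.length = j + 1 ∧ (∀ w ∈ l, w = x ∨ w ∈ T) := by
  classical
  induction j with
  | zero =>
    refine ⟨x, [x], ⟨List.isChain_singleton _, List.nodup_singleton _, rfl, rfl⟩, rfl, ?_⟩
    intro w hw
    left
    rwa [List.mem_singleton] at hw
  | succ j ih =>
    obtain ⟨v, l, hl, hlen, hmem⟩ := ih (by omega)
    have hv : T.card ≤ dg G T v + d := by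
      rcases hmem v hl.right_mem with h | h
      · rw [h]; exact hdx
      · exact hd v h
    have hused := GR1_used hl hx
    have h1 : 0 < ((T.filter (fun w => G.Adj v w)) \ (T ∩ l.toFinset)).card := by
      have h2 := Finset.le_card_sdiff (T ∩ l.toFinset) (T.filter (fun w => G.Adj v w))
      have h3 : dg G T v = (T.filter (fun w => G.Adj v w)).card := rfl
      omega
    obtain ⟨w, hw⟩ := Finset.card_pos.1 h1
    rw [Finset.mem_sdiff, Finset.mem_filter, Finset.mem_inter, List.mem_toFinset] at hw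
    have hwl : w ∉ l := fun h => hw.2 ⟨hw.1.1, h⟩
    refine ⟨w, l ++ [w], GR1_snoc hl hw.1.2 hwl, by simp [hlen], ?_⟩
    intro u hu
    rw [List.mem_append, List.mem_singleton] at hu
    rcases hu with hu | hu
    · exact hmem u hu
    · right
      rw [hu]
      exact hw.1.1

/-- GREEDY PATH. Every vertex of `T ∪ {x, y}` is adjacent to all but at most `d` elements of `T` (a vertex of
`T` counts among its own non-neighbours): a path from `x` to `y` with exactly `i` inner vertices, all in `T`.
PROOF. Choose `v_1, …, v_(i-1) ∈ T` one after the other, `v_1 ~ x`, `v_(j+1) ~ v_j`, unused: at least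
`|T| - d - (i - 2) > 0` choices; then `v_i ∈ T` unused, adjacent to `v_(i-1)` (to `x` if `i = 1`) and to `y`:
at least `|T| - 2 d - (i - 1) ≥ 1` choices.  (Induction: for all `j ≤ i - 1` there is a path from `x` with `j`
further vertices in `T`.) -/
theorem greedy_path [DecidableEq V] (G : SimpleGraph V) (T : Finset V) (d : ℕ) (x y : V)
    (hxy : x ≠ y) (hx : x ∉ T) (hy : y ∉ T) (hdx : T.card ≤ dg G T x + d)
    (hdy : T.card ≤ dg G T y + d) (hd : ∀ v ∈ T, T.card ≤ dg G T v + d) (i : ℕ) (hi : 1 ≤ i)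
    (hid : i + 2 * d ≤ T.card) :
    ∃ l, PathL G x y l ∧ l.length = i + 2 ∧ ∀ v ∈ l, v = x ∨ v = y ∨ v ∈ T := by
  classical
  obtain ⟨v, l, hl, hlen, hmem⟩ := GR1_start G T d x hx hdx hd (i - 1) (by omega)
  have hv : T.card ≤ dg G T v + d := by
    rcases hmem v hl.right_mem with h | h
    · rw [h]; exact hdx
    · exact hd v h
  have hused := GR1_used hl hx
  have h1 : 0 < ((T.filter (fun w => G.Adj v w) ∩ T.filter (fun w => G.Adj y w)) \ (T ∩ l.toFinset)).card := by
    have h2 := Finset.le_card_sdiff (T ∩ l.toFinset)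
      (T.filter (fun w => G.Adj v w) ∩ T.filter (fun w => G.Adj y w))
    have h3 : dg G T v = (T.filter (fun w => G.Adj v w)).card := rfl
    have h4 : dg G T y = (T.filter (fun w => G.Adj y w)).card := rfl
    have h5 := Finset.card_union_add_card_inter (T.filter (fun w => G.Adj v w))
      (T.filter (fun w => G.Adj y w))
    have h6 : (T.filter (fun w => G.Adj v w) ∪ T.filter (fun w => G.Adj y w)).card ≤ T.card :=
      Finset.card_le_card (Finset.union_subset (Finset.filter_subset _ _) (Finset.filter_subset _ _))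
    omega
  obtain ⟨w, hw⟩ := Finset.card_pos.1 h1
  rw [Finset.mem_sdiff, Finset.mem_inter, Finset.mem_filter, Finset.mem_filter, Finset.mem_inter,
    List.mem_toFinset] at hw
  have hwl : w ∉ l := fun h => hw.2 ⟨hw.1.1.1, h⟩
  have hl2 := GR1_snoc hl hw.1.1.2 hwl
  have hyl : y ∉ l ++ [w] := by
    intro h
    rw [List.mem_append, List.mem_singleton] at h
    rcases h with h | h
    · rcases hmem y h with h | h
      · exact hxy h.symm
      · exact hy h
    · exact hy (h ▸ hw.1.1.1)
  refine ⟨l ++ [w] ++ [y], GR1_snoc hl2 hw.1.2.2.symm hyl, ?_, ?_⟩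
  · simp only [List.length_append, List.length_singleton]
    omega
  · intro u hu
    rw [List.mem_append, List.mem_append, List.mem_singleton, List.mem_singleton] at hu
    rcases hu with (hu | hu) | hu
    · rcases hmem u hu with h | h
      · exact Or.inl h
      · exact Or.inr (Or.inr h)
    · exact Or.inr (Or.inr (hu ▸ hw.1.1.1))
    · exact Or.inr (Or.inl hu)

/- MODULE GR2 -/
/-- GREEDY CYCLE.
PROOF. `S` has an edge `x ~ y` (`|S| > d`).  `T = S ∖ {x, y}`, `|T| = |S| - 2`; for `v ∈ T`:
`dg T v ≥ dg S v - 2`; for `x` (not its own neighbour) `dg T x ≥ dg S x - 1`, the same for `y`.  So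
`greedy_path` with `i = L - 2` gives a path with `L` vertices from `x` to `y`; `hasCyc_of_list`. -/
theorem greedy_cycle [DecidableEq V] (G : SimpleGraph V) (S : Finset V) (d : ℕ)
    (hd : ∀ v ∈ S, S.card ≤ dg G S v + d) (L : ℕ) (hL : 3 ≤ L) (h : L + 2 * d ≤ S.card) :
    HasCyc G L := by
  classical
  have hS : 0 < S.card := by omega
  obtain ⟨x, hx⟩ := Finset.card_pos.1 hS
  have h1 : 0 < (S.filter (fun w => G.Adj x w)).card := by
    have h2 := hd x hx
    have h3 : dg G S x = (S.filter (fun w => G.Adj x w)).card := rfl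
    omega
  obtain ⟨y, hy⟩ := Finset.card_pos.1 h1
  rw [Finset.mem_filter] at hy
  have hxy : x ≠ y := G.ne_of_adj hy.2
  obtain ⟨T, hT⟩ : ∃ T, T = (S.erase x).erase y := ⟨_, rfl⟩
  have hTc : T.card + 2 = S.card := by
    rw [hT, Finset.card_erase_of_mem (Finset.mem_erase.2 ⟨hxy.symm, hy.1⟩), Finset.card_erase_of_mem hx]
    omega
  have hsub : ∀ v, dg G S v ≤ dg G T v + (if G.Adj v x then 1 else 0) + (if G.Adj v y then 1 else 0) := by
    intro v
    have h2 : S.filter (fun w => G.Adj v w) ⊆ T.filter (fun w => G.Adj v w) ∪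
        ((if G.Adj v x then {x} else ∅) ∪ (if G.Adj v y then {y} else ∅)) := by
      intro w hw
      rw [Finset.mem_filter] at hw
      rw [Finset.mem_union, Finset.mem_union, Finset.mem_filter, hT, Finset.mem_erase, Finset.mem_erase]
      by_cases h3 : w = y
      · right; right
        rw [h3] at hw
        rw [if_pos hw.2, h3]
        exact Finset.mem_singleton_self _
      · by_cases h4 : w = x
        · right; left
          rw [h4] at hw
          rw [if_pos hw.2, h4]
          exact Finset.mem_singleton_self _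
        · left
          exact ⟨⟨h3, h4, hw.1⟩, hw.2⟩
    have h3 := Finset.card_le_card h2
    have h4 := Finset.card_union_le (T.filter (fun w => G.Adj v w))
      ((if G.Adj v x then {x} else ∅) ∪ (if G.Adj v y then {y} else ∅))
    have h5 := Finset.card_union_le (if G.Adj v x then ({x} : Finset V) else ∅)
      (if G.Adj v y then {y} else ∅)
    have h6 : (if G.Adj v x then ({x} : Finset V) else ∅).card = if G.Adj v x then 1 else 0 := by
      split_ifs <;> simp
    have h7 : (if G.Adj v y then ({y} : Finset V) else ∅).card = if G.Adj v y then 1 else 0 := by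
      split_ifs <;> simp
    have h8 : dg G S v = (S.filter (fun w => G.Adj v w)).card := rfl
    have h9 : dg G T v = (T.filter (fun w => G.Adj v w)).card := rfl
    omega
  have hxT : x ∉ T := by rw [hT]; simp
  have hyT : y ∉ T := by rw [hT]; simp
  obtain ⟨l, hl, hlen, -⟩ := greedy_path G T d x y hxy hxT hyT (by
    have h2 := hsub x
    have h3 := hd x hx
    rw [if_neg G.irrefl, if_pos hy.2] at h2
    omega) (by
    have h2 := hsub y
    have h3 := hd y hy.1
    rw [if_neg G.irrefl, if_pos hy.2.symm] at h2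
    omega) (by
    intro v hv
    have hvS : v ∈ S := by
      rw [hT] at hv
      exact Finset.mem_of_mem_erase (Finset.mem_of_mem_erase hv)
    have h2 := hsub v
    have h3 := hd v hvS
    have h4 : (if G.Adj v x then 1 else 0) ≤ 1 := by split_ifs <;> simp
    have h5 : (if G.Adj v y then 1 else 0) ≤ 1 := by split_ifs <;> simp
    omega) (L - 2) (by omega) (by omega)
  have h2 : l.length = L := by omega
  have h3 := hasCyc_of_list hl (by omega) hy.2.symm
  rwa [h2] at h3

/- MODULE GR3 -/
/-- FEW MISSING PAIRS.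
PROOF. `S' = {v ∈ S : |S| ≤ dg S v + x}`.  `∑_(v ∈ S) (|S| - dg S v) = |S|² - vol S ≤ x²`, all terms are `≥ 0`,
and those of `S ∖ S'` are `> x`; so `|S ∖ S'| x ≤ x²`.  For `v ∈ S'` and `T ⊆ S`:
`|T| - dg T v ≤ |S| - dg S v ≤ x` (the non-neighbours of `v` in `T` are non-neighbours in `S`). -/
theorem few_missing [DecidableEq V] (G : SimpleGraph V) (S : Finset V) (x : ℝ) (hx : 0 < x)
    (h : (S.card : ℝ) ^ 2 ≤ (vol G S : ℝ) + x ^ 2) :
    ∃ S' ⊆ S, ((S \ S').card : ℝ) ≤ x ∧ ∀ v ∈ S', ∀ T ⊆ S, (T.card : ℝ) ≤ (dg G T v : ℝ) + x := by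
  classical
  have hdg : ∀ T ⊆ S, ∀ v, (T.card : ℝ) - dg G T v ≤ (S.card : ℝ) - dg G S v := by
    intro T hTS v
    have h1 : T.card = (T.filter (fun w => G.Adj v w)).card + (T.filter (fun w => ¬ G.Adj v w)).card :=
      (Finset.card_filter_add_card_filter_not _).symm
    have h2 : S.card = (S.filter (fun w => G.Adj v w)).card + (S.filter (fun w => ¬ G.Adj v w)).card :=
      (Finset.card_filter_add_card_filter_not _).symm
    have h3 : (T.filter (fun w => ¬ G.Adj v w)).card ≤ (S.filter (fun w => ¬ G.Adj v w)).card :=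
      Finset.card_le_card (Finset.filter_subset_filter _ hTS)
    have h4 : dg G S v = (S.filter (fun w => G.Adj v w)).card := rfl
    have h5 : dg G T v = (T.filter (fun w => G.Adj v w)).card := rfl
    have h6 : T.card + dg G S v ≤ S.card + dg G T v := by omega
    have h7 : (T.card : ℝ) + dg G S v ≤ S.card + dg G T v := by exact_mod_cast h6
    linarith
  refine ⟨S.filter (fun v => (S.card : ℝ) ≤ (dg G S v : ℝ) + x), Finset.filter_subset _ _, ?_, ?_⟩
  · have h1 : ∑ v ∈ S, ((S.card : ℝ) - dg G S v) ≤ x ^ 2 := by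
      rw [Finset.sum_sub_distrib, Finset.sum_const, nsmul_eq_mul]
      have h2 : (∑ v ∈ S, (dg G S v : ℝ)) = (vol G S : ℝ) := by
        unfold vol
        push_cast
        rfl
      rw [h2]
      nlinarith
    have h2 : S \ S.filter (fun v => (S.card : ℝ) ≤ (dg G S v : ℝ) + x) ⊆ S := Finset.sdiff_subset
    have h3 : ∑ v ∈ S \ S.filter (fun v => (S.card : ℝ) ≤ (dg G S v : ℝ) + x), ((S.card : ℝ) - dg G S v) ≤
        ∑ v ∈ S, ((S.card : ℝ) - dg G S v) := by
      refine Finset.sum_le_sum_of_subset_of_nonneg h2 fun v _ _ => ?_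
      have : (dg G S v : ℝ) ≤ S.card := by exact_mod_cast dg_le_card G S v
      linarith
    have h4 : ((S \ S.filter (fun v => (S.card : ℝ) ≤ (dg G S v : ℝ) + x)).card : ℝ) * x ≤
        ∑ v ∈ S \ S.filter (fun v => (S.card : ℝ) ≤ (dg G S v : ℝ) + x), ((S.card : ℝ) - dg G S v) := by
      rw [← nsmul_eq_mul]
      refine Finset.card_nsmul_le_sum _ _ _ fun v hv => ?_
      rw [Finset.mem_sdiff, Finset.mem_filter] at hv
      have h5 : ¬ ((S.card : ℝ) ≤ (dg G S v : ℝ) + x) := fun h6 => hv.2 ⟨hv.1, h6⟩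
      linarith
    have h5 : ((S \ S.filter (fun v => (S.card : ℝ) ≤ (dg G S v : ℝ) + x)).card : ℝ) * x ≤ x * x := by
      have := h4.trans (h3.trans h1)
      rwa [sq] at this
    exact le_of_mul_le_mul_right h5 hx
  · intro v hv T hT
    rw [Finset.mem_filter] at hv
    have h1 := hdg T hT v
    linarith [hv.2]

/- MODULE GR4 -/
/-- A dense graph with at most `2 m` vertices has all cycles up to the length `m`.
PROOF. `c = |S|`, `m / 2 ≤ c ≤ 2 m`, `t ≤ m/1000 ≤ c/500`.  `vol ≥ (199/100) m (c - t) ≥ (199/100)(499/500) m c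
≥ 1.986 m c ≥ 0.993 c²`.  Also `vol ≤ c (c - 1) < c²` (`vol_le`), so `c ≥ 1.98 m`.  `few_missing` with
`x = c/11` (`1 - 1/121 ≤ 0.993`): `S'` with `|S'| ≥ (10/11) c ≥ 1.8 m`, every `v ∈ S'` has
`|S'| ≤ dg S' v + c/11`.  `greedy_cycle` for `S'` with `d = ⌈c/11⌉ ≤ 2 m/11 + 1`:
`l + 2 d ≤ m + 4 m/11 + 2 ≤ 1.8 m`. -/
theorem dense_small [DecidableEq V] (G : SimpleGraph V) (m t : ℕ) (S : Finset V)
    (h1 : S.card ≤ 2 * m) (h2 : m ≤ 2 * S.card) (ht : 1000 * (t + 1) ≤ m)
    (hvol : 2 * (1 - 1 / 200 : ℝ) * m * ((S.card : ℝ) - t) ≤ (vol G S : ℝ)) (l : ℕ) (h3 : 3 ≤ l)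
    (hl : l ≤ m) : HasCyc G l := by
  classical
  have hm : (1000 : ℝ) * (t + 1) ≤ m := by exact_mod_cast ht
  have ht0 : (0 : ℝ) ≤ t := Nat.cast_nonneg t
  have hc1 : (S.card : ℝ) ≤ 2 * m := by exact_mod_cast h1
  have hc2 : (m : ℝ) ≤ 2 * S.card := by exact_mod_cast h2
  have hm0 : (0 : ℝ) < m := by linarith
  have hc0 : (0 : ℝ) < S.card := by linarith
  have htc : (t : ℝ) ≤ S.card / 500 := by linarith
  have hv1 : (1.986 : ℝ) * m * S.card ≤ (vol G S : ℝ) := by
    refine le_trans ?_ hvol
    have e1 : 2 * (1 - 1 / 200 : ℝ) * m * ((S.card : ℝ) - t) ≥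
        2 * (1 - 1 / 200 : ℝ) * m * ((S.card : ℝ) - S.card / 500) :=
      mul_le_mul_of_nonneg_left (by linarith) (by positivity)
    have e2 : (1.986 : ℝ) * m * S.card ≤ 2 * (1 - 1 / 200 : ℝ) * m * ((S.card : ℝ) - S.card / 500) := by
      have : 0 < (m : ℝ) * S.card := by positivity
      nlinarith
    linarith
  have hv2 : (vol G S : ℝ) ≤ (S.card : ℝ) ^ 2 := by
    have e1 := vol_le G S
    have e2 : S.card * (S.card - 1) ≤ S.card ^ 2 := by
      rw [sq]
      exact Nat.mul_le_mul_left _ (Nat.sub_le _ _)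
    exact_mod_cast e1.trans e2
  have hc3 : (1.986 : ℝ) * m ≤ S.card := by
    have e1 : (1.986 : ℝ) * m * S.card ≤ S.card * S.card := by
      have := hv1.trans hv2
      rwa [sq] at this
    exact le_of_mul_le_mul_right e1 hc0
  obtain ⟨S', hS', hc4, hdS⟩ := few_missing G S ((S.card : ℝ) / 11) (by positivity) (by nlinarith)
  have hc5 : (S.card : ℝ) = S'.card + (S \ S').card := by
    have := Finset.card_sdiff_add_card_eq_card hS'
    have h9 : ((S \ S').card : ℝ) + S'.card = S.card := by exact_mod_cast this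
    linarith
  obtain ⟨d, hd⟩ : ∃ d : ℕ, d = ⌊(S.card : ℝ) / 11⌋₊ := ⟨_, rfl⟩
  have hd1 : (d : ℝ) ≤ S.card / 11 := by
    rw [hd]
    exact Nat.floor_le (by positivity)
  refine greedy_cycle G S' d ?_ l h3 ?_
  · intro v hv
    have e1 := hdS v hv S' hS'
    have e2 : ((S'.card - dg G S' v : ℕ) : ℝ) ≤ S.card / 11 := by
      rcases le_total (S'.card) (dg G S' v) with h | h
      · rw [Nat.sub_eq_zero_of_le h]
        push_cast
        positivity
      · rw [Nat.cast_sub h]
        linarith
    have e3 : S'.card - dg G S' v ≤ d := by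
      rw [hd]
      exact Nat.le_floor e2
    omega
  · have e1 : (l : ℝ) ≤ m := by exact_mod_cast hl
    have e2 : (l : ℝ) + 2 * d ≤ S'.card := by
      have e3 : (S'.card : ℝ) ≥ S.card - S.card / 11 := by linarith
      linarith
    exact_mod_cast e2

end TurMod
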