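import Pool.Agent.TurMod.Code
import Pool.Agent.TurMod.Dense2

/-!
# A core in every graph of average degree almost `2 m`
-/

namespace TurMod

open Finset

universe u

variable {V : Type*}

/- MODULE ST1 -/
private theorem ST1_dg (G : SimpleGraph V) (S : Finset V) (T : Finset S) (v : S) :
    dg G (T.map (Function.Embedding.subtype _)) (v : V) =
      dg (G.comap (fun v : S => (v : V))) T v := by
  classical
  unfold dg
  rw [Finset.filter_map, Finset.card_map]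
  congr 1

/-- PROOF. Unfold `Core`; `dg` of the induced graph in `B` is `dg G` in the image of `B`
(as in `vol_induce`), the cardinalities do not change. -/
theorem core_induce (G : SimpleGraph V) (S : Finset V) (m : ℕ) (η : ℝ) (A B : Finset S)
    (h : Core (G.comap (fun v : S => (v : V))) m η A B) :
    Core G m η (A.map (Function.Embedding.subtype _)) (B.map (Function.Embedding.subtype _)) := by
  refine ⟨?_, ?_, ?_, ?_, ?_⟩
  · rw [Finset.disjoint_map]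
    exact h.disj
  · rw [Finset.card_map]
    exact h.cardA
  · rw [Finset.card_map]
    exact h.cardA'
  · intro a ha
    obtain ⟨w, hw, rfl⟩ := Finset.mem_map.1 ha
    have h1 := ST1_dg G S B w
    rw [Finset.card_map]
    change _ ≤ ((dg G (B.map (Function.Embedding.subtype _)) (w : V) : ℕ) : ℝ)
    rw [h1]
    exact h.dA w hw
  · intro b hb
    obtain ⟨w, hw, rfl⟩ := Finset.mem_map.1 hb
    have h1 := ST1_dg G S A w
    rw [Finset.card_map]
    change _ ≤ ((dg G (A.map (Function.Embedding.subtype _)) (w : V) : ℕ) : ℝ)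
    rw [h1]
    exact h.dB w hw

/-- PROOF. `HasCyc.map`. -/
theorem hasCyc_induce (G : SimpleGraph V) (S : Finset V) (L : ℕ)
    (h : HasCyc (G.comap (fun v : S => (v : V))) L) : HasCyc G L :=
  h.map (fun v : S => (v : V)) Subtype.val_injective fun _ _ h => h

/- MODULE ST2 -/
/-- PIECES.
PROOF. `δ = ε/400`; `hub δ` gives `T`, `t`, `k0`.  `m0` so that `m ≥ k0`, `δ m ≥ 1/2`, `m ≥ 3`.  `max_family` with
`p Y` : `Y` nonempty, `|Y| ≤ 4 k`, `2 (δ k) |Y| ≤ vol G Y` (`M = 4 k`).  If there are `T` disjoint such sets, `hub`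
contradicts the hypothesis.  Otherwise `U` with `|U| ≤ T · 4 k ≤ 8 T m`, and every `Y` with `p Y` meets `U`.
`W = univ ∖ U`; if `W` is empty the claim is trivial.  Otherwise `expansion` for the induced graph on
`W` with `D = δ k` (`vol_induce`): if `vol G W ≥ 50 δ k |W|` there are cycles of the lengths `2 (s + i)`, `i < k`:
contradiction (`f = 2 s`).  So `vol G W < 50 (ε/400) (2 m) |W|`. -/
theorem pieces_split (ε : ℝ) (hε : 0 < ε) (hε1 : ε ≤ 1) :
    ∃ T t m0 : ℕ, ∀ m : ℕ, m0 ≤ m → ∀ k : ℕ, m ≤ k → k ≤ 2 * m →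
      ∀ (V : Type u) [Fintype V] [DecidableEq V] (G : SimpleGraph V), Conn G Finset.univ t →
      (¬ ∃ f : ℕ, ∀ i < k, HasCyc G (f + 2 * i)) →
      ∃ U : Finset V, (U.card : ℝ) ≤ 8 * T * m ∧
        (vol G (Finset.univ \ U) : ℝ) ≤ ε / 4 * m * ((Finset.univ \ U : Finset V).card : ℝ) := by
  classical
  obtain ⟨T, t, k0, hhub⟩ := hub.{u} (ε / 400) (by linarith) (by linarith)
  obtain ⟨m2, hm2⟩ := exists_nat_ge (200 / ε)
  refine ⟨T, t, max k0 (max m2 3), ?_⟩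
  intro m hm k hmk hk2 V _ _ G hconn hno
  have hmk0 : k0 ≤ m := (le_max_left _ _).trans hm
  have hmm2 : m2 ≤ m := (le_max_left _ _).trans ((le_max_right _ _).trans hm)
  have hm3 : 3 ≤ m := (le_max_right _ _).trans ((le_max_right _ _).trans hm)
  have hmr : (1 : ℝ) ≤ (m : ℝ) := by
    have : 1 ≤ m := by omega
    exact_mod_cast this
  have hkr : (m : ℝ) ≤ (k : ℝ) := by exact_mod_cast hmk
  have hkr2 : (k : ℝ) ≤ 2 * (m : ℝ) := by exact_mod_cast hk2
  set δ : ℝ := ε / 400 with hδ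
  have hδ0 : 0 < δ := by positivity
  have hδk : 1 / 2 ≤ δ * k := by
    have h1 : 200 / ε ≤ (k : ℝ) := hm2.trans ((by exact_mod_cast hmm2 : (m2 : ℝ) ≤ m).trans hkr)
    rw [div_le_iff₀ hε] at h1
    rw [hδ]
    linarith
  rcases max_family (fun Y : Finset V => Y.Nonempty ∧ Y.card ≤ 4 * k ∧
      2 * (δ * k) * (Y.card : ℝ) ≤ (vol G Y : ℝ)) T (4 * k) (fun Y hY => ⟨hY.1, hY.2.1⟩) with
    ⟨P, hP, hPd⟩ | ⟨U, hU, hUY⟩
  · exact absurd (hhub k (hmk0.trans hmk) V G hconn P hP hPd) hno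
  refine ⟨U, ?_, ?_⟩
  · have h1 : U.card ≤ T * (4 * (2 * m)) := hU.trans (Nat.mul_le_mul_left _ (by omega))
    have h2 : (U.card : ℝ) ≤ T * (4 * (2 * m)) := by exact_mod_cast h1
    linarith
  obtain ⟨W, hW⟩ : ∃ W : Finset V, W = Finset.univ \ U := ⟨_, rfl⟩
  rw [← hW]
  rcases W.eq_empty_or_nonempty with hemp | hne
  · rw [hemp]
    unfold vol
    simp
  have hWpos : (0 : ℝ) < (W.card : ℝ) := by exact_mod_cast Finset.card_pos.2 hne
  have hmap : (Finset.univ : Finset W).map (Function.Embedding.subtype _) = W := by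
    ext v
    simp
  have hvolW : vol (G.comap (fun v : W => (v : V))) Finset.univ = vol G W := by
    rw [vol_induce, hmap]
  have hcardW : Fintype.card W = W.card := Fintype.card_coe W
  by_contra hcon
  push Not at hcon
  have hbig : 50 * (δ * k) * (W.card : ℝ) ≤ (vol G W : ℝ) := by
    refine le_trans ?_ hcon.le
    have h3 : 50 * (δ * k) ≤ ε / 4 * m := by
      rw [hδ]
      nlinarith
    exact mul_le_mul_of_nonneg_right h3 hWpos.le
  apply hno
  have hne' : Nonempty W := ⟨⟨hne.choose, hne.choose_spec⟩⟩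
  obtain ⟨s, hs⟩ := expansion (G.comap (fun v : W => (v : V))) k (by omega) (δ * k) hδk (by
    intro Y hne hYc
    by_contra hcon
    push Not at hcon
    refine hUY (Y.map (Function.Embedding.subtype _)) ⟨?_, ?_, ?_⟩ ?_
    · exact (Finset.map_nonempty).mpr hne
    · rw [Finset.card_map]
      exact hYc
    · rw [Finset.card_map, ← vol_induce]
      exact hcon
    · rw [Finset.disjoint_left]
      intro v hv hvU
      obtain ⟨w, -, rfl⟩ := Finset.mem_map.mp hv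
      have hw : ∀ x ∈ W, x ∉ U := by
        intro x hx
        rw [hW, Finset.mem_sdiff] at hx
        exact hx.2
      exact hw _ w.2 hvU) (by
    rw [hvolW, hcardW]
    exact hbig)
  refine ⟨2 * s, fun i hi => ?_⟩
  have h1 := (hs i hi).map (H := G) (fun v : W => (v : V)) Subtype.val_injective fun u v h => h
  rwa [mul_add] at h1

/- MODULE ST3 -/
/-- A CORE IN A HIGHLY CONNECTED GRAPH.
PROOF. `ε2 = η²/64`; `pieces_split ε2` gives `T`, `t`; `core_lemma η Cu C2` with `Cu = max 1 (8 T)` gives `Cw`.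
`C1 = max 2 (8 T + max Cw 0 + (4/(3 ε2)) (1 + 32 T²))`, `ε0 = min (1/400) (min (ε2/16) (1/(16 C1)))`, `m0` large (the
`m0` of all lemmas, `m ≥ 1000 (t+1)`).  `n = |V|`, `k = 2 m - l`, `m ≤ k`.
(1) `n ≤ 2 m`: `dense_small` (`S = univ`) gives `HasCyc G l`.
(2) `2 m < n ≤ C1 m`: `dense2` with `ε = 1/(4 C1)`, `C = C1`: `(1 - 2 ε0)(n - t) ≥ (1 + 1/(4 C1))(n - m)` because
the difference is at least `m - t - (1/(4 C1) + 1/(8 C1)) C1 m ≥ m/2 - 3 m/8`.  Contradiction.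
(3) `n > C1 m`: `pieces_split`: `U`, `W = univ ∖ U`, `|U| ≤ 8 T m`, `|W| ≥ (C1 - 8 T) m`.  `vol_union`:
`vol G univ = vol U + vol W + 2 ∑_(w ∈ W) dg U w`, `vol U ≤ |U|² ≤ 64 T² m²`, `vol W ≤ (ε2/4) m |W|`.  So
`∑ dg U w ≥ (1 - 2 ε0) m |W| - m t - 32 T² m² - (ε2/8) m |W| ≥ (1 - ε2) m |W|`, since `2 ε0 ≤ ε2/8` and
`(3/4) ε2 |W| ≥ m + 32 T² m ≥ t + 32 T² m`.  `core_lemma`. -/
theorem struct_conn (η C2 : ℝ) (hη : 0 < η) (hη1 : η ≤ 1 / 4) (hC2 : 4 ≤ C2) :
    ∃ (ε0 : ℝ) (t m0 : ℕ), 0 < ε0 ∧ ε0 ≤ 1 / 400 ∧ ∀ m : ℕ, m0 ≤ m → ∀ l : ℕ, Odd l → 3 ≤ l →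
      l < m → ∀ (V : Type u) [Fintype V] [DecidableEq V] (G : SimpleGraph V),
      Conn G Finset.univ t → m ≤ 2 * Fintype.card V →
      2 * (1 - 2 * ε0) * m * ((Fintype.card V : ℝ) - t) < (vol G Finset.univ : ℝ) →
      ¬ HasCyc G (2 * m) → ¬ HasCyc G l →
      (¬ ∃ f : ℕ, ∀ i < 2 * m - l, HasCyc G (f + 2 * i)) →
      ∃ A0 B0 : Finset V, Core G m η A0 B0 ∧ C2 * m ≤ (B0.card : ℝ) := by
  classical
  obtain ⟨ε2, hε2⟩ : ∃ ε2 : ℝ, ε2 = η ^ 2 / 64 := ⟨_, rfl⟩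
  have hε20 : 0 < ε2 := by rw [hε2]; positivity
  have hε21 : ε2 ≤ 1 := by rw [hε2]; nlinarith
  obtain ⟨T, t, m1, hps⟩ := pieces_split.{u} ε2 hε20 hε21
  have hT0 : (0 : ℝ) ≤ T := Nat.cast_nonneg T
  have ht0 : (0 : ℝ) ≤ t := Nat.cast_nonneg t
  obtain ⟨Cu, hCu⟩ : ∃ Cu : ℝ, Cu = max (1 : ℝ) (8 * (T : ℝ)) := ⟨_, rfl⟩
  have hCu1 : 1 ≤ Cu := by rw [hCu]; exact le_max_left _ _
  have hCu2 : 8 * (T : ℝ) ≤ Cu := by rw [hCu]; exact le_max_right _ _
  obtain ⟨Cw, m2, hcl⟩ := core_lemma.{u} η Cu C2 hη hη1 hCu1 hC2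
  obtain ⟨E, hE⟩ : ∃ E : ℝ, E = 4 / (3 * ε2) * (1 + 32 * T ^ 2) := ⟨_, rfl⟩
  have hE0 : 0 ≤ E := by rw [hE]; positivity
  obtain ⟨C1, hC1⟩ : ∃ C1 : ℝ, C1 = max 2 (8 * T + max Cw 0 + E) := ⟨_, rfl⟩
  have hC12 : 2 ≤ C1 := by rw [hC1]; exact le_max_left _ _
  have hC13 : 8 * T + max Cw 0 + E ≤ C1 := by rw [hC1]; exact le_max_right _ _
  have hCw0 : 0 ≤ max Cw 0 := le_max_right _ _
  have hCw1 : Cw ≤ max Cw 0 := le_max_left _ _
  obtain ⟨ε0, hε0⟩ : ∃ ε0 : ℝ, ε0 = min (1 / 400) (min (ε2 / 16) (1 / (16 * C1))) := ⟨_, rfl⟩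
  have hε01 : 0 < ε0 := by
    rw [hε0]
    exact lt_min (by norm_num) (lt_min (by positivity) (by positivity))
  have hε02 : ε0 ≤ 1 / 400 := by rw [hε0]; exact min_le_left _ _
  have hε03 : ε0 ≤ ε2 / 16 := by rw [hε0]; exact (min_le_right _ _).trans (min_le_left _ _)
  have hε04 : ε0 * (16 * C1) ≤ 1 := by
    have h1 : ε0 ≤ 1 / (16 * C1) := by
      rw [hε0]; exact (min_le_right _ _).trans (min_le_right _ _)
    rwa [le_div_iff₀ (by positivity)] at h1
  obtain ⟨m3, hd2⟩ := dense2.{u} (1 / (4 * C1)) C1 (by positivity) (by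
    rw [div_le_one (by positivity)]
    linarith) (by linarith)
  refine ⟨ε0, t, max (max m1 m2) (max m3 (1000 * (t + 1))), hε01, hε02, ?_⟩
  intro m hm l hl hl3 hlm V _ _ G hconn hn hvol h2m hcl' hno
  have hmm1 : m1 ≤ m := (le_max_left _ _).trans ((le_max_left _ _).trans hm)
  have hmm2 : m2 ≤ m := (le_max_right _ _).trans ((le_max_left _ _).trans hm)
  have hmm3 : m3 ≤ m := (le_max_left _ _).trans ((le_max_right _ _).trans hm)
  have hmt : 1000 * (t + 1) ≤ m := (le_max_right _ _).trans ((le_max_right _ _).trans hm)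
  have hmtr : 1000 * ((t : ℝ) + 1) ≤ m := by exact_mod_cast hmt
  have hmr : (0 : ℝ) < (m : ℝ) := by linarith
  obtain ⟨n, hnn⟩ : ∃ n : ℕ, n = Fintype.card V := ⟨_, rfl⟩
  rw [← hnn] at hn hvol
  have hnr : (m : ℝ) ≤ 2 * (n : ℝ) := by exact_mod_cast hn
  by_cases h1 : n ≤ 2 * m
  · exfalso
    refine hcl' (dense_small G m t Finset.univ ?_ ?_ hmt ?_ l hl3 hlm.le)
    · rw [Finset.card_univ, ← hnn]
      exact h1
    · rw [Finset.card_univ, ← hnn]
      exact hn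
    · rw [Finset.card_univ, ← hnn]
      refine le_trans ?_ hvol.le
      refine mul_le_mul_of_nonneg_right ?_ (by linarith)
      exact mul_le_mul_of_nonneg_right (by linarith) hmr.le
  push Not at h1
  have h1r : 2 * (m : ℝ) < (n : ℝ) := by exact_mod_cast h1
  rcases le_or_gt (n : ℝ) (C1 * m) with h2 | h2
  · exfalso
    have h3 := hd2 m hmm3 l hl hl3 hlm.le V G (by rw [← hnn]; exact h1.le) (by
      rw [← hnn]
      exact h2) (by
      rw [← hnn]
      refine le_trans ?_ hvol.le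
      have h4 : ε0 * ((n : ℝ) - t) ≤ m / 16 := by
        have h5 : ε0 * ((n : ℝ) - t) ≤ ε0 * (C1 * m) :=
          mul_le_mul_of_nonneg_left (by linarith) hε01.le
        have h6 : ε0 * (16 * C1) * m ≤ 1 * m := mul_le_mul_of_nonneg_right hε04 hmr.le
        linarith
      have h7 : 1 / (4 * C1) * ((n : ℝ) - m) ≤ m / 4 := by
        have h8 : 1 / (4 * C1) * ((n : ℝ) - m) ≤ 1 / (4 * C1) * (C1 * m) :=
          mul_le_mul_of_nonneg_left (by linarith) (by positivity)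
        refine h8.trans (le_of_eq ?_)
        field_simp
      have h9 : (1 + 1 / (4 * C1)) * ((n : ℝ) - m) ≤ (1 - 2 * ε0) * ((n : ℝ) - t) := by
        linarith
      calc 2 * (1 + 1 / (4 * C1)) * m * ((n : ℝ) - m)
          = 2 * m * ((1 + 1 / (4 * C1)) * ((n : ℝ) - m)) := by ring
        _ ≤ 2 * m * ((1 - 2 * ε0) * ((n : ℝ) - t)) :=
            mul_le_mul_of_nonneg_left h9 (by linarith)
        _ = 2 * (1 - 2 * ε0) * m * ((n : ℝ) - t) := by ring)
    rcases h3 with h3 | h3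
    · exact h2m h3
    · exact hcl' h3
  obtain ⟨U, hU, hWvol⟩ := hps m hmm1 (2 * m - l) (by omega) (by omega) V G hconn hno
  obtain ⟨W, hW⟩ : ∃ W : Finset V, W = Finset.univ \ U := ⟨_, rfl⟩
  rw [← hW] at hWvol
  have hUW : Disjoint U W := by
    rw [hW]
    exact Finset.disjoint_sdiff
  have hUWu : U ∪ W = Finset.univ := by
    rw [hW]
    exact Finset.union_sdiff_of_subset (Finset.subset_univ U)
  have hcard : (U.card : ℝ) + W.card = n := by
    have h3 : U.card + W.card = n := by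
      rw [← Finset.card_union_of_disjoint hUW, hUWu, Finset.card_univ, hnn]
    exact_mod_cast h3
  have hW1 : (max Cw 0 + E) * m ≤ (W.card : ℝ) := by
    have h3 : (8 * T + max Cw 0 + E) * m ≤ C1 * m := mul_le_mul_of_nonneg_right hC13 hmr.le
    linarith
  have hWCw : Cw * m ≤ (W.card : ℝ) := by
    have h3 : Cw * m ≤ max Cw 0 * m := mul_le_mul_of_nonneg_right hCw1 hmr.le
    have h4 : 0 ≤ E * m := mul_nonneg hE0 hmr.le
    linarith
  have hWE : E * m ≤ (W.card : ℝ) := by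
    have h4 : 0 ≤ max Cw 0 * m := mul_nonneg hCw0 hmr.le
    linarith
  have hWE2 : (1 + 32 * (T : ℝ) ^ 2) * m ≤ 3 / 4 * ε2 * W.card := by
    have h4 : 3 / 4 * ε2 * (E * m) ≤ 3 / 4 * ε2 * W.card :=
      mul_le_mul_of_nonneg_left hWE (by positivity)
    refine le_trans (le_of_eq ?_) h4
    rw [hE]
    field_simp
  have hW0 : (0 : ℝ) ≤ (W.card : ℝ) := Nat.cast_nonneg _
  have hvu := vol_union G U W hUW
  rw [hUWu] at hvu
  have hvu' : (vol G Finset.univ : ℝ) = vol G U + vol G W + 2 * ∑ w ∈ W, (dg G U w : ℝ) := by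
    rw [hvu]
    push_cast
    ring
  have hvU : (vol G U : ℝ) ≤ 64 * T ^ 2 * m ^ 2 := by
    have h2 : vol G U ≤ U.card * U.card := (vol_le G U).trans (Nat.mul_le_mul_left _ (by omega))
    have h3 : (vol G U : ℝ) ≤ (U.card : ℝ) * U.card := by exact_mod_cast h2
    have h4 : (U.card : ℝ) * U.card ≤ (8 * T * m) * (8 * T * m) :=
      mul_le_mul hU hU (Nat.cast_nonneg _) (by positivity)
    calc (vol G U : ℝ) ≤ (U.card : ℝ) * U.card := h3
      _ ≤ (8 * T * m) * (8 * T * m) := h4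
      _ = 64 * T ^ 2 * m ^ 2 := by ring
  obtain ⟨A0, B0, hcore, hB0, -, -⟩ := hcl m hmm2 V G U W hUW (hU.trans (by
    exact mul_le_mul_of_nonneg_right hCu2 hmr.le)) hWCw (by
    rw [← hε2]
    have h3 : 2 * (1 - 2 * ε0) * m * ((W.card : ℝ) - t) ≤
        2 * (1 - 2 * ε0) * m * ((n : ℝ) - t) := by
      refine mul_le_mul_of_nonneg_left ?_ ?_
      · have : (0 : ℝ) ≤ U.card := Nat.cast_nonneg _
        linarith
      · exact mul_nonneg (by linarith) hmr.le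
    have h4 : (m : ℝ) * W.card * (2 * ε0) ≤ (m : ℝ) * W.card * (ε2 / 8) :=
      mul_le_mul_of_nonneg_left (by linarith) (mul_nonneg hmr.le hW0)
    have h5 : (1 + 32 * (T : ℝ) ^ 2) * m * m ≤ 3 / 4 * ε2 * W.card * m :=
      mul_le_mul_of_nonneg_right hWE2 hmr.le
    have h6 : (m : ℝ) * t ≤ m * m := mul_le_mul_of_nonneg_left (by linarith) hmr.le
    have h7 : 0 ≤ ε0 * ((m : ℝ) * t) := mul_nonneg hε01.le (mul_nonneg hmr.le ht0)
    nlinarith) h2m
  exact ⟨A0, B0, hcore, hB0⟩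

/- MODULE ST4 -/
/-- A CORE INSIDE A DENSE SET.
PROOF. `ε0`, `t` from `struct_conn`.  `potential` with `S₀ = S`, `B = 2 (1 - 2 ε0) m`, `t`: `2 t ≤ B/2 + 1`,
`t (t+1) ≤ B` for large `m`; `vol S ≤ |S| (|S| - 1)` gives `|S| > 2 (1 - ε0) m ≥ m ≥ t + 1`;
`B (|S| - t) ≤ B |S| < 2 (1 - ε0) m |S| ≤ vol S`.  We get `S' ⊆ S` with `B (|S'| - t) < vol S'`,
`|S'| > B/2 + 1 ≥ m/2`, `Conn G S' t`.  `struct_conn` for the induced graph on `S'` (`vol_induce` with
`T = univ`, `conn_induce`, `hasCyc_induce`), then `core_induce`. -/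
theorem core_in_set (η C2 : ℝ) (hη : 0 < η) (hη1 : η ≤ 1 / 4) (hC2 : 4 ≤ C2) :
    ∃ (ε0 : ℝ) (m0 : ℕ), 0 < ε0 ∧ ε0 ≤ 1 / 400 ∧ ∀ m : ℕ, m0 ≤ m → ∀ l : ℕ, Odd l → 3 ≤ l →
      l < m → ∀ (V : Type u) (G : SimpleGraph V) (S : Finset V), S.Nonempty →
      2 * (1 - ε0) * m * (S.card : ℝ) ≤ (vol G S : ℝ) →
      ¬ HasCyc G (2 * m) → ¬ HasCyc G l →
      (¬ ∃ f : ℕ, ∀ i < 2 * m - l, HasCyc G (f + 2 * i)) →
      ∃ A0 B0 : Finset V, Core G m η A0 B0 ∧ C2 * m ≤ (B0.card : ℝ) ∧ A0 ⊆ S ∧ B0 ⊆ S := by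
  classical
  obtain ⟨ε0, t, m1, hε0, hε1, hst⟩ := struct_conn.{u} η C2 hη hη1 hC2
  refine ⟨ε0, max m1 (max (4 * t + 4) (t * (t + 1) + 1)), hε0, hε1, ?_⟩
  intro m hm l hl hl3 hlm V G S hS hvol h2m hcl hno
  have hmm1 : m1 ≤ m := (le_max_left _ _).trans hm
  have hmm2 : 4 * t + 4 ≤ m := (le_max_left _ _).trans ((le_max_right _ _).trans hm)
  have hmm3 : t * (t + 1) + 1 ≤ m := (le_max_right _ _).trans ((le_max_right _ _).trans hm)
  have hmm2r : 4 * (t : ℝ) + 4 ≤ m := by exact_mod_cast hmm2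
  have hmm3r : (t : ℝ) * (t + 1) + 1 ≤ m := by exact_mod_cast hmm3
  have ht0 : (0 : ℝ) ≤ t := Nat.cast_nonneg t
  have hmr : (0 : ℝ) < m := by linarith
  have hS1 : 1 ≤ S.card := Finset.card_pos.2 hS
  have hS1r : (1 : ℝ) ≤ (S.card : ℝ) := by exact_mod_cast hS1
  have hbig : 2 * (1 - ε0) * m + 1 ≤ (S.card : ℝ) := by
    have h2 : (vol G S : ℝ) ≤ (S.card : ℝ) * ((S.card : ℝ) - 1) := by
      have h3 : (vol G S : ℝ) ≤ ((S.card * (S.card - 1) : ℕ) : ℝ) := by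
        exact_mod_cast vol_le G S
      rwa [Nat.cast_mul, Nat.cast_sub hS1, Nat.cast_one] at h3
    have h3 : (S.card : ℝ) * (2 * (1 - ε0) * m) ≤ (S.card : ℝ) * ((S.card : ℝ) - 1) := by
      linarith
    have h4 := le_of_mul_le_mul_left h3 (by linarith)
    linarith
  have hεm : ε0 * m ≤ 1 / 400 * m := mul_le_mul_of_nonneg_right hε1 hmr.le
  obtain ⟨S', hS', hvol', -, hcard', hconn'⟩ := potential G S (2 * (1 - 2 * ε0) * m) t
    (by nlinarith) (by nlinarith) (by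
      have h1 : ((t + 1 : ℕ) : ℝ) ≤ (S.card : ℝ) := by
        push_cast
        nlinarith
      exact_mod_cast h1) (by
      refine lt_of_lt_of_le ?_ hvol
      have h1 : 0 ≤ 2 * (1 - 2 * ε0) * m * t :=
        mul_nonneg (mul_nonneg (by linarith) hmr.le) ht0
      have h2 : 0 < ε0 * m * S.card := by positivity
      nlinarith)
  have hmap : (Finset.univ : Finset S').map (Function.Embedding.subtype _) = S' := by
    ext v
    simp
  have hvolS : vol (G.comap (fun v : S' => (v : V))) Finset.univ = vol G S' := by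
    rw [vol_induce, hmap]
  have hcardS : Fintype.card S' = S'.card := Fintype.card_coe S'
  obtain ⟨A0, B0, hcore, hB0⟩ := hst m hmm1 l hl hl3 hlm S' (G.comap (fun v : S' => (v : V)))
    (conn_induce G S' t hconn') (by
      rw [hcardS]
      have h1 : (m : ℝ) ≤ 2 * (S'.card : ℝ) := by nlinarith
      exact_mod_cast h1) (by
      rw [hcardS, hvolS]
      exact hvol') (fun h => h2m (hasCyc_induce G S' _ h)) (fun h => hcl (hasCyc_induce G S' _ h))
    (fun ⟨f, hf⟩ => hno ⟨f, fun i hi => hasCyc_induce G S' _ (hf i hi)⟩)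
  refine ⟨A0.map (Function.Embedding.subtype _), B0.map (Function.Embedding.subtype _),
    core_induce G S' m η A0 B0 hcore, ?_, ?_, ?_⟩
  · rw [Finset.card_map]
    exact hB0
  · intro v hv
    obtain ⟨w, _, rfl⟩ := Finset.mem_map.1 hv
    exact hS' w.2
  · intro v hv
    obtain ⟨w, _, rfl⟩ := Finset.mem_map.1 hv
    exact hS' w.2

end TurMod
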