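import Pool.Agent.TurMod.Core
import Pool.Agent.TurMod.Main

/-!
# Two disjoint cores in a 4-connected graph: cycles in every residue class
-/

namespace TurMod

open Finset

universe u

variable {V : Type*}

/- MODULE TW1 -/
private theorem TW1_cut {G : SimpleGraph V} (Q1 Q2 : Finset V) (l : List V)
    (h : WalkAB G.Adj Q1 Q2 l) :
    ∃ (P : List V) (u v : V), PathL G u v P ∧ u ∈ Q1 ∧ v ∈ Q2 ∧ (∀ x ∈ P, x ∈ Q1 → x = u) ∧
      (∀ x ∈ P, x ∈ Q2 → x = v) ∧ ∀ x ∈ P, x ∈ l := by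
  obtain ⟨hc, ⟨a, ha, ha'⟩, ⟨b, hb, hb'⟩⟩ := h
  obtain ⟨l', h1, h2, h3, h4, h5⟩ := walk_to_path hc ha' hb'
  have hp : PathL G a b l' := ⟨h1, h2, h3, h4⟩
  obtain ⟨u, hu, _, m, hm, hml, hmu, _⟩ := cut_first hp.reverse (fun v => v ∈ Q1)
    ⟨a, List.mem_reverse.2 hp.left_mem, ha⟩
  obtain ⟨v, hv, _, n, hn, hnl, hnv, _⟩ := cut_first hm.reverse (fun v => v ∈ Q2)
    ⟨b, List.mem_reverse.2 hm.left_mem, hb⟩
  refine ⟨n, u, v, hn, hu, hv, ?_, hnv, ?_⟩
  · intro x hx hx1
    exact hmu x (List.mem_reverse.1 (hnl x hx)) hx1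
  · intro x hx
    exact h5 x (List.mem_reverse.1 (hml x (List.mem_reverse.1 (hnl x hx))))

/-- FOUR DISJOINT PATHS between two disjoint sets.
PROOF. `menger_rel` for `r = G.Adj`, `A = Q1`, `B = Q2`, `p = 4`: let `X` be a set with `Sep G.Adj Q1 Q2 X` and suppose
`|X| ≤ 3`; choose `x ∈ Q1 ∖ X`, `y ∈ Q2 ∖ X`; `exists_path_of_conn` gives a path from `x` to `y` avoiding `X`:
contradiction.  So there are four disjoint walks.  Each contains a path (`walk_to_path`), cut it at its last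
vertex in `Q1` and then at the first vertex in `Q2` (`walk_cut_last`, `walk_cut_first`, or `cut_first` for the
path and its reverse): sublists of paths are paths, so all is disjoint.  (Between the last vertex in `Q1`
and the first later vertex in `Q2` there is no further vertex of `Q1 ∪ Q2`.) -/
theorem four_paths [Fintype V] [DecidableEq V] (G : SimpleGraph V) (hconn : Conn G Finset.univ 3)
    (Q1 Q2 : Finset V) (hd : Disjoint Q1 Q2) (h1 : 4 ≤ Q1.card) (h2 : 4 ≤ Q2.card) :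
    ∃ (P : ℕ → List V) (u v : ℕ → V), (∀ j < 4, PathL G (u j) (v j) (P j) ∧ u j ∈ Q1 ∧ v j ∈ Q2 ∧
        (∀ x ∈ P j, x ∈ Q1 → x = u j) ∧ (∀ x ∈ P j, x ∈ Q2 → x = v j)) ∧
      ∀ i < 4, ∀ j < 4, i ≠ j → List.Disjoint (P i) (P j) := by
  obtain ⟨P, hP, hPd⟩ := menger_rel G.Adj Q1 Q2 4 (by
    intro X hX
    by_contra hc
    push Not at hc
    obtain ⟨a, haA, haX⟩ : ∃ a ∈ Q1, a ∉ X := by
      by_contra h
      push Not at h
      have := Finset.card_le_card h
      omega
    obtain ⟨b, hbB, hbX⟩ : ∃ b ∈ Q2, b ∉ X := by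
      by_contra h
      push Not at h
      have := Finset.card_le_card h
      omega
    obtain ⟨l, hl, hlX⟩ := exists_path_of_conn G Finset.univ X 3 hconn (by omega) a b
      (Finset.mem_univ _) haX (Finset.mem_univ _) hbX
    obtain ⟨v, hv, hvX⟩ := hX l ⟨hl.1, ⟨a, haA, hl.2.2.1⟩, ⟨b, hbB, hl.2.2.2⟩⟩
    exact (hlX v hv).2 hvX)
  obtain ⟨w, _⟩ : Q1.Nonempty := Finset.card_pos.1 (by omega)
  have hcut : ∀ j, ∃ (R : List V) (u v : V), j < 4 → (PathL G u v R ∧ u ∈ Q1 ∧ v ∈ Q2 ∧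
      (∀ x ∈ R, x ∈ Q1 → x = u) ∧ (∀ x ∈ R, x ∈ Q2 → x = v) ∧ ∀ x ∈ R, x ∈ P j) := by
    intro j
    by_cases hj : j < 4
    · obtain ⟨R, u, v, hR⟩ := TW1_cut Q1 Q2 (P j) (hP j hj)
      exact ⟨R, u, v, fun _ => hR⟩
    · exact ⟨[], w, w, fun h => absurd h hj⟩
  choose R u v hR using hcut
  refine ⟨R, u, v, fun j hj => ⟨(hR j hj).1, (hR j hj).2.1, (hR j hj).2.2.1, (hR j hj).2.2.2.1,
    (hR j hj).2.2.2.2.1⟩, ?_⟩
  intro i hi j hj hij x hxi hxj
  exact hPd i hi j hj hij ((hR i hi).2.2.2.2.2 x hxi) ((hR j hj).2.2.2.2.2 x hxj)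

/- MODULE TW2 -/
private theorem TW2_greedy [DecidableEq V] (G : SimpleGraph V) (A B : Finset V)
    (hmany : ∀ a ∈ A, 9 ≤ dg G B a) (u : ℕ → V) : ∀ n, n ≤ 4 → ∃ b : ℕ → V,
      (∀ j < n, u j ∈ A → b j ∈ B ∧ G.Adj (u j) (b j) ∧ ∀ i < 4, b j ≠ u i) ∧
      (∀ i < n, ∀ j < n, i ≠ j → u i ∈ A → u j ∈ A → b i ≠ b j) := by
  classical
  intro n
  induction n with
  | zero =>
    intro _
    exact ⟨u, fun j hj => absurd hj (by omega), fun i hi => absurd hi (by omega)⟩
  | succ n ih =>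
    intro hn
    obtain ⟨b, hb1, hb2⟩ := ih (by omega)
    by_cases hu : u n ∈ A
    · have h9 := hmany (u n) hu
      unfold dg at h9
      obtain ⟨w, hw, hwn⟩ : ∃ w ∈ B.filter (fun w => G.Adj (u n) w),
          w ∉ (range 4).image u ∪ (range n).image b := by
        by_contra h
        push Not at h
        have h1 := Finset.card_le_card h
        have h2 : ((range 4).image u ∪ (range n).image b).card ≤ 4 + n := by
          refine (Finset.card_union_le _ _).trans ?_
          have h3 := Finset.card_image_le (s := range 4) (f := u)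
          have h4 := Finset.card_image_le (s := range n) (f := b)
          rw [Finset.card_range] at h3 h4
          omega
        omega
      rw [Finset.mem_filter] at hw
      rw [Finset.mem_union, not_or, Finset.mem_image, Finset.mem_image] at hwn
      refine ⟨fun j => if j = n then w else b j, ?_, ?_⟩
      · intro j hj huj
        by_cases hjn : j = n
        · subst hjn
          simp only [if_true]
          refine ⟨hw.1, hw.2, ?_⟩
          intro i hi h
          exact hwn.1 ⟨i, Finset.mem_range.2 hi, h.symm⟩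
        · simp only [if_neg hjn]
          exact hb1 j (by omega) huj
      · intro i hi j hj hij hui huj
        by_cases hin : i = n
        · subst hin
          have hji : j ≠ i := fun h => hij h.symm
          simp only [if_true, if_neg hji]
          intro h
          exact hwn.2 ⟨j, Finset.mem_range.2 (by omega), h.symm⟩
        · by_cases hjn : j = n
          · subst hjn
            simp only [if_true, if_neg hin]
            intro h
            exact hwn.2 ⟨i, Finset.mem_range.2 (by omega), h⟩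
          · simp only [if_neg hin, if_neg hjn]
            exact hb2 i (by omega) j (by omega) hij hui huj
    · refine ⟨b, ?_, ?_⟩
      · intro j hj huj
        have hjn : j ≠ n := by
          rintro rfl
          exact hu huj
        exact hb1 j (by omega) huj
      · intro i hi j hj hij hui huj
        have hin : i ≠ n := by
          rintro rfl
          exact hu hui
        have hjn : j ≠ n := by
          rintro rfl
          exact hu huj
        exact hb2 i (by omega) j (by omega) hij hui huj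

/-- MOVING THE ENDS INTO `B`.  One side: four disjoint paths starting in `A ∪ B` (and meeting `A ∪ B` only
there) can be prolonged by at most one vertex of `B` so that they start in `B`.
PROOF. If `u j ∈ B` keep the path.  If `u j ∈ A` it has at least `|B|/10 > 8` neighbours in `B`; choose
greedily distinct neighbours `b j ∈ B`, different from all `u i` and from each other, and put `b j` in front.
`b j` is on no path (the paths meet `B` only in the `u i`). -/
theorem ends_to_B [DecidableEq V] (G : SimpleGraph V) (A B : Finset V) (hAB : Disjoint A B)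
    (hmany : ∀ a ∈ A, 9 ≤ dg G B a) (P : ℕ → List V) (u v : ℕ → V)
    (hP : ∀ j < 4, PathL G (u j) (v j) (P j) ∧ u j ∈ A ∪ B ∧ ∀ x ∈ P j, x ∈ A ∪ B → x = u j)
    (hd : ∀ i < 4, ∀ j < 4, i ≠ j → List.Disjoint (P i) (P j)) :
    ∃ (P' : ℕ → List V) (x : ℕ → V), (∀ j < 4, PathL G (x j) (v j) (P' j) ∧ x j ∈ B ∧
        ((A ∪ B) ∩ (P' j).toFinset).card ≤ 2 ∧ (∀ w, w ∉ A ∪ B → (w ∈ P' j ↔ w ∈ P j))) ∧
      ∀ i < 4, ∀ j < 4, i ≠ j → List.Disjoint (P' i) (P' j) := by
  classical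
  obtain ⟨b, hb1, hb2⟩ := TW2_greedy G A B hmany u 4 le_rfl
  refine ⟨fun j => if u j ∈ A then b j :: P j else P j, fun j => if u j ∈ A then b j else u j,
    ?_, ?_⟩
  · intro j hj
    obtain ⟨hp, huj, hx⟩ := hP j hj
    by_cases hu : u j ∈ A
    · obtain ⟨hbB, hadj, hne⟩ := hb1 j hj hu
      have hbP : b j ∉ P j := fun h => hne j hj (hx (b j) h (Finset.mem_union_right _ hbB))
      simp only [if_pos hu]
      refine ⟨⟨?_, ?_, by simp, ?_⟩, hbB, ?_, ?_⟩
      · rw [List.isChain_cons]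
        refine ⟨?_, hp.1⟩
        intro y hy
        rw [hp.2.2.1] at hy
        simp only [Option.mem_def, Option.some.injEq] at hy
        subst hy
        exact hadj.symm
      · exact List.nodup_cons.2 ⟨hbP, hp.2.1⟩
      · rw [List.getLast?_cons_of_ne_nil hp.ne_nil]
        exact hp.2.2.2
      · have hsub : (A ∪ B) ∩ (b j :: P j).toFinset ⊆ {b j, u j} := by
          intro w hw
          rw [Finset.mem_inter, List.mem_toFinset] at hw
          rw [Finset.mem_insert, Finset.mem_singleton]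
          rcases List.mem_cons.1 hw.2 with h | h
          · exact Or.inl h
          · exact Or.inr (hx w h hw.1)
        exact (Finset.card_le_card hsub).trans Finset.card_le_two
      · intro w hw
        rw [List.mem_cons]
        refine ⟨?_, Or.inr⟩
        rintro (h | h)
        · exact absurd (h ▸ Finset.mem_union_right _ hbB) hw
        · exact h
    · simp only [if_neg hu]
      refine ⟨hp, ?_, ?_, fun w _ => trivial⟩
      · rcases Finset.mem_union.1 huj with h | h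
        · exact absurd h hu
        · exact h
      · have hsub : (A ∪ B) ∩ (P j).toFinset ⊆ {u j} := by
          intro w hw
          rw [Finset.mem_inter, List.mem_toFinset] at hw
          rw [Finset.mem_singleton]
          exact hx w hw.2 hw.1
        have := Finset.card_le_card hsub
        rw [Finset.card_singleton] at this
        omega
  · intro i hi j hj hij w hwi hwj
    simp only at hwi hwj
    have key : ∀ i < 4, ∀ j < 4, i ≠ j → u i ∈ A → w = b i → w ∈ P j → False := by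
      intro i hi j hj _ hui hwb hwj
      obtain ⟨hbB, _, hne⟩ := hb1 i hi hui
      have h1 : w ∈ A ∪ B := by
        rw [hwb]
        exact Finset.mem_union_right _ hbB
      have h2 := (hP j hj).2.2 w hwj h1
      exact hne j hj (hwb.symm.trans h2)
    by_cases hui : u i ∈ A
    · rw [if_pos hui] at hwi
      by_cases huj : u j ∈ A
      · rw [if_pos huj] at hwj
        rcases List.mem_cons.1 hwi with h1 | h1
        · rcases List.mem_cons.1 hwj with h2 | h2
          · exact hb2 i hi j hj hij hui huj (h1.symm.trans h2)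
          · exact key i hi j hj hij hui h1 h2
        · rcases List.mem_cons.1 hwj with h2 | h2
          · exact key j hj i hi (Ne.symm hij) huj h2 h1
          · exact hd i hi j hj hij h1 h2
      · rw [if_neg huj] at hwj
        rcases List.mem_cons.1 hwi with h1 | h1
        · exact key i hi j hj hij hui h1 hwj
        · exact hd i hi j hj hij h1 hwj
    · rw [if_neg hui] at hwi
      by_cases huj : u j ∈ A
      · rw [if_pos huj] at hwj
        rcases List.mem_cons.1 hwj with h2 | h2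
        · exact key j hj i hi (Ne.symm hij) huj h2 hwi
        · exact hd i hi j hj hij hwi h2
      · rw [if_neg huj] at hwj
        exact hd i hi j hj hij hwi hwj

/-- PROOF. `four_paths` for `Q1 = A1 ∪ B1`, `Q2 = A2 ∪ B2`, then `ends_to_B` on the first side, and for the
reversed paths on the second side (`PathL.reverse`).  (`w ∉ A ∪ B → ...` shows that the other side is not
changed.)  `dg G B a ≥ |B|/10 ≥ 9`. -/
theorem core_links [Fintype V] [DecidableEq V] (G : SimpleGraph V) (hconn : Conn G Finset.univ 3)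
    (A1 B1 A2 B2 : Finset V) (hd : Disjoint (A1 ∪ B1) (A2 ∪ B2)) (hd1 : Disjoint A1 B1)
    (hd2 : Disjoint A2 B2) (h1 : 4 ≤ B1.card) (h2 : 4 ≤ B2.card) (hm1 : ∀ a ∈ A1, 9 ≤ dg G B1 a)
    (hm2 : ∀ a ∈ A2, 9 ≤ dg G B2 a) :
    ∃ (P : ℕ → List V) (x y : ℕ → V), (∀ j < 4, PathL G (x j) (y j) (P j) ∧ x j ∈ B1 ∧ y j ∈ B2 ∧
        ((A1 ∪ B1) ∩ (P j).toFinset).card ≤ 2 ∧ ((A2 ∪ B2) ∩ (P j).toFinset).card ≤ 2) ∧
      ∀ i < 4, ∀ j < 4, i ≠ j → List.Disjoint (P i) (P j) := by
  classical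
  obtain ⟨P, u, v, hP, hPd⟩ := four_paths G hconn (A1 ∪ B1) (A2 ∪ B2) hd
    (h1.trans (Finset.card_le_card Finset.subset_union_right))
    (h2.trans (Finset.card_le_card Finset.subset_union_right))
  obtain ⟨P1, x, hP1, hP1d⟩ := ends_to_B G A1 B1 hd1 hm1 P u v
    (fun j hj => ⟨(hP j hj).1, (hP j hj).2.1, (hP j hj).2.2.2.1⟩) hPd
  obtain ⟨P2, y, hP2, hP2d⟩ := ends_to_B G A2 B2 hd2 hm2 (fun j => (P1 j).reverse) v x
    (by
      intro j hj
      refine ⟨(hP1 j hj).1.reverse, (hP j hj).2.2.1, ?_⟩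
      intro w hw hw2
      have hw1 : w ∉ A1 ∪ B1 := fun h => Finset.disjoint_left.1 hd h hw2
      exact (hP j hj).2.2.2.2 w (((hP1 j hj).2.2.2 w hw1).1 (List.mem_reverse.1 hw)) hw2)
    (by
      intro i hi j hj hij w hwi hwj
      exact hP1d i hi j hj hij (List.mem_reverse.1 hwi) (List.mem_reverse.1 hwj))
  refine ⟨fun j => (P2 j).reverse, x, y, ?_, ?_⟩
  · intro j hj
    refine ⟨(hP2 j hj).1.reverse, (hP1 j hj).2.1, (hP2 j hj).2.1, ?_, ?_⟩
    · refine le_trans (Finset.card_le_card ?_) (hP1 j hj).2.2.1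
      intro w hw
      rw [Finset.mem_inter, List.mem_toFinset] at hw ⊢
      have hw2 : w ∉ A2 ∪ B2 := fun h => Finset.disjoint_left.1 hd hw.1 h
      exact ⟨hw.1, List.mem_reverse.1 (((hP2 j hj).2.2.2 w hw2).1 (List.mem_reverse.1 hw.2))⟩
    · refine le_trans (Finset.card_le_card ?_) (hP2 j hj).2.2.1
      intro w hw
      rw [Finset.mem_inter, List.mem_toFinset] at hw ⊢
      exact ⟨hw.1, List.mem_reverse.1 hw.2⟩
  · intro i hi j hj hij w hwi hwj
    exact hP2d i hi j hj hij (List.mem_reverse.1 hwi) (List.mem_reverse.1 hwj)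

/- MODULE TW3 -/
private theorem TW3_typ {G : SimpleGraph V} {m : ℕ} {η₀ η : ℝ} {A₀ A B₀ : Finset V}
    (h : Big G m η₀ η A₀ A B₀) {x : V} (hx : x ∈ B₀) : Typ G A₀ x := by
  have h1 := h.core.dB x hx
  have h2 : η ≤ 1 / 10000 := by
    have := h.η_le
    have := h.η₀_le
    linarith
  have h3 : (0 : ℝ) ≤ (A₀.card : ℝ) := Nat.cast_nonneg _
  unfold Typ
  have h4 : (3 : ℝ) * (A₀.card : ℝ) ≤ 4 * (dg G A₀ x : ℝ) := by nlinarith
  exact_mod_cast h4

private theorem TW3_notA {G : SimpleGraph V} {m : ℕ} {η₀ η : ℝ} {A₀ A B₀ : Finset V}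
    (h : Big G m η₀ η A₀ A B₀) {x : V} (hx : x ∈ B₀) : x ∉ A :=
  fun h' => Finset.disjoint_left.1 h.disj h' hx

/-- JOINING TWO PATHS THROUGH A CORE.
PROOF. `core_path` from `x` to `y` (typical: `dB`; not in `A`) with forbidden set `F`: `2 i + 1` vertices, all except
`x`, `y` in `(A ∪ B₀) ∖ F`, hence not on `l`, `l'`.  Glue three paths (`PathL.glue` twice). -/
theorem join_core [DecidableEq V] {G : SimpleGraph V} {m : ℕ} {η₀ η : ℝ} {A₀ A B₀ : Finset V}
    (h : Big G m η₀ η A₀ A B₀) (F : Finset V) (hF : (F.card : ℝ) ≤ η₀ * m / 100) (p x y q : V)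
    (l l' : List V) (hl : PathL G p x l) (hl' : PathL G y q l') (hd : List.Disjoint l l')
    (hx : x ∈ B₀) (hy : y ∈ B₀) (hFl : ∀ v, v ∈ l ∨ v ∈ l' → v ∈ A ∨ v ∈ B₀ → v ∈ F) (i : ℕ)
    (h2 : 2 ≤ i) (hi : i ≤ (A \ F).card) :
    ∃ L, PathL G p q L ∧ L.length + 1 = l.length + l'.length + 2 * i ∧
      ∀ v ∈ L, v ∈ l ∨ v ∈ l' ∨ ((v ∈ A ∨ v ∈ B₀) ∧ v ∉ F) := by
  have hxl : x ∈ l := hl.right_mem
  have hyl : y ∈ l' := hl'.left_mem
  have hxy : x ≠ y := by
    intro hxy
    exact hd hxl (hxy ▸ hyl)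
  obtain ⟨M, hM, hMl, hMv⟩ := core_path h F hF x y hxy (TW3_typ h hx) (TW3_typ h hy)
    (TW3_notA h hx) (TW3_notA h hy) i h2 hi
  have g1 : PathL G p y (l ++ M.tail) := by
    refine hl.glue hM ?_
    intro v hv hvM
    rcases hMv v hvM with h3 | h3 | h3
    · exact h3
    · exact absurd (h3 ▸ hyl) (fun h4 => hd hv h4)
    · exact absurd (hFl v (Or.inl hv) h3.1) h3.2
  have g2 : PathL G p q ((l ++ M.tail) ++ l'.tail) := by
    refine g1.glue hl' ?_
    intro v hv hvl'
    rcases List.mem_append.1 hv with hv | hv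
    · exact absurd hvl' (fun h4 => hd hv h4)
    · rcases hMv v (List.mem_of_mem_tail hv) with h3 | h3 | h3
      · exact absurd hvl' (fun h4 => hd (h3 ▸ hxl) h4)
      · exact h3
      · exact absurd (hFl v (Or.inr hvl') h3.1) h3.2
  refine ⟨_, g2, ?_, ?_⟩
  · have h3 : 0 < l'.length := List.length_pos_of_mem hyl
    rw [List.length_append, List.length_append, List.length_tail, List.length_tail, hMl]
    omega
  · intro v hv
    rcases List.mem_append.1 hv with hv | hv
    · rcases List.mem_append.1 hv with hv | hv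
      · exact Or.inl hv
      · rcases hMv v (List.mem_of_mem_tail hv) with h3 | h3 | h3
        · exact Or.inl (h3 ▸ hxl)
        · exact Or.inr (Or.inl (h3 ▸ hyl))
        · exact Or.inr (Or.inr h3)
    · exact Or.inr (Or.inl (List.mem_of_mem_tail hv))

/-- CLOSING A PATH THROUGH A CORE.
PROOF. `core_path` from `y` to `x`, `hasCyc_of_paths` with two paths. -/
theorem close_core [DecidableEq V] {G : SimpleGraph V} {m : ℕ} {η₀ η : ℝ} {A₀ A B₀ : Finset V}
    (h : Big G m η₀ η A₀ A B₀) (F : Finset V) (hF : (F.card : ℝ) ≤ η₀ * m / 100) (x y : V)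
    (l : List V) (hl : PathL G x y l) (hxy : x ≠ y) (hx : x ∈ B₀) (hy : y ∈ B₀)
    (hFl : ∀ v, v ∈ l → v ∈ A ∨ v ∈ B₀ → v ∈ F) (i : ℕ) (h2 : 2 ≤ i) (hi : i ≤ (A \ F).card) :
    HasCyc G (l.length - 1 + 2 * i) := by
  obtain ⟨M, hM, hMl, hMv⟩ := core_path h F hF y x hxy.symm (TW3_typ h hy) (TW3_typ h hx)
    (TW3_notA h hy) (TW3_notA h hx) i h2 hi
  have hl2 : 2 ≤ l.length := by
    by_contra hlt
    have hxl := hl.left_mem
    have hyl := hl.right_mem
    have h3 : l.length = 1 := by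
      have := List.length_pos_of_mem hxl
      omega
    obtain ⟨a, rfl⟩ := List.length_eq_one_iff.1 h3
    rw [List.mem_singleton] at hxl hyl
    exact hxy (hxl.trans hyl.symm)
  have key := hasCyc_of_paths (G := G) 2 le_rfl (fun j => if j = 1 then y else x)
    (fun j => if j = 0 then l else M)
    (by
      intro j hj
      interval_cases j
      · simpa using hl
      · simpa using hM)
    (by simp)
    (by
      intro j hj
      interval_cases j
      · simpa using hl2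
      · simp only [one_ne_zero, if_false]
        omega)
    (by
      intro a b hab hb v hva hvb
      have hb1 : b = 1 := by omega
      have ha0 : a = 0 := by omega
      subst hb1
      subst ha0
      simp only [if_true, one_ne_zero, if_false] at hva hvb
      rcases hMv v hvb with h3 | h3 | h3
      · left
        exact ⟨rfl, by simpa using h3⟩
      · right
        exact ⟨rfl, rfl, by simpa using h3⟩
      · exact absurd (hFl v hva h3.1) h3.2)
    (by
      rw [Finset.sum_range_succ, Finset.sum_range_one]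
      simp only [if_true, one_ne_zero, if_false]
      omega)
  rw [Finset.sum_range_succ, Finset.sum_range_one] at key
  simp only [if_true, one_ne_zero, if_false] at key
  rw [hMl] at key
  have e : l.length - 1 + (2 * i + 1 - 1) = l.length - 1 + 2 * i := by omega
  rw [e] at key
  exact key

/- MODULE TW4 -/
private theorem TW4_six {G : SimpleGraph V} {m : ℕ} {η₀ η : ℝ} {A₀ A B₀ : Finset V}
    (h : Big G m η₀ η A₀ A B₀) : 6 ≤ A.card := by
  have h1 := h.core.cardA
  have h2 : η ≤ 1 / 10000 := by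
    have := h.η_le
    have := h.η₀_le
    linarith
  have h3 : (1000 : ℝ) ≤ m := by
    refine le_trans ?_ h.large
    rw [le_div_iff₀ h.η_pos]
    nlinarith [h.η_pos]
  have h4 : (6 : ℝ) ≤ (A₀.card : ℝ) := by nlinarith
  have h5 : 6 ≤ A₀.card := by exact_mod_cast h4
  exact h5.trans (Finset.card_le_card h.sub)

/-- CYCLES THROUGH TWO OF THE PATHS.
PROOF. `F2 = (A2 ∪ B2) ∩ (P a ∪ P b)`, at most four elements.  `join_core` in the second core for `P a` (from `x a`
to `y a`) and the reverse of `P b` (from `y b` to `x b`) with `i' ≤ |A2 ∖ F2|`: a path from `x a` to `x b` with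
`|P a| + |P b| + 2 i' - 1` vertices, whose vertices in `A1 ∪ B1` are on `P a`, `P b` (the cores are disjoint): at
most four (`F1`).  `close_core` in the first core with `i ≤ |A1 ∖ F1|`.  Length
`(|P a| - 1) + (|P b| - 1) + 2 (i + i')`; write `s = i + i'` with `2 ≤ i ≤ |A1| - 4`, `2 ≤ i' ≤ |A2| - 4`. -/
theorem two_path_cycles [DecidableEq V] {G : SimpleGraph V} {m : ℕ} {η₀ η : ℝ}
    {A1 B1 A2 B2 : Finset V} (h1 : Big G m η₀ η A1 A1 B1) (h2 : Big G m η₀ η A2 A2 B2)
    (hd : Disjoint (A1 ∪ B1) (A2 ∪ B2)) (hm : 100 ≤ η₀ * m / 100) (P : ℕ → List V) (x y : ℕ → V)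
    (hP : ∀ j < 4, PathL G (x j) (y j) (P j) ∧ x j ∈ B1 ∧ y j ∈ B2 ∧
        ((A1 ∪ B1) ∩ (P j).toFinset).card ≤ 2 ∧ ((A2 ∪ B2) ∩ (P j).toFinset).card ≤ 2)
    (hdis : ∀ i < 4, ∀ j < 4, i ≠ j → List.Disjoint (P i) (P j)) (a b : ℕ) (ha : a < 4) (hb : b < 4)
    (hab : a ≠ b) (s : ℕ) (hs : 8 ≤ s) (hs2 : s + 30 ≤ A1.card + A2.card) :
    HasCyc G (((P a).length - 1) + ((P b).length - 1) + 2 * s) := by
  have hA1 := TW4_six h1
  have hA2 := TW4_six h2
  obtain ⟨i, i', hii, hi2, hi2', hiA, hiA'⟩ : ∃ i i' : ℕ, s = i + i' ∧ 2 ≤ i ∧ 2 ≤ i' ∧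
      i + 4 ≤ A1.card ∧ i' + 4 ≤ A2.card := by
    by_cases hc : s + 2 ≤ A1.card
    · exact ⟨s - 2, 2, by omega, by omega, le_rfl, by omega, by omega⟩
    · exact ⟨A1.card - 4, s - (A1.card - 4), by omega, by omega, by omega, by omega, by omega⟩
  obtain ⟨pa, xa, ya, ca1, ca2⟩ := hP a ha
  obtain ⟨pb, xb, yb, cb1, cb2⟩ := hP b hb
  have hdab := hdis a ha b hb hab
  set F2 : Finset V := ((A2 ∪ B2) ∩ (P a).toFinset) ∪ ((A2 ∪ B2) ∩ (P b).toFinset) with hF2
  set F1 : Finset V := ((A1 ∪ B1) ∩ (P a).toFinset) ∪ ((A1 ∪ B1) ∩ (P b).toFinset) with hF1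
  have hF2c : F2.card ≤ 4 := (Finset.card_union_le _ _).trans (by omega)
  have hF1c : F1.card ≤ 4 := (Finset.card_union_le _ _).trans (by omega)
  have hF2r : (F2.card : ℝ) ≤ η₀ * m / 100 := by
    have : (F2.card : ℝ) ≤ 4 := by exact_mod_cast hF2c
    linarith
  have hF1r : (F1.card : ℝ) ≤ η₀ * m / 100 := by
    have : (F1.card : ℝ) ≤ 4 := by exact_mod_cast hF1c
    linarith
  have hi2c : i' ≤ (A2 \ F2).card := by
    have := Finset.le_card_sdiff F2 A2
    omega
  have hi1c : i ≤ (A1 \ F1).card := by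
    have := Finset.le_card_sdiff F1 A1
    omega
  obtain ⟨L, hL, hLl, hLv⟩ := join_core h2 F2 hF2r (x a) (y a) (y b) (x b) (P a) (P b).reverse
    pa pb.reverse (fun w hw hw' => hdab hw (List.mem_reverse.1 hw')) ya yb
    (by
      intro v hv hvA
      rw [hF2, Finset.mem_union, Finset.mem_inter, Finset.mem_inter, List.mem_toFinset,
        List.mem_toFinset, Finset.mem_union]
      rcases hv with hv | hv
      · exact Or.inl ⟨hvA, hv⟩
      · exact Or.inr ⟨hvA, List.mem_reverse.1 hv⟩)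
    i' hi2' hi2c
  have hxab : x a ≠ x b := by
    intro h
    exact hdab pa.left_mem (h ▸ pb.left_mem)
  have key := close_core h1 F1 hF1r (x a) (x b) L hL hxab xa xb
    (by
      intro v hv hvA
      rw [hF1, Finset.mem_union, Finset.mem_inter, Finset.mem_inter, List.mem_toFinset,
        List.mem_toFinset, Finset.mem_union]
      rcases hLv v hv with h3 | h3 | h3
      · exact Or.inl ⟨hvA, h3⟩
      · exact Or.inr ⟨hvA, List.mem_reverse.1 h3⟩
      · exact absurd (Finset.mem_union.2 h3.1)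
          (fun h4 => Finset.disjoint_left.1 hd (Finset.mem_union.2 hvA) h4))
    i hi2 hi1c
  have hpa : 0 < (P a).length := List.length_pos_of_mem pa.left_mem
  have hpb : 0 < (P b).length := List.length_pos_of_mem pb.left_mem
  rw [List.length_reverse] at hLl
  have e : L.length - 1 + 2 * i = ((P a).length - 1) + ((P b).length - 1) + 2 * s := by omega
  rw [e] at key
  exact key

/- MODULE TW5 -/
/-- joining two paths through a core, with the list of the vertices of the connection -/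
private theorem TW5_join [DecidableEq V] {G : SimpleGraph V} {m : ℕ} {η₀ η : ℝ} {A₀ A B₀ : Finset V}
    (h : Big G m η₀ η A₀ A B₀) (F : Finset V) (hF : (F.card : ℝ) ≤ η₀ * m / 100) (p x y q : V)
    (l l' : List V) (hl : PathL G p x l) (hl' : PathL G y q l') (hd : List.Disjoint l l')
    (hx : x ∈ B₀) (hy : y ∈ B₀) (hFl : ∀ v, v ∈ l ∨ v ∈ l' → v ∈ A ∨ v ∈ B₀ → v ∈ F) (i : ℕ)
    (h2 : 2 ≤ i) (hi : i ≤ (A \ F).card) :
    ∃ L N : List V, PathL G p q L ∧ L.length + 1 = l.length + l'.length + 2 * i ∧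
      N.length = 2 * i + 1 ∧
      ∀ v ∈ L, v ∈ l ∨ v ∈ l' ∨ (v ∈ N ∧ (v ∈ A ∨ v ∈ B₀) ∧ v ∉ F) := by
  have htyp : ∀ b ∈ B₀, Typ G A₀ b := by
    intro b hb
    have h3 := h.core.dB b hb
    have h4 : η ≤ 1 / 10000 := by
      have := h.η_le
      have := h.η₀_le
      linarith
    have h5 : (3 : ℝ) * A₀.card ≤ 4 * dg G A₀ b := by
      have h6 : η * (A₀.card : ℝ) ≤ 1 / 10000 * (A₀.card : ℝ) :=
        mul_le_mul_of_nonneg_right h4 (Nat.cast_nonneg _)
      have h7 : (0 : ℝ) ≤ (A₀.card : ℝ) := Nat.cast_nonneg _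
      linarith
    unfold Typ
    exact_mod_cast h5
  have hxy : x ≠ y := by
    rintro rfl
    exact hd hl.right_mem hl'.left_mem
  have hnA : ∀ b ∈ B₀, b ∉ A := fun b hb hb' => Finset.disjoint_left.1 h.disj hb' hb
  obtain ⟨N, hN, hNl, hNv⟩ := core_path h F hF x y hxy (htyp x hx) (htyp y hy) (hnA x hx) (hnA y hy) i h2 hi
  have hNF : ∀ v ∈ N, v ∈ l → v = x := by
    intro v hv hvl
    rcases hNv v hv with h3 | h3 | ⟨h3, h4⟩
    · exact h3
    · exfalso
      rw [h3] at hvl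
      exact hd hvl hl'.left_mem
    · exact absurd (hFl v (Or.inl hvl) h3) h4
  have hNF' : ∀ v ∈ N, v ∈ l' → v = y := by
    intro v hv hvl
    rcases hNv v hv with h3 | h3 | ⟨h3, h4⟩
    · exfalso
      rw [h3] at hvl
      exact hd hl.right_mem hvl
    · exact h3
    · exact absurd (hFl v (Or.inr hvl) h3) h4
  have g1 := hl.glue hN (fun v hv hv' => hNF v hv' hv)
  have g2 := g1.glue hl' (by
    intro v hv hv'
    rcases List.mem_append.1 hv with hv | hv
    · exact absurd hv' (fun h3 => hd hv h3)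
    · exact hNF' v (List.mem_of_mem_tail hv) hv')
  refine ⟨(l ++ N.tail) ++ l'.tail, N, g2, ?_, hNl, ?_⟩
  · rw [List.length_append, List.length_append, List.length_tail, List.length_tail, hNl]
    have h3 : 0 < l'.length := List.length_pos_iff.2 hl'.ne_nil
    omega
  · intro v hv
    rcases List.mem_append.1 hv with hv | hv
    · rcases List.mem_append.1 hv with hv | hv
      · exact Or.inl hv
      · have hv' := List.mem_of_mem_tail hv
        rcases hNv v hv' with h3 | h3 | h3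
        · exact Or.inl (h3 ▸ hl.right_mem)
        · exact Or.inr (Or.inl (h3 ▸ hl'.left_mem))
        · exact Or.inr (Or.inr ⟨hv', h3⟩)
    · exact Or.inr (Or.inl (List.mem_of_mem_tail hv))

private theorem TW5_small [DecidableEq V] (A B : Finset V) (P : ℕ → List V)
    (h : ∀ j < 4, ((A ∪ B) ∩ (P j).toFinset).card ≤ 2) :
    ((A ∪ B) ∩ ((P 0).toFinset ∪ (P 1).toFinset ∪ (P 2).toFinset ∪ (P 3).toFinset)).card ≤ 8 := by
  rw [Finset.inter_union_distrib_left, Finset.inter_union_distrib_left, Finset.inter_union_distrib_left]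
  have h0 := h 0 (by norm_num)
  have h1 := h 1 (by norm_num)
  have h2 := h 2 (by norm_num)
  have h3 := h 3 (by norm_num)
  have u1 := Finset.card_union_le (((A ∪ B) ∩ (P 0).toFinset) ∪ ((A ∪ B) ∩ (P 1).toFinset) ∪
    ((A ∪ B) ∩ (P 2).toFinset)) ((A ∪ B) ∩ (P 3).toFinset)
  have u2 := Finset.card_union_le (((A ∪ B) ∩ (P 0).toFinset) ∪ ((A ∪ B) ∩ (P 1).toFinset))
    ((A ∪ B) ∩ (P 2).toFinset)
  have u3 := Finset.card_union_le ((A ∪ B) ∩ (P 0).toFinset) ((A ∪ B) ∩ (P 1).toFinset)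
  omega

private theorem TW5_cardF [DecidableEq V] (F : Finset V) (hF : F.card ≤ 8) (N : List V) (hN : N.length = 2 * 2 + 1) :
    (F ∪ N.toFinset).card ≤ 13 := by
  have h1 := Finset.card_union_le F N.toFinset
  have h2 := List.toFinset_card_le N
  omega

private theorem TW5_large {G : SimpleGraph V} {m : ℕ} {η₀ η : ℝ} {A B : Finset V}
    (h : Big G m η₀ η A A B) : 30 ≤ A.card := by
  have h1 := h.core.cardA
  have h2 : η ≤ 1 / 10000 := by
    have := h.η_le
    have := h.η₀_le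
    linarith
  have h3 : (1000 : ℝ) ≤ m := by
    refine le_trans ?_ h.large
    rw [le_div_iff₀ h.η_pos]
    linarith
  have h4 : η * (m : ℝ) ≤ 1 / 10000 * m := mul_le_mul_of_nonneg_right h2 (Nat.cast_nonneg _)
  have h5 : (30 : ℝ) ≤ (A.card : ℝ) := by linarith
  exact_mod_cast h5

private theorem TW5_sdiff [DecidableEq V] (A F : Finset V) : A.card ≤ (A \ F).card + F.card := by
  have h := Finset.le_card_sdiff F A
  omega

/-- CYCLES THROUGH ALL FOUR PATHS.
PROOF. `F2` = all vertices of `A2 ∪ B2` on the four paths (at most 8).  (i) `join_core` in core 2 for `P 0` and the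
reverse of `P 1` with `i = 2`: path `L01` from `x 0` to `x 1`, `|L01| + 1 = |P 0| + |P 1| + 4`, three new vertices.
(ii) `join_core` in core 2 for `P 2` and the reverse of `P 3` with `i'`, forbidden `F2` and the three new
vertices (at most 11): path `L23` from `x 2` to `x 3`, disjoint from `L01`.  (iii) `join_core` in core 1 for `L01`
(end `x 1`) and `L23` (start `x 2`) with `i = 2`, forbidden: the at most 8 vertices of `A1 ∪ B1` on the four paths:
path `L` from `x 0` to `x 3`.  (iv) `close_core` in core 1 with `i`, forbidden at most 11 vertices.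
Length: `∑ (|P j| - 1) + 2 (2 + i' + 2 + i)`, `s = 4 + i + i'`, `2 ≤ i' ≤ |A2| - 11`, `2 ≤ i ≤ |A1| - 11`. -/
theorem four_path_cycles [DecidableEq V] {G : SimpleGraph V} {m : ℕ} {η₀ η : ℝ}
    {A1 B1 A2 B2 : Finset V} (h1 : Big G m η₀ η A1 A1 B1) (h2 : Big G m η₀ η A2 A2 B2)
    (hd : Disjoint (A1 ∪ B1) (A2 ∪ B2)) (hm : 100 ≤ η₀ * m / 100) (P : ℕ → List V) (x y : ℕ → V)
    (hP : ∀ j < 4, PathL G (x j) (y j) (P j) ∧ x j ∈ B1 ∧ y j ∈ B2 ∧
        ((A1 ∪ B1) ∩ (P j).toFinset).card ≤ 2 ∧ ((A2 ∪ B2) ∩ (P j).toFinset).card ≤ 2)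
    (hdis : ∀ i < 4, ∀ j < 4, i ≠ j → List.Disjoint (P i) (P j)) (s : ℕ) (hs : 8 ≤ s)
    (hs2 : s + 30 ≤ A1.card + A2.card) :
    HasCyc G (((P 0).length - 1) + ((P 1).length - 1) + ((P 2).length - 1) + ((P 3).length - 1) +
      2 * s) := by
  obtain ⟨U, hU⟩ : ∃ U : Finset V, U = (P 0).toFinset ∪ (P 1).toFinset ∪ (P 2).toFinset ∪ (P 3).toFinset := ⟨_, rfl⟩
  have hUm : ∀ v, v ∈ U ↔ v ∈ P 0 ∨ v ∈ P 1 ∨ v ∈ P 2 ∨ v ∈ P 3 := by
    intro v
    rw [hU]
    simp only [Finset.mem_union, List.mem_toFinset]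
    tauto
  have hF1 : ((A1 ∪ B1) ∩ U).card ≤ 8 := by
    rw [hU]
    exact TW5_small A1 B1 P (fun j hj => (hP j hj).2.2.2.1)
  have hF2 : ((A2 ∪ B2) ∩ U).card ≤ 8 := by
    rw [hU]
    exact TW5_small A2 B2 P (fun j hj => (hP j hj).2.2.2.2)
  have hmem1 : ∀ v, v ∈ U → v ∈ A1 ∨ v ∈ B1 → v ∈ (A1 ∪ B1) ∩ U := fun v hv hv' =>
    Finset.mem_inter.2 ⟨Finset.mem_union.2 hv', hv⟩
  have hmem2 : ∀ v, v ∈ U → v ∈ A2 ∨ v ∈ B2 → v ∈ (A2 ∪ B2) ∩ U := fun v hv hv' =>
    Finset.mem_inter.2 ⟨Finset.mem_union.2 hv', hv⟩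
  have hcores : ∀ v, (v ∈ A2 ∨ v ∈ B2) → ¬ (v ∈ A1 ∨ v ∈ B1) := fun v hv hv' =>
    Finset.disjoint_left.1 hd (Finset.mem_union.2 hv') (Finset.mem_union.2 hv)
  have hsm : ∀ F : Finset V, F.card ≤ 13 → (F.card : ℝ) ≤ η₀ * m / 100 := by
    intro F hF
    have h3 : (F.card : ℝ) ≤ 13 := by exact_mod_cast hF
    linarith
  have hA1 := TW5_large h1
  have hA2 := TW5_large h2
  obtain ⟨P0, x0, y0, -, -⟩ := hP 0 (by norm_num)
  obtain ⟨P1, x1, y1, -, -⟩ := hP 1 (by norm_num)
  obtain ⟨P2, x2, y2, -, -⟩ := hP 2 (by norm_num)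
  obtain ⟨P3, x3, y3, -, -⟩ := hP 3 (by norm_num)
  have d01 := hdis 0 (by norm_num) 1 (by norm_num) (by norm_num)
  have d02 := hdis 0 (by norm_num) 2 (by norm_num) (by norm_num)
  have d03 := hdis 0 (by norm_num) 3 (by norm_num) (by norm_num)
  have d12 := hdis 1 (by norm_num) 2 (by norm_num) (by norm_num)
  have d13 := hdis 1 (by norm_num) 3 (by norm_num) (by norm_num)
  have d23 := hdis 2 (by norm_num) 3 (by norm_num) (by norm_num)
  -- the numbers
  obtain ⟨i, i', hi2, hi'2, hiA, hi'A, hsum⟩ : ∃ i i' : ℕ, 2 ≤ i ∧ 2 ≤ i' ∧ i + 13 ≤ A1.card ∧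
      i' + 13 ≤ A2.card ∧ s = 4 + i + i' := by
    rcases Nat.le_total (s - 6) (A2.card - 13) with h3 | h3
    · exact ⟨2, s - 6, le_rfl, by omega, by omega, by omega, by omega⟩
    · exact ⟨s - 4 - (A2.card - 13), A2.card - 13, by omega, by omega, by omega, by omega, by omega⟩
  -- first connection
  have hs2' := TW5_sdiff A2 ((A2 ∪ B2) ∩ U)
  obtain ⟨L01, N, hL01, hlen01, hNl, hL01v⟩ := TW5_join h2 ((A2 ∪ B2) ∩ U) (hsm _ (by omega))
    (x 0) (y 0) (y 1) (x 1) (P 0) (P 1).reverse P0 P1.reverse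
    (by intro v hv hv'; exact d01 hv (List.mem_reverse.1 hv')) y0 y1
    (by
      intro v hv hv'
      apply hmem2 v _ hv'
      rw [hUm]
      rcases hv with hv | hv
      · exact Or.inl hv
      · exact Or.inr (Or.inl (List.mem_reverse.1 hv))) 2 le_rfl (by omega)
  rw [List.length_reverse] at hlen01
  -- second connection
  have hc2 := TW5_cardF _ hF2 N hNl
  have hs3' := TW5_sdiff A2 ((A2 ∪ B2) ∩ U ∪ N.toFinset)
  obtain ⟨L23, N3, hL23, hlen23, -, hL23v⟩ := TW5_join h2 ((A2 ∪ B2) ∩ U ∪ N.toFinset) (hsm _ hc2)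
    (x 2) (y 2) (y 3) (x 3) (P 2) (P 3).reverse P2 P3.reverse
    (by intro v hv hv'; exact d23 hv (List.mem_reverse.1 hv')) y2 y3
    (by
      intro v hv hv'
      apply Finset.mem_union_left
      apply hmem2 v _ hv'
      rw [hUm]
      rcases hv with hv | hv
      · exact Or.inr (Or.inr (Or.inl hv))
      · exact Or.inr (Or.inr (Or.inr (List.mem_reverse.1 hv)))) i' hi'2 (by omega)
  rw [List.length_reverse] at hlen23
  -- where the vertices are
  have k01 : ∀ v ∈ L01, (v ∈ P 0 ∨ v ∈ P 1) ∨ (v ∈ N ∧ (v ∈ A2 ∨ v ∈ B2) ∧ v ∉ (A2 ∪ B2) ∩ U) := by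
    intro v hv
    rcases hL01v v hv with h3 | h3 | h3
    · exact Or.inl (Or.inl h3)
    · exact Or.inl (Or.inr (List.mem_reverse.1 h3))
    · exact Or.inr h3
  have k23 : ∀ v ∈ L23, (v ∈ P 2 ∨ v ∈ P 3) ∨ ((v ∈ A2 ∨ v ∈ B2) ∧ v ∉ (A2 ∪ B2) ∩ U ∧ v ∉ N) := by
    intro v hv
    rcases hL23v v hv with h3 | h3 | ⟨_, h3, h4⟩
    · exact Or.inl (Or.inl h3)
    · exact Or.inl (Or.inr (List.mem_reverse.1 h3))
    · rw [Finset.mem_union, not_or, List.mem_toFinset] at h4
      exact Or.inr ⟨h3, h4⟩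
  have hdL : List.Disjoint L01 L23 := by
    intro v hv hv'
    rcases k01 v hv with h3 | ⟨h3, h4, h5⟩
    · rcases k23 v hv' with h6 | ⟨h6, h7, h8⟩
      · rcases h3 with h3 | h3 <;> rcases h6 with h6 | h6
        · exact d02 h3 h6
        · exact d03 h3 h6
        · exact d12 h3 h6
        · exact d13 h3 h6
      · refine h7 (hmem2 v ((hUm v).2 ?_) h6)
        rcases h3 with h3 | h3
        · exact Or.inl h3
        · exact Or.inr (Or.inl h3)
    · rcases k23 v hv' with h6 | ⟨h6, h7, h8⟩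
      · refine h5 (hmem2 v ((hUm v).2 ?_) h4)
        rcases h6 with h6 | h6
        · exact Or.inr (Or.inr (Or.inl h6))
        · exact Or.inr (Or.inr (Or.inr h6))
      · exact h8 h3
  have kU : ∀ v, v ∈ L01 ∨ v ∈ L23 → v ∈ A1 ∨ v ∈ B1 → v ∈ (A1 ∪ B1) ∩ U := by
    intro v hv hv'
    apply hmem1 v _ hv'
    rw [hUm]
    rcases hv with hv | hv
    · rcases k01 v hv with h3 | ⟨h3, h4, h5⟩
      · rcases h3 with h3 | h3
        · exact Or.inl h3
        · exact Or.inr (Or.inl h3)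
      · exact absurd hv' (hcores v h4)
    · rcases k23 v hv with h3 | ⟨h3, h4⟩
      · rcases h3 with h3 | h3
        · exact Or.inr (Or.inr (Or.inl h3))
        · exact Or.inr (Or.inr (Or.inr h3))
      · exact absurd hv' (hcores v h3)
  -- third connection
  have hs4' := TW5_sdiff A1 ((A1 ∪ B1) ∩ U)
  obtain ⟨L, N', hL, hlen, hN'l, hLv⟩ := TW5_join h1 ((A1 ∪ B1) ∩ U) (hsm _ (by omega))
    (x 0) (x 1) (x 2) (x 3) L01 L23 hL01 hL23 hdL x1 x2 kU 2 le_rfl (by omega)
  -- closing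
  have hc1 := TW5_cardF _ hF1 N' hN'l
  have hs5' := TW5_sdiff A1 ((A1 ∪ B1) ∩ U ∪ N'.toFinset)
  have hx03 : x 0 ≠ x 3 := by
    intro h3
    exact d03 P0.left_mem (h3 ▸ P3.left_mem)
  have hfin := close_core h1 ((A1 ∪ B1) ∩ U ∪ N'.toFinset) (hsm _ hc1) (x 0) (x 3) L hL hx03 x0 x3
    (by
      intro v hv hv'
      rcases hLv v hv with h3 | h3 | ⟨h3, -, -⟩
      · exact Finset.mem_union_left _ (kU v (Or.inl h3) hv')
      · exact Finset.mem_union_left _ (kU v (Or.inr h3) hv')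
      · exact Finset.mem_union_right _ (List.mem_toFinset.2 h3)) i hi2 (by omega)
  have p0 : 0 < (P 0).length := List.length_pos_iff.2 P0.ne_nil
  have p1 : 0 < (P 1).length := List.length_pos_iff.2 P1.ne_nil
  have p2 : 0 < (P 2).length := List.length_pos_iff.2 P2.ne_nil
  have p3 : 0 < (P 3).length := List.length_pos_iff.2 P3.ne_nil
  have hfinal : L.length - 1 + 2 * i =
      ((P 0).length - 1) + ((P 1).length - 1) + ((P 2).length - 1) + ((P 3).length - 1) + 2 * s := by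
    omega
  rw [← hfinal]
  exact hfin

/- MODULE TW6 -/
/-- THE RESIDUE ARGUMENT.
PROOF. For each `E ∈ {E1, E2, E1 + E2}` there is (`exists_residue` with `f = E + 16`) `s_E = 8 + i`, `i < k`, with
`E + 2 s_E ≡ l mod k`; by hypothesis `s_E > M`; write `s_E = k + 8 - j_E`, `1 ≤ j_E ≤ k + 7 - M`.  Adding the first two
congruences and subtracting the third: `2 (s1 + s2 - s3) ≡ l mod k`, that is `k` divides
`D = l - 16 + 2 (j1 + j2 - j3)` (integers).  `D` is odd, hence not zero, and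
`|D| ≤ l + 16 + 4 (k + 7 - M) < k`: contradiction. -/
theorem residue_two (k l M E1 E2 : ℕ) (hk : Odd k) (hl : Odd l) (hlk : l < k)
    (hM : 3 * k + 44 + l < 4 * M) (h1 : ∀ s, 8 ≤ s → s ≤ M → (E1 + 2 * s) % k ≠ l)
    (h2 : ∀ s, 8 ≤ s → s ≤ M → (E2 + 2 * s) % k ≠ l)
    (h3 : ∀ s, 8 ≤ s → s ≤ M → (E1 + E2 + 2 * s) % k ≠ l) : False := by
  have key : ∀ E : ℕ, (∀ s, 8 ≤ s → s ≤ M → (E + 2 * s) % k ≠ l) →
      ∃ j : ℕ, 1 ≤ j ∧ j + M ≤ k + 7 ∧ ∃ c : ℤ, (E : ℤ) + 2 * ((k : ℤ) + 8 - j) = l + k * c := by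
    intro E hE
    obtain ⟨i, hi, hmod⟩ := exists_residue k hk (E + 16) l
    rw [Nat.mod_eq_of_lt hlk] at hmod
    have h4 : E + 16 + 2 * i = E + 2 * (8 + i) := by ring
    rw [h4] at hmod
    have h5 : M < 8 + i := by
      by_contra hcon
      exact hE (8 + i) (by omega) (by omega) hmod
    refine ⟨k - i, by omega, by omega, ((E + 2 * (8 + i)) / k : ℕ), ?_⟩
    have h6 := Nat.mod_add_div (E + 2 * (8 + i)) k
    rw [hmod] at h6
    have h7 : ((k - i : ℕ) : ℤ) = k - i := by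
      rw [Nat.cast_sub hi.le]
    rw [h7]
    have h8 : ((l + k * ((E + 2 * (8 + i)) / k) : ℕ) : ℤ) = ((E + 2 * (8 + i) : ℕ) : ℤ) := by rw [h6]
    push_cast at h8 ⊢
    linarith
  obtain ⟨j1, hj1, hj1', c1, e1⟩ := key E1 h1
  obtain ⟨j2, hj2, hj2', c2, e2⟩ := key E2 h2
  obtain ⟨j3, hj3, hj3', c3, e3⟩ := key (E1 + E2) h3
  push_cast at e3
  have hD : (l : ℤ) - 16 + 2 * ((j1 : ℤ) + j2 - j3) = k * (2 + c3 - c1 - c2) := by linarith
  obtain ⟨r, hr⟩ := hl
  have h9 : (2 + c3 - c1 - c2) = 0 := by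
    by_contra hne
    rcases lt_or_gt_of_ne hne with h | h
    · have h10 : (k : ℤ) * (2 + c3 - c1 - c2) ≤ k * (-1) := by
        apply mul_le_mul_of_nonneg_left _ (by positivity)
        omega
      omega
    · have h10 : (k : ℤ) * 1 ≤ k * (2 + c3 - c1 - c2) := by
        apply mul_le_mul_of_nonneg_left _ (by positivity)
        omega
      omega
  rw [h9, mul_zero] at hD
  omega

/- MODULE TW7 -/
/-- `Core` is monotone in `η`. PROOF. Immediate. -/
theorem Core.mono {G : SimpleGraph V} {m : ℕ} {η η' : ℝ} {A B : Finset V} (h : Core G m η A B)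
    (hη : η ≤ η') : Core G m η' A B := by
  refine ⟨h.disj, le_trans ?_ h.cardA, h.cardA', fun a ha => le_trans ?_ (h.dA a ha),
    fun b hb => le_trans ?_ (h.dB b hb)⟩
  · exact mul_le_mul_of_nonneg_right (by linarith) (Nat.cast_nonneg _)
  · exact mul_le_mul_of_nonneg_right (by linarith) (Nat.cast_nonneg _)
  · exact mul_le_mul_of_nonneg_right (by linarith) (Nat.cast_nonneg _)

/-- A core with a large `B` gives `Big` with `A = A₀`. PROOF. `many`: `(1 - η) |B| ≥ |B|/10`. -/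
theorem Core.big {G : SimpleGraph V} {m : ℕ} {A B : Finset V} (h : Core G m (1 / 10000) A B)
    (hB : 2 * (m : ℝ) ≤ (B.card : ℝ)) (hm : 10 ^ 7 ≤ m) : Big G m 1 (1 / 10000) A A B := by
  have hmR : (10 : ℝ) ^ 7 ≤ (m : ℝ) := by exact_mod_cast hm
  refine ⟨h, one_pos, le_rfl, by norm_num, by norm_num, ?_, subset_rfl, h.disj, ?_, h.cardA'.le, ?_⟩
  · linarith
  · intro v hv
    have h1 := h.dA v hv
    have h2 : (B.card : ℝ) ≤ 10 * (dg G B v : ℝ) := by
      have h3 : (0 : ℝ) ≤ (B.card : ℝ) := Nat.cast_nonneg _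
      linarith
    exact_mod_cast h2
  · refine le_trans ?_ hmR
    norm_num

private theorem TW7_card {G : SimpleGraph V} {m : ℕ} {A B : Finset V} (h : Core G m (1 / 10000) A B) :
    9999 * m ≤ 10000 * A.card := by
  have h1 := h.cardA
  have h2 : (9999 : ℝ) * m ≤ 10000 * (A.card : ℝ) := by linarith
  exact_mod_cast h2

private theorem TW7_dg {G : SimpleGraph V} {m : ℕ} {A B : Finset V} (h : Core G m (1 / 10000) A B)
    (hB : 2 * (m : ℝ) ≤ (B.card : ℝ)) (hm : 10 ^ 7 ≤ m) : ∀ a ∈ A, 9 ≤ dg G B a := by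
  intro a ha
  have h1 := h.dA a ha
  have hmR : (10 : ℝ) ^ 7 ≤ (m : ℝ) := by exact_mod_cast hm
  have h2 : (9 : ℝ) ≤ (dg G B a : ℝ) := by
    linarith
  exact_mod_cast h2

/-- TWO CORES.
PROOF. `k = 2 m - l` is odd, `l < k`.  Suppose no cycle has length `≡ l mod k`.  `core_links` (`dg G B a ≥ 9`), then
`residue_two` with `E1 = (|P 0| - 1) + (|P 1| - 1)`, `E2 = (|P 2| - 1) + (|P 3| - 1)`, `M = |A1| + |A2| - 30`,
`two_path_cycles` for `(0, 1)`, `(2, 3)`, `four_path_cycles`.
`3 k + 44 + l = 6 m - 2 l + 44 < 4 M`, as `M ≥ 2 (1 - 1/10000) m - 30`, `m ≥ 10^7`. -/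
theorem two_cores (m l : ℕ) (hm : 10 ^ 7 ≤ m) (hl : Odd l) (h3 : 3 ≤ l) (hlm : l < m)
    [Fintype V] [DecidableEq V] (G : SimpleGraph V) (hconn : Conn G Finset.univ 3)
    (A1 B1 A2 B2 : Finset V) (h1 : Core G m (1 / 10000) A1 B1) (h2 : Core G m (1 / 10000) A2 B2)
    (hB1 : 2 * (m : ℝ) ≤ (B1.card : ℝ)) (hB2 : 2 * (m : ℝ) ≤ (B2.card : ℝ))
    (hd : Disjoint (A1 ∪ B1) (A2 ∪ B2)) : ∃ L, HasCyc G L ∧ L % (2 * m - l) = l := by
  by_contra hcon
  have hno : ∀ L, HasCyc G L → L % (2 * m - l) ≠ l := fun L hL h => hcon ⟨L, hL, h⟩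
  have hB1' : 2 * m ≤ B1.card := by exact_mod_cast hB1
  have hB2' : 2 * m ≤ B2.card := by exact_mod_cast hB2
  obtain ⟨P, x, y, hP, hdis⟩ := core_links G hconn A1 B1 A2 B2 hd h1.disj h2.disj (by omega) (by omega)
    (TW7_dg h1 hB1 hm) (TW7_dg h2 hB2 hm)
  have b1 := h1.big hB1 hm
  have b2 := h2.big hB2 hm
  have hmR : (10 : ℝ) ^ 7 ≤ (m : ℝ) := by exact_mod_cast hm
  have hmm : (100 : ℝ) ≤ 1 * m / 100 := by
    linarith
  have c1 := TW7_card h1
  have c2 := TW7_card h2
  refine residue_two (2 * m - l) l (A1.card + A2.card - 30) (((P 0).length - 1) + ((P 1).length - 1))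
    (((P 2).length - 1) + ((P 3).length - 1)) ?_ hl (by omega) ?_ ?_ ?_ ?_
  · obtain ⟨r, hr⟩ := hl
    exact ⟨m - r - 1, by omega⟩
  · norm_num at hm
    omega
  · intro s hs hs2
    exact hno _ (two_path_cycles b1 b2 hd hmm P x y hP hdis 0 1 (by norm_num) (by norm_num)
      (by norm_num) s hs (by omega))
  · intro s hs hs2
    exact hno _ (two_path_cycles b1 b2 hd hmm P x y hP hdis 2 3 (by norm_num) (by norm_num)
      (by norm_num) s hs (by omega))
  · intro s hs hs2
    have h4 := four_path_cycles b1 b2 hd hmm P x y hP hdis s hs (by omega)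
    have h5 : (P 0).length - 1 + ((P 1).length - 1) + ((P 2).length - 1 + ((P 3).length - 1)) + 2 * s =
        ((P 0).length - 1) + ((P 1).length - 1) + ((P 2).length - 1) + ((P 3).length - 1) + 2 * s := by
      omega
    rw [h5]
    exact hno _ h4

end TurMod
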