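import Pool.Agent.TurMod.Gain
import Pool.Agent.TurMod.Struct
import Pool.Agent.TurMod.Two

/-!
# Minimal counterexamples, the exact theorem for `n ≥ C m`, and the final induction
-/

namespace TurMod

open Finset

universe u

variable {V : Type*}

/-- no cycle of a length `≡ l` modulo `k = 2 m - l` -/
def FreeC (G : SimpleGraph V) (m l : ℕ) : Prop := ∀ L, HasCyc G L → L % (2 * m - l) ≠ l

/- MODULE MI1 -/
/-- PROOF. `2 m = (2 m - l) + l`, `l < 2 m - l`; `exists_residue`. -/
theorem FreeC.no {G : SimpleGraph V} {m l : ℕ} (h : FreeC G m l) (hl : Odd l) (hlm : l < m) :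
    ¬ HasCyc G (2 * m) ∧ ¬ HasCyc G l ∧ ¬ ∃ f : ℕ, ∀ i < 2 * m - l, HasCyc G (f + 2 * i) := by
  have hodd : Odd (2 * m - l) := by
    obtain ⟨r, hr⟩ := hl
    exact ⟨m - r - 1, by omega⟩
  refine ⟨fun hc => h _ hc ?_, fun hc => h _ hc ?_, ?_⟩
  · have h1 : 2 * m = l + (2 * m - l) := by omega
    have h2 : (l + (2 * m - l)) % (2 * m - l) = l := by
      rw [Nat.add_mod_right, Nat.mod_eq_of_lt (by omega)]
    rw [← h1] at h2
    exact h2
  · exact Nat.mod_eq_of_lt (by omega)
  · rintro ⟨f, hf⟩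
    obtain ⟨i, hi, hmod⟩ := exists_residue (2 * m - l) hodd f l
    rw [Nat.mod_eq_of_lt (by omega : l < 2 * m - l)] at hmod
    exact h _ (hf i hi) hmod

/-- PROOF. `HasCyc.map`. -/
theorem FreeC.induce {G : SimpleGraph V} {m l : ℕ} (h : FreeC G m l) (p : V → Prop) :
    FreeC (G.comap (fun v : {v // p v} => (v : V))) m l := by
  intro L hL
  exact h L (hL.map (fun v : {v // p v} => (v : V)) Subtype.val_injective (fun u v huv => huv))

/-- PROOF. The elements of `A` have `|V| - |A|` neighbours, the others `|A|`. -/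
theorem KAB.vol [Fintype V] {G : SimpleGraph V} {A : Finset V} (h : KAB G A) :
    vol G Finset.univ = 2 * (A.card * (Fintype.card V - A.card)) := by
  classical
  have hc : ∀ v, dg G Finset.univ v = if v ∈ A then Fintype.card V - A.card else A.card := by
    intro v
    unfold dg
    split_ifs with hv
    · have h1 : (Finset.univ.filter (fun w => G.Adj v w)) = Aᶜ := by
        ext w
        rw [Finset.mem_filter, Finset.mem_compl, h v w]
        constructor
        · rintro ⟨_, ⟨_, h2⟩ | ⟨_, h2⟩⟩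
          · exact h2
          · exact absurd hv h2
        · intro h2
          exact ⟨Finset.mem_univ _, Or.inl ⟨hv, h2⟩⟩
      rw [h1, Finset.card_compl]
    · have h1 : (Finset.univ.filter (fun w => G.Adj v w)) = A := by
        ext w
        rw [Finset.mem_filter, h v w]
        constructor
        · rintro ⟨_, ⟨h2, _⟩ | ⟨h2, _⟩⟩
          · exact absurd h2 hv
          · exact h2
        · intro h2
          exact ⟨Finset.mem_univ _, Or.inr ⟨h2, hv⟩⟩
      rw [h1]
  unfold TurMod.vol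
  rw [Finset.sum_congr rfl (fun v _ => hc v), Finset.sum_ite, Finset.sum_const, Finset.sum_const]
  have h1 : (Finset.univ.filter (fun v => v ∈ A)) = A := by
    ext w
    rw [Finset.mem_filter]
    exact ⟨fun h2 => h2.2, fun h2 => ⟨Finset.mem_univ _, h2⟩⟩
  have h2 : (Finset.univ.filter (fun v => v ∉ A)) = Aᶜ := by
    ext w
    rw [Finset.mem_filter, Finset.mem_compl]
    exact ⟨fun h2 => h2.2, fun h2 => ⟨Finset.mem_univ _, h2⟩⟩
  rw [h1, h2, Finset.card_compl, smul_eq_mul, smul_eq_mul]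
  ring

/- MODULE MI2 -/
open Classical in
private theorem MI2_codeg [DecidableEq V] (G : SimpleGraph V) (A B : Finset V) (v : V) (hv : v ∉ A)
    (hK : ∀ u w, u ≠ v → w ≠ v → (G.Adj u w ↔ ((u ∈ A ∧ w ∉ A) ∨ (w ∈ A ∧ u ∉ A))))
    (hB : ∀ b ∈ B, b ∉ A ∧ b ≠ v) (u w : V) (hu : u ∈ A) (hw : w ∈ A) : codeg G B u w = B.card := by
  unfold codeg
  congr 1
  rw [Finset.filter_eq_self]
  intro b hb
  obtain ⟨h1, h2⟩ := hB b hb
  have hu' : u ≠ v := fun h => hv (h ▸ hu)
  have hw' : w ≠ v := fun h => hv (h ▸ hw)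
  exact ⟨(hK u b hu' h2).2 (Or.inl ⟨hu, h1⟩), (hK w b hw' h2).2 (Or.inl ⟨hw, h1⟩)⟩

private theorem MI2_path [Fintype V] [DecidableEq V] (G : SimpleGraph V) (A B : Finset V) (v : V) (hv : v ∉ A)
    (hK : ∀ u w, u ≠ v → w ≠ v → (G.Adj u w ↔ ((u ∈ A ∧ w ∉ A) ∨ (w ∈ A ∧ u ∉ A))))
    (hB : ∀ b ∈ B, b ∉ A ∧ b ≠ v) (x : V) (t : List V) (hn : (x :: t).Nodup) (hA : ∀ u ∈ x :: t, u ∈ A)
    (hc : (x :: t).length ≤ B.card) :
    ∃ z ∈ A, ∃ L, PathL G x z L ∧ L.length = 2 * (x :: t).length - 1 ∧ ∀ w ∈ L, w ∈ A ∨ w ∈ B := by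
  obtain ⟨z, hz⟩ : ∃ z, (x :: t).getLast? = some z := ⟨_, List.getLast?_eq_some_getLast (by simp)⟩
  have hzm : z ∈ x :: t := List.mem_of_getLast? hz
  have hall : ∀ R : V → V → Prop, (∀ a ∈ x :: t, ∀ b ∈ x :: t, R a b) → (x :: t).IsChain R :=
    fun R h => (List.pairwise_of_forall_mem_list h).isChain
  have hpos : 0 < B.card := lt_of_lt_of_le (by simp) hc
  obtain ⟨L, hL, hLl, hLv⟩ := weave G B Finset.univ (x :: t) hn (by simp)
    (fun w hw hwB => (hB w hwB).1 (hA w hw)) B.card B.card 0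
    (hall _ (fun a ha b hb => (MI2_codeg G A B v hv hK hB a b (hA a ha) (hA b hb)).ge))
    (hall _ (fun a ha b hb _ _ => (MI2_codeg G A B v hv hK hB a b (hA a ha) (hA b hb)).ge))
    (by rw [Finset.sdiff_eq_empty_iff_subset.2 (Finset.subset_univ _), Finset.card_empty])
    (by omega) hc x z (by simp) hz
  refine ⟨z, hA z hzm, L, hL, hLl, fun w hw => ?_⟩
  rcases hLv w hw with h | h
  · exact Or.inl (hA w h)
  · exact Or.inr h

/-- appending one vertex to a path -/
private theorem MI2_snoc {G : SimpleGraph V} {a y c : V} {l : List V} (h : PathL G a y l)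
    (hy : G.Adj y c) (hd : c ∉ l) : PathL G a c (l ++ [c]) := by
  have h1 : PathL G y c [y, c] := by
    refine ⟨by simp [hy], ?_, by simp, by simp⟩
    have h2 : y ≠ c := hy.ne
    simp [h2]
  have h2 := h.glue h1 (by
    intro v hv hv'
    rcases List.mem_cons.1 hv' with h3 | h3
    · exact h3
    · rw [List.mem_singleton] at h3
      exact absurd (h3 ▸ hv) hd)
  exact h2

/-- ADDING A VERTEX TO `K_(a, n-a)`.
PROOF. `a = m - 1 ≥ 3`, `B` = the vertices outside `A`, different from `v`; `|B| ≥ m + 1`.  `v` has exactly `a`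
neighbours.  (i) `v` has a neighbour `x ∈ A` and a neighbour `y ∈ B`: with `i = (l - 1)/2`, `1 ≤ i ≤ a`, take a
list of `i` elements of `A` starting with `x`, `weave` it with `B.erase y` (`codeg ≥ |B| - 1 ≥ i`, `S` = all, `c = 0`):
a path with `2 i - 1` vertices starting in `x`, append `y`, then `v`: a cycle with `2 i + 1 = l` vertices.  (For
`i = 1`: the triangle `v x y`.)  (ii) `v` has two neighbours `y ≠ y'` in `B` (all its neighbours are in `B`,
`a ≥ 2`): a list of all `a` elements of `A`, woven with `B ∖ {y, y'}` (`|B| - 2 ≥ a`): `2 a - 1` vertices; put `y` in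
front, `y'` and `v` at the end: `2 a + 2 = 2 m` vertices.  (iii) All neighbours of `v` are in `A`, so they are
all of `A`: `KAB G A`. -/
theorem kab_extend [Fintype V] [DecidableEq V] (G : SimpleGraph V) (m l : ℕ) (hm : 4 ≤ m)
    (h3 : 3 ≤ l) (hl : Odd l) (hlm : l < m) (A : Finset V) (v : V) (hv : v ∉ A)
    (hA : A.card = m - 1) (hcard : 2 * m + 1 ≤ Fintype.card V)
    (hK : ∀ u w, u ≠ v → w ≠ v → (G.Adj u w ↔ ((u ∈ A ∧ w ∉ A) ∨ (w ∈ A ∧ u ∉ A))))
    (hdv : dg G Finset.univ v = m - 1) (no2m : ¬ HasCyc G (2 * m)) (nol : ¬ HasCyc G l) :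
    KAB G A := by
  classical
  obtain ⟨B, hBdef⟩ : ∃ B : Finset V, B = (Aᶜ).erase v := ⟨_, rfl⟩
  have hBm : ∀ b, b ∈ B ↔ b ∉ A ∧ b ≠ v := by
    intro b
    rw [hBdef, Finset.mem_erase, Finset.mem_compl]
    tauto
  have hBc : m + 1 ≤ B.card := by
    rw [hBdef, Finset.card_erase_of_mem (Finset.mem_compl.2 hv), Finset.card_compl, hA]
    omega
  have hdeg : (Finset.univ.filter (fun w => G.Adj v w)).card = m - 1 := hdv
  -- (i)
  have hi : ¬ ∃ x ∈ A, ∃ y ∈ B, G.Adj v x ∧ G.Adj v y := by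
    rintro ⟨x, hx, y, hy, hvx, hvy⟩
    obtain ⟨r, hr⟩ := hl
    have hr1 : r - 1 ≤ (A.erase x).card := by
      rw [Finset.card_erase_of_mem hx, hA]
      omega
    obtain ⟨T, hT, hTc⟩ := Finset.exists_subset_card_eq hr1
    have hxT : x ∉ T.toList := by
      intro h
      have h1 := hT (Finset.mem_toList.1 h)
      exact Finset.notMem_erase x A h1
    have hlen : (x :: T.toList).length = r := by
      rw [List.length_cons, Finset.length_toList, hTc]
      omega
    have hB' : ∀ b ∈ B.erase y, b ∉ A ∧ b ≠ v := fun b hb => (hBm b).1 (Finset.mem_of_mem_erase hb)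
    obtain ⟨z, hz, L, hL, hLl, hLv⟩ := MI2_path G A (B.erase y) v hv hK hB' x T.toList
      (List.nodup_cons.2 ⟨hxT, Finset.nodup_toList T⟩)
      (by
        intro u hu
        rcases List.mem_cons.1 hu with h | h
        · exact h ▸ hx
        · exact Finset.mem_of_mem_erase (hT (Finset.mem_toList.1 h)))
      (by rw [hlen, Finset.card_erase_of_mem hy]; omega)
    rw [hlen] at hLl
    have hyB := (hBm y).1 hy
    have hyL : y ∉ L := by
      intro h
      rcases hLv y h with h1 | h1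
      · exact hyB.1 h1
      · exact Finset.notMem_erase y B h1
    have hzy : G.Adj z y := (hK z y (fun h => hv (h ▸ hz)) hyB.2).2 (Or.inl ⟨hz, hyB.1⟩)
    have h1 := MI2_snoc hL hzy hyL
    have hvL : v ∉ L ++ [y] := by
      intro h
      rcases List.mem_append.1 h with h | h
      · rcases hLv v h with h2 | h2
        · exact hv h2
        · exact (hB' v h2).2 rfl
      · exact hyB.2 (List.mem_singleton.1 h).symm
    have h2 := MI2_snoc h1 hvy.symm hvL
    have hlen2 : (L ++ [y] ++ [v]).length = l := by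
      rw [List.length_append, List.length_append, hLl]
      simp only [List.length_singleton]
      omega
    have h4 := hasCyc_of_list h2 (by omega) hvx
    rw [hlen2] at h4
    exact nol h4
  -- (ii)
  have hii : ¬ ∃ y ∈ B, ∃ y' ∈ B, y ≠ y' ∧ G.Adj v y ∧ G.Adj v y' := by
    rintro ⟨y, hy, y', hy', hyy, hvy, hvy'⟩
    obtain ⟨x, hx⟩ : A.Nonempty := Finset.card_pos.1 (by omega)
    have hxT : x ∉ (A.erase x).toList := by
      intro h
      exact Finset.notMem_erase x A (Finset.mem_toList.1 h)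
    have hlen : (x :: (A.erase x).toList).length = m - 1 := by
      rw [List.length_cons, Finset.length_toList, Finset.card_erase_of_mem hx, hA]
      omega
    have hB' : ∀ b ∈ (B.erase y).erase y', b ∉ A ∧ b ≠ v := fun b hb =>
      (hBm b).1 (Finset.mem_of_mem_erase (Finset.mem_of_mem_erase hb))
    have hBc' : B.card = ((B.erase y).erase y').card + 2 := by
      rw [Finset.card_erase_of_mem (Finset.mem_erase.2 ⟨hyy.symm, hy'⟩), Finset.card_erase_of_mem hy]
      omega
    obtain ⟨z, hz, L, hL, hLl, hLv⟩ := MI2_path G A ((B.erase y).erase y') v hv hK hB' x (A.erase x).toList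
      (List.nodup_cons.2 ⟨hxT, Finset.nodup_toList _⟩)
      (by
        intro u hu
        rcases List.mem_cons.1 hu with h | h
        · exact h ▸ hx
        · exact Finset.mem_of_mem_erase (Finset.mem_toList.1 h))
      (by rw [hlen]; omega)
    rw [hlen] at hLl
    have hyB := (hBm y).1 hy
    have hyB' := (hBm y').1 hy'
    have hyL : y ∉ L := by
      intro h
      rcases hLv y h with h1 | h1
      · exact hyB.1 h1
      · exact Finset.notMem_erase y B (Finset.mem_of_mem_erase h1)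
    have hyL' : y' ∉ L := by
      intro h
      rcases hLv y' h with h1 | h1
      · exact hyB'.1 h1
      · exact Finset.notMem_erase y' (B.erase y) h1
    have hzy : G.Adj z y' := (hK z y' (fun h => hv (h ▸ hz)) hyB'.2).2 (Or.inl ⟨hz, hyB'.1⟩)
    have hxy : G.Adj x y := (hK x y (fun h => hv (h ▸ hx)) hyB.2).2 (Or.inl ⟨hx, hyB.1⟩)
    have h1 := MI2_snoc hL hzy hyL'
    have h2 := MI2_snoc h1.reverse hxy (by
      intro h
      rw [List.mem_reverse] at h
      rcases List.mem_append.1 h with h | h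
      · exact hyL h
      · exact hyy (List.mem_singleton.1 h))
    have h3 := MI2_snoc h2 hvy.symm (by
      intro h
      rcases List.mem_append.1 h with h | h
      · rw [List.mem_reverse] at h
        rcases List.mem_append.1 h with h | h
        · rcases hLv v h with h4 | h4
          · exact hv h4
          · exact (hB' v h4).2 rfl
        · exact hyB'.2 (List.mem_singleton.1 h).symm
      · exact hyB.2 (List.mem_singleton.1 h).symm)
    have hlen2 : ((L ++ [y']).reverse ++ [y] ++ [v]).length = 2 * m := by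
      rw [List.length_append, List.length_append, List.length_reverse, List.length_append, hLl]
      simp only [List.length_singleton]
      omega
    have h4 := hasCyc_of_list h3 (by omega) hvy'
    rw [hlen2] at h4
    exact no2m h4
  -- (iii)
  have hnb : ∀ w, G.Adj v w → w ∈ A ∨ w ∈ B := by
    intro w hw
    by_cases h : w ∈ A
    · exact Or.inl h
    · exact Or.inr ((hBm w).2 ⟨h, hw.ne'⟩)
  have hnA : ∀ w, G.Adj v w → w ∈ A := by
    by_contra hcon
    push Not at hcon
    obtain ⟨y, hvy, hyA⟩ := hcon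
    have hyB : y ∈ B := (hnb y hvy).resolve_left hyA
    have hsub : (Finset.univ.filter (fun w => G.Adj v w)) ⊆ {y} := by
      intro w hw
      have hw' : G.Adj v w := (Finset.mem_filter.1 hw).2
      rw [Finset.mem_singleton]
      by_contra hne
      rcases hnb w hw' with h | h
      · exact hi ⟨w, h, y, hyB, hw', hvy⟩
      · exact hii ⟨w, h, y, hyB, hne, hw', hvy⟩
    have h1 := Finset.card_le_card hsub
    rw [hdeg, Finset.card_singleton] at h1
    omega
  have heq : (Finset.univ.filter (fun w => G.Adj v w)) = A := by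
    apply Finset.eq_of_subset_of_card_le
    · intro w hw
      exact hnA w (Finset.mem_filter.1 hw).2
    · rw [hdeg, hA]
  have hadj : ∀ w, G.Adj v w ↔ w ∈ A := by
    intro w
    rw [← heq, Finset.mem_filter]
    exact ⟨fun h => ⟨Finset.mem_univ _, h⟩, fun h => h.2⟩
  intro u w
  by_cases hu : u = v
  · rw [hu, hadj]
    constructor
    · intro h
      exact Or.inr ⟨h, hv⟩
    · rintro (h | h)
      · exact absurd h.1 hv
      · exact h.1
  · by_cases hw : w = v
    · rw [hw, SimpleGraph.adj_comm, hadj]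
      constructor
      · intro h
        exact Or.inl ⟨h, hv⟩
      · rintro (h | h)
        · exact h.1
        · exact absurd h.1 hv
    · exact hK u w hu hw

/- MODULE MI3 -/
private theorem MI3_side [DecidableEq V] (G : SimpleGraph V) (m l n x v0 : ℕ) (hm : 4000 ≤ m)
    (h3 : 3 ≤ l) (hlm : l < m) (nol : ¬ HasCyc G l) (hcard : 4 * m ≤ n)
    (hgood : ∀ S : Finset V, 2 * m ≤ S.card → S.card < n →
      vol G S ≤ 2 * ((m - 1) * (S.card - (m - 1)))) (H1 H2 : Finset V) (hx : x ≤ 3)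
    (hsum : H1.card + H2.card = n + x) (h1 : m ≤ H1.card) (h1' : H1.card < 2 * m) (h2 : H2.card < n)
    (hv0 : 2 * ((m - 1) * (n - (m - 1))) ≤ v0) (hvol : v0 ≤ vol G H1 + vol G H2) : False := by
  have hg := hgood H2 (by omega) h2
  have ha : 2 * ((m - 1) * (n - (m - 1))) = 2 * ((m - 1) * (H2.card - (m - 1))) + 2 * ((m - 1) * (H1.card - x)) := by
    have h4 : n - (m - 1) = (H2.card - (m - 1)) + (H1.card - x) := by omega
    rw [h4]
    ring
  have hb : 2 * ((m - 1) * (H1.card - x)) ≤ vol G H1 := by omega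
  apply nol
  refine dense_small G m 3 H1 h1'.le (by omega) (by omega) ?_ l h3 hlm.le
  have hb' : (2 : ℝ) * (((m - 1 : ℕ) : ℝ) * ((H1.card - x : ℕ) : ℝ)) ≤ (vol G H1 : ℝ) := by exact_mod_cast hb
  have e1 : ((m - 1 : ℕ) : ℝ) = (m : ℝ) - 1 := by rw [Nat.cast_sub (by omega), Nat.cast_one]
  have e2 : ((H1.card - x : ℕ) : ℝ) = (H1.card : ℝ) - x := by rw [Nat.cast_sub (by omega)]
  rw [e1, e2] at hb'
  refine le_trans ?_ hb'
  have hmR : (4000 : ℝ) ≤ (m : ℝ) := by exact_mod_cast hm
  have hxR : (x : ℝ) ≤ 3 := by exact_mod_cast hx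
  have hHR : (m : ℝ) ≤ (H1.card : ℝ) := by exact_mod_cast h1
  have h5 : (1 - 1 / 200 : ℝ) * m ≤ (m : ℝ) - 1 := by linarith
  have h6 : ((H1.card : ℝ) - ((3 : ℕ) : ℝ)) ≤ (H1.card : ℝ) - x := by
    push_cast
    linarith
  have h7 : (0 : ℝ) ≤ (H1.card : ℝ) - ((3 : ℕ) : ℝ) := by
    push_cast
    linarith
  have h8 : (1 - 1 / 200 : ℝ) * m * ((H1.card : ℝ) - ((3 : ℕ) : ℝ)) ≤ ((m : ℝ) - 1) * ((H1.card : ℝ) - x) :=
    mul_le_mul h5 h6 h7 (by linarith)
  linarith

/-- A MINIMAL COUNTEREXAMPLE WITH AT LEAST `4 m` VERTICES HAS NO SEPARATION OF ORDER AT MOST 3.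
PROOF. Let `X`, `A` violate `Conn`: `|X| ≤ 3`, `A` nonempty, disjoint from `X`, `C = univ ∖ A ∖ X` nonempty, no edge
between `A` and `C`.  `H1 = A ∪ X`, `H2 = C ∪ X`; `vol univ ≤ vol H1 + vol H2` (`vol_le_add`),
`|H1| + |H2| = n + |X|`.  All neighbours of an element of `A` are in `H1`: `|H1| ≥ m`, similarly `|H2| ≥ m`.
Case both `≥ 2 m` (and `< n` since the other side is nonempty): `hgood` for both:
`vol univ ≤ 2 a (|H1| - a) + 2 a (|H2| - a) = 2 a (n + |X| - 2 a) < 2 a (n - a)`, as `|X| ≤ 3 < a`.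
Case `|H1| < 2 m`; then `|H2| = n + |X| - |H1| > 2 m`, `hgood` for `H2`; so
`vol H1 ≥ 2 a (n - a) - 2 a (|H2| - a) = 2 a (n - |H2|) = 2 a (|H1| - |X|) ≥ 2 (1 - 1/200) m (|H1| - 3)`
(`m - 1 ≥ (1 - 1/200) m`).  `dense_small` with `t = 3`: a cycle of length `l`.  The case `|H2| < 2 m` is the same. -/
theorem conn3 [Fintype V] [DecidableEq V] (G : SimpleGraph V) (m l : ℕ) (hm : 4000 ≤ m)
    (h3 : 3 ≤ l) (hlm : l < m) (nol : ¬ HasCyc G l) (hcard : 4 * m ≤ Fintype.card V)
    (hvol : 2 * ((m - 1) * (Fintype.card V - (m - 1))) ≤ vol G Finset.univ)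
    (hdeg : ∀ v, m ≤ dg G Finset.univ v)
    (hgood : ∀ S : Finset V, 2 * m ≤ S.card → S.card < Fintype.card V →
      vol G S ≤ 2 * ((m - 1) * (S.card - (m - 1)))) :
    Conn G Finset.univ 3 := by
  intro X A hX hAS hAne hdisj hc
  obtain ⟨c, _, hcA, hcX⟩ := hc
  by_contra hcon
  have hno : ∀ a ∈ A, ∀ w, w ∉ A → w ∉ X → ¬ G.Adj a w := by
    intro a ha w hw hw' haw
    exact hcon ⟨a, ha, w, Finset.mem_univ _, hw, hw', haw⟩
  have hH1 : (A ∪ X).card = A.card + X.card := Finset.card_union_of_disjoint hdisj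
  have hH2 : (Aᶜ).card = Fintype.card V - A.card := Finset.card_compl A
  have hAn : A.card ≤ Fintype.card V := Finset.card_le_univ A
  have hApos : 0 < A.card := Finset.card_pos.2 hAne
  have hsum : (A ∪ X).card + (Aᶜ).card = Fintype.card V + X.card := by omega
  have hH2n : (Aᶜ).card < Fintype.card V := by omega
  have hH1n : (A ∪ X).card < Fintype.card V := by
    refine Finset.card_lt_univ_of_notMem (x := c) ?_
    rw [Finset.mem_union]
    rintro (h | h)
    · exact hcA h
    · exact hcX h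
  have hdgle : ∀ (H : Finset V) (v : V), (∀ w, G.Adj v w → w ∈ H) → dg G Finset.univ v ≤ H.card := by
    intro H v hv
    unfold dg
    apply Finset.card_le_card
    intro w hw
    simp only [Finset.mem_filter] at hw
    exact hv w hw.2
  have hm1 : m ≤ (A ∪ X).card := by
    obtain ⟨a, ha⟩ := hAne
    refine (hdeg a).trans (hdgle _ a ?_)
    intro w haw
    rw [Finset.mem_union]
    by_contra hcon2
    rw [not_or] at hcon2
    exact hno a ha w hcon2.1 hcon2.2 haw
  have hm2 : m ≤ (Aᶜ).card := by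
    refine (hdeg c).trans (hdgle _ c ?_)
    intro w hcw
    rw [Finset.mem_compl]
    intro hw
    exact hno w hw c hcA hcX hcw.symm
  have hv : vol G Finset.univ ≤ vol G (A ∪ X) + vol G (Aᶜ) := by
    apply vol_le_add G Finset.univ _ _ (Finset.subset_univ _) (Finset.subset_univ _)
    intro u _ w _ huw
    by_cases hu : u ∈ A
    · left
      refine ⟨Finset.mem_union_left _ hu, ?_⟩
      rw [Finset.mem_union]
      by_contra hcon2
      rw [not_or] at hcon2
      exact hno u hu w hcon2.1 hcon2.2 huw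
    · by_cases hw : w ∈ A
      · left
        refine ⟨?_, Finset.mem_union_left _ hw⟩
        rw [Finset.mem_union]
        by_contra hcon2
        rw [not_or] at hcon2
        exact hno w hw u hcon2.1 hcon2.2 huw.symm
      · right
        exact ⟨Finset.mem_compl.2 hu, Finset.mem_compl.2 hw⟩
  rcases Nat.lt_or_ge (A ∪ X).card (2 * m) with hlt1 | hge1
  · exact MI3_side G m l (Fintype.card V) X.card _ hm h3 hlm nol hcard hgood (A ∪ X) Aᶜ hX hsum hm1
      hlt1 hH2n hvol hv
  · rcases Nat.lt_or_ge (Aᶜ).card (2 * m) with hlt2 | hge2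
    · exact MI3_side G m l (Fintype.card V) X.card _ hm h3 hlm nol hcard hgood Aᶜ (A ∪ X) hX
        (by omega) hm2 hlt2 hH1n hvol (by rw [add_comm]; exact hv)
    · have g1 := hgood _ hge1 hH1n
      have g2 := hgood _ hge2 hH2n
      have h5 : (m - 1) * ((A ∪ X).card - (m - 1)) + (m - 1) * ((Aᶜ).card - (m - 1)) <
          (m - 1) * (Fintype.card V - (m - 1)) := by
        rw [← Nat.mul_add]
        apply Nat.mul_lt_mul_of_pos_left _ (by omega)
        omega
      omega

/- MODULE MI4 -/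
private theorem MI4_vol (m n ε : ℝ) (hm : 1 ≤ m) (h1 : 8 ≤ ε * m) (h2 : 8 * m ≤ ε * n) (hn : 0 ≤ n) :
    2 * (1 - ε) * m * n ≤ 2 * ((m - 1) * (n - (m - 1))) := by
  have h3 : 8 * n ≤ (ε * m) * n := mul_le_mul_of_nonneg_right h1 hn
  have h4 : m * (8 * m) ≤ m * (ε * n) := mul_le_mul_of_nonneg_left h2 (by linarith)
  have h5 : (ε * m) * n = m * (ε * n) := by ring
  nlinarith

private theorem MI4_inc [Fintype V] [DecidableEq V] (G : SimpleGraph V) (m : ℕ) (T : Finset V)
    (hvol : 2 * ((m - 1) * (Fintype.card V - (m - 1))) ≤ vol G Finset.univ)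
    (hgood : ∀ S : Finset V, 2 * m ≤ S.card → S.card < Fintype.card V →
      vol G S ≤ 2 * ((m - 1) * (S.card - (m - 1)))) (hT : 2 * m ≤ (Finset.univ \ T).card) :
    vol G (Finset.univ \ T) + 2 * (m - 1) * T.card ≤ vol G Finset.univ := by
  rcases Finset.eq_empty_or_nonempty T with hT0 | hT0
  · rw [hT0, Finset.sdiff_empty, Finset.card_empty, mul_zero, add_zero]
  · have h1 : (Finset.univ \ T).card = Fintype.card V - T.card := by
      rw [Finset.card_sdiff_of_subset (Finset.subset_univ _), Finset.card_univ]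
    have h2 : 0 < T.card := Finset.card_pos.2 hT0
    have h3 : T.card ≤ Fintype.card V := Finset.card_le_univ T
    have h4 := hgood _ hT (by omega)
    have h5 : Fintype.card V - (m - 1) = ((Finset.univ \ T).card - (m - 1)) + T.card := by omega
    rw [h5] at hvol
    have h6 : 2 * ((m - 1) * ((Finset.univ \ T).card - (m - 1) + T.card)) =
        2 * ((m - 1) * ((Finset.univ \ T).card - (m - 1))) + 2 * (m - 1) * T.card := by ring
    omega

/-- NO MINIMAL COUNTEREXAMPLE WITH AT LEAST `C m` VERTICES.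
PROOF. `core_in_set (1/10000) 4` gives `ε2`; `η = min (1/10000) (ε2/16)`; `core_in_set η 5` gives `ε1`;
`C = max 4 (8/ε1)`, `m` large (`m ≥ 10^7`, `m ≥ 1000/η`, `m ≥ 8/ε1`, the `m0`s).  `n = |V|`.
`vol univ ≥ 2 (m-1)(n-m+1) ≥ 2 (1 - ε1) m n`: `ε1 m n ≥ n + m²` because `ε1 m n/2 ≥ n` and `ε1 m n/2 ≥ 4 m²`.
`core_in_set η 5` with `S = univ`: a core `(A₀, B₀)`, `|B₀| ≥ 5 m`.  `exists_setup` with `η₀ = 1`; `few_ears`: `X`;
`hinc` of `dense_outside`: `D' = D ∖ X`, its complement contains `A₀ ∪ B₀`, so it has at least `2 m` elements; if `D'` is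
empty `hinc` is trivial, otherwise `hgood` for the complement `S` (`|S| = n - |D'|`):
`vol S + 2 (m-1) |D'| ≤ 2 (m-1)(n - (m-1)) ≤ vol univ`.  `dense_outside`: `D0 ⊆ D`,
`vol D0 ≥ 2 (1 - 16 η) m |D0| ≥ 2 (1 - ε2) m |D0|`, `|D0| ≥ |B₀| - 32 η m ≥ 4 m > 0`.  `core_in_set (1/10000) 4` with
`S = D0`: a second core `(A2, B2)` inside `D0`, hence disjoint from `A₀ ∪ B₀` (`A₀ ⊆ A`, `B₀ ⊆ Bst`, `D` is
disjoint from both).  `conn3`, `two_cores` (`Core.mono` for the first one): contradiction to `FreeC`. -/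
theorem large_case : ∃ (C : ℝ) (m0 : ℕ), 4 ≤ C ∧ ∀ m : ℕ, m0 ≤ m → ∀ l : ℕ, Odd l → 3 ≤ l → l < m →
    ∀ (V : Type u) [Fintype V] [DecidableEq V] (G : SimpleGraph V), C * m ≤ (Fintype.card V : ℝ) →
    FreeC G m l → 2 * ((m - 1) * (Fintype.card V - (m - 1))) ≤ vol G Finset.univ →
    (∀ v, m ≤ dg G Finset.univ v) →
    (∀ S : Finset V, 2 * m ≤ S.card → S.card < Fintype.card V →
      vol G S ≤ 2 * ((m - 1) * (S.card - (m - 1)))) → False := by
  obtain ⟨ε2, m2, hε2, hε2', core2⟩ := core_in_set.{u} (1 / 10000) 4 (by norm_num) (by norm_num) (by norm_num)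
  obtain ⟨η, hη⟩ : ∃ η : ℝ, η = min (1 / 10000) (ε2 / 16) := ⟨_, rfl⟩
  have hη0 : 0 < η := by
    rw [hη]
    exact lt_min (by norm_num) (by positivity)
  have hη1 : η ≤ 1 / 10000 := by rw [hη]; exact min_le_left _ _
  have hη2 : η ≤ ε2 / 16 := by rw [hη]; exact min_le_right _ _
  obtain ⟨ε1, m1, hε1, hε1', core1⟩ := core_in_set.{u} η 5 hη0 (by linarith) (by norm_num)
  obtain ⟨M1, hM1⟩ := exists_nat_ge (1000 / η)
  obtain ⟨M2, hM2⟩ := exists_nat_ge (8 / ε1)
  refine ⟨max 4 (8 / ε1), max (max m1 m2) (max (10 ^ 7) (max M1 M2)), le_max_left _ _, ?_⟩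
  intro m hm l hl h3 hlm V _ _ G hcard hfree hvol hdeg hgood
  have hmm1 : m1 ≤ m := le_trans (le_max_left _ _) (le_trans (le_max_left _ _) hm)
  have hmm2 : m2 ≤ m := le_trans (le_max_right _ _) (le_trans (le_max_left _ _) hm)
  have hm7 : 10 ^ 7 ≤ m := le_trans (le_max_left _ _) (le_trans (le_max_right _ _) hm)
  have hmM1 : M1 ≤ m := le_trans (le_max_left _ _) (le_trans (le_max_right _ _) (le_trans (le_max_right _ _) hm))
  have hmM2 : M2 ≤ m := le_trans (le_max_right _ _) (le_trans (le_max_right _ _) (le_trans (le_max_right _ _) hm))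
  obtain ⟨no2m, nol, nof⟩ := hfree.no hl hlm
  have hmR : (10 : ℝ) ^ 7 ≤ (m : ℝ) := by exact_mod_cast hm7
  have hmpos : (0 : ℝ) < (m : ℝ) := lt_of_lt_of_le (by norm_num) hmR
  have hmη : 1000 / η ≤ (m : ℝ) := hM1.trans (by exact_mod_cast hmM1)
  have hmε : 8 / ε1 ≤ (m : ℝ) := hM2.trans (by exact_mod_cast hmM2)
  have hC4 : 4 * (m : ℝ) ≤ (Fintype.card V : ℝ) :=
    (mul_le_mul_of_nonneg_right (le_max_left _ _) hmpos.le).trans hcard
  have hC8 : 8 / ε1 * (m : ℝ) ≤ (Fintype.card V : ℝ) :=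
    (mul_le_mul_of_nonneg_right (le_max_right _ _) hmpos.le).trans hcard
  have hcard4 : 4 * m ≤ Fintype.card V := by exact_mod_cast hC4
  have h8m : 8 ≤ ε1 * m := by
    rw [div_le_iff₀ hε1] at hmε
    linarith
  have h8n : 8 * (m : ℝ) ≤ ε1 * (Fintype.card V : ℝ) := by
    have h4 := mul_le_mul_of_nonneg_left hC8 hε1.le
    have h5 : ε1 * (8 / ε1 * (m : ℝ)) = 8 * m := by field_simp
    rw [h5] at h4
    exact h4
  have hm1 : 1 ≤ m := by
    have : (1 : ℝ) ≤ m := le_trans (by norm_num) hmR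
    exact_mod_cast this
  have hvolR : 2 * (((m : ℝ) - 1) * ((Fintype.card V : ℝ) - ((m : ℝ) - 1))) ≤ (vol G Finset.univ : ℝ) := by
    have h4 : ((2 * ((m - 1) * (Fintype.card V - (m - 1))) : ℕ) : ℝ) ≤ (vol G Finset.univ : ℝ) := by
      exact_mod_cast hvol
    have h5 : ((2 * ((m - 1) * (Fintype.card V - (m - 1))) : ℕ) : ℝ) =
        2 * (((m : ℝ) - 1) * ((Fintype.card V : ℝ) - ((m : ℝ) - 1))) := by
      have e1 : ((m - 1 : ℕ) : ℝ) = (m : ℝ) - 1 := by rw [Nat.cast_sub hm1, Nat.cast_one]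
      have e2 : ((Fintype.card V - (m - 1) : ℕ) : ℝ) = (Fintype.card V : ℝ) - ((m : ℝ) - 1) := by
        rw [Nat.cast_sub (by omega), e1]
      rw [Nat.cast_mul, Nat.cast_mul, e1, e2, Nat.cast_ofNat]
    rw [h5] at h4
    exact h4
  have hv1 := (MI4_vol m (Fintype.card V) ε1 (by linarith) h8m h8n (Nat.cast_nonneg _)).trans hvolR
  have hne : (Finset.univ : Finset V).Nonempty := by
    rw [← Finset.card_pos, Finset.card_univ]
    omega
  obtain ⟨A0, B0, hcore, hB0, -, -⟩ := core1 m hmm1 l hl h3 hlm V G Finset.univ hne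
    (by rw [Finset.card_univ]; exact hv1) no2m nol nof
  obtain ⟨A, Bst, D, S⟩ := exists_setup hcore one_pos le_rfl hη0 (by linarith)
    (by linarith : (1 + 1) * (m : ℝ) ≤ (B0.card : ℝ)) hmη no2m hl h3 hlm nol
  obtain ⟨X, hX, hE⟩ := S.few_ears
  have hB0D : B0 ⊆ Finset.univ \ (D \ X) := by
    intro b hb
    rw [Finset.mem_sdiff]
    refine ⟨Finset.mem_univ _, ?_⟩
    intro hbD
    exact ((S.memD b).1 (Finset.mem_sdiff.1 hbD).1).2 (S.B₀_sub hb)
  have hB0n : 5 * m ≤ B0.card := by exact_mod_cast hB0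
  have hinc := MI4_inc G m (D \ X) hvol hgood (by
    have h4 := Finset.card_le_card hB0D
    omega)
  obtain ⟨D0, hD0⟩ : ∃ D0, D0 = (D \ X).filter (fun v => dg G (A \ X) v ≤ 1) := ⟨_, rfl⟩
  obtain ⟨hd1, hd2⟩ := S.dense_outside hdeg X hX hE hinc D0 hD0
  have hD0pos : (0 : ℝ) < (D0.card : ℝ) := by
    have h4 : η * (m : ℝ) ≤ 1 / 10000 * m := mul_le_mul_of_nonneg_right hη1 hmpos.le
    have h5 : 32 * η * (m : ℝ) = 32 * (η * m) := by ring
    rw [h5] at hd2
    linarith
  have hD0ne : D0.Nonempty := by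
    rw [← Finset.card_pos]
    exact_mod_cast hD0pos
  have hD0D : ∀ v ∈ D0, v ∈ D := by
    intro v hv
    rw [hD0, Finset.mem_filter] at hv
    exact (Finset.mem_sdiff.1 hv.1).1
  have hv2 : 2 * (1 - ε2) * m * (D0.card : ℝ) ≤ (vol G D0 : ℝ) := by
    refine le_trans ?_ hd1
    have h4 : 2 * (1 - ε2) ≤ 2 * (1 - 16 * η) := by linarith
    exact mul_le_mul_of_nonneg_right (mul_le_mul_of_nonneg_right h4 hmpos.le) hD0pos.le
  obtain ⟨A2, B2, hcore2, hB2, hA2D, hB2D⟩ := core2 m hmm2 l hl h3 hlm V G D0 hD0ne hv2 no2m nol nof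
  have hdisj : Disjoint (A0 ∪ B0) (A2 ∪ B2) := by
    rw [Finset.disjoint_left]
    intro v hv hv'
    have h4 : v ∈ D := by
      apply hD0D
      rcases Finset.mem_union.1 hv' with h | h
      · exact hA2D h
      · exact hB2D h
    have h5 := (S.memD v).1 h4
    rcases Finset.mem_union.1 hv with h | h
    · exact h5.1 (S.big.sub h)
    · exact h5.2 (S.B₀_sub h)
  have hconn := conn3 G m l (le_trans (by norm_num) hm7) h3 hlm nol hcard4 hvol hdeg hgood
  obtain ⟨L, hL, hLm⟩ := two_cores m l hm7 hl h3 hlm G hconn A0 B0 A2 B2 (hcore.mono hη1) hcore2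
    (by linarith) (by linarith) hdisj
  exact hfree L hL hLm

/- MODULE MI5 -/
private theorem MI5_volS (G : SimpleGraph V) (S : Finset V) :
    vol (G.comap (fun v : S => (v : V))) Finset.univ = vol G S := by
  rw [vol_induce]
  congr 1
  ext w
  rw [Finset.mem_map]
  constructor
  · rintro ⟨x, _, rfl⟩
    exact x.2
  · intro hw
    exact ⟨⟨w, hw⟩, Finset.mem_univ _, rfl⟩

private theorem MI5_main (C : ℝ) (m l : ℕ) (hm : 4 ≤ m) (hC : 4 ≤ C) (hl : Odd l) (h3 : 3 ≤ l) (hlm : l < m)
    (hdense : ∀ (V : Type u) [Fintype V] [DecidableEq V] (G : SimpleGraph V),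
      2 * m ≤ Fintype.card V → (Fintype.card V : ℝ) ≤ C * m → FreeC G m l →
      2 * ((m - 1) * (Fintype.card V - (m - 1))) ≤ vol G Finset.univ →
      (2 * m < Fintype.card V → ∀ v, m ≤ dg G Finset.univ v) →
      (∀ S : Finset V, 2 * m ≤ S.card → S.card < Fintype.card V →
        vol G S ≤ 2 * ((m - 1) * (S.card - (m - 1)))) →
      ∃ A : Finset V, A.card = m - 1 ∧ KAB G A)
    (hlarge : ∀ (V : Type u) [Fintype V] [DecidableEq V] (G : SimpleGraph V), C * m ≤ (Fintype.card V : ℝ) →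
      FreeC G m l → 2 * ((m - 1) * (Fintype.card V - (m - 1))) ≤ vol G Finset.univ →
      (∀ v, m ≤ dg G Finset.univ v) →
      (∀ S : Finset V, 2 * m ≤ S.card → S.card < Fintype.card V →
        vol G S ≤ 2 * ((m - 1) * (S.card - (m - 1)))) → False) :
    ∀ n : ℕ, ∀ (V : Type u) [Fintype V] [DecidableEq V] (G : SimpleGraph V), Fintype.card V = n →
      2 * m ≤ n → FreeC G m l → 2 * ((m - 1) * (n - (m - 1))) ≤ vol G Finset.univ →
      ∃ A : Finset V, A.card = m - 1 ∧ KAB G A := by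
  intro n
  induction n using Nat.strong_induction_on with
  | _ n ih =>
    intro V _ _ G hcard hn hfree hvol
    have hgood : ∀ S : Finset V, 2 * m ≤ S.card → S.card < Fintype.card V →
        vol G S ≤ 2 * ((m - 1) * (S.card - (m - 1))) := by
      intro S hS hS'
      by_contra hcon
      have hfree' : FreeC (G.comap (fun v : S => (v : V))) m l := hfree.induce (fun v => v ∈ S)
      obtain ⟨A, hA, hK⟩ := ih S.card (by omega) S (G.comap (fun v : S => (v : V))) (Fintype.card_coe S) hS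
        hfree' (by rw [MI5_volS]; omega)
      have h4 := hK.vol
      rw [MI5_volS, Fintype.card_coe, hA] at h4
      omega
    by_cases hex : 2 * m < n ∧ ∃ v, dg G Finset.univ v < m
    · obtain ⟨hn2, v, hv⟩ := hex
      have hv' := vol_erase G Finset.univ v (Finset.mem_univ v)
      have hSc : (Finset.univ.erase v).card = n - 1 := by
        rw [Finset.card_erase_of_mem (Finset.mem_univ v), Finset.card_univ, hcard]
      have hfree' : FreeC (G.comap (fun w : (Finset.univ.erase v : Finset V) => (w : V))) m l :=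
        hfree.induce (fun w => w ∈ (Finset.univ.erase v : Finset V))
      have h5 : n - (m - 1) = (n - 1 - (m - 1)) + 1 := by omega
      have h6 : 2 * ((m - 1) * (n - (m - 1))) = 2 * ((m - 1) * (n - 1 - (m - 1))) + 2 * (m - 1) := by
        rw [h5]
        ring
      obtain ⟨A', hA', hK'⟩ := ih (n - 1) (by omega) (Finset.univ.erase v : Finset V)
        (G.comap (fun w : (Finset.univ.erase v : Finset V) => (w : V)))
        (by rw [Fintype.card_coe, hSc]) (by omega) hfree' (by rw [MI5_volS]; omega)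
      have h4 := hK'.vol
      rw [MI5_volS, Fintype.card_coe, hA', hSc] at h4
      have hdv : dg G Finset.univ v = m - 1 := by omega
      have hmem : ∀ (u : V) (hu : u ∈ (Finset.univ.erase v : Finset V)),
          u ∈ A'.map (Function.Embedding.subtype _) ↔ (⟨u, hu⟩ : (Finset.univ.erase v : Finset V)) ∈ A' := by
        intro u hu
        rw [Finset.mem_map]
        constructor
        · rintro ⟨x, hx, hxu⟩
          have h7 : x = ⟨u, hu⟩ := Subtype.ext hxu
          exact h7 ▸ hx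
        · intro h7
          exact ⟨_, h7, rfl⟩
      obtain ⟨no2m, nol, -⟩ := hfree.no hl hlm
      refine ⟨A'.map (Function.Embedding.subtype _), by rw [Finset.card_map, hA'], ?_⟩
      refine kab_extend G m l hm h3 hl hlm _ v ?_ (by rw [Finset.card_map, hA']) (by omega) ?_ hdv no2m nol
      · rw [Finset.mem_map]
        rintro ⟨x, _, hx⟩
        have h7 : (x : V) = v := hx
        exact (Finset.mem_erase.1 x.2).1 h7
      · intro u w hu hw
        have hu' : u ∈ (Finset.univ.erase v : Finset V) := Finset.mem_erase.2 ⟨hu, Finset.mem_univ _⟩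
        have hw' : w ∈ (Finset.univ.erase v : Finset V) := Finset.mem_erase.2 ⟨hw, Finset.mem_univ _⟩
        rw [hmem u hu', hmem w hw']
        exact hK' ⟨u, hu'⟩ ⟨w, hw'⟩
    · have hdeg : 2 * m < n → ∀ v, m ≤ dg G Finset.univ v := by
        intro h4 v
        by_contra h5
        exact hex ⟨h4, v, by omega⟩
      rcases le_total (Fintype.card V : ℝ) (C * m) with h4 | h4
      · exact hdense V G (by omega) h4 hfree (by rw [hcard]; exact hvol) (by rw [hcard]; exact hdeg) hgood
      · exfalso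
        have h5 : 2 * m < n := by
          have hmpos : (0 : ℝ) < (m : ℝ) := by
            have : 0 < m := by omega
            exact_mod_cast this
          have h6 : 4 * (m : ℝ) ≤ (Fintype.card V : ℝ) :=
            (mul_le_mul_of_nonneg_right hC hmpos.le).trans h4
          have h7 : 4 * m ≤ Fintype.card V := by exact_mod_cast h6
          omega
        exact hlarge V G h4 hfree (by rw [hcard]; exact hvol) (hdeg h5) hgood

/-- THE INDUCTION.  `hdense`: the statement for minimal counterexamples with `2 m ≤ n ≤ C m`.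
PROOF. `C` from `large_case`, `m0` the maximum of both.  Strong induction on `n = |V| ≥ 2 m` (for all types in
`Type u`).  `hgood` for `G`: for `S` with `2 m ≤ |S| < n` and `vol G S > 2 a (|S| - a)` the induction hypothesis for
the induced graph on `S` (`FreeC.induce` or `hasCyc_induce`, `vol_induce`) gives `KAB`, and `KAB.vol`
contradicts the size.  If `n > 2 m` and some vertex `v` has `dg G univ v ≤ a = m - 1`: the induced graph on
the complement of `v` has `vol = vol G univ - 2 dg v ≥ 2 a (n - 1 - a)` (`vol_erase`), so it is `KAB` with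
`|A| = a` by induction, `vol = 2 a (n - 1 - a)` (`KAB.vol`), so `dg v = a`, and `kab_extend` gives `KAB G A`.
Otherwise `hdeg`.  If `n ≤ C m` use `hdense`, else `large_case`. -/
theorem exact_of_dense (hdense : ∀ C : ℝ, 4 ≤ C → ∃ m0 : ℕ, ∀ m : ℕ, m0 ≤ m → ∀ l : ℕ, Odd l →
      3 ≤ l → l < m → ∀ (V : Type u) [Fintype V] [DecidableEq V] (G : SimpleGraph V),
      2 * m ≤ Fintype.card V → (Fintype.card V : ℝ) ≤ C * m → FreeC G m l →
      2 * ((m - 1) * (Fintype.card V - (m - 1))) ≤ vol G Finset.univ →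
      (2 * m < Fintype.card V → ∀ v, m ≤ dg G Finset.univ v) →
      (∀ S : Finset V, 2 * m ≤ S.card → S.card < Fintype.card V →
        vol G S ≤ 2 * ((m - 1) * (S.card - (m - 1)))) →
      ∃ A : Finset V, A.card = m - 1 ∧ KAB G A) :
    ∃ m0 : ℕ, ∀ m : ℕ, m0 ≤ m → ∀ l : ℕ, Odd l → 3 ≤ l → l < m →
      ∀ (V : Type u) [Fintype V] [DecidableEq V] (G : SimpleGraph V), 2 * m ≤ Fintype.card V →
      FreeC G m l → 2 * ((m - 1) * (Fintype.card V - (m - 1))) ≤ vol G Finset.univ →
      ∃ A : Finset V, A.card = m - 1 ∧ KAB G A := by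
  obtain ⟨C, ml, hC, hlarge⟩ := large_case.{u}
  obtain ⟨md, hd⟩ := hdense C hC
  refine ⟨max (max ml md) 4, ?_⟩
  intro m hm l hl h3 hlm V _ _ G hcard hfree hvol
  have hml : ml ≤ m := le_trans (le_max_left _ _) (le_trans (le_max_left _ _) hm)
  have hmd : md ≤ m := le_trans (le_max_right _ _) (le_trans (le_max_left _ _) hm)
  have hm4 : 4 ≤ m := le_trans (le_max_right _ _) hm
  exact MI5_main C m l hm4 hC hl h3 hlm (fun V _ _ G => hd m hmd l hl h3 hlm V G)
    (fun V _ _ G => hlarge m hml l hl h3 hlm V G) (Fintype.card V) V G rfl hcard hfree hvol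

end TurMod
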