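import Pool.Agent.TurMod.Glue

/-!
# Inside one dense piece: short paths, links, flexible paths

A piece is a set `Q` with all inside degrees at least `D`, with at most `K D` elements and without
separations of order at most `t`.
-/

namespace TurMod

open Finset

variable {V : Type*}

/- MODULE PC1 -/
private def PC1_sub (G : SimpleGraph V) (P : V → Prop) : SimpleGraph V where
  Adj u v := G.Adj u v ∧ P u ∧ P v
  symm := ⟨fun _ _ h => ⟨h.1.symm, h.2.2, h.2.1⟩⟩
  loopless := ⟨fun _ h => h.1.ne rfl⟩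

private lemma PC1_support (G : SimpleGraph V) (P : V → Prop) {x y : V}
    (p : (PC1_sub G P).Walk x y) (hx : P x) : ∀ v ∈ p.support, P v := by
  induction p with
  | nil => intro v hv; simp at hv; rw [hv]; exact hx
  | cons h p ih =>
    intro v hv
    rw [SimpleGraph.Walk.support_cons, List.mem_cons] at hv
    rcases hv with rfl | hv
    · exact hx
    · exact ih h.2.2 v hv

private lemma PC1_reach (G : SimpleGraph V) (P : V → Prop) {x y : V} {l : List V}
    (h : PathL G x y l) (hl : ∀ v ∈ l, P v) : (PC1_sub G P).Reachable x y := by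
  obtain ⟨h1, h2, h3, h4⟩ := h
  have hne : l ≠ [] := by rintro rfl; simp at h3
  have hch : l.IsChain (PC1_sub G P).Adj := by
    rw [List.isChain_iff_getElem] at h1 ⊢
    intro i hi
    exact ⟨h1 i hi, hl _ (List.getElem_mem _), hl _ (List.getElem_mem _)⟩
  have e1 : l.head hne = x := by
    rw [List.head?_eq_some_head hne] at h3
    exact Option.some_injective _ h3
  have e2 : l.getLast hne = y := by
    rw [List.getLast?_eq_some_getLast hne] at h4
    exact Option.some_injective _ h4
  have w := SimpleGraph.Walk.ofSupport l hne hch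
  rw [e1, e2] at w
  exact ⟨w⟩

/-- PROOF. Among the walks (chains, lists) from `x` to `y` inside `Q ∖ X` take one with the least number
of vertices `v_0, …, v_m` (it exists by `exists_path_of_conn`); it has no repetition.  For
`0 ≤ i ≤ m / 3` let `N i` be the set of neighbours of `v_(3 i)` in `Q ∖ X`: at least `D - |X| ≥ D/2`
elements each.  They are pairwise disjoint: a common neighbour `u` of `v_(3 i)` and `v_(3 i')`, `i < i'`,
gives a shorter walk (replace at least 3 steps by 2).  So `(m / 3 + 1) D / 2 ≤ |Q| ≤ K D`, hence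
`m < 3 (m/3 + 1) ≤ 6 K` and the number of vertices is `m + 1 ≤ 6 K + 1`. -/
theorem short_path [DecidableEq V] (G : SimpleGraph V) (Q X : Finset V) (D K : ℝ) (t : ℕ)
    (hD : 0 < D) (hmin : ∀ v ∈ Q, D ≤ (dg G Q v : ℝ)) (hQ : (Q.card : ℝ) ≤ K * D)
    (hconn : Conn G Q t) (hXt : X.card ≤ t) (hXD : 2 * (X.card : ℝ) ≤ D) (x y : V) (hx : x ∈ Q)
    (hxX : x ∉ X) (hy : y ∈ Q) (hyX : y ∉ X) :
    ∃ l, PathL G x y l ∧ (∀ v ∈ l, v ∈ Q ∧ v ∉ X) ∧ (l.length : ℝ) ≤ 6 * K + 1 := by
  classical
  obtain ⟨l0, hl0, hl0P⟩ := exists_path_of_conn G Q X t hconn hXt x y hx hxX hy hyX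
  set P : V → Prop := fun v => v ∈ Q ∧ v ∉ X with hP
  set H := PC1_sub G P with hH
  have hreach : H.Reachable x y := PC1_reach G P hl0 hl0P
  obtain ⟨p, hp⟩ := hreach.exists_walk_length_eq_dist
  have hpath : p.IsPath := p.isPath_of_length_eq_dist hp
  have hsup : ∀ v ∈ p.support, P v := PC1_support G P p ⟨hx, hxX⟩
  refine ⟨p.support, ⟨?_, hpath.support_nodup, ?_, ?_⟩, hsup, ?_⟩
  · exact p.isChain_adj_support.imp (fun a b h => h.1)
  · rw [List.head?_eq_some_head p.support_ne_nil]; simp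
  · rw [List.getLast?_eq_some_getLast p.support_ne_nil]; simp
  · set m := p.length with hm
    have hdist : ∀ i, i ≤ m → H.dist x (p.getVert i) = i := by
      intro i hi
      have h1 := SimpleGraph.dist_le (p.take i)
      have h2 := SimpleGraph.dist_le (p.drop i)
      rw [SimpleGraph.Walk.take_length] at h1
      rw [SimpleGraph.Walk.drop_length] at h2
      have h3 : H.Reachable x (p.getVert i) := ⟨p.take i⟩
      have h4 := h3.dist_triangle_left y
      omega
    set N : ℕ → Finset V := fun i => Q.filter (fun u => u ∉ X ∧ G.Adj (p.getVert (3 * i)) u) with hN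
    have hcard : ∀ i ∈ Finset.range (m / 3 + 1), D / 2 ≤ ((N i).card : ℝ) := by
      intro i hi
      have hwP : P (p.getVert (3 * i)) := hsup _ (SimpleGraph.Walk.getVert_mem_support _ _)
      have h1 := hmin _ hwP.1
      have h2 : dg G Q (p.getVert (3 * i)) ≤ (N i).card + X.card := by
        unfold dg
        have hsub : Q.filter (fun w => G.Adj (p.getVert (3 * i)) w) ⊆ N i ∪ X := by
          intro u hu
          rw [Finset.mem_filter] at hu
          rw [Finset.mem_union]
          by_cases huX : u ∈ X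
          · right; exact huX
          · left; rw [hN]; simp only [Finset.mem_filter]; exact ⟨hu.1, huX, hu.2⟩
        exact (Finset.card_le_card hsub).trans (Finset.card_union_le _ _)
      have h3 : ((dg G Q (p.getVert (3 * i)) : ℕ) : ℝ) ≤ (N i).card + X.card := by
        exact_mod_cast h2
      linarith
    have hdisj : ∀ i ∈ Finset.range (m / 3 + 1), ∀ j ∈ Finset.range (m / 3 + 1), i ≠ j →
        Disjoint (N i) (N j) := by
      intro i hi j hj hij
      rw [Finset.disjoint_left]
      intro u hui huj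
      rw [hN] at hui huj
      simp only [Finset.mem_filter] at hui huj
      rw [Finset.mem_range] at hi hj
      have hwi : P (p.getVert (3 * i)) := hsup _ (SimpleGraph.Walk.getVert_mem_support _ _)
      have hwj : P (p.getVert (3 * j)) := hsup _ (SimpleGraph.Walk.getVert_mem_support _ _)
      have ai : H.Adj (p.getVert (3 * i)) u := ⟨hui.2.2, hwi, hui.1, hui.2.1⟩
      have aj : H.Adj (p.getVert (3 * j)) u := ⟨huj.2.2, hwj, huj.1, huj.2.1⟩
      have di := SimpleGraph.Adj.diff_dist_adj (u := x) ai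
      have dj := SimpleGraph.Adj.diff_dist_adj (u := x) aj
      rw [hdist _ (by omega)] at di
      rw [hdist _ (by omega)] at dj
      omega
    have hsum : ((m / 3 + 1 : ℕ) : ℝ) * (D / 2) ≤ Q.card := by
      have h1 : ((Finset.range (m / 3 + 1)).biUnion N).card ≤ Q.card := by
        apply Finset.card_le_card
        rw [Finset.biUnion_subset]
        intro i _
        exact Finset.filter_subset _ _
      rw [Finset.card_biUnion hdisj] at h1
      have h2 : ((m / 3 + 1 : ℕ) : ℝ) * (D / 2) ≤ ∑ i ∈ Finset.range (m / 3 + 1), ((N i).card : ℝ) := by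
        rw [← Finset.card_range (m / 3 + 1)]
        have := Finset.card_nsmul_le_sum (Finset.range (m / 3 + 1)) (fun i => ((N i).card : ℝ)) (D / 2)
          hcard
        rw [nsmul_eq_mul] at this
        simpa using this
      have h3 : (∑ i ∈ Finset.range (m / 3 + 1), ((N i).card : ℝ)) ≤ Q.card := by exact_mod_cast h1
      exact h2.trans h3
    have hK : ((m / 3 + 1 : ℕ) : ℝ) ≤ 2 * K := by
      have h1 : ((m / 3 + 1 : ℕ) : ℝ) * (D / 2) ≤ (2 * K) * (D / 2) := by linarith
      exact le_of_mul_le_mul_right h1 (by linarith)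
    have hm3 : m + 1 ≤ 3 * (m / 3 + 1) := by omega
    have hm4 : ((m + 1 : ℕ) : ℝ) ≤ 3 * ((m / 3 + 1 : ℕ) : ℝ) := by exact_mod_cast hm3
    rw [SimpleGraph.Walk.length_support, ← hm]
    linarith

/- MODULE PC2 -/
private lemma PC2_step [DecidableEq V] (G : SimpleGraph V) (Q X : Finset V) (D K : ℝ) (t : ℕ)
    (hD : 0 < D) (hmin : ∀ v ∈ Q, D ≤ (dg G Q v : ℝ)) (hQ : (Q.card : ℝ) ≤ K * D)
    (hconn : Conn G Q t) (T : Finset ℕ) (hXt : (X.card : ℝ) + T.card * (6 * K + 3) ≤ t)
    (hXD : 2 * ((X.card : ℝ) + T.card * (6 * K + 3)) ≤ D) (a b : ℕ → V)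
    (ha : ∀ i ∈ T, a i ∈ Q ∧ a i ∉ X) (hb : ∀ i ∈ T, b i ∈ Q ∧ b i ∉ X)
    (haa : ∀ i ∈ T, ∀ j ∈ T, i ≠ j → a i ≠ a j) (hbb : ∀ i ∈ T, ∀ j ∈ T, i ≠ j → b i ≠ b j)
    (hab : ∀ i ∈ T, ∀ j ∈ T, a i ≠ b j) (T' : Finset ℕ) (hT' : T' ⊆ T) :
    ∃ L : ℕ → List V, (∀ i ∈ T', PathL G (a i) (b i) (L i) ∧ (∀ v ∈ L i, v ∈ Q ∧ v ∉ X) ∧
        ((L i).length : ℝ) ≤ 6 * K + 1) ∧
      (∀ i ∈ T', ∀ j ∈ T', i ≠ j → List.Disjoint (L i) (L j)) ∧
      ∀ i ∈ T', ∀ j ∈ T, j ∉ T' → a j ∉ L i ∧ b j ∉ L i := by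
  classical
  induction T' using Finset.induction_on with
  | empty => exact ⟨fun _ => [], by simp, by simp, by simp⟩
  | insert i T' hi ih =>
    obtain ⟨L, hL1, hL2, hL3⟩ := ih ((Finset.subset_insert _ _).trans hT')
    have hiT : i ∈ T := hT' (Finset.mem_insert_self _ _)
    have hT'T : T' ⊆ T := (Finset.subset_insert _ _).trans hT'
    have hK0 : 0 ≤ K := by
      have h1 : (0 : ℝ) ≤ K * D := le_trans (Nat.cast_nonneg _) hQ
      by_contra hneg
      push Not at hneg
      nlinarith
    set R : Finset ℕ := (T \ T').erase i with hR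
    set X' : Finset V := X ∪ (R.image a ∪ R.image b ∪ T'.biUnion (fun j => (L j).toFinset)) with hX'
    have hRcard : R.card + T'.card + 1 = T.card := by
      rw [hR, Finset.card_erase_of_mem (Finset.mem_sdiff.2 ⟨hiT, hi⟩), Finset.card_sdiff_of_subset hT'T]
      have h1 : (insert i T').card ≤ T.card := Finset.card_le_card hT'
      rw [Finset.card_insert_of_notMem hi] at h1
      omega
    have hbi : ((T'.biUnion (fun j => (L j).toFinset)).card : ℝ) ≤ T'.card * (6 * K + 1) := by
      have h1 : (T'.biUnion (fun j => (L j).toFinset)).card ≤ ∑ j ∈ T', ((L j).toFinset).card :=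
        Finset.card_biUnion_le
      have h2 : (∑ j ∈ T', (((L j).toFinset).card : ℝ)) ≤ T'.card * (6 * K + 1) := by
        have h3 := Finset.sum_le_card_nsmul T' (fun j => (((L j).toFinset).card : ℝ)) (6 * K + 1)
          (by
            intro j hj
            have h4 : ((L j).toFinset).card ≤ (L j).length := List.toFinset_card_le _
            have h5 : (((L j).toFinset).card : ℝ) ≤ (L j).length := by exact_mod_cast h4
            exact h5.trans (hL1 j hj).2.2)
        rw [nsmul_eq_mul] at h3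
        exact h3
      have h4 : ((T'.biUnion (fun j => (L j).toFinset)).card : ℝ) ≤
          ∑ j ∈ T', (((L j).toFinset).card : ℝ) := by exact_mod_cast h1
      exact h4.trans h2
    have hXc : (X'.card : ℝ) ≤ X.card + T.card * (6 * K + 3) := by
      have h1 : X'.card ≤ X.card + (R.card + R.card + (T'.biUnion (fun j => (L j).toFinset)).card) := by
        rw [hX']
        refine (Finset.card_union_le _ _).trans ?_
        refine Nat.add_le_add_left ?_ _
        refine (Finset.card_union_le _ _).trans ?_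
        refine Nat.add_le_add_right ?_ _
        refine (Finset.card_union_le _ _).trans ?_
        exact Nat.add_le_add Finset.card_image_le Finset.card_image_le
      have h2 : (X'.card : ℝ) ≤ X.card + (R.card + R.card +
          ((T'.biUnion (fun j => (L j).toFinset)).card : ℝ)) := by exact_mod_cast h1
      have h3 : (R.card : ℝ) + T'.card + 1 = T.card := by exact_mod_cast hRcard
      have h4 : (0 : ℝ) ≤ R.card := Nat.cast_nonneg _
      have h5 : (0 : ℝ) ≤ T'.card := Nat.cast_nonneg _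
      rw [← h3]
      nlinarith [mul_nonneg h4 hK0, mul_nonneg h5 hK0]
    have hX't : X'.card ≤ t := by
      have : (X'.card : ℝ) ≤ t := hXc.trans hXt
      exact_mod_cast this
    have haX : a i ∉ X' := by
      rw [hX']
      simp only [Finset.mem_union, Finset.mem_image, Finset.mem_biUnion, List.mem_toFinset, not_or,
        not_exists, not_and]
      refine ⟨(ha i hiT).2, ⟨?_, ?_⟩, ?_⟩
      · intro j hj h
        rw [hR, Finset.mem_erase, Finset.mem_sdiff] at hj
        exact haa j hj.2.1 i hiT hj.1 h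
      · intro j hj h
        rw [hR, Finset.mem_erase, Finset.mem_sdiff] at hj
        exact hab i hiT j hj.2.1 h.symm
      · intro j hj h
        exact (hL3 j hj i hiT hi).1 h
    have hbX : b i ∉ X' := by
      rw [hX']
      simp only [Finset.mem_union, Finset.mem_image, Finset.mem_biUnion, List.mem_toFinset, not_or,
        not_exists, not_and]
      refine ⟨(hb i hiT).2, ⟨?_, ?_⟩, ?_⟩
      · intro j hj h
        rw [hR, Finset.mem_erase, Finset.mem_sdiff] at hj
        exact hab j hj.2.1 i hiT h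
      · intro j hj h
        rw [hR, Finset.mem_erase, Finset.mem_sdiff] at hj
        exact hbb j hj.2.1 i hiT hj.1 h
      · intro j hj h
        exact (hL3 j hj i hiT hi).2 h
    obtain ⟨l, hl1, hl2, hl3⟩ := short_path G Q X' D K t hD hmin hQ hconn hX't (by linarith)
      (a i) (b i) (ha i hiT).1 haX (hb i hiT).1 hbX
    have hlX : ∀ v ∈ l, v ∈ Q ∧ v ∉ X := by
      intro v hv
      refine ⟨(hl2 v hv).1, fun h => (hl2 v hv).2 ?_⟩
      rw [hX']
      exact Finset.mem_union_left _ h
    have hldisj : ∀ j ∈ T', List.Disjoint l (L j) := by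
      intro j hj v hv hvj
      apply (hl2 v hv).2
      rw [hX']
      apply Finset.mem_union_right
      apply Finset.mem_union_right
      rw [Finset.mem_biUnion]
      exact ⟨j, hj, List.mem_toFinset.2 hvj⟩
    refine ⟨fun j => if j = i then l else L j, ?_, ?_, ?_⟩
    · intro j hj
      by_cases hji : j = i
      · subst hji
        simp only [if_true]
        exact ⟨hl1, hlX, hl3⟩
      · simp only [if_neg hji]
        exact hL1 j ((Finset.mem_insert.1 hj).resolve_left hji)
    · intro j hj k hk hjk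
      by_cases hji : j = i
      · have hki : k ≠ i := fun h => hjk (hji.trans h.symm)
        simp only [if_pos hji, if_neg hki]
        exact hldisj k ((Finset.mem_insert.1 hk).resolve_left hki)
      · by_cases hki : k = i
        · simp only [if_neg hji, if_pos hki]
          exact (hldisj j ((Finset.mem_insert.1 hj).resolve_left hji)).symm
        · simp only [if_neg hji, if_neg hki]
          exact hL2 j ((Finset.mem_insert.1 hj).resolve_left hji) k
            ((Finset.mem_insert.1 hk).resolve_left hki) hjk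
    · intro j hj k hkT hk
      rw [Finset.mem_insert, not_or] at hk
      by_cases hji : j = i
      · simp only [if_pos hji]
        have hkR : k ∈ R := by
          rw [hR, Finset.mem_erase, Finset.mem_sdiff]
          exact ⟨hk.1, hkT, hk.2⟩
        constructor
        · intro h
          apply (hl2 _ h).2
          rw [hX']
          apply Finset.mem_union_right
          apply Finset.mem_union_left
          apply Finset.mem_union_left
          exact Finset.mem_image_of_mem _ hkR
        · intro h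
          apply (hl2 _ h).2
          rw [hX']
          apply Finset.mem_union_right
          apply Finset.mem_union_left
          apply Finset.mem_union_right
          exact Finset.mem_image_of_mem _ hkR
      · simp only [if_neg hji]
        exact hL3 j ((Finset.mem_insert.1 hj).resolve_left hji) k hkT hk.2

/-- Disjoint short links for the pairs `(a i, b i)`, `i ∈ T`.
PROOF. Induction on `m ≤ p = |T|` (or `Finset.induction` on subsets `T' ⊆ T`): links for the pairs with
index in `T'`, avoiding `X` and all `a j`, `b j` with `j ∈ T ∖ T'`.  For the next pair `i` use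
`short_path` with the forbidden set `X ∪ {a j, b j : j ∈ T ∖ T', j ≠ i} ∪ {vertices of the earlier
links}`, of size at most `|X| + 2 p + p (6 K + 1)`. -/
theorem links [DecidableEq V] (G : SimpleGraph V) (Q X : Finset V) (D K : ℝ) (t : ℕ)
    (hD : 0 < D) (hmin : ∀ v ∈ Q, D ≤ (dg G Q v : ℝ)) (hQ : (Q.card : ℝ) ≤ K * D)
    (hconn : Conn G Q t) (T : Finset ℕ) (hXt : (X.card : ℝ) + T.card * (6 * K + 3) ≤ t)
    (hXD : 2 * ((X.card : ℝ) + T.card * (6 * K + 3)) ≤ D) (a b : ℕ → V)
    (ha : ∀ i ∈ T, a i ∈ Q ∧ a i ∉ X) (hb : ∀ i ∈ T, b i ∈ Q ∧ b i ∉ X)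
    (haa : ∀ i ∈ T, ∀ j ∈ T, i ≠ j → a i ≠ a j) (hbb : ∀ i ∈ T, ∀ j ∈ T, i ≠ j → b i ≠ b j)
    (hab : ∀ i ∈ T, ∀ j ∈ T, a i ≠ b j) :
    ∃ L : ℕ → List V, (∀ i ∈ T, PathL G (a i) (b i) (L i) ∧ (∀ v ∈ L i, v ∈ Q ∧ v ∉ X) ∧
        ((L i).length : ℝ) ≤ 6 * K + 1) ∧
      ∀ i ∈ T, ∀ j ∈ T, i ≠ j → List.Disjoint (L i) (L j) := by
  obtain ⟨L, h1, h2, -⟩ := PC2_step G Q X D K t hD hmin hQ hconn T hXt hXD a b ha hb haa hbb hab T
    subset_rfl
  exact ⟨L, h1, h2⟩

/- MODULE PC3 -/
open Classical in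
private lemma PC3_count (G : SimpleGraph V) (Q : Finset V) (bad : V → V → Prop) :
    ∑ w ∈ Q, (((Q.filter (fun u => G.Adj w u)) ×ˢ (Q.filter (fun u => G.Adj w u))).filter
      (fun p => bad p.1 p.2)).card =
    ∑ p ∈ (Q ×ˢ Q).filter (fun p => bad p.1 p.2), codeg G Q p.1 p.2 := by
  have h1 : ∀ w ∈ Q, (((Q.filter (fun u => G.Adj w u)) ×ˢ (Q.filter (fun u => G.Adj w u))).filter
      (fun p => bad p.1 p.2)).card =
      ∑ p ∈ (Q ×ˢ Q).filter (fun p => bad p.1 p.2), if (G.Adj p.1 w ∧ G.Adj p.2 w) then 1 else 0 := by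
    intro w _
    rw [← Finset.card_filter, Finset.filter_filter]
    congr 1
    ext p
    simp only [Finset.mem_filter, Finset.mem_product, SimpleGraph.adj_comm]
    tauto
  rw [Finset.sum_congr rfl h1, Finset.sum_comm]
  apply Finset.sum_congr rfl
  intro p _
  rw [← Finset.card_filter, codeg]

open Classical in
/-- The set of the gadget: a large set `S` (inside the neighbourhood of one vertex) in which most
pairs have many common neighbours.
PROOF. `n = |Q| ≥ 1`.  Call an ordered pair `(u, v)`, `u ≠ v`, of elements of `Q` bad if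
`64 n codeg(u, v) < d²`.  `∑_(w ∈ Q) #{bad (u, v) : u, v ∈ N(w)} = ∑_(bad) codeg(u, v) ≤ n² d²/(64 n)`,
so some `w ∈ Q` has at most `d²/64` bad pairs in `N = N(w) ∩ Q`, `σ = |N| ≥ d ≥ 64`.  Let `T ⊆ N` be the set of
`u` with more than `σ/8` bad partners in `N`: `|T| σ/8 ≤ d²/64`, so `|T| ≤ d²/(8 σ) ≤ σ/8`.  `S = N ∖ T`:
`|S| ≥ 7σ/8 ≥ d/2`, `|S| ≥ 56`.  For `x ∈ S` the number of good partners `y ≠ x` in `S` is at least
`|S| - 1 - σ/8 ≥ |S| - 1 - |S|/7 ≥ (3/4) |S|`. -/
theorem gadget_set (G : SimpleGraph V) (Q : Finset V) (d : ℝ) (hd : 64 ≤ d) (hQ : Q.Nonempty)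
    (hmin : ∀ v ∈ Q, d ≤ (dg G Q v : ℝ)) :
    ∃ S ⊆ Q, d / 2 ≤ (S.card : ℝ) ∧ ∀ x ∈ S, 3 * (S.card : ℝ) ≤
      4 * ((S.filter (fun y => y ≠ x ∧ d ^ 2 ≤ 64 * Q.card * (codeg G Q x y : ℝ))).card : ℝ) := by
  set n : ℝ := (Q.card : ℝ) with hn
  have hn0 : 0 < n := by
    rw [hn]; exact_mod_cast hQ.card_pos
  obtain ⟨bad, hbad⟩ : ∃ bad : V → V → Prop, ∀ u v, bad u v ↔
      64 * n * (codeg G Q u v : ℝ) < d ^ 2 := ⟨_, fun _ _ => Iff.rfl⟩
  set N : V → Finset V := fun w => Q.filter (fun u => G.Adj w u) with hN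
  obtain ⟨w, hw, hwB⟩ : ∃ w ∈ Q, ((((N w) ×ˢ (N w)).filter (fun p => bad p.1 p.2)).card : ℝ) ≤
      d ^ 2 / 64 := by
    apply Finset.exists_le_of_sum_le hQ
    rw [Finset.sum_const, nsmul_eq_mul, ← Nat.cast_sum, PC3_count G Q bad, Nat.cast_sum]
    have h1 : (∑ p ∈ (Q ×ˢ Q).filter (fun p => bad p.1 p.2), ((codeg G Q p.1 p.2 : ℕ) : ℝ)) ≤
        ((Q ×ˢ Q).filter (fun p => bad p.1 p.2)).card • (d ^ 2 / (64 * n)) := by
      apply Finset.sum_le_card_nsmul
      intro p hp
      rw [Finset.mem_filter] at hp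
      have := (hbad _ _).1 hp.2
      rw [le_div_iff₀ (by positivity)]
      linarith
    refine h1.trans ?_
    rw [nsmul_eq_mul]
    have h2 : (((Q ×ˢ Q).filter (fun p => bad p.1 p.2)).card : ℝ) ≤ n * n := by
      have h3 : ((Q ×ˢ Q).filter (fun p => bad p.1 p.2)).card ≤ Q.card * Q.card := by
        rw [← Finset.card_product]
        exact Finset.card_filter_le _ _
      have h4 : (((Q ×ˢ Q).filter (fun p => bad p.1 p.2)).card : ℝ) ≤
          ((Q.card * Q.card : ℕ) : ℝ) := by exact_mod_cast h3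
      rw [Nat.cast_mul] at h4
      exact h4
    calc (((Q ×ˢ Q).filter (fun p => bad p.1 p.2)).card : ℝ) * (d ^ 2 / (64 * n)) ≤
          (n * n) * (d ^ 2 / (64 * n)) := by
            apply mul_le_mul_of_nonneg_right h2 (by positivity)
      _ = n * (d ^ 2 / 64) := by field_simp
  set σ : ℝ := ((N w).card : ℝ) with hσ
  have hσd : d ≤ σ := by
    have := hmin w hw
    unfold dg at this
    exact this
  set bp : V → Finset V := fun u => (N w).filter (fun v => bad u v) with hbp
  set T : Finset V := (N w).filter (fun u => σ < 8 * ((bp u).card : ℝ)) with hT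
  have hBsum : (((N w) ×ˢ (N w)).filter (fun p => bad p.1 p.2)).card = ∑ u ∈ N w, (bp u).card := by
    rw [Finset.card_filter, Finset.sum_product]
    apply Finset.sum_congr rfl
    intro u _
    rw [hbp, ← Finset.card_filter]
  have hTc : (T.card : ℝ) * (σ / 8) ≤ d ^ 2 / 64 := by
    have h1 : T.card • (σ / 8) ≤ ∑ u ∈ T, ((bp u).card : ℝ) := by
      apply Finset.card_nsmul_le_sum
      intro u hu
      rw [hT, Finset.mem_filter] at hu
      linarith [hu.2]
    have h2 : ∑ u ∈ T, ((bp u).card : ℝ) ≤ ∑ u ∈ N w, ((bp u).card : ℝ) := by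
      apply Finset.sum_le_sum_of_subset_of_nonneg (Finset.filter_subset _ _)
      intro _ _ _
      exact Nat.cast_nonneg _
    rw [nsmul_eq_mul] at h1
    rw [hBsum, Nat.cast_sum] at hwB
    linarith
  have hT8 : (T.card : ℝ) ≤ σ / 8 := by
    by_contra hcon
    push Not at hcon
    have h1 : (σ / 8) * (σ / 8) < (T.card : ℝ) * (σ / 8) :=
      mul_lt_mul_of_pos_right hcon (by linarith)
    nlinarith
  have hTN : T ⊆ N w := Finset.filter_subset _ _
  have hScard : (((N w) \ T).card : ℝ) = σ - T.card := by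
    rw [Finset.card_sdiff_of_subset hTN, Nat.cast_sub (Finset.card_le_card hTN)]
  refine ⟨(N w) \ T, Finset.sdiff_subset.trans (Finset.filter_subset _ _), ?_, ?_⟩
  · rw [hScard]; linarith
  · intro x hx
    rw [Finset.mem_sdiff] at hx
    have hxb : 8 * ((bp x).card : ℝ) ≤ σ := by
      by_contra hcon
      push Not at hcon
      exact hx.2 (by rw [hT, Finset.mem_filter]; exact ⟨hx.1, hcon⟩)
    have hsub : (N w) \ T ⊆ (((N w) \ T).filter (fun y => y ≠ x ∧
        d ^ 2 ≤ 64 * n * (codeg G Q x y : ℝ))) ∪ ({x} ∪ bp x) := by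
      intro y hy
      rw [Finset.mem_union, Finset.mem_union, Finset.mem_singleton]
      by_cases hyx : y = x
      · right; left; exact hyx
      · by_cases hb : bad x y
        · right; right
          rw [hbp]
          simp only [Finset.mem_filter]
          exact ⟨(Finset.mem_sdiff.1 hy).1, hb⟩
        · left
          rw [Finset.mem_filter]
          refine ⟨hy, hyx, ?_⟩
          rw [hbad] at hb
          exact not_lt.1 hb
    have h1 := (Finset.card_le_card hsub).trans (Finset.card_union_le _ _)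
    have h2 : ({x} ∪ bp x).card ≤ 1 + (bp x).card := by
      refine (Finset.card_union_le _ _).trans ?_
      rw [Finset.card_singleton]
    have h3 : (((N w) \ T).card : ℝ) ≤ ((((N w) \ T).filter (fun y => y ≠ x ∧
        d ^ 2 ≤ 64 * n * (codeg G Q x y : ℝ))).card : ℝ) + (1 + (bp x).card) := by
      have := h1.trans (Nat.add_le_add_left h2 _)
      exact_mod_cast this
    rw [hScard] at h3 ⊢
    linarith

/- MODULE PC4 -/
private lemma PC4_codeg_comm (G : SimpleGraph V) (Q : Finset V) (u v : V) :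
    codeg G Q u v = codeg G Q v u := by
  classical
  unfold codeg
  congr 1
  apply Finset.filter_congr
  intro w _
  exact and_comm

private def PC4_gd (G : SimpleGraph V) (Q : Finset V) (θ : ℝ) : SimpleGraph V where
  Adj u v := u ≠ v ∧ θ ≤ (codeg G Q u v : ℝ)
  symm := ⟨fun u v h => ⟨h.1.symm, by rw [PC4_codeg_comm]; exact h.2⟩⟩
  loopless := ⟨fun _ h => h.1 rfl⟩

open Classical in
private lemma PC4_outer (G : SimpleGraph V) (Q S : Finset V) (θ : ℝ)
    (hdeg : ∀ x ∈ S, 3 * (S.card : ℝ) ≤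
      4 * ((S.filter (fun y => y ≠ x ∧ θ ≤ (codeg G Q x y : ℝ))).card : ℝ)) (y : V) (hy : y ∈ S)
    (i : ℕ) : ∀ (F : Finset V) (x : V), x ∈ S → x ∉ F → y ∉ F → x ≠ y →
      2 * (i + 2 + F.card + 2) ≤ S.card →
      ∃ l, PathL (PC4_gd G Q θ) x y l ∧ l.length = i + 3 ∧ ∀ v ∈ l, v ∈ S ∧ v ∉ F := by
  induction i with
  | zero =>
    intro F x hx hxF hyF hxy hc
    have hx4 := hdeg x hx
    have hy4 := hdeg y hy
    set A := S.filter (fun z => z ≠ x ∧ θ ≤ (codeg G Q x z : ℝ)) with hA
    set B := S.filter (fun z => z ≠ y ∧ θ ≤ (codeg G Q y z : ℝ)) with hB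
    have hx4' : 3 * S.card ≤ 4 * A.card := by exact_mod_cast hx4
    have hy4' : 3 * S.card ≤ 4 * B.card := by exact_mod_cast hy4
    have hAB : (A ∪ B).card ≤ S.card :=
      Finset.card_le_card (Finset.union_subset (Finset.filter_subset _ _) (Finset.filter_subset _ _))
    have hABc := Finset.card_union_add_card_inter A B
    have hlt : F.card < (A ∩ B).card := by omega
    obtain ⟨z, hz, hzF⟩ := Finset.exists_mem_notMem_of_card_lt_card hlt
    rw [Finset.mem_inter, hA, hB, Finset.mem_filter, Finset.mem_filter] at hz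
    obtain ⟨⟨hzS, hzx, hzc⟩, -, hzy, hzc'⟩ := hz
    refine ⟨[x, z, y], ⟨?_, ?_, rfl, rfl⟩, rfl, ?_⟩
    · simp only [List.isChain_cons_cons, List.isChain_singleton, and_true]
      exact ⟨⟨hzx.symm, hzc⟩, hzy, by rw [PC4_codeg_comm]; exact hzc'⟩
    · simp only [List.nodup_cons, List.mem_cons, List.not_mem_nil, or_false, not_or,
        not_false_eq_true, List.nodup_nil, and_true]
      exact ⟨⟨hzx.symm, hxy⟩, hzy⟩
    · intro v hv
      simp only [List.mem_cons, List.not_mem_nil, or_false] at hv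
      rcases hv with rfl | rfl | rfl
      · exact ⟨hx, hxF⟩
      · exact ⟨hzS, hzF⟩
      · exact ⟨hy, hyF⟩
  | succ i ih =>
    intro F x hx hxF hyF hxy hc
    have hx4 := hdeg x hx
    set A := S.filter (fun z => z ≠ x ∧ θ ≤ (codeg G Q x z : ℝ)) with hA
    have hx4' : 3 * S.card ≤ 4 * A.card := by exact_mod_cast hx4
    have hcy : (insert y F).card ≤ F.card + 1 := Finset.card_insert_le _ _
    have hlt : (insert y F).card < A.card := by omega
    obtain ⟨z, hz, hzF⟩ := Finset.exists_mem_notMem_of_card_lt_card hlt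
    rw [hA, Finset.mem_filter] at hz
    rw [Finset.mem_insert, not_or] at hzF
    obtain ⟨hzS, hzx, hzc⟩ := hz
    have hcx : (insert x F).card ≤ F.card + 1 := Finset.card_insert_le _ _
    obtain ⟨l, hl, hlen, hlS⟩ := ih (insert x F) z hzS
      (by rw [Finset.mem_insert, not_or]; exact ⟨hzx, hzF.2⟩)
      (by rw [Finset.mem_insert, not_or]; exact ⟨hxy.symm, hyF⟩) hzF.1 (by omega)
    obtain ⟨h1, h2, h3, h4⟩ := hl
    refine ⟨x :: l, ⟨?_, ?_, rfl, ?_⟩, ?_, ?_⟩
    · cases l with
      | nil => simp at h3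
      | cons a l =>
        simp only [List.head?_cons, Option.some.injEq] at h3
        subst h3
        rw [List.isChain_cons_cons]
        exact ⟨⟨hzx.symm, hzc⟩, h1⟩
    · rw [List.nodup_cons]
      refine ⟨fun hxl => (hlS x hxl).2 (Finset.mem_insert_self _ _), h2⟩
    · cases l with
      | nil => simp at h3
      | cons a l => rw [List.getLast?_cons_cons]; exact h4
    · rw [List.length_cons, hlen]
    · intro v hv
      rw [List.mem_cons] at hv
      rcases hv with rfl | hv
      · exact ⟨hx, hxF⟩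
      · exact ⟨(hlS v hv).1, fun h => (hlS v hv).2 (Finset.mem_insert_of_mem h)⟩

open Classical in
private lemma PC4_inner (G : SimpleGraph V) (Q : Finset V) (θ : ℝ) (y : V) (l : List V) :
    ∀ (F : Finset V) (x : V), PathL (PC4_gd G Q θ) x y l → (∀ v ∈ l, v ∈ Q ∧ v ∉ F) →
      ((F.card + 2 * l.length : ℕ) : ℝ) ≤ θ + 1 →
      ∃ l', PathL G x y l' ∧ l'.length + 1 = 2 * l.length ∧ ∀ v ∈ l', v ∈ Q ∧ v ∉ F := by
  induction l with
  | nil =>
    intro F x h
    exact absurd h.2.2.1 (by simp)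
  | cons a l ih =>
    intro F x h hlF hc
    cases l with
    | nil =>
      obtain ⟨h1, h2, h3, h4⟩ := h
      exact ⟨[a], ⟨by simp, h2, h3, h4⟩, by simp, hlF⟩
    | cons b t =>
      obtain ⟨h1, h2, h3, h4⟩ := h
      simp only [List.head?_cons, Option.some.injEq] at h3
      subst h3
      rw [List.isChain_cons_cons] at h1
      rw [List.nodup_cons] at h2
      rw [List.getLast?_cons_cons] at h4
      obtain ⟨c, hcc, hcF⟩ : ∃ c ∈ Q.filter (fun w => G.Adj a w ∧ G.Adj b w),
          c ∉ F ∪ (a :: b :: t).toFinset := by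
        apply Finset.exists_mem_notMem_of_card_lt_card
        have e1 : (F ∪ (a :: b :: t).toFinset).card ≤ F.card + (a :: b :: t).length :=
          (Finset.card_union_le _ _).trans (Nat.add_le_add_left (List.toFinset_card_le _) _)
        have e2 : θ ≤ ((Q.filter (fun w => G.Adj a w ∧ G.Adj b w)).card : ℝ) := h1.1.2
        have e3 : ((F.card + 2 * (a :: b :: t).length : ℕ) : ℝ) ≤
            (((Q.filter (fun w => G.Adj a w ∧ G.Adj b w)).card + 1 : ℕ) : ℝ) := by
          push_cast
          push_cast at hc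
          linarith
        have e4 : F.card + 2 * (a :: b :: t).length ≤
            (Q.filter (fun w => G.Adj a w ∧ G.Adj b w)).card + 1 := by exact_mod_cast e3
        simp only [List.length_cons] at e1 e4
        omega
      rw [Finset.mem_filter] at hcc
      rw [Finset.mem_union, not_or, List.mem_toFinset] at hcF
      obtain ⟨l', hl', hlen, hlQ⟩ := ih (insert a (insert c F)) b
        ⟨h1.2, h2.2, rfl, h4⟩ (by
          intro v hv
          refine ⟨(hlF v (List.mem_cons_of_mem _ hv)).1, ?_⟩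
          rw [Finset.mem_insert, Finset.mem_insert, not_or, not_or]
          refine ⟨?_, ?_, (hlF v (List.mem_cons_of_mem _ hv)).2⟩
          · rintro rfl; exact h2.1 hv
          · rintro rfl; exact hcF.2 (List.mem_cons_of_mem _ hv)) (by
          have e1 : (insert a (insert c F)).card ≤ F.card + 1 + 1 :=
            (Finset.card_insert_le _ _).trans (Nat.add_le_add_right (Finset.card_insert_le _ _) _)
          have e2 : ((insert a (insert c F)).card + 2 * (b :: t).length : ℕ) ≤
              F.card + 2 * (a :: b :: t).length := by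
            simp only [List.length_cons] at e1 ⊢
            omega
          have e3 : (((insert a (insert c F)).card + 2 * (b :: t).length : ℕ) : ℝ) ≤
              ((F.card + 2 * (a :: b :: t).length : ℕ) : ℝ) := by exact_mod_cast e2
          exact e3.trans hc)
      obtain ⟨g1, g2, g3, g4⟩ := hl'
      have hal : a ∉ l' := fun h => (hlQ a h).2 (Finset.mem_insert_self _ _)
      have hcl : c ∉ l' := fun h =>
        (hlQ c h).2 (Finset.mem_insert_of_mem (Finset.mem_insert_self _ _))
      have hac : a ≠ c := hcc.2.1.ne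
      refine ⟨a :: c :: l', ⟨?_, ?_, rfl, ?_⟩, ?_, ?_⟩
      · cases l' with
        | nil => simp at g3
        | cons b' l' =>
          simp only [List.head?_cons, Option.some.injEq] at g3
          subst g3
          rw [List.isChain_cons_cons, List.isChain_cons_cons]
          exact ⟨hcc.2.1, hcc.2.2.symm, g1⟩
      · rw [List.nodup_cons, List.nodup_cons, List.mem_cons, not_or]
        exact ⟨⟨hac, hal⟩, hcl, g2⟩
      · cases l' with
        | nil => simp at g3
        | cons b' l' => rw [List.getLast?_cons_cons, List.getLast?_cons_cons]; exact g4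
      · simp only [List.length_cons] at hlen ⊢
        omega
      · intro v hv
        rw [List.mem_cons, List.mem_cons] at hv
        rcases hv with rfl | rfl | hv
        · exact hlF _ (List.mem_cons_self ..)
        · exact ⟨hcc.1, hcF.1⟩
        · exact ⟨(hlQ v hv).1, fun h =>
            (hlQ v hv).2 (Finset.mem_insert_of_mem (Finset.mem_insert_of_mem h))⟩

open Classical in
/-- Flexible paths in the gadget: all even lengths.
PROOF. Call `u, v` good if `u ≠ v` and `θ ≤ codeg G Q u v` (symmetric).  (1) Choose distinct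
`s_0 = x, s_1, …, s_j = y` in `S ∖ X` with `s_(i-1), s_i` good: greedily `s_1, …, s_(j-2)` (each good
with the previous one, outside `X`, different from the earlier ones and from `y`: at least
`(3/4)|S| - |X| - j - 1 > 0` choices), then `s_(j-1)` good with `s_(j-2)` and with `y`: at least `|S|/2`
common good partners, minus `|X| + j + 1`.  (2) Choose distinct `c_1, …, c_j` with `c_i ∈ Q ∖ X` a common
neighbour of `s_(i-1)` and `s_i`, different from all `s` and the earlier `c`: at most
`|X| + (j + 1) + (j - 1) < θ` vertices are forbidden.  The list `s_0, c_1, s_1, …, c_j, s_j` has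
`2 j + 1` vertices. -/
theorem flex (G : SimpleGraph V) (Q S X : Finset V) (θ : ℝ) (hS : S ⊆ Q)
    (hdeg : ∀ x ∈ S, 3 * (S.card : ℝ) ≤
      4 * ((S.filter (fun y => y ≠ x ∧ θ ≤ (codeg G Q x y : ℝ))).card : ℝ)) (j : ℕ) (hj : 2 ≤ j)
    (h1 : (2 * j + 1 + X.card : ℝ) ≤ θ) (h2 : (2 * (j + X.card + 2) : ℝ) ≤ S.card) (x y : V)
    (hx : x ∈ S) (hy : y ∈ S) (hxy : x ≠ y) (hxX : x ∉ X) (hyX : y ∉ X) :
    ∃ l, PathL G x y l ∧ l.length = 2 * j + 1 ∧ ∀ v ∈ l, v ∈ Q ∧ v ∉ X := by
  obtain ⟨i, rfl⟩ := Nat.exists_eq_add_of_le hj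
  have h2' : 2 * (2 + i + X.card + 2) ≤ S.card := by exact_mod_cast h2
  obtain ⟨l, hl, hlen, hlS⟩ := PC4_outer G Q S θ hdeg y hy i X x hx hxX hyX hxy (by omega)
  obtain ⟨l', hl', hlen', hlQ⟩ := PC4_inner G Q θ y l X x hl
    (fun v hv => ⟨hS (hlS v hv).1, (hlS v hv).2⟩) (by
      rw [hlen]
      push_cast at h1 ⊢
      linarith)
  exact ⟨l', hl', by omega, hlQ⟩

/- MODULE PC5 -/
open Classical in
private lemma PC5_deg (G : SimpleGraph V) (Q S : Finset V) (d θ : ℝ)
    (h : ∀ c : ℝ, d ^ 2 ≤ 64 * Q.card * c → θ ≤ c)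
    (hdeg : ∀ x ∈ S, 3 * (S.card : ℝ) ≤
      4 * ((S.filter (fun y => y ≠ x ∧ d ^ 2 ≤ 64 * Q.card * (codeg G Q x y : ℝ))).card : ℝ)) :
    ∀ x ∈ S, 3 * (S.card : ℝ) ≤
      4 * ((S.filter (fun y => y ≠ x ∧ θ ≤ (codeg G Q x y : ℝ))).card : ℝ) := by
  intro x hx
  refine (hdeg x hx).trans ?_
  have hsub : (S.filter (fun y => y ≠ x ∧ d ^ 2 ≤ 64 * Q.card * (codeg G Q x y : ℝ))) ⊆
      (S.filter (fun y => y ≠ x ∧ θ ≤ (codeg G Q x y : ℝ))) := by
    intro y hy
    rw [Finset.mem_filter] at hy ⊢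
    exact ⟨hy.1, hy.2.1, h _ hy.2.2⟩
  have : ((S.filter (fun y => y ≠ x ∧ d ^ 2 ≤ 64 * Q.card * (codeg G Q x y : ℝ))).card : ℝ) ≤
      ((S.filter (fun y => y ≠ x ∧ θ ≤ (codeg G Q x y : ℝ))).card : ℝ) := by
    exact_mod_cast Finset.card_le_card hsub
  linarith

/-- THE GADGET.  Between two vertices `e1 ≠ e2` of the piece outside the forbidden set `X` there are
paths with `f, f + 2, …, f + 2 (ρ - 1)` vertices, inside `Q ∖ X`.
PROOF. `Q' = Q ∖ X` has all inside degrees at least `D - |X| ≥ D/2 ≥ 64` and is nonempty.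
`gadget_set` for `Q'`, `d = D/2`: `S ⊆ Q'`, `|S| ≥ D/4`, most pairs good with `θ = d²/(64 |Q'|) ≥ D/(256 K)`
common neighbours in `Q'`.  `short_path` from `e1` to some element `≠ e2` of `S`, avoiding `X ∪ {e2}`; cut it
at the first vertex in `S` (`cut_first`): `l1` from `e1` to `s1 ∈ S`, meeting `S` only in `s1`.
`short_path` from `e2` to some element of `S ∖ {s1}`, avoiding `X ∪ l1` (size `≤ |X| + 6 K + 1`), cut at
the first vertex in `S`: `l2` from `e2` to `s2 ∈ S`, `s2 ≠ s1`.  With
`X' = (l1 ∪ l2) ∖ {s1, s2}` (at most `2 (6 K + 1)` elements) use `flex` in `Q'` for `j = i + 2`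
(`i < ρ`), forbidden set `X'`, from `s1` to `s2`.  Glue `l1`, the flexible path, and the reverse of
`l2` (`PathL.glue`, twice): `|l1| - 1 + 2 (i + 2) + 1 + |l2| - 1` vertices. -/
theorem gadget [DecidableEq V] (G : SimpleGraph V) (Q X : Finset V) (D K : ℝ) (t : ℕ)
    (hD : 128 ≤ D) (hmin : ∀ v ∈ Q, D ≤ (dg G Q v : ℝ)) (hQ : (Q.card : ℝ) ≤ K * D)
    (hconn : Conn G Q t) (hXt : (X.card : ℝ) + (6 * K + 2) ≤ t)
    (hXD : 2 * ((X.card : ℝ) + (6 * K + 2)) ≤ D) (e1 e2 : V) (he : e1 ≠ e2)
    (he1 : e1 ∈ Q) (he1X : e1 ∉ X) (he2 : e2 ∈ Q) (he2X : e2 ∉ X) (ρ : ℕ)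
    (hρ : (2 * (ρ + 1) + 1 + 2 * (6 * K + 1) : ℝ) ≤ D / (256 * K))
    (hρ2 : (2 * ((ρ + 1) + 2 * (6 * K + 1) + 2) : ℝ) ≤ D / 4) :
    ∃ f : ℕ, ∀ i < ρ, ∃ l, PathL G e1 e2 l ∧ l.length = f + 2 * i ∧ ∀ v ∈ l, v ∈ Q ∧ v ∉ X := by
  classical
  have hD0 : 0 < D := by linarith
  have hQpos : (1 : ℝ) ≤ Q.card := by
    have : 0 < Q.card := Finset.card_pos.2 ⟨e1, he1⟩
    exact_mod_cast this
  have hK0 : 0 < K := by
    by_contra hneg
    push Not at hneg
    nlinarith
  have hXDc : 2 * (X.card : ℝ) ≤ D := by linarith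
  have hX0 : (0 : ℝ) ≤ X.card := Nat.cast_nonneg _
  -- the gadget set
  set Q' : Finset V := Q \ X with hQ'
  have hQ'Q : Q' ⊆ Q := Finset.sdiff_subset
  have hmin' : ∀ v ∈ Q', D / 2 ≤ (dg G Q' v : ℝ) := by
    intro v hv
    have h1 := hmin v (hQ'Q hv)
    have h2 : dg G Q v ≤ dg G Q' v + X.card := by
      unfold dg
      have hsub : Q.filter (fun w => G.Adj v w) ⊆ Q'.filter (fun w => G.Adj v w) ∪ X := by
        intro u hu
        rw [Finset.mem_filter] at hu
        rw [Finset.mem_union, Finset.mem_filter, hQ', Finset.mem_sdiff]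
        by_cases huX : u ∈ X
        · right; exact huX
        · left; exact ⟨⟨hu.1, huX⟩, hu.2⟩
      exact (Finset.card_le_card hsub).trans (Finset.card_union_le _ _)
    have h3 : ((dg G Q v : ℕ) : ℝ) ≤ dg G Q' v + X.card := by exact_mod_cast h2
    linarith
  have hQ'ne : Q'.Nonempty := ⟨e1, by rw [hQ', Finset.mem_sdiff]; exact ⟨he1, he1X⟩⟩
  obtain ⟨S, hSQ', hScard, hSdeg⟩ := gadget_set G Q' (D / 2) (by linarith) hQ'ne hmin'
  have hQ'pos : (0 : ℝ) < Q'.card := by exact_mod_cast hQ'ne.card_pos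
  set θ : ℝ := (D / 2) ^ 2 / (64 * Q'.card) with hθ
  have hθD : D / (256 * K) ≤ θ := by
    rw [hθ, div_le_div_iff₀ (by positivity) (by positivity)]
    have h1 : (Q'.card : ℝ) ≤ K * D := by
      have : (Q'.card : ℝ) ≤ Q.card := by exact_mod_cast Finset.card_le_card hQ'Q
      linarith
    nlinarith [mul_le_mul_of_nonneg_left h1 hD0.le]
  have hSdeg' := PC5_deg G Q' S (D / 2) θ (by
    intro c hc
    rw [hθ, div_le_iff₀ (by positivity)]
    linarith) hSdeg
  have hS4 : D / 4 ≤ (S.card : ℝ) := by linarith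
  have hSpos : 1 < S.card := by
    have : (1 : ℝ) < S.card := by linarith
    exact_mod_cast this
  have hSQ : ∀ v ∈ S, v ∈ Q ∧ v ∉ X := fun v hv => Finset.mem_sdiff.1 (hSQ' hv)
  -- first link
  obtain ⟨a1, ha1, ha1e⟩ := Finset.exists_mem_ne hSpos e2
  have hXe : (insert e2 X).card ≤ X.card + 1 := Finset.card_insert_le _ _
  have hXe' : ((insert e2 X).card : ℝ) ≤ X.card + 1 := by exact_mod_cast hXe
  obtain ⟨p1, hp1, hp1Q, hp1len⟩ := short_path G Q (insert e2 X) D K t hD0 hmin hQ hconn (by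
      have : ((insert e2 X).card : ℝ) ≤ t := by linarith
      exact_mod_cast this) (by linarith) e1 a1 he1
      (by rw [Finset.mem_insert, not_or]; exact ⟨he, he1X⟩) (hSQ a1 ha1).1
      (by rw [Finset.mem_insert, not_or]; exact ⟨ha1e, (hSQ a1 ha1).2⟩)
  obtain ⟨s1, hs1, hs1p, l1, hl1, hl1p, hl1S, hl1len⟩ := cut_first hp1 (fun v => v ∈ S)
    ⟨a1, hp1.right_mem, ha1⟩
  have hl1len' : (l1.length : ℝ) ≤ 6 * K + 1 := by
    have : (l1.length : ℝ) ≤ p1.length := by exact_mod_cast hl1len
    linarith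
  have hl1Q : ∀ v ∈ l1, v ∈ Q ∧ v ∉ X ∧ v ≠ e2 := by
    intro v hv
    have h1 := hp1Q v (hl1p v hv)
    rw [Finset.mem_insert, not_or] at h1
    exact ⟨h1.1, h1.2.2, h1.2.1⟩
  -- second link
  obtain ⟨a2, ha2, ha2s⟩ := Finset.exists_mem_ne hSpos s1
  have hX2 : (X ∪ l1.toFinset).card ≤ X.card + l1.length :=
    (Finset.card_union_le _ _).trans (Nat.add_le_add_left (List.toFinset_card_le _) _)
  have hX2' : ((X ∪ l1.toFinset).card : ℝ) ≤ X.card + l1.length := by exact_mod_cast hX2
  obtain ⟨p2, hp2, hp2Q, hp2len⟩ := short_path G Q (X ∪ l1.toFinset) D K t hD0 hmin hQ hconn (by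
      have : ((X ∪ l1.toFinset).card : ℝ) ≤ t := by linarith
      exact_mod_cast this) (by linarith) e2 a2 he2
      (by
        rw [Finset.mem_union, not_or, List.mem_toFinset]
        exact ⟨he2X, fun h => (hl1Q e2 h).2.2 rfl⟩) (hSQ a2 ha2).1
      (by
        rw [Finset.mem_union, not_or, List.mem_toFinset]
        exact ⟨(hSQ a2 ha2).2, fun h => ha2s (hl1S a2 h ha2)⟩)
  obtain ⟨s2, hs2, hs2p, l2, hl2, hl2p, hl2S, hl2len⟩ := cut_first hp2 (fun v => v ∈ S)
    ⟨a2, hp2.right_mem, ha2⟩
  have hl2len' : (l2.length : ℝ) ≤ 6 * K + 1 := by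
    have : (l2.length : ℝ) ≤ p2.length := by exact_mod_cast hl2len
    linarith
  have hl2Q : ∀ v ∈ l2, v ∈ Q ∧ v ∉ X ∧ v ∉ l1 := by
    intro v hv
    have h1 := hp2Q v (hl2p v hv)
    rw [Finset.mem_union, not_or, List.mem_toFinset] at h1
    exact h1
  have hs12 : s1 ≠ s2 := by
    rintro rfl
    exact (hl2Q s1 hl2.right_mem).2.2 hl1.right_mem
  -- the flexible part
  set X' : Finset V := ((l1.toFinset ∪ l2.toFinset).erase s1).erase s2 with hX'
  have hX'card : (X'.card : ℝ) ≤ 2 * (6 * K + 1) := by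
    have h1 : X'.card ≤ l1.length + l2.length := by
      refine ((Finset.card_erase_le).trans Finset.card_erase_le).trans ?_
      exact (Finset.card_union_le _ _).trans
        (Nat.add_le_add (List.toFinset_card_le _) (List.toFinset_card_le _))
    have h2 : (X'.card : ℝ) ≤ l1.length + l2.length := by exact_mod_cast h1
    linarith
  refine ⟨l1.length + l2.length + 3, fun i hi => ?_⟩
  have hiρ : ((i : ℕ) : ℝ) + 1 ≤ ρ := by exact_mod_cast hi
  obtain ⟨l, hl, hllen, hlQ⟩ := flex G Q' S X' θ hSQ' hSdeg' (i + 2) (by omega)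
    (by push_cast; linarith) (by push_cast; linarith) s1 s2 hs1 hs2 hs12
    (by rw [hX', Finset.mem_erase, Finset.mem_erase]; tauto)
    (by rw [hX', Finset.mem_erase]; tauto)
  have hlX' : ∀ v ∈ l, v ∈ l1 ∨ v ∈ l2 → v = s1 ∨ v = s2 := by
    intro v hv h
    by_contra hne
    rw [not_or] at hne
    apply (hlQ v hv).2
    rw [hX', Finset.mem_erase, Finset.mem_erase, Finset.mem_union, List.mem_toFinset,
      List.mem_toFinset]
    exact ⟨hne.2, hne.1, h⟩
  have hg1 : PathL G e1 s2 (l1 ++ l.tail) := by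
    apply hl1.glue hl
    intro v hv hvl
    rcases hlX' v hvl (Or.inl hv) with h | h
    · exact h
    · subst h
      exact (hl1S v hv hs2)
  have hg2 : PathL G e1 e2 ((l1 ++ l.tail) ++ l2.reverse.tail) := by
    apply hg1.glue hl2.reverse
    intro v hv hvl
    rw [List.mem_reverse] at hvl
    rw [List.mem_append] at hv
    rcases hv with hv | hv
    · exact absurd hv (hl2Q v hvl).2.2
    · rcases hlX' v (List.mem_of_mem_tail hv) (Or.inr hvl) with h | h
      · subst h
        exact absurd hl1.right_mem (hl2Q v hvl).2.2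
      · exact h
  refine ⟨_, hg2, ?_, ?_⟩
  · rw [List.length_append, List.length_append, List.length_tail, List.length_tail,
      List.length_reverse, hllen]
    have : 0 < l2.length := List.length_pos_of_ne_nil hl2.ne_nil
    omega
  · intro v hv
    rw [List.mem_append, List.mem_append] at hv
    rcases hv with (hv | hv) | hv
    · exact ⟨(hl1Q v hv).1, (hl1Q v hv).2.1⟩
    · exact Finset.mem_sdiff.1 (hlQ v (List.mem_of_mem_tail hv)).1
    · have hv2 := List.mem_of_mem_tail hv
      rw [List.mem_reverse] at hv2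
      exact ⟨(hl2Q v hv2).1, (hl2Q v hv2).2.1⟩

end TurMod
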