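import Pool.Agent.TurMod.Reg
import Pool.Agent.TurMod.ConMat

/-!
# The regularity lemma, with control of all edges; the reduced graph of a graph without `C_(2m)`, `C_l`
-/

namespace TurMod

open Finset

universe u

/-- the graph of those edges of `G` which go between clusters adjacent in `R` -/
def supG {V : Type*} {ι : Type*} (G : SimpleGraph V) (R : SimpleGraph ι) (X : ι → Finset V) :
    SimpleGraph V where
  Adj u v := G.Adj u v ∧ ∃ a b, R.Adj a b ∧ u ∈ X a ∧ v ∈ X b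
  symm := ⟨by
    rintro u v ⟨h, a, b, hab, hu, hv⟩
    exact ⟨h.symm, b, a, hab.symm, hv, hu⟩⟩
  loopless := ⟨fun v h => G.loopless.irrefl v h.1⟩

/- MODULE RH1 -/
private theorem RH1_vol {V : Type u} [Fintype V] [DecidableEq V] (G : SimpleGraph V)
    [DecidableRel G.Adj] : vol G Finset.univ =
      (((Finset.univ : Finset V) ×ˢ (Finset.univ : Finset V)).filter
        fun e => G.Adj e.1 e.2).card := by
  unfold vol
  rw [Finset.card_filter, Finset.sum_product]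
  refine Finset.sum_congr rfl fun x _ => ?_
  have h2 : (∑ w : V, if G.Adj x w then 1 else 0) =
      (Finset.univ.filter fun w => G.Adj x w).card := (Finset.card_filter _ _).symm
  refine Eq.trans ?_ h2.symm
  unfold dg
  congr 1
  ext w
  simp only [Finset.mem_filter]

private theorem RH1_bad {V : Type u} [Fintype V] [DecidableEq V] [Nonempty V] (G : SimpleGraph V)
    [DecidableRel G.Adj] (κ ε₁ : ℝ) (hκ : 0 < κ) (hε : 0 < ε₁) (h32 : ε₁ ≤ κ / 32)
    (P : Finpartition (Finset.univ : Finset V)) (hP : P.IsEquipartition)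
    (hu : P.IsUniform G ε₁) (hk : 16 / κ ≤ (P.parts.card : ℝ)) :
    ∃ S : Finset (V × V), (S.card : ℝ) ≤ κ / 2 * (Fintype.card V : ℝ) ^ 2 ∧
      ∀ x y, G.Adj x y → (x, y) ∈ S ∨ ∃ U W, U ∈ P.parts ∧ W ∈ P.parts ∧ U ≠ W ∧
        G.IsUniform ε₁ U W ∧ κ / 16 ≤ (G.edgeDensity U W : ℝ) ∧ x ∈ U ∧ y ∈ W := by
  classical
  have hcard : ((Finset.univ : Finset V).card : ℝ) = (Fintype.card V : ℝ) := by
    rw [Finset.card_univ]
  have bA := hP.sum_nonUniforms_lt (G := G) Finset.univ_nonempty hε hu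
  have bB := hP.card_biUnion_offDiag_le (ε := κ / 4) (by positivity) (by
    have h1 : (4 : ℝ) / (κ / 4) = 16 / κ := by
      field_simp
      norm_num
    rw [h1]
    exact hk)
  have bC := hP.card_interedges_sparsePairs_le (G := G) (ε := κ / 16) (by positivity)
  rw [hcard] at bA bB bC
  refine ⟨((P.nonUniforms G ε₁).biUnion fun (U, V) ↦ U ×ˢ V) ∪ (P.parts.biUnion Finset.offDiag) ∪
        ((P.sparsePairs G (κ / 16)).biUnion fun (U, V) ↦ G.interedges U V), ?_, ?_⟩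
  · have h1 := (Finset.card_union_le (((P.nonUniforms G ε₁).biUnion fun (U, V) ↦ U ×ˢ V) ∪
      (P.parts.biUnion Finset.offDiag))
      ((P.sparsePairs G (κ / 16)).biUnion fun (U, V) ↦ G.interedges U V)).trans
      (Nat.add_le_add_right (Finset.card_union_le _ _) _)
    have h3 := (Nat.cast_le (α := ℝ)).2 h1
    push_cast at h3
    have h4 : 4 * ε₁ * (Fintype.card V : ℝ) ^ 2 ≤ κ / 8 * (Fintype.card V : ℝ) ^ 2 := by
      have : (0 : ℝ) ≤ (Fintype.card V : ℝ) ^ 2 := by positivity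
      nlinarith
    refine le_trans h3 ?_
    have h5 : κ / 2 * (Fintype.card V : ℝ) ^ 2 = κ / 8 * (Fintype.card V : ℝ) ^ 2 +
        κ / 4 / 2 * (Fintype.card V : ℝ) ^ 2 + 4 * (κ / 16) * (Fintype.card V : ℝ) ^ 2 := by ring
    rw [h5]
    exact add_le_add (add_le_add (bA.le.trans h4) bB) bC
  · intro x y hxy
    obtain ⟨U, hU, hxU⟩ := P.exists_mem (Finset.mem_univ x)
    obtain ⟨W, hW, hyW⟩ := P.exists_mem (Finset.mem_univ y)
    by_cases hUW : U = W
    · subst hUW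
      left
      apply Finset.mem_union_left
      apply Finset.mem_union_right
      rw [Finset.mem_biUnion]
      exact ⟨U, hU, Finset.mem_offDiag.2 ⟨hxU, hyW, hxy.ne⟩⟩
    · by_cases h1 : G.IsUniform ε₁ U W
      · by_cases h2 : κ / 16 ≤ (G.edgeDensity U W : ℝ)
        · right
          exact ⟨U, W, hU, hW, hUW, h1, h2, hxU, hyW⟩
        · left
          apply Finset.mem_union_right
          rw [Finset.mem_biUnion]
          refine ⟨(U, W), (P.mk_mem_sparsePairs G U W (κ / 16)).2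
            ⟨hU, hW, hUW, not_le.1 h2⟩, ?_⟩
          exact Rel.mk_mem_interedges_iff.2 ⟨hxU, hyW, hxy⟩
      · left
        apply Finset.mem_union_left
        apply Finset.mem_union_left
        rw [Finset.mem_biUnion]
        exact ⟨(U, W), P.mk_mem_nonUniforms (G := G).2 ⟨hU, hW, hUW, h1⟩,
          Finset.mem_product.2 ⟨hxU, hyW⟩⟩

private theorem RH1_const (κ σ : ℝ) (hκ : 0 < κ) (hσ : 0 < σ) (l0 : ℕ) :
    ∃ (ε₁ : ℝ) (l M : ℕ), 0 < ε₁ ∧ ε₁ ≤ κ / 32 ∧ ε₁ ≤ σ / 4 ∧ l0 ≤ l ∧ 16 / κ ≤ (l : ℝ) ∧ 1 ≤ l ∧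
      l ≤ M ∧ SzemerediRegularity.bound ε₁ l ≤ M ∧
      6 * (SzemerediRegularity.bound ε₁ l : ℝ) / κ ≤ (M : ℝ) ∧
      (SzemerediRegularity.bound ε₁ l : ℝ) * (2 + 4 / σ) ≤ (M : ℝ) := by
  obtain ⟨ε₁, hε₁⟩ : ∃ ε₁, ε₁ = min (κ / 32) (σ / 4) := ⟨_, rfl⟩
  obtain ⟨l, hl⟩ : ∃ l, l = max (max l0 ⌈16 / κ⌉₊) 1 := ⟨_, rfl⟩
  obtain ⟨M0, hM0⟩ : ∃ M0, M0 = SzemerediRegularity.bound ε₁ l := ⟨_, rfl⟩
  refine ⟨ε₁, l, M0 + l + ⌈6 * (M0 : ℝ) / κ⌉₊ + ⌈(M0 : ℝ) * (2 + 4 / σ)⌉₊, ?_, ?_, ?_, ?_, ?_, ?_,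
    ?_, ?_, ?_, ?_⟩
  · rw [hε₁]
    positivity
  · rw [hε₁]
    exact min_le_left _ _
  · rw [hε₁]
    exact min_le_right _ _
  · rw [hl]
    exact (le_max_left _ _).trans (le_max_left _ _)
  · have h1 : ⌈16 / κ⌉₊ ≤ l := by
      rw [hl]
      exact (le_max_right _ _).trans (le_max_left _ _)
    exact (Nat.le_ceil _).trans (by exact_mod_cast h1)
  · rw [hl]
    exact le_max_right _ _
  · omega
  · rw [← hM0]
    omega
  · rw [← hM0]
    refine (Nat.le_ceil _).trans ?_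
    push_cast
    have h1 : (0 : ℝ) ≤ (M0 : ℝ) := Nat.cast_nonneg _
    have h2 : (0 : ℝ) ≤ (l : ℝ) := Nat.cast_nonneg _
    have h3 : (0 : ℝ) ≤ ((⌈(M0 : ℝ) * (2 + 4 / σ)⌉₊ : ℕ) : ℝ) := Nat.cast_nonneg _
    linarith
  · rw [← hM0]
    refine (Nat.le_ceil _).trans ?_
    push_cast
    have h1 : (0 : ℝ) ≤ (M0 : ℝ) := Nat.cast_nonneg _
    have h2 : (0 : ℝ) ≤ (l : ℝ) := Nat.cast_nonneg _
    have h3 : (0 : ℝ) ≤ ((⌈6 * (M0 : ℝ) / κ⌉₊ : ℕ) : ℝ) := Nat.cast_nonneg _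
    linarith

private theorem RH1_N (σ ε₁ : ℝ) (hσ : 0 < σ) (hε : 0 < ε₁) (hεσ : ε₁ ≤ σ / 4) (n r M0 : ℕ)
    (hr : 1 ≤ r) (hrM : r ≤ M0) (hn : (M0 : ℝ) * (2 + 4 / σ) ≤ (n : ℝ)) :
    (1 : ℝ) ≤ ((n / r : ℕ) : ℝ) ∧ ((⌈ε₁ * (((n / r : ℕ) : ℝ) + 1)⌉₊ : ℕ) : ℝ) ≤
      σ * ((n / r : ℕ) : ℝ) := by
  have hr0 : (0 : ℝ) < (r : ℝ) := by exact_mod_cast hr
  have h1 : (r : ℝ) * (2 + 4 / σ) ≤ (n : ℝ) := by
    refine le_trans ?_ hn
    have : (r : ℝ) ≤ (M0 : ℝ) := by exact_mod_cast hrM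
    gcongr
  have h2 : n < r * (n / r) + r := Nat.lt_mul_div_succ n hr
  have h3 : (n : ℝ) < (r : ℝ) * ((n / r : ℕ) : ℝ) + (r : ℝ) := by exact_mod_cast h2
  have h4 : (r : ℝ) * (2 + 4 / σ) < (r : ℝ) * (((n / r : ℕ) : ℝ) + 1) := by
    calc _ ≤ _ := h1
      _ < _ := h3
      _ = _ := by ring
  have h5 : 2 + 4 / σ < ((n / r : ℕ) : ℝ) + 1 := lt_of_mul_lt_mul_left h4 hr0.le
  have h6 : 0 < 4 / σ := by positivity
  have h7 : σ * (4 / σ) = 4 := by field_simp
  refine ⟨by linarith, ?_⟩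
  have h8 := (Nat.ceil_lt_add_one (a := ε₁ * (((n / r : ℕ) : ℝ) + 1)) (by positivity)).le
  refine h8.trans ?_
  have h9 : ε₁ * (((n / r : ℕ) : ℝ) + 1) ≤ σ / 4 * (((n / r : ℕ) : ℝ) + 1) := by gcongr
  have h10 : σ * (1 + 4 / σ) ≤ σ * ((n / r : ℕ) : ℝ) := by
    have : 1 + 4 / σ ≤ ((n / r : ℕ) : ℝ) := by linarith
    gcongr
  rw [mul_add, h7] at h10
  nlinarith

/-- REGULARITY INTERFACE, SECOND FORM.  As `reg`, but all except `κ n²` of the ordered adjacent pairs are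
inside `supG`.
PROOF. Copy `bad_pairs` and `reg` (Reg.lean) and change the end: `vol G univ - vol (supG) univ` is the number of
ordered adjacent pairs `(x, y)` of `G` that are not adjacent in `supG`.  Such a pair is in one of the first three
sets of `hsub` in the proof of `bad_pairs` (together at most `(κ/2) n²` elements), or `x ∈ U`, `y ∈ W`, `(U, W)` good
and `x` or `y` is not in the chosen subset `X i` of its part: every part has at most one such
vertex (`|U| ≤ N + 1`), so these are at most `2 r n ≤ (κ/2) n²` pairs (`6 r ≤ κ n` is in the proof of `reg`). -/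
theorem reg2 (κ σ : ℝ) (hκ : 0 < κ) (hκ1 : κ ≤ 1) (hσ : 0 < σ) (l0 : ℕ) :
    ∃ M : ℕ, ∀ (V : Type u) [Fintype V] (G : SimpleGraph V), M ≤ Fintype.card V →
      ∃ r : ℕ, l0 ≤ r ∧ 1 ≤ r ∧ r ≤ M ∧ ∃ (X : Fin r → Finset V) (R : SimpleGraph (Fin r)) (N s : ℕ),
        N = Fintype.card V / r ∧ (s : ℝ) ≤ σ * N ∧ Clus G R X N s (κ / 32) ∧
        (vol G Finset.univ : ℝ) ≤ (vol (supG G R X) Finset.univ : ℝ) +
          κ * (Fintype.card V : ℝ) ^ 2 := by
  obtain ⟨ε₁, l, M, hε, hεκ, hεσ, hl0, hlκ, hl1, hlM, hbM, hM6, hMσ⟩ := RH1_const κ σ hκ hσ l0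
  refine ⟨M, ?_⟩
  intro V _ G hM
  classical
  obtain ⟨P, hP, hPl, hPb, hPu⟩ := szemeredi_regularity G hε (hlM.trans hM)
  obtain ⟨r, hr⟩ : ∃ r, r = P.parts.card := ⟨_, rfl⟩
  obtain ⟨n, hn⟩ : ∃ n, n = Fintype.card V := ⟨_, rfl⟩
  rw [← hr] at hPl hPb
  rw [← hn] at hM
  have hr1 : 1 ≤ r := hl1.trans hPl
  have hMn : (M : ℝ) ≤ (n : ℝ) := by exact_mod_cast hM
  obtain ⟨hN1, hsσ⟩ := RH1_N σ ε₁ hσ hε hεσ n r _ hr1 hPb (hMσ.trans hMn)
  have hne : Nonempty V := by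
    rw [← Fintype.card_pos_iff, ← hn]
    omega
  -- the parts
  have eq : Fin r ≃ P.parts := (finCongr hr).trans P.parts.equivFin.symm
  have hpart : ∀ i, (eq i : Finset V) ∈ P.parts := fun i => (eq i).2
  have hinj : ∀ i j, (eq i : Finset V) = (eq j : Finset V) → i = j := fun i j h =>
    eq.injective (Subtype.ext h)
  have hlow : ∀ i, n / r ≤ (eq i : Finset V).card := by
    intro i
    have h1 := hP.average_le_card_part (hpart i)
    rw [Finset.card_univ, ← hn, ← hr] at h1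
    exact h1
  have hup : ∀ i, (eq i : Finset V).card ≤ n / r + 1 := by
    intro i
    have h1 := hP.card_part_le_average_add_one (hpart i)
    rw [Finset.card_univ, ← hn, ← hr] at h1
    exact h1
  choose X hX hXc using fun i => Finset.exists_subset_card_eq (hlow i)
  let R : SimpleGraph (Fin r) :=
    { Adj := fun i j => i ≠ j ∧ G.IsUniform ε₁ (eq i : Finset V) (eq j : Finset V) ∧
        κ / 16 ≤ (G.edgeDensity (eq i : Finset V) (eq j : Finset V) : ℝ)
      symm := ⟨fun i j h => ⟨h.1.symm, h.2.1.symm, by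
        rw [SimpleGraph.edgeDensity_comm]
        exact h.2.2⟩⟩
      loopless := ⟨fun i h => h.1 rfl⟩ }
  obtain ⟨s, hs⟩ : ∃ s, s = ⌈ε₁ * (((n / r : ℕ) : ℝ) + 1)⌉₊ := ⟨_, rfl⟩
  have hs1 : 1 ≤ s := by
    rw [hs, Nat.one_le_ceil_iff]
    positivity
  have hsle : ∀ i, ((eq i : Finset V).card : ℝ) * ε₁ ≤ (s : ℝ) := by
    intro i
    have h1 : ((eq i : Finset V).card : ℝ) ≤ ((n / r : ℕ) : ℝ) + 1 := by exact_mod_cast hup i
    calc _ ≤ (((n / r : ℕ) : ℝ) + 1) * ε₁ := by gcongr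
      _ = ε₁ * (((n / r : ℕ) : ℝ) + 1) := mul_comm _ _
      _ ≤ _ := by
        rw [hs]
        exact Nat.le_ceil _
  refine ⟨r, hl0.trans hPl, hr1, hPb.trans hbM, X, R, n / r, s, by rw [hn], by rw [hs]; exact hsσ,
    ⟨?_, hXc, hs1, by positivity, by linarith, ?_⟩, ?_⟩
  · intro a b hab
    have h1 : Disjoint (eq a : Finset V) (eq b : Finset V) :=
      P.disjoint (hpart a) (hpart b) (fun h => hab (hinj a b h))
    exact Finset.disjoint_of_subset_left (hX a) (Finset.disjoint_of_subset_right (hX b) h1)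
  · intro a b hab B hB hsB A hA hsA
    have hsA' : (s : ℝ) ≤ (A.card : ℝ) := by exact_mod_cast hsA
    have hsB' : (s : ℝ) ≤ (B.card : ℝ) := by exact_mod_cast hsB
    exact typ_of_uniform G κ ε₁ hκ hε hεκ _ _ hab.2.1 hab.2.2 A B (hA.trans (hX a))
      (hB.trans (hX b)) (Finset.card_pos.1 (by omega)) (Finset.card_pos.1 (by omega))
      ((hsle a).trans hsA') ((hsle b).trans hsB')
  · obtain ⟨S, hS1, hS2⟩ := RH1_bad G κ ε₁ hκ hε hεκ P hP hPu (by
      rw [← hr]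
      exact hlκ.trans (by exact_mod_cast hPl))
    rw [← hn] at hS1 ⊢
    obtain ⟨Z, hZ⟩ : ∃ Z : Finset V, Z = (Finset.univ : Finset (Fin r)).biUnion
        fun i => (eq i : Finset V) \ X i := ⟨_, rfl⟩
    have hZc : Z.card ≤ r := by
      rw [hZ]
      refine Finset.card_biUnion_le.trans ?_
      refine (Finset.sum_le_card_nsmul _ _ 1 fun i _ => ?_).trans ?_
      · have h1 := Finset.card_sdiff_of_subset (hX i)
        have h2 := hup i
        have h3 := hXc i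
        omega
      · rw [Finset.card_univ, Fintype.card_fin, smul_eq_mul, mul_one]
    have hsub : ((Finset.univ : Finset V) ×ˢ (Finset.univ : Finset V)).filter
        (fun e => G.Adj e.1 e.2) ⊆
        (((Finset.univ : Finset V) ×ˢ (Finset.univ : Finset V)).filter
          (fun e => (supG G R X).Adj e.1 e.2)) ∪
        (S ∪ (Z ×ˢ (Finset.univ : Finset V) ∪ (Finset.univ : Finset V) ×ˢ Z)) := by
      rintro ⟨x, y⟩ hxy
      rw [Finset.mem_filter] at hxy
      rcases hS2 x y hxy.2 with h | ⟨U, W, hU, hW, hne', h1, h2, hxU, hyW⟩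
      · exact Finset.mem_union_right _ (Finset.mem_union_left _ h)
      · have hi : (eq (eq.symm ⟨U, hU⟩) : Finset V) = U := by rw [Equiv.apply_symm_apply]
        have hj : (eq (eq.symm ⟨W, hW⟩) : Finset V) = W := by rw [Equiv.apply_symm_apply]
        by_cases hx : x ∈ X (eq.symm ⟨U, hU⟩)
        · by_cases hy : y ∈ X (eq.symm ⟨W, hW⟩)
          · apply Finset.mem_union_left
            rw [Finset.mem_filter]
            refine ⟨hxy.1, hxy.2, eq.symm ⟨U, hU⟩, eq.symm ⟨W, hW⟩, ⟨?_, ?_, ?_⟩, hx, hy⟩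
            · intro h3
              have h4 := eq.symm.injective h3
              exact hne' (congrArg Subtype.val h4)
            · rw [hi, hj]
              exact h1
            · rw [hi, hj]
              exact h2
          · apply Finset.mem_union_right
            apply Finset.mem_union_right
            apply Finset.mem_union_right
            rw [Finset.mem_product]
            refine ⟨Finset.mem_univ _, ?_⟩
            rw [hZ, Finset.mem_biUnion]
            exact ⟨eq.symm ⟨W, hW⟩, Finset.mem_univ _, Finset.mem_sdiff.2 ⟨by rw [hj]; exact hyW, hy⟩⟩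
        · apply Finset.mem_union_right
          apply Finset.mem_union_right
          apply Finset.mem_union_left
          rw [Finset.mem_product]
          refine ⟨?_, Finset.mem_univ _⟩
          rw [hZ, Finset.mem_biUnion]
          exact ⟨eq.symm ⟨U, hU⟩, Finset.mem_univ _, Finset.mem_sdiff.2 ⟨by rw [hi]; exact hxU, hx⟩⟩
    have h1 := (Finset.card_le_card hsub).trans ((Finset.card_union_le _ _).trans
      (Nat.add_le_add_left ((Finset.card_union_le _ _).trans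
        (Nat.add_le_add_left (Finset.card_union_le _ _) _)) _))
    rw [← RH1_vol G, ← RH1_vol (supG G R X), Finset.card_product, Finset.card_product,
      Finset.card_univ, ← hn] at h1
    have h2 : (vol G Finset.univ : ℝ) ≤ (vol (supG G R X) Finset.univ : ℝ) +
        ((S.card : ℝ) + ((Z.card : ℝ) * (n : ℝ) + (n : ℝ) * (Z.card : ℝ))) := by
      exact_mod_cast h1
    have hrM : (r : ℝ) ≤ (SzemerediRegularity.bound ε₁ l : ℝ) := by exact_mod_cast hPb
    have h6 : 6 * (r : ℝ) ≤ κ * (n : ℝ) := by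
      have h7 := (hM6.trans hMn)
      rw [div_le_iff₀ hκ] at h7
      linarith
    have hn0 : (0 : ℝ) ≤ (n : ℝ) := Nat.cast_nonneg n
    have hZr : (Z.card : ℝ) ≤ (r : ℝ) := by exact_mod_cast hZc
    have h8 : (Z.card : ℝ) * (n : ℝ) ≤ κ / 6 * (n : ℝ) ^ 2 := by
      have h9 : (Z.card : ℝ) * (n : ℝ) ≤ (r : ℝ) * (n : ℝ) := by gcongr
      nlinarith
    have h10 : (0 : ℝ) ≤ κ * (n : ℝ) ^ 2 := by positivity
    nlinarith

/- MODULE RH2 -/
private theorem RH2_vol {V : Type*} [DecidableEq V] (G : SimpleGraph V) [DecidableRel G.Adj]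
    (S : Finset V) : vol G S = ∑ e ∈ S ×ˢ S, if G.Adj e.1 e.2 then 1 else 0 := by
  unfold vol
  rw [Finset.sum_product]
  refine Finset.sum_congr rfl fun x _ => ?_
  unfold dg
  rw [Finset.card_filter]
  refine Finset.sum_congr rfl fun y _ => ?_
  by_cases h : G.Adj x y
  · rw [if_pos h, if_pos h]
  · rw [if_neg h, if_neg h]

/-- PROOF. A vertex `v ∈ X a`, `a ∈ S`, has at most `N · dg R S a` neighbours of `supG` inside `W` (they are in the
clusters `X b`, `b ∈ S`, `R.Adj a b`; the clusters are disjoint, so `a` is determined by `v`), a vertex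
outside all clusters has none.  Sum over the `N` vertices of each cluster. -/
theorem vol_supG {V : Type*} {ι : Type*} [Fintype ι] [DecidableEq ι] [DecidableEq V]
    (G : SimpleGraph V) (R : SimpleGraph ι) (X : ι → Finset V) (N : ℕ)
    (hdis : ∀ a b, a ≠ b → Disjoint (X a) (X b)) (hsz : ∀ a, (X a).card = N) (S : Finset ι)
    (W : Finset V) (hW : ∀ a, a ∉ S → Disjoint (X a) W) :
    vol (supG G R X) W ≤ vol R S * N ^ 2 := by
  classical
  have h1 : ∀ v ∈ W, dg (supG G R X) W v ≤ ∑ a ∈ S, if v ∈ X a then N * dg R S a else 0 := by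
    intro v hv
    by_cases hne : (W.filter (fun w => (supG G R X).Adj v w)).Nonempty
    · obtain ⟨w, hw⟩ := hne
      obtain ⟨_, a, b, hab, hva, _⟩ := (Finset.mem_filter.1 hw).2
      have haS : a ∈ S := by
        by_contra h
        exact Finset.disjoint_left.1 (hW a h) hva hv
      have h2 : dg (supG G R X) W v ≤ N * dg R S a := by
        have h3 : W.filter (fun w => (supG G R X).Adj v w) ⊆
            (S.filter (fun c => R.Adj a c)).biUnion X := by
          intro z hz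
          rw [Finset.mem_filter] at hz
          obtain ⟨hzW, _, a', b', hab', hva', hzb'⟩ := hz
          have haa : a' = a := by
            by_contra h
            exact Finset.disjoint_left.1 (hdis a' a h) hva' hva
          subst haa
          rw [Finset.mem_biUnion]
          refine ⟨b', Finset.mem_filter.2 ⟨?_, hab'⟩, hzb'⟩
          by_contra h
          exact Finset.disjoint_left.1 (hW b' h) hzb' hzW
        have h4 := (Finset.card_le_card h3).trans Finset.card_biUnion_le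
        unfold dg
        refine h4.trans ?_
        rw [Finset.sum_congr rfl (fun c _ => hsz c), Finset.sum_const, smul_eq_mul, mul_comm]
      refine h2.trans ?_
      have h5 := Finset.single_le_sum (f := fun a => if v ∈ X a then N * dg R S a else 0)
        (fun c _ => Nat.zero_le _) haS
      simp only [if_pos hva] at h5
      exact h5
    · rw [Finset.not_nonempty_iff_eq_empty] at hne
      unfold dg
      rw [hne, Finset.card_empty]
      exact Nat.zero_le _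
  unfold vol
  refine (Finset.sum_le_sum h1).trans ?_
  rw [Finset.sum_comm, Finset.sum_mul]
  refine Finset.sum_le_sum fun a _ => ?_
  rw [← Finset.sum_filter, Finset.sum_const, smul_eq_mul]
  have h6 : (W.filter (fun v => v ∈ X a)).card ≤ N := by
    rw [← hsz a]
    exact Finset.card_le_card fun v hv => (Finset.mem_filter.1 hv).2
  calc _ ≤ N * (N * dg R S a) := Nat.mul_le_mul_right _ h6
    _ = dg R S a * N ^ 2 := by ring

/-- PROOF. `vol G W - vol H W` = the number of ordered pairs in `W` adjacent in `G`, not in `H`. -/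
theorem vol_sub_mono {V : Type*} [Fintype V] [DecidableEq V] (G H : SimpleGraph V) (hH : H ≤ G)
    (W : Finset V) : vol G W + vol H Finset.univ ≤ vol H W + vol G Finset.univ := by
  classical
  rw [RH2_vol G W, RH2_vol H W, RH2_vol G Finset.univ, RH2_vol H Finset.univ]
  have hs : W ×ˢ W ⊆ (Finset.univ : Finset V) ×ˢ (Finset.univ : Finset V) :=
    Finset.product_subset_product (Finset.subset_univ _) (Finset.subset_univ _)
  have h1 := Finset.sum_sdiff (f := fun e : V × V => if G.Adj e.1 e.2 then 1 else 0) hs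
  have h2 := Finset.sum_sdiff (f := fun e : V × V => if H.Adj e.1 e.2 then 1 else 0) hs
  have h3 : ∑ e ∈ ((Finset.univ : Finset V) ×ˢ (Finset.univ : Finset V)) \ (W ×ˢ W),
      (if H.Adj e.1 e.2 then 1 else 0) ≤
      ∑ e ∈ ((Finset.univ : Finset V) ×ˢ (Finset.univ : Finset V)) \ (W ×ˢ W),
      (if G.Adj e.1 e.2 then 1 else 0) := by
    refine Finset.sum_le_sum fun e _ => ?_
    by_cases h : H.Adj e.1 e.2
    · rw [if_pos h, if_pos (hH h)]
    · rw [if_neg h]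
      exact Nat.zero_le _
  omega

/-- PROOF. Every ordered pair adjacent in `supG` is inside `P'` or inside its complement. -/
theorem vol_supG_split {V : Type*} {ι : Type*} [Fintype V] [DecidableEq V]
    (G : SimpleGraph V) (R : SimpleGraph ι) (X : ι → Finset V) (N : ℕ)
    (hdis : ∀ a b, a ≠ b → Disjoint (X a) (X b)) (P : Finset ι)
    (hP : ∀ a ∈ P, ∀ b, b ∉ P → ¬ R.Adj a b) (P' : Finset V)
    (hP' : ∀ v, v ∈ P' ↔ ∃ a ∈ P, v ∈ X a) :
    vol (supG G R X) Finset.univ = vol (supG G R X) P' + vol (supG G R X) (Finset.univ \ P') := by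
  classical
  have hkey : ∀ x y, (supG G R X).Adj x y → x ∈ P' → y ∈ P' := by
    rintro x y ⟨_, a, b, hab, hx, hy⟩ hxP
    obtain ⟨a', ha', hxa'⟩ := (hP' x).1 hxP
    have haa : a' = a := by
      by_contra h
      exact Finset.disjoint_left.1 (hdis a' a h) hxa' hx
    subst haa
    rw [hP']
    refine ⟨b, ?_, hy⟩
    by_contra h
    exact hP a' ha' b h hab
  unfold vol
  rw [← Finset.sum_sdiff (Finset.subset_univ P'), add_comm]
  refine congrArg₂ (· + ·) ?_ ?_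
  · refine Finset.sum_congr rfl fun x hx => ?_
    unfold dg
    congr 1
    ext y
    simp only [Finset.mem_filter, Finset.mem_univ, true_and]
    exact ⟨fun h => ⟨hkey x y h hx, h⟩, fun h => h.2⟩
  · refine Finset.sum_congr rfl fun x hx => ?_
    rw [Finset.mem_sdiff] at hx
    unfold dg
    congr 1
    ext y
    simp only [Finset.mem_filter, Finset.mem_univ, true_and, Finset.mem_sdiff]
    exact ⟨fun h => ⟨fun hy => hx.2 (hkey y x h.symm hy), h⟩, fun h => h.2⟩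

/- MODULE RH3 -/
/-- the reduced graph `R` of a graph `G` without cycles of the lengths `2 m` and `l` -/
structure Red {V : Type*} [Fintype V] (G : SimpleGraph V) (r : ℕ) (R : SimpleGraph (Fin r))
    (X : Fin r → Finset V) (N m l : ℕ) (θ : ℝ) : Prop where
  disj : ∀ a b, a ≠ b → Disjoint (X a) (X b)
  size : ∀ a, (X a).card = N
  N1 : 1 ≤ N
  up : r * N ≤ Fintype.card V
  lo : (Fintype.card V : ℝ) ≤ (1 + θ) * (r * N)
  two : ∀ K ν x y, Conn R K 0 → Mat R K ν x y → (ν : ℝ) * N ≤ (1 + θ) * m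
  tri : ∀ K ν x y, Conn R K 0 → Mat R K ν x y →
    (∃ a ∈ K, ∃ b ∈ K, ∃ c ∈ K, R.Adj a b ∧ R.Adj b c ∧ R.Adj a c) →
    2 * ((ν : ℝ) * N) ≤ (1 + θ) * l
  sup : (vol G Finset.univ : ℝ) ≤ (vol (supG G R X) Finset.univ : ℝ) +
    θ * (Fintype.card V : ℝ) ^ 2

private theorem RH3_num (θ d M N g s : ℝ) (hθ : 0 < θ) (hθ1 : θ ≤ 1) (hd : d = θ / 32)
    (hM0 : 0 ≤ M) (hN : 0 < N) (hs0 : 0 ≤ s) (hs : s ≤ d * θ / 64 * N)
    (hN3 : (M * (6 * M + 10) + 5) * 32 ≤ N * (d * θ)) (hg1 : g ≤ θ / 8 * N)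
    (hg2 : θ / 8 * N - 1 ≤ g) :
    g + 3 * s ≤ θ / 4 * N ∧ 2 * s + M * (6 * M + 10) + 4 ≤ d * g := by
  have hd0 : 0 < d := by rw [hd]; positivity
  have hd1 : d ≤ 1 / 32 := by rw [hd]; linarith
  have hx : 0 < θ * N := mul_pos hθ hN
  have h1 : d * (θ * N) ≤ 1 / 32 * (θ * N) := mul_le_mul_of_nonneg_right hd1 hx.le
  have h2 : d * θ / 64 * N = d * (θ * N) / 64 := by ring
  have h3 : N * (d * θ) = d * (θ * N) := by ring
  have h4 : θ / 8 * N = (θ * N) / 8 := by ring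
  have h5 : θ / 4 * N = (θ * N) / 4 := by ring
  have h6 : d * ((θ * N) / 8 - 1) ≤ d * g := mul_le_mul_of_nonneg_left (by linarith) hd0.le
  have h7 : d * ((θ * N) / 8 - 1) = d * (θ * N) / 8 - d := by ring
  have h8 : 0 ≤ M * (6 * M + 10) := by positivity
  rw [h2] at hs
  rw [h3] at hN3
  rw [h4] at hg1
  rw [h5]
  rw [h7] at h6
  constructor
  · linarith
  · linarith

private theorem RH3_L2 (θ N g s L ν : ℝ) (hθ : 0 < θ) (hθ1 : θ ≤ 1) (hL : 0 ≤ L) (hν : 0 ≤ ν)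
    (hgs : g + 3 * s ≤ θ / 4 * N) (h : (1 + θ) * L < 2 * (ν * N)) :
    L + 2 * ν * (g + 3 * s) ≤ 2 * ν * N := by
  have h3 : 2 * ν * (g + 3 * s) ≤ 2 * ν * (θ / 4 * N) :=
    mul_le_mul_of_nonneg_left hgs (by positivity)
  have h5 : (1 - θ / 4) * ((1 + θ) * L) ≤ (1 - θ / 4) * (2 * (ν * N)) :=
    mul_le_mul_of_nonneg_left h.le (by linarith)
  have h6 : 1 ≤ (1 - θ / 4) * (1 + θ) := by nlinarith
  have h7 : 1 * L ≤ (1 - θ / 4) * (1 + θ) * L := mul_le_mul_of_nonneg_right h6 hL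
  have h8 : (1 - θ / 4) * (1 + θ) * L = (1 - θ / 4) * ((1 + θ) * L) := by ring
  have h9 : (1 - θ / 4) * (2 * (ν * N)) = 2 * ν * N - 2 * ν * (θ / 4 * N) := by ring
  rw [h8] at h7
  linarith

/-- PROOF. `κ = θ`, `d = κ/32`, `σ = d θ / 64`, `reg2 κ σ l0` gives `M`; `n = |V| ≥ 2 m ≥ M`.  `N = n / r`, `r ≤ M`, so `N` is as
large as we want (`N ≥ n/M - 1`); `N ≥ 1/θ` gives `n < r (N + 1) ≤ (1 + θ) r N`.  `g = ⌊(θ/8) N⌋`; `s ≤ σ N`:
`2 s ≤ (d/2) g` and `3 s ≤ θ N/8` (`N` large), so `g + 3 s ≤ θ N/4`; `M (6 M + 12) ≤ (d/2) g`.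
`two`: let `ν N > (1 + θ) m` (so `ν ≥ 1`; `ν ≤ r ≤ M`).  `conn_matching_cycle` with `q = ν`, `L = 2 m`:
`2 m + 2 ν (g + 3 s) ≤ 2 ν N` because `ν N (1 - θ/4) ≥ (1 + θ)(1 - θ/4) m ≥ m`; `ν (6 r + 12) ≤ 2 m`.
Contradiction.
`tri`: let `2 ν N > (1 + θ) l`.  If `l ≥ M (6 M + 12)`: `conn_matching_cycle` with `q = ν`, `L = l` (second alternative
of `hpar`).  Otherwise `odd_cycle_of_triangle` with `L = l` (`l + g + 3 s ≤ N`). -/
theorem dense_reduce (C θ : ℝ) (hC : 1 ≤ C) (hθ : 0 < θ) (hθ1 : θ ≤ 1) (l0 : ℕ) :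
    ∃ m0 : ℕ, ∀ m : ℕ, m0 ≤ m → ∀ l : ℕ, Odd l → 3 ≤ l → l < m →
      ∀ (V : Type u) [Fintype V] (G : SimpleGraph V), 2 * m ≤ Fintype.card V →
      (Fintype.card V : ℝ) ≤ C * m → ¬ HasCyc G (2 * m) → ¬ HasCyc G l →
      ∃ (r : ℕ) (R : SimpleGraph (Fin r)) (X : Fin r → Finset V) (N : ℕ),
        l0 ≤ r ∧ 1 ≤ r ∧ Red G r R X N m l θ := by
  obtain ⟨M, hM⟩ := reg2.{u} θ (θ / 32 * θ / 64) hθ hθ1 (by positivity) l0
  obtain ⟨N0, hN0⟩ := exists_nat_ge (1 / θ + 2 * ((M : ℝ) * (6 * M + 12)) +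
    ((M : ℝ) * (6 * M + 10) + 5) * 32 / (θ / 32 * θ))
  refine ⟨M * (N0 + 1) + M * (6 * M + 12) + 1, ?_⟩
  intro m hm l hlo hl3 hlm V _ G hGV _ hc2 hcl
  have hMV : M ≤ Fintype.card V := by
    have h1 : M * 1 ≤ M * (N0 + 1) := Nat.mul_le_mul_left M (by omega)
    omega
  obtain ⟨r, hr0, hr1, hrM, X, R, N, s, hN, hs, hC, hvol⟩ := hM V G hMV
  classical
  refine ⟨r, R, X, N, hr0, hr1, ?_⟩
  obtain ⟨n, hn⟩ : ∃ n, n = Fintype.card V := ⟨_, rfl⟩
  rw [← hn] at hGV hMV hN hvol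
  have hNN : N0 ≤ N := by
    rw [hN, Nat.le_div_iff_mul_le hr1]
    have h1 : N0 * r ≤ N0 * M := Nat.mul_le_mul_left N0 hrM
    have h2 : M * (N0 + 1) = N0 * M + M := by ring
    omega
  have hNR : (N0 : ℝ) ≤ (N : ℝ) := by exact_mod_cast hNN
  have hM0 : (0 : ℝ) ≤ (M : ℝ) := Nat.cast_nonneg M
  have hrMR : (r : ℝ) ≤ (M : ℝ) := by exact_mod_cast hrM
  have hr0' : (0 : ℝ) ≤ (r : ℝ) := Nat.cast_nonneg r
  have p1 : 0 < 1 / θ := by positivity
  have p2 : (0 : ℝ) ≤ 2 * ((M : ℝ) * (6 * M + 12)) := by positivity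
  have p3 : 0 < ((M : ℝ) * (6 * M + 10) + 5) * 32 / (θ / 32 * θ) := by positivity
  have hN1 : 1 / θ ≤ (N : ℝ) := by linarith
  have hN2 : 2 * ((M : ℝ) * (6 * M + 12)) ≤ (N : ℝ) := by linarith
  have hN3 : ((M : ℝ) * (6 * M + 10) + 5) * 32 / (θ / 32 * θ) ≤ (N : ℝ) := by linarith
  have hNpos : (0 : ℝ) < (N : ℝ) := by linarith
  have hθN : 1 ≤ θ * (N : ℝ) := by
    rw [div_le_iff₀ hθ] at hN1
    linarith
  obtain ⟨d, hd⟩ : ∃ d, d = θ / 32 := ⟨_, rfl⟩
  have hd0 : 0 < d := by rw [hd]; positivity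
  have hd1 : d ≤ 1 / 32 := by rw [hd]; linarith
  rw [← hd] at hs hC hN3
  rw [div_le_iff₀ (by positivity)] at hN3
  obtain ⟨g, hg⟩ : ∃ g : ℕ, g = ⌊θ / 8 * (N : ℝ)⌋₊ := ⟨_, rfl⟩
  have hg1 : (g : ℝ) ≤ θ / 8 * (N : ℝ) := by
    rw [hg]
    exact Nat.floor_le (by positivity)
  have hg2 : θ / 8 * (N : ℝ) - 1 ≤ (g : ℝ) := by
    have h1 := Nat.lt_floor_add_one (θ / 8 * (N : ℝ))
    rw [← hg] at h1
    linarith
  have hs0 : (0 : ℝ) ≤ (s : ℝ) := Nat.cast_nonneg s
  obtain ⟨hgs, hdg⟩ := RH3_num θ d M N g s hθ hθ1 hd hM0 hNpos hs0 hs hN3 hg1 hg2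
  have hNn : r * N ≤ n := by
    rw [hN]
    exact Nat.mul_div_le n r
  have hlo' : (n : ℝ) ≤ (1 + θ) * ((r : ℝ) * (N : ℝ)) := by
    have h1 : n < r * (n / r) + r := Nat.lt_mul_div_succ n hr1
    rw [← hN] at h1
    have h2 : (n : ℝ) < (r : ℝ) * (N : ℝ) + (r : ℝ) := by exact_mod_cast h1
    have h3 : (r : ℝ) * 1 ≤ (r : ℝ) * (θ * (N : ℝ)) := mul_le_mul_of_nonneg_left hθN hr0'
    have h4 : (1 + θ) * ((r : ℝ) * (N : ℝ)) = (r : ℝ) * (N : ℝ) + (r : ℝ) * (θ * (N : ℝ)) := by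
      ring
    rw [h4]
    linarith
  have hmR : (M : ℝ) * (6 * M + 12) ≤ (m : ℝ) := by
    have h1 : M * (6 * M + 12) ≤ m := by omega
    exact_mod_cast h1
  have hm0 : (0 : ℝ) < (m : ℝ) := by
    have h1 : 1 ≤ m := by omega
    exact_mod_cast h1
  -- the size of a matching
  have hsize : ∀ K ν x y, Mat R K ν x y → ν ≤ M := by
    intro K ν x y hMt
    refine le_trans ?_ hrM
    have h1 := Fintype.card_le_of_injective (fun i : Fin ν => x i) (by
      intro i j hij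
      by_contra h
      exact hMt.xx i i.2 j j.2 (fun h' => h (Fin.ext h')) hij)
    simpa using h1
  have hgR : ∀ ν : ℕ, ν ≤ M →
      (2 * s + ν * (6 * Fintype.card (Fin r) + 10) : ℝ) ≤ d * g := by
    intro ν hν
    rw [Fintype.card_fin]
    have h1 : (ν : ℝ) ≤ (M : ℝ) := by exact_mod_cast hν
    have h2 : (ν : ℝ) * (6 * (r : ℝ) + 10) ≤ (M : ℝ) * (6 * M + 10) := by
      apply mul_le_mul h1 (by linarith) (by positivity) hM0
    linarith
  have hL1 : ∀ ν L : ℕ, ν ≤ M → M * (6 * M + 12) ≤ L →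
      ν * (6 * Fintype.card (Fin r) + 12) ≤ L := by
    intro ν L hν hL
    rw [Fintype.card_fin]
    exact (Nat.mul_le_mul hν (by omega)).trans hL
  have hL2 : ∀ ν L : ℕ, (1 + θ) * (L : ℝ) < 2 * ((ν : ℝ) * (N : ℝ)) →
      L + 2 * ν * (g + 3 * s) ≤ 2 * ν * N := by
    intro ν L h
    have h7 := RH3_L2 θ N g s L ν hθ hθ1 (Nat.cast_nonneg L) (Nat.cast_nonneg ν) hgs h
    exact_mod_cast h7
  refine ⟨hC.disj, hC.size, ?_, ?_, ?_, ?_, ?_, ?_⟩
  · have h1 : (0 : ℝ) < (N : ℝ) := hNpos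
    exact Nat.succ_le_of_lt (by exact_mod_cast h1)
  · rw [← hn]
    exact hNn
  · rw [← hn]
    exact hlo'
  · intro K ν x y hK hMt
    by_contra hcon
    push Not at hcon
    have hν : 1 ≤ ν := by
      rcases Nat.eq_zero_or_pos ν with h0 | h0
      · exfalso
        rw [h0] at hcon
        have h1 : 0 ≤ (1 + θ) * (m : ℝ) := by positivity
        simp only [Nat.cast_zero, zero_mul] at hcon
        linarith
      · exact h0
    have hνM := hsize K ν x y hMt
    refine hc2 (conn_matching_cycle hC K hK ν hν x y hMt g (2 * m) (Or.inl (even_two_mul m))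
      (hgR ν hνM) (hL1 ν _ hνM (by omega)) (hL2 ν _ ?_))
    push_cast
    linarith
  · intro K ν x y hK hMt htri
    by_contra hcon
    push Not at hcon
    have hν : 1 ≤ ν := by
      rcases Nat.eq_zero_or_pos ν with h0 | h0
      · exfalso
        rw [h0] at hcon
        have h1 : 0 ≤ (1 + θ) * (l : ℝ) := by positivity
        simp only [Nat.cast_zero, zero_mul, mul_zero] at hcon
        linarith
      · exact h0
    have hνM := hsize K ν x y hMt
    by_cases hlM : M * (6 * M + 12) ≤ l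
    · exact hcl (conn_matching_cycle hC K hK ν hν x y hMt g l (Or.inr htri)
        (hgR ν hνM) (hL1 ν _ hνM hlM) (hL2 ν _ hcon))
    · obtain ⟨a, _, b, _, c, _, hab, hbc, hac⟩ := htri
      refine hcl (odd_cycle_of_triangle hC a b c hab hbc hac g l hlo hl3 ?_ ?_)
      · have h1 : (0 : ℝ) ≤ (M : ℝ) * (6 * M + 10) := by positivity
        linarith
      · have h1 : (l : ℝ) ≤ (M : ℝ) * (6 * M + 12) := by
          exact_mod_cast (not_le.1 hlM).le
        have h2 : (l : ℝ) + (g : ℝ) + 3 * s ≤ (N : ℝ) := by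
          have h3 : θ / 4 * (N : ℝ) ≤ 1 / 4 * (N : ℝ) := by gcongr
          linarith
        exact_mod_cast h2
  · rw [← hn]
    exact hvol

end TurMod
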